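import Pool.Agent.Lib_MP_49ddc8.Defs

/-!
# [BSC-A1], [BSC-A2], [BSC-A3]  Valuation rings from rigid elements (Arason-Elman-Jacob)

`T ≤ H ≤ Lˣ`, `-1 ∈ T`, `H` of index 2, every `x ∉ H` is rigid (`1 + x ∈ T ∪ xT`), and one witness `a`.
`PP T H = {x ∉ H : 1 + x ∈ T}`.  For `x`, `c` in different cosets of `H` read `(x + c) / x ∈ T` as `|x| > |c|`.

[BSC-A1] `pp_or`, `pp_not`, `claimA`, `pp_neg`, `pp_wit`:
* `pp_or`, `pp_not`: `1 + x⁻¹ = (1 + x)/x`; `rig`; and `T ∩ xT = ∅` since `T ⊆ H`.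
* `claimA`: `rig` for `e/x`: `(x + e)/x ∈ T` (done) or `(x + e)/e ∈ T`.  In the second case put `p = x + e ∈ eT`, `q = x + c ∈ xT`; `p/q ∉ H`, `d = p - q`; `rig` for `-q/p`: `d/p ∈ T` (then `d/e ∈ T`, contradiction)
  or `-d/q ∈ T` (then `d/x ∈ T ⊆ H`, contradiction to `d/e ∈ H`, `x/e ∉ H`).
* `pp_neg`, `pp_wit`: let `a` be a witness, `b = 1 + a`.  For `u ≠ v` in `{1, a, -b}` (sum `0`, pairwise different classes mod `T`, all in `H`) claim A (with `c = u`, `e = -v`, `d` the third one negated) gives: `|x| > |u|` ⇒ `|x| > |-v|`,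
  and with all signs changed `|x| > |-u|` ⇒ `|x| > |v|` (`x ∉ H`).  So `|x| > 1 ⇒ |x| > |-a| ⇒ |x| > |-b| ⇒ |x| > |-1|`, and the same for `-x`; hence `|x| > 1 ⟺ |x| > |-1| ⟺ |x| > |a| ⟺ |x| > |-a|`.
  With `x⁻¹` for `x`: `x ∈ PP ⟺ -x ∈ PP ⟺ a x ∈ PP`.

[BSC-A2] `pp_mul_iff` .. `pp_mul3`:
* `pp_mul_iff`: `x, ∈ PP`: `u = 1 + x ∈ T`; `u + a = b + x = b (1 + x/b)` with `x/b ∈ PP` (`pp_wit` for the witness `-b`, see `wit_neg`, or directly), so `u + a ∈ bT`; claim A for the triple `u, a, -(u + a)` instead of `1, a, -b`: for `z ∉ H`: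
  `|z| > |u| ⟺ |z| > |a| ⟺ |z| > 1`.  With `z = 1/y`: `u y ∈ PP ⟺ y ∈ PP`.
* `pp_add2`: `1 + x + y = (1 + x)(1 + y/(1 + x))`, `y/(1+x) ∈ PP`.
* `pp_one_add_mul`: `1 + x y = (1+x)(1+y)(1 + p₁ + p₂)`, `p₁ = -x/((1+x)(1+y))`, `p₂ = -y/((1+x)(1+y))`.
* `pp_mul3`: `1 + x y z = 1 + (1 + x y) z + (-z)`.

[BSC-A3] `aej`: `O = {0} ∪ PP ∪ {c ∈ H : c PP ⊆ PP}`.  Valuation property for `z ∈ H`: else there are `x, y ∈ PP` with `z x ∉ PP`, `z⁻¹ y ∉ PP`, so `(z x)⁻¹, z y⁻¹ ∈ PP` (`pp_or`) and `y (z x)⁻¹ (z y⁻¹) = x⁻¹ ∈ PP`, contradiction.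
Products: `PP·PP ⊆ O⁺` by `pp_mul3`.  Sums: `1 + O ⊆ O` is enough (`x + y = x (1 + y/x)`); `x ∈ PP`: `1 + x ∈ T`, `pp_mul_iff`; `c ∈ O⁺`, `1 + c ∈ H`: `(1 + c) x = x + c x ∉ H`, `1 + x + c x ∈ T` (`pp_add2`);
`1 + c ∉ H`, `1 + c ≠ 0`: otherwise `y = (1 + c)⁻¹ ∈ PP` and `0 = 1 + (-y) + (-c y) ∈ T`, contradiction to `H0`.  `-1 ∈ O⁺` by `pp_neg`.
`O.valuation z < 1` means `z = 0` or `z⁻¹ ∉ O`.  For `c ∈ O⁺` with `c⁻¹ ∉ O⁺`: `x ∈ PP` with `c⁻¹ x ∉ PP`, so `y = c x⁻¹ ∈ PP`, `c = x y`, `1 + c ∈ T` (`pp_one_add_mul`).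
-/

set_option autoImplicit false

namespace BSC

structure Aej {L : Type} [Field L] (T H : Set L) : Prop where
  T1 : (1 : L) ∈ T
  Tneg : (-1 : L) ∈ T
  Tmul : ∀ x ∈ T, ∀ y ∈ T, x * y ∈ T
  Tinv : ∀ x ∈ T, x⁻¹ ∈ T
  TH : T ⊆ H
  H0 : (0 : L) ∉ H
  Hmul : ∀ x ∈ H, ∀ y ∈ H, x * y ∈ H
  Hinv : ∀ x ∈ H, x⁻¹ ∈ H
  H2 : ∀ x y : L, x ≠ 0 → y ≠ 0 → x ∉ H → y ∉ H → x * y ∈ H
  Hne : ∃ x : L, x ≠ 0 ∧ x ∉ H
  rig : ∀ x : L, x ≠ 0 → x ∉ H → 1 + x ∈ T ∨ (1 + x) / x ∈ T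
  wit : ∃ a : L, a ∈ H ∧ 1 + a ∈ H ∧ a ∉ T ∧ 1 + a ∉ T ∧ (1 + a) / a ∉ T

def PP {L : Type} [Field L] (T H : Set L) : Set L := {x | x ≠ 0 ∧ x ∉ H ∧ 1 + x ∈ T}

variable {L : Type} [Field L] {T H : Set L}

private theorem aej_one (h : Aej T H) : (1 : L) ∈ H := h.TH h.T1

private theorem aej_T0 (h : Aej T H) {x : L} (hx : x ∈ T) : x ≠ 0 := by
  rintro rfl
  exact h.H0 (h.TH hx)

private theorem aej_Tdiv (h : Aej T H) {x y : L} (hx : x ∈ T) (hy : y ∈ T) : x / y ∈ T := by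
  rw [div_eq_mul_inv]
  exact h.Tmul x hx _ (h.Tinv y hy)

private theorem aej_Hdiv (h : Aej T H) {x y : L} (hx : x ∈ H) (hy : y ∈ H) : x / y ∈ H := by
  rw [div_eq_mul_inv]
  exact h.Hmul x hx _ (h.Hinv y hy)

private theorem aej_Hne0 (h : Aej T H) {x : L} (hx : x ∈ H) : x ≠ 0 := by
  rintro rfl
  exact h.H0 hx

private theorem aej_notmul (h : Aej T H) {x c : L} (hc : c ∈ H) (hx : x ∉ H) : c * x ∉ H := by
  intro h1
  apply hx
  have h2 := aej_Hdiv h h1 hc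
  rwa [mul_div_cancel_left₀ _ (aej_Hne0 h hc)] at h2

private theorem aej_notinv (h : Aej T H) {x : L} (hx : x ∉ H) : x⁻¹ ∉ H := by
  intro h1
  apply hx
  have h2 := h.Hinv _ h1
  rwa [inv_inv] at h2

private theorem aej_Tneg (h : Aej T H) {x : L} (hx : x ∈ T) : -x ∈ T := by
  have h1 := h.Tmul _ h.Tneg _ hx
  rwa [neg_one_mul] at h1

private theorem aej_Hneg (h : Aej T H) {x : L} (hx : x ∈ H) : -x ∈ H := by
  have h1 := h.Hmul _ (h.TH h.Tneg) _ hx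
  rwa [neg_one_mul] at h1

theorem pp_or (h : Aej T H) (x : L) (h0 : x ≠ 0) (hx : x ∉ H) : x ∈ PP T H ∨ x⁻¹ ∈ PP T H := by
  rcases h.rig x h0 hx with h1 | h1
  · exact Or.inl ⟨h0, hx, h1⟩
  · refine Or.inr ⟨inv_ne_zero h0, aej_notinv h hx, ?_⟩
    have h2 : 1 + x⁻¹ = (1 + x) / x := by field_simp; ring
    rw [h2]
    exact h1

theorem pp_not (h : Aej T H) (x : L) (h1 : x ∈ PP T H) (h2 : x⁻¹ ∈ PP T H) : False := by
  obtain ⟨h0, hx, h3⟩ := h1
  obtain ⟨-, -, h4⟩ := h2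
  have h5 := aej_Tdiv h h3 h4
  have h6 : 1 + x ≠ 0 := aej_T0 h h3
  have h7 : (1 + x) / (1 + x⁻¹) = x := by
    have h8 : 1 + x⁻¹ = (1 + x) / x := by field_simp; ring
    rw [h8]
    field_simp
  rw [h7] at h5
  exact hx (h.TH h5)

theorem claimA (h : Aej T H) (c d e x : L) (hx0 : x ≠ 0) (he0 : e ≠ 0) (hsum : c + d = e) (hde : d / e ∈ H)
    (hdT : d / e ∉ T) (hxe : x / e ∉ H) (hxc : (x + c) / x ∈ T) : (x + e) / x ∈ T := by
  have hex : e / x ∉ H := by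
    have h1 := aej_notinv h hxe
    rwa [inv_div] at h1
  rcases h.rig (e / x) (div_ne_zero he0 hx0) hex with h1 | h1
  · have h2 : 1 + e / x = (x + e) / x := by field_simp
    rwa [h2] at h1
  exfalso
  have hp : (x + e) / e ∈ T := by
    have h2 : (1 + e / x) / (e / x) = (x + e) / e := by field_simp
    rwa [h2] at h1
  have hp0 : x + e ≠ 0 := fun h2 => aej_T0 h hp (by rw [h2, zero_div])
  have hq0 : x + c ≠ 0 := fun h2 => aej_T0 h hxc (by rw [h2, zero_div])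
  have hd0 : d ≠ 0 := fun h2 => aej_Hne0 h hde (by rw [h2, zero_div])
  have hpq : (x + e) / (x + c) ∉ H := by
    have h2 : (x + e) / (x + c) = ((x + e) / e / ((x + c) / x)) * (e / x) := by
      field_simp
    rw [h2]
    exact aej_notmul h (h.TH (aej_Tdiv h hp hxc)) hex
  have hqp : -((x + c) / (x + e)) ∉ H := by
    intro h2
    have h3 := aej_Hneg h h2
    rw [neg_neg] at h3
    have h4 := h.Hinv _ h3
    rw [inv_div] at h4
    exact hpq h4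
  rcases h.rig (-((x + c) / (x + e))) (neg_ne_zero.2 (div_ne_zero hq0 hp0)) hqp with h2 | h2
  · apply hdT
    have h3 : 1 + -((x + c) / (x + e)) = d / (x + e) := by
      field_simp
      rw [← hsum]
      ring
    rw [h3] at h2
    have h4 := h.Tmul _ h2 _ hp
    have h5 : d / (x + e) * ((x + e) / e) = d / e := by field_simp
    rwa [h5] at h4
  · apply hxe
    have h3 : (1 + -((x + c) / (x + e))) / -((x + c) / (x + e)) = -(d / (x + c)) := by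
      field_simp
      rw [← hsum]
      ring
    rw [h3] at h2
    have h4 := aej_Tneg h h2
    rw [neg_neg] at h4
    have h5 := h.Tmul _ h4 _ hxc
    have h6 : d / (x + c) * ((x + c) / x) = d / x := by field_simp
    rw [h6] at h5
    have h7 := aej_Hdiv h hde (h.TH h5)
    have h8 : d / e / (d / x) = x / e := by field_simp
    rwa [h8] at h7

/-- one step: `u + v + w = 0`, `v, w ∈ H`, `w / v ∉ T` -/
private theorem aej_step (h : Aej T H) (u v w x : L) (hx0 : x ≠ 0) (hx : x ∉ H) (hv : v ∈ H) (hw : w ∈ H)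
    (huvw : u + v + w = 0) (hwv : w / v ∉ T) (hxu : (x + u) / x ∈ T) : (x + -v) / x ∈ T := by
  have hv0 := aej_Hne0 h hv
  refine claimA h u w (-v) x hx0 (neg_ne_zero.2 hv0) ?_ ?_ ?_ ?_ hxu
  · linear_combination huvw
  · exact aej_Hdiv h hw (aej_Hneg h hv)
  · intro h1
    rw [div_neg] at h1
    have h2 := aej_Tneg h h1
    rw [neg_neg] at h2
    exact hwv h2
  · intro h1
    have h2 := h.Hmul _ h1 _ (aej_Hneg h hv)
    rw [div_mul_cancel₀ _ (neg_ne_zero.2 hv0)] at h2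
    exact hx h2

private theorem aej_div_not (h : Aej T H) {x y : L} (hxy : x / y ∉ T) : y / x ∉ T := by
  intro h1
  apply hxy
  have h2 := h.Tinv _ h1
  rwa [inv_div] at h2

private theorem aej_neg_not (h : Aej T H) {x : L} (hx : x ∉ T) : -x ∉ T := by
  intro h1
  apply hx
  have h2 := aej_Tneg h h1
  rwa [neg_neg] at h2

/-- `|x| > 1 ⇒ |x| > |-a|, |-1|, |a|, |1|` in a circle, for a witness `a` -/
private theorem aej_circle (h : Aej T H) (a : L) (ha : a ∈ H) (hb : 1 + a ∈ H) (haT : a ∉ T) (hbT : 1 + a ∉ T)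
    (hab : (1 + a) / a ∉ T) (x : L) (hx0 : x ≠ 0) (hx : x ∉ H) :
    ((x + 1) / x ∈ T → (x + -1) / x ∈ T) ∧ ((x + -1) / x ∈ T → (x + a) / x ∈ T) ∧
      ((x + a) / x ∈ T → (x + 1) / x ∈ T) := by
  have h1H := aej_one h
  have hna := aej_Hneg h ha
  have hnb := aej_Hneg h hb
  have hn1 := aej_Hneg h h1H
  -- ratios
  have ra : a / 1 ∉ T := by rwa [div_one]
  have rb : (1 + a) / 1 ∉ T := by rwa [div_one]
  refine ⟨fun h1 => ?_, fun h1 => ?_, fun h1 => ?_⟩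
  · -- 1 ⇒ -a ⇒ -b ⇒ -1
    have s1 := aej_step h 1 a (-(1 + a)) x hx0 hx ha hnb (by ring) (by
      rw [neg_div]; exact aej_neg_not h hab) h1
    have s2 := aej_step h (-a) (1 + a) (-1) x hx0 hx hb hn1 (by ring) (by
      rw [neg_div]; exact aej_neg_not h (aej_div_not h rb)) s1
    have s3 := aej_step h (-(1 + a)) 1 a x hx0 hx h1H ha (by ring) ra s2
    exact s3
  · -- -1 ⇒ a
    have s1 := aej_step h (-1) (-a) (1 + a) x hx0 hx hna hb (by ring) (by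
      rw [div_neg]; exact aej_neg_not h hab) h1
    rwa [neg_neg] at s1
  · -- a ⇒ b ⇒ 1
    have s1 := aej_step h a (-(1 + a)) 1 x hx0 hx hnb h1H (by ring) (by
      rw [div_neg]; exact aej_neg_not h (aej_div_not h rb)) h1
    rw [neg_neg] at s1
    have s2 := aej_step h (1 + a) (-1) (-a) x hx0 hx hn1 hna (by ring) (by
      rw [neg_div_neg_eq]; exact ra) s1
    rwa [neg_neg] at s2

private theorem aej_pp_iff (h : Aej T H) {x c : L} (hx0 : x ≠ 0) (hx : x ∉ H) (hc : c ∈ H) :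
    c * x ∈ PP T H ↔ (x⁻¹ + c) / x⁻¹ ∈ T := by
  have h1 : (x⁻¹ + c) / x⁻¹ = 1 + c * x := by field_simp
  rw [h1]
  exact ⟨fun h2 => h2.2.2, fun h2 => ⟨mul_ne_zero (aej_Hne0 h hc) hx0, aej_notmul h hc hx, h2⟩⟩

theorem pp_neg (h : Aej T H) (x : L) (hx : x ∈ PP T H) : -x ∈ PP T H := by
  obtain ⟨a, ha, hb, haT, hbT, hab⟩ := h.wit
  have hx0 := hx.1
  have hxH := hx.2.1
  have h1 := (aej_pp_iff h hx0 hxH (aej_one h)).1 (by rwa [one_mul])
  have h2 := (aej_circle h a ha hb haT hbT hab x⁻¹ (inv_ne_zero hx0) (aej_notinv h hxH)).1 h1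
  have h3 := (aej_pp_iff h hx0 hxH (aej_Hneg h (aej_one h))).2 h2
  rwa [neg_one_mul] at h3

theorem pp_wit (h : Aej T H) (a : L) (ha : a ∈ H) (hb : 1 + a ∈ H) (haT : a ∉ T) (hbT : 1 + a ∉ T)
    (hab : (1 + a) / a ∉ T) (x : L) : x ∈ PP T H ↔ a * x ∈ PP T H := by
  have ha0 := aej_Hne0 h ha
  by_cases hx0 : x = 0
  · subst hx0
    rw [mul_zero]
  by_cases hxH : x ∈ H
  · constructor
    · intro h1
      exact absurd hxH h1.2.1
    · intro h1
      exact absurd (h.Hmul _ ha _ hxH) h1.2.1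
  obtain ⟨c1, c2, c3⟩ := aej_circle h a ha hb haT hbT hab x⁻¹ (inv_ne_zero hx0) (aej_notinv h hxH)
  have e1 := aej_pp_iff h hx0 hxH (aej_one h)
  rw [one_mul] at e1
  rw [e1, aej_pp_iff h hx0 hxH ha]
  exact ⟨fun h1 => c2 (c1 h1), fun h1 => c3 h1⟩

theorem pp_mul_iff (h : Aej T H) (x : L) (hx : x ∈ PP T H) (y : L) : (1 + x) * y ∈ PP T H ↔ y ∈ PP T H := by
  obtain ⟨a, ha, hb, haT, hbT, hab⟩ := h.wit
  have hu : 1 + x ∈ T := hx.2.2
  have hu0 : 1 + x ≠ 0 := aej_T0 h hu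
  have ha0 : a ≠ 0 := aej_Hne0 h ha
  have hb0 : 1 + a ≠ 0 := aej_Hne0 h hb
  -- `x / b ∈ PP`
  have hxb : x / (1 + a) ∈ PP T H := by
    have w1 : (1 : L) + -(1 + a) ∈ H := by
      have e : (1 : L) + -(1 + a) = -a := by ring
      rw [e]
      exact aej_Hneg h ha
    have w2 : (1 : L) + -(1 + a) ∉ T := by
      have e : (1 : L) + -(1 + a) = -a := by ring
      rw [e]
      exact aej_neg_not h haT
    have w3 : ((1 : L) + -(1 + a)) / -(1 + a) ∉ T := by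
      have e : ((1 : L) + -(1 + a)) / -(1 + a) = a / (1 + a) := by
        rw [show (1 : L) + -(1 + a) = -a by ring, neg_div_neg_eq]
      rw [e]
      exact aej_div_not h hab
    have h1 := pp_wit h (-(1 + a)) (aej_Hneg h hb) w1 (aej_neg_not h hbT) w2 w3 (-(x / (1 + a)))
    have e : -(1 + a) * -(x / (1 + a)) = x := by field_simp
    rw [e] at h1
    have h2 := pp_neg h _ (h1.2 hx)
    rwa [neg_neg] at h2
  have ht : 1 + x / (1 + a) ∈ T := hxb.2.2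
  have e1 : 1 + a / (1 + x) = (1 + a) * ((1 + x / (1 + a)) / (1 + x)) := by
    field_simp
    ring
  have htu : (1 + x / (1 + a)) / (1 + x) ∈ T := aej_Tdiv h ht hu
  have htu0 := aej_T0 h htu
  have w0 : a / (1 + x) ∈ H := aej_Hdiv h ha (h.TH hu)
  have w1 : 1 + a / (1 + x) ∈ H := by
    rw [e1]
    exact h.Hmul _ hb _ (h.TH htu)
  have w2 : a / (1 + x) ∉ T := by
    intro h1
    have h2 := h.Tmul _ h1 _ hu
    rw [div_mul_cancel₀ _ hu0] at h2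
    exact haT h2
  have w3 : 1 + a / (1 + x) ∉ T := by
    intro h1
    rw [e1] at h1
    have h2 := aej_Tdiv h h1 htu
    rw [mul_div_cancel_right₀ _ htu0] at h2
    exact hbT h2
  have w4 : (1 + a / (1 + x)) / (a / (1 + x)) ∉ T := by
    intro h1
    have e2 : (1 + a / (1 + x)) / (a / (1 + x)) = (1 + a) / a * (1 + x / (1 + a)) := by
      field_simp
      ring
    rw [e2] at h1
    have h2 := aej_Tdiv h h1 ht
    rw [mul_div_cancel_right₀ _ (aej_T0 h ht)] at h2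
    exact hab h2
  have k1 := pp_wit h (a / (1 + x)) w0 w1 w2 w3 w4 ((1 + x) * y)
  have k2 := pp_wit h a ha hb haT hbT hab y
  have e3 : a / (1 + x) * ((1 + x) * y) = a * y := by field_simp
  rw [e3] at k1
  exact k1.trans k2.symm

private theorem pp_div (h : Aej T H) {x y : L} (hx : x ∈ PP T H) (hy : y ∈ PP T H) :
    y / (1 + x) ∈ PP T H := by
  rw [← pp_mul_iff h x hx]
  have hu0 : 1 + x ≠ 0 := aej_T0 h hx.2.2
  rwa [mul_div_cancel₀ _ hu0]

theorem pp_add2 (h : Aej T H) (x y : L) (hx : x ∈ PP T H) (hy : y ∈ PP T H) :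
    1 + x + y ∈ T ∧ ∀ z : L, (1 + x + y) * z ∈ PP T H ↔ z ∈ PP T H := by
  have hu0 : 1 + x ≠ 0 := aej_T0 h hx.2.2
  have h1 := pp_div h hx hy
  have e : 1 + x + y = (1 + x) * (1 + y / (1 + x)) := by field_simp
  rw [e]
  refine ⟨h.Tmul _ hx.2.2 _ h1.2.2, fun z => ?_⟩
  rw [mul_assoc, pp_mul_iff h x hx, pp_mul_iff h _ h1]

theorem pp_one_add_mul (h : Aej T H) (x y : L) (hx : x ∈ PP T H) (hy : y ∈ PP T H) :
    1 + x * y ∈ T ∧ ∀ z : L, (1 + x * y) * z ∈ PP T H ↔ z ∈ PP T H := by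
  have hu0 : 1 + x ≠ 0 := aej_T0 h hx.2.2
  have hv0 : 1 + y ≠ 0 := aej_T0 h hy.2.2
  have h1 : -x / (1 + x) / (1 + y) ∈ PP T H := pp_div h hy (pp_div h hx (pp_neg h x hx))
  have h2 : -y / (1 + x) / (1 + y) ∈ PP T H := pp_div h hy (pp_div h hx (pp_neg h y hy))
  have e : 1 + x * y = (1 + x) * ((1 + y) * (1 + -x / (1 + x) / (1 + y) + -y / (1 + x) / (1 + y))) := by
    field_simp
    ring
  have h3 := pp_add2 h _ _ h1 h2
  rw [e]
  refine ⟨h.Tmul _ hx.2.2 _ (h.Tmul _ hy.2.2 _ h3.1), fun z => ?_⟩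
  rw [mul_assoc, mul_assoc, pp_mul_iff h x hx, pp_mul_iff h y hy, h3.2]

theorem pp_mul3 (h : Aej T H) (x y z : L) (hx : x ∈ PP T H) (hy : y ∈ PP T H) (hz : z ∈ PP T H) :
    x * y * z ∈ PP T H := by
  have hxy : x * y ∈ H := h.H2 x y hx.1 hy.1 hx.2.1 hy.2.1
  refine ⟨mul_ne_zero (mul_ne_zero hx.1 hy.1) hz.1, aej_notmul h hxy hz.2.1, ?_⟩
  have h1 := (pp_add2 h _ _ (((pp_one_add_mul h x y hx hy).2 z).2 hz) (pp_neg h z hz)).1
  have e : 1 + (1 + x * y) * z + -z = 1 + x * y * z := by ring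
  rwa [e] at h1

/-- the ring `O` -/
private def aejO (T H : Set L) : Set L :=
  {z | z = 0 ∨ z ∈ PP T H ∨ (z ∈ H ∧ ∀ x ∈ PP T H, z * x ∈ PP T H)}

private theorem aejO_mul (h : Aej T H) {x y : L} (hx : x ∈ aejO T H) (hy : y ∈ aejO T H) :
    x * y ∈ aejO T H := by
  rcases hx with rfl | hx | hx
  · exact Or.inl (zero_mul y)
  · rcases hy with rfl | hy | hy
    · exact Or.inl (mul_zero x)
    · exact Or.inr (Or.inr ⟨h.H2 x y hx.1 hy.1 hx.2.1 hy.2.1, fun z hz => pp_mul3 h x y z hx hy hz⟩)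
    · exact Or.inr (Or.inl (by rw [mul_comm]; exact hy.2 x hx))
  · rcases hy with rfl | hy | hy
    · exact Or.inl (mul_zero x)
    · exact Or.inr (Or.inl (hx.2 y hy))
    · exact Or.inr (Or.inr ⟨h.Hmul x hx.1 y hy.1, fun z hz => by
        rw [mul_assoc]
        exact hx.2 _ (hy.2 z hz)⟩)

private theorem aejO_one (h : Aej T H) : (1 : L) ∈ aejO T H :=
  Or.inr (Or.inr ⟨aej_one h, fun z hz => by rwa [one_mul]⟩)

private theorem aejO_neg (h : Aej T H) {x : L} (hx : x ∈ aejO T H) : -x ∈ aejO T H := by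
  have h1 : (-1 : L) ∈ aejO T H :=
    Or.inr (Or.inr ⟨h.TH h.Tneg, fun z hz => by
      rw [neg_one_mul]
      exact pp_neg h z hz⟩)
  have h2 := aejO_mul h h1 hx
  rwa [neg_one_mul] at h2

private theorem aejO_or (h : Aej T H) (z : L) : z ∈ aejO T H ∨ z⁻¹ ∈ aejO T H := by
  by_cases hz0 : z = 0
  · exact Or.inl (Or.inl hz0)
  by_cases hzH : z ∈ H
  · by_contra hcon
    push Not at hcon
    obtain ⟨h1, h2⟩ := hcon
    have h3 : ∃ x ∈ PP T H, z * x ∉ PP T H := by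
      by_contra h4
      push Not at h4
      exact h1 (Or.inr (Or.inr ⟨hzH, h4⟩))
    have h5 : ∃ y ∈ PP T H, z⁻¹ * y ∉ PP T H := by
      by_contra h4
      push Not at h4
      exact h2 (Or.inr (Or.inr ⟨h.Hinv z hzH, h4⟩))
    obtain ⟨x, hx, hx'⟩ := h3
    obtain ⟨y, hy, hy'⟩ := h5
    have h6 : (z * x)⁻¹ ∈ PP T H :=
      (pp_or h (z * x) (mul_ne_zero hz0 hx.1) (aej_notmul h hzH hx.2.1)).resolve_left hx'
    have h7 : (z⁻¹ * y)⁻¹ ∈ PP T H :=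
      (pp_or h (z⁻¹ * y) (mul_ne_zero (inv_ne_zero hz0) hy.1)
        (aej_notmul h (h.Hinv z hzH) hy.2.1)).resolve_left hy'
    have h8 := pp_mul3 h y _ _ hy h6 h7
    have h9 : y * (z * x)⁻¹ * (z⁻¹ * y)⁻¹ = x⁻¹ := by
      have hx0 := hx.1
      have hy0 := hy.1
      field_simp
    rw [h9] at h8
    exact pp_not h x hx h8
  · rcases pp_or h z hz0 hzH with h1 | h1
    · exact Or.inl (Or.inr (Or.inl h1))
    · exact Or.inr (Or.inr (Or.inl h1))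

private theorem aejO_one_add (h : Aej T H) {w : L} (hw : w ∈ aejO T H) : 1 + w ∈ aejO T H := by
  rcases hw with rfl | hw | hw
  · rw [add_zero]
    exact aejO_one h
  · exact Or.inr (Or.inr ⟨h.TH hw.2.2, fun z hz => (pp_mul_iff h w hw z).2 hz⟩)
  · by_cases h0 : 1 + w = 0
    · exact Or.inl h0
    by_cases hH : 1 + w ∈ H
    · refine Or.inr (Or.inr ⟨hH, fun x hx => ⟨mul_ne_zero h0 hx.1, aej_notmul h hH hx.2.1, ?_⟩⟩)
      have h1 := (pp_add2 h x (w * x) hx (hw.2 x hx)).1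
      have h2 : 1 + (1 + w) * x = 1 + x + w * x := by ring
      rwa [h2]
    · rcases pp_or h (1 + w) h0 hH with h1 | h1
      · exact Or.inr (Or.inl h1)
      · exfalso
        have h2 := pp_neg h _ h1
        have h3 := (pp_add2 h _ _ h2 (hw.2 _ h2)).1
        have h4 : 1 + -(1 + w)⁻¹ + w * -(1 + w)⁻¹ = 0 := by
          field_simp
          ring
        rw [h4] at h3
        exact h.H0 (h.TH h3)

private theorem aejO_add (h : Aej T H) {x y : L} (hx : x ∈ aejO T H) (hy : y ∈ aejO T H) :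
    x + y ∈ aejO T H := by
  by_cases hx0 : x = 0
  · rwa [hx0, zero_add]
  by_cases hy0 : y = 0
  · rwa [hy0, add_zero]
  rcases aejO_or h (y / x) with h1 | h1
  · have h2 := aejO_mul h hx (aejO_one_add h h1)
    have h3 : x * (1 + y / x) = x + y := by field_simp
    rwa [h3] at h2
  · rw [inv_div] at h1
    have h2 := aejO_mul h hy (aejO_one_add h h1)
    have h3 : y * (1 + x / y) = x + y := by
      field_simp
      ring
    rwa [h3] at h2

/-- the valuation ring -/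
private def aejV (h : Aej T H) : ValuationSubring L where
  carrier := aejO T H
  mul_mem' := aejO_mul h
  one_mem' := aejO_one h
  add_mem' := aejO_add h
  zero_mem' := Or.inl rfl
  neg_mem' := aejO_neg h
  mem_or_inv_mem' := aejO_or h

/-- `aej` with the description of the maximal ideal: `𝔪 = {0} ∪ PP ∪ PP·PP` -/
theorem aej' (h : Aej T H) : ∃ O : ValuationSubring L, (∀ z : L, O.valuation z < 1 → 1 + z ∈ T ) ∧
    (∀ z : L, z ≠ 0 → z ∉ H → 1 + z ∈ T → O.valuation z < 1) ∧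
    (∀ z : L, z ≠ 0 → z ∉ H → O.valuation z ≠ 1) ∧
    ∀ z : L, O.valuation z < 1 → z = 0 ∨ z ∈ PP T H ∨ ∃ x ∈ PP T H, ∃ y ∈ PP T H, z = x * y := by
  have hmem : ∀ z : L, (aejV h).valuation z ≤ 1 ↔ z ∈ aejO T H := fun z =>
    (aejV h).valuation_le_one_iff z
  have hinv : ∀ z : L, z ≠ 0 → (aejV h).valuation z < 1 → z⁻¹ ∉ aejO T H := by
    intro z hz0 hz h1
    rw [← hmem, map_inv₀] at h1
    have h2 : (aejV h).valuation z ≠ 0 := (Valuation.ne_zero_iff _).2 hz0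
    have h3 := (inv_le_one₀ (zero_lt_iff.2 h2)).1 h1
    exact absurd hz (not_lt.2 h3)
  have hdesc : ∀ z : L, (aejV h).valuation z < 1 →
      z = 0 ∨ z ∈ PP T H ∨ ∃ x ∈ PP T H, ∃ y ∈ PP T H, z = x * y := by
    intro z hz
    by_cases hz0 : z = 0
    · exact Or.inl hz0
    rcases (hmem z).1 hz.le with h1 | h1 | h1
    · exact absurd h1 hz0
    · exact Or.inr (Or.inl h1)
    · have h2 := hinv z hz0 hz
      have h3 : ∃ x ∈ PP T H, z⁻¹ * x ∉ PP T H := by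
        by_contra h4
        push Not at h4
        exact h2 (Or.inr (Or.inr ⟨h.Hinv z h1.1, h4⟩))
      obtain ⟨x, hx, hx'⟩ := h3
      have h4 : (z⁻¹ * x)⁻¹ ∈ PP T H :=
        (pp_or h (z⁻¹ * x) (mul_ne_zero (inv_ne_zero hz0) hx.1)
          (aej_notmul h (h.Hinv z h1.1) hx.2.1)).resolve_left hx'
      have h6 : x * (z⁻¹ * x)⁻¹ = z := by
        have hx0 := hx.1
        field_simp
      exact Or.inr (Or.inr ⟨x, hx, _, h4, h6.symm⟩)
  refine ⟨aejV h, ?_, ?_, ?_, hdesc⟩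
  · intro z hz
    rcases hdesc z hz with rfl | h1 | ⟨x, hx, y, hy, rfl⟩
    · rw [add_zero]
      exact h.T1
    · exact h1.2.2
    · exact (pp_one_add_mul h x y hx hy).1
  · intro z hz0 hzH hz1
    have hP : z ∈ PP T H := ⟨hz0, hzH, hz1⟩
    have h1 : (aejV h).valuation z ≤ 1 := (hmem z).2 (Or.inr (Or.inl hP))
    refine lt_of_le_of_ne h1 fun h2 => ?_
    have h3 : z⁻¹ ∈ aejO T H := by
      rw [← hmem, map_inv₀, h2, inv_one]
    rcases h3 with h3 | h3 | h3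
    · exact inv_ne_zero hz0 h3
    · exact pp_not h z hP h3
    · exact aej_notinv h hzH h3.1
  · intro z hz0 hzH h2
    have h3 : z ∈ aejO T H := (hmem z).1 h2.le
    have h4 : z⁻¹ ∈ aejO T H := by
      rw [← hmem, map_inv₀, h2, inv_one]
    have h5 : z ∈ PP T H := by
      rcases h3 with h3 | h3 | h3
      · exact absurd h3 hz0
      · exact h3
      · exact absurd h3.1 hzH
    rcases h4 with h4 | h4 | h4
    · exact inv_ne_zero hz0 h4
    · exact pp_not h z h5 h4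
    · exact aej_notinv h hzH h4.1

theorem aej (h : Aej T H) : ∃ O : ValuationSubring L, (∀ z : L, O.valuation z < 1 → 1 + z ∈ T ) ∧
    (∀ z : L, z ≠ 0 → z ∉ H → 1 + z ∈ T → O.valuation z < 1) ∧
    ∀ z : L, z ≠ 0 → z ∉ H → O.valuation z ≠ 1 := by
  obtain ⟨O, h1, h2, h3, _⟩ := aej' h
  exact ⟨O, h1, h2, h3⟩

end BSC
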