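import Pool.Agent.Lib_MP_49ddc8.Defs

/-!
# Algebra of halving and duplication (from piece [BSC-D3])
-/

set_option autoImplicit false

open Polynomial

namespace BSC

/-- one halving step -/
def HalfStep {Ω : Type} [Field Ω] (F : Subfield Ω) (t e₁ e₂ e₃ x x' : Ω) : Prop :=
  ∃ r₁ ∈ F, ∃ r₂ ∈ F, ∃ r₃ ∈ F, t * (x - e₁) = r₁ ^ 2 ∧ t * (x - e₂) = r₂ ^ 2 ∧ t * (x - e₃) = r₃ ^ 2 ∧
    ∃ h : Ω, h = x + (r₁ * r₂ + r₁ * r₃ + r₂ * r₃) / t ∧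
      (x' = h ∨ x' = TT e₁ e₂ e₃ h ∨ x' = TT e₂ e₁ e₃ h ∨ x' = TT e₃ e₁ e₂ h)

section algebra

variable {Ω : Type} [Field Ω] [CharZero Ω]

theorem half_sub (t e₁ e₂ e₃ x r₁ r₂ r₃ h : Ω) (ht : t ≠ 0) (h12 : e₁ ≠ e₂) (h13 : e₁ ≠ e₃) (h23 : e₂ ≠ e₃)
    (hr1 : t * (x - e₁) = r₁ ^ 2) (hr2 : t * (x - e₂) = r₂ ^ 2) (hr3 : t * (x - e₃) = r₃ ^ 2)
    (hh : h = x + (r₁ * r₂ + r₁ * r₃ + r₂ * r₃) / t) :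
    h - e₁ = (r₁ + r₂) * (r₁ + r₃) / t ∧ h - e₂ = (r₂ + r₁) * (r₂ + r₃) / t ∧ h - e₃ = (r₃ + r₁) * (r₃ + r₂) / t ∧
      r₁ + r₂ ≠ 0 ∧ r₁ + r₃ ≠ 0 ∧ r₂ + r₃ ≠ 0 ∧ h ≠ e₁ ∧ h ≠ e₂ ∧ h ≠ e₃ := by
  have hth : t * h = t * x + (r₁ * r₂ + r₁ * r₃ + r₂ * r₃) := by
    rw [hh]; field_simp
  have n12 : r₁ + r₂ ≠ 0 := by
    intro h0
    have : t * (e₂ - e₁) = 0 := by linear_combination hr1 - hr2 + (r₁ - r₂) * h0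
    rcases mul_eq_zero.mp this with h | h
    · exact ht h
    · exact h12 (sub_eq_zero.mp h).symm
  have n13 : r₁ + r₃ ≠ 0 := by
    intro h0
    have : t * (e₃ - e₁) = 0 := by linear_combination hr1 - hr3 + (r₁ - r₃) * h0
    rcases mul_eq_zero.mp this with h | h
    · exact ht h
    · exact h13 (sub_eq_zero.mp h).symm
  have n23 : r₂ + r₃ ≠ 0 := by
    intro h0
    have : t * (e₃ - e₂) = 0 := by linear_combination hr2 - hr3 + (r₂ - r₃) * h0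
    rcases mul_eq_zero.mp this with h | h
    · exact ht h
    · exact h23 (sub_eq_zero.mp h).symm
  have s1 : h - e₁ = (r₁ + r₂) * (r₁ + r₃) / t := by
    rw [eq_div_iff ht]; linear_combination hth + hr1
  have s2 : h - e₂ = (r₂ + r₁) * (r₂ + r₃) / t := by
    rw [eq_div_iff ht]; linear_combination hth + hr2
  have s3 : h - e₃ = (r₃ + r₁) * (r₃ + r₂) / t := by
    rw [eq_div_iff ht]; linear_combination hth + hr3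
  refine ⟨s1, s2, s3, n12, n13, n23, ?_, ?_, ?_⟩
  · intro h0
    rw [h0, sub_self] at s1
    exact (div_ne_zero (mul_ne_zero n12 n13) ht) s1.symm
  · intro h0
    rw [h0, sub_self] at s2
    exact (div_ne_zero (mul_ne_zero (by rwa [add_comm]) n23) ht) s2.symm
  · intro h0
    rw [h0, sub_self] at s3
    exact (div_ne_zero (mul_ne_zero (by rwa [add_comm]) (by rwa [add_comm])) ht) s3.symm

theorem DD_half (t e₁ e₂ e₃ x r₁ r₂ r₃ h : Ω) (ht : t ≠ 0) (h12 : e₁ ≠ e₂) (h13 : e₁ ≠ e₃) (h23 : e₂ ≠ e₃)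
    (hr1 : t * (x - e₁) = r₁ ^ 2) (hr2 : t * (x - e₂) = r₂ ^ 2) (hr3 : t * (x - e₃) = r₃ ^ 2)
    (hh : h = x + (r₁ * r₂ + r₁ * r₃ + r₂ * r₃) / t) : DD e₁ e₂ e₃ h = x := by
  obtain ⟨s1, s2, s3, n12, n13, n23, m1, m2, m3⟩ :=
    half_sub t e₁ e₂ e₃ x r₁ r₂ r₃ h ht h12 h13 h23 hr1 hr2 hr3 hh
  have a1 : x - e₁ = r₁ ^ 2 / t := by rw [eq_div_iff ht]; linear_combination hr1
  have a12 : e₁ - e₂ = (r₂ ^ 2 - r₁ ^ 2) / t := by rw [eq_div_iff ht]; linear_combination hr2 - hr1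
  have a13 : e₁ - e₃ = (r₃ ^ 2 - r₁ ^ 2) / t := by rw [eq_div_iff ht]; linear_combination hr3 - hr1
  have key : ((h - e₁) ^ 2 - (e₁ - e₂) * (e₁ - e₃)) = 2 * r₁ * ((r₁ + r₂) * (r₁ + r₃) * (r₂ + r₃)) / t ^ 2 := by
    rw [s1, a12, a13]; field_simp; ring
  have prod : (h - e₁) * (h - e₂) * (h - e₃) = ((r₁ + r₂) * (r₁ + r₃) * (r₂ + r₃)) ^ 2 / t ^ 3 := by
    rw [s1, s2, s3]; field_simp; ring
  have nz : (r₁ + r₂) * (r₁ + r₃) * (r₂ + r₃) ≠ 0 := mul_ne_zero (mul_ne_zero n12 n13) n23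
  unfold DD
  rw [key, prod]
  have : (2 * r₁ * ((r₁ + r₂) * (r₁ + r₃) * (r₂ + r₃)) / t ^ 2) ^ 2 /
      (4 * (((r₁ + r₂) * (r₁ + r₃) * (r₂ + r₃)) ^ 2 / t ^ 3)) = x - e₁ := by
    rw [a1]
    generalize (r₁ + r₂) * (r₁ + r₃) * (r₂ + r₃) = w at nz
    field_simp
    ring
  rw [this]; ring

theorem DD_symm (e₁ e₂ e₃ x : Ω) (h1 : x ≠ e₁) (h2 : x ≠ e₂) (h3 : x ≠ e₃) :
    DD e₁ e₂ e₃ x = DD e₂ e₁ e₃ x ∧ DD e₁ e₂ e₃ x = DD e₃ e₁ e₂ x := by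
  have k1 : x - e₁ ≠ 0 := sub_ne_zero.mpr h1
  have k2 : x - e₂ ≠ 0 := sub_ne_zero.mpr h2
  have k3 : x - e₃ ≠ 0 := sub_ne_zero.mpr h3
  unfold DD
  constructor
  · field_simp; ring
  · field_simp; ring

theorem TT_ne (e₁ e₂ e₃ x : Ω) (h12 : e₁ ≠ e₂) (h13 : e₁ ≠ e₃) (h1 : x ≠ e₁) (h2 : x ≠ e₂) (h3 : x ≠ e₃) :
    TT e₁ e₂ e₃ x ≠ e₁ ∧ TT e₁ e₂ e₃ x ≠ e₂ ∧ TT e₁ e₂ e₃ x ≠ e₃ ∧
      (TT e₁ e₂ e₃ x - e₁) * (TT e₁ e₂ e₃ x - e₂) * (TT e₁ e₂ e₃ x - e₃) =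
        (x - e₁) * (x - e₂) * (x - e₃) * ((e₁ - e₂) * (e₁ - e₃) / (x - e₁) ^ 2) ^ 2 := by
  have k1 : x - e₁ ≠ 0 := sub_ne_zero.mpr h1
  have k2 : x - e₂ ≠ 0 := sub_ne_zero.mpr h2
  have k3 : x - e₃ ≠ 0 := sub_ne_zero.mpr h3
  have l12 : e₁ - e₂ ≠ 0 := sub_ne_zero.mpr h12
  have l13 : e₁ - e₃ ≠ 0 := sub_ne_zero.mpr h13
  have s1 : TT e₁ e₂ e₃ x - e₁ = (e₁ - e₂) * (e₁ - e₃) / (x - e₁) := by unfold TT; ring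
  have s2 : TT e₁ e₂ e₃ x - e₂ = (e₁ - e₂) * (x - e₃) / (x - e₁) := by unfold TT; field_simp; ring
  have s3 : TT e₁ e₂ e₃ x - e₃ = (e₁ - e₃) * (x - e₂) / (x - e₁) := by unfold TT; field_simp; ring
  refine ⟨?_, ?_, ?_, ?_⟩
  · rw [← sub_ne_zero, s1]; exact div_ne_zero (mul_ne_zero l12 l13) k1
  · rw [← sub_ne_zero, s2]; exact div_ne_zero (mul_ne_zero l12 k3) k1
  · rw [← sub_ne_zero, s3]; exact div_ne_zero (mul_ne_zero l13 k2) k1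
  · rw [s1, s2, s3]; field_simp

theorem DD_TT_aux (e₁ e₂ e₃ x : Ω) (h12 : e₁ ≠ e₂) (h13 : e₁ ≠ e₃) (h1 : x ≠ e₁) (h2 : x ≠ e₂) (h3 : x ≠ e₃) :
    DD e₁ e₂ e₃ (TT e₁ e₂ e₃ x) = DD e₁ e₂ e₃ x := by
  have k1 : x - e₁ ≠ 0 := sub_ne_zero.mpr h1
  have k2 : x - e₂ ≠ 0 := sub_ne_zero.mpr h2
  have k3 : x - e₃ ≠ 0 := sub_ne_zero.mpr h3
  have l12 : e₁ - e₂ ≠ 0 := sub_ne_zero.mpr h12
  have l13 : e₁ - e₃ ≠ 0 := sub_ne_zero.mpr h13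
  obtain ⟨_, _, _, hp⟩ := TT_ne e₁ e₂ e₃ x h12 h13 h1 h2 h3
  have s1 : TT e₁ e₂ e₃ x - e₁ = (e₁ - e₂) * (e₁ - e₃) / (x - e₁) := by unfold TT; ring
  unfold DD
  rw [hp, s1]
  have : (((e₁ - e₂) * (e₁ - e₃) / (x - e₁)) ^ 2 - (e₁ - e₂) * (e₁ - e₃)) ^ 2 /
      (4 * ((x - e₁) * (x - e₂) * (x - e₃) * ((e₁ - e₂) * (e₁ - e₃) / (x - e₁) ^ 2) ^ 2)) =
      ((x - e₁) ^ 2 - (e₁ - e₂) * (e₁ - e₃)) ^ 2 / (4 * ((x - e₁) * (x - e₂) * (x - e₃))) := by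
    generalize x - e₁ = a at *
    generalize x - e₂ = b at *
    generalize x - e₃ = c at *
    generalize e₁ - e₂ = p at *
    generalize e₁ - e₃ = q at *
    field_simp
    ring
  rw [this]

theorem DD_TT (e₁ e₂ e₃ x : Ω) (h12 : e₁ ≠ e₂) (h13 : e₁ ≠ e₃) (h23 : e₂ ≠ e₃) (h1 : x ≠ e₁) (h2 : x ≠ e₂) (h3 : x ≠ e₃) :
    DD e₁ e₂ e₃ (TT e₁ e₂ e₃ x) = DD e₁ e₂ e₃ x ∧ DD e₁ e₂ e₃ (TT e₂ e₁ e₃ x) = DD e₁ e₂ e₃ x ∧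
      DD e₁ e₂ e₃ (TT e₃ e₁ e₂ x) = DD e₁ e₂ e₃ x := by
  refine ⟨DD_TT_aux e₁ e₂ e₃ x h12 h13 h1 h2 h3, ?_, ?_⟩
  · obtain ⟨a2, a1, a3, _⟩ := TT_ne e₂ e₁ e₃ x h12.symm h23 h2 h1 h3
    rw [(DD_symm e₁ e₂ e₃ _ a1 a2 a3).1, DD_TT_aux e₂ e₁ e₃ x h12.symm h23 h2 h1 h3,
      (DD_symm e₁ e₂ e₃ x h1 h2 h3).1]
  · obtain ⟨a3, a1, a2, _⟩ := TT_ne e₃ e₁ e₂ x h13.symm h23.symm h3 h1 h2
    rw [(DD_symm e₁ e₂ e₃ _ a1 a2 a3).2, DD_TT_aux e₃ e₁ e₂ x h13.symm h23.symm h3 h1 h2,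
      (DD_symm e₁ e₂ e₃ x h1 h2 h3).2]

end algebra

end BSC
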