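import Pool.Agent.Lib_MP_49ddc8.Ht

/-!
# [BS-Z1] .. [BS-Z5]  `Arith M` for the subfields `M` of finite extensions of `ℚ_[2]`

`C` is an ultrametric normed field with `‖2‖ < 1`, `T` a subfield whose closed balls are totally bounded (`TB T`).

[BS-Z1] `tb_fin`: `L` is a finite dimensional normed space over `ℚ_[2]`, `FiniteDimensional.proper`, closed balls are compact, so they are covered by finitely many balls of radius `ε / 2`; pigeonhole.

[BS-Z2] `tb_inf`: `N` from `TB`.  For all `s` (large) apply it to `i ↦ c (s + i)`: `i < j ≤ N`, `m = s + i`, `d = j - i`; some `d` occurs for infinitely many `s`.  `tb_sep`: otherwise there is an injective sequence in `S` (`Set.Infinite.natEmbedding`).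

[BS-Z3] `tb_unif`: the set of the norms of the elements `z ∈ M` with `‖2‖ ≤ ‖z‖ < 1` is finite (choose elements with different norms; if `‖z - z'‖ < ‖2‖ ≤ ‖z‖` then `‖z‖ = ‖z'‖`) and not empty (`2`); take the largest.

[BS-Z4] `root_chain`: `ρ = ‖π‖ < 1` from `tb_unif` for `M = T`.  `‖w 0‖ = ‖w j‖ ^ (2 ^ j)`; if `‖w 0‖ < 1` then all `‖w j‖ < 1`, so `≤ ρ`, so `‖w 0‖ ≤ ρ ^ (2 ^ j) → 0`; if `‖w 0‖ > 1` the same for the inverses.  So `‖w j‖ = 1` for all `j`.  `tb_inf` with `R = 1`, `ε = ‖2‖ ^ 2`: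
`d ≤ N`, `‖w m - w (m + d)‖ < ε` for arbitrarily large `m`; with `h = w m / w (m + d) - 1`, `‖h‖ < ε`: `‖(1 + h) ^ 2 - 1‖ = ‖h‖ ‖2 + h‖ = ‖h‖ ‖2‖`, so `‖w 0 / w d - 1‖ ≤ ‖2‖ ^ m ε`, so `w 0 = w d`, `w d ^ (2 ^ d) = w 0`.

[BS-Z5] `arith_two`: (A1) let `V ≠ ⊤`, `1 + 𝔪` squares.  For `z ∈ 𝔪` there is a chain `w 0 = 1 + z`, `w (j + 1) ^ 2 = w j`, `w j ∈ 1 + 𝔪` (`(w - 1)(w + 1) ∈ 𝔪`, change the sign of `w`); `root_chain` for `σ ∘ w`: `1 + z` is a root of `X ^ (2 ^ d - 1) - 1` for some `1 ≤ d ≤ N`, `N` independent of `z`; so `𝔪` is finite.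
But `z, z², z³, ..` are different for `0 ≠ z ∈ 𝔪`.  (A2) `tb_unif` for `M = σ.fieldRange`, `σ a = π`: `π = w ^ 2` would give `‖π‖ < ‖w‖ < 1`; `1 + π = w ^ 2`, `h = w - 1`, `‖h‖ ‖h + 2‖ = ‖π‖`: if `‖h‖ < 1` then `‖h‖, ‖2‖ ≤ ‖π‖` and the product is `≤ ‖π‖ ^ 2`; if `‖h‖ = 1` the product is `1`,
if `‖h‖ > 1` it is `> 1`; `π (1 + π)` has the norm of `π`.
-/

set_option autoImplicit false

open Filter

namespace BSC

/-- the closed balls of the subfield `T` are totally bounded -/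
def TB {C : Type} [NormedField C] (T : Subfield C) : Prop :=
  ∀ R ε : ℝ, 0 < ε → ∃ N : ℕ, ∀ c : ℕ → C, (∀ i, c i ∈ T ∧ ‖c i‖ ≤ R) → ∃ i j, i < j ∧ j ≤ N ∧ ‖c i - c j‖ < ε

theorem tb_fin (L : IntermediateField ℚ_[2] (PadicAlgCl 2)) (hL : FiniteDimensional ℚ_[2] L) : TB L.toSubfield := by
  intro R ρ hρ
  let S : Submodule ℚ_[2] (PadicAlgCl 2) := Subalgebra.toSubmodule L.toSubalgebra
  have hfd : FiniteDimensional ℚ_[2] S := hL
  have hprop : ProperSpace S := FiniteDimensional.proper ℚ_[2] S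
  have hcomp : IsCompact (Metric.closedBall (0 : S) R) := isCompact_closedBall _ _
  obtain ⟨t, _, htf, hcov⟩ := finite_cover_balls_of_compact hcomp (half_pos hρ)
  refine ⟨htf.toFinset.card, fun u hu => ?_⟩
  have hmem : ∀ i, u i ∈ S := fun i => (hu i).1
  have hball : ∀ i, ∃ c ∈ t, dist (⟨u i, hmem i⟩ : S) c < ρ / 2 := by
    intro i
    have h1 : (⟨u i, hmem i⟩ : S) ∈ Metric.closedBall (0 : S) R := by
      rw [mem_closedBall_zero_iff]
      exact (hu i).2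
    have h2 := hcov h1
    simp only [Set.mem_iUnion, Metric.mem_ball, exists_prop] at h2
    exact h2
  choose c hct hcd using hball
  obtain ⟨i, hi, j, hj, hij, hc⟩ := Finset.exists_ne_map_eq_of_card_lt_of_maps_to
    (s := Finset.range (htf.toFinset.card + 1)) (t := htf.toFinset) (f := c) (by simp)
    (fun i _ => by simpa using hct i)
  have key : ∀ a b : ℕ, c a = c b → ‖u a - u b‖ < ρ := by
    intro a b hab
    have h3 : dist (⟨u a, hmem a⟩ : S) ⟨u b, hmem b⟩ < ρ := by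
      calc dist (⟨u a, hmem a⟩ : S) ⟨u b, hmem b⟩ ≤ dist (⟨u a, hmem a⟩ : S) (c a) + dist (c a) (⟨u b, hmem b⟩ : S) :=
            dist_triangle _ _ _
        _ < ρ / 2 + ρ / 2 := by
            have h4 := hcd a
            have h5 := hcd b
            rw [← hab, dist_comm] at h5
            linarith
        _ = ρ := by ring
    have h6 : dist (⟨u a, hmem a⟩ : S) ⟨u b, hmem b⟩ = ‖u a - u b‖ := by
      rw [dist_eq_norm]
      rfl
    rw [h6] at h3
    exact h3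
  rw [Finset.mem_range] at hi hj
  rcases lt_or_gt_of_ne hij with hlt | hgt
  · exact ⟨i, j, hlt, by omega, key i j hc⟩
  · exact ⟨j, i, hgt, by omega, key j i hc.symm⟩

theorem tb_inf {C : Type} [NormedField C] (T : Subfield C) (hT : TB T) (R ε : ℝ) (hε : 0 < ε) :
    ∃ N : ℕ, ∀ c : ℕ → C, (∀ i, c i ∈ T) → (∃ i₀ : ℕ, ∀ i, i₀ ≤ i → ‖c i‖ ≤ R) →
      ∃ d, 1 ≤ d ∧ d ≤ N ∧ ∀ M : ℕ, ∃ m, M ≤ m ∧ ‖c m - c (m + d)‖ < ε := by
  obtain ⟨N, hN⟩ := hT R ε hε
  refine ⟨N, fun c hc hb => ?_⟩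
  obtain ⟨i₀, hi₀⟩ := hb
  by_contra hcon
  push Not at hcon
  choose! F hF using hcon
  obtain ⟨i, j, hij, hjN, hd⟩ := hN (fun i => c (i₀ + (∑ d ∈ Finset.range (N + 1), F d) + i))
    (fun i => ⟨hc _, hi₀ _ (by omega)⟩)
  have h1 : F (j - i) ≤ ∑ d ∈ Finset.range (N + 1), F d :=
    Finset.single_le_sum (f := F) (fun _ _ => Nat.zero_le _) (Finset.mem_range.2 (by omega))
  have h2 := hF (j - i) (by omega) (by omega) (i₀ + (∑ d ∈ Finset.range (N + 1), F d) + i) (by omega)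
  have h3 : i₀ + (∑ d ∈ Finset.range (N + 1), F d) + i + (j - i) = i₀ + (∑ d ∈ Finset.range (N + 1), F d) + j := by
    omega
  rw [h3] at h2
  exact absurd hd (not_lt.2 h2)

theorem tb_sep {C : Type} [NormedField C] (T : Subfield C) (hT : TB T) (R ε : ℝ) (hε : 0 < ε) (S : Set C)
    (hS : ∀ a ∈ S, a ∈ T ∧ ‖a‖ ≤ R) (hsep : ∀ a ∈ S, ∀ b ∈ S, ‖a - b‖ < ε → a = b) : S.Finite := by
  by_contra hinf
  have hinf' : S.Infinite := hinf
  obtain ⟨N, hN⟩ := hT R ε hε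
  obtain ⟨i, j, hij, -, hd⟩ := hN (fun i => ((hinf'.natEmbedding S i : S) : C)) (fun i => hS _ (hinf'.natEmbedding S i).2)
  have h1 := hsep _ (hinf'.natEmbedding S i).2 _ (hinf'.natEmbedding S j).2 hd
  have h2 := (hinf'.natEmbedding S).injective (Subtype.ext h1)
  omega

theorem tb_unif {C : Type} [NormedField C] [CharZero C] [IsUltrametricDist C] (h2 : ‖(2 : C)‖ < 1) (T M : Subfield C) (hT : TB T)
    (hM : M ≤ T) : ∃ π ∈ M, π ≠ 0 ∧ ‖π‖ < 1 ∧ ∀ z ∈ M, ‖z‖ < 1 → ‖z‖ ≤ ‖π‖ := by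
  have h20 : (0 : ℝ) < ‖(2 : C)‖ := norm_pos_iff.2 two_ne_zero
  have h2M : (2 : C) ∈ M := by
    rw [← one_add_one_eq_two]
    exact M.add_mem M.one_mem M.one_mem
  let N : Set ℝ := {r : ℝ | ‖(2 : C)‖ ≤ r ∧ r < 1 ∧ ∃ z ∈ M, ‖z‖ = r}
  have hch : ∀ r : ℝ, ∃ z : C, r ∈ N → z ∈ M ∧ ‖z‖ = r := by
    intro r
    by_cases hr : r ∈ N
    · obtain ⟨z, hz, hzr⟩ := hr.2.2
      exact ⟨z, fun _ => ⟨hz, hzr⟩⟩
    · exact ⟨0, fun h => absurd h hr⟩
  choose f hf using hch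
  have hfin : (f '' N).Finite := by
    apply tb_sep T hT 1 ‖(2 : C)‖ h20
    · rintro a ⟨r, hr, rfl⟩
      exact ⟨hM (hf r hr).1, by rw [(hf r hr).2]; exact hr.2.1.le⟩
    · rintro a ⟨r, hr, rfl⟩ b ⟨r', hr', rfl⟩ hab
      have hn : ‖f r‖ = ‖f r'‖ := by
        by_contra hne
        have h1 : ‖f r + -f r'‖ = max ‖f r‖ ‖-f r'‖ :=
          IsUltrametricDist.norm_add_eq_max_of_norm_ne_norm (by rwa [norm_neg])
        rw [← sub_eq_add_neg] at h1
        have h3 : ‖f r‖ ≤ ‖f r - f r'‖ := by rw [h1]; exact le_max_left _ _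
        rw [(hf r hr).2] at h3
        exact absurd hab (not_lt.2 (hr.1.trans h3))
      rw [(hf r hr).2, (hf r' hr').2] at hn
      rw [hn]
  have hNfin : N.Finite := by
    refine (hfin.image (fun z => ‖z‖)).subset ?_
    intro r hr
    exact ⟨f r, ⟨r, hr, rfl⟩, (hf r hr).2⟩
  have hNne : N.Nonempty := ⟨‖(2 : C)‖, le_refl _, h2, 2, h2M, rfl⟩
  obtain ⟨r, hr, hmax⟩ := Set.exists_max_image N id hNfin hNne
  refine ⟨f r, (hf r hr).1, ?_, ?_, ?_⟩
  · intro h0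
    have h4 := (hf r hr).2
    rw [h0, norm_zero] at h4
    have := hr.1
    linarith
  · rw [(hf r hr).2]
    exact hr.2.1
  · intro z hz hz1
    rw [(hf r hr).2]
    by_cases h5 : ‖(2 : C)‖ ≤ ‖z‖
    · exact hmax ‖z‖ ⟨h5, hz1, z, hz, rfl⟩
    · exact (not_le.1 h5).le.trans hr.1

private theorem rc_pow {C : Type} [Monoid C] {w : ℕ → C} (hw : ∀ j, w (j + 1) ^ 2 = w j) (i j : ℕ) :
    w (i + j) ^ 2 ^ j = w i := by
  induction j with
  | zero => rw [pow_zero, pow_one, add_zero]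
  | succ j ih =>
    rw [← ih, pow_succ' 2 j, pow_mul, ← add_assoc, hw]

private theorem rc_ge {C : Type} [NormedField C] (T : Subfield C) {π : C}
    (hπ1 : ‖π‖ < 1) (hπ : ∀ z ∈ T, ‖z‖ < 1 → ‖z‖ ≤ ‖π‖) {w : ℕ → C} (hT : ∀ j, w j ∈ T)
    (h0 : w 0 ≠ 0) (hw : ∀ j, w (j + 1) ^ 2 = w j) : 1 ≤ ‖w 0‖ := by
  by_contra hlt
  push Not at hlt
  have h1 : ∀ j, ‖w 0‖ ≤ ‖π‖ ^ 2 ^ j := by
    intro j
    have h2 := rc_pow hw 0 j
    rw [zero_add] at h2
    rw [← h2, norm_pow]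
    refine pow_le_pow_left₀ (norm_nonneg _) (hπ _ (hT j) ?_) _
    by_contra h3
    push Not at h3
    have h4 : 1 ≤ ‖w j‖ ^ 2 ^ j := one_le_pow₀ h3
    rw [← norm_pow, h2] at h4
    linarith
  have h3 : Tendsto (fun j : ℕ => ‖π‖ ^ 2 ^ j) atTop (nhds 0) :=
    (tendsto_pow_atTop_nhds_zero_of_lt_one (norm_nonneg _) hπ1).comp
      (tendsto_pow_atTop_atTop_of_one_lt (by norm_num : 1 < 2))
  have h4 := ge_of_tendsto' h3 h1
  exact h0 (norm_le_zero_iff.1 h4)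

theorem root_chain {C : Type} [NormedField C] [CharZero C] [IsUltrametricDist C] (h2 : ‖(2 : C)‖ < 1) (T : Subfield C) (hT : TB T) :
    ∃ N : ℕ, ∀ w : ℕ → C, (∀ j, w j ∈ T) → w 0 ≠ 0 → (∀ j, w (j + 1) ^ 2 = w j) →
      ∃ d, 1 ≤ d ∧ d ≤ N ∧ w 0 ^ (2 ^ d - 1) = 1 := by
  obtain ⟨π, hπT, hπ0, hπ1, hπ⟩ := tb_unif h2 T T hT le_rfl
  have h20 : 0 < ‖(2 : C)‖ := norm_pos_iff.2 two_ne_zero
  obtain ⟨N, hN⟩ := tb_inf T hT 1 (‖(2 : C)‖ ^ 2) (by positivity)
  refine ⟨N, fun w hwT h0 hw => ?_⟩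
  have hne : ∀ j, w j ≠ 0 := by
    intro j hj
    have h1 := rc_pow hw 0 j
    rw [zero_add, hj, zero_pow (by positivity)] at h1
    exact h0 h1.symm
  have hn0 : ‖w 0‖ = 1 := by
    have h1 := rc_ge T hπ1 hπ hwT h0 hw
    have h3 := rc_ge T hπ1 hπ (w := fun j => (w j)⁻¹) (fun j => inv_mem (hwT j)) (inv_ne_zero h0)
      (fun j => by rw [inv_pow, hw])
    rw [norm_inv] at h3
    have h4 : ‖w 0‖ ≤ 1 := by
      rw [one_le_inv₀ (by linarith)] at h3
      exact h3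
    linarith
  have hn : ∀ j, ‖w j‖ = 1 := by
    intro j
    have h1 := rc_pow hw 0 j
    rw [zero_add] at h1
    rw [← h1, norm_pow] at hn0
    exact (pow_eq_one_iff_of_nonneg (norm_nonneg _) (by positivity)).1 hn0
  obtain ⟨d, hd1, hdN, hd⟩ := hN w hwT ⟨0, fun i _ => (hn i).le⟩
  -- the quotients contract
  have key : ∀ n i, ‖w (i + n) / w (i + n + d) - 1‖ < ‖(2 : C)‖ ^ 2 →
      ‖w i / w (i + d) - 1‖ ≤ ‖(2 : C)‖ ^ n * ‖(2 : C)‖ ^ 2 := by
    intro n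
    induction n with
    | zero =>
      intro i hi
      rw [pow_zero, one_mul]
      exact hi.le
    | succ n ih =>
      intro i hi
      have h1 := ih (i + 1) (by
        rw [show i + 1 + n = i + (n + 1) by ring]
        exact hi)
      obtain ⟨h, hh⟩ : ∃ h, h = w (i + 1) / w (i + 1 + d) - 1 := ⟨_, rfl⟩
      rw [← hh] at h1
      have h3 : ‖(2 : C)‖ ^ n * ‖(2 : C)‖ ^ 2 ≤ ‖(2 : C)‖ ^ 2 :=
        mul_le_of_le_one_left (by positivity) (pow_le_one₀ h20.le h2.le)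
      have h4 : ‖(2 : C)‖ ^ 2 < ‖(2 : C)‖ := by nlinarith
      have h5 : ‖h‖ < ‖(2 : C)‖ := by linarith
      have h6 : ‖h + 2‖ = ‖(2 : C)‖ := by
        rw [IsUltrametricDist.norm_add_eq_max_of_norm_ne_norm (ne_of_lt h5)]
        exact max_eq_right h5.le
      have h7 : w i / w (i + d) - 1 = h * (h + 2) := by
        have e1 : w i = w (i + 1) ^ 2 := (hw i).symm
        have e2 : w (i + d) = w (i + 1 + d) ^ 2 := by
          rw [show i + 1 + d = i + d + 1 by ring]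
          exact (hw _).symm
        rw [e1, e2, ← div_pow, hh]
        ring
      rw [h7, norm_mul, h6]
      calc ‖h‖ * ‖(2 : C)‖ ≤ ‖(2 : C)‖ ^ n * ‖(2 : C)‖ ^ 2 * ‖(2 : C)‖ :=
            mul_le_mul_of_nonneg_right h1 h20.le
        _ = ‖(2 : C)‖ ^ (n + 1) * ‖(2 : C)‖ ^ 2 := by ring
  have hlim : ∀ M : ℕ, ‖w 0 / w (0 + d) - 1‖ ≤ ‖(2 : C)‖ ^ M := by
    intro M
    obtain ⟨m, hmM, hm⟩ := hd M
    have h1 := key m 0 (by
      have e : w (0 + m) / w (0 + m + d) - 1 = (w m - w (m + d)) / w (m + d) := by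
        rw [zero_add, sub_div, div_self (hne _)]
      rw [e, norm_div, hn, div_one]
      exact hm)
    refine h1.trans ?_
    have h3 : ‖(2 : C)‖ ^ 2 ≤ 1 := pow_le_one₀ h20.le h2.le
    calc ‖(2 : C)‖ ^ m * ‖(2 : C)‖ ^ 2 ≤ ‖(2 : C)‖ ^ m * 1 :=
          mul_le_mul_of_nonneg_left h3 (by positivity)
      _ = ‖(2 : C)‖ ^ m := mul_one _
      _ ≤ ‖(2 : C)‖ ^ M := pow_le_pow_of_le_one h20.le h2.le hmM
  have h3 := ge_of_tendsto' (tendsto_pow_atTop_nhds_zero_of_lt_one (norm_nonneg (2 : C)) h2) hlim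
  rw [zero_add] at h3
  have h4 : w 0 = w d := by
    have h5 := norm_le_zero_iff.1 h3
    rw [sub_eq_zero, div_eq_one_iff_eq (hne d)] at h5
    exact h5
  refine ⟨d, hd1, hdN, ?_⟩
  have h6 := rc_pow hw 0 d
  rw [zero_add, ← h4] at h6
  have h7 : 2 ^ d = (2 ^ d - 1) + 1 := (Nat.sub_add_cancel Nat.one_le_two_pow).symm
  rw [h7, pow_succ] at h6
  exact mul_right_cancel₀ h0 (h6.trans (one_mul _).symm)

private theorem arith_two_a {C : Type} [NormedField C] [CharZero C] [IsUltrametricDist C] (h2 : ‖(2 : C)‖ < 1)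
    (T : Subfield C) (hT : TB T) (M : Type) [Field M] (σ : M →+* C) (hσ : ∀ z, σ z ∈ T)
    (V : ValuationSubring M) (hV : ∀ z : M, V.valuation z < 1 → ∃ w : M, 1 + z = w ^ 2) : V = ⊤ := by
  by_contra hne
  obtain ⟨z, hz0, hz1⟩ : ∃ z : M, z ≠ 0 ∧ V.valuation z < 1 := by
    by_contra hcon
    push Not at hcon
    apply hne
    rw [eq_top_iff]
    intro x _
    by_cases hx : x = 0
    · rw [hx]
      exact V.zero_mem
    · rw [← V.valuation_le_one_iff]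
      have h1 := hcon x⁻¹ (inv_ne_zero hx)
      rw [map_inv₀] at h1
      have h3 : V.valuation x ≠ 0 := (Valuation.ne_zero_iff _).2 hx
      exact (one_le_inv₀ (zero_lt_iff.2 h3)).1 h1
  -- square roots near `1`
  have hroot : ∀ y : {y : M // V.valuation (y - 1) < 1}, ∃ y' : {y : M // V.valuation (y - 1) < 1},
      y'.1 ^ 2 = y.1 := by
    rintro ⟨y, hy⟩
    obtain ⟨w, hw⟩ := hV (y - 1) hy
    have hw' : w ^ 2 = y := by rw [← hw]; ring
    have hprod : V.valuation (w - 1) * V.valuation (w + 1) < 1 := by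
      rw [← map_mul]
      have : (w - 1) * (w + 1) = y - 1 := by rw [← hw']; ring
      rw [this]
      exact hy
    rcases lt_or_ge (V.valuation (w - 1)) 1 with h3 | h3
    · exact ⟨⟨w, h3⟩, hw'⟩
    · rcases lt_or_ge (V.valuation (w + 1)) 1 with h4 | h4
      · refine ⟨⟨-w, ?_⟩, ?_⟩
        · have : -w - 1 = -(w + 1) := by ring
          rw [this, Valuation.map_neg]
          exact h4
        · show (-w) ^ 2 = y
          rw [neg_sq]
          exact hw'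
      · exfalso
        exact absurd hprod (not_lt.2 (one_le_mul h3 h4))
  choose f hf using hroot
  obtain ⟨N, hN⟩ := root_chain h2 T hT
  have hK : 0 < ∏ d ∈ Finset.Icc 1 N, (2 ^ d - 1) := by
    apply Finset.prod_pos
    intro d hd
    rw [Finset.mem_Icc] at hd
    have : 2 ^ 1 ≤ 2 ^ d := Nat.pow_le_pow_right (by norm_num) hd.1
    omega
  have hall : ∀ y : M, V.valuation y < 1 → (1 + y) ^ (∏ d ∈ Finset.Icc 1 N, (2 ^ d - 1)) = 1 := by
    intro y hy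
    have hy' : V.valuation (1 + y - 1) < 1 := by
      rw [add_sub_cancel_left]
      exact hy
    let w : ℕ → {y : M // V.valuation (y - 1) < 1} := fun j => f^[j] ⟨1 + y, hy'⟩
    have hw0 : (w 0).1 = 1 + y := rfl
    have hwS : ∀ j, (w (j + 1)).1 ^ 2 = (w j).1 := by
      intro j
      show (f^[j + 1] ⟨1 + y, hy'⟩).1 ^ 2 = (f^[j] ⟨1 + y, hy'⟩).1
      rw [Function.iterate_succ_apply']
      exact hf _
    have hne0 : (1 + y : M) ≠ 0 := by
      intro h0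
      have : y = -1 := by linear_combination h0
      rw [this, Valuation.map_neg, map_one] at hy
      exact lt_irrefl _ hy
    obtain ⟨d, hd1, hd2, hd3⟩ := hN (fun j => σ (w j).1) (fun j => hσ _)
      (by
        show σ (w 0).1 ≠ 0
        rw [hw0]
        exact (map_ne_zero σ).2 hne0)
      (fun j => by rw [← map_pow, hwS])
    have h5 : (1 + y) ^ (2 ^ d - 1) = 1 := by
      apply σ.injective
      rw [map_pow, map_one]
      exact hd3
    obtain ⟨e, he⟩ := Finset.dvd_prod_of_mem (fun d => 2 ^ d - 1) (Finset.mem_Icc.2 ⟨hd1, hd2⟩)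
    rw [he, pow_mul, h5, one_pow]
  have hinj : Function.Injective (fun n : ℕ => 1 + z ^ (n + 1)) := by
    have hstep : ∀ n m : ℕ, n < m → 1 + z ^ (n + 1) ≠ 1 + z ^ (m + 1) := by
      intro n m hnm h6
      have h7 : z ^ (n + 1) = z ^ (n + 1) * z ^ (m - n) := by
        rw [← pow_add, show n + 1 + (m - n) = m + 1 by omega]
        exact add_left_cancel h6
      have h8 : z ^ (m - n) = 1 := by
        have h9 : z ^ (n + 1) ≠ 0 := pow_ne_zero _ hz0
        exact (mul_left_cancel₀ h9 (by rw [mul_one]; exact h7)).symm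
      have h10 : V.valuation z ^ (m - n) = 1 := by rw [← map_pow, h8, map_one]
      have h11 : V.valuation z ^ (m - n) < 1 := pow_lt_one₀ zero_le' hz1 (by omega)
      exact absurd h10 h11.ne
    intro n m h6
    rcases lt_trichotomy n m with h | h | h
    · exact absurd h6 (hstep n m h)
    · exact h
    · exact absurd h6.symm (hstep m n h)
  have hinf := Set.infinite_range_of_injective hinj
  apply hinf
  refine (Finset.finite_toSet (Polynomial.nthRootsFinset (∏ d ∈ Finset.Icc 1 N, (2 ^ d - 1)) (1 : M))).subset ?_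
  rintro _ ⟨n, rfl⟩
  rw [Finset.mem_coe, Polynomial.mem_nthRootsFinset hK]
  apply hall
  rw [map_pow]
  exact pow_lt_one₀ zero_le' hz1 (by omega)

private theorem arith_two_b {C : Type} [NormedField C] [CharZero C] [IsUltrametricDist C] (h2 : ‖(2 : C)‖ < 1)
    (T : Subfield C) (hT : TB T) (M : Type) [Field M] (σ : M →+* C) (hσ : ∀ z, σ z ∈ T) :
    ∃ a : M, (¬ ∃ w : M, a = w ^ 2) ∧ (¬ ∃ w : M, 1 + a = w ^ 2) ∧ ¬ ∃ w : M, a * (1 + a) = w ^ 2 := by
  obtain ⟨p, hpM, hp0, hp1, hp⟩ := tb_unif h2 T σ.fieldRange hT (by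
    rintro _ ⟨z, rfl⟩
    exact hσ z)
  obtain ⟨a, rfl⟩ := hpM
  have hpos : 0 < ‖σ a‖ := norm_pos_iff.2 hp0
  have hp' : ∀ w : M, ‖σ w‖ < 1 → ‖σ w‖ ≤ ‖σ a‖ := fun w hw => hp _ ⟨w, rfl⟩ hw
  have hkey : ∀ w : M, ‖σ w‖ ^ 2 = ‖σ a‖ → False := by
    intro w hw
    have h3 : 0 ≤ ‖σ w‖ := norm_nonneg _
    have h4 : ‖σ w‖ < 1 := by
      by_contra hc
      push Not at hc
      nlinarith
    have h5 : 0 < ‖σ w‖ := by
      rcases h3.eq_or_lt with h | h
      · rw [← h] at hw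
        simp only [ne_eq, OfNat.ofNat_ne_zero, not_false_eq_true, zero_pow] at hw
        linarith
      · exact h
    have h6 := hp' w h4
    nlinarith
  have h1a : ‖1 + σ a‖ = 1 := by
    apply le_antisymm
    · refine (IsUltrametricDist.norm_add_le_max _ _).trans ?_
      rw [norm_one]
      exact max_le le_rfl hp1.le
    · have h3 : ‖(1 + σ a) - σ a‖ ≤ max ‖1 + σ a‖ ‖σ a‖ := by
        rw [sub_eq_add_neg]
        refine (IsUltrametricDist.norm_add_le_max _ _).trans ?_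
        rw [norm_neg]
      rw [add_sub_cancel_right, norm_one] at h3
      rcases le_max_iff.1 h3 with h | h
      · exact h
      · linarith
  refine ⟨a, ?_, ?_, ?_⟩
  · rintro ⟨w, hw⟩
    apply hkey w
    rw [← norm_pow, ← map_pow, ← hw]
  · rintro ⟨w, hw⟩
    have h3 : ‖σ (w - 1)‖ * ‖σ (w - 1) + 2‖ = ‖σ a‖ := by
      rw [← norm_mul]
      congr 1
      have : (σ w) ^ 2 = 1 + σ a := by rw [← map_pow, ← hw, map_add, map_one]
      rw [map_sub, map_one]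
      linear_combination this
    rcases lt_or_ge ‖σ (w - 1)‖ 1 with h4 | h4
    · have h5 := hp' _ h4
      have h6 : ‖(2 : C)‖ ≤ ‖σ a‖ := by
        have h7 : σ 2 = 2 := map_ofNat σ 2
        have h8 := hp' 2 (by rw [h7]; exact h2)
        rwa [h7] at h8
      have h9 : ‖σ (w - 1) + 2‖ ≤ ‖σ a‖ :=
        (IsUltrametricDist.norm_add_le_max _ _).trans (max_le h5 h6)
      have h10 : ‖σ (w - 1)‖ * ‖σ (w - 1) + 2‖ ≤ ‖σ a‖ * ‖σ a‖ :=
        mul_le_mul h5 h9 (norm_nonneg _) (norm_nonneg _)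
      nlinarith
    · have h5 : ‖σ (w - 1)‖ ≤ ‖σ (w - 1) + 2‖ := by
        have h6 : ‖(σ (w - 1) + 2) - 2‖ ≤ max ‖σ (w - 1) + 2‖ ‖(2 : C)‖ := by
          rw [sub_eq_add_neg]
          refine (IsUltrametricDist.norm_add_le_max _ _).trans ?_
          rw [norm_neg]
        rw [add_sub_cancel_right] at h6
        rcases le_max_iff.1 h6 with h | h
        · exact h
        · linarith
      nlinarith
  · rintro ⟨w, hw⟩
    apply hkey w
    rw [← norm_pow, ← map_pow, ← hw, map_mul, norm_mul, map_add, map_one, h1a, mul_one]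

theorem arith_two {C : Type} [NormedField C] [CharZero C] [IsUltrametricDist C] (h2 : ‖(2 : C)‖ < 1) (T : Subfield C) (hT : TB T)
    (M : Type) [Field M] (σ : M →+* C) (hσ : ∀ z, σ z ∈ T) : Arith M := by
  exact ⟨fun V hV => arith_two_a h2 T hT M σ hσ V hV, arith_two_b h2 T hT M σ hσ⟩

/-- the arithmetic facts used of a field of constants -/
structure Good (M : Type) [Field M] : Prop where
  arith : Arith M
  per : ∀ e₁ e₂ e₃ : M, e₁ ≠ e₂ → e₁ ≠ e₃ → e₂ ≠ e₃ → {c : M | ∃ n : ℕ, 1 ≤ n ∧ (DD e₁ e₂ e₃)^[n] c = c}.Finite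
  chain : ∀ e₁ e₂ e₃ : M, e₁ ≠ e₂ → e₁ ≠ e₃ → e₂ ≠ e₃ → ∀ c : ℕ → M, (∀ m, c m ≠ e₁ ∧ c m ≠ e₂ ∧ c m ≠ e₃) →
    (∀ m, DD e₁ e₂ e₃ (c (m + 1)) = c m) → ∃ n : ℕ, 1 ≤ n ∧ (DD e₁ e₂ e₃)^[n] (c 0) = c 0

end BSC
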