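import Pool.Agent.Lib_MP_49ddc8.Defs

/-!
# [BSC-H1], [BSC-H2]  Heights: backward orbits of duplication are periodic

[BSC-H1] `height_DD`: `DD x = N(x)/(4 P(x))` with `P = (x-e₁)(x-e₂)(x-e₃)`, `N = e₁·4P + ((x-e₁)² - (e₁-e₂)(e₁-e₃))²`, of degree `4`, coprime to `P`.  Use `Height.logHeight_eval_ge'` (Mathlib.NumberTheory.Height.MvPolynomial) for the two
forms `N(X,Z)`, `4 Z P(X,Z)` of degree `4` in two variables, with cofactors of degree `3` for `Δ X⁷`, `Δ Z⁷` divided by `Δ = 16 ∏ (e_i - e_j)²` or so.  Hint: by the substitution `x ↦ x + e₁` (changes `logHeight₁` by a constant) one may take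
`e₁ = 0`, `P = x (x - u)(x - v)`, `DD x = (x² - u v)²/(4 x (x-u)(x-v))`; find the cofactors with linear algebra (sympy is available; or use `Polynomial` resultants / Bezout, only existence matters).
`logHeight₁ x = logHeight ![x, 1]`, and `logHeight` is invariant under scaling.

[BSC-H2] `periodic_finite`: if the orbit of `c` avoids the `e_i` then `h(c) = h(DDⁿ c) ≥ 4ⁿ h(c) - C (1 + 4 + ... + 4ⁿ⁻¹)`, so `h(c) ≤ C/3` (wlog `C ≥ 0`), Northcott (`finite_setOfPred_logHeight₁_le`); `DD e_i = e₁` (division by `0`), `DD e₁ = e₁`, so an orbit which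
meets some `e_i` is periodic only for `c = e₁`.
`chain_periodic`: `h(c_{m+1}) ≤ (h(c_m) + C)/4`, so all `h(c_m) ≤ max (h(c_0)) (C/3)`, finitely many values; `c_i = c_j` with `i < j`; then `DD^[j-i] c_i = c_i`, and `c_0 = DD^[i] c_i` gives `DD^[j-i] c_0 = c_0`.
`level_periodic`, `level_chain`: the same inside `Ω` for a field `k'` finite over the number field `k`.
-/

set_option autoImplicit false

namespace BSC

/-- a binary cubic form -/
noncomputable def cub {M : Type} [Field M] (a b c d : M) : MvPolynomial (Fin 2) M :=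
  MvPolynomial.C a * (MvPolynomial.X 0 ^ 3 * MvPolynomial.X 1 ^ 0) +
    MvPolynomial.C b * (MvPolynomial.X 0 ^ 2 * MvPolynomial.X 1 ^ 1) +
    MvPolynomial.C c * (MvPolynomial.X 0 ^ 1 * MvPolynomial.X 1 ^ 2) +
    MvPolynomial.C d * (MvPolynomial.X 0 ^ 0 * MvPolynomial.X 1 ^ 3)

theorem cub_hom {M : Type} [Field M] (a b c d : M) : (cub a b c d).IsHomogeneous 3 := by
  have h : ∀ (e : M) (i j : ℕ), i + j = 3 →
      (MvPolynomial.C e * (MvPolynomial.X 0 ^ i * MvPolynomial.X 1 ^ j) :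
        MvPolynomial (Fin 2) M).IsHomogeneous 3 := by
    intro e i j hij
    have h1 : (MvPolynomial.X 0 ^ i * MvPolynomial.X 1 ^ j : MvPolynomial (Fin 2) M).IsHomogeneous
        (1 * i + 1 * j) :=
      ((MvPolynomial.isHomogeneous_X M 0).pow i).mul ((MvPolynomial.isHomogeneous_X M 1).pow j)
    have h2 := h1.C_mul e
    rwa [show 1 * i + 1 * j = 3 by omega] at h2
  exact (((h a 3 0 rfl).add (h b 2 1 rfl)).add (h c 1 2 rfl)).add (h d 0 3 rfl)

theorem cub_eval {M : Type} [Field M] (a b c d : M) (x : Fin 2 → M) :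
    (cub a b c d).eval x = a * x 0 ^ 3 + b * (x 0 ^ 2 * x 1) + c * (x 0 * x 1 ^ 2) + d * x 1 ^ 3 := by
  simp [cub]

theorem height_DD (M : Type) [Field M] [NumberField M] (e₁ e₂ e₃ : M) (h12 : e₁ ≠ e₂) (h13 : e₁ ≠ e₃) (h23 : e₂ ≠ e₃) :
    ∃ C : ℝ, ∀ x : M, x ≠ e₁ → x ≠ e₂ → x ≠ e₃ →
      4 * Height.logHeight₁ x - C ≤ Height.logHeight₁ (DD e₁ e₂ e₃ x) := by
  classical
  set u : M := e₂ - e₁ with hu
  set v : M := e₃ - e₁ with hv
  have hu0 : u ≠ 0 := sub_ne_zero.2 h12.symm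
  have hv0 : v ≠ 0 := sub_ne_zero.2 h13.symm
  have huv : u - v ≠ 0 := by
    rw [hu, hv, sub_sub_sub_cancel_right]
    exact sub_ne_zero.2 h23
  have h4 : (4 : M) ≠ 0 := by norm_num
  set t : M := u + v with ht
  set w : M := u * v with hw
  set D : M := (u - v) ^ 2 with hD
  have hD0 : D ≠ 0 := pow_ne_zero 2 huv
  have hw0 : w ≠ 0 := mul_ne_zero hu0 hv0
  have hDt : D = t ^ 2 - 4 * w := by rw [hD, ht, hw]; ring
  set E : M := w ^ 2 * D with hE
  have hE0 : E ≠ 0 := mul_ne_zero (pow_ne_zero 2 hw0) hD0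
  set q : Fin 2 × Fin 2 → MvPolynomial (Fin 2) M := fun a =>
    (![![cub 1 (2 * w * t / D) (-3 * w ^ 2 / D) 0,
        cub ((-2 * w * t - 4 * e₁ * D) / (4 * D)) ((-5 * w ^ 2 - 8 * e₁ * w * t) / (4 * D))
          ((w ^ 2 * t + 12 * e₁ * w ^ 2) / (4 * D)) (3 * w ^ 3 / (4 * D))],
      ![cub 0 (-3 / E) (2 * t / E) (D / E),
        cub (3 / (4 * E)) ((t + 12 * e₁) / (4 * E)) ((-5 * w - 8 * e₁ * t) / (4 * E))
          ((-2 * t * w - 4 * e₁ * D) / (4 * E))]] : Matrix (Fin 2) (Fin 2) _) a.1 a.2 with hq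
  have hqhom : ∀ a, (q a).IsHomogeneous 3 := by
    rintro ⟨i, j⟩
    fin_cases i <;> fin_cases j <;> exact cub_hom _ _ _ _
  obtain ⟨C, hC⟩ := Height.logHeight_eval_ge' (M := 3) (N := 4) hqhom
  set p1 : MvPolynomial (Fin 2) M := MvPolynomial.C 4 * MvPolynomial.X 1 * MvPolynomial.X 0 *
    (MvPolynomial.X 0 ^ 2 - MvPolynomial.C t * MvPolynomial.X 0 * MvPolynomial.X 1 +
      MvPolynomial.C w * MvPolynomial.X 1 ^ 2) with hp1
  set p0 : MvPolynomial (Fin 2) M := MvPolynomial.C e₁ * p1 +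
    (MvPolynomial.X 0 ^ 2 - MvPolynomial.C w * MvPolynomial.X 1 ^ 2) ^ 2 with hp0
  have hp1e : ∀ y : Fin 2 → M, p1.eval y = 4 * y 1 * y 0 * (y 0 ^ 2 - t * y 0 * y 1 + w * y 1 ^ 2) := by
    intro y
    simp [hp1]
  have hp0e : ∀ y : Fin 2 → M, p0.eval y = e₁ * (4 * y 1 * y 0 * (y 0 ^ 2 - t * y 0 * y 1 + w * y 1 ^ 2)) +
      (y 0 ^ 2 - w * y 1 ^ 2) ^ 2 := by
    intro y
    simp only [hp0, map_add, map_mul, hp1e]
    simp
  have hkey : ∀ y : Fin 2 → M, C + 4 * Height.logHeight y ≤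
      Height.logHeight (fun j => ((![p0, p1] : Fin 2 → _) j).eval y) := by
    intro y
    have := hC ![p0, p1] (x := y) (by
      intro k
      rw [Fin.sum_univ_two]
      fin_cases k
      · show (q (0, 0)).eval y * (p0).eval y + (q (0, 1)).eval y * (p1).eval y = y 0 ^ (3 + 4)
        have e1 : q (0, 0) = cub 1 (2 * w * t / D) (-3 * w ^ 2 / D) 0 := rfl
        have e2 : q (0, 1) = cub ((-2 * w * t - 4 * e₁ * D) / (4 * D))
          ((-5 * w ^ 2 - 8 * e₁ * w * t) / (4 * D))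
          ((w ^ 2 * t + 12 * e₁ * w ^ 2) / (4 * D)) (3 * w ^ 3 / (4 * D)) := rfl
        rw [e1, e2, cub_eval, cub_eval, hp0e, hp1e]
        field_simp
        rw [hDt]
        ring
      · show (q (1, 0)).eval y * (p0).eval y + (q (1, 1)).eval y * (p1).eval y = y 1 ^ (3 + 4)
        have e1 : q (1, 0) = cub 0 (-3 / E) (2 * t / E) (D / E) := rfl
        have e2 : q (1, 1) = cub (3 / (4 * E)) ((t + 12 * e₁) / (4 * E))
          ((-5 * w - 8 * e₁ * t) / (4 * E)) ((-2 * t * w - 4 * e₁ * D) / (4 * E)) := rfl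
        rw [e1, e2, cub_eval, cub_eval, hp0e, hp1e]
        field_simp
        rw [hE, hDt]
        ring)
    exact_mod_cast this
  refine ⟨4 * (Height.totalWeight M * Real.log 2 + Height.logHeight₁ e₁) - C, fun x hx1 hx2 hx3 => ?_⟩
  have h1 := hkey ![x - e₁, 1]
  have h2 : (fun j => ((![p0, p1] : Fin 2 → _) j).eval ![x - e₁, 1]) =
      ![p0.eval ![x - e₁, 1], p1.eval ![x - e₁, 1]] := by
    funext j
    fin_cases j <;> rfl
  rw [h2, ← Height.logHeight₁_eq_logHeight (x - e₁), ← Height.logHeight₁_div_eq_logHeight] at h1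
  have h3 : p0.eval ![x - e₁, 1] / p1.eval ![x - e₁, 1] = DD e₁ e₂ e₃ x := by
    rw [hp0e, hp1e]
    unfold DD
    simp only [Matrix.cons_val_zero, Matrix.cons_val_one]
    have e1 : x - e₁ ≠ 0 := sub_ne_zero.2 hx1
    have e2 : x - e₂ ≠ 0 := sub_ne_zero.2 hx2
    have e3 : x - e₃ ≠ 0 := sub_ne_zero.2 hx3
    have e4 : (x - e₁) ^ 2 - t * (x - e₁) * 1 + w * 1 ^ 2 = (x - e₂) * (x - e₃) := by
      rw [ht, hw, hu, hv]; ring
    rw [e4]
    field_simp
    rw [hw, hu, hv]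
    ring
  rw [h3] at h1
  have h5 : Height.logHeight₁ x ≤ Height.totalWeight M * Real.log 2 +
      Height.logHeight₁ (x - e₁) + Height.logHeight₁ e₁ := by
    have := Height.logHeight₁_add_le (x - e₁) e₁
    rwa [sub_add_cancel] at this
  linarith

/-- `DD` of a root is `e₁` (division by zero) -/
theorem DD_root {M : Type} [Field M] (e₁ e₂ e₃ x : M) (hx : x = e₁ ∨ x = e₂ ∨ x = e₃) :
    DD e₁ e₂ e₃ x = e₁ := by
  unfold DD
  have : (x - e₁) * (x - e₂) * (x - e₃) = 0 := by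
    rcases hx with h | h | h <;> simp [h]
  rw [this, mul_zero, div_zero, add_zero]

theorem DD_iter_e1 {M : Type} [Field M] (e₁ e₂ e₃ : M) (n : ℕ) : (DD e₁ e₂ e₃)^[n] e₁ = e₁ := by
  induction n with
  | zero => rfl
  | succ n ih => rw [Function.iterate_succ_apply, DD_root e₁ e₂ e₃ e₁ (Or.inl rfl), ih]

theorem iterate_mul_fixed {α : Type} (f : α → α) (c : α) (n : ℕ) (h : f^[n] c = c) (j : ℕ) :
    f^[n * j] c = c := by
  induction j with
  | zero => rfl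
  | succ j ih => rw [Nat.mul_succ, Function.iterate_add_apply, h, ih]

theorem periodic_finite (M : Type) [Field M] [NumberField M] (e₁ e₂ e₃ : M) (h12 : e₁ ≠ e₂) (h13 : e₁ ≠ e₃) (h23 : e₂ ≠ e₃) :
    {c : M | ∃ n : ℕ, 1 ≤ n ∧ (DD e₁ e₂ e₃)^[n] c = c}.Finite := by
  obtain ⟨C, hC⟩ := height_DD M e₁ e₂ e₃ h12 h13 h23
  refine ((NumberField.finite_setOfPred_logHeight₁_le (K := M) (C / 3)).union
    (Set.finite_singleton e₁)).subset ?_
  rintro c ⟨n, hn, hc⟩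
  by_cases hroot : ∃ j : ℕ, (DD e₁ e₂ e₃)^[j] c = e₁ ∨ (DD e₁ e₂ e₃)^[j] c = e₂ ∨
      (DD e₁ e₂ e₃)^[j] c = e₃
  · right
    obtain ⟨j, hj⟩ := hroot
    have h1 : (DD e₁ e₂ e₃)^[j + 1] c = e₁ := by
      rw [Function.iterate_succ_apply']
      exact DD_root e₁ e₂ e₃ _ hj
    have h2 : (DD e₁ e₂ e₃)^[n * (j + 1)] c = c := iterate_mul_fixed _ c n hc (j + 1)
    have h3 : n * (j + 1) = (n * (j + 1) - (j + 1)) + (j + 1) := by
      have : j + 1 ≤ n * (j + 1) := Nat.le_mul_of_pos_left _ hn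
      omega
    rw [h3, Function.iterate_add_apply, h1, DD_iter_e1] at h2
    exact h2.symm
  · left
    have hroot' : ∀ j : ℕ, (DD e₁ e₂ e₃)^[j] c ≠ e₁ ∧ (DD e₁ e₂ e₃)^[j] c ≠ e₂ ∧
        (DD e₁ e₂ e₃)^[j] c ≠ e₃ := by
      intro j
      refine ⟨fun h => hroot ⟨j, Or.inl h⟩, fun h => hroot ⟨j, Or.inr (Or.inl h)⟩,
        fun h => hroot ⟨j, Or.inr (Or.inr h)⟩⟩
    have key : ∀ j : ℕ, (4 : ℝ) ^ j * (Height.logHeight₁ c - C / 3) ≤
        Height.logHeight₁ ((DD e₁ e₂ e₃)^[j] c) - C / 3 := by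
      intro j
      induction j with
      | zero => simp
      | succ j ih =>
        have h1 := hC _ (hroot' j).1 (hroot' j).2.1 (hroot' j).2.2
        rw [Function.iterate_succ_apply', pow_succ]
        nlinarith
    have h2 := key n
    rw [hc] at h2
    have h4 : (4 : ℝ) ≤ 4 ^ n := by
      calc (4 : ℝ) = 4 ^ 1 := by norm_num
        _ ≤ 4 ^ n := pow_le_pow_right₀ (by norm_num) hn
    show Height.logHeight₁ c ≤ C / 3
    by_contra hlt
    have hpos : 0 < Height.logHeight₁ c - C / 3 := by linarith [not_le.mp hlt]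
    nlinarith

theorem chain_periodic (M : Type) [Field M] [NumberField M] (e₁ e₂ e₃ : M) (h12 : e₁ ≠ e₂) (h13 : e₁ ≠ e₃) (h23 : e₂ ≠ e₃)
    (c : ℕ → M) (hc : ∀ m, c m ≠ e₁ ∧ c m ≠ e₂ ∧ c m ≠ e₃) (hD : ∀ m, DD e₁ e₂ e₃ (c (m + 1)) = c m) :
    ∃ n : ℕ, 1 ≤ n ∧ (DD e₁ e₂ e₃)^[n] (c 0) = c 0 := by
  obtain ⟨C, hC⟩ := height_DD M e₁ e₂ e₃ h12 h13 h23
  have hbd : ∀ m, Height.logHeight₁ (c m) ≤ max (Height.logHeight₁ (c 0)) (C / 3) := by
    intro m
    induction m with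
    | zero => exact le_max_left _ _
    | succ m ih =>
      have h1 := hC (c (m + 1)) (hc (m + 1)).1 (hc (m + 1)).2.1 (hc (m + 1)).2.2
      rw [hD m] at h1
      have h2 := le_max_right (Height.logHeight₁ (c 0)) (C / 3)
      linarith
  have hfin := NumberField.finite_setOfPred_logHeight₁_le (K := M)
    (max (Height.logHeight₁ (c 0)) (C / 3))
  have hiter : ∀ n m : ℕ, (DD e₁ e₂ e₃)^[n] (c (m + n)) = c m := by
    intro n
    induction n with
    | zero => intro m; rfl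
    | succ n ih =>
      intro m
      rw [Function.iterate_succ_apply, ← add_assoc, hD, ih]
  obtain ⟨i, j, hij, hcij⟩ : ∃ i j : ℕ, i < j ∧ c i = c j := by
    by_contra hcon
    push Not at hcon
    have hinj : Function.Injective c := by
      intro a b hab
      rcases lt_trichotomy a b with h | h | h
      · exact absurd hab (hcon a b h)
      · exact h
      · exact absurd hab.symm (hcon b a h)
    exact Set.infinite_of_injective_forall_mem hinj (fun m => hbd m) hfin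
  refine ⟨j - i, by omega, ?_⟩
  have h1 : (DD e₁ e₂ e₃)^[j - i] (c j) = c i := by
    have := hiter (j - i) i
    rwa [Nat.add_sub_cancel' hij.le] at this
  rw [← hcij] at h1
  have h0 : (DD e₁ e₂ e₃)^[i] (c i) = c 0 := by
    have := hiter i 0
    rwa [zero_add] at this
  rw [← h0, ← Function.iterate_add_apply, add_comm, Function.iterate_add_apply, h1]

theorem coe_DD {k Ω : Type} [Field k] [Field Ω] [Algebra k Ω] (k' : IntermediateField k Ω)
    (a b c x : k') : ((DD a b c x : k') : Ω) = DD (a : Ω) (b : Ω) (c : Ω) (x : Ω) := by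
  unfold DD
  push_cast
  rfl

theorem coe_DD_iter {k Ω : Type} [Field k] [Field Ω] [Algebra k Ω] (k' : IntermediateField k Ω)
    (a b c x : k') (n : ℕ) :
    (((DD a b c)^[n] x : k') : Ω) = (DD (a : Ω) (b : Ω) (c : Ω))^[n] (x : Ω) := by
  induction n with
  | zero => rfl
  | succ n ih => rw [Function.iterate_succ_apply', Function.iterate_succ_apply', coe_DD, ih]

theorem level_periodic {k Ω : Type} [Field k] [NumberField k] [Field Ω] [Algebra k Ω] (k' : IntermediateField k Ω)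
    (hfin : FiniteDimensional k k') (e₁ e₂ e₃ : Ω) (h1 : e₁ ∈ k') (h2 : e₂ ∈ k') (h3 : e₃ ∈ k')
    (h12 : e₁ ≠ e₂) (h13 : e₁ ≠ e₃) (h23 : e₂ ≠ e₃) :
    {c : Ω | c ∈ k' ∧ ∃ n : ℕ, 1 ≤ n ∧ (DD e₁ e₂ e₃)^[n] c = c}.Finite := by
  have : NumberField k' := NumberField.of_module_finite k k'
  have hp := periodic_finite k' ⟨e₁, h1⟩ ⟨e₂, h2⟩ ⟨e₃, h3⟩ (fun h => h12 (congrArg Subtype.val h))
    (fun h => h13 (congrArg Subtype.val h)) (fun h => h23 (congrArg Subtype.val h))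
  refine (hp.image (fun x : k' => (x : Ω))).subset ?_
  rintro c ⟨hck, n, hn, hc⟩
  refine ⟨⟨c, hck⟩, ⟨n, hn, ?_⟩, rfl⟩
  apply Subtype.ext
  have := coe_DD_iter k' ⟨e₁, h1⟩ ⟨e₂, h2⟩ ⟨e₃, h3⟩ ⟨c, hck⟩ n
  rw [this]
  exact hc

theorem level_chain {k Ω : Type} [Field k] [NumberField k] [Field Ω] [Algebra k Ω] (k' : IntermediateField k Ω)
    (hfin : FiniteDimensional k k') (e₁ e₂ e₃ : Ω) (h1 : e₁ ∈ k') (h2 : e₂ ∈ k') (h3 : e₃ ∈ k')
    (h12 : e₁ ≠ e₂) (h13 : e₁ ≠ e₃) (h23 : e₂ ≠ e₃) (c : ℕ → Ω) (hck : ∀ m, c m ∈ k')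
    (hc : ∀ m, c m ≠ e₁ ∧ c m ≠ e₂ ∧ c m ≠ e₃) (hD : ∀ m, DD e₁ e₂ e₃ (c (m + 1)) = c m) :
    ∃ n : ℕ, 1 ≤ n ∧ (DD e₁ e₂ e₃)^[n] (c 0) = c 0 := by
  have : NumberField k' := NumberField.of_module_finite k k'
  obtain ⟨n, hn, hper⟩ := chain_periodic k' ⟨e₁, h1⟩ ⟨e₂, h2⟩ ⟨e₃, h3⟩
    (fun h => h12 (congrArg Subtype.val h))
    (fun h => h13 (congrArg Subtype.val h)) (fun h => h23 (congrArg Subtype.val h))
    (fun m => ⟨c m, hck m⟩)
    (fun m => ⟨fun h => (hc m).1 (congrArg Subtype.val h), fun h => (hc m).2.1 (congrArg Subtype.val h),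
      fun h => (hc m).2.2 (congrArg Subtype.val h)⟩)
    (fun m => by
      apply Subtype.ext
      rw [coe_DD]
      exact hD m)
  refine ⟨n, hn, ?_⟩
  have := coe_DD_iter k' ⟨e₁, h1⟩ ⟨e₂, h2⟩ ⟨e₃, h3⟩ ⟨c 0, hck 0⟩ n
  rw [hper] at this
  exact this.symm

end BSC
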