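import Pool.Agent.Lib_MP_49ddc8.Defs

/-!
# [BSC-N1], [BSC-N2]  Number fields: (A1) and (A2)

[BSC-N1] `fin_primes`: otherwise, as `M/ℚ` has finitely many intermediate fields, there is an infinite set of primes `p` with `p m_p = w_p²`, `p ∤ m_p`, and the same field `ℚ(w_p)`.  Fix one of them, `d₀ = p₀ m₀ = w₀²` (`d₀` is not a rational square).
For the others `w_p ∈ ℚ(w₀)`, `w_p² ∈ ℚ`, `w_p ∉ ℚ`, so `w_p = r w₀` with `r ∈ ℚ` (write `w_p = s + r w₀`, `w_p² ∈ ℚ` gives `s r = 0`), `p m_p = r² d₀`; for `p` larger than `|d₀|` the `p`-adic valuations of both sides differ in parity.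
(Any other proof is fine, e.g. by ramification.)

[BSC-N2] `arith_nf`: (A2) choose primes `p ≠ q` outside the finite set of `fin_primes`, `a = p/(q - p)`, `1 + a = q/(q - p)`; `a = w²` gives `p (q - p) = (w (q - p))²`, etc.; `a (1 + a) = w²` gives `p q = (w (q-p))²`.
(A1) Let `V ≠ ⊤`.  `ℤ ⊆ V`.  Some prime `p` has `V.valuation p < 1`, otherwise `ℚ ⊆ V` and `V = ⊤` since `M/ℚ` is integral and `V` integrally closed.  For a prime `q ≡ 1 mod p` (infinitely many: `Nat.exists_prime_gt_modEq_one`), `q = 1 + p n`, so `q` is a square in `M`: contradiction to `fin_primes` with `m = 1`.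
-/

set_option autoImplicit false

namespace BSC

private theorem Nf_val (p : ℕ) (hp : p.Prime) (m d : ℤ) (hm : ¬ ((p : ℤ) ∣ m))
    (hd : ¬ ((p : ℤ) ∣ d)) (r : ℚ) : (((p : ℤ) * m : ℤ) : ℚ) ≠ r ^ 2 * (d : ℚ) := by
  have := Fact.mk hp
  intro h
  have hp0 : (p : ℚ) ≠ 0 := by exact_mod_cast hp.ne_zero
  have hm0 : m ≠ 0 := by
    rintro rfl
    exact hm (dvd_zero _)
  have hd0 : d ≠ 0 := by
    rintro rfl
    exact hd (dvd_zero _)
  have hmq : (m : ℚ) ≠ 0 := by exact_mod_cast hm0
  have hdq : (d : ℚ) ≠ 0 := by exact_mod_cast hd0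
  have hr : r ≠ 0 := by
    rintro rfl
    push_cast at h
    have h1 : (p : ℚ) * m ≠ 0 := mul_ne_zero hp0 hmq
    apply h1
    rw [h]
    ring
  have h2 := congrArg (padicValRat p) h
  push_cast at h2
  rw [padicValRat.mul hp0 hmq, padicValRat.mul (pow_ne_zero 2 hr) hdq, padicValRat.pow,
    padicValRat.of_int, padicValRat.of_int, padicValInt.eq_zero_of_not_dvd hm,
    padicValInt.eq_zero_of_not_dvd hd, padicValRat.self hp.one_lt] at h2
  push_cast at h2
  omega

private theorem Nf_quad {M : Type} [Field M] [CharZero M] [Algebra ℚ M] (w w' : M) (d : ℚ)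
    (hw : w ^ 2 = algebraMap ℚ M d) (hw' : w' ∈ IntermediateField.adjoin ℚ {w}) :
    ∃ s r : ℚ, w' = algebraMap ℚ M s + algebraMap ℚ M r * w := by
  have hint : IsIntegral ℚ w := by
    refine ⟨Polynomial.X ^ 2 - Polynomial.C d, Polynomial.monic_X_pow_sub_C d two_ne_zero, ?_⟩
    rw [← Polynomial.aeval_def]
    simp [hw]
  have h1 : w' ∈ (IntermediateField.adjoin ℚ {w}).toSubalgebra := hw'
  rw [IntermediateField.adjoin_simple_toSubalgebra_of_isAlgebraic hint.isAlgebraic,
    Algebra.adjoin_singleton_eq_range_aeval] at h1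
  obtain ⟨q, hq⟩ := h1
  have hmon : (Polynomial.X ^ 2 - Polynomial.C d).Monic :=
    Polynomial.monic_X_pow_sub_C d two_ne_zero
  have hdeg : (q %ₘ (Polynomial.X ^ 2 - Polynomial.C d)).natDegree < 2 := by
    have h3 : (Polynomial.X ^ 2 - Polynomial.C d).natDegree = 2 := Polynomial.natDegree_X_pow_sub_C
    have h5 := Polynomial.natDegree_modByMonic_lt q hmon (by
      intro h4
      rw [h4] at h3
      simp at h3)
    rwa [h3] at h5
  obtain ⟨a, b, hab⟩ := Polynomial.exists_eq_X_add_C_of_natDegree_le_one (Nat.lt_succ_iff.1 hdeg)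
  refine ⟨b, a, ?_⟩
  have h5 := Polynomial.modByMonic_add_div q (Polynomial.X ^ 2 - Polynomial.C d)
  have h6 := congrArg (Polynomial.aeval w) h5
  rw [map_add, map_mul, hab] at h6
  simp only [map_add, map_mul, map_sub, map_pow, Polynomial.aeval_C, Polynomial.aeval_X, hw,
    sub_self, zero_mul, add_zero] at h6
  change (Polynomial.aeval w) q = w' at hq
  rw [← hq, ← h6]
  ring

theorem fin_primes (M : Type) [Field M] [NumberField M] :
    {p : ℕ | p.Prime ∧ ∃ m : ℤ, ¬ ((p : ℤ) ∣ m) ∧ ∃ w : M, (((p : ℤ) * m : ℤ) : M) = w ^ 2}.Finite := by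
  by_contra hinf
  set S := {p : ℕ | p.Prime ∧ ∃ m : ℤ, ¬ ((p : ℤ) ∣ m) ∧ ∃ w : M, (((p : ℤ) * m : ℤ) : M) = w ^ 2}
    with hS
  have hSinf : S.Infinite := hinf
  have : Infinite S := hSinf.to_subtype
  choose hpr mm hmm ww hww using fun p : S => p.2
  have : Finite (IntermediateField ℚ M) :=
    Field.finite_intermediateField_of_exists_primitive_element ℚ M
      (Field.exists_primitive_element ℚ M)
  obtain ⟨K, hK⟩ := Finite.exists_infinite_fiber
    (fun p : S => IntermediateField.adjoin ℚ {ww p})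
  have hKinf : ((fun p : S => IntermediateField.adjoin ℚ {ww p}) ⁻¹' {K}).Infinite :=
    Set.infinite_coe_iff.1 hK
  obtain ⟨p₀, hp₀⟩ := hKinf.nonempty
  have hfinb : {p : S | (p : ℕ) ≤ (((p₀ : ℕ) : ℤ) * mm p₀).natAbs}.Finite := by
    have h1 := Set.finite_Iic (((p₀ : ℕ) : ℤ) * mm p₀).natAbs
    exact h1.preimage (Subtype.val_injective.injOn)
  obtain ⟨p, hp, hpb⟩ := (hKinf.sdiff hfinb).nonempty
  have hpb' : (((p₀ : ℕ) : ℤ) * mm p₀).natAbs < (p : ℕ) := by
    by_contra h
    exact hpb (by simpa using Nat.le_of_not_lt h)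
  have hm0 : mm p₀ ≠ 0 := by
    intro h
    exact hmm p₀ (by rw [h]; exact dvd_zero _)
  have hd0 : ((p₀ : ℕ) : ℤ) * mm p₀ ≠ 0 :=
    mul_ne_zero (by exact_mod_cast (hpr p₀).ne_zero) hm0
  have hnd : ¬ (((p : ℕ) : ℤ) ∣ ((p₀ : ℕ) : ℤ) * mm p₀) := by
    intro h
    have h1 := Int.natAbs_dvd_natAbs.2 h
    rw [Int.natAbs_natCast] at h1
    exact absurd (Nat.le_of_dvd (Int.natAbs_pos.2 hd0) h1) (not_le.2 hpb')
  have hcast : ∀ z : ℤ, ((z : ℤ) : M) = algebraMap ℚ M (z : ℚ) := fun z => by simp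
  have hw0 : (ww p₀) ^ 2 = algebraMap ℚ M ((((p₀ : ℕ) : ℤ) * mm p₀ : ℤ) : ℚ) := by
    rw [← hww p₀, hcast]
  have hwp : (ww p) ^ 2 = algebraMap ℚ M ((((p : ℕ) : ℤ) * mm p : ℤ) : ℚ) := by
    rw [← hww p, hcast]
  have hmem : ww p ∈ IntermediateField.adjoin ℚ {ww p₀} := by
    have h1 : IntermediateField.adjoin ℚ {ww p₀} = IntermediateField.adjoin ℚ {ww p} := by
      rw [show IntermediateField.adjoin ℚ {ww p₀} = K from hp₀,
        show IntermediateField.adjoin ℚ {ww p} = K from hp]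
    rw [h1]
    exact IntermediateField.mem_adjoin_simple_self ℚ (ww p)
  obtain ⟨s, r, hsr⟩ := Nf_quad (ww p₀) (ww p) _ hw0 hmem
  have hinj := (algebraMap ℚ M).injective
  set d : ℤ := ((p₀ : ℕ) : ℤ) * mm p₀ with hd
  have hexp : algebraMap ℚ M ((((p : ℕ) : ℤ) * mm p : ℤ) : ℚ) =
      algebraMap ℚ M (s ^ 2 + r ^ 2 * d) + algebraMap ℚ M (2 * s * r) * ww p₀ := by
    rw [← hwp, hsr]
    simp only [map_add, map_mul, map_pow]
    have h2 : algebraMap ℚ M (2 : ℚ) = 2 := map_ofNat _ 2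
    rw [h2]
    linear_combination (algebraMap ℚ M r) ^ 2 * hw0
  by_cases hsr0 : 2 * s * r = 0
  · rw [hsr0, map_zero, zero_mul, add_zero] at hexp
    have h3 := hinj hexp
    rcases mul_eq_zero.1 hsr0 with h4 | h4
    · have h5 : s = 0 := by linarith
      rw [h5] at h3
      refine Nf_val p (hpr p) (mm p) d (hmm p) hnd r ?_
      rw [h3]
      ring
    · rw [h4] at h3
      refine Nf_val p (hpr p) (mm p) 1 (hmm p) ?_ s ?_
      · intro h6
        have h7 := Int.natAbs_dvd_natAbs.2 h6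
        simp only [Int.natAbs_natCast, Int.natAbs_one] at h7
        exact (hpr p).one_lt.ne' (Nat.dvd_one.1 h7)
      · rw [h3]
        push_cast
        ring
  · have h3 : ww p₀ = algebraMap ℚ M
        ((((((p : ℕ) : ℤ) * mm p : ℤ) : ℚ) - (s ^ 2 + r ^ 2 * d)) / (2 * s * r)) := by
      rw [map_div₀, map_sub, hexp]
      have h8 : algebraMap ℚ M (2 * s * r) ≠ 0 := fun h => hsr0 (hinj (by rw [h, map_zero]))
      rw [add_sub_cancel_left, mul_div_cancel_left₀ _ h8]
    set t : ℚ := ((((((p : ℕ) : ℤ) * mm p : ℤ) : ℚ) - (s ^ 2 + r ^ 2 * d)) / (2 * s * r)) with ht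
    rw [h3, ← map_pow] at hw0
    have h4 := hinj hw0
    refine Nf_val p₀ (hpr p₀) (mm p₀) 1 (hmm p₀) ?_ t ?_
    · intro h6
      have h7 := Int.natAbs_dvd_natAbs.2 h6
      simp only [Int.natAbs_natCast, Int.natAbs_one] at h7
      exact (hpr p₀).one_lt.ne' (Nat.dvd_one.1 h7)
    · rw [h4, hd]
      push_cast
      ring

private theorem Nf_mem_of_integral {M : Type} [Field M] (V : ValuationSubring M) {x : M}
    (hx : IsIntegral ℤ x) : x ∈ V := by
  have h1 : IsIntegral V x := hx.tower_top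
  obtain ⟨y, hy⟩ := (IsIntegrallyClosed.isIntegral_iff (R := V) (K := M)).1 h1
  rw [← hy]
  exact y.2

private theorem Nf_val_nat {M : Type} [Field M] [CharZero M] (V : ValuationSubring M)
    (h : ∀ p : ℕ, p.Prime → 1 ≤ V.valuation (p : M)) (n : ℕ) (hn : n ≠ 0) :
    V.valuation (n : M) = 1 := by
  have hle : ∀ n : ℕ, V.valuation (n : M) ≤ 1 := fun n =>
    (V.valuation_le_one_iff _).2 (natCast_mem V n)
  induction n using Nat.strong_induction_on with
  | _ n ih =>
    by_cases h1 : n = 1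
    · rw [h1, Nat.cast_one, map_one]
    · have hp := Nat.minFac_prime h1
      obtain ⟨m, hm⟩ := Nat.minFac_dvd n
      have hm0 : m ≠ 0 := by
        rintro rfl
        rw [mul_zero] at hm
        exact hn hm
      have hmn : m < n := by
        have h2 := hp.two_le
        have h3 : 0 < m := Nat.pos_of_ne_zero hm0
        calc m < 2 * m := by omega
          _ ≤ n.minFac * m := Nat.mul_le_mul_right m h2
          _ = n := hm.symm
      have h4 : V.valuation ((n.minFac : ℕ) : M) = 1 := le_antisymm (hle _) (h _ hp)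
      have h5 : ((n : ℕ) : M) = (n.minFac : M) * (m : M) := by
        conv_lhs => rw [hm]
        push_cast
        rfl
      rw [h5, map_mul, h4, ih m hmn hm0, one_mul]

theorem arith_nf (M : Type) [Field M] [NumberField M] : Arith M := by
  have hfin := fin_primes M
  constructor
  · intro V hV
    by_contra hne
    obtain ⟨p, hp, hpv⟩ : ∃ p : ℕ, p.Prime ∧ V.valuation (p : M) < 1 := by
      by_contra hcon
      push Not at hcon
      apply hne
      rw [eq_top_iff]
      intro x _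
      have halg : IsAlgebraic ℤ x := (IsFractionRing.isAlgebraic_iff ℤ ℚ M).mpr (.of_finite ℚ x)
      obtain ⟨y, hy, hint⟩ := halg.exists_integral_multiple
      have hmem := Nf_mem_of_integral V hint
      have hval : V.valuation ((y : ℤ) : M) = 1 := by
        have h1 := Nf_val_nat V hcon y.natAbs (Int.natAbs_ne_zero.2 hy)
        rcases Int.natAbs_eq y with h2 | h2
        · rw [h2, Int.cast_natCast]
          exact h1
        · rw [h2, Int.cast_neg, Int.cast_natCast, Valuation.map_neg]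
          exact h1
      rw [← V.valuation_le_one_iff] at hmem ⊢
      rwa [zsmul_eq_mul, map_mul, hval, one_mul] at hmem
    have hsub : {q : ℕ | q.Prime ∧ q ≡ 1 [MOD p]} ⊆
        {p : ℕ | p.Prime ∧ ∃ m : ℤ, ¬ ((p : ℤ) ∣ m) ∧ ∃ w : M, (((p : ℤ) * m : ℤ) : M) = w ^ 2} := by
      rintro q ⟨hq, hqp⟩
      refine ⟨hq, 1, ?_, ?_⟩
      · intro h1
        have h2 := Int.natAbs_dvd_natAbs.2 h1
        simp only [Int.natAbs_natCast, Int.natAbs_one] at h2
        exact hq.one_lt.ne' (Nat.dvd_one.1 h2)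
      · obtain ⟨n, hn⟩ := (Nat.modEq_iff_dvd' hq.one_lt.le).1 hqp.symm
        have hqn : (q : M) = 1 + (p : M) * (n : M) := by
          have h3 : q = 1 + p * n := by
            have := hq.one_lt.le
            omega
          conv_lhs => rw [h3]
          push_cast
          rfl
        have hv : V.valuation ((p : M) * (n : M)) < 1 := by
          rw [map_mul]
          calc V.valuation (p : M) * V.valuation (n : M) ≤ V.valuation (p : M) * 1 :=
                mul_le_mul_right ((V.valuation_le_one_iff _).2 (natCast_mem V n)) _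
            _ = V.valuation (p : M) := mul_one _
            _ < 1 := hpv
        obtain ⟨w, hw⟩ := hV _ hv
        refine ⟨w, ?_⟩
        rw [← hw, ← hqn]
        push_cast
        ring
    exact (Nat.infinite_setOfPred_prime_modEq_one hp.ne_zero).mono hsub hfin
  · have hinf : ({p : ℕ | p.Prime} \ {p : ℕ | p.Prime ∧ ∃ m : ℤ, ¬ ((p : ℤ) ∣ m) ∧
        ∃ w : M, (((p : ℤ) * m : ℤ) : M) = w ^ 2}).Infinite :=
      Nat.infinite_setOfPred_prime.sdiff hfin
    obtain ⟨p, hp, hpn⟩ := hinf.nonempty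
    obtain ⟨q, ⟨hq, hqn⟩, hqp⟩ := (hinf.sdiff (Set.finite_singleton p)).nonempty
    have hpq : p ≠ q := fun h => hqp h.symm
    have hpdq : ¬ ((p : ℤ) ∣ (q : ℤ)) := by
      intro h
      rw [Int.natCast_dvd_natCast, Nat.prime_dvd_prime_iff_eq hp hq] at h
      exact hpq h
    have hqdp : ¬ ((q : ℤ) ∣ (p : ℤ)) := by
      intro h
      rw [Int.natCast_dvd_natCast, Nat.prime_dvd_prime_iff_eq hq hp] at h
      exact hpq h.symm
    have key : ∀ m : ℤ, ¬ ((p : ℤ) ∣ m) → ¬ ∃ w : M, (((p : ℤ) * m : ℤ) : M) = w ^ 2 := by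
      intro m hm hw
      exact hpn ⟨hp, m, hm, hw⟩
    have key' : ∀ m : ℤ, ¬ ((q : ℤ) ∣ m) → ¬ ∃ w : M, (((q : ℤ) * m : ℤ) : M) = w ^ 2 := by
      intro m hm hw
      exact hqn ⟨hq, m, hm, hw⟩
    have hne : (q : M) - (p : M) ≠ 0 := by
      rw [sub_ne_zero]
      exact_mod_cast hpq.symm
    refine ⟨(p : M) / ((q : M) - p), ?_, ?_, ?_⟩
    · rintro ⟨w, hw⟩
      refine key ((q : ℤ) - p) ?_ ⟨w * ((q : M) - p), ?_⟩
      · intro h
        exact hpdq ((dvd_sub_right (dvd_refl _)).1 (by simpa using dvd_neg.2 h) )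
      · rw [div_eq_iff hne] at hw
        push_cast
        rw [mul_pow, ← mul_one ((p : M) * ((q : M) - p))]
        linear_combination ((q : M) - p) * hw
    · rintro ⟨w, hw⟩
      refine key' ((q : ℤ) - p) ?_ ⟨w * ((q : M) - p), ?_⟩
      · intro h
        exact hqdp ((dvd_sub_right (dvd_refl _)).1 h)
      · have h1 : 1 + (p : M) / ((q : M) - p) = q / ((q : M) - p) := by
          field_simp
          ring
        rw [h1, div_eq_iff hne] at hw
        push_cast
        linear_combination ((q : M) - p) * hw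
    · rintro ⟨w, hw⟩
      refine key (q : ℤ) hpdq ⟨w * ((q : M) - p), ?_⟩
      have h1 : (p : M) / ((q : M) - p) * (1 + (p : M) / ((q : M) - p)) =
          (p : M) * q / ((q : M) - p) ^ 2 := by
        field_simp
        ring
      rw [h1, div_eq_iff (pow_ne_zero 2 hne)] at hw
      push_cast
      rw [hw]
      ring

end BSC
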