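import Pool.Agent.Lib_MP_49ddc8.Step
import Pool.Agent.Lib_MP_49ddc8.Ht
import Pool.Agent.Lib_MP_49ddc8.Nf

/-!
# [BS-B1] .. [BS-B4]  From the equation `y² = f(x)` to the point `x₀`

`F k' = Y.S.F k'`.

[BS-B1] `prod_form`: pure algebra in an algebraically closed field `Ω` of characteristic `0`.  `R` = set of roots of `g ∈ Ω[X]` (separable, degree `n ≥ 3`), `g = lc ∏_{e ∈ R} (X - e)`, `|R| = n`.
`n` odd: `I = R`, `x' = x`, `u = lc`.  `n` even: fix `e ∈ R`, `x' = (x - e)⁻¹`, `I = {(e' - e)⁻¹ : e' ∈ R, e' ≠ e}` (injective, `n - 1` elements): `x' - (e' - e)⁻¹ = -(x - e')/((x - e)(e' - e))`, so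
`∏_{I} (x' - i) = -∏_{e' ≠ e} (x - e')/((x - e)^(n-1) ∏ (e' - e)) = -g(x)/(lc (x - e)^n ∏_{e' ≠ e} (e' - e))`, `(x - e)^n` is a square.  So `∏_{i ∈ I} (x' - i) = u v² g(x)`, where `u⁻¹` is a product of `-1`, `lc`, and differences of roots, `v` is `1` or `(x - e)^(-n/2)`.
Stated with a subfield `M` which contains `e ∈ R`, square roots of `-1`, of `lc` and of all differences of roots, so that `u` is a square in `M` and the differences of the elements of `I` are squares in `M`: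
`(e' - e)⁻¹ - (e'' - e)⁻¹ = (e'' - e')/((e' - e)(e'' - e))`.

[BS-B2] `odd_form`: `exists_level` for the roots of `f` in `Ω`, a square root of `-1`, of the leading coefficient and of all differences of roots (all algebraic over `k`); then `prod_form` with `M = k'`, `g = f.map (algebraMap k Ω)`, `y'² = u v² y²`; `y' ≠ 0` since `f(x) ≠ 0` (`x` is transcendental).
`x'` transcendental: `x = e + x'⁻¹`.  `M ≤ F k'` (`kt_le_F`, `algebraMap`).

[BS-B3] `three_squares`: three elements of `I` (`Finset.two_lt_card` or similar), `const1` gives `x - e_i = ε_i w_i²`, `exists_level` for square roots of `ε₁, ε₂, ε₃`.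

[BS-B4] `exists_pt1`: `odd_form` (level `k₁ ≥ Y.k0`), `three_squares` (level `k₂`), `base_place` (level `k₃`, place `a`; `x ≠ t` as `x` is transcendental), `Y' = Y.raise k₃`, `Sys.shift` for `Y'` (the differences of the `e_i` are squares in `k₁ ≤ k₃`), `Sys.chain1`, and for `spec`: `Sys.spec1` and `level_chain`; `fin`: `level_periodic`;
`nsq`: `arith_nf k'` (second part), `NumberField k'` from `NumberField.of_module_finite k k'`.
-/

set_option autoImplicit false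

open Polynomial

namespace BSC

section algebra

variable {Ω : Type} [Field Ω] [CharZero Ω] [IsAlgClosed Ω]

private theorem B1_prod_sq {Ω : Type} [Field Ω] (M : Subfield Ω) (s : Finset Ω) (f : Ω → Ω)
    (h : ∀ a ∈ s, ∃ d ∈ M, f a = d ^ 2) : ∃ d ∈ M, ∏ a ∈ s, f a = d ^ 2 := by
  classical
  induction s using Finset.induction_on with
  | empty => exact ⟨1, M.one_mem, by simp⟩
  | insert a s ha ih =>
    obtain ⟨d, hd, h1⟩ := ih (fun b hb => h b (Finset.mem_insert_of_mem hb))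
    obtain ⟨d', hd', h2⟩ := h a (Finset.mem_insert_self a s)
    exact ⟨d' * d, M.mul_mem hd' hd, by rw [Finset.prod_insert ha, h1, h2, mul_pow]⟩

theorem prod_form (M : Subfield Ω) (g : Polynomial Ω) (hg : g.Separable) (hdeg : 3 ≤ g.natDegree)
    (hroot : ∀ e : Ω, g.eval e = 0 → e ∈ M) (hi : ∃ i ∈ M, i ^ 2 = (-1 : Ω)) (hlc : ∃ d ∈ M, g.leadingCoeff = d ^ 2)
    (hsq : ∀ e e' : Ω, g.eval e = 0 → g.eval e' = 0 → ∃ d ∈ M, e - e' = d ^ 2) :
    ∃ I : Finset Ω, (∀ e ∈ I, e ∈ M) ∧ Odd I.card ∧ 3 ≤ I.card ∧ (∀ e ∈ I, ∀ e' ∈ I, ∃ d ∈ M, e - e' = d ^ 2) ∧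
      ∀ x : Ω, g.eval x ≠ 0 → ∃ x' : Ω, (x' = x ∨ ∃ e ∈ M, x ≠ e ∧ x' = (x - e)⁻¹) ∧
        ∃ u ∈ M, u ≠ 0 ∧ ∃ v : Ω, (v = 1 ∨ ∃ e ∈ M, ∃ n : ℕ, x ≠ e ∧ v = (x - e)⁻¹ ^ n) ∧
          ∏ e ∈ I, (x' - e) = (u * v) ^ 2 * g.eval x := by
  classical
  have hg0 : g ≠ 0 := by
    rintro rfl
    simp at hdeg
  have hlc0 : g.leadingCoeff ≠ 0 := leadingCoeff_ne_zero.2 hg0
  have hsplit : g.Splits := IsAlgClosed.splits g
  have hnd : g.roots.Nodup := nodup_roots hg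
  have hcard : g.roots.toFinset.card = g.natDegree := by
    rw [Multiset.toFinset_card_of_nodup hnd, hsplit.natDegree_eq_card_roots]
  have hmem : ∀ e, e ∈ g.roots.toFinset ↔ g.eval e = 0 := by
    intro e
    rw [Multiset.mem_toFinset, mem_roots hg0, IsRoot.def]
  have heval : ∀ x, g.eval x = g.leadingCoeff * ∏ e ∈ g.roots.toFinset, (x - e) := by
    intro x
    have h1 : g = C g.leadingCoeff * (g.roots.map (fun a => X - C a)).prod := hsplit.eq_prod_roots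
    have h2 : g.roots = g.roots.toFinset.val := by
      rw [Multiset.toFinset_val, hnd.dedup]
    conv_lhs => rw [h1, h2]
    rw [eval_mul, eval_C]
    congr 1
    rw [← Finset.prod_eq_multiset_prod, eval_prod]
    simp
  generalize hR : g.roots.toFinset = R at hcard hmem heval
  obtain ⟨d, hd, hd2⟩ := hlc
  have hd0 : d ≠ 0 := by
    rintro rfl
    rw [hd2] at hlc0
    simp at hlc0
  rcases Nat.even_or_odd g.natDegree with hev | hodd
  · -- even degree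
    obtain ⟨m, hm⟩ := hev
    obtain ⟨e, he⟩ : R.Nonempty := Finset.card_pos.1 (by omega)
    have hek := (hmem e).1 he
    have hinj : Function.Injective (fun e' : Ω => (e' - e)⁻¹) := by
      intro a b hab
      have := inv_injective hab
      linear_combination this
    have hcard' : (R.erase e).card = g.natDegree - 1 := by
      rw [Finset.card_erase_of_mem he, hcard]
    have hne : ∀ e' ∈ R.erase e, e' - e ≠ 0 := fun e' he' =>
      sub_ne_zero.2 (Finset.ne_of_mem_erase he')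
    refine ⟨(R.erase e).image (fun e' => (e' - e)⁻¹), ?_, ?_, ?_, ?_, ?_⟩
    · intro i hi'
      obtain ⟨e', he', rfl⟩ := Finset.mem_image.1 hi'
      exact M.inv_mem (M.sub_mem (hroot _ ((hmem _).1 (Finset.mem_of_mem_erase he'))) (hroot _ hek))
    · rw [Finset.card_image_of_injective _ hinj, hcard']
      exact ⟨m - 1, by omega⟩
    · rw [Finset.card_image_of_injective _ hinj, hcard']
      omega
    · intro i hi' i' hi''
      obtain ⟨e', he', rfl⟩ := Finset.mem_image.1 hi'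
      obtain ⟨e'', he'', rfl⟩ := Finset.mem_image.1 hi''
      have k1 := (hmem _).1 (Finset.mem_of_mem_erase he')
      have k2 := (hmem _).1 (Finset.mem_of_mem_erase he'')
      obtain ⟨d1, hd1, h1⟩ := hsq _ _ k2 k1
      obtain ⟨d2, hd2', h2⟩ := hsq _ _ k1 hek
      obtain ⟨d3, hd3, h3⟩ := hsq _ _ k2 hek
      refine ⟨d1 * (d2 * d3)⁻¹, M.mul_mem hd1 (M.inv_mem (M.mul_mem hd2' hd3)), ?_⟩
      have n2 := hne _ he'
      have n3 := hne _ he''
      rw [mul_pow, inv_pow, mul_pow, ← h1, ← h2, ← h3]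
      field_simp
      ring
    · intro x hx
      have hxe : x ≠ e := by
        rintro rfl
        exact hx hek
      have hxe' : x - e ≠ 0 := sub_ne_zero.2 hxe
      obtain ⟨D, hD, hD2⟩ := B1_prod_sq M (R.erase e) (fun e' => e - e') (fun e' he' =>
        hsq _ _ hek ((hmem _).1 (Finset.mem_of_mem_erase he')))
      have hD0 : D ≠ 0 := by
        rintro rfl
        have h1 : ∏ a ∈ R.erase e, (e - a) ≠ 0 := Finset.prod_ne_zero_iff.2 (fun a ha => by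
          intro h0
          exact hne a ha (by linear_combination -h0))
        rw [hD2] at h1
        simp at h1
      refine ⟨(x - e)⁻¹, Or.inr ⟨e, hroot _ hek, hxe, rfl⟩, (d * D)⁻¹, M.inv_mem (M.mul_mem hd hD),
        inv_ne_zero (mul_ne_zero hd0 hD0), (x - e)⁻¹ ^ m, Or.inr ⟨e, hroot _ hek, m, hxe, rfl⟩, ?_⟩
      rw [Finset.prod_image (fun a _ b _ h => hinj h), heval x, ← Finset.mul_prod_erase R _ he]
      have h1 : ∏ e' ∈ R.erase e, ((x - e)⁻¹ - (e' - e)⁻¹) =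
          (∏ e' ∈ R.erase e, (x - e')) * (∏ e' ∈ R.erase e, (e - e'))⁻¹ *
            (x - e)⁻¹ ^ (g.natDegree - 1) := by
        rw [← hcard', ← Finset.prod_const, ← Finset.prod_inv_distrib, ← Finset.prod_mul_distrib,
          ← Finset.prod_mul_distrib]
        refine Finset.prod_congr rfl fun e' he' => ?_
        have n1 := hne _ he'
        have n2 : e - e' ≠ 0 := fun h0 => n1 (by linear_combination -h0)
        field_simp
        ring
      rw [h1, hD2, hd2, mul_pow, ← pow_mul, mul_comm m 2, two_mul, ← hm]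
      obtain ⟨n, hn⟩ : ∃ n, g.natDegree = n + 1 := ⟨g.natDegree - 1, by omega⟩
      rw [hn, Nat.add_sub_cancel, pow_succ]
      have hy : (x - e)⁻¹ * (x - e) = 1 := inv_mul_cancel₀ hxe'
      have h2 : (d * D)⁻¹ ^ 2 * d ^ 2 = (D ^ 2)⁻¹ := by
        field_simp
      generalize ∏ e' ∈ R.erase e, (x - e') = P
      generalize (x - e)⁻¹ = y at hy ⊢
      linear_combination (-(P * y ^ n * (D ^ 2)⁻¹)) * hy - (P * y ^ n * y * (x - e)) * h2
  · -- odd degree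
    refine ⟨R, fun e he => hroot e ((hmem e).1 he), hcard ▸ hodd, hcard ▸ hdeg,
      fun e he e' he' => hsq e e' ((hmem e).1 he) ((hmem e').1 he'), fun x _ => ?_⟩
    refine ⟨x, Or.inl rfl, d⁻¹, M.inv_mem hd, inv_ne_zero hd0, 1, Or.inl rfl, ?_⟩
    rw [heval x, hd2]
    field_simp

end algebra

section

variable {k Ω : Type} [Field k] [CharZero k] [Field Ω] [IsAlgClosed Ω] [Algebra k Ω] [Algebra (RatFunc k) Ω]
  [IsScalarTower k (RatFunc k) Ω]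

/-- the same system with a higher level -/
def Sys.raise (Y : Sys k Ω) (k' : IntermediateField k Ω) (h : Y.k0 ≤ k') (hfin : FiniteDimensional k k') : Sys k Ω where
  S := Y.S
  k0 := k'
  fin0 := hfin
  V := Y.V
  loc := fun k'' h'' => Y.loc k'' (h.trans h'')
  comp := fun k1 k2 h1 h2 => Y.comp k1 k2 (h.trans h1) h2

theorem odd_form (S : Sec (RatFunc k) Ω) (k0 : IntermediateField k Ω) (hfin0 : FiniteDimensional k k0)
    (f : k[X]) (hf : f.Separable) (hdeg : 3 ≤ f.natDegree) (x y : Ω) (hx : x ∈ S.F k0) (hy : y ∈ S.F k0)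
    (htr : Transcendental (RatFunc k) x) (hxy : y ^ 2 = aeval x f) :
    ∃ k' : IntermediateField k Ω, k0 ≤ k' ∧ FiniteDimensional k k' ∧ ∃ I : Finset Ω, (∀ e ∈ I, e ∈ k') ∧ Odd I.card ∧ 3 ≤ I.card ∧
      (∀ e ∈ I, ∀ e' ∈ I, ∃ d ∈ k', e - e' = d ^ 2) ∧ ∃ x' ∈ S.F k', Transcendental (RatFunc k) x' ∧
        ∃ y' ∈ S.F k', y' ≠ 0 ∧ ∏ e ∈ I, (x' - e) = y' ^ 2 := by
  classical
  have hC : CharZero Ω := charZero_of_injective_algebraMap (algebraMap k Ω).injective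
  have hf0 : f ≠ 0 := by
    rintro rfl
    rw [natDegree_zero] at hdeg
    omega
  set g : Polynomial Ω := f.map (algebraMap k Ω) with hg
  have hgs : g.Separable := hf.map
  have hgd : g.natDegree = f.natDegree := natDegree_map _
  have hg0 : g ≠ 0 := (Polynomial.map_ne_zero_iff (algebraMap k Ω).injective).2 hf0
  have hgev : ∀ z : Ω, g.eval z = aeval z f := fun z => by
    rw [hg, eval_map_algebraMap]
  have hgx : g.eval x ≠ 0 := by
    intro h0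
    rw [hgev] at h0
    have h1 : IsAlgebraic k x := ⟨f, hf0, h0⟩
    exact htr (h1.tower_top (RatFunc k))
  have hralg : ∀ e : Ω, g.eval e = 0 → IsAlgebraic k e := fun e he => ⟨f, hf0, by rw [← hgev]; exact he⟩
  have hlcalg : IsAlgebraic k g.leadingCoeff := by
    rw [hg, leadingCoeff_map]
    exact isAlgebraic_algebraMap _
  have hex : ∀ z : Ω, ∃ w : Ω, w ^ 2 = z := fun z => IsAlgClosed.exists_pow_nat_eq z (by norm_num)
  choose sq hsq using hex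
  have hsqalg : ∀ z : Ω, IsAlgebraic k z → IsAlgebraic k (sq z) := fun z hz =>
    IsAlgebraic.of_pow (n := 2) (by norm_num) (by rw [hsq]; exact hz)
  set R : Finset Ω := g.roots.toFinset with hR
  have hRm : ∀ e : Ω, e ∈ R ↔ g.eval e = 0 := fun e => by
    rw [hR, Multiset.mem_toFinset, mem_roots hg0, IsRoot.def]
  let A : Set Ω := (R : Set Ω) ∪ {sq (-1), sq g.leadingCoeff} ∪
    ((fun p : Ω × Ω => sq (p.1 - p.2)) '' ((R : Set Ω) ×ˢ (R : Set Ω)))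
  have hA : A.Finite :=
    ((R.finite_toSet).union (Set.toFinite _)).union (((R.finite_toSet).prod (R.finite_toSet)).image _)
  have halg : ∀ z ∈ A, IsAlgebraic k z := by
    rintro z ((hz | hz) | ⟨⟨e, e'⟩, ⟨he, he'⟩, rfl⟩)
    · exact hralg z ((hRm z).1 hz)
    · rcases hz with rfl | hz
      · exact hsqalg _ (isAlgebraic_one.neg)
      · rw [Set.mem_singleton_iff] at hz
        rw [hz]
        exact hsqalg _ hlcalg
    · exact hsqalg _ ((hralg e ((hRm e).1 he)).sub (hralg e' ((hRm e').1 he')))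
  obtain ⟨k', hk', hfin', hAk⟩ := exists_level k0 hfin0 A hA halg
  obtain ⟨I, hI1, hI2, hI3, hI4, hI5⟩ := prod_form k'.toSubfield g hgs (by rw [hgd]; exact hdeg)
    (fun e he => hAk (Or.inl (Or.inl ((hRm e).2 he))))
    ⟨sq (-1), hAk (Or.inl (Or.inr (Or.inl rfl))), hsq _⟩
    ⟨sq g.leadingCoeff, hAk (Or.inl (Or.inr (Or.inr rfl))), (hsq _).symm⟩
    (fun e e' he he' => ⟨sq (e - e'), hAk (Or.inr ⟨(e, e'), ⟨(hRm e).2 he, (hRm e').2 he'⟩, rfl⟩), (hsq _).symm⟩)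
  have hkF : ∀ c ∈ k', c ∈ S.F k' := fun c hc => kt_le_F S k' hfin' c (IntermediateField.subset_adjoin _ _ hc)
  have hx' : x ∈ S.F k' := S.F_mono hk' hx
  have hy' : y ∈ S.F k' := S.F_mono hk' hy
  have hy0 : y ≠ 0 := by
    rintro rfl
    apply hgx
    rw [hgev, ← hxy]
    ring
  obtain ⟨x', hxx, u, hu, hu0, v, hv, hprod⟩ := hI5 x hgx
  refine ⟨k', hk', hfin', I, hI1, hI2, hI3, hI4, x', ?_, ?_, u * v * y, ?_, ?_, ?_⟩
  · rcases hxx with rfl | ⟨e, he, hne, rfl⟩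
    · exact hx'
    · exact inv_mem (sub_mem hx' (hkF e he))
  · rcases hxx with rfl | ⟨e, he, hne, rfl⟩
    · exact htr
    · intro hal
      apply htr
      have h1 : x = ((x - e)⁻¹)⁻¹ + e := by
        rw [inv_inv]
        ring
      rw [h1]
      exact hal.inv.add (level_alg k' hfin' e he).2
  · refine mul_mem (mul_mem (hkF u hu) ?_) hy'
    rcases hv with rfl | ⟨e, he, n, hne, rfl⟩
    · exact one_mem _
    · exact pow_mem (inv_mem (sub_mem hx' (hkF e he))) n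
  · refine mul_ne_zero (mul_ne_zero hu0 ?_) hy0
    rcases hv with rfl | ⟨e, he, n, hne, rfl⟩
    · exact one_ne_zero
    · exact pow_ne_zero n (inv_ne_zero (sub_ne_zero.2 hne))
  · rw [hprod, hgev, ← hxy]
    ring

theorem three_squares (Y : Sys k Ω) (k' : IntermediateField k Ω) (hk : Y.k0 ≤ k') (hfin : FiniteDimensional k k')
    (I : Finset Ω) (hI : ∀ e ∈ I, e ∈ k') (hodd : Odd I.card) (h3 : 3 ≤ I.card) (x y : Ω) (hx : x ∈ Y.S.F k')
    (hy : y ∈ Y.S.F k') (hy0 : y ≠ 0) (hxy : ∏ e ∈ I, (x - e) = y ^ 2) :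
    ∃ k'' : IntermediateField k Ω, k' ≤ k'' ∧ FiniteDimensional k k'' ∧ ∃ e₁ ∈ I, ∃ e₂ ∈ I, ∃ e₃ ∈ I,
      e₁ ≠ e₂ ∧ e₁ ≠ e₃ ∧ e₂ ≠ e₃ ∧ (∃ r ∈ Y.S.F k'', x - e₁ = r ^ 2) ∧ (∃ r ∈ Y.S.F k'', x - e₂ = r ^ 2) ∧
        ∃ r ∈ Y.S.F k'', x - e₃ = r ^ 2 := by
  obtain ⟨e₁, e₂, e₃, h1, h2, h3', h12, h13, h23⟩ := Finset.two_lt_card_iff.1 (show 2 < I.card by omega)
  obtain ⟨ε₁, hε₁, -, w₁, hw₁, -, hx₁⟩ := Y.const1 k' hk hfin I hI hodd x y hx hy hy0 hxy e₁ h1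
  obtain ⟨ε₂, hε₂, -, w₂, hw₂, -, hx₂⟩ := Y.const1 k' hk hfin I hI hodd x y hx hy hy0 hxy e₂ h2
  obtain ⟨ε₃, hε₃, -, w₃, hw₃, -, hx₃⟩ := Y.const1 k' hk hfin I hI hodd x y hx hy hy0 hxy e₃ h3'
  obtain ⟨d₁, hd₁⟩ := IsAlgClosed.exists_pow_nat_eq ε₁ (n := 2) (by norm_num)
  obtain ⟨d₂, hd₂⟩ := IsAlgClosed.exists_pow_nat_eq ε₂ (n := 2) (by norm_num)
  obtain ⟨d₃, hd₃⟩ := IsAlgClosed.exists_pow_nat_eq ε₃ (n := 2) (by norm_num)
  have halg : ∀ ε d : Ω, ε ∈ k' → d ^ 2 = ε → IsAlgebraic k d := by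
    intro ε d hε hd
    refine IsAlgebraic.of_pow (n := 2) (by norm_num) ?_
    rw [hd]
    exact (level_alg k' hfin ε hε).1
  obtain ⟨k'', hk'', hfin'', hA⟩ := exists_level k' hfin {d₁, d₂, d₃} (Set.toFinite _) (by
    rintro d (rfl | rfl | rfl)
    · exact halg ε₁ _ hε₁ hd₁
    · exact halg ε₂ _ hε₂ hd₂
    · exact halg ε₃ _ hε₃ hd₃)
  have hmono : Y.S.F k' ≤ Y.S.F k'' := Y.S.F_mono hk''
  have hin : ∀ d ∈ k'', d ∈ Y.S.F k'' := by
    intro d hd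
    refine kt_le_F Y.S k'' hfin'' d ?_
    exact IntermediateField.subset_adjoin _ _ hd
  refine ⟨k'', hk'', hfin'', e₁, h1, e₂, h2, e₃, h3', h12, h13, h23, ⟨d₁ * w₁, ?_, ?_⟩, ⟨d₂ * w₂, ?_, ?_⟩,
    ⟨d₃ * w₃, ?_, ?_⟩⟩
  · exact mul_mem (hin d₁ (hA (by simp))) (hmono hw₁)
  · rw [hx₁, mul_pow, hd₁]
  · exact mul_mem (hin d₂ (hA (by simp))) (hmono hw₂)
  · rw [hx₂, mul_pow, hd₂]
  · exact mul_mem (hin d₃ (hA (by simp))) (hmono hw₃)
  · rw [hx₃, mul_pow, hd₃]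

end

section

variable {k Ω : Type} [Field k] [NumberField k] [Field Ω] [IsAlgClosed Ω] [Algebra k Ω] [Algebra (RatFunc k) Ω]
  [IsScalarTower k (RatFunc k) Ω]

theorem exists_pt1 (Y : Sys k Ω) (f : k[X]) (hf : f.Separable) (hdeg : 3 ≤ f.natDegree) (x y : Ω) (hx : x ∈ Y.S.F Y.k0)
    (hy : y ∈ Y.S.F Y.k0) (htr : Transcendental (RatFunc k) x) (hxy : y ^ 2 = aeval x f) :
    ∃ (k' : IntermediateField k Ω) (hk : Y.k0 ≤ k') (hfin : FiniteDimensional k k') (x₀ e₁ e₂ e₃ : Ω)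
      (a₀ : Option k'), Pt1 (Y.raise k' hk hfin) x₀ e₁ e₂ e₃ a₀ := by
  obtain ⟨k₁, hk₁, hfin₁, I, hI, hodd, h3, hsq, x₁, hx₁, htr₁, y₁, hy₁, hy₁0, hxy₁⟩ :=
    odd_form Y.S Y.k0 Y.fin0 f hf hdeg x y hx hy htr hxy
  obtain ⟨k₂, hk₂, hfin₂, e₁, he₁, e₂, he₂, e₃, he₃, h12, h13, h23, ⟨r₁, hr₁, q₁⟩, ⟨r₂, hr₂, q₂⟩, ⟨r₃, hr₃, q₃⟩⟩ :=
    three_squares Y k₁ hk₁ hfin₁ I hI hodd h3 x₁ y₁ hx₁ hy₁ hy₁0 hxy₁
  have hxt : x₁ ≠ tt k Ω := by
    rintro rfl
    exact htr₁ (isAlgebraic_algebraMap _)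
  obtain ⟨k₃, hk₃, hfin₃, a, ha⟩ := Y.base_place k₂ (hk₁.trans hk₂) hfin₂ x₁ (Y.S.F_mono hk₂ hx₁) hxt
  have hk13 : k₁ ≤ k₃ := hk₂.trans hk₃
  have hI3 : ∀ e ∈ I, e ∈ k₃ := fun e he => hk13 (hI e he)
  obtain ⟨x₀, hx₀, htr₀, hneg, s1, s2, s3⟩ := (Y.raise k₃ (hk₁.trans hk13) hfin₃).shift a e₁ e₂ e₃ (hI3 _ he₁) (hI3 _ he₂)
    (hI3 _ he₃) h12 h13 h23 (by
      have hmem : ∀ e ∈ ({e₁, e₂, e₃} : Set Ω), e ∈ I := by
        rintro e (rfl | rfl | rfl)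
        · exact he₁
        · exact he₂
        · exact he₃
      intro e he e' he'
      obtain ⟨d, hd, hdd⟩ := hsq e (hmem e he) e' (hmem e' he')
      exact ⟨d, hk13 hd, hdd⟩) x₁ (Y.S.F_mono hk13 hx₁) htr₁
    ⟨r₁, Y.S.F_mono hk₃ hr₁, q₁⟩ ⟨r₂, Y.S.F_mono hk₃ hr₂, q₂⟩ ⟨r₃, Y.S.F_mono hk₃ hr₃, q₃⟩ ha
  obtain ⟨X, hX0, hst⟩ := (Y.raise k₃ (hk₁.trans hk13) hfin₃).chain1 a e₁ e₂ e₃ (hI3 _ he₁) (hI3 _ he₂)
    (hI3 _ he₃) h12 h13 h23 x₀ hx₀ hneg s1 s2 s3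
  refine ⟨k₃, hk₁.trans hk13, hfin₃, x₀, e₁, e₂, e₃, a, ?_⟩
  refine { mem := hx₀, h1 := hI3 _ he₁, h2 := hI3 _ he₂, h3 := hI3 _ he₃, h12 := h12, h13 := h13, h23 := h23,
           sq1 := s1, neg := hneg, spec := ?_, fin := ?_, tr := htr₀, nsq := ?_ }
  · intro k' hk hfin b c hc hc1 hc2 hc3 hv
    have hk3 : k₃ ≤ k' := hk
    obtain ⟨C, hC0, hCk, hCne, hCD⟩ := (Y.raise k₃ (hk₁.trans hk13) hfin₃).spec1 e₁ e₂ e₃ (hI3 _ he₁) (hI3 _ he₂)
      (hI3 _ he₃) h12 h13 h23 X hst k' hk hfin b c hc hc1 hc2 hc3 (by rw [hX0]; exact hv)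
    obtain ⟨n, hn, hper⟩ := level_chain k' hfin e₁ e₂ e₃ (hk3 (hI3 _ he₁)) (hk3 (hI3 _ he₂)) (hk3 (hI3 _ he₃))
      h12 h13 h23 C hCk hCne hCD
    exact ⟨n, hn, by rw [← hC0]; exact hper⟩
  · intro k' hk hfin
    have hk3 : k₃ ≤ k' := hk
    exact level_periodic k' hfin e₁ e₂ e₃ (hk3 (hI3 _ he₁)) (hk3 (hI3 _ he₂)) (hk3 (hI3 _ he₃)) h12 h13 h23
  · intro k' hk hfin
    have : NumberField k' := NumberField.of_module_finite k k'
    obtain ⟨c, hc, -, -⟩ := (arith_nf k').2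
    refine ⟨(c : Ω), c.2, ?_⟩
    rintro ⟨d, hd, hcd⟩
    exact hc ⟨⟨d, hd⟩, Subtype.ext (by rw [hcd]; rfl)⟩

end

end BSC
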