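import Mathlib

/-!
# Definitions for the section theorem (MP_49ddc8_ag)

`k` is the constant field, `κ = RatFunc k`, `Ω` an algebraically closed field over `κ`, `κbar = algebraicClosure κ Ω`.
-/

set_option autoImplicit false

open Polynomial

namespace BSC

/-- A section: `s τ` is an automorphism of `Ω` for `τ : Gal(κbar/κ)`, extending `τ`, with open stabilisers. -/
structure Sec (κ Ω : Type) [Field κ] [Field Ω] [Algebra κ Ω] where
  s : (algebraicClosure κ Ω ≃ₐ[κ] algebraicClosure κ Ω) →* (Ω ≃+* Ω)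
  res : ∀ (τ : algebraicClosure κ Ω ≃ₐ[κ] algebraicClosure κ Ω) (x : algebraicClosure κ Ω),
    s τ (x : Ω) = ((τ x : algebraicClosure κ Ω) : Ω)
  cont : ∀ z : Ω, ∃ E : IntermediateField κ (algebraicClosure κ Ω), FiniteDimensional κ E ∧
    ∀ τ ∈ E.fixingSubgroup, s τ z = z

/-- `S.F A`: the elements of `Ω` fixed by `s τ` for all `τ` which fix the elements of `A ∩ κbar`. -/
def Sec.F {κ Ω : Type} [Field κ] [Field Ω] [Algebra κ Ω] (S : Sec κ Ω) (A : Set Ω) : Subfield Ω where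
  carrier := {z | ∀ τ : algebraicClosure κ Ω ≃ₐ[κ] algebraicClosure κ Ω,
    (∀ x : algebraicClosure κ Ω, (x : Ω) ∈ A → τ x = x) → S.s τ z = z}
  mul_mem' := by
    intro a b ha hb τ hτ
    rw [map_mul, ha τ hτ, hb τ hτ]
  one_mem' := by
    intro τ _
    exact map_one _
  add_mem' := by
    intro a b ha hb τ hτ
    rw [map_add, ha τ hτ, hb τ hτ]
  zero_mem' := by
    intro τ _
    exact map_zero _
  neg_mem' := by
    intro a ha τ hτ
    rw [map_neg, ha τ hτ]
  inv_mem' := by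
    intro a ha τ hτ
    rw [map_inv₀, ha τ hτ]

theorem Sec.mem_F {κ Ω : Type} [Field κ] [Field Ω] [Algebra κ Ω] (S : Sec κ Ω) (A : Set Ω) (z : Ω) :
    z ∈ S.F A ↔ ∀ τ : algebraicClosure κ Ω ≃ₐ[κ] algebraicClosure κ Ω,
      (∀ x : algebraicClosure κ Ω, (x : Ω) ∈ A → τ x = x) → S.s τ z = z := Iff.rfl

theorem Sec.F_mono {κ Ω : Type} [Field κ] [Field Ω] [Algebra κ Ω] (S : Sec κ Ω) {A B : Set Ω} (h : A ⊆ B) :
    S.F A ≤ S.F B := by
  intro z hz τ hτ
  exact hz τ fun x hx => hτ x (h hx)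

/-- The arithmetic facts used of a field of constants `M`: (A1) a valuation ring whose `1 + 𝔪` consists of squares is trivial,
(A2) there is `a` with `a`, `1 + a`, `a (1 + a)` not squares. -/
def Arith (M : Type) [Field M] : Prop :=
  (∀ V : ValuationSubring M, (∀ z : M, V.valuation z < 1 → ∃ w : M, 1 + z = w ^ 2) → V = ⊤) ∧
  ∃ a : M, (¬ ∃ w : M, a = w ^ 2) ∧ (¬ ∃ w : M, 1 + a = w ^ 2) ∧ ¬ ∃ w : M, a * (1 + a) = w ^ 2

/-- `E` is a field (inside `Ω`) with a discrete valuation `ord` with residue field `M ⊆ E`, uniformiser `π`, and `1 + 𝔪` consisting of squares. -/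
structure LF {Ω : Type} [Field Ω] (E M : Subfield Ω) (ord : Ω → ℤ) (π : Ω) : Prop where
  sub : M ≤ E
  mul : ∀ x ∈ E, ∀ y ∈ E, x ≠ 0 → y ≠ 0 → ord (x * y) = ord x + ord y
  add : ∀ x ∈ E, ∀ y ∈ E, x ≠ 0 → y ≠ 0 → x + y ≠ 0 → min (ord x) (ord y) ≤ ord (x + y)
  const : ∀ c ∈ M, c ≠ 0 → ord c = 0
  sq : ∀ z ∈ E, z ≠ 0 → 0 < ord z → ∃ w ∈ E, 1 + z = w ^ 2
  res : ∀ z ∈ E, z ≠ 0 → ord z = 0 → ∃ c ∈ M, c ≠ 0 ∧ (z = c ∨ 0 < ord (z - c))
  unif : π ∈ E ∧ π ≠ 0 ∧ ord π = 1

section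

variable (k Ω : Type) [Field k] [Field Ω] [Algebra (RatFunc k) Ω]

/-- the variable `t` as an element of `Ω` -/
noncomputable def tt : Ω := algebraMap (RatFunc k) Ω RatFunc.X

end

section

variable {k Ω : Type} [Field k] [Field Ω] [Algebra k Ω] [Algebra (RatFunc k) Ω]

/-- uniformiser of the place `a` of `k'(t)`: `t - α` for `a = some α`, `t⁻¹` for `a = none` (infinity) -/
noncomputable def unif (k' : IntermediateField k Ω) : Option k' → Ω
  | some α => tt k Ω - (α : Ω)
  | none => (tt k Ω)⁻¹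

/-- the field `k'(t)` inside `Ω` -/
noncomputable def kt (k' : IntermediateField k Ω) : IntermediateField (RatFunc k) Ω :=
  IntermediateField.adjoin (RatFunc k) (k' : Set Ω)

/-- the package of properties of the valuation ring `V` of `Ω` attached to the place `a` of `k'(t)` -/
structure Loc (S : Sec (RatFunc k) Ω) (k' : IntermediateField k Ω) (a : Option k') (V : ValuationSubring Ω) : Prop where
  const : ∀ c ∈ k', c ∈ V
  unif : V.valuation (unif k' a) < 1
  ram : ∀ w ∈ S.F k', V.valuation (BSC.unif k' a * w ^ 2) ≠ 1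
  pin : ∀ c ∈ k', ∀ w ∈ S.F k', V.valuation (c * w ^ 2 - 1) < 1 → ∃ d ∈ k', c = d ^ 2

/-- A system: a section `S`, a level `k0` (finite over `k`), and valuation rings of `Ω` with the package property
for all places of all levels above `k0`. -/
structure Sys (k Ω : Type) [Field k] [Field Ω] [Algebra k Ω] [Algebra (RatFunc k) Ω] where
  S : Sec (RatFunc k) Ω
  k0 : IntermediateField k Ω
  fin0 : FiniteDimensional k k0
  V : ∀ k' : IntermediateField k Ω, Option k' → ValuationSubring Ω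
  loc : ∀ k' : IntermediateField k Ω, k0 ≤ k' → FiniteDimensional k k' → ∀ a : Option k', Loc S k' a (V k' a)
  comp : ∀ (k' k'' : IntermediateField k Ω) (_ : k0 ≤ k') (h : k' ≤ k''), FiniteDimensional k k' → FiniteDimensional k k'' →
    ∀ (a : Option k') (z : Ω), z ∈ S.F k' → (V k' a).valuation z < 1 →
      (V k'' (a.map (IntermediateField.inclusion h))).valuation z < 1

end

/-- the coarsening `V[1/π]` of the valuation ring `V` -/
def coarse {Ω : Type} [Field Ω] (V : ValuationSubring Ω) (π : Ω) : ValuationSubring Ω where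
  carrier := {z | ∃ m : ℕ, π ^ m * z ∈ V}
  mul_mem' := by
    rintro x y ⟨m, hm⟩ ⟨n, hn⟩
    refine ⟨m + n, ?_⟩
    have := mul_mem hm hn
    rwa [show π ^ m * x * (π ^ n * y) = π ^ (m + n) * (x * y) by ring] at this
  one_mem' := ⟨0, by simpa using V.one_mem⟩
  add_mem' := by
    rintro x y ⟨m, hm⟩ ⟨n, hn⟩
    by_cases hπ : π ∈ V
    · refine ⟨m + n, ?_⟩
      have h1 : π ^ n * (π ^ m * x) ∈ V := mul_mem (pow_mem hπ n) hm
      have h2 : π ^ m * (π ^ n * y) ∈ V := mul_mem (pow_mem hπ m) hn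
      have := add_mem h1 h2
      rwa [show π ^ n * (π ^ m * x) + π ^ m * (π ^ n * y) = π ^ (m + n) * (x + y) by ring] at this
    · have hi : π⁻¹ ∈ V := (V.mem_or_inv_mem π).resolve_left hπ
      have h0 : π ≠ 0 := fun h => hπ (h ▸ V.zero_mem)
      have h1 : x ∈ V := by
        have := mul_mem (pow_mem hi m) hm
        rwa [← mul_assoc, ← mul_pow, inv_mul_cancel₀ h0, one_pow, one_mul] at this
      have h2 : y ∈ V := by
        have := mul_mem (pow_mem hi n) hn
        rwa [← mul_assoc, ← mul_pow, inv_mul_cancel₀ h0, one_pow, one_mul] at this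
      exact ⟨0, by simpa using add_mem h1 h2⟩
  zero_mem' := ⟨0, by simpa using V.zero_mem⟩
  neg_mem' := by
    rintro x ⟨m, hm⟩
    exact ⟨m, by simpa using hm⟩
  mem_or_inv_mem' := by
    intro x
    rcases V.mem_or_inv_mem x with h | h
    · exact Or.inl ⟨0, by simpa using h⟩
    · exact Or.inr ⟨0, by simpa using h⟩

theorem mem_coarse {Ω : Type} [Field Ω] (V : ValuationSubring Ω) (π z : Ω) :
    z ∈ coarse V π ↔ ∃ m : ℕ, π ^ m * z ∈ V := Iff.rfl

section

variable {k Ω : Type} [Field k] [Field Ω] [Algebra k Ω] [Algebra (RatFunc k) Ω]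

/-- the valuation ring `V[1/π]` of the place `a`; it contains `κbar` -/
noncomputable def Sys.U (Y : Sys k Ω) (k' : IntermediateField k Ω) (a : Option k') : ValuationSubring Ω :=
  coarse (Y.V k' a) (unif k' a)

/-- `F_∞`, the union of the `S.F k'` for `k'` finite over `k` -/
def Finf (S : Sec (RatFunc k) Ω) : Set Ω := {z | ∃ k' : IntermediateField k Ω, FiniteDimensional k k' ∧ z ∈ S.F k'}

/-- `kbar(t)`, the union of the `k'(t)` for `k'` finite over `k` -/
def kinf (k Ω : Type) [Field k] [Field Ω] [Algebra k Ω] [Algebra (RatFunc k) Ω] : Set Ω :=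
  {z | ∃ k' : IntermediateField k Ω, FiniteDimensional k k' ∧ z ∈ kt k'}

end

/-- `x`-coordinate of duplication on `y² = (x - e₁)(x - e₂)(x - e₃)` -/
def DD {M : Type} [Field M] (e₁ e₂ e₃ x : M) : M :=
  e₁ + ((x - e₁) ^ 2 - (e₁ - e₂) * (e₁ - e₃)) ^ 2 / (4 * ((x - e₁) * (x - e₂) * (x - e₃)))

/-- `x`-coordinate of the translation by the point `(e₁, 0)` -/
def TT {M : Type} [Field M] (e₁ e₂ e₃ x : M) : M := e₁ + (e₁ - e₂) * (e₁ - e₃) / (x - e₁)

end BSC
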