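import Pool.Agent.Lib_MP_49ddc8.Pl

/-!
# [BSC-D1] .. [BSC-D5]  2-descent, halving, specialisation

`t = tt k Ω`, `|z|_{k',a}` the valuation of `Y.V k' a`, `F k' = Y.S.F k'`.

[BSC-D1] `Sys.even`: place `α ≠ 0`, so `|t| = 1` (`poly_unit` for `X`).  If `|x| ≤ 1`: at most one `e' ∈ I` has `|x - e'| < 1` (differences of elements of `k'` are units).  If `|x - e| = 1` take `w = 1`.  If `|x - e| < 1` all others are units, `(x - e) y⁻² = (t ∏_{e' ≠ e} (x - e'))⁻¹` has value 1: `w = y⁻¹`.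
If `|x| > 1`: all `|x - e'| = |x|`, so `|x|^n = |y|²`, `n = 2 m + 1`, `w = x^m / y`: `|(x - e) w²| = 1`.
`Sys.desc0`: `e ∈ I`, `z = x - e`: by `Sys.even` at all levels and `Sys.desc` with `A = {0}`: `z = ε t^i w²`, `i ∈ {0, 1}`.  At `(k', 0)`: `|x - e'| = |x| > 1` for all `e' ∈ I`, so `|t| |x|^n = |y|²`, hence `|t (x - e) w'²| = 1` for `w' = x^m/y`; if `i = 0` then `|t (w w')²| = 1`, contradiction to `ram`; so `i = 1`: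
`x - e = ε_e t w_e²`.  For `e, e' ∈ I`: `(x - e)/(x - e') ∈ 1 + 𝔪`, so `ε_e/ε_e'` is a square in `k'` (`pin`).  The product: `∏ ε_e · t^(n+1) ∏ w_e² = y²`, so `∏ ε_e` is a square in `k'` (`pin` with value `0`), and it is `ε_e^n` times a square, `n` odd: `ε_e` is a square: `t (x - e) = (t d w_e)²`.
`Sys.nonunit0`: otherwise all `|x - e| = 1`, `|t y⁻²| = 1` contradicts `ram`.

[BSC-D2] `Sys.moebius`: if `|x|_{k0,0} > 1`: `x₀ = x`, `desc0`.  Otherwise `e ∈ I` with `|x - e| < 1` (`nonunit0`), `x ≠ e` since `y ≠ 0`; `x₀ = (x - e)⁻¹`, `I' = {0} ∪ {(e' - e)⁻¹ : e' ∈ I, e' ≠ e}`,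
`t ∏_{I'} (x₀ - e'') = t ∏_I (x - e') / ((x - e)^(n+1) ∏_{e' ≠ e} (e' - e))` (`n` odd) is a square of an element `≠ 0` of `F k0`; apply `desc0` to `x₀`, `I'`.

[BSC-D3] pure algebra: `half_sub`: `h - e₁ = (r₁ + r₂)(r₁ + r₃)/t` etc., `h ≠ e_i` (`r_i² ≠ r_j²`).  `DD_half`: `DD h = x`.  `DD_symm`, `DD_TT`, `TT_ne`: field identities (`field_simp; ring`).

[BSC-D4] `Sys.half`: `h` as in `half_sub`, `t (h-e₁)(h-e₂)(h-e₃) = ((r₁+r₂)(r₁+r₃)(r₂+r₃)/t)²`, `≠ 0`.  If `|h|_{k0,0} > 1` take `x' = h` and `desc0`.  Otherwise by `nonunit0` some `|h - e_j| < 1`, `x' = TT e_j .. h = e_j + (e_j - e_i)(e_j - e_l)/(h - e_j)` has `|x'| > 1`,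
`(x'-e₁)(x'-e₂)(x'-e₃) = (e_j-e_i)²(e_j-e_l)² (h-e₁)(h-e₂)(h-e₃)/(h-e_j)⁴`, so `desc0` applies to `x'`.
`Sys.chain`: iterate (dependent choice).

[BSC-D5] `Sys.spec_step`: `|t - α| < 1`, `α ≠ 0`.  `r_i² = t (x - e_i) ≡ α (c - e_i) ≠ 0 mod 𝔪`, so `|r_i| = 1` and `α (c - e_i) r_i⁻² ∈ 1 + 𝔪`; `pin`: `α (c - e_i) = ρ_i²`, `ρ_i ∈ k'`; `(r_i - ρ_i)(r_i + ρ_i) ∈ 𝔪`, so after a change of sign of `ρ_i`: `r_i ≡ ρ_i`.  With `g = c + (ρ₁ρ₂ + ρ₁ρ₃ + ρ₂ρ₃)/α ∈ k'`: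
`h ≡ g`, `g ≠ e_i` and `DD g = c` (`half_sub`, `DD_half` with `α, c, ρ_i, g` for `t, x, r_i, h`).  If `x' = h` take `c' = g`, if `x' = TT e_j .. h` take `c' = TT e_j .. g` (`DD_TT`, `TT_ne`, `|h - e_j| = |g - e_j| = 1`).  (`r_i ∈ Y.S.F Y.k0 ≤ Y.S.F k'`.)
`Sys.spec`: iterate.
-/

set_option autoImplicit false

open Polynomial

namespace BSC

/-- one halving step -/
def HalfStep {Ω : Type} [Field Ω] (F : Subfield Ω) (t e₁ e₂ e₃ x x' : Ω) : Prop :=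
  ∃ r₁ ∈ F, ∃ r₂ ∈ F, ∃ r₃ ∈ F, t * (x - e₁) = r₁ ^ 2 ∧ t * (x - e₂) = r₂ ^ 2 ∧ t * (x - e₃) = r₃ ^ 2 ∧
    ∃ h : Ω, h = x + (r₁ * r₂ + r₁ * r₃ + r₂ * r₃) / t ∧
      (x' = h ∨ x' = TT e₁ e₂ e₃ h ∨ x' = TT e₂ e₁ e₃ h ∨ x' = TT e₃ e₁ e₂ h)

section algebra

variable {Ω : Type} [Field Ω] [CharZero Ω]

theorem half_sub (t e₁ e₂ e₃ x r₁ r₂ r₃ h : Ω) (ht : t ≠ 0) (h12 : e₁ ≠ e₂) (h13 : e₁ ≠ e₃) (h23 : e₂ ≠ e₃)
    (hr1 : t * (x - e₁) = r₁ ^ 2) (hr2 : t * (x - e₂) = r₂ ^ 2) (hr3 : t * (x - e₃) = r₃ ^ 2)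
    (hh : h = x + (r₁ * r₂ + r₁ * r₃ + r₂ * r₃) / t) :
    h - e₁ = (r₁ + r₂) * (r₁ + r₃) / t ∧ h - e₂ = (r₂ + r₁) * (r₂ + r₃) / t ∧ h - e₃ = (r₃ + r₁) * (r₃ + r₂) / t ∧
      r₁ + r₂ ≠ 0 ∧ r₁ + r₃ ≠ 0 ∧ r₂ + r₃ ≠ 0 ∧ h ≠ e₁ ∧ h ≠ e₂ ∧ h ≠ e₃ := by
  have hth : t * h = t * x + (r₁ * r₂ + r₁ * r₃ + r₂ * r₃) := by
    rw [hh]; field_simp
  have n12 : r₁ + r₂ ≠ 0 := by
    intro h0
    have : t * (e₂ - e₁) = 0 := by linear_combination hr1 - hr2 + (r₁ - r₂) * h0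
    rcases mul_eq_zero.mp this with h | h
    · exact ht h
    · exact h12 (sub_eq_zero.mp h).symm
  have n13 : r₁ + r₃ ≠ 0 := by
    intro h0
    have : t * (e₃ - e₁) = 0 := by linear_combination hr1 - hr3 + (r₁ - r₃) * h0
    rcases mul_eq_zero.mp this with h | h
    · exact ht h
    · exact h13 (sub_eq_zero.mp h).symm
  have n23 : r₂ + r₃ ≠ 0 := by
    intro h0
    have : t * (e₃ - e₂) = 0 := by linear_combination hr2 - hr3 + (r₂ - r₃) * h0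
    rcases mul_eq_zero.mp this with h | h
    · exact ht h
    · exact h23 (sub_eq_zero.mp h).symm
  have s1 : h - e₁ = (r₁ + r₂) * (r₁ + r₃) / t := by
    rw [eq_div_iff ht]; linear_combination hth + hr1
  have s2 : h - e₂ = (r₂ + r₁) * (r₂ + r₃) / t := by
    rw [eq_div_iff ht]; linear_combination hth + hr2
  have s3 : h - e₃ = (r₃ + r₁) * (r₃ + r₂) / t := by
    rw [eq_div_iff ht]; linear_combination hth + hr3
  refine ⟨s1, s2, s3, n12, n13, n23, ?_, ?_, ?_⟩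
  · intro h0
    rw [h0, sub_self] at s1
    exact (div_ne_zero (mul_ne_zero n12 n13) ht) s1.symm
  · intro h0
    rw [h0, sub_self] at s2
    exact (div_ne_zero (mul_ne_zero (by rwa [add_comm]) n23) ht) s2.symm
  · intro h0
    rw [h0, sub_self] at s3
    exact (div_ne_zero (mul_ne_zero (by rwa [add_comm]) (by rwa [add_comm])) ht) s3.symm

theorem DD_half (t e₁ e₂ e₃ x r₁ r₂ r₃ h : Ω) (ht : t ≠ 0) (h12 : e₁ ≠ e₂) (h13 : e₁ ≠ e₃) (h23 : e₂ ≠ e₃)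
    (hr1 : t * (x - e₁) = r₁ ^ 2) (hr2 : t * (x - e₂) = r₂ ^ 2) (hr3 : t * (x - e₃) = r₃ ^ 2)
    (hh : h = x + (r₁ * r₂ + r₁ * r₃ + r₂ * r₃) / t) : DD e₁ e₂ e₃ h = x := by
  obtain ⟨s1, s2, s3, n12, n13, n23, m1, m2, m3⟩ :=
    half_sub t e₁ e₂ e₃ x r₁ r₂ r₃ h ht h12 h13 h23 hr1 hr2 hr3 hh
  have a1 : x - e₁ = r₁ ^ 2 / t := by rw [eq_div_iff ht]; linear_combination hr1
  have a12 : e₁ - e₂ = (r₂ ^ 2 - r₁ ^ 2) / t := by rw [eq_div_iff ht]; linear_combination hr2 - hr1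
  have a13 : e₁ - e₃ = (r₃ ^ 2 - r₁ ^ 2) / t := by rw [eq_div_iff ht]; linear_combination hr3 - hr1
  have key : ((h - e₁) ^ 2 - (e₁ - e₂) * (e₁ - e₃)) = 2 * r₁ * ((r₁ + r₂) * (r₁ + r₃) * (r₂ + r₃)) / t ^ 2 := by
    rw [s1, a12, a13]; field_simp; ring
  have prod : (h - e₁) * (h - e₂) * (h - e₃) = ((r₁ + r₂) * (r₁ + r₃) * (r₂ + r₃)) ^ 2 / t ^ 3 := by
    rw [s1, s2, s3]; field_simp; ring
  have nz : (r₁ + r₂) * (r₁ + r₃) * (r₂ + r₃) ≠ 0 := mul_ne_zero (mul_ne_zero n12 n13) n23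
  unfold DD
  rw [key, prod]
  have : (2 * r₁ * ((r₁ + r₂) * (r₁ + r₃) * (r₂ + r₃)) / t ^ 2) ^ 2 /
      (4 * (((r₁ + r₂) * (r₁ + r₃) * (r₂ + r₃)) ^ 2 / t ^ 3)) = x - e₁ := by
    rw [a1]
    generalize (r₁ + r₂) * (r₁ + r₃) * (r₂ + r₃) = w at nz
    field_simp
    ring
  rw [this]; ring

theorem DD_symm (e₁ e₂ e₃ x : Ω) (h1 : x ≠ e₁) (h2 : x ≠ e₂) (h3 : x ≠ e₃) :
    DD e₁ e₂ e₃ x = DD e₂ e₁ e₃ x ∧ DD e₁ e₂ e₃ x = DD e₃ e₁ e₂ x := by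
  have k1 : x - e₁ ≠ 0 := sub_ne_zero.mpr h1
  have k2 : x - e₂ ≠ 0 := sub_ne_zero.mpr h2
  have k3 : x - e₃ ≠ 0 := sub_ne_zero.mpr h3
  unfold DD
  constructor
  · field_simp; ring
  · field_simp; ring

theorem TT_ne (e₁ e₂ e₃ x : Ω) (h12 : e₁ ≠ e₂) (h13 : e₁ ≠ e₃) (h1 : x ≠ e₁) (h2 : x ≠ e₂) (h3 : x ≠ e₃) :
    TT e₁ e₂ e₃ x ≠ e₁ ∧ TT e₁ e₂ e₃ x ≠ e₂ ∧ TT e₁ e₂ e₃ x ≠ e₃ ∧
      (TT e₁ e₂ e₃ x - e₁) * (TT e₁ e₂ e₃ x - e₂) * (TT e₁ e₂ e₃ x - e₃) =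
        (x - e₁) * (x - e₂) * (x - e₃) * ((e₁ - e₂) * (e₁ - e₃) / (x - e₁) ^ 2) ^ 2 := by
  have k1 : x - e₁ ≠ 0 := sub_ne_zero.mpr h1
  have k2 : x - e₂ ≠ 0 := sub_ne_zero.mpr h2
  have k3 : x - e₃ ≠ 0 := sub_ne_zero.mpr h3
  have l12 : e₁ - e₂ ≠ 0 := sub_ne_zero.mpr h12
  have l13 : e₁ - e₃ ≠ 0 := sub_ne_zero.mpr h13
  have s1 : TT e₁ e₂ e₃ x - e₁ = (e₁ - e₂) * (e₁ - e₃) / (x - e₁) := by unfold TT; ring
  have s2 : TT e₁ e₂ e₃ x - e₂ = (e₁ - e₂) * (x - e₃) / (x - e₁) := by unfold TT; field_simp; ring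
  have s3 : TT e₁ e₂ e₃ x - e₃ = (e₁ - e₃) * (x - e₂) / (x - e₁) := by unfold TT; field_simp; ring
  refine ⟨?_, ?_, ?_, ?_⟩
  · rw [← sub_ne_zero, s1]; exact div_ne_zero (mul_ne_zero l12 l13) k1
  · rw [← sub_ne_zero, s2]; exact div_ne_zero (mul_ne_zero l12 k3) k1
  · rw [← sub_ne_zero, s3]; exact div_ne_zero (mul_ne_zero l13 k2) k1
  · rw [s1, s2, s3]; field_simp

theorem DD_TT_aux (e₁ e₂ e₃ x : Ω) (h12 : e₁ ≠ e₂) (h13 : e₁ ≠ e₃) (h1 : x ≠ e₁) (h2 : x ≠ e₂) (h3 : x ≠ e₃) :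
    DD e₁ e₂ e₃ (TT e₁ e₂ e₃ x) = DD e₁ e₂ e₃ x := by
  have k1 : x - e₁ ≠ 0 := sub_ne_zero.mpr h1
  have k2 : x - e₂ ≠ 0 := sub_ne_zero.mpr h2
  have k3 : x - e₃ ≠ 0 := sub_ne_zero.mpr h3
  have l12 : e₁ - e₂ ≠ 0 := sub_ne_zero.mpr h12
  have l13 : e₁ - e₃ ≠ 0 := sub_ne_zero.mpr h13
  obtain ⟨_, _, _, hp⟩ := TT_ne e₁ e₂ e₃ x h12 h13 h1 h2 h3
  have s1 : TT e₁ e₂ e₃ x - e₁ = (e₁ - e₂) * (e₁ - e₃) / (x - e₁) := by unfold TT; ring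
  unfold DD
  rw [hp, s1]
  have : (((e₁ - e₂) * (e₁ - e₃) / (x - e₁)) ^ 2 - (e₁ - e₂) * (e₁ - e₃)) ^ 2 /
      (4 * ((x - e₁) * (x - e₂) * (x - e₃) * ((e₁ - e₂) * (e₁ - e₃) / (x - e₁) ^ 2) ^ 2)) =
      ((x - e₁) ^ 2 - (e₁ - e₂) * (e₁ - e₃)) ^ 2 / (4 * ((x - e₁) * (x - e₂) * (x - e₃))) := by
    generalize x - e₁ = a at *
    generalize x - e₂ = b at *
    generalize x - e₃ = c at *
    generalize e₁ - e₂ = p at *
    generalize e₁ - e₃ = q at *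
    field_simp
    ring
  rw [this]

theorem DD_TT (e₁ e₂ e₃ x : Ω) (h12 : e₁ ≠ e₂) (h13 : e₁ ≠ e₃) (h23 : e₂ ≠ e₃) (h1 : x ≠ e₁) (h2 : x ≠ e₂) (h3 : x ≠ e₃) :
    DD e₁ e₂ e₃ (TT e₁ e₂ e₃ x) = DD e₁ e₂ e₃ x ∧ DD e₁ e₂ e₃ (TT e₂ e₁ e₃ x) = DD e₁ e₂ e₃ x ∧
      DD e₁ e₂ e₃ (TT e₃ e₁ e₂ x) = DD e₁ e₂ e₃ x := by
  refine ⟨DD_TT_aux e₁ e₂ e₃ x h12 h13 h1 h2 h3, ?_, ?_⟩
  · obtain ⟨a2, a1, a3, _⟩ := TT_ne e₂ e₁ e₃ x h12.symm h23 h2 h1 h3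
    rw [(DD_symm e₁ e₂ e₃ _ a1 a2 a3).1, DD_TT_aux e₂ e₁ e₃ x h12.symm h23 h2 h1 h3,
      (DD_symm e₁ e₂ e₃ x h1 h2 h3).1]
  · obtain ⟨a3, a1, a2, _⟩ := TT_ne e₃ e₁ e₂ x h13.symm h23.symm h3 h1 h2
    rw [(DD_symm e₁ e₂ e₃ _ a1 a2 a3).2, DD_TT_aux e₃ e₁ e₂ x h13.symm h23.symm h3 h1 h2,
      (DD_symm e₁ e₂ e₃ x h1 h2 h3).2]

end algebra

section

variable {k Ω : Type} [Field k] [CharZero k] [Field Ω] [IsAlgClosed Ω] [Algebra k Ω] [Algebra (RatFunc k) Ω]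
  [IsScalarTower k (RatFunc k) Ω]

private theorem d1_sub_big {V : ValuationSubring Ω} {x e : Ω} (he : e ∈ V) (hx : x ∉ V) :
    V.valuation (x - e) = V.valuation x := by
  have h1 : V.valuation e ≤ 1 := (V.valuation_le_one_iff e).2 he
  have h2 : 1 < V.valuation x := not_le.1 (mt (V.valuation_le_one_iff x).1 hx)
  rw [sub_eq_add_neg]
  exact V.valuation.map_add_eq_of_lt_left (by rw [Valuation.map_neg]; exact h1.trans_lt h2)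

private theorem d1_big_ne {V : ValuationSubring Ω} {x : Ω} (hx : x ∉ V) : V.valuation x ≠ 0 := by
  intro h
  apply hx
  rw [← V.valuation_le_one_iff, h]
  exact zero_le'

private theorem d1_sub_ne (t x y : Ω) (I : Finset Ω) (hy0 : y ≠ 0) (hxy : t * ∏ e ∈ I, (x - e) = y ^ 2) :
    ∀ e ∈ I, x - e ≠ 0 := by
  intro e he h0
  apply hy0
  have : y ^ 2 = 0 := by
    rw [← hxy, Finset.prod_eq_zero he h0, mul_zero]
  exact (pow_eq_zero_iff two_ne_zero).1 this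

theorem Sys.even (Y : Sys k Ω) (k' : IntermediateField k Ω) (hk : Y.k0 ≤ k') (hfin : FiniteDimensional k k') (α : k')
    (hα : α ≠ 0) (I : Finset Ω) (hI : ∀ e ∈ I, e ∈ k') (hodd : Odd I.card) (x y : Ω) (hx : x ∈ Y.S.F k') (hy : y ∈ Y.S.F k')
    (hy0 : y ≠ 0) (hxy : tt k Ω * ∏ e ∈ I, (x - e) = y ^ 2) (e : Ω) (he : e ∈ I) :
    ∃ w ∈ Y.S.F k', (Y.V k' (some α)).valuation ((x - e) * w ^ 2) = 1 := by
  classical
  have L : Loc Y.S k' (some α) (Y.V k' (some α)) := Y.loc k' hk hfin (some α)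
  set V := Y.V k' (some α) with hV
  have ht : V.valuation (tt k Ω) = 1 := by
    have := L.poly_unit (X : k'[X]) (by simpa using hα)
    simpa using this
  have hxe0 := d1_sub_ne (tt k Ω) x y I hy0 hxy
  have hy2 : V.valuation y ^ 2 = ∏ e' ∈ I, V.valuation (x - e') := by
    rw [← map_pow, ← hxy, map_mul, ht, one_mul, map_prod]
  by_cases hxV : x ∈ V
  · have hle : V.valuation (x - e) ≤ 1 :=
      (V.valuation_le_one_iff _).2 (sub_mem hxV (L.const e (hI e he)))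
    rcases hle.lt_or_eq with hlt | heq
    · refine ⟨y⁻¹, inv_mem hy, ?_⟩
      have hoth : ∀ e' ∈ I.erase e, V.valuation (x - e') = 1 := by
        intro e' he'
        have hne : e' ≠ e := Finset.ne_of_mem_erase he'
        have h1 : V.valuation (e - e') = 1 := L.val_const _
          (sub_mem (hI e he) (hI e' (Finset.mem_of_mem_erase he'))) (sub_ne_zero.2 hne.symm)
        have e2 : x - e' = (e - e') + (x - e) := by ring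
        rw [e2, V.valuation.map_add_eq_of_lt_left (by rw [h1]; exact hlt), h1]
      have h2 : V.valuation y ^ 2 = V.valuation (x - e) := by
        rw [hy2, ← Finset.mul_prod_erase I _ he, Finset.prod_congr rfl hoth]
        simp
      rw [map_mul, inv_pow, map_inv₀, map_pow, h2,
        mul_inv_cancel₀ (V.valuation.ne_zero_iff.2 (hxe0 e he))]
    · exact ⟨1, one_mem _, by simpa using heq⟩
  · obtain ⟨m, hm⟩ := hodd
    have hall : ∀ e' ∈ I, V.valuation (x - e') = V.valuation x := fun e' he' =>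
      d1_sub_big (L.const e' (hI e' he')) hxV
    have h2 : V.valuation y ^ 2 = V.valuation x ^ (2 * m + 1) := by
      rw [hy2, Finset.prod_congr rfl hall, Finset.prod_const, hm]
    refine ⟨x ^ m / y, div_mem (pow_mem hx m) hy, ?_⟩
    rw [map_mul, hall e he, map_pow, map_div₀, map_pow, div_pow, h2, ← pow_mul, mul_comm m 2, ← mul_div_assoc,
      ← pow_succ', div_self (pow_ne_zero _ (d1_big_ne hxV))]

theorem Sys.desc0 (Y : Sys k Ω) (k' : IntermediateField k Ω) (hk : Y.k0 ≤ k') (hfin : FiniteDimensional k k')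
    (I : Finset Ω) (hI : ∀ e ∈ I, e ∈ k') (hodd : Odd I.card) (x y : Ω) (hx : x ∈ Y.S.F k') (hy : y ∈ Y.S.F k')
    (hy0 : y ≠ 0) (hxy : tt k Ω * ∏ e ∈ I, (x - e) = y ^ 2) (hneg : x ∉ Y.V k' (some 0)) (e : Ω) (he : e ∈ I) :
    ∃ r ∈ Y.S.F k', tt k Ω * (x - e) = r ^ 2 := by
  classical
  have L : Loc Y.S k' (some 0) (Y.V k' (some 0)) := Y.loc k' hk hfin (some 0)
  set V := Y.V k' (some 0) with hV
  have hxe0 := d1_sub_ne (tt k Ω) x y I hy0 hxy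
  have hu : unif k' (some 0) = tt k Ω := by
    show tt k Ω - ((0 : k') : Ω) = tt k Ω
    simp
  have ht0 : tt k Ω ≠ 0 := by
    have := unif_ne_zero k' hfin (some 0)
    rwa [hu] at this
  have htF : tt k Ω ∈ Y.S.F k' := by
    have := kt_le_F Y.S k' hfin _ (unif_mem_kt k' (some 0))
    rwa [hu] at this
  have hkF : ∀ c ∈ k', c ∈ Y.S.F k' := fun c hc =>
    kt_le_F Y.S k' hfin c (IntermediateField.subset_adjoin _ _ hc)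
  have hxF : ∀ e' ∈ I, x - e' ∈ Y.S.F k' := fun e' he' => sub_mem hx (hkF _ (hI e' he'))
  have hall : ∀ e' ∈ I, V.valuation (x - e') = V.valuation x := fun e' he' =>
    d1_sub_big (L.const e' (hI e' he')) hneg
  have hvx := d1_big_ne hneg
  have hx1 : 1 < V.valuation x := not_le.1 (mt (V.valuation_le_one_iff x).1 hneg)
  obtain ⟨m, hm⟩ := hodd
  have hy2 : V.valuation y ^ 2 = V.valuation (tt k Ω) * V.valuation x ^ (2 * m + 1) := by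
    rw [← map_pow, ← hxy, map_mul, map_prod, Finset.prod_congr rfl hall, Finset.prod_const, hm]
  have hvy : V.valuation y ≠ 0 := V.valuation.ne_zero_iff.2 hy0
  -- the shape of `x - e`
  have hshape : ∀ e' ∈ I, ∃ ε ∈ k', ε ≠ 0 ∧ ∃ w ∈ Y.S.F k', w ≠ 0 ∧ x - e' = ε * tt k Ω * w ^ 2 := by
    intro e' he'
    obtain ⟨ε, hε, B, hB, w, hw, hw0, hz⟩ := Y.desc k' hk hfin (x - e') (hxF e' he') (hxe0 e' he') {0} (by
      intro k'' hk'' hfin'' α hα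
      have hα0 : α ≠ 0 := by
        intro h0
        exact hα 0 (Finset.mem_singleton_self _) (by rw [h0]; simp)
      have hsub : (k' : Set Ω) ⊆ (k'' : Set Ω) := fun z hz => hk'' hz
      exact Y.even k'' (hk.trans hk'') hfin'' α hα0 I (fun e hel => hk'' (hI e hel)) ⟨m, hm⟩ x y
        (Y.S.F_mono hsub hx) (Y.S.F_mono hsub hy) hy0 hxy e' he')
    have hεΩ : (ε : Ω) ≠ 0 := fun h0 => hε (Subtype.ext h0)
    rcases Finset.subset_singleton_iff.1 hB with rfl | rfl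
    · exfalso
      rw [Finset.prod_empty, mul_one] at hz
      have h1 : V.valuation x = V.valuation w ^ 2 := by
        rw [← hall e' he', hz, map_mul, L.val_const _ ε.2 hεΩ, one_mul, map_pow]
      refine L.ram (w * x ^ m / y) (div_mem (mul_mem hw (pow_mem hx m)) hy) ?_
      rw [hu, map_mul, map_pow, map_div₀, map_mul, map_pow, div_pow, hy2, mul_pow, ← h1, ← pow_mul,
        mul_comm m 2, ← pow_succ', ← mul_div_assoc, div_self]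
      exact mul_ne_zero (V.valuation.ne_zero_iff.2 ht0) (pow_ne_zero _ hvx)
    · refine ⟨ε, ε.2, hεΩ, w, hw, hw0, ?_⟩
      rw [hz, Finset.prod_singleton]
      simp
  obtain ⟨ε, hε, hε0, w, hw, hw0, hz⟩ := hshape e he
  -- all `ε` are equal up to squares
  have hsq : ∀ e' ∈ I, ∃ r ∈ Y.S.F k', r ≠ 0 ∧ x - e' = ε * tt k Ω * r ^ 2 := by
    intro e' he'
    obtain ⟨ε', hε', hε0', w', hw', hw0', hz'⟩ := hshape e' he'
    obtain ⟨d, hd, hdd⟩ := L.pin (ε' / ε) (div_mem hε' hε) (w' / w) (div_mem hw' hw) (by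
      have e1 : ε' / ε * (w' / w) ^ 2 - 1 = (e - e') / (x - e) := by
        have h3 : ε' / ε * (w' / w) ^ 2 = (x - e') / (x - e) := by
          rw [hz, hz']
          field_simp
        rw [h3]
        have := hxe0 e he
        field_simp
        ring
      rw [e1, map_div₀, hall e he]
      have h4 : V.valuation (e - e') ≤ 1 :=
        (V.valuation_le_one_iff _).2 (L.const _ (sub_mem (hI e he) (hI e' he')))
      exact (div_lt_one₀ (zero_lt_iff.2 hvx)).2 (h4.trans_lt hx1))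
    have hd0 : d ≠ 0 := by
      rintro rfl
      have : ε' / ε ≠ 0 := div_ne_zero hε0' hε0
      apply this
      rw [hdd]
      simp
    refine ⟨d * w', mul_mem (hkF d hd) hw', mul_ne_zero hd0 hw0', ?_⟩
    have h5 : ε' = ε * d ^ 2 := by
      rw [← hdd]
      field_simp
    rw [hz', h5]
    ring
  choose! r hrF hr0 hr using hsq
  -- the product
  have hprod : y ^ 2 = ε * (tt k Ω ^ (m + 1) * ε ^ m * ∏ e' ∈ I, r e') ^ 2 := by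
    rw [← hxy, Finset.prod_congr rfl hr, Finset.prod_mul_distrib, Finset.prod_const, hm, Finset.prod_pow]
    ring
  have hP0 : tt k Ω ^ (m + 1) * ε ^ m * ∏ e' ∈ I, r e' ≠ 0 :=
    mul_ne_zero (mul_ne_zero (pow_ne_zero _ ht0) (pow_ne_zero _ hε0))
      (Finset.prod_ne_zero_iff.2 fun e' he' => hr0 e' he')
  have hPF : tt k Ω ^ (m + 1) * ε ^ m * ∏ e' ∈ I, r e' ∈ Y.S.F k' :=
    mul_mem (mul_mem (pow_mem htF _) (pow_mem (hkF ε hε) _)) (prod_mem fun e' he' => hrF e' he')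
  obtain ⟨δ, hδ, hδε⟩ := L.pin ε hε ((tt k Ω ^ (m + 1) * ε ^ m * ∏ e' ∈ I, r e') / y) (div_mem hPF hy) (by
    have e1 : ε * ((tt k Ω ^ (m + 1) * ε ^ m * ∏ e' ∈ I, r e') / y) ^ 2 - 1 = 0 := by
      rw [div_pow, ← mul_div_assoc, ← hprod, div_self (pow_ne_zero 2 hy0), sub_self]
    rw [e1, map_zero]
    exact zero_lt_one)
  refine ⟨tt k Ω * δ * w, mul_mem (mul_mem htF (hkF δ hδ)) hw, ?_⟩
  rw [hz, hδε]
  ring

theorem Sys.nonunit0 (Y : Sys k Ω) (k' : IntermediateField k Ω) (hk : Y.k0 ≤ k') (hfin : FiniteDimensional k k')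
    (I : Finset Ω) (hI : ∀ e ∈ I, e ∈ k') (x y : Ω) (hx : x ∈ Y.S.F k') (hy : y ∈ Y.S.F k')
    (hy0 : y ≠ 0) (hxy : tt k Ω * ∏ e ∈ I, (x - e) = y ^ 2) (hpos : x ∈ Y.V k' (some 0)) :
    ∃ e ∈ I, (Y.V k' (some 0)).valuation (x - e) < 1 := by
  have L : Loc Y.S k' (some 0) (Y.V k' (some 0)) := Y.loc k' hk hfin (some 0)
  set V := Y.V k' (some 0) with hV
  by_contra hcon
  push Not at hcon
  have hall : ∀ e ∈ I, V.valuation (x - e) = 1 := fun e he =>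
    le_antisymm ((V.valuation_le_one_iff _).2 (sub_mem hpos (L.const e (hI e he)))) (hcon e he)
  have hu : unif k' (some 0) = tt k Ω := by
    show tt k Ω - ((0 : k') : Ω) = tt k Ω
    simp
  have hy2 : V.valuation y ^ 2 = V.valuation (tt k Ω) := by
    rw [← map_pow, ← hxy, map_mul, map_prod, Finset.prod_congr rfl hall, Finset.prod_const_one, mul_one]
  refine L.ram y⁻¹ (inv_mem hy) ?_
  rw [hu, map_mul, inv_pow, map_inv₀, map_pow, hy2, mul_inv_cancel₀]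
  rw [← hy2]
  exact pow_ne_zero _ (V.valuation.ne_zero_iff.2 hy0)

/-- inversion of the product in the change of coordinates `x₀ = (x - e)⁻¹` -/
private theorem moeb_prod {M : Type} [Field M] [DecidableEq M] (I : Finset M) (e : M) (he : e ∈ I) (hodd : Odd I.card)
    (t x y : M) (hxe : x ≠ e) (hxy : t * ∏ e' ∈ I, (x - e') = y ^ 2) (d : M → M)
    (hd : ∀ e' ∈ I, e - e' = d e' ^ 2) :
    t * ∏ e'' ∈ insert 0 ((I.erase e).image fun e' => (e' - e)⁻¹), ((x - e)⁻¹ - e'') =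
      (y / ((x - e) ^ ((I.erase e).card / 2 + 1) * ∏ e' ∈ I.erase e, d e')) ^ 2 := by
  have h0 : x - e ≠ 0 := sub_ne_zero.2 hxe
  have hne : ∀ e' ∈ I.erase e, e' - e ≠ 0 := fun e' h => sub_ne_zero.2 (Finset.ne_of_mem_erase h)
  have hnot : (0 : M) ∉ (I.erase e).image fun e' => (e' - e)⁻¹ := by
    rw [Finset.mem_image]
    rintro ⟨e', h, h1⟩
    exact inv_ne_zero (hne e' h) h1
  have hinj : Set.InjOn (fun e' => (e' - e)⁻¹) (I.erase e : Set M) := by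
    intro a _ b _ hab
    have h1 : a - e = b - e := inv_injective hab
    exact sub_left_injective h1
  rw [Finset.prod_insert hnot, Finset.prod_image hinj, sub_zero]
  have h1 : ∏ e' ∈ I.erase e, ((x - e)⁻¹ - (e' - e)⁻¹) =
      (∏ e' ∈ I.erase e, (x - e')) / ((x - e) ^ (I.erase e).card * (∏ e' ∈ I.erase e, d e') ^ 2) := by
    rw [← Finset.prod_pow, ← Finset.prod_const, ← Finset.prod_mul_distrib, ← Finset.prod_div_distrib]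
    refine Finset.prod_congr rfl fun e' h => ?_
    rw [← hd e' (Finset.mem_of_mem_erase h)]
    have h2 := hne e' h
    have h3 : e - e' ≠ 0 := by
      rw [← neg_sub]
      exact neg_ne_zero.2 h2
    rw [inv_sub_inv h0 h2, div_eq_div_iff (mul_ne_zero h0 h2) (mul_ne_zero h0 h3)]
    ring
  have heven : Even (I.erase e).card := by
    rw [Finset.card_erase_of_mem he]
    exact Nat.Odd.sub_odd hodd odd_one
  obtain ⟨m, hm⟩ := heven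
  have hm2 : (I.erase e).card / 2 = m := by omega
  have h4 : (∏ e' ∈ I, (x - e')) = (x - e) * ∏ e' ∈ I.erase e, (x - e') :=
    (Finset.mul_prod_erase I (fun e' => x - e') he).symm
  have hD : (∏ e' ∈ I.erase e, d e') ≠ 0 := by
    refine Finset.prod_ne_zero_iff.2 fun e' h h1 => ?_
    have h2 := hd e' (Finset.mem_of_mem_erase h)
    rw [h1, zero_pow two_ne_zero, sub_eq_zero] at h2
    exact Finset.ne_of_mem_erase h h2.symm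
  rw [h1, hm2, hm, div_pow, ← hxy, h4]
  field_simp
  ring

theorem Sys.moebius (Y : Sys k Ω) (I : Finset Ω) (hI : ∀ e ∈ I, e ∈ Y.k0) (hodd : Odd I.card) (h3 : 3 ≤ I.card)
    (hsq : ∀ e ∈ I, ∀ e' ∈ I, ∃ d ∈ Y.k0, e - e' = d ^ 2) (x y : Ω) (hx : x ∈ Y.S.F Y.k0) (hy : y ∈ Y.S.F Y.k0)
    (hy0 : y ≠ 0) (hxy : tt k Ω * ∏ e ∈ I, (x - e) = y ^ 2) :
    ∃ x₀ ∈ Y.S.F Y.k0, (x₀ = x ∨ ∃ e ∈ Y.k0, x ≠ e ∧ x₀ = (x - e)⁻¹) ∧ ∃ e₁ ∈ Y.k0, ∃ e₂ ∈ Y.k0, ∃ e₃ ∈ Y.k0,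
      e₁ ≠ e₂ ∧ e₁ ≠ e₃ ∧ e₂ ≠ e₃ ∧ (∃ r ∈ Y.S.F Y.k0, tt k Ω * (x₀ - e₁) = r ^ 2) ∧
        (∃ r ∈ Y.S.F Y.k0, tt k Ω * (x₀ - e₂) = r ^ 2) ∧ ∃ r ∈ Y.S.F Y.k0, tt k Ω * (x₀ - e₃) = r ^ 2 := by
  classical
  have hkF : ∀ c ∈ Y.k0, c ∈ Y.S.F Y.k0 := fun c hc =>
    kt_le_F Y.S Y.k0 Y.fin0 c (IntermediateField.subset_adjoin _ _ hc)
  by_cases hneg : x ∉ Y.V Y.k0 (some 0)
  · obtain ⟨e₁, e₂, e₃, he1, he2, he3, h12, h13, h23⟩ := Finset.two_lt_card_iff.1 (show 2 < I.card by omega)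
    have key := Y.desc0 Y.k0 le_rfl Y.fin0 I hI hodd x y hx hy hy0 hxy hneg
    exact ⟨x, hx, Or.inl rfl, e₁, hI _ he1, e₂, hI _ he2, e₃, hI _ he3, h12, h13, h23, key e₁ he1, key e₂ he2,
      key e₃ he3⟩
  · rw [not_not] at hneg
    obtain ⟨e, he, hve⟩ := Y.nonunit0 Y.k0 le_rfl Y.fin0 I hI x y hx hy hy0 hxy hneg
    have hxe : x ≠ e := by
      rintro rfl
      rw [Finset.prod_eq_zero he (sub_self x), mul_zero] at hxy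
      exact hy0 (pow_eq_zero_iff two_ne_zero |>.1 hxy.symm)
    have hsq' : ∀ e' : Ω, ∃ d : Ω, e' ∈ I → d ∈ Y.k0 ∧ e - e' = d ^ 2 := by
      intro e'
      by_cases h : e' ∈ I
      · obtain ⟨d, hd, h1⟩ := hsq e he e' h
        exact ⟨d, fun _ => ⟨hd, h1⟩⟩
      · exact ⟨0, fun h1 => absurd h1 h⟩
    choose d hd using hsq'
    set I' : Finset Ω := insert 0 ((I.erase e).image fun e' => (e' - e)⁻¹) with hI'
    have hcard : I'.card = I.card := by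
      rw [hI', Finset.card_insert_of_notMem, Finset.card_image_of_injOn, Finset.card_erase_of_mem he]
      · have : 0 < I.card := Finset.card_pos.2 ⟨e, he⟩
        omega
      · intro a _ b _ hab
        exact sub_left_injective (inv_injective hab : a - e = b - e)
      · rw [Finset.mem_image]
        rintro ⟨e', h, h1⟩
        exact inv_ne_zero (sub_ne_zero.2 (Finset.ne_of_mem_erase h)) h1
    have hI'k : ∀ e'' ∈ I', e'' ∈ Y.k0 := by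
      intro e'' h
      rw [hI', Finset.mem_insert, Finset.mem_image] at h
      rcases h with rfl | ⟨e', h, rfl⟩
      · exact zero_mem _
      · exact inv_mem (sub_mem (hI _ (Finset.mem_of_mem_erase h)) (hI _ he))
    have hprod := moeb_prod I e he hodd (tt k Ω) x y hxe hxy d (fun e' h => (hd e' h).2)
    rw [← hI'] at hprod
    set y' : Ω := y / ((x - e) ^ ((I.erase e).card / 2 + 1) * ∏ e' ∈ I.erase e, d e') with hy'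
    have hxeF : x - e ∈ Y.S.F Y.k0 := sub_mem hx (hkF e (hI e he))
    have hDF : (∏ e' ∈ I.erase e, d e') ∈ Y.S.F Y.k0 :=
      prod_mem fun e' h => hkF _ (hd e' (Finset.mem_of_mem_erase h)).1
    have hD0 : (∏ e' ∈ I.erase e, d e') ≠ 0 := by
      refine Finset.prod_ne_zero_iff.2 fun e' h h1 => ?_
      have h2 := (hd e' (Finset.mem_of_mem_erase h)).2
      rw [h1, zero_pow two_ne_zero, sub_eq_zero] at h2
      exact Finset.ne_of_mem_erase h h2.symm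
    have hy'F : y' ∈ Y.S.F Y.k0 := div_mem hy (mul_mem (pow_mem hxeF _) hDF)
    have hy'0 : y' ≠ 0 := div_ne_zero hy0 (mul_ne_zero (pow_ne_zero _ (sub_ne_zero.2 hxe)) hD0)
    have hx0F : (x - e)⁻¹ ∈ Y.S.F Y.k0 := inv_mem hxeF
    have hneg' : (x - e)⁻¹ ∉ Y.V Y.k0 (some 0) := by
      rw [← ValuationSubring.valuation_le_one_iff, map_inv₀, not_le]
      exact (one_lt_inv₀ (zero_lt_iff.2 ((Valuation.ne_zero_iff _).2 (sub_ne_zero.2 hxe)))).2 hve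
    obtain ⟨e₁, e₂, e₃, he1, he2, he3, h12, h13, h23⟩ :=
      Finset.two_lt_card_iff.1 (show 2 < I'.card by rw [hcard]; omega)
    have key := Y.desc0 Y.k0 le_rfl Y.fin0 I' hI'k (by rw [hcard]; exact hodd) (x - e)⁻¹ y' hx0F hy'F hy'0 hprod hneg'
    exact ⟨(x - e)⁻¹, hx0F, Or.inr ⟨e, hI e he, hxe, rfl⟩, e₁, hI'k _ he1, e₂, hI'k _ he2, e₃, hI'k _ he3, h12, h13,
      h23, key e₁ he1, key e₂ he2, key e₃ he3⟩

private theorem half_tt_ne (Y : Sys k Ω) : tt k Ω ≠ 0 := by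
  have h := unif_ne_zero Y.k0 Y.fin0 (some 0)
  intro h0
  apply h
  unfold unif
  simp [h0]

private theorem half_aux (Y : Sys k Ω) (e₁ e₂ e₃ : Ω) (h1 : e₁ ∈ Y.k0) (h2 : e₂ ∈ Y.k0) (h3 : e₃ ∈ Y.k0)
    (h12 : e₁ ≠ e₂) (h13 : e₁ ≠ e₃) (h23 : e₂ ≠ e₃) (h y : Ω) (hh : h ∈ Y.S.F Y.k0) (hy : y ∈ Y.S.F Y.k0) (hy0 : y ≠ 0)
    (hxy : tt k Ω * ((h - e₁) * (h - e₂) * (h - e₃)) = y ^ 2) :
    (h ∉ Y.V Y.k0 (some 0) → (∃ r ∈ Y.S.F Y.k0, tt k Ω * (h - e₁) = r ^ 2) ∧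
      (∃ r ∈ Y.S.F Y.k0, tt k Ω * (h - e₂) = r ^ 2) ∧ ∃ r ∈ Y.S.F Y.k0, tt k Ω * (h - e₃) = r ^ 2) ∧
    (h ∈ Y.V Y.k0 (some 0) → (Y.V Y.k0 (some 0)).valuation (h - e₁) < 1 ∨ (Y.V Y.k0 (some 0)).valuation (h - e₂) < 1 ∨
      (Y.V Y.k0 (some 0)).valuation (h - e₃) < 1) := by
  classical
  have hI : ∀ e ∈ ({e₁, e₂, e₃} : Finset Ω), e ∈ Y.k0 := by
    intro e he
    simp only [Finset.mem_insert, Finset.mem_singleton] at he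
    rcases he with rfl | rfl | rfl
    · exact h1
    · exact h2
    · exact h3
  have n1 : e₁ ∉ ({e₂, e₃} : Finset Ω) := by simp [h12, h13]
  have n2 : e₂ ∉ ({e₃} : Finset Ω) := by simp [h23]
  have hcard : ({e₁, e₂, e₃} : Finset Ω).card = 3 := by
    rw [Finset.card_insert_of_notMem n1, Finset.card_insert_of_notMem n2, Finset.card_singleton]
  have hodd : Odd ({e₁, e₂, e₃} : Finset Ω).card := by
    rw [hcard]
    decide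
  have hprod : tt k Ω * ∏ e ∈ ({e₁, e₂, e₃} : Finset Ω), (h - e) = y ^ 2 := by
    rw [Finset.prod_insert n1, Finset.prod_insert n2, Finset.prod_singleton, ← hxy, mul_assoc (h - e₁)]
  constructor
  · intro hneg
    have key := fun e he => Y.desc0 Y.k0 le_rfl Y.fin0 {e₁, e₂, e₃} hI hodd h y hh hy hy0 hprod hneg e he
    exact ⟨key e₁ (by simp), key e₂ (by simp), key e₃ (by simp)⟩
  · intro hpos
    obtain ⟨e, he, hv⟩ := Y.nonunit0 Y.k0 le_rfl Y.fin0 {e₁, e₂, e₃} hI h y hh hy hy0 hprod hpos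
    simp only [Finset.mem_insert, Finset.mem_singleton] at he
    rcases he with rfl | rfl | rfl
    · exact Or.inl hv
    · exact Or.inr (Or.inl hv)
    · exact Or.inr (Or.inr hv)

private theorem half_pole (Y : Sys k Ω) (e₁ e₂ e₃ : Ω) (h1 : e₁ ∈ Y.k0) (h2 : e₂ ∈ Y.k0) (h3 : e₃ ∈ Y.k0)
    (h12 : e₁ ≠ e₂) (h13 : e₁ ≠ e₃) (h23 : e₂ ≠ e₃) (h y : Ω) (hh : h ∈ Y.S.F Y.k0) (hy : y ∈ Y.S.F Y.k0) (hy0 : y ≠ 0)
    (hxy : tt k Ω * ((h - e₁) * (h - e₂) * (h - e₃)) = y ^ 2) (g1 : h ≠ e₁) (g2 : h ≠ e₂) (g3 : h ≠ e₃)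
    (hv : (Y.V Y.k0 (some 0)).valuation (h - e₁) < 1) :
    TT e₁ e₂ e₃ h ∈ Y.S.F Y.k0 ∧ (∃ r ∈ Y.S.F Y.k0, tt k Ω * (TT e₁ e₂ e₃ h - e₁) = r ^ 2) ∧
      (∃ r ∈ Y.S.F Y.k0, tt k Ω * (TT e₁ e₂ e₃ h - e₂) = r ^ 2) ∧
      ∃ r ∈ Y.S.F Y.k0, tt k Ω * (TT e₁ e₂ e₃ h - e₃) = r ^ 2 := by
  haveI : CharZero Ω := charZero_of_injective_algebraMap (algebraMap k Ω).injective
  have hkF : ∀ c ∈ Y.k0, c ∈ Y.S.F Y.k0 := fun c hc =>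
    mem_F_of_mem Y.S Y.k0 c hc (level_alg Y.k0 Y.fin0 c hc).2
  have L := Y.loc Y.k0 le_rfl Y.fin0 (some 0)
  have he1 := hkF e₁ h1
  have he2 := hkF e₂ h2
  have he3 := hkF e₃ h3
  obtain ⟨-, -, -, hprod⟩ := TT_ne e₁ e₂ e₃ h h12 h13 g1 g2 g3
  have hTF : TT e₁ e₂ e₃ h ∈ Y.S.F Y.k0 := by
    unfold TT
    exact add_mem he1 (div_mem (mul_mem (sub_mem he1 he2) (sub_mem he1 he3)) (sub_mem hh he1))
  have hw : (e₁ - e₂) * (e₁ - e₃) / (h - e₁) ^ 2 ∈ Y.S.F Y.k0 :=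
    div_mem (mul_mem (sub_mem he1 he2) (sub_mem he1 he3)) (pow_mem (sub_mem hh he1) 2)
  have hw0 : (e₁ - e₂) * (e₁ - e₃) / (h - e₁) ^ 2 ≠ 0 :=
    div_ne_zero (mul_ne_zero (sub_ne_zero.2 h12) (sub_ne_zero.2 h13)) (pow_ne_zero 2 (sub_ne_zero.2 g1))
  have hneg : TT e₁ e₂ e₃ h ∉ Y.V Y.k0 (some 0) := by
    intro hmem
    have h4 : TT e₁ e₂ e₃ h - e₁ ∈ Y.V Y.k0 (some 0) := sub_mem hmem (L.const e₁ h1)
    have h5 : (TT e₁ e₂ e₃ h - e₁) * (h - e₁) = (e₁ - e₂) * (e₁ - e₃) := by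
      unfold TT
      rw [add_sub_cancel_left, div_mul_cancel₀ _ (sub_ne_zero.2 g1)]
    have h6 : (Y.V Y.k0 (some 0)).valuation ((e₁ - e₂) * (e₁ - e₃)) = 1 :=
      L.val_const _ (mul_mem (sub_mem h1 h2) (sub_mem h1 h3))
        (mul_ne_zero (sub_ne_zero.2 h12) (sub_ne_zero.2 h13))
    rw [← h5, map_mul] at h6
    have h7 : (Y.V Y.k0 (some 0)).valuation (TT e₁ e₂ e₃ h - e₁) ≤ 1 :=
      (ValuationSubring.valuation_le_one_iff _ _).2 h4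
    have h8 := mul_lt_one_of_nonneg_of_lt_one_right h7 zero_le' hv
    rw [h6] at h8
    exact lt_irrefl _ h8
  have hxy' : tt k Ω * ((TT e₁ e₂ e₃ h - e₁) * (TT e₁ e₂ e₃ h - e₂) * (TT e₁ e₂ e₃ h - e₃)) =
      (y * ((e₁ - e₂) * (e₁ - e₃) / (h - e₁) ^ 2)) ^ 2 := by
    rw [hprod, mul_pow, ← hxy]
    ring
  exact ⟨hTF, (half_aux Y e₁ e₂ e₃ h1 h2 h3 h12 h13 h23 _ _ hTF (mul_mem hy hw) (mul_ne_zero hy0 hw0) hxy').1 hneg⟩

theorem Sys.half (Y : Sys k Ω) (e₁ e₂ e₃ : Ω) (h1 : e₁ ∈ Y.k0) (h2 : e₂ ∈ Y.k0) (h3 : e₃ ∈ Y.k0)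
    (h12 : e₁ ≠ e₂) (h13 : e₁ ≠ e₃) (h23 : e₂ ≠ e₃) (x : Ω) (hx : x ∈ Y.S.F Y.k0)
    (hr1 : ∃ r ∈ Y.S.F Y.k0, tt k Ω * (x - e₁) = r ^ 2) (hr2 : ∃ r ∈ Y.S.F Y.k0, tt k Ω * (x - e₂) = r ^ 2)
    (hr3 : ∃ r ∈ Y.S.F Y.k0, tt k Ω * (x - e₃) = r ^ 2) :
    ∃ x' ∈ Y.S.F Y.k0, HalfStep (Y.S.F Y.k0) (tt k Ω) e₁ e₂ e₃ x x' ∧ (∃ r ∈ Y.S.F Y.k0, tt k Ω * (x' - e₁) = r ^ 2) ∧
        (∃ r ∈ Y.S.F Y.k0, tt k Ω * (x' - e₂) = r ^ 2) ∧ ∃ r ∈ Y.S.F Y.k0, tt k Ω * (x' - e₃) = r ^ 2 := by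
  haveI : CharZero Ω := charZero_of_injective_algebraMap (algebraMap k Ω).injective
  obtain ⟨r₁, hr₁, q₁⟩ := hr1
  obtain ⟨r₂, hr₂, q₂⟩ := hr2
  obtain ⟨r₃, hr₃, q₃⟩ := hr3
  have ht0 : tt k Ω ≠ 0 := half_tt_ne Y
  have htF : tt k Ω ∈ Y.S.F Y.k0 := algebraMap_mem_F Y.S Y.k0 _
  obtain ⟨h, hdef⟩ : ∃ h, h = x + (r₁ * r₂ + r₁ * r₃ + r₂ * r₃) / tt k Ω := ⟨_, rfl⟩
  have hh : h ∈ Y.S.F Y.k0 := by
    rw [hdef]
    exact add_mem hx (div_mem (add_mem (add_mem (mul_mem hr₁ hr₂) (mul_mem hr₁ hr₃)) (mul_mem hr₂ hr₃)) htF)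
  obtain ⟨s1, s2, s3, n12, n13, n23, g1, g2, g3⟩ :=
    half_sub (tt k Ω) e₁ e₂ e₃ x r₁ r₂ r₃ h ht0 h12 h13 h23 q₁ q₂ q₃ hdef
  obtain ⟨y, hydef⟩ : ∃ y, y = (r₁ + r₂) * (r₁ + r₃) * (r₂ + r₃) / tt k Ω := ⟨_, rfl⟩
  have hy : y ∈ Y.S.F Y.k0 := by
    rw [hydef]
    exact div_mem (mul_mem (mul_mem (add_mem hr₁ hr₂) (add_mem hr₁ hr₃)) (add_mem hr₂ hr₃)) htF
  have hy0 : y ≠ 0 := by
    rw [hydef]
    exact div_ne_zero (mul_ne_zero (mul_ne_zero n12 n13) n23) ht0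
  have hxy : tt k Ω * ((h - e₁) * (h - e₂) * (h - e₃)) = y ^ 2 := by
    rw [s1, s2, s3, hydef]
    field_simp
    ring
  have step : ∀ x', (x' = h ∨ x' = TT e₁ e₂ e₃ h ∨ x' = TT e₂ e₁ e₃ h ∨ x' = TT e₃ e₁ e₂ h) →
      HalfStep (Y.S.F Y.k0) (tt k Ω) e₁ e₂ e₃ x x' := fun x' hx' =>
    ⟨r₁, hr₁, r₂, hr₂, r₃, hr₃, q₁, q₂, q₃, h, hdef, hx'⟩
  have haux := half_aux Y e₁ e₂ e₃ h1 h2 h3 h12 h13 h23 h y hh hy hy0 hxy
  by_cases hV : h ∈ Y.V Y.k0 (some 0)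
  · rcases haux.2 hV with hv | hv | hv
    · obtain ⟨a, b, c, d⟩ := half_pole Y e₁ e₂ e₃ h1 h2 h3 h12 h13 h23 h y hh hy hy0 hxy g1 g2 g3 hv
      exact ⟨_, a, step _ (Or.inr (Or.inl rfl)), b, c, d⟩
    · obtain ⟨a, b, c, d⟩ := half_pole Y e₂ e₁ e₃ h2 h1 h3 h12.symm h23 h13 h y hh hy hy0
        (by rw [← hxy]; ring) g2 g1 g3 hv
      exact ⟨_, a, step _ (Or.inr (Or.inr (Or.inl rfl))), c, b, d⟩
    · obtain ⟨a, b, c, d⟩ := half_pole Y e₃ e₁ e₂ h3 h1 h2 h13.symm h23.symm h12 h y hh hy hy0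
        (by rw [← hxy]; ring) g3 g1 g2 hv
      exact ⟨_, a, step _ (Or.inr (Or.inr (Or.inr rfl))), c, d, b⟩
  · obtain ⟨b, c, d⟩ := haux.1 hV
    exact ⟨h, hh, step _ (Or.inl rfl), b, c, d⟩

theorem Sys.chain (Y : Sys k Ω) (e₁ e₂ e₃ : Ω) (h1 : e₁ ∈ Y.k0) (h2 : e₂ ∈ Y.k0) (h3 : e₃ ∈ Y.k0)
    (h12 : e₁ ≠ e₂) (h13 : e₁ ≠ e₃) (h23 : e₂ ≠ e₃) (x : Ω) (hx : x ∈ Y.S.F Y.k0)
    (hr1 : ∃ r ∈ Y.S.F Y.k0, tt k Ω * (x - e₁) = r ^ 2) (hr2 : ∃ r ∈ Y.S.F Y.k0, tt k Ω * (x - e₂) = r ^ 2)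
    (hr3 : ∃ r ∈ Y.S.F Y.k0, tt k Ω * (x - e₃) = r ^ 2) :
    ∃ X : ℕ → Ω, X 0 = x ∧ ∀ m, HalfStep (Y.S.F Y.k0) (tt k Ω) e₁ e₂ e₃ (X m) (X (m + 1)) := by
  have step : ∀ x, (x ∈ Y.S.F Y.k0 ∧ (∃ r ∈ Y.S.F Y.k0, tt k Ω * (x - e₁) = r ^ 2) ∧
      (∃ r ∈ Y.S.F Y.k0, tt k Ω * (x - e₂) = r ^ 2) ∧ ∃ r ∈ Y.S.F Y.k0, tt k Ω * (x - e₃) = r ^ 2) →
      ∃ x', (x' ∈ Y.S.F Y.k0 ∧ (∃ r ∈ Y.S.F Y.k0, tt k Ω * (x' - e₁) = r ^ 2) ∧
        (∃ r ∈ Y.S.F Y.k0, tt k Ω * (x' - e₂) = r ^ 2) ∧ ∃ r ∈ Y.S.F Y.k0, tt k Ω * (x' - e₃) = r ^ 2) ∧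
        HalfStep (Y.S.F Y.k0) (tt k Ω) e₁ e₂ e₃ x x' := by
    rintro x ⟨hx, a1, a2, a3⟩
    obtain ⟨x', b0, b1, b2, b3, b4⟩ := Y.half e₁ e₂ e₃ h1 h2 h3 h12 h13 h23 x hx a1 a2 a3
    exact ⟨x', ⟨b0, b2, b3, b4⟩, b1⟩
  choose! f hf using step
  have hP : ∀ m : ℕ, (f^[m] x ∈ Y.S.F Y.k0 ∧ (∃ r ∈ Y.S.F Y.k0, tt k Ω * (f^[m] x - e₁) = r ^ 2) ∧
      (∃ r ∈ Y.S.F Y.k0, tt k Ω * (f^[m] x - e₂) = r ^ 2) ∧
      ∃ r ∈ Y.S.F Y.k0, tt k Ω * (f^[m] x - e₃) = r ^ 2) := by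
    intro m
    induction m with
    | zero => exact ⟨hx, hr1, hr2, hr3⟩
    | succ m ih =>
      rw [Function.iterate_succ_apply']
      exact (hf _ ih).1
  refine ⟨fun m => f^[m] x, rfl, fun m => ?_⟩
  simp only [Function.iterate_succ_apply']
  exact (hf _ (hP m)).2

private theorem v_eq_one_of_sq {V : ValuationSubring Ω} {x : Ω} (h : V.valuation (x ^ 2) = 1) :
    V.valuation x = 1 := by
  rw [map_pow] at h
  exact (pow_eq_one_iff_of_nonneg zero_le' two_ne_zero).1 h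

private theorem close_mul' {V : ValuationSubring Ω} {a a' b b' : Ω} (ha : V.valuation (a - a') < 1)
    (hb : V.valuation (b - b') < 1) (ha1 : V.valuation a ≤ 1) (hb1 : V.valuation b' ≤ 1) :
    V.valuation (a * b - a' * b') < 1 := by
  have e : a * b - a' * b' = a * (b - b') + (a - a') * b' := by ring
  rw [e]
  refine V.valuation.map_add_lt ?_ ?_
  · rw [map_mul]
    exact mul_lt_one_of_nonneg_of_lt_one_right ha1 zero_le' hb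
  · rw [map_mul]
    exact mul_lt_one_of_nonneg_of_lt_one_left zero_le' ha hb1

private theorem close_div' {V : ValuationSubring Ω} {a b s α : Ω} (hab : V.valuation (a - b) < 1)
    (hs : V.valuation (s - α) < 1) (hb : V.valuation b ≤ 1) (hs1 : V.valuation s = 1)
    (hα : V.valuation α = 1) : V.valuation (a / s - b / α) < 1 := by
  have hs0 : s ≠ 0 := by
    rintro rfl
    rw [map_zero] at hs1
    exact zero_ne_one hs1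
  have hα0 : α ≠ 0 := by
    rintro rfl
    rw [map_zero] at hα
    exact zero_ne_one hα
  have e : a / s - b / α = ((a - b) * α - b * (s - α)) / (s * α) := by
    field_simp
    ring
  rw [e, map_div₀, map_mul V.valuation s α, hs1, hα, one_mul, div_one]
  refine V.valuation.map_sub_lt ?_ ?_
  · rw [map_mul, hα, mul_one]
    exact hab
  · rw [map_mul]
    exact mul_lt_one_of_nonneg_of_lt_one_right hb zero_le' hs

private theorem Loc.sqrt_lift {S : Sec (RatFunc k) Ω} {k' : IntermediateField k Ω} {α : k'} {V : ValuationSubring Ω}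
    (L : Loc S k' (some α) V) (r u : Ω) (hr : r ∈ S.F k') (hu : u ∈ k') (hu0 : u ≠ 0)
    (h : V.valuation (r ^ 2 - u) < 1) : ∃ ρ ∈ k', u = ρ ^ 2 ∧ V.valuation (r - ρ) < 1 := by
  have hu1 : V.valuation u = 1 := L.val_const u hu hu0
  have hr2 : V.valuation (r ^ 2) = 1 := by
    have e : r ^ 2 = u + (r ^ 2 - u) := by ring
    rw [e, V.valuation.map_add_eq_of_lt_left (by rw [hu1]; exact h), hu1]
  have hr1 : V.valuation r = 1 := v_eq_one_of_sq hr2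
  have hr0 : r ≠ 0 := by
    rintro rfl
    rw [map_zero] at hr1
    exact zero_ne_one hr1
  have hp : V.valuation (u * r⁻¹ ^ 2 - 1) < 1 := by
    have e : u * r⁻¹ ^ 2 - 1 = (u - r ^ 2) * r⁻¹ ^ 2 := by
      field_simp
    rw [e, map_mul, map_pow, map_inv₀, hr1, inv_one, one_pow, mul_one, V.valuation.map_sub_swap]
    exact h
  obtain ⟨d, hd, hud⟩ := L.pin u hu r⁻¹ (inv_mem hr) hp
  have e : r ^ 2 - u = (r - d) * (r + d) := by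
    rw [hud]
    ring
  rw [e, map_mul] at h
  by_cases h1 : V.valuation (r - d) < 1
  · exact ⟨d, hd, hud, h1⟩
  · refine ⟨-d, neg_mem hd, by rw [hud]; ring, ?_⟩
    rw [sub_neg_eq_add]
    by_contra h2
    push Not at h1 h2
    exact absurd h (not_lt.2 (one_le_mul h1 h2))

private theorem Loc.TT_close {S : Sec (RatFunc k) Ω} {k' : IntermediateField k Ω} {α : k'} {V : ValuationSubring Ω}
    (L : Loc S k' (some α) V) (a b c g h : Ω) (ha : a ∈ k') (hb : b ∈ k') (hc : c ∈ k') (hg : g ∈ k') (hga : g ≠ a)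
    (hh : V.valuation (h - g) < 1) : V.valuation (TT a b c h - TT a b c g) < 1 := by
  have h1 : V.valuation (g - a) = 1 := L.val_const _ (sub_mem hg ha) (sub_ne_zero.2 hga)
  have h2 : V.valuation (h - a) = 1 := by
    have e : h - a = (g - a) + (h - g) := by ring
    rw [e, V.valuation.map_add_eq_of_lt_left (by rw [h1]; exact hh), h1]
  have h3 : V.valuation ((a - b) * (a - c)) ≤ 1 :=
    (V.valuation_le_one_iff _).2 (L.const _ (mul_mem (sub_mem ha hb) (sub_mem ha hc)))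
  have hg0 : g - a ≠ 0 := sub_ne_zero.2 hga
  have hh0 : h - a ≠ 0 := by
    intro h0
    rw [h0, map_zero] at h2
    exact zero_ne_one h2
  have e : TT a b c h - TT a b c g = ((a - b) * (a - c)) * (h - g) * (-1) / ((h - a) * (g - a)) := by
    unfold TT
    field_simp
    ring
  rw [e, map_div₀, map_mul V.valuation (h - a), h1, h2, one_mul, div_one, map_mul, map_mul, Valuation.map_neg,
    map_one, mul_one]
  exact mul_lt_one_of_nonneg_of_lt_one_right h3 zero_le' hh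

theorem Sys.spec_step (Y : Sys k Ω) (e₁ e₂ e₃ : Ω) (h1 : e₁ ∈ Y.k0) (h2 : e₂ ∈ Y.k0) (h3 : e₃ ∈ Y.k0)
    (h12 : e₁ ≠ e₂) (h13 : e₁ ≠ e₃) (h23 : e₂ ≠ e₃) (x x' : Ω) (hst : HalfStep (Y.S.F Y.k0) (tt k Ω) e₁ e₂ e₃ x x')
    (k' : IntermediateField k Ω) (hk : Y.k0 ≤ k') (hfin : FiniteDimensional k k') (α : k') (hα : α ≠ 0)
    (c : Ω) (hc : c ∈ k') (hc1 : c ≠ e₁) (hc2 : c ≠ e₂) (hc3 : c ≠ e₃)
    (hxc : (Y.V k' (some α)).valuation (x - c) < 1) :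
    ∃ c' ∈ k', c' ≠ e₁ ∧ c' ≠ e₂ ∧ c' ≠ e₃ ∧ DD e₁ e₂ e₃ c' = c ∧ (Y.V k' (some α)).valuation (x' - c') < 1 := by
  haveI : CharZero Ω := charZero_of_injective_algebraMap (algebraMap k Ω).injective
  obtain ⟨r₁, hr₁, r₂, hr₂, r₃, hr₃, q₁, q₂, q₃, h, hh, hx'⟩ := hst
  have L : Loc Y.S k' (some α) (Y.V k' (some α)) := Y.loc k' hk hfin (some α)
  set V := Y.V k' (some α) with hV
  have hk0 : (Y.k0 : Set Ω) ⊆ (k' : Set Ω) := fun z hz => hk hz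
  have hF := Y.S.F_mono hk0
  have he1 : e₁ ∈ k' := hk h1
  have he2 : e₂ ∈ k' := hk h2
  have he3 : e₃ ∈ k' := hk h3
  have hαΩ : (α : Ω) ≠ 0 := fun h0 => hα (Subtype.ext h0)
  have hαv : V.valuation (α : Ω) = 1 := L.val_const _ α.2 hαΩ
  have htα : V.valuation (tt k Ω - (α : Ω)) < 1 := L.unif
  have htv : V.valuation (tt k Ω) = 1 := by
    have e : tt k Ω = (α : Ω) + (tt k Ω - (α : Ω)) := by ring
    rw [e, V.valuation.map_add_eq_of_lt_left (by rw [hαv]; exact htα), hαv]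
  have ht0 : tt k Ω ≠ 0 := by
    intro h0
    rw [h0, map_zero] at htv
    exact zero_ne_one htv
  have hcle : ∀ z ∈ k', V.valuation z ≤ 1 := fun z hz => (V.valuation_le_one_iff _).2 (L.const z hz)
  have hxe : ∀ e ∈ k', c ≠ e → ∀ r ∈ Y.S.F Y.k0, tt k Ω * (x - e) = r ^ 2 →
      ∃ ρ ∈ k', (α : Ω) * (c - e) = ρ ^ 2 ∧ V.valuation (r - ρ) < 1 := by
    intro e he hce r hr hre
    refine L.sqrt_lift r ((α : Ω) * (c - e)) (hF hr) (mul_mem α.2 (sub_mem hc he))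
      (mul_ne_zero hαΩ (sub_ne_zero.2 hce)) ?_
    rw [← hre]
    refine close_mul' htα ?_ htv.le (hcle _ (sub_mem hc he))
    rw [show x - e - (c - e) = x - c by ring]
    exact hxc
  obtain ⟨ρ₁, hρ₁, s₁, v₁⟩ := hxe e₁ he1 hc1 r₁ hr₁ q₁
  obtain ⟨ρ₂, hρ₂, s₂, v₂⟩ := hxe e₂ he2 hc2 r₂ hr₂ q₂
  obtain ⟨ρ₃, hρ₃, s₃, v₃⟩ := hxe e₃ he3 hc3 r₃ hr₃ q₃
  have hrle : ∀ r ρ : Ω, ρ ∈ k' → V.valuation (r - ρ) < 1 → V.valuation r ≤ 1 := by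
    intro r ρ hρ hv
    have e : r = (r - ρ) + ρ := by ring
    rw [e]
    exact V.valuation.map_add_le hv.le (hcle ρ hρ)
  set g : Ω := c + (ρ₁ * ρ₂ + ρ₁ * ρ₃ + ρ₂ * ρ₃) / (α : Ω) with hg
  have hσ : ρ₁ * ρ₂ + ρ₁ * ρ₃ + ρ₂ * ρ₃ ∈ k' :=
    add_mem (add_mem (mul_mem hρ₁ hρ₂) (mul_mem hρ₁ hρ₃)) (mul_mem hρ₂ hρ₃)
  have hgk : g ∈ k' := add_mem hc (div_mem hσ α.2)
  have hhg : V.valuation (h - g) < 1 := by
    have e : h - g = (x - c) + ((r₁ * r₂ + r₁ * r₃ + r₂ * r₃) / tt k Ω - (ρ₁ * ρ₂ + ρ₁ * ρ₃ + ρ₂ * ρ₃) / (α : Ω)) := by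
      rw [hh, hg]
      ring
    rw [e]
    refine V.valuation.map_add_lt hxc (close_div' ?_ htα (hcle _ hσ) htv hαv)
    have e2 : r₁ * r₂ + r₁ * r₃ + r₂ * r₃ - (ρ₁ * ρ₂ + ρ₁ * ρ₃ + ρ₂ * ρ₃) =
        (r₁ * r₂ - ρ₁ * ρ₂) + (r₁ * r₃ - ρ₁ * ρ₃) + (r₂ * r₃ - ρ₂ * ρ₃) := by ring
    rw [e2]
    exact V.valuation.map_add_lt (V.valuation.map_add_lt
      (close_mul' v₁ v₂ (hrle _ _ hρ₁ v₁) (hcle _ hρ₂)) (close_mul' v₁ v₃ (hrle _ _ hρ₁ v₁) (hcle _ hρ₃)))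
      (close_mul' v₂ v₃ (hrle _ _ hρ₂ v₂) (hcle _ hρ₃))
  obtain ⟨-, -, -, -, -, -, g1, g2, g3⟩ := half_sub (α : Ω) e₁ e₂ e₃ c ρ₁ ρ₂ ρ₃ g hαΩ h12 h13 h23 s₁ s₂ s₃ hg
  have hDD : DD e₁ e₂ e₃ g = c := DD_half (α : Ω) e₁ e₂ e₃ c ρ₁ ρ₂ ρ₃ g hαΩ h12 h13 h23 s₁ s₂ s₃ hg
  obtain ⟨d1, d2, d3⟩ := DD_TT e₁ e₂ e₃ g h12 h13 h23 g1 g2 g3
  have hTk : ∀ a ∈ k', ∀ b ∈ k', ∀ c ∈ k', TT a b c g ∈ k' := by
    intro a ha b hb c hc
    exact add_mem ha (div_mem (mul_mem (sub_mem ha hb) (sub_mem ha hc)) (sub_mem hgk ha))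
  rcases hx' with rfl | rfl | rfl | rfl
  · exact ⟨g, hgk, g1, g2, g3, hDD, hhg⟩
  · obtain ⟨n1, n2, n3, -⟩ := TT_ne e₁ e₂ e₃ g h12 h13 g1 g2 g3
    exact ⟨TT e₁ e₂ e₃ g, hTk _ he1 _ he2 _ he3, n1, n2, n3, by rw [d1, hDD],
      L.TT_close e₁ e₂ e₃ g h he1 he2 he3 hgk g1 hhg⟩
  · obtain ⟨n1, n2, n3, -⟩ := TT_ne e₂ e₁ e₃ g h12.symm h23 g2 g1 g3
    exact ⟨TT e₂ e₁ e₃ g, hTk _ he2 _ he1 _ he3, n2, n1, n3, by rw [d2, hDD],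
      L.TT_close e₂ e₁ e₃ g h he2 he1 he3 hgk g2 hhg⟩
  · obtain ⟨n1, n2, n3, -⟩ := TT_ne e₃ e₁ e₂ g h13.symm h23.symm g3 g1 g2
    exact ⟨TT e₃ e₁ e₂ g, hTk _ he3 _ he1 _ he2, n2, n3, n1, by rw [d3, hDD],
      L.TT_close e₃ e₁ e₂ g h he3 he1 he2 hgk g3 hhg⟩

theorem Sys.spec (Y : Sys k Ω) (e₁ e₂ e₃ : Ω) (h1 : e₁ ∈ Y.k0) (h2 : e₂ ∈ Y.k0) (h3 : e₃ ∈ Y.k0)
    (h12 : e₁ ≠ e₂) (h13 : e₁ ≠ e₃) (h23 : e₂ ≠ e₃) (X : ℕ → Ω)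
    (hst : ∀ m, HalfStep (Y.S.F Y.k0) (tt k Ω) e₁ e₂ e₃ (X m) (X (m + 1)))
    (k' : IntermediateField k Ω) (hk : Y.k0 ≤ k') (hfin : FiniteDimensional k k') (α : k') (hα : α ≠ 0)
    (c : Ω) (hc : c ∈ k') (hc1 : c ≠ e₁) (hc2 : c ≠ e₂) (hc3 : c ≠ e₃)
    (hxc : (Y.V k' (some α)).valuation (X 0 - c) < 1) :
    ∃ C : ℕ → Ω, C 0 = c ∧ (∀ m, C m ∈ k') ∧ (∀ m, C m ≠ e₁ ∧ C m ≠ e₂ ∧ C m ≠ e₃) ∧
      ∀ m, DD e₁ e₂ e₃ (C (m + 1)) = C m := by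
  have step : ∀ m c, (c ∈ k' ∧ c ≠ e₁ ∧ c ≠ e₂ ∧ c ≠ e₃ ∧ (Y.V k' (some α)).valuation (X m - c) < 1) →
      ∃ c', (c' ∈ k' ∧ c' ≠ e₁ ∧ c' ≠ e₂ ∧ c' ≠ e₃ ∧ (Y.V k' (some α)).valuation (X (m + 1) - c') < 1) ∧
        DD e₁ e₂ e₃ c' = c := by
    rintro m c ⟨hc, hc1, hc2, hc3, hxc⟩
    obtain ⟨c', a1, a2, a3, a4, a5, a6⟩ :=
      Y.spec_step e₁ e₂ e₃ h1 h2 h3 h12 h13 h23 (X m) (X (m + 1)) (hst m) k' hk hfin α hα c hc hc1 hc2 hc3 hxc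
    exact ⟨c', ⟨a1, a2, a3, a4, a6⟩, a5⟩
  choose! f hf using step
  let C : ℕ → Ω := fun m => Nat.rec c (fun m c => f m c) m
  have hC0 : C 0 = c := rfl
  have hCs : ∀ m, C (m + 1) = f m (C m) := fun m => rfl
  have hP : ∀ m, (C m ∈ k' ∧ C m ≠ e₁ ∧ C m ≠ e₂ ∧ C m ≠ e₃ ∧ (Y.V k' (some α)).valuation (X m - C m) < 1) := by
    intro m
    induction m with
    | zero => exact ⟨hc, hc1, hc2, hc3, hxc⟩
    | succ m ih =>
      rw [hCs]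
      exact (hf m (C m) ih).1
  refine ⟨C, hC0, fun m => (hP m).1, fun m => ⟨(hP m).2.1, (hP m).2.2.1, (hP m).2.2.2.1⟩, fun m => ?_⟩
  rw [hCs]
  exact (hf m (C m) (hP m)).2

end

end BSC
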