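import Pool.Agent.Lib_MP_49ddc8.Pl
import Pool.Agent.Lib_MP_49ddc8.Alg

/-!
# [BS-E1] .. [BS-E6]  Constant curves: 2-descent, base place, subtraction of a constant point, halving, specialisation

`|z|_{k',a}` is the valuation of `Y.V k' a`, `F k' = Y.S.F k'`, `x` is the coordinate of a point of a CONSTANT curve
(`∏ (x - e)` is a square).  `a : Option k'` is any place, `none` (infinity) included.  The file `Alg.lean`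
(`half_sub`, `DD_half`, `DD_symm`, `TT_ne`, `DD_TT`) is used with `t = 1`.

[BS-E1] `Sys.even1`: `V = V k' a`.  If `x ∈ V`: at most one `e' ∈ I` has `|x - e'| < 1` (differences of elements of `k'` are units,
`Loc.val_const`), all `|x - e'| ≤ 1`.  If `|x - e| = 1` take `w = 1`.  If `|x - e| < 1` all others are units and
`(x - e) y⁻² = (∏_{e' ≠ e} (x - e'))⁻¹` has value 1: `w = y⁻¹`.  If `x ∉ V`: all `|x - e'| = |x|`, `|x|^n = |y|²`, `n = 2 m + 1`, `w = x^m / y`.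
`Sys.const1`: `Sys.desc` with `A = ∅`, evenness at all levels by `even1` (`x, y ∈ F k' ≤ F k''`, `Sec.F_mono`).
`Sys.pin1`: `x - e_i = ε_i w_i²` (`const1` with `I = {e₁, e₂, e₃}`).  At the place `a` `|x| > 1`, so `(x - e₁)/(x - e_i) ∈ 1 + 𝔪`, so
`ε₁/ε_i` is a square in `k'` (`pin`); `ε₁ε₂ε₃ (w₁w₂w₃)² = y²`, so `ε₁ε₂ε₃` is a square in `k'` (`pin`, value `0`); so `ε₁³` is a square times a square: `ε₁` and all `ε_i` are squares.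

[BS-E2] `Sys.base_place`: `z = x - t`, `z ≠ 0`.  Suppose the claim is false for all levels `k'' ≥ k'` and all places.  At every `(k'', some α)`: `|t - α| < 1`, `|x - α| = 1`
so `|z| = 1`; `Sys.desc` with `A = ∅`: `z = ε w²`, `ε ∈ k'`.  At `(k', none)`: `|t| > 1 ≥ |x|`, so `|z| = |t|`, `|ε| = 1`, so `|t⁻¹ w²| = 1` contradicts `ram`.

[BS-E3] `sub_alg`, `sub_inv`: field identities.  Put `D = x - c = r_i² - ρ_i²`.  `sub_alg`: the difference of both sides times `D²` is `0` modulo the relations: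
`(r₁ρ₂ρ₃ + ρ₁r₂r₃)² - (r₂ρ₁ρ₃ + ρ₂r₁r₃)² = (r₁²ρ₂² - r₂²ρ₁²) ρ₃² + (ρ₁²r₂² - ρ₂²r₁²) r₃² = (r₁²ρ₂² - r₂²ρ₁²)(ρ₃² - r₃²) = - D (r₁²ρ₂² - r₂²ρ₁²)` and
`r₁²ρ₂² - r₂²ρ₁² = D (e₁ - e₂)`.  `sub_inv`: times `D²`; the coefficient of `r₂r₃ρ₂ρ₃` agrees, the rest is
`r₁ρ₁² ((r₂² - ρ₂²)(r₃² - ρ₃²) - D²) = 0`.

[BS-E4] `Sys.shift`: three cases.  (i) `x ∉ V`: `x₀ = x`.  (ii) `|x - e_j| < 1` for one `j` (then `c - e_j ∈ 𝔪 ∩ k'`, `c = e_j`): `x₀ = TT e_j ..`, `x₀ - e_j = (e_j - e_i)(e_j - e_l)/r_j²`,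
`x₀ - e_i = (e_j - e_i) (r_l/r_j)²`, the differences are squares (`hsq`); `x = e_j + (e_j - e_i)(e_j - e_l)/(x₀ - e_j)`.  (iii) `|x - c| < 1`, `c ≠ e_i`: `r_i² = x - e_i ≡ c - e_i ≠ 0`, `pin`: `c - e_i = ρ_i²`, `ρ_i ∈ k0`,
after a change of sign `r_i ≡ ρ_i mod 𝔪` (`(r_i - ρ_i)(r_i + ρ_i) ∈ 𝔪`).  `x ≠ c` (transcendental).  `s_i = (r_i ρ_j ρ_l + ρ_i r_j r_l)/(x - c)`, `x₀ = e₁ + s₁² = e₂ + s₂² = e₃ + s₃²` (`sub_alg`); the numerator of `s₁` is `≡ 2 ρ₁ρ₂ρ₃`, a unit,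
`|x - c| < 1`, so `|s₁| > 1`, `x₀ ∉ V`.  Transcendence: if `x₀` is algebraic, so are the `s_i`, and `x₀ ≠ c` (`x₀ ∉ V`), so by `sub_inv` `r₁` and `x = e₁ + r₁²` are algebraic.

[BS-E5] `Sys.half1`: `h = x + r₁r₂ + r₁r₃ + r₂r₃`, `half_sub` (`t = 1`): `(h-e₁)(h-e₂)(h-e₃) = ((r₁+r₂)(r₁+r₃)(r₂+r₃))² ≠ 0`, `DD h = x` (`DD_half`).  If `h ∉ V` take `x' = h`.  If `h ∈ V`: `(x - e₁) 4 (h-e₁)(h-e₂)(h-e₃) = ((h-e₁)²-(e₁-e₂)(e₁-e₃))²` has value `≤ 1` and `|x - e₁| > 1`,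
so `|h - e_j| < 1` for some `j`; `x' = TT e_j .. h ∉ V`, `∏ (x' - e_i)` is a square `≠ 0` (`TT_ne`).  Then `pin1` for `x'`.  `Sys.chain1`: iterate (dependent choice).

[BS-E6] `Sys.spec_step1`: as `Sys.spec_step` with `t = 1`, at every place.  `r_i² = x - e_i ≡ c - e_i ≠ 0 mod 𝔪`, so `|r_i| = 1` and `(c - e_i) r_i⁻² ∈ 1 + 𝔪`; `pin`: `c - e_i = ρ_i²`, `ρ_i ∈ k'`; after a change of sign `r_i ≡ ρ_i`.
With `g = c + ρ₁ρ₂ + ρ₁ρ₃ + ρ₂ρ₃ ∈ k'`: `h ≡ g`, `g ≠ e_i` and `DD g = c` (`half_sub`, `DD_half` for `c, ρ_i, g`).  If `x' = h` take `c' = g`, if `x' = TT e_j .. h` take `c' = TT e_j .. g` (`DD_TT`, `TT_ne`, `|h - e_j| = |g - e_j| = 1`).  `Sys.spec1`: iterate.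
-/

set_option autoImplicit false

open Polynomial

namespace BSC

/-- the same place at a higher level -/
def lift {k Ω : Type} [Field k] [Field Ω] [Algebra k Ω] {k' k'' : IntermediateField k Ω} (h : k' ≤ k'') (a : Option k') : Option k'' :=
  a.map (IntermediateField.inclusion h)

section algebra

variable {Ω : Type} [Field Ω]

theorem sub_alg (e₁ e₂ e₃ x c r₁ r₂ r₃ ρ₁ ρ₂ ρ₃ : Ω) (hxc : x ≠ c)
    (h1 : x - e₁ = r₁ ^ 2) (h2 : x - e₂ = r₂ ^ 2) (h3 : x - e₃ = r₃ ^ 2)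
    (g1 : c - e₁ = ρ₁ ^ 2) (g2 : c - e₂ = ρ₂ ^ 2) (g3 : c - e₃ = ρ₃ ^ 2) :
    e₁ + ((r₁ * ρ₂ * ρ₃ + ρ₁ * r₂ * r₃) / (x - c)) ^ 2 = e₂ + ((r₂ * ρ₁ * ρ₃ + ρ₂ * r₁ * r₃) / (x - c)) ^ 2 ∧
      e₁ + ((r₁ * ρ₂ * ρ₃ + ρ₁ * r₂ * r₃) / (x - c)) ^ 2 = e₃ + ((r₃ * ρ₁ * ρ₂ + ρ₃ * r₁ * r₂) / (x - c)) ^ 2 := by
  have hD : x - c ≠ 0 := sub_ne_zero.2 hxc
  have hD2 : (x - c) ^ 2 ≠ 0 := pow_ne_zero 2 hD
  constructor
  · have key : (r₁ * ρ₂ * ρ₃ + ρ₁ * r₂ * r₃) ^ 2 - (r₂ * ρ₁ * ρ₃ + ρ₂ * r₁ * r₃) ^ 2 = (e₂ - e₁) * (x - c) ^ 2 := by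
      have e : (r₁ * ρ₂ * ρ₃ + ρ₁ * r₂ * r₃) ^ 2 - (r₂ * ρ₁ * ρ₃ + ρ₂ * r₁ * r₃) ^ 2 =
          (r₁ ^ 2 * ρ₂ ^ 2 - r₂ ^ 2 * ρ₁ ^ 2) * (ρ₃ ^ 2 - r₃ ^ 2) := by ring
      rw [e, ← h1, ← h2, ← h3, ← g1, ← g2, ← g3]
      ring
    rw [div_pow, div_pow, ← sub_eq_zero]
    have e : e₁ + (r₁ * ρ₂ * ρ₃ + ρ₁ * r₂ * r₃) ^ 2 / (x - c) ^ 2 -
        (e₂ + (r₂ * ρ₁ * ρ₃ + ρ₂ * r₁ * r₃) ^ 2 / (x - c) ^ 2) =
        (e₁ - e₂) + ((r₁ * ρ₂ * ρ₃ + ρ₁ * r₂ * r₃) ^ 2 - (r₂ * ρ₁ * ρ₃ + ρ₂ * r₁ * r₃) ^ 2) / (x - c) ^ 2 := by ring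
    rw [e, key, mul_div_assoc, div_self hD2]
    ring
  · have key : (r₁ * ρ₂ * ρ₃ + ρ₁ * r₂ * r₃) ^ 2 - (r₃ * ρ₁ * ρ₂ + ρ₃ * r₁ * r₂) ^ 2 = (e₃ - e₁) * (x - c) ^ 2 := by
      have e : (r₁ * ρ₂ * ρ₃ + ρ₁ * r₂ * r₃) ^ 2 - (r₃ * ρ₁ * ρ₂ + ρ₃ * r₁ * r₂) ^ 2 =
          (r₁ ^ 2 * ρ₃ ^ 2 - r₃ ^ 2 * ρ₁ ^ 2) * (ρ₂ ^ 2 - r₂ ^ 2) := by ring
      rw [e, ← h1, ← h2, ← h3, ← g1, ← g2, ← g3]
      ring
    rw [div_pow, div_pow, ← sub_eq_zero]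
    have e : e₁ + (r₁ * ρ₂ * ρ₃ + ρ₁ * r₂ * r₃) ^ 2 / (x - c) ^ 2 -
        (e₃ + (r₃ * ρ₁ * ρ₂ + ρ₃ * r₁ * r₂) ^ 2 / (x - c) ^ 2) =
        (e₁ - e₃) + ((r₁ * ρ₂ * ρ₃ + ρ₁ * r₂ * r₃) ^ 2 - (r₃ * ρ₁ * ρ₂ + ρ₃ * r₁ * r₂) ^ 2) / (x - c) ^ 2 := by ring
    rw [e, key, mul_div_assoc, div_self hD2]
    ring

theorem sub_inv (e₁ e₂ e₃ x c r₁ r₂ r₃ ρ₁ ρ₂ ρ₃ x₀ s₁ s₂ s₃ : Ω) (hxc : x ≠ c)
    (h1 : x - e₁ = r₁ ^ 2) (h2 : x - e₂ = r₂ ^ 2) (h3 : x - e₃ = r₃ ^ 2)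
    (g1 : c - e₁ = ρ₁ ^ 2) (g2 : c - e₂ = ρ₂ ^ 2) (g3 : c - e₃ = ρ₃ ^ 2)
    (hs1 : s₁ = (r₁ * ρ₂ * ρ₃ + ρ₁ * r₂ * r₃) / (x - c)) (hs2 : s₂ = (r₂ * ρ₁ * ρ₃ + ρ₂ * r₁ * r₃) / (x - c))
    (hs3 : s₃ = (r₃ * ρ₁ * ρ₂ + ρ₃ * r₁ * r₂) / (x - c)) (hx₀ : x₀ = e₁ + s₁ ^ 2) :
    r₁ * (x₀ - c) = s₁ * ρ₂ * ρ₃ + ρ₁ * s₂ * s₃ := by
  have hD : x - c ≠ 0 := sub_ne_zero.2 hxc
  have hD2 : (x - c) ^ 2 ≠ 0 := pow_ne_zero 2 hD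
  have d1 : x - c = r₁ ^ 2 - ρ₁ ^ 2 := by rw [← h1, ← g1]; ring
  have d2 : x - c = r₂ ^ 2 - ρ₂ ^ 2 := by rw [← h2, ← g2]; ring
  have d3 : x - c = r₃ ^ 2 - ρ₃ ^ 2 := by rw [← h3, ← g3]; ring
  have t1 : s₁ * (x - c) = r₁ * ρ₂ * ρ₃ + ρ₁ * r₂ * r₃ := by rw [hs1, div_mul_cancel₀ _ hD]
  have t2 : s₂ * (x - c) = r₂ * ρ₁ * ρ₃ + ρ₂ * r₁ * r₃ := by rw [hs2, div_mul_cancel₀ _ hD]
  have t3 : s₃ * (x - c) = r₃ * ρ₁ * ρ₂ + ρ₃ * r₁ * r₂ := by rw [hs3, div_mul_cancel₀ _ hD]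
  apply mul_right_cancel₀ hD2
  have el : r₁ * (x₀ - c) * (x - c) ^ 2 = r₁ * (-(c - e₁) * (x - c) ^ 2 + (s₁ * (x - c)) ^ 2) := by
    rw [hx₀]
    ring
  have er : (s₁ * ρ₂ * ρ₃ + ρ₁ * s₂ * s₃) * (x - c) ^ 2 =
      (s₁ * (x - c)) * ρ₂ * ρ₃ * (x - c) + ρ₁ * (s₂ * (x - c)) * (s₃ * (x - c)) := by ring
  rw [el, er, t1, t2, t3, g1]
  linear_combination (-(ρ₁ * r₂ * r₃ * ρ₂ * ρ₃ + r₁ * ρ₂ ^ 2 * ρ₃ ^ 2)) * d1 - r₁ * ρ₁ ^ 2 * (r₃ ^ 2 - ρ₃ ^ 2) * d2 -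
    r₁ * ρ₁ ^ 2 * (x - c) * d3

end algebra

section

variable {k Ω : Type} [Field k] [CharZero k] [Field Ω] [IsAlgClosed Ω] [Algebra k Ω] [Algebra (RatFunc k) Ω]
  [IsScalarTower k (RatFunc k) Ω]

private theorem e1_sub_big {V : ValuationSubring Ω} {x e : Ω} (he : e ∈ V) (hx : x ∉ V) :
    V.valuation (x - e) = V.valuation x := by
  have h1 : V.valuation e ≤ 1 := (V.valuation_le_one_iff e).2 he
  have h2 : 1 < V.valuation x := not_le.1 (mt (V.valuation_le_one_iff x).1 hx)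
  rw [sub_eq_add_neg]
  exact V.valuation.map_add_eq_of_lt_left (by rw [Valuation.map_neg]; exact h1.trans_lt h2)

private theorem e1_big_ne {V : ValuationSubring Ω} {x : Ω} (hx : x ∉ V) : V.valuation x ≠ 0 := by
  intro h
  apply hx
  rw [← V.valuation_le_one_iff, h]
  exact zero_le'

private theorem e1_sub_ne (x y : Ω) (I : Finset Ω) (hy0 : y ≠ 0) (hxy : ∏ e ∈ I, (x - e) = y ^ 2) :
    ∀ e ∈ I, x - e ≠ 0 := by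
  intro e he h0
  apply hy0
  have : y ^ 2 = 0 := by
    rw [← hxy, Finset.prod_eq_zero he h0]
  exact (pow_eq_zero_iff two_ne_zero).1 this

theorem Sys.even1 (Y : Sys k Ω) (k' : IntermediateField k Ω) (hk : Y.k0 ≤ k') (hfin : FiniteDimensional k k') (a : Option k')
    (I : Finset Ω) (hI : ∀ e ∈ I, e ∈ k') (hodd : Odd I.card) (x y : Ω) (hx : x ∈ Y.S.F k') (hy : y ∈ Y.S.F k')
    (hy0 : y ≠ 0) (hxy : ∏ e ∈ I, (x - e) = y ^ 2) (e : Ω) (he : e ∈ I) :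
    ∃ w ∈ Y.S.F k', (Y.V k' a).valuation ((x - e) * w ^ 2) = 1 := by
  classical
  have L : Loc Y.S k' a (Y.V k' a) := Y.loc k' hk hfin a
  set V := Y.V k' a with hV
  have hxe0 := e1_sub_ne x y I hy0 hxy
  have hy2 : V.valuation y ^ 2 = ∏ e' ∈ I, V.valuation (x - e') := by
    rw [← map_pow, ← hxy, map_prod]
  by_cases hxV : x ∈ V
  · have hle : V.valuation (x - e) ≤ 1 :=
      (V.valuation_le_one_iff _).2 (sub_mem hxV (L.const e (hI e he)))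
    rcases hle.lt_or_eq with hlt | heq
    · refine ⟨y⁻¹, inv_mem hy, ?_⟩
      have hoth : ∀ e' ∈ I.erase e, V.valuation (x - e') = 1 := by
        intro e' he'
        have hne : e' ≠ e := Finset.ne_of_mem_erase he'
        have h1 : V.valuation (e - e') = 1 := L.val_const _
          (sub_mem (hI e he) (hI e' (Finset.mem_of_mem_erase he'))) (sub_ne_zero.2 hne.symm)
        have e2 : x - e' = (e - e') + (x - e) := by ring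
        rw [e2, V.valuation.map_add_eq_of_lt_left (by rw [h1]; exact hlt), h1]
      have h2 : V.valuation y ^ 2 = V.valuation (x - e) := by
        rw [hy2, ← Finset.mul_prod_erase I _ he, Finset.prod_congr rfl hoth]
        simp
      rw [map_mul, inv_pow, map_inv₀, map_pow, h2,
        mul_inv_cancel₀ (V.valuation.ne_zero_iff.2 (hxe0 e he))]
    · exact ⟨1, one_mem _, by simpa using heq⟩
  · obtain ⟨m, hm⟩ := hodd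
    have hall : ∀ e' ∈ I, V.valuation (x - e') = V.valuation x := fun e' he' =>
      e1_sub_big (L.const e' (hI e' he')) hxV
    have h2 : V.valuation y ^ 2 = V.valuation x ^ (2 * m + 1) := by
      rw [hy2, Finset.prod_congr rfl hall, Finset.prod_const, hm]
    refine ⟨x ^ m / y, div_mem (pow_mem hx m) hy, ?_⟩
    rw [map_mul, hall e he, map_pow, map_div₀, map_pow, div_pow, h2, ← pow_mul, mul_comm m 2, ← mul_div_assoc,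
      ← pow_succ', div_self (pow_ne_zero _ (e1_big_ne hxV))]

theorem Sys.const1 (Y : Sys k Ω) (k' : IntermediateField k Ω) (hk : Y.k0 ≤ k') (hfin : FiniteDimensional k k')
    (I : Finset Ω) (hI : ∀ e ∈ I, e ∈ k') (hodd : Odd I.card) (x y : Ω) (hx : x ∈ Y.S.F k') (hy : y ∈ Y.S.F k')
    (hy0 : y ≠ 0) (hxy : ∏ e ∈ I, (x - e) = y ^ 2) (e : Ω) (he : e ∈ I) :
    ∃ ε ∈ k', ε ≠ 0 ∧ ∃ w ∈ Y.S.F k', w ≠ 0 ∧ x - e = ε * w ^ 2 := by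
  classical
  have hkF : ∀ c ∈ k', c ∈ Y.S.F k' := fun c hc =>
    kt_le_F Y.S k' hfin c (IntermediateField.subset_adjoin _ _ hc)
  obtain ⟨ε, hε, B, hB, w, hw, hw0, hz⟩ := Y.desc k' hk hfin (x - e) (sub_mem hx (hkF _ (hI e he)))
    (e1_sub_ne x y I hy0 hxy e he) ∅ (by
      intro k'' hk'' hfin'' α _
      have hsub : (k' : Set Ω) ⊆ (k'' : Set Ω) := fun z hz => hk'' hz
      exact Y.even1 k'' (hk.trans hk'') hfin'' (some α) I (fun e hel => hk'' (hI e hel)) hodd x y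
        (Y.S.F_mono hsub hx) (Y.S.F_mono hsub hy) hy0 hxy e he)
  rw [Finset.subset_empty.1 hB, Finset.prod_empty, mul_one] at hz
  exact ⟨ε, ε.2, fun h0 => hε (Subtype.ext h0), w, hw, hw0, hz⟩

private theorem Sys.pinI (Y : Sys k Ω) (k' : IntermediateField k Ω) (hk : Y.k0 ≤ k') (hfin : FiniteDimensional k k')
    (a : Option k') (I : Finset Ω) (hI : ∀ e ∈ I, e ∈ k') (hodd : Odd I.card) (x y : Ω) (hx : x ∈ Y.S.F k')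
    (hy : y ∈ Y.S.F k') (hy0 : y ≠ 0) (hxy : ∏ e ∈ I, (x - e) = y ^ 2) (hneg : x ∉ Y.V k' a) (e : Ω) (he : e ∈ I) :
    ∃ r ∈ Y.S.F k', x - e = r ^ 2 := by
  classical
  have L : Loc Y.S k' a (Y.V k' a) := Y.loc k' hk hfin a
  have hxe0 := e1_sub_ne x y I hy0 hxy
  have hkF : ∀ c ∈ k', c ∈ Y.S.F k' := fun c hc =>
    kt_le_F Y.S k' hfin c (IntermediateField.subset_adjoin _ _ hc)
  have hshape := fun e' he' => Y.const1 k' hk hfin I hI hodd x y hx hy hy0 hxy e' he'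
  set V := Y.V k' a with hV
  have hall : ∀ e' ∈ I, V.valuation (x - e') = V.valuation x := fun e' he' =>
    e1_sub_big (L.const e' (hI e' he')) hneg
  have hvx := e1_big_ne hneg
  have hx1 : 1 < V.valuation x := not_le.1 (mt (V.valuation_le_one_iff x).1 hneg)
  obtain ⟨m, hm⟩ := hodd
  obtain ⟨ε, hε, hε0, w, hw, hw0, hz⟩ := hshape e he
  have hsq : ∀ e' ∈ I, ∃ r ∈ Y.S.F k', r ≠ 0 ∧ x - e' = ε * r ^ 2 := by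
    intro e' he'
    obtain ⟨ε', hε', hε0', w', hw', hw0', hz'⟩ := hshape e' he'
    obtain ⟨d, hd, hdd⟩ := L.pin (ε' / ε) (div_mem hε' hε) (w' / w) (div_mem hw' hw) (by
      have e1 : ε' / ε * (w' / w) ^ 2 - 1 = (e - e') / (x - e) := by
        have h3 : ε' / ε * (w' / w) ^ 2 = (x - e') / (x - e) := by
          rw [hz, hz']
          field_simp
        rw [h3]
        have := hxe0 e he
        field_simp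
        ring
      rw [e1, map_div₀, hall e he]
      have h4 : V.valuation (e - e') ≤ 1 :=
        (V.valuation_le_one_iff _).2 (L.const _ (sub_mem (hI e he) (hI e' he')))
      exact (div_lt_one₀ (zero_lt_iff.2 hvx)).2 (h4.trans_lt hx1))
    have hd0 : d ≠ 0 := by
      rintro rfl
      have : ε' / ε ≠ 0 := div_ne_zero hε0' hε0
      apply this
      rw [hdd]
      simp
    refine ⟨d * w', mul_mem (hkF d hd) hw', mul_ne_zero hd0 hw0', ?_⟩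
    have h5 : ε' = ε * d ^ 2 := by
      rw [← hdd]
      field_simp
    rw [hz', h5]
    ring
  choose! r hrF hr0 hr using hsq
  have hprod : y ^ 2 = ε * (ε ^ m * ∏ e' ∈ I, r e') ^ 2 := by
    rw [← hxy, Finset.prod_congr rfl hr, Finset.prod_mul_distrib, Finset.prod_const, hm, Finset.prod_pow]
    ring
  have hPF : ε ^ m * ∏ e' ∈ I, r e' ∈ Y.S.F k' :=
    mul_mem (pow_mem (hkF ε hε) _) (prod_mem fun e' he' => hrF e' he')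
  obtain ⟨δ, hδ, hδε⟩ := L.pin ε hε ((ε ^ m * ∏ e' ∈ I, r e') / y) (div_mem hPF hy) (by
    have e1 : ε * ((ε ^ m * ∏ e' ∈ I, r e') / y) ^ 2 - 1 = 0 := by
      rw [div_pow, ← mul_div_assoc, ← hprod, div_self (pow_ne_zero 2 hy0), sub_self]
    rw [e1, map_zero]
    exact zero_lt_one)
  refine ⟨δ * w, mul_mem (hkF δ hδ) hw, ?_⟩
  rw [hz, hδε]
  ring

theorem Sys.pin1 (Y : Sys k Ω) (k' : IntermediateField k Ω) (hk : Y.k0 ≤ k') (hfin : FiniteDimensional k k') (a : Option k')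
    (e₁ e₂ e₃ : Ω) (h1 : e₁ ∈ k') (h2 : e₂ ∈ k') (h3 : e₃ ∈ k') (h12 : e₁ ≠ e₂) (h13 : e₁ ≠ e₃) (h23 : e₂ ≠ e₃)
    (x y : Ω) (hx : x ∈ Y.S.F k') (hy : y ∈ Y.S.F k') (hy0 : y ≠ 0) (hxy : (x - e₁) * (x - e₂) * (x - e₃) = y ^ 2)
    (hneg : x ∉ Y.V k' a) :
    (∃ r ∈ Y.S.F k', x - e₁ = r ^ 2) ∧ (∃ r ∈ Y.S.F k', x - e₂ = r ^ 2) ∧ ∃ r ∈ Y.S.F k', x - e₃ = r ^ 2 := by
  classical
  have hI : ∀ e ∈ ({e₁, e₂, e₃} : Finset Ω), e ∈ k' := by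
    intro e he
    simp only [Finset.mem_insert, Finset.mem_singleton] at he
    rcases he with rfl | rfl | rfl
    · exact h1
    · exact h2
    · exact h3
  have hcard : ({e₁, e₂, e₃} : Finset Ω).card = 3 := Finset.card_eq_three.2 ⟨e₁, e₂, e₃, h12, h13, h23, rfl⟩
  have hprod : ∏ e ∈ ({e₁, e₂, e₃} : Finset Ω), (x - e) = y ^ 2 := by
    rw [Finset.prod_insert (by simp [h12, h13]), Finset.prod_insert (by simp [h23]), Finset.prod_singleton, ← hxy]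
    ring
  have h := fun e he => Y.pinI k' hk hfin a {e₁, e₂, e₃} hI (by rw [hcard]; decide) x y hx hy hy0 hprod hneg e he
  exact ⟨h e₁ (by simp), h e₂ (by simp), h e₃ (by simp)⟩

/-- the base place -/
theorem Sys.base_place (Y : Sys k Ω) (k' : IntermediateField k Ω) (hk : Y.k0 ≤ k') (hfin : FiniteDimensional k k') (x : Ω)
    (hx : x ∈ Y.S.F k') (hxt : x ≠ tt k Ω) :
    ∃ k'' : IntermediateField k Ω, k' ≤ k'' ∧ FiniteDimensional k k'' ∧ ∃ a : Option k'',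
      x ∉ Y.V k'' a ∨ ∃ c ∈ k'', (Y.V k'' a).valuation (x - c) < 1 := by
  by_contra hcon
  push Not at hcon
  have htF : tt k Ω ∈ Y.S.F k' :=
    kt_le_F Y.S k' hfin _ ((kt k').algebraMap_mem (RatFunc.X : RatFunc k))
  have hz0 : x - tt k Ω ≠ 0 := sub_ne_zero.2 hxt
  obtain ⟨ε, hε0, B, hB, w, hw, hw0, hzw⟩ := Y.desc k' hk hfin (x - tt k Ω) (sub_mem hx htF) hz0 ∅ (by
    intro k'' hk' hfin' α _
    have L : Loc Y.S k'' (some α) (Y.V k'' (some α)) := Y.loc k'' (hk.trans hk') hfin' (some α)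
    obtain ⟨hxV, hxc⟩ := hcon k'' hk' hfin' (some α)
    refine ⟨1, one_mem _, ?_⟩
    have h1 : (Y.V k'' (some α)).valuation (x - (α : Ω)) = 1 :=
      le_antisymm ((ValuationSubring.valuation_le_one_iff _ _).2 (sub_mem hxV (L.const _ α.2))) (hxc _ α.2)
    have h2 : (Y.V k'' (some α)).valuation (tt k Ω - (α : Ω)) < 1 := L.unif
    have e : (x - tt k Ω) * 1 ^ 2 = (x - (α : Ω)) - (tt k Ω - (α : Ω)) := by ring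
    rw [e, Valuation.map_sub_eq_of_lt_left _ (by rw [h1]; exact h2), h1])
  have hB0 : B = ∅ := Finset.subset_empty.1 hB
  rw [hB0, Finset.prod_empty, mul_one] at hzw
  have L : Loc Y.S k' none (Y.V k' none) := Y.loc k' hk hfin none
  obtain ⟨hxV, -⟩ := hcon k' le_rfl hfin none
  have ht0 : tt k Ω ≠ 0 := by
    intro h0
    have := unif_ne_zero k' hfin none
    exact this (by show (tt k Ω)⁻¹ = 0; rw [h0, inv_zero])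
  have h1 : (Y.V k' none).valuation (tt k Ω)⁻¹ < 1 := L.unif
  have h2 : 1 < (Y.V k' none).valuation (tt k Ω) := by
    rw [map_inv₀] at h1
    exact (inv_lt_one₀ (zero_lt_iff.2 ((Valuation.ne_zero_iff _).2 ht0))).1 h1
  have h3 : (Y.V k' none).valuation x < (Y.V k' none).valuation (tt k Ω) :=
    lt_of_le_of_lt ((ValuationSubring.valuation_le_one_iff _ _).2 hxV) h2
  have h4 : (Y.V k' none).valuation (x - tt k Ω) = (Y.V k' none).valuation (tt k Ω) :=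
    Valuation.map_sub_eq_of_lt_right _ h3
  have h5 : (Y.V k' none).valuation ((ε : Ω)) = 1 :=
    L.val_const _ ε.2 (fun h => hε0 (Subtype.ext h))
  apply L.ram w hw
  show (Y.V k' none).valuation ((tt k Ω)⁻¹ * w ^ 2) = 1
  rw [hzw, map_mul, h5, one_mul] at h4
  rw [map_mul, h4, map_inv₀]
  exact inv_mul_cancel₀ ((Valuation.ne_zero_iff _).2 ht0)

private theorem Loc.sqrt_lift_sh {S : Sec (RatFunc k) Ω} {k' : IntermediateField k Ω} {a : Option k'} {V : ValuationSubring Ω}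
    (L : Loc S k' a V) (r u : Ω) (hr : r ∈ S.F k') (hu : u ∈ k') (hu0 : u ≠ 0)
    (h : V.valuation (r ^ 2 - u) < 1) : ∃ ρ ∈ k', u = ρ ^ 2 ∧ V.valuation (r - ρ) < 1 := by
  have hu1 : V.valuation u = 1 := L.val_const u hu hu0
  have hr2 : V.valuation (r ^ 2) = 1 := by
    have e : r ^ 2 = u + (r ^ 2 - u) := by ring
    rw [e, V.valuation.map_add_eq_of_lt_left (by rw [hu1]; exact h), hu1]
  have hr1 : V.valuation r = 1 := by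
    rw [map_pow] at hr2
    exact (pow_eq_one_iff_of_nonneg zero_le two_ne_zero).1 hr2
  have hr0 : r ≠ 0 := by
    rintro rfl
    rw [map_zero] at hr1
    exact zero_ne_one hr1
  have hp : V.valuation (u * r⁻¹ ^ 2 - 1) < 1 := by
    have e : u * r⁻¹ ^ 2 - 1 = (u - r ^ 2) * r⁻¹ ^ 2 := by
      field_simp
    rw [e, map_mul, map_pow, map_inv₀, hr1, inv_one, one_pow, mul_one, V.valuation.map_sub_swap]
    exact h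
  obtain ⟨d, hd, hud⟩ := L.pin u hu r⁻¹ (inv_mem hr) hp
  have e : r ^ 2 - u = (r - d) * (r + d) := by
    rw [hud]
    ring
  rw [e, map_mul] at h
  by_cases h1 : V.valuation (r - d) < 1
  · exact ⟨d, hd, hud, h1⟩
  · refine ⟨-d, neg_mem hd, by rw [hud]; ring, ?_⟩
    rw [sub_neg_eq_add]
    by_contra h2
    push Not at h1 h2
    exact absurd h (not_lt.2 (one_le_mul h1 h2))

/-- case (ii) of `Sys.shift`: translation by the point `(e₁, 0)` -/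
private theorem shift_two {S : Sec (RatFunc k) Ω} {k' : IntermediateField k Ω} (hfin : FiniteDimensional k k')
    {a : Option k'} {V : ValuationSubring Ω} (L : Loc S k' a V) (e₁ e₂ e₃ : Ω) (h1 : e₁ ∈ k') (h2 : e₂ ∈ k')
    (h3 : e₃ ∈ k') (h12 : e₁ ≠ e₂) (h13 : e₁ ≠ e₃)
    (q2 : ∃ d ∈ k', e₁ - e₂ = d ^ 2) (q3 : ∃ d ∈ k', e₁ - e₃ = d ^ 2) (x : Ω) (hx : x ∈ S.F k')
    (htr : Transcendental (RatFunc k) x) (r₁ r₂ r₃ : Ω) (hr₁ : r₁ ∈ S.F k') (hr₂ : r₂ ∈ S.F k') (hr₃ : r₃ ∈ S.F k')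
    (s1 : x - e₁ = r₁ ^ 2) (s2 : x - e₂ = r₂ ^ 2) (s3 : x - e₃ = r₃ ^ 2) (hv : V.valuation (x - e₁) < 1) :
    ∃ x₀ ∈ S.F k', Transcendental (RatFunc k) x₀ ∧ x₀ ∉ V ∧ (∃ r ∈ S.F k', x₀ - e₁ = r ^ 2) ∧
      (∃ r ∈ S.F k', x₀ - e₂ = r ^ 2) ∧ ∃ r ∈ S.F k', x₀ - e₃ = r ^ 2 := by
  obtain ⟨d, hd, q2⟩ := q2
  obtain ⟨d', hd', q3⟩ := q3
  have hF : ∀ z ∈ k', z ∈ S.F k' := fun z hz =>
    kt_le_F S k' hfin z (IntermediateField.subset_adjoin _ _ hz)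
  have halg : ∀ z ∈ k', IsAlgebraic (RatFunc k) z := fun z hz => (level_alg k' hfin z hz).2
  have hxe : x - e₁ ≠ 0 := by
    intro h0
    exact htr (by rw [sub_eq_zero.1 h0]; exact halg _ h1)
  have hr0 : r₁ ≠ 0 := by
    rintro rfl
    exact hxe (by rw [s1]; ring)
  have l12 : e₁ - e₂ ≠ 0 := sub_ne_zero.2 h12
  have l13 : e₁ - e₃ ≠ 0 := sub_ne_zero.2 h13
  have hx0 : TT e₁ e₂ e₃ x - e₁ = (e₁ - e₂) * (e₁ - e₃) / (x - e₁) := by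
    unfold TT
    ring
  have hx0' : TT e₁ e₂ e₃ x - e₁ ≠ 0 := by
    rw [hx0]
    exact div_ne_zero (mul_ne_zero l12 l13) hxe
  refine ⟨TT e₁ e₂ e₃ x, ?_, ?_, ?_, ?_, ?_, ?_⟩
  · unfold TT
    exact add_mem (hF _ h1) (div_mem (mul_mem (sub_mem (hF _ h1) (hF _ h2)) (sub_mem (hF _ h1) (hF _ h3)))
      (sub_mem hx (hF _ h1)))
  · intro hal
    apply htr
    have e : x = e₁ + (e₁ - e₂) * (e₁ - e₃) * (TT e₁ e₂ e₃ x - e₁)⁻¹ := by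
      rw [hx0, inv_div]
      field_simp
      ring
    rw [e]
    exact (halg _ h1).add ((halg _ (mul_mem (sub_mem h1 h2) (sub_mem h1 h3))).mul (hal.sub (halg _ h1)).inv)
  · intro hmem
    have h4 : V.valuation (TT e₁ e₂ e₃ x - e₁) ≤ 1 :=
      (V.valuation_le_one_iff _).2 (sub_mem hmem (L.const _ h1))
    have h5 : V.valuation ((TT e₁ e₂ e₃ x - e₁) * (x - e₁)) = 1 := by
      rw [hx0, div_mul_cancel₀ _ hxe]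
      exact L.val_const _ (mul_mem (sub_mem h1 h2) (sub_mem h1 h3)) (mul_ne_zero l12 l13)
    rw [map_mul] at h5
    exact absurd h5 (ne_of_lt (mul_lt_one_of_nonneg_of_lt_one_right h4 zero_le hv))
  · refine ⟨d * d' / r₁, div_mem (mul_mem (hF _ hd) (hF _ hd')) hr₁, ?_⟩
    rw [hx0, q2, q3, s1]
    ring
  · refine ⟨d * r₃ / r₁, div_mem (mul_mem (hF _ hd) hr₃) hr₁, ?_⟩
    have e : TT e₁ e₂ e₃ x - e₂ = (e₁ - e₂) * (x - e₃) / (x - e₁) := by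
      unfold TT
      field_simp
      ring
    rw [e, q2, s3, s1]
    ring
  · refine ⟨d' * r₂ / r₁, div_mem (mul_mem (hF _ hd') hr₂) hr₁, ?_⟩
    have e : TT e₁ e₂ e₃ x - e₃ = (e₁ - e₃) * (x - e₂) / (x - e₁) := by
      unfold TT
      field_simp
      ring
    rw [e, q3, s2, s1]
    ring

/-- case (iii) of `Sys.shift`: subtraction of a point with coordinate `c` which is not of order two -/
private theorem shift_three {S : Sec (RatFunc k) Ω} {k' : IntermediateField k Ω} (hfin : FiniteDimensional k k')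
    {a : Option k'} {V : ValuationSubring Ω} (L : Loc S k' a V) (e₁ e₂ e₃ : Ω) (h1 : e₁ ∈ k') (h2 : e₂ ∈ k')
    (h3 : e₃ ∈ k') (x : Ω) (hx : x ∈ S.F k')
    (htr : Transcendental (RatFunc k) x) (r₁ r₂ r₃ : Ω) (hr₁ : r₁ ∈ S.F k') (hr₂ : r₂ ∈ S.F k') (hr₃ : r₃ ∈ S.F k')
    (s1 : x - e₁ = r₁ ^ 2) (s2 : x - e₂ = r₂ ^ 2) (s3 : x - e₃ = r₃ ^ 2) (c : Ω) (hc : c ∈ k')
    (hc1 : c ≠ e₁) (hc2 : c ≠ e₂) (hc3 : c ≠ e₃) (hv : V.valuation (x - c) < 1) :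
    ∃ x₀ ∈ S.F k', Transcendental (RatFunc k) x₀ ∧ x₀ ∉ V ∧ (∃ r ∈ S.F k', x₀ - e₁ = r ^ 2) ∧
      (∃ r ∈ S.F k', x₀ - e₂ = r ^ 2) ∧ ∃ r ∈ S.F k', x₀ - e₃ = r ^ 2 := by
  have hchar : CharZero Ω := charZero_of_injective_algebraMap (algebraMap k Ω).injective
  have hF : ∀ z ∈ k', z ∈ S.F k' := fun z hz =>
    kt_le_F S k' hfin z (IntermediateField.subset_adjoin _ _ hz)
  have halg : ∀ z ∈ k', IsAlgebraic (RatFunc k) z := fun z hz => (level_alg k' hfin z hz).2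
  have hle : ∀ z ∈ k', V.valuation z ≤ 1 := fun z hz => (V.valuation_le_one_iff _).2 (L.const z hz)
  have hxc : x ≠ c := by
    rintro rfl
    exact htr (halg _ hc)
  have hroot : ∀ e ∈ k', c ≠ e → ∀ r ∈ S.F k', x - e = r ^ 2 →
      ∃ ρ ∈ k', c - e = ρ ^ 2 ∧ V.valuation (r - ρ) < 1 := by
    intro e he hce r hr hre
    refine L.sqrt_lift_sh r (c - e) hr (sub_mem hc he) (sub_ne_zero.2 hce) ?_
    rw [← hre, show x - e - (c - e) = x - c by ring]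
    exact hv
  obtain ⟨ρ₁, m1, g1, v1⟩ := hroot e₁ h1 hc1 r₁ hr₁ s1
  obtain ⟨ρ₂, m2, g2, v2⟩ := hroot e₂ h2 hc2 r₂ hr₂ s2
  obtain ⟨ρ₃, m3, g3, v3⟩ := hroot e₃ h3 hc3 r₃ hr₃ s3
  have hρne : ∀ e ρ : Ω, c ≠ e → c - e = ρ ^ 2 → ρ ≠ 0 := by
    rintro e ρ hce hρ rfl
    exact hce (sub_eq_zero.1 (by rw [hρ]; ring))
  have n1 := hρne e₁ ρ₁ hc1 g1
  have n2 := hρne e₂ ρ₂ hc2 g2
  have n3 := hρne e₃ ρ₃ hc3 g3
  obtain ⟨t2, t3⟩ := sub_alg e₁ e₂ e₃ x c r₁ r₂ r₃ ρ₁ ρ₂ ρ₃ hxc s1 s2 s3 g1 g2 g3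
  set σ₁ := (r₁ * ρ₂ * ρ₃ + ρ₁ * r₂ * r₃) / (x - c) with hσ1
  set σ₂ := (r₂ * ρ₁ * ρ₃ + ρ₂ * r₁ * r₃) / (x - c) with hσ2
  set σ₃ := (r₃ * ρ₁ * ρ₂ + ρ₃ * r₁ * r₂) / (x - c) with hσ3
  have fσ : ∀ p q s t u v : Ω, p ∈ S.F k' → q ∈ S.F k' → s ∈ S.F k' → t ∈ S.F k' → u ∈ S.F k' → v ∈ S.F k' →
      (p * q * s + t * u * v) / (x - c) ∈ S.F k' := fun p q s t u v hp hq hs ht hu hv =>
    div_mem (add_mem (mul_mem (mul_mem hp hq) hs) (mul_mem (mul_mem ht hu) hv)) (sub_mem hx (hF _ hc))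
  have f1 : σ₁ ∈ S.F k' := fσ _ _ _ _ _ _ hr₁ (hF _ m2) (hF _ m3) (hF _ m1) hr₂ hr₃
  have f2 : σ₂ ∈ S.F k' := fσ _ _ _ _ _ _ hr₂ (hF _ m1) (hF _ m3) (hF _ m2) hr₁ hr₃
  have f3 : σ₃ ∈ S.F k' := fσ _ _ _ _ _ _ hr₃ (hF _ m1) (hF _ m2) (hF _ m3) hr₁ hr₂
  -- the new point has a pole
  have hrle : ∀ r ρ : Ω, ρ ∈ k' → V.valuation (r - ρ) < 1 → V.valuation r ≤ 1 := by
    intro r ρ hρ hv
    have e : r = (r - ρ) + ρ := by ring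
    rw [e]
    exact V.valuation.map_add_le hv.le (hle ρ hρ)
  have hnum : V.valuation (r₁ * ρ₂ * ρ₃ + ρ₁ * r₂ * r₃) = 1 := by
    have e : r₁ * ρ₂ * ρ₃ + ρ₁ * r₂ * r₃ = 2 * (ρ₁ * ρ₂ * ρ₃) +
        ((r₁ - ρ₁) * (ρ₂ * ρ₃) + ((r₂ - ρ₂) * (ρ₁ * r₃) + (r₃ - ρ₃) * (ρ₁ * ρ₂))) := by ring
    have hc0 : V.valuation (2 * (ρ₁ * ρ₂ * ρ₃)) = 1 := by
      refine L.val_const _ ?_ (mul_ne_zero two_ne_zero (mul_ne_zero (mul_ne_zero n1 n2) n3))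
      exact mul_mem (ofNat_mem k' 2) (mul_mem (mul_mem m1 m2) m3)
    have hsm : ∀ p q : Ω, V.valuation p < 1 → V.valuation q ≤ 1 → V.valuation (p * q) < 1 := by
      intro p q hp hq
      rw [map_mul]
      exact mul_lt_one_of_nonneg_of_lt_one_left zero_le hp hq
    have hr3le : V.valuation (ρ₁ * r₃) ≤ 1 := by
      rw [map_mul]
      exact mul_le_one' (hle _ m1) (hrle _ _ m3 v3)
    have hrest : V.valuation ((r₁ - ρ₁) * (ρ₂ * ρ₃) + ((r₂ - ρ₂) * (ρ₁ * r₃) + (r₃ - ρ₃) * (ρ₁ * ρ₂))) < 1 :=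
      V.valuation.map_add_lt (hsm _ _ v1 (hle _ (mul_mem m2 m3)))
        (V.valuation.map_add_lt (hsm _ _ v2 hr3le) (hsm _ _ v3 (hle _ (mul_mem m1 m2))))
    rw [e, V.valuation.map_add_eq_of_lt_left (by rw [hc0]; exact hrest), hc0]
  have hout : e₁ + σ₁ ^ 2 ∉ V := by
    intro hmem
    have h4 : σ₁ ^ 2 ∈ V := by
      have e : σ₁ ^ 2 = (e₁ + σ₁ ^ 2) - e₁ := by ring
      rw [e]
      exact sub_mem hmem (L.const _ h1)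
    have h5 : V.valuation σ₁ ≤ 1 := by
      have h6 := (V.valuation_le_one_iff _).2 h4
      rw [map_pow] at h6
      exact (pow_le_one_iff_of_nonneg zero_le two_ne_zero).1 h6
    have h7 : V.valuation (σ₁ * (x - c)) = 1 := by
      rw [hσ1, div_mul_cancel₀ _ (sub_ne_zero.2 hxc)]
      exact hnum
    rw [map_mul] at h7
    exact absurd h7 (ne_of_lt (mul_lt_one_of_nonneg_of_lt_one_right h5 zero_le hv))
  refine ⟨e₁ + σ₁ ^ 2, add_mem (hF _ h1) (pow_mem f1 2), ?_, hout, ⟨σ₁, f1, by ring⟩,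
    ⟨σ₂, f2, by rw [t2]; ring⟩, ⟨σ₃, f3, by rw [t3]; ring⟩⟩
  intro hal
  have halσ : ∀ e σ : Ω, e ∈ k' → e₁ + σ₁ ^ 2 = e + σ ^ 2 → IsAlgebraic (RatFunc k) σ := by
    intro e σ he heq
    refine IsAlgebraic.of_pow two_pos ?_
    have e' : σ ^ 2 = (e₁ + σ₁ ^ 2) - e := by
      rw [heq]
      ring
    rw [e']
    exact hal.sub (halg _ he)
  have a1 := halσ e₁ σ₁ h1 rfl
  have a2 := halσ e₂ σ₂ h2 t2
  have a3 := halσ e₃ σ₃ h3 t3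
  have hne : e₁ + σ₁ ^ 2 - c ≠ 0 := by
    intro h0
    rw [sub_eq_zero.1 h0] at hout
    exact hout (L.const _ hc)
  have hinv := sub_inv e₁ e₂ e₃ x c r₁ r₂ r₃ ρ₁ ρ₂ ρ₃ (e₁ + σ₁ ^ 2) σ₁ σ₂ σ₃ hxc s1 s2 s3 g1 g2 g3 hσ1 hσ2 hσ3 rfl
  have hr : IsAlgebraic (RatFunc k) r₁ := by
    have e : r₁ = (σ₁ * ρ₂ * ρ₃ + ρ₁ * σ₂ * σ₃) * (e₁ + σ₁ ^ 2 - c)⁻¹ := by
      rw [← hinv, mul_assoc, mul_inv_cancel₀ hne, mul_one]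
    rw [e]
    exact (((a1.mul (halg _ m2)).mul (halg _ m3)).add (((halg _ m1).mul a2).mul a3)).mul
      (hal.sub (halg _ hc)).inv
  apply htr
  have e : x = e₁ + r₁ ^ 2 := by
    rw [← s1]
    ring
  rw [e]
  exact (halg _ h1).add (hr.pow 2)

/-- subtraction of the constant point with the coordinate `c` -/
theorem Sys.shift (Y : Sys k Ω) (a : Option Y.k0) (e₁ e₂ e₃ : Ω) (h1 : e₁ ∈ Y.k0) (h2 : e₂ ∈ Y.k0) (h3 : e₃ ∈ Y.k0)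
    (h12 : e₁ ≠ e₂) (h13 : e₁ ≠ e₃) (h23 : e₂ ≠ e₃)
    (hsq : ∀ e ∈ ({e₁, e₂, e₃} : Set Ω), ∀ e' ∈ ({e₁, e₂, e₃} : Set Ω), ∃ d ∈ Y.k0, e - e' = d ^ 2)
    (x : Ω) (hx : x ∈ Y.S.F Y.k0) (htr : Transcendental (RatFunc k) x)
    (hr1 : ∃ r ∈ Y.S.F Y.k0, x - e₁ = r ^ 2) (hr2 : ∃ r ∈ Y.S.F Y.k0, x - e₂ = r ^ 2)
    (hr3 : ∃ r ∈ Y.S.F Y.k0, x - e₃ = r ^ 2)
    (ha : x ∉ Y.V Y.k0 a ∨ ∃ c ∈ Y.k0, (Y.V Y.k0 a).valuation (x - c) < 1) :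
    ∃ x₀ ∈ Y.S.F Y.k0, Transcendental (RatFunc k) x₀ ∧ x₀ ∉ Y.V Y.k0 a ∧ (∃ r ∈ Y.S.F Y.k0, x₀ - e₁ = r ^ 2) ∧
      (∃ r ∈ Y.S.F Y.k0, x₀ - e₂ = r ^ 2) ∧ ∃ r ∈ Y.S.F Y.k0, x₀ - e₃ = r ^ 2 := by
  have L : Loc Y.S Y.k0 a (Y.V Y.k0 a) := Y.loc Y.k0 le_rfl Y.fin0 a
  have hfin := Y.fin0
  rcases ha with ha | ⟨c, hc, hv⟩
  · exact ⟨x, hx, htr, ha, hr1, hr2, hr3⟩
  obtain ⟨r₁, hr₁, s1⟩ := hr1
  obtain ⟨r₂, hr₂, s2⟩ := hr2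
  obtain ⟨r₃, hr₃, s3⟩ := hr3
  by_cases c1 : c = e₁
  · rw [c1] at hv
    exact shift_two hfin L e₁ e₂ e₃ h1 h2 h3 h12 h13 (hsq e₁ (by simp) e₂ (by simp)) (hsq e₁ (by simp) e₃ (by simp))
      x hx htr r₁ r₂ r₃ hr₁ hr₂ hr₃ s1 s2 s3 hv
  by_cases c2 : c = e₂
  · rw [c2] at hv
    obtain ⟨x₀, y1, y2, y3, y4, y5, y6⟩ := shift_two hfin L e₂ e₁ e₃ h2 h1 h3 h12.symm h23
      (hsq e₂ (by simp) e₁ (by simp)) (hsq e₂ (by simp) e₃ (by simp)) x hx htr r₂ r₁ r₃ hr₂ hr₁ hr₃ s2 s1 s3 hv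
    exact ⟨x₀, y1, y2, y3, y5, y4, y6⟩
  by_cases c3 : c = e₃
  · rw [c3] at hv
    obtain ⟨x₀, y1, y2, y3, y4, y5, y6⟩ := shift_two hfin L e₃ e₁ e₂ h3 h1 h2 h13.symm h23.symm
      (hsq e₃ (by simp) e₁ (by simp)) (hsq e₃ (by simp) e₂ (by simp)) x hx htr r₃ r₁ r₂ hr₃ hr₁ hr₂ s3 s1 s2 hv
    exact ⟨x₀, y1, y2, y3, y5, y6, y4⟩
  exact shift_three hfin L e₁ e₂ e₃ h1 h2 h3 x hx htr r₁ r₂ r₃ hr₁ hr₂ hr₃ s1 s2 s3 c hc c1 c2 c3 hv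

private theorem half1_pole (Y : Sys k Ω) (a : Option Y.k0) (e₁ e₂ e₃ : Ω) (h1 : e₁ ∈ Y.k0) (h2 : e₂ ∈ Y.k0) (h3 : e₃ ∈ Y.k0)
    (h12 : e₁ ≠ e₂) (h13 : e₁ ≠ e₃) (h23 : e₂ ≠ e₃) (h y : Ω) (hh : h ∈ Y.S.F Y.k0) (hy : y ∈ Y.S.F Y.k0) (hy0 : y ≠ 0)
    (hxy : (h - e₁) * (h - e₂) * (h - e₃) = y ^ 2) (g1 : h ≠ e₁) (g2 : h ≠ e₂) (g3 : h ≠ e₃)
    (hv : (Y.V Y.k0 a).valuation (h - e₁) < 1) :
    TT e₁ e₂ e₃ h ∈ Y.S.F Y.k0 ∧ TT e₁ e₂ e₃ h ∉ Y.V Y.k0 a ∧ (∃ r ∈ Y.S.F Y.k0, TT e₁ e₂ e₃ h - e₁ = r ^ 2) ∧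
      (∃ r ∈ Y.S.F Y.k0, TT e₁ e₂ e₃ h - e₂ = r ^ 2) ∧ ∃ r ∈ Y.S.F Y.k0, TT e₁ e₂ e₃ h - e₃ = r ^ 2 := by
  have : CharZero Ω := charZero_of_injective_algebraMap (algebraMap k Ω).injective
  have hkF : ∀ c ∈ Y.k0, c ∈ Y.S.F Y.k0 := fun c hc =>
    kt_le_F Y.S Y.k0 Y.fin0 c (IntermediateField.subset_adjoin _ _ hc)
  have L := Y.loc Y.k0 le_rfl Y.fin0 a
  have he1 := hkF e₁ h1
  have he2 := hkF e₂ h2
  have he3 := hkF e₃ h3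
  obtain ⟨-, -, -, hprod⟩ := TT_ne e₁ e₂ e₃ h h12 h13 g1 g2 g3
  have hTF : TT e₁ e₂ e₃ h ∈ Y.S.F Y.k0 := by
    unfold TT
    exact add_mem he1 (div_mem (mul_mem (sub_mem he1 he2) (sub_mem he1 he3)) (sub_mem hh he1))
  have hw : (e₁ - e₂) * (e₁ - e₃) / (h - e₁) ^ 2 ∈ Y.S.F Y.k0 :=
    div_mem (mul_mem (sub_mem he1 he2) (sub_mem he1 he3)) (pow_mem (sub_mem hh he1) 2)
  have hw0 : (e₁ - e₂) * (e₁ - e₃) / (h - e₁) ^ 2 ≠ 0 :=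
    div_ne_zero (mul_ne_zero (sub_ne_zero.2 h12) (sub_ne_zero.2 h13)) (pow_ne_zero 2 (sub_ne_zero.2 g1))
  have hneg : TT e₁ e₂ e₃ h ∉ Y.V Y.k0 a := by
    intro hmem
    have h4 : TT e₁ e₂ e₃ h - e₁ ∈ Y.V Y.k0 a := sub_mem hmem (L.const e₁ h1)
    have h5 : (TT e₁ e₂ e₃ h - e₁) * (h - e₁) = (e₁ - e₂) * (e₁ - e₃) := by
      unfold TT
      rw [add_sub_cancel_left, div_mul_cancel₀ _ (sub_ne_zero.2 g1)]
    have h6 : (Y.V Y.k0 a).valuation ((e₁ - e₂) * (e₁ - e₃)) = 1 :=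
      L.val_const _ (mul_mem (sub_mem h1 h2) (sub_mem h1 h3))
        (mul_ne_zero (sub_ne_zero.2 h12) (sub_ne_zero.2 h13))
    rw [← h5, map_mul] at h6
    have h7 : (Y.V Y.k0 a).valuation (TT e₁ e₂ e₃ h - e₁) ≤ 1 :=
      (ValuationSubring.valuation_le_one_iff _ _).2 h4
    have h8 := mul_lt_one_of_nonneg_of_lt_one_right h7 zero_le hv
    rw [h6] at h8
    exact lt_irrefl _ h8
  have hxy' : (TT e₁ e₂ e₃ h - e₁) * (TT e₁ e₂ e₃ h - e₂) * (TT e₁ e₂ e₃ h - e₃) =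
      (y * ((e₁ - e₂) * (e₁ - e₃) / (h - e₁) ^ 2)) ^ 2 := by
    rw [hprod, mul_pow, ← hxy]
  exact ⟨hTF, hneg, Y.pin1 Y.k0 le_rfl Y.fin0 a e₁ e₂ e₃ h1 h2 h3 h12 h13 h23 _ _ hTF (mul_mem hy hw)
    (mul_ne_zero hy0 hw0) hxy' hneg⟩

/-- if `h` and all `h - e_i` are units or integral, the double of `h` is integral -/
private theorem half1_small (Y : Sys k Ω) (a : Option Y.k0) (e₁ e₂ e₃ : Ω) (h1 : e₁ ∈ Y.k0) (h2 : e₂ ∈ Y.k0)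
    (h3 : e₃ ∈ Y.k0) (h x : Ω) (hneg : x ∉ Y.V Y.k0 a) (hDD : DD e₁ e₂ e₃ h = x) (hV : h ∈ Y.V Y.k0 a) :
    (Y.V Y.k0 a).valuation (h - e₁) < 1 ∨ (Y.V Y.k0 a).valuation (h - e₂) < 1 ∨
      (Y.V Y.k0 a).valuation (h - e₃) < 1 := by
  have : CharZero Ω := charZero_of_injective_algebraMap (algebraMap k Ω).injective
  have L := Y.loc Y.k0 le_rfl Y.fin0 a
  by_contra hcon
  push Not at hcon
  obtain ⟨c1, c2, c3⟩ := hcon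
  have hle : ∀ e ∈ Y.k0, (Y.V Y.k0 a).valuation (h - e) ≤ 1 := fun e he =>
    (ValuationSubring.valuation_le_one_iff _ _).2 (sub_mem hV (L.const e he))
  have v1 := le_antisymm (hle _ h1) c1
  have v2 := le_antisymm (hle _ h2) c2
  have v3 := le_antisymm (hle _ h3) c3
  have v4 : (Y.V Y.k0 a).valuation (4 : Ω) = 1 := L.val_const 4 (by
    have : ((4 : ℕ) : Ω) ∈ Y.k0 := natCast_mem Y.k0 4
    exact_mod_cast this) (by norm_num)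
  apply hneg
  have hx : x = e₁ + ((h - e₁) ^ 2 - (e₁ - e₂) * (e₁ - e₃)) ^ 2 / (4 * ((h - e₁) * (h - e₂) * (h - e₃))) := by
    rw [← hDD]
    rfl
  rw [hx]
  refine add_mem (L.const e₁ h1) ?_
  rw [← ValuationSubring.valuation_le_one_iff, map_div₀, map_mul, map_mul, map_mul, v1, v2, v3, v4, mul_one,
    mul_one, mul_one, div_one, ValuationSubring.valuation_le_one_iff]
  exact pow_mem (sub_mem (pow_mem (sub_mem hV (L.const e₁ h1)) 2)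
    (mul_mem (sub_mem (L.const e₁ h1) (L.const e₂ h2)) (sub_mem (L.const e₁ h1) (L.const e₃ h3)))) 2

theorem Sys.half1 (Y : Sys k Ω) (a : Option Y.k0) (e₁ e₂ e₃ : Ω) (h1 : e₁ ∈ Y.k0) (h2 : e₂ ∈ Y.k0) (h3 : e₃ ∈ Y.k0)
    (h12 : e₁ ≠ e₂) (h13 : e₁ ≠ e₃) (h23 : e₂ ≠ e₃) (x : Ω) (hx : x ∈ Y.S.F Y.k0) (hneg : x ∉ Y.V Y.k0 a)
    (hr1 : ∃ r ∈ Y.S.F Y.k0, x - e₁ = r ^ 2) (hr2 : ∃ r ∈ Y.S.F Y.k0, x - e₂ = r ^ 2)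
    (hr3 : ∃ r ∈ Y.S.F Y.k0, x - e₃ = r ^ 2) :
    ∃ x' ∈ Y.S.F Y.k0, x' ∉ Y.V Y.k0 a ∧ HalfStep (Y.S.F Y.k0) 1 e₁ e₂ e₃ x x' ∧ (∃ r ∈ Y.S.F Y.k0, x' - e₁ = r ^ 2) ∧
        (∃ r ∈ Y.S.F Y.k0, x' - e₂ = r ^ 2) ∧ ∃ r ∈ Y.S.F Y.k0, x' - e₃ = r ^ 2 := by
  have : CharZero Ω := charZero_of_injective_algebraMap (algebraMap k Ω).injective
  obtain ⟨r₁, hr₁, q₁⟩ := hr1
  obtain ⟨r₂, hr₂, q₂⟩ := hr2
  obtain ⟨r₃, hr₃, q₃⟩ := hr3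
  rw [← one_mul (x - e₁)] at q₁
  rw [← one_mul (x - e₂)] at q₂
  rw [← one_mul (x - e₃)] at q₃
  obtain ⟨h, hdef⟩ : ∃ h, h = x + (r₁ * r₂ + r₁ * r₃ + r₂ * r₃) / 1 := ⟨_, rfl⟩
  have hh : h ∈ Y.S.F Y.k0 := by
    rw [hdef, div_one]
    exact add_mem hx (add_mem (add_mem (mul_mem hr₁ hr₂) (mul_mem hr₁ hr₃)) (mul_mem hr₂ hr₃))
  obtain ⟨s1, s2, s3, n12, n13, n23, g1, g2, g3⟩ :=
    half_sub (1 : Ω) e₁ e₂ e₃ x r₁ r₂ r₃ h one_ne_zero h12 h13 h23 q₁ q₂ q₃ hdef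
  have hDD : DD e₁ e₂ e₃ h = x :=
    DD_half (1 : Ω) e₁ e₂ e₃ x r₁ r₂ r₃ h one_ne_zero h12 h13 h23 q₁ q₂ q₃ hdef
  obtain ⟨y, hydef⟩ : ∃ y, y = (r₁ + r₂) * (r₁ + r₃) * (r₂ + r₃) := ⟨_, rfl⟩
  have hy : y ∈ Y.S.F Y.k0 := by
    rw [hydef]
    exact mul_mem (mul_mem (add_mem hr₁ hr₂) (add_mem hr₁ hr₃)) (add_mem hr₂ hr₃)
  have hy0 : y ≠ 0 := by
    rw [hydef]
    exact mul_ne_zero (mul_ne_zero n12 n13) n23
  have hxy : (h - e₁) * (h - e₂) * (h - e₃) = y ^ 2 := by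
    rw [s1, s2, s3, hydef, div_one, div_one, div_one]
    ring
  have step : ∀ x', (x' = h ∨ x' = TT e₁ e₂ e₃ h ∨ x' = TT e₂ e₁ e₃ h ∨ x' = TT e₃ e₁ e₂ h) →
      HalfStep (Y.S.F Y.k0) 1 e₁ e₂ e₃ x x' := fun x' hx' =>
    ⟨r₁, hr₁, r₂, hr₂, r₃, hr₃, q₁, q₂, q₃, h, hdef, hx'⟩
  by_cases hV : h ∈ Y.V Y.k0 a
  · rcases half1_small Y a e₁ e₂ e₃ h1 h2 h3 h x hneg hDD hV with hv | hv | hv
    · obtain ⟨a, n, b, c, d⟩ := half1_pole Y a e₁ e₂ e₃ h1 h2 h3 h12 h13 h23 h y hh hy hy0 hxy g1 g2 g3 hv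
      exact ⟨_, a, n, step _ (Or.inr (Or.inl rfl)), b, c, d⟩
    · obtain ⟨a, n, b, c, d⟩ := half1_pole Y a e₂ e₁ e₃ h2 h1 h3 h12.symm h23 h13 h y hh hy hy0
        (by rw [← hxy]; ring) g2 g1 g3 hv
      exact ⟨_, a, n, step _ (Or.inr (Or.inr (Or.inl rfl))), c, b, d⟩
    · obtain ⟨a, n, b, c, d⟩ := half1_pole Y a e₃ e₁ e₂ h3 h1 h2 h13.symm h23.symm h12 h y hh hy hy0
        (by rw [← hxy]; ring) g3 g1 g2 hv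
      exact ⟨_, a, n, step _ (Or.inr (Or.inr (Or.inr rfl))), c, d, b⟩
  · obtain ⟨b, c, d⟩ := Y.pin1 Y.k0 le_rfl Y.fin0 a e₁ e₂ e₃ h1 h2 h3 h12 h13 h23 h y hh hy hy0 hxy hV
    exact ⟨h, hh, hV, step _ (Or.inl rfl), b, c, d⟩

theorem Sys.chain1 (Y : Sys k Ω) (a : Option Y.k0) (e₁ e₂ e₃ : Ω) (h1 : e₁ ∈ Y.k0) (h2 : e₂ ∈ Y.k0) (h3 : e₃ ∈ Y.k0)
    (h12 : e₁ ≠ e₂) (h13 : e₁ ≠ e₃) (h23 : e₂ ≠ e₃) (x : Ω) (hx : x ∈ Y.S.F Y.k0) (hneg : x ∉ Y.V Y.k0 a)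
    (hr1 : ∃ r ∈ Y.S.F Y.k0, x - e₁ = r ^ 2) (hr2 : ∃ r ∈ Y.S.F Y.k0, x - e₂ = r ^ 2)
    (hr3 : ∃ r ∈ Y.S.F Y.k0, x - e₃ = r ^ 2) :
    ∃ X : ℕ → Ω, X 0 = x ∧ ∀ m, HalfStep (Y.S.F Y.k0) 1 e₁ e₂ e₃ (X m) (X (m + 1)) := by
  have step : ∀ x, (x ∈ Y.S.F Y.k0 ∧ x ∉ Y.V Y.k0 a ∧ (∃ r ∈ Y.S.F Y.k0, x - e₁ = r ^ 2) ∧
      (∃ r ∈ Y.S.F Y.k0, x - e₂ = r ^ 2) ∧ ∃ r ∈ Y.S.F Y.k0, x - e₃ = r ^ 2) →
      ∃ x', (x' ∈ Y.S.F Y.k0 ∧ x' ∉ Y.V Y.k0 a ∧ (∃ r ∈ Y.S.F Y.k0, x' - e₁ = r ^ 2) ∧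
        (∃ r ∈ Y.S.F Y.k0, x' - e₂ = r ^ 2) ∧ ∃ r ∈ Y.S.F Y.k0, x' - e₃ = r ^ 2) ∧
        HalfStep (Y.S.F Y.k0) 1 e₁ e₂ e₃ x x' := by
    rintro x ⟨hx, hn, a1, a2, a3⟩
    obtain ⟨x', b0, bn, b1, b2, b3, b4⟩ := Y.half1 a e₁ e₂ e₃ h1 h2 h3 h12 h13 h23 x hx hn a1 a2 a3
    exact ⟨x', ⟨b0, bn, b2, b3, b4⟩, b1⟩
  choose! f hf using step
  have hP : ∀ m : ℕ, (f^[m] x ∈ Y.S.F Y.k0 ∧ f^[m] x ∉ Y.V Y.k0 a ∧ (∃ r ∈ Y.S.F Y.k0, f^[m] x - e₁ = r ^ 2) ∧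
      (∃ r ∈ Y.S.F Y.k0, f^[m] x - e₂ = r ^ 2) ∧
      ∃ r ∈ Y.S.F Y.k0, f^[m] x - e₃ = r ^ 2) := by
    intro m
    induction m with
    | zero => exact ⟨hx, hneg, hr1, hr2, hr3⟩
    | succ m ih =>
      rw [Function.iterate_succ_apply']
      exact (hf _ ih).1
  refine ⟨fun m => f^[m] x, rfl, fun m => ?_⟩
  simp only [Function.iterate_succ_apply']
  exact (hf _ (hP m)).2

private theorem v_eq_one_of_sq1 {V : ValuationSubring Ω} {x : Ω} (h : V.valuation (x ^ 2) = 1) :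
    V.valuation x = 1 := by
  rw [map_pow] at h
  exact (pow_eq_one_iff_of_nonneg zero_le two_ne_zero).1 h

private theorem close_mul1 {V : ValuationSubring Ω} {a a' b b' : Ω} (ha : V.valuation (a - a') < 1)
    (hb : V.valuation (b - b') < 1) (ha1 : V.valuation a ≤ 1) (hb1 : V.valuation b' ≤ 1) :
    V.valuation (a * b - a' * b') < 1 := by
  have e : a * b - a' * b' = a * (b - b') + (a - a') * b' := by ring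
  rw [e]
  refine V.valuation.map_add_lt ?_ ?_
  · rw [map_mul]
    exact mul_lt_one_of_nonneg_of_lt_one_right ha1 zero_le hb
  · rw [map_mul]
    exact mul_lt_one_of_nonneg_of_lt_one_left zero_le ha hb1

private theorem Loc.sqrt_lift1 {S : Sec (RatFunc k) Ω} {k' : IntermediateField k Ω} {a : Option k'} {V : ValuationSubring Ω}
    (L : Loc S k' a V) (r u : Ω) (hr : r ∈ S.F k') (hu : u ∈ k') (hu0 : u ≠ 0)
    (h : V.valuation (r ^ 2 - u) < 1) : ∃ ρ ∈ k', u = ρ ^ 2 ∧ V.valuation (r - ρ) < 1 := by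
  have hu1 : V.valuation u = 1 := L.val_const u hu hu0
  have hr2 : V.valuation (r ^ 2) = 1 := by
    have e : r ^ 2 = u + (r ^ 2 - u) := by ring
    rw [e, V.valuation.map_add_eq_of_lt_left (by rw [hu1]; exact h), hu1]
  have hr1 : V.valuation r = 1 := v_eq_one_of_sq1 hr2
  have hr0 : r ≠ 0 := by
    rintro rfl
    rw [map_zero] at hr1
    exact zero_ne_one hr1
  have hp : V.valuation (u * r⁻¹ ^ 2 - 1) < 1 := by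
    have e : u * r⁻¹ ^ 2 - 1 = (u - r ^ 2) * r⁻¹ ^ 2 := by
      field_simp
    rw [e, map_mul, map_pow, map_inv₀, hr1, inv_one, one_pow, mul_one, V.valuation.map_sub_swap]
    exact h
  obtain ⟨d, hd, hud⟩ := L.pin u hu r⁻¹ (inv_mem hr) hp
  have e : r ^ 2 - u = (r - d) * (r + d) := by
    rw [hud]
    ring
  rw [e, map_mul] at h
  by_cases h1 : V.valuation (r - d) < 1
  · exact ⟨d, hd, hud, h1⟩
  · refine ⟨-d, neg_mem hd, by rw [hud]; ring, ?_⟩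
    rw [sub_neg_eq_add]
    by_contra h2
    push Not at h1 h2
    exact absurd h (not_lt.2 (one_le_mul h1 h2))

private theorem Loc.TT_close1 {S : Sec (RatFunc k) Ω} {k' : IntermediateField k Ω} {p : Option k'} {V : ValuationSubring Ω}
    (L : Loc S k' p V) (a b c g h : Ω) (ha : a ∈ k') (hb : b ∈ k') (hc : c ∈ k') (hg : g ∈ k') (hga : g ≠ a)
    (hh : V.valuation (h - g) < 1) : V.valuation (TT a b c h - TT a b c g) < 1 := by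
  have h1 : V.valuation (g - a) = 1 := L.val_const _ (sub_mem hg ha) (sub_ne_zero.2 hga)
  have h2 : V.valuation (h - a) = 1 := by
    have e : h - a = (g - a) + (h - g) := by ring
    rw [e, V.valuation.map_add_eq_of_lt_left (by rw [h1]; exact hh), h1]
  have h3 : V.valuation ((a - b) * (a - c)) ≤ 1 :=
    (V.valuation_le_one_iff _).2 (L.const _ (mul_mem (sub_mem ha hb) (sub_mem ha hc)))
  have hg0 : g - a ≠ 0 := sub_ne_zero.2 hga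
  have hh0 : h - a ≠ 0 := by
    intro h0
    rw [h0, map_zero] at h2
    exact zero_ne_one h2
  have e : TT a b c h - TT a b c g = ((a - b) * (a - c)) * (h - g) * (-1) / ((h - a) * (g - a)) := by
    unfold TT
    field_simp
    ring
  rw [e, map_div₀, map_mul V.valuation (h - a), h1, h2, one_mul, div_one, map_mul, map_mul, Valuation.map_neg,
    map_one, mul_one]
  exact mul_lt_one_of_nonneg_of_lt_one_right h3 zero_le hh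

theorem Sys.spec_step1 (Y : Sys k Ω) (e₁ e₂ e₃ : Ω) (h1 : e₁ ∈ Y.k0) (h2 : e₂ ∈ Y.k0) (h3 : e₃ ∈ Y.k0)
    (h12 : e₁ ≠ e₂) (h13 : e₁ ≠ e₃) (h23 : e₂ ≠ e₃) (x x' : Ω) (hst : HalfStep (Y.S.F Y.k0) 1 e₁ e₂ e₃ x x')
    (k' : IntermediateField k Ω) (hk : Y.k0 ≤ k') (hfin : FiniteDimensional k k') (a : Option k')
    (c : Ω) (hc : c ∈ k') (hc1 : c ≠ e₁) (hc2 : c ≠ e₂) (hc3 : c ≠ e₃)
    (hxc : (Y.V k' a).valuation (x - c) < 1) :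
    ∃ c' ∈ k', c' ≠ e₁ ∧ c' ≠ e₂ ∧ c' ≠ e₃ ∧ DD e₁ e₂ e₃ c' = c ∧ (Y.V k' a).valuation (x' - c') < 1 := by
  have : CharZero Ω := charZero_of_injective_algebraMap (algebraMap k Ω).injective
  obtain ⟨r₁, hr₁, r₂, hr₂, r₃, hr₃, q₁, q₂, q₃, h, hh, hx'⟩ := hst
  have L : Loc Y.S k' a (Y.V k' a) := Y.loc k' hk hfin a
  set V := Y.V k' a with hV
  have hk0 : (Y.k0 : Set Ω) ⊆ (k' : Set Ω) := fun z hz => hk hz
  have hF := Y.S.F_mono hk0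
  have he1 : e₁ ∈ k' := hk h1
  have he2 : e₂ ∈ k' := hk h2
  have he3 : e₃ ∈ k' := hk h3
  have hcle : ∀ z ∈ k', V.valuation z ≤ 1 := fun z hz => (V.valuation_le_one_iff _).2 (L.const z hz)
  have hxe : ∀ e ∈ k', c ≠ e → ∀ r ∈ Y.S.F Y.k0, 1 * (x - e) = r ^ 2 →
      ∃ ρ ∈ k', 1 * (c - e) = ρ ^ 2 ∧ V.valuation (r - ρ) < 1 := by
    intro e he hce r hr hre
    refine L.sqrt_lift1 r (1 * (c - e)) (hF hr) (by rw [one_mul]; exact sub_mem hc he)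
      (by rw [one_mul]; exact sub_ne_zero.2 hce) ?_
    rw [← hre, one_mul, one_mul, show x - e - (c - e) = x - c by ring]
    exact hxc
  obtain ⟨ρ₁, hρ₁, s₁, v₁⟩ := hxe e₁ he1 hc1 r₁ hr₁ q₁
  obtain ⟨ρ₂, hρ₂, s₂, v₂⟩ := hxe e₂ he2 hc2 r₂ hr₂ q₂
  obtain ⟨ρ₃, hρ₃, s₃, v₃⟩ := hxe e₃ he3 hc3 r₃ hr₃ q₃
  have hrle : ∀ r ρ : Ω, ρ ∈ k' → V.valuation (r - ρ) < 1 → V.valuation r ≤ 1 := by
    intro r ρ hρ hv
    have e : r = (r - ρ) + ρ := by ring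
    rw [e]
    exact V.valuation.map_add_le hv.le (hcle ρ hρ)
  set g : Ω := c + (ρ₁ * ρ₂ + ρ₁ * ρ₃ + ρ₂ * ρ₃) / 1 with hg
  have hσ : ρ₁ * ρ₂ + ρ₁ * ρ₃ + ρ₂ * ρ₃ ∈ k' :=
    add_mem (add_mem (mul_mem hρ₁ hρ₂) (mul_mem hρ₁ hρ₃)) (mul_mem hρ₂ hρ₃)
  have hgk : g ∈ k' := add_mem hc (by rw [div_one]; exact hσ)
  have hhg : V.valuation (h - g) < 1 := by
    have e : h - g = (x - c) + ((r₁ * r₂ - ρ₁ * ρ₂) + (r₁ * r₃ - ρ₁ * ρ₃) + (r₂ * r₃ - ρ₂ * ρ₃)) := by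
      rw [hh, hg]
      ring
    rw [e]
    exact V.valuation.map_add_lt hxc (V.valuation.map_add_lt (V.valuation.map_add_lt
      (close_mul1 v₁ v₂ (hrle _ _ hρ₁ v₁) (hcle _ hρ₂)) (close_mul1 v₁ v₃ (hrle _ _ hρ₁ v₁) (hcle _ hρ₃)))
      (close_mul1 v₂ v₃ (hrle _ _ hρ₂ v₂) (hcle _ hρ₃)))
  obtain ⟨-, -, -, -, -, -, g1, g2, g3⟩ := half_sub (1 : Ω) e₁ e₂ e₃ c ρ₁ ρ₂ ρ₃ g one_ne_zero h12 h13 h23 s₁ s₂ s₃ hg
  have hDD : DD e₁ e₂ e₃ g = c := DD_half (1 : Ω) e₁ e₂ e₃ c ρ₁ ρ₂ ρ₃ g one_ne_zero h12 h13 h23 s₁ s₂ s₃ hg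
  obtain ⟨d1, d2, d3⟩ := DD_TT e₁ e₂ e₃ g h12 h13 h23 g1 g2 g3
  have hTk : ∀ a ∈ k', ∀ b ∈ k', ∀ c ∈ k', TT a b c g ∈ k' := by
    intro a ha b hb c hc
    exact add_mem ha (div_mem (mul_mem (sub_mem ha hb) (sub_mem ha hc)) (sub_mem hgk ha))
  rcases hx' with rfl | rfl | rfl | rfl
  · exact ⟨g, hgk, g1, g2, g3, hDD, hhg⟩
  · obtain ⟨n1, n2, n3, -⟩ := TT_ne e₁ e₂ e₃ g h12 h13 g1 g2 g3
    exact ⟨TT e₁ e₂ e₃ g, hTk _ he1 _ he2 _ he3, n1, n2, n3, by rw [d1, hDD],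
      L.TT_close1 e₁ e₂ e₃ g h he1 he2 he3 hgk g1 hhg⟩
  · obtain ⟨n1, n2, n3, -⟩ := TT_ne e₂ e₁ e₃ g h12.symm h23 g2 g1 g3
    exact ⟨TT e₂ e₁ e₃ g, hTk _ he2 _ he1 _ he3, n2, n1, n3, by rw [d2, hDD],
      L.TT_close1 e₂ e₁ e₃ g h he2 he1 he3 hgk g2 hhg⟩
  · obtain ⟨n1, n2, n3, -⟩ := TT_ne e₃ e₁ e₂ g h13.symm h23.symm g3 g1 g2
    exact ⟨TT e₃ e₁ e₂ g, hTk _ he3 _ he1 _ he2, n2, n3, n1, by rw [d3, hDD],
      L.TT_close1 e₃ e₁ e₂ g h he3 he1 he2 hgk g3 hhg⟩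

theorem Sys.spec1 (Y : Sys k Ω) (e₁ e₂ e₃ : Ω) (h1 : e₁ ∈ Y.k0) (h2 : e₂ ∈ Y.k0) (h3 : e₃ ∈ Y.k0)
    (h12 : e₁ ≠ e₂) (h13 : e₁ ≠ e₃) (h23 : e₂ ≠ e₃) (X : ℕ → Ω)
    (hst : ∀ m, HalfStep (Y.S.F Y.k0) 1 e₁ e₂ e₃ (X m) (X (m + 1)))
    (k' : IntermediateField k Ω) (hk : Y.k0 ≤ k') (hfin : FiniteDimensional k k') (a : Option k')
    (c : Ω) (hc : c ∈ k') (hc1 : c ≠ e₁) (hc2 : c ≠ e₂) (hc3 : c ≠ e₃)
    (hxc : (Y.V k' a).valuation (X 0 - c) < 1) :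
    ∃ C : ℕ → Ω, C 0 = c ∧ (∀ m, C m ∈ k') ∧ (∀ m, C m ≠ e₁ ∧ C m ≠ e₂ ∧ C m ≠ e₃) ∧
      ∀ m, DD e₁ e₂ e₃ (C (m + 1)) = C m := by
  have step : ∀ m c, (c ∈ k' ∧ c ≠ e₁ ∧ c ≠ e₂ ∧ c ≠ e₃ ∧ (Y.V k' a).valuation (X m - c) < 1) →
      ∃ c', (c' ∈ k' ∧ c' ≠ e₁ ∧ c' ≠ e₂ ∧ c' ≠ e₃ ∧ (Y.V k' a).valuation (X (m + 1) - c') < 1) ∧
        DD e₁ e₂ e₃ c' = c := by
    rintro m c ⟨hc, hc1, hc2, hc3, hxc⟩
    obtain ⟨c', a1, a2, a3, a4, a5, a6⟩ :=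
      Y.spec_step1 e₁ e₂ e₃ h1 h2 h3 h12 h13 h23 (X m) (X (m + 1)) (hst m) k' hk hfin a c hc hc1 hc2 hc3 hxc
    exact ⟨c', ⟨a1, a2, a3, a4, a6⟩, a5⟩
  choose! f hf using step
  let C : ℕ → Ω := fun m => Nat.rec c (fun m c => f m c) m
  have hC0 : C 0 = c := rfl
  have hCs : ∀ m, C (m + 1) = f m (C m) := fun m => rfl
  have hP : ∀ m, (C m ∈ k' ∧ C m ≠ e₁ ∧ C m ≠ e₂ ∧ C m ≠ e₃ ∧ (Y.V k' a).valuation (X m - C m) < 1) := by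
    intro m
    induction m with
    | zero => exact ⟨hc, hc1, hc2, hc3, hxc⟩
    | succ m ih =>
      rw [hCs]
      exact (hf m (C m) ih).1
  refine ⟨C, hC0, fun m => (hP m).1, fun m => ⟨(hP m).2.1, (hP m).2.2.1, (hP m).2.2.2.1⟩, fun m => ?_⟩
  rw [hCs]
  exact (hf m (C m) (hP m)).2

end

end BSC
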