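import Pool.Agent.Lib_MP_49ddc8.Ht

/-!
# [BS-D1] .. [BS-D6]  Backward orbits of duplication over finitely generated fields (2-adic proof)

`DD e₁ e₂ e₃` is the `x`-coordinate of duplication (Defs.lean), `f x = (x - e₁) * (x - e₂) * (x - e₃)`, `βᵢ = (eᵢ - eⱼ)(eᵢ - eₗ)`.

[BS-D1] `exists_group`: take for `G` the Mathlib group `W.Point` of the affine Weierstrass curve `W = ⟨0, -(e₁+e₂+e₃), 0, e₁e₂+e₁e₃+e₂e₃, -e₁e₂e₃⟩` (use `classical` for `DecidableEq L`), `X 0 = none`,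
`X (some x y h) = some x`.  `Nonsingular x y ↔ y² = f x` (the `eᵢ` are distinct, `2 ≠ 0`; `nonsingular_iff`, `equation_iff`: for `y ≠ 0` the `y`-derivative `2y` is not `0`, for `y = 0` the point is `(eᵢ, 0)` and the `x`-derivative is
`∓βᵢ ≠ 0`).  Surjectivity: `y² = f x` is solvable.  Same `x`: `Y_eq_of_X_eq`, so `P = Q` or `P = -Q`.  Duplication: `add_self_of_Y_ne'` (or `add_self_of_Y_ne`), slope `(3x²+2a₂x+a₄)/(2y)`, then `field_simp`, `y² = f x`.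
Addition for `x ≠ x'`: `add_of_X_ne`, slope `(y - y')/(x - x')`; `g - h = g + (-h)`, `-(x', y') = (x', -y')`.

[BS-D2] `estimates`: `R = max (1, ‖eᵢ‖)`.  (a) For `‖x‖ > R`: `‖x - eᵢ‖ = ‖x‖`, `‖β₁‖ ≤ R² < ‖x‖²`, so `‖(x-e₁)² - β₁‖ = ‖x‖²`, `‖DD x - e₁‖ = ‖x‖⁴/(‖4‖ ‖x‖³) = ‖x‖/‖4‖ ≥ 4 ‖x‖ > ‖e₁‖`, so `‖DD x‖ = ‖x‖/‖4‖ ≥ 4 ‖x‖`.
(b) Take `δ ∈ (0, 1]` with `δ ≤ ‖βᵢ‖`, `R δ ≤ ‖βᵢ‖²` for `i = 1, 2, 3`, `η = δ³`.  If `‖DD x‖ ≤ R` then `‖x‖ ≤ R` by (a).  If moreover `‖f x‖ < δ³` then `‖x - eᵢ‖ < δ` for some `i`; `(DD x - eᵢ)(4 f x) = ((x-eᵢ)² - βᵢ)²`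
(`DD` is symmetric in `e₁, e₂, e₃` when `x ≠ eᵢ`; field_simp, ring), the right side has norm `‖βᵢ‖²` (`‖(x-eᵢ)²‖ < δ² ≤ ‖βᵢ‖`), the left side has norm `≤ R ‖4‖ ‖f x‖ < R δ³ ≤ ‖βᵢ‖²`: contradiction.
(c) `(y+y')² - (y-y')² = 4 y y'`, `‖y‖ ‖y'‖ ≥ η`, so one of `‖(y+y')²‖`, `‖(y-y')²‖` is `≥ ‖4‖ η`; divided by `‖x-x'‖² ≤ ρ²` it is `> R` when `R ρ² < ‖4‖ η`; the terms `-x - x' + (e₁+e₂+e₃)` have norm `≤ R`.

[BS-D3] `chain_bound` (helper27).

[BS-D4] `fixed_finite`: polynomials `A₀ = X`, `B₀ = 1`, `F = Bₙ(Aₙ-e₁Bₙ)(Aₙ-e₂Bₙ)(Aₙ-e₃Bₙ)`, `Bₙ₊₁ = 4F`, `Aₙ₊₁ = e₁·4F + ((Aₙ-e₁Bₙ)² - β₁Bₙ²)²`.  Induction: `Aₙ` is monic of degree `4ⁿ`, `Bₙ` has degree `4ⁿ - 1` and leading coefficient `4ⁿ`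
(as `Polynomial`s over `M`).  If `DD^[j] x ≠ eᵢ` for `j < n`, then `Bₙ(x) ≠ 0` and `DD^[n] x = Aₙ(x)/Bₙ(x)`.  So a fixed point is a root of `Aₙ - X Bₙ`, whose coefficient of `X^(4ⁿ)` is `1 - 4ⁿ ≠ 0`.

[BS-D5] `exists_emb`: `M` is countable (or: has a finite transcendence basis over `ℚ`).  `PadicAlgCl 2` is algebraically closed of characteristic 0 and has an infinite transcendence basis over `ℚ` (otherwise it is algebraic over a countable field, so countable,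
but `𝔠 ≤ #ℚ_[2]` by `continuum_le_cardinal_of_nontriviallyNormedField`).  Map a transcendence basis `B` of `M` injectively into a transcendence basis of `PadicAlgCl 2` (`#B ≤ ℵ₀`); extend `ℚ(B) → PadicAlgCl 2` to `M` by `IsAlgClosed.lift`.
`K = ℚ_[2](σ(S))`, `S` finite with `⊤ = ℚ(S)`; `K` is finite over `ℚ_[2]` since `PadicAlgCl 2` is algebraic.
`tot_bdd`: `K` (with the norm of `PadicAlgCl 2`) is a finite dimensional normed space over the proper field `ℚ_[2]` (`FiniteDimensional.proper`), so `closedBall 0 R` in `K` is compact, so totally bounded: covered by `N` balls of radius `ρ/2` (`N ≥ 1`);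
two of the `N + 1` points `u 0, …, u N` lie in one ball.

[BS-D6] `chain_fg`, `periodic_fg`, `level_chain_fg`, `level_periodic_fg` (helper27).
-/

set_option autoImplicit false

open Polynomial

namespace BSC

private def WW1 {L : Type} [Field L] (e₁ e₂ e₃ : L) : WeierstrassCurve.Affine L :=
  ⟨0, -(e₁ + e₂ + e₃), 0, e₁ * e₂ + e₁ * e₃ + e₂ * e₃, -(e₁ * e₂ * e₃)⟩

private theorem eq_WW1 {L : Type} [Field L] {e₁ e₂ e₃ x y : L} :
    (WW1 e₁ e₂ e₃).Equation x y ↔ y ^ 2 = (x - e₁) * (x - e₂) * (x - e₃) := by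
  rw [WeierstrassCurve.Affine.equation_iff]
  show y ^ 2 + 0 * x * y + 0 * y = x ^ 3 + -(e₁ + e₂ + e₃) * x ^ 2 +
    (e₁ * e₂ + e₁ * e₃ + e₂ * e₃) * x + -(e₁ * e₂ * e₃) ↔ _
  constructor
  · intro h
    linear_combination h
  · intro h
    linear_combination h

private theorem nons_WW1 {L : Type} [Field L] (h2 : (2 : L) ≠ 0) {e₁ e₂ e₃ : L} (h12 : e₁ ≠ e₂)
    (h13 : e₁ ≠ e₃) (h23 : e₂ ≠ e₃) {x y : L} (h : y ^ 2 = (x - e₁) * (x - e₂) * (x - e₃)) :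
    (WW1 e₁ e₂ e₃).Nonsingular x y := by
  rw [WeierstrassCurve.Affine.nonsingular_iff']
  refine ⟨eq_WW1.2 h, ?_⟩
  show 0 * y - (3 * x ^ 2 + 2 * -(e₁ + e₂ + e₃) * x + (e₁ * e₂ + e₁ * e₃ + e₂ * e₃)) ≠ 0 ∨
    2 * y + 0 * x + 0 ≠ 0
  by_cases hy : y = 0
  · left
    rw [hy, zero_pow two_ne_zero] at h
    have h3 := h.symm
    rw [mul_eq_zero, mul_eq_zero, sub_eq_zero, sub_eq_zero, sub_eq_zero] at h3
    rcases h3 with (h3 | h3) | h3
    · subst h3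
      intro h4
      have : (x - e₂) * (x - e₃) = 0 := by linear_combination -h4
      rcases mul_eq_zero.1 this with h5 | h5
      · exact h12 (sub_eq_zero.1 h5)
      · exact h13 (sub_eq_zero.1 h5)
    · subst h3
      intro h4
      have : (x - e₁) * (x - e₃) = 0 := by linear_combination -h4
      rcases mul_eq_zero.1 this with h5 | h5
      · exact h12 (sub_eq_zero.1 h5).symm
      · exact h23 (sub_eq_zero.1 h5)
    · subst h3
      intro h4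
      have : (x - e₁) * (x - e₂) = 0 := by linear_combination -h4
      rcases mul_eq_zero.1 this with h5 | h5
      · exact h13 (sub_eq_zero.1 h5).symm
      · exact h23 (sub_eq_zero.1 h5).symm
  · right
    intro h4
    have h5 : 2 * y = 0 := by linear_combination h4
    exact (mul_ne_zero h2 hy) h5

private def XX1 {L : Type} [Field L] {W : WeierstrassCurve.Affine L} : W.Point → Option L
  | .zero => none
  | .some x _ _ => some x

theorem exists_group (L : Type) [Field L] [IsAlgClosed L] (h2 : (2 : L) ≠ 0) (e₁ e₂ e₃ : L) (h12 : e₁ ≠ e₂) (h13 : e₁ ≠ e₃)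
    (h23 : e₂ ≠ e₃) :
    ∃ (G : Type) (_ : AddCommGroup G) (X : G → Option L), (∀ g, X g = none ↔ g = 0) ∧ (∀ x : L, ∃ g, X g = some x) ∧
      (∀ g h, X g = X h → g = h ∨ g = -h) ∧ (∀ g, X (-g) = X g) ∧
      (∀ g x, X g = some x → x ≠ e₁ → x ≠ e₂ → x ≠ e₃ → X (g + g) = some (DD e₁ e₂ e₃ x)) ∧
      ∀ g h x x', X g = some x → X h = some x' → x ≠ x' → ∃ y y' : L, y ^ 2 = (x - e₁) * (x - e₂) * (x - e₃) ∧
        y' ^ 2 = (x' - e₁) * (x' - e₂) * (x' - e₃) ∧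
        X (g + h) = some (((y - y') / (x - x')) ^ 2 - x - x' + (e₁ + e₂ + e₃)) ∧
        X (g - h) = some (((y + y') / (x - x')) ^ 2 - x - x' + (e₁ + e₂ + e₃)) := by
  classical
  have hneg : ∀ x y : L, (WW1 e₁ e₂ e₃).negY x y = -y := by
    intro x y
    show -y - 0 * x - 0 = -y
    ring
  refine ⟨(WW1 e₁ e₂ e₃).Point, inferInstance, XX1, ?_, ?_, ?_, ?_, ?_, ?_⟩
  · rintro (_ | ⟨x, y, h⟩)
    · exact ⟨fun _ => rfl, fun _ => rfl⟩
    · refine ⟨fun h' => ?_, fun h' => ?_⟩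
      · exact absurd h' (by simp [XX1])
      · exact absurd h' (WeierstrassCurve.Affine.Point.some_ne_zero h)
  · intro x
    obtain ⟨y, hy⟩ := IsAlgClosed.exists_pow_nat_eq ((x - e₁) * (x - e₂) * (x - e₃)) two_pos
    exact ⟨.some x y (nons_WW1 h2 h12 h13 h23 hy), rfl⟩
  · rintro (_ | ⟨x, y, h⟩) (_ | ⟨x', y', h'⟩) he
    · exact Or.inl rfl
    · exact absurd he (by simp [XX1])
    · exact absurd he (by simp [XX1])
    · have hx : x = x' := by simpa [XX1] using he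
      exact WeierstrassCurve.Affine.Point.X_eq_iff.1 hx
  · rintro (_ | ⟨x, y, h⟩)
    · rfl
    · rfl
  · rintro (_ | ⟨x, y, h⟩) x' hx' h1' h2' h3'
    · exact absurd hx' (by simp [XX1])
    · have hx : x = x' := by simpa [XX1] using hx'
      subst hx
      have hy : y ^ 2 = (x - e₁) * (x - e₂) * (x - e₃) := eq_WW1.1 h.1
      have hy0 : y ≠ 0 := by
        intro h0
        rw [h0, zero_pow two_ne_zero] at hy
        exact (mul_ne_zero (mul_ne_zero (sub_ne_zero.2 h1') (sub_ne_zero.2 h2'))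
          (sub_ne_zero.2 h3')) hy.symm
      have hyn : y ≠ (WW1 e₁ e₂ e₃).negY x y := by
        rw [hneg]
        intro h0
        exact (mul_ne_zero h2 hy0) (by linear_combination h0)
      rw [WeierstrassCurve.Affine.Point.add_self_of_Y_ne hyn]
      show some ((WW1 e₁ e₂ e₃).addX x x ((WW1 e₁ e₂ e₃).slope x x y y)) = _
      rw [WeierstrassCurve.Affine.slope_of_Y_ne rfl hyn, hneg]
      congr 1
      show ((3 * x ^ 2 + 2 * -(e₁ + e₂ + e₃) * x + (e₁ * e₂ + e₁ * e₃ + e₂ * e₃) - 0 * y) / (y - -y)) ^ 2 +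
        0 * ((3 * x ^ 2 + 2 * -(e₁ + e₂ + e₃) * x + (e₁ * e₂ + e₁ * e₃ + e₂ * e₃) - 0 * y) / (y - -y)) -
        -(e₁ + e₂ + e₃) - x - x = DD e₁ e₂ e₃ x
      unfold DD
      rw [← hy]
      have h4 : (4 : L) ≠ 0 := by
        have : (4 : L) = 2 * 2 := by norm_num
        rw [this]
        exact mul_ne_zero h2 h2
      have e1 : y - -y = 2 * y := by ring
      rw [e1, div_pow, mul_pow]
      have e2 : ((2 : L) ^ 2 * y ^ 2) = 4 * y ^ 2 := by ring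
      rw [e2]
      have h5 : (4 * y ^ 2 : L) ≠ 0 := mul_ne_zero h4 (pow_ne_zero 2 hy0)
      have key : (3 * x ^ 2 + 2 * -(e₁ + e₂ + e₃) * x + (e₁ * e₂ + e₁ * e₃ + e₂ * e₃) - 0 * y) ^ 2 =
          ((x - e₁) ^ 2 - (e₁ - e₂) * (e₁ - e₃)) ^ 2 + (e₁ - (e₁ + e₂ + e₃) + x + x) * (4 * y ^ 2) := by
        rw [hy]
        ring
      rw [key, add_div, mul_div_assoc, div_self h5]
      ring
  · rintro (_ | ⟨x, y, h⟩) (_ | ⟨x', y', h'⟩) a a' ha ha' hne
    · exact absurd ha (by simp [XX1])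
    · exact absurd ha (by simp [XX1])
    · exact absurd ha' (by simp [XX1])
    · have hx : x = a := by simpa [XX1] using ha
      have hx' : x' = a' := by simpa [XX1] using ha'
      subst hx
      subst hx'
      refine ⟨y, y', eq_WW1.1 h.1, eq_WW1.1 h'.1, ?_, ?_⟩
      · rw [WeierstrassCurve.Affine.Point.add_of_X_ne hne]
        show some ((WW1 e₁ e₂ e₃).addX x x' ((WW1 e₁ e₂ e₃).slope x x' y y')) = _
        rw [WeierstrassCurve.Affine.slope_of_X_ne hne]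
        congr 1
        show ((y - y') / (x - x')) ^ 2 + 0 * ((y - y') / (x - x')) - -(e₁ + e₂ + e₃) - x - x' = _
        ring
      · rw [sub_eq_add_neg, WeierstrassCurve.Affine.Point.neg_some,
          WeierstrassCurve.Affine.Point.add_of_X_ne hne]
        show some ((WW1 e₁ e₂ e₃).addX x x' ((WW1 e₁ e₂ e₃).slope x x' y ((WW1 e₁ e₂ e₃).negY x' y'))) = _
        rw [WeierstrassCurve.Affine.slope_of_X_ne hne, hneg]
        congr 1
        show ((y - -y') / (x - x')) ^ 2 + 0 * ((y - -y') / (x - x')) - -(e₁ + e₂ + e₃) - x - x' = _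
        ring

private theorem ult_add {L : Type} [NormedField L] [IsUltrametricDist L] {a b : L} (h : ‖b‖ < ‖a‖) :
    ‖a + b‖ = ‖a‖ := by
  rw [IsUltrametricDist.norm_add_eq_max_of_norm_ne_norm h.ne', max_eq_left h.le]

private theorem ult_sub {L : Type} [NormedField L] [IsUltrametricDist L] {a b : L} (h : ‖b‖ < ‖a‖) :
    ‖a - b‖ = ‖a‖ := by
  rw [sub_eq_add_neg]
  exact ult_add (by rwa [norm_neg])

private theorem ult_le {L : Type} [NormedField L] [IsUltrametricDist L] {a b : L} {R : ℝ} (ha : ‖a‖ ≤ R)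
    (hb : ‖b‖ ≤ R) : ‖a + b‖ ≤ R :=
  (IsUltrametricDist.norm_add_le_max a b).trans (max_le ha hb)

private theorem ult_le' {L : Type} [NormedField L] [IsUltrametricDist L] {a b : L} {R : ℝ} (ha : ‖a‖ ≤ R)
    (hb : ‖b‖ ≤ R) : ‖a - b‖ ≤ R := by
  rw [sub_eq_add_neg]
  exact ult_le ha (by rwa [norm_neg])

/-- the key step of (b) -/
private theorem est_key {L : Type} [NormedField L] [IsUltrametricDist L] (h4 : ‖(4 : L)‖ ≤ 1 / 4) {R δ : ℝ} (hR : 1 ≤ R)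
    (hδ : 0 < δ) (hδ1 : δ ≤ 1) {u e f β : L} (hβ : δ ≤ ‖β‖) (hβ2 : R * δ ≤ ‖β‖ ^ 2) (hu : ‖u‖ < δ) (he : ‖e‖ ≤ R)
    (hf : ‖f‖ < δ ^ 3) (h : e * (4 * f) = (u ^ 2 - β) ^ 2) : False := by
  have h1 : ‖u ^ 2‖ < ‖β‖ := by
    rw [norm_pow]
    have : ‖u‖ ^ 2 < δ := by nlinarith [norm_nonneg u]
    linarith
  have h2 : ‖(u ^ 2 - β) ^ 2‖ = ‖β‖ ^ 2 := by
    rw [norm_pow, norm_sub_rev, ult_sub h1]
  rw [← h, norm_mul, norm_mul] at h2
  have h3 : δ ^ 3 ≤ δ := by nlinarith [mul_pos hδ hδ]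
  have h5 : ‖(4 : L)‖ * ‖f‖ ≤ 1 / 4 * δ := mul_le_mul h4 (by linarith) (norm_nonneg _) (by norm_num)
  have h6 : ‖e‖ * (‖(4 : L)‖ * ‖f‖) ≤ R * (1 / 4 * δ) :=
    mul_le_mul he h5 (mul_nonneg (norm_nonneg _) (norm_nonneg _)) (by linarith)
  have h7 : 0 < R * δ := mul_pos (by linarith) hδ
  linarith

theorem estimates (L : Type) [NormedField L] [IsUltrametricDist L] (h2 : (2 : L) ≠ 0) (h4 : ‖(4 : L)‖ ≤ 1 / 4) (e₁ e₂ e₃ : L)
    (h12 : e₁ ≠ e₂) (h13 : e₁ ≠ e₃) (h23 : e₂ ≠ e₃) :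
    ∃ R η ρ : ℝ, 1 ≤ R ∧ 0 < η ∧ 0 < ρ ∧
      (∀ x : L, R < ‖x‖ → x ≠ e₁ ∧ x ≠ e₂ ∧ x ≠ e₃ ∧ 2 * ‖x‖ ≤ ‖DD e₁ e₂ e₃ x‖) ∧
      (∀ x : L, x ≠ e₁ → x ≠ e₂ → x ≠ e₃ → ‖DD e₁ e₂ e₃ x‖ ≤ R → ‖x‖ ≤ R ∧ η ≤ ‖(x - e₁) * (x - e₂) * (x - e₃)‖) ∧
      ∀ x x' y y' : L, ‖x‖ ≤ R → ‖x'‖ ≤ R → η ≤ ‖(x - e₁) * (x - e₂) * (x - e₃)‖ → η ≤ ‖(x' - e₁) * (x' - e₂) * (x' - e₃)‖ →
        x ≠ x' → ‖x - x'‖ ≤ ρ → y ^ 2 = (x - e₁) * (x - e₂) * (x - e₃) → y' ^ 2 = (x' - e₁) * (x' - e₂) * (x' - e₃) →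
        R < ‖((y - y') / (x - x')) ^ 2 - x - x' + (e₁ + e₂ + e₃)‖ ∨ R < ‖((y + y') / (x - x')) ^ 2 - x - x' + (e₁ + e₂ + e₃)‖ := by
  set β₁ : L := (e₁ - e₂) * (e₁ - e₃) with hβ₁
  set β₂ : L := (e₂ - e₁) * (e₂ - e₃) with hβ₂
  set β₃ : L := (e₃ - e₁) * (e₃ - e₂) with hβ₃
  set R : ℝ := max 1 (max ‖e₁‖ (max ‖e₂‖ ‖e₃‖)) with hRdef
  have hR1 : 1 ≤ R := le_max_left _ _
  have hR0 : 0 < R := by linarith
  have hRe1 : ‖e₁‖ ≤ R := (le_max_left _ _).trans (le_max_right _ _)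
  have hRe2 : ‖e₂‖ ≤ R := ((le_max_left _ _).trans (le_max_right _ _)).trans (le_max_right _ _)
  have hRe3 : ‖e₃‖ ≤ R := ((le_max_right _ _).trans (le_max_right _ _)).trans (le_max_right _ _)
  have h40 : (4 : L) ≠ 0 := by
    have : (4 : L) = 2 * 2 := by norm_num
    rw [this]
    exact mul_ne_zero h2 h2
  have h4pos : 0 < ‖(4 : L)‖ := norm_pos_iff.2 h40
  have hb1 : 0 < ‖β₁‖ := norm_pos_iff.2 (mul_ne_zero (sub_ne_zero.2 h12) (sub_ne_zero.2 h13))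
  have hb2 : 0 < ‖β₂‖ := norm_pos_iff.2 (mul_ne_zero (sub_ne_zero.2 h12.symm) (sub_ne_zero.2 h23))
  have hb3 : 0 < ‖β₃‖ := norm_pos_iff.2 (mul_ne_zero (sub_ne_zero.2 h13.symm) (sub_ne_zero.2 h23.symm))
  -- (a)
  have hA : ∀ x : L, R < ‖x‖ → x ≠ e₁ ∧ x ≠ e₂ ∧ x ≠ e₃ ∧ 2 * ‖x‖ ≤ ‖DD e₁ e₂ e₃ x‖ := by
    intro x hx
    have hx0 : 0 < ‖x‖ := hR0.trans hx
    have hs1 : ‖x - e₁‖ = ‖x‖ := ult_sub (lt_of_le_of_lt hRe1 hx)
    have hs2 : ‖x - e₂‖ = ‖x‖ := ult_sub (lt_of_le_of_lt hRe2 hx)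
    have hs3 : ‖x - e₃‖ = ‖x‖ := ult_sub (lt_of_le_of_lt hRe3 hx)
    have hne : ∀ e : L, ‖x - e‖ = ‖x‖ → x ≠ e := by
      intro e he h
      rw [h, sub_self, norm_zero, ← h] at he
      exact hx0.ne he
    refine ⟨hne _ hs1, hne _ hs2, hne _ hs3, ?_⟩
    have hβle : ‖β₁‖ ≤ R ^ 2 := by
      rw [hβ₁, norm_mul, pow_two]
      exact mul_le_mul (ult_le' hRe1 hRe2) (ult_le' hRe1 hRe3) (norm_nonneg _) hR0.le
    have hβlt : ‖β₁‖ < ‖(x - e₁) ^ 2‖ := by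
      rw [norm_pow, hs1]
      nlinarith
    have hn : ‖(x - e₁) ^ 2 - β₁‖ = ‖x‖ ^ 2 := by
      rw [ult_sub hβlt, norm_pow, hs1]
    have hq : ‖((x - e₁) ^ 2 - (e₁ - e₂) * (e₁ - e₃)) ^ 2 / (4 * ((x - e₁) * (x - e₂) * (x - e₃)))‖ =
        ‖x‖ / ‖(4 : L)‖ := by
      rw [norm_div, norm_pow, ← hβ₁, hn, norm_mul, norm_mul, norm_mul, hs1, hs2, hs3]
      field_simp
    have hbig : 4 * ‖x‖ ≤ ‖x‖ / ‖(4 : L)‖ := by
      rw [le_div_iff₀ h4pos]
      nlinarith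
    have hlt : ‖e₁‖ < ‖((x - e₁) ^ 2 - (e₁ - e₂) * (e₁ - e₃)) ^ 2 / (4 * ((x - e₁) * (x - e₂) * (x - e₃)))‖ := by
      rw [hq]
      linarith
    have hD : ‖DD e₁ e₂ e₃ x‖ = ‖x‖ / ‖(4 : L)‖ := by
      unfold DD
      rw [add_comm, ult_add hlt, hq]
    rw [hD]
    linarith
  -- the constant `δ`
  obtain ⟨δ, hδ, hδ1, hδb1, hδc1, hδb2, hδc2, hδb3, hδc3⟩ : ∃ δ : ℝ, 0 < δ ∧ δ ≤ 1 ∧ δ ≤ ‖β₁‖ ∧ R * δ ≤ ‖β₁‖ ^ 2 ∧
      δ ≤ ‖β₂‖ ∧ R * δ ≤ ‖β₂‖ ^ 2 ∧ δ ≤ ‖β₃‖ ∧ R * δ ≤ ‖β₃‖ ^ 2 := by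
    have hg : ∀ b : L, 0 < ‖b‖ → 0 < min ‖b‖ (‖b‖ ^ 2 / R) := fun b hb => lt_min hb (by positivity)
    have hg1 : ∀ (b : L) (δ : ℝ), δ ≤ min ‖b‖ (‖b‖ ^ 2 / R) → δ ≤ ‖b‖ ∧ R * δ ≤ ‖b‖ ^ 2 := by
      intro b δ h
      refine ⟨h.trans (min_le_left _ _), ?_⟩
      have h5 := h.trans (min_le_right _ _)
      rw [le_div_iff₀ hR0] at h5
      linarith
    set δ : ℝ := min 1 (min (min ‖β₁‖ (‖β₁‖ ^ 2 / R)) (min (min ‖β₂‖ (‖β₂‖ ^ 2 / R)) (min ‖β₃‖ (‖β₃‖ ^ 2 / R))))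
      with hδdef
    have k1 : δ ≤ min ‖β₁‖ (‖β₁‖ ^ 2 / R) := (min_le_right _ _).trans (min_le_left _ _)
    have k2 : δ ≤ min ‖β₂‖ (‖β₂‖ ^ 2 / R) :=
      ((min_le_right _ _).trans (min_le_right _ _)).trans (min_le_left _ _)
    have k3 : δ ≤ min ‖β₃‖ (‖β₃‖ ^ 2 / R) :=
      ((min_le_right _ _).trans (min_le_right _ _)).trans (min_le_right _ _)
    exact ⟨δ, lt_min one_pos (lt_min (hg _ hb1) (lt_min (hg _ hb2) (hg _ hb3))), min_le_left _ _, (hg1 _ _ k1).1,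
      (hg1 _ _ k1).2, (hg1 _ _ k2).1, (hg1 _ _ k2).2, (hg1 _ _ k3).1, (hg1 _ _ k3).2⟩
  have hη : 0 < δ ^ 3 := by positivity
  obtain ⟨ρ, hρ, hρ1⟩ : ∃ ρ : ℝ, 0 < ρ ∧ R * ρ ^ 2 < ‖(4 : L)‖ * δ ^ 3 := by
    have hc : 0 < ‖(4 : L)‖ * δ ^ 3 := mul_pos h4pos hη
    refine ⟨min 1 (‖(4 : L)‖ * δ ^ 3 / (2 * R)), lt_min one_pos (by positivity), ?_⟩
    set t := min 1 (‖(4 : L)‖ * δ ^ 3 / (2 * R)) with ht
    have t0 : 0 < t := lt_min one_pos (by positivity)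
    have t1 : t ≤ 1 := min_le_left _ _
    have t2 : t ≤ ‖(4 : L)‖ * δ ^ 3 / (2 * R) := min_le_right _ _
    rw [le_div_iff₀ (by positivity)] at t2
    have t3 : t ^ 2 ≤ t := by nlinarith
    nlinarith
  refine ⟨R, δ ^ 3, ρ, hR1, hη, hρ, hA, ?_, ?_⟩
  · -- (b)
    intro x hx1 hx2 hx3 hD
    have hxR : ‖x‖ ≤ R := by
      by_contra hc
      have h5 := (hA x (not_le.1 hc)).2.2.2
      have h6 := not_le.1 hc
      linarith
    refine ⟨hxR, ?_⟩
    by_contra hc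
    have hf := not_le.1 hc
    have s1 : x - e₁ ≠ 0 := sub_ne_zero.2 hx1
    have s2 : x - e₂ ≠ 0 := sub_ne_zero.2 hx2
    have s3 : x - e₃ ≠ 0 := sub_ne_zero.2 hx3
    have hone : ‖x - e₁‖ < δ ∨ ‖x - e₂‖ < δ ∨ ‖x - e₃‖ < δ := by
      by_contra hno
      push Not at hno
      obtain ⟨n1, n2, n3⟩ := hno
      rw [norm_mul, norm_mul] at hf
      have q1 : δ * δ ≤ ‖x - e₁‖ * ‖x - e₂‖ := mul_le_mul n1 n2 hδ.le (norm_nonneg _)
      have q2 : δ * δ * δ ≤ ‖x - e₁‖ * ‖x - e₂‖ * ‖x - e₃‖ :=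
        mul_le_mul q1 n3 hδ.le (mul_nonneg (norm_nonneg _) (norm_nonneg _))
      have q3 : δ ^ 3 = δ * δ * δ := by ring
      linarith
    have hne4 : (4 : L) * ((x - e₁) * (x - e₂) * (x - e₃)) ≠ 0 := mul_ne_zero h40 (mul_ne_zero (mul_ne_zero s1 s2) s3)
    have hDD : DD e₁ e₂ e₃ x * (4 * ((x - e₁) * (x - e₂) * (x - e₃))) =
        e₁ * (4 * ((x - e₁) * (x - e₂) * (x - e₃))) + ((x - e₁) ^ 2 - (e₁ - e₂) * (e₁ - e₃)) ^ 2 := by
      unfold DD
      rw [add_mul, div_mul_cancel₀ _ hne4]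
    rcases hone with h5 | h5 | h5
    · refine est_key h4 hR1 hδ hδ1 hδb1 hδc1 h5 (ult_le' hD hRe1) hf ?_
      rw [sub_mul, hDD, hβ₁]
      ring
    · refine est_key h4 hR1 hδ hδ1 hδb2 hδc2 h5 (ult_le' hD hRe2) hf ?_
      rw [sub_mul, hDD, hβ₂]
      ring
    · refine est_key h4 hR1 hδ hδ1 hδb3 hδc3 h5 (ult_le' hD hRe3) hf ?_
      rw [sub_mul, hDD, hβ₃]
      ring
  · -- (c)
    intro x x' y y' hx hx' hfx hfx' hne hxx hy hy'
    rw [← hy, norm_pow] at hfx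
    rw [← hy', norm_pow] at hfx'
    have hyy : δ ^ 3 ≤ ‖y‖ * ‖y'‖ := by
      have h5 : (δ ^ 3) ^ 2 ≤ (‖y‖ * ‖y'‖) ^ 2 := by
        rw [mul_pow, pow_two (δ ^ 3)]
        exact mul_le_mul hfx hfx' hη.le (by positivity)
      exact le_of_sq_le_sq h5 (mul_nonneg (norm_nonneg _) (norm_nonneg _))
    have h5 : ‖(4 : L)‖ * δ ^ 3 ≤ ‖(y + y') ^ 2 - (y - y') ^ 2‖ := by
      have e : (y + y') ^ 2 - (y - y') ^ 2 = 4 * (y * y') := by ring
      rw [e, norm_mul, norm_mul]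
      exact mul_le_mul_of_nonneg_left hyy (norm_nonneg _)
    have hd : x - x' ≠ 0 := sub_ne_zero.2 hne
    have hd0 : 0 < ‖x - x'‖ := norm_pos_iff.2 hd
    have hrest : ∀ w : L, ‖(4 : L)‖ * δ ^ 3 ≤ ‖w ^ 2‖ → R < ‖(w / (x - x')) ^ 2 - x - x' + (e₁ + e₂ + e₃)‖ := by
      intro w hw
      have h6 : R < ‖(w / (x - x')) ^ 2‖ := by
        rw [div_pow, norm_div, norm_pow (x - x'), lt_div_iff₀ (by positivity)]
        have h7 : ‖x - x'‖ ^ 2 ≤ ρ ^ 2 := pow_le_pow_left₀ (norm_nonneg _) hxx 2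
        have h8 : R * ‖x - x'‖ ^ 2 ≤ R * ρ ^ 2 := mul_le_mul_of_nonneg_left h7 hR0.le
        linarith
      have h9 : ‖x + x' - (e₁ + e₂ + e₃)‖ ≤ R := ult_le' (ult_le hx hx') (ult_le (ult_le hRe1 hRe2) hRe3)
      have e : (w / (x - x')) ^ 2 - x - x' + (e₁ + e₂ + e₃) =
          (w / (x - x')) ^ 2 - (x + x' - (e₁ + e₂ + e₃)) := by ring
      rw [e, ult_sub (lt_of_le_of_lt h9 h6)]
      exact h6
    by_cases h6 : ‖(4 : L)‖ * δ ^ 3 ≤ ‖(y - y') ^ 2‖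
    · exact Or.inl (hrest _ h6)
    · right
      apply hrest
      by_contra h7
      have h8 : ‖(y + y') ^ 2 - (y - y') ^ 2‖ ≤ max ‖(y + y') ^ 2‖ ‖(y - y') ^ 2‖ := by
        rw [sub_eq_add_neg]
        refine (IsUltrametricDist.norm_add_le_max _ _).trans ?_
        rw [norm_neg]
      have h9 := h5.trans h8
      rcases le_max_iff.1 h9 with h10 | h10
      · exact h7 h10
      · exact h6 h10

/-- bounded sequences in `K` have close terms with bounded indices -/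
def TotBdd {L : Type} [NormedField L] (K : Set L) : Prop :=
  ∀ R ρ : ℝ, 0 < ρ → ∃ N : ℕ, ∀ u : ℕ → L, (∀ i, u i ∈ K ∧ ‖u i‖ ≤ R) → ∃ i j : ℕ, i < j ∧ j ≤ N ∧ ‖u i - u j‖ ≤ ρ

theorem chain_bound (L : Type) [NormedField L] [IsUltrametricDist L] [IsAlgClosed L] (h2 : (2 : L) ≠ 0) (h4 : ‖(4 : L)‖ ≤ 1 / 4)
    (K : Set L) (hK : TotBdd K) (e₁ e₂ e₃ : L) (h12 : e₁ ≠ e₂) (h13 : e₁ ≠ e₃) (h23 : e₂ ≠ e₃) :
    ∃ N : ℕ, ∀ c : ℕ → L, (∀ m, c m ∈ K) → (∀ m, c m ≠ e₁ ∧ c m ≠ e₂ ∧ c m ≠ e₃) → (∀ m, DD e₁ e₂ e₃ (c (m + 1)) = c m) →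
      ∃ d : ℕ, 1 ≤ d ∧ d ≤ N ∧ (DD e₁ e₂ e₃)^[d] (c 0) = c 0 := by
  classical
  obtain ⟨G, iG, X, hX0, hXs, hXe, hXn, hXd, hXa⟩ := exists_group L h2 e₁ e₂ e₃ h12 h13 h23
  obtain ⟨R, η, ρ, hR, hη, hρ, ha, hb, hc⟩ := estimates L h2 h4 e₁ e₂ e₃ h12 h13 h23
  obtain ⟨N, hN⟩ := hK R ρ hρ
  refine ⟨N, fun c hcK hce hcD => ?_⟩
  -- lift the chain to the group
  have hstep : ∀ (m : ℕ) (g : G), X g = some (c m) → ∃ h : G, X h = some (c (m + 1)) ∧ h + h = g := by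
    intro m g hg
    obtain ⟨h, hh⟩ := hXs (c (m + 1))
    have h1 : X (h + h) = X g := by
      rw [hXd h _ hh (hce (m + 1)).1 (hce (m + 1)).2.1 (hce (m + 1)).2.2, hcD, hg]
    rcases hXe _ _ h1 with h2 | h2
    · exact ⟨h, hh, h2⟩
    · refine ⟨-h, by rw [hXn, hh], ?_⟩
      rw [← neg_add, h2, neg_neg]
  obtain ⟨g0, hg0⟩ := hXs (c 0)
  choose! nx hnx1 hnx2 using hstep
  let P : ℕ → G := fun m => Nat.rec g0 (fun n g => nx n g) m
  have hP0 : P 0 = g0 := rfl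
  have hPs : ∀ m, P (m + 1) = nx m (P m) := fun m => rfl
  have hPX : ∀ m, X (P m) = some (c m) := by
    intro m
    induction m with
    | zero => exact hg0
    | succ m ih => rw [hPs]; exact hnx1 m (P m) ih
  have hPd : ∀ m, P (m + 1) + P (m + 1) = P m := by
    intro m
    rw [hPs]
    exact hnx2 m (P m) (hPX m)
  -- large points
  have hbig : ∀ (j : ℕ) (g : G), (g = 0 ∨ ∃ x, X g = some x ∧ R < ‖x‖) →
      ((2 ^ j) • g = 0 ∨ ∃ x, X ((2 ^ j) • g) = some x ∧ 2 ^ j * R < ‖x‖) := by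
    intro j
    induction j with
    | zero =>
      intro g hg
      simpa using hg
    | succ j ih =>
      intro g hg
      have e : (2 ^ (j + 1)) • g = (2 ^ j) • g + (2 ^ j) • g := by
        rw [pow_succ, mul_smul, two_smul, smul_add]
      rcases ih g hg with h | ⟨x, hx, hx1⟩
      · left
        rw [e, h, add_zero]
      · have hRx : R < ‖x‖ := by
          refine lt_of_le_of_lt ?_ hx1
          have : (1 : ℝ) ≤ 2 ^ j := one_le_pow₀ (by norm_num)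
          nlinarith
        obtain ⟨n1, n2, n3, n4⟩ := ha x hRx
        right
        refine ⟨_, by rw [e]; exact hXd _ x hx n1 n2 n3, ?_⟩
        refine lt_of_lt_of_le ?_ n4
        rw [pow_succ]
        linarith
  -- the chain is bounded by `R` from some index on
  have hsmall : ∃ m0, ‖c m0‖ ≤ R := by
    by_contra hcon
    push Not at hcon
    have h1 : ∀ m, 2 ^ m * ‖c m‖ ≤ ‖c 0‖ := by
      intro m
      induction m with
      | zero => simp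
      | succ m ih =>
        have h2 := (ha (c (m + 1)) (hcon (m + 1))).2.2.2
        rw [hcD m] at h2
        calc (2 : ℝ) ^ (m + 1) * ‖c (m + 1)‖ = 2 ^ m * (2 * ‖c (m + 1)‖) := by ring
          _ ≤ 2 ^ m * ‖c m‖ := by
            apply mul_le_mul_of_nonneg_left h2 (by positivity)
          _ ≤ ‖c 0‖ := ih
    obtain ⟨m, hm⟩ := pow_unbounded_of_one_lt ‖c 0‖ (one_lt_two)
    have h2 := h1 m
    have h3 := hcon m
    have h4 : (2 : ℝ) ^ m * 1 ≤ 2 ^ m * ‖c m‖ := mul_le_mul_of_nonneg_left (by linarith) (by positivity)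
    linarith
  obtain ⟨m0, hm0⟩ := hsmall
  have hle : ∀ m, ‖c (m0 + m)‖ ≤ R := by
    intro m
    induction m with
    | zero => exact hm0
    | succ m ih =>
      refine (hb (c (m0 + (m + 1))) (hce _).1 (hce _).2.1 (hce _).2.2 ?_).1
      have : DD e₁ e₂ e₃ (c (m0 + (m + 1))) = c (m0 + m) := hcD (m0 + m)
      rw [this]
      exact ih
  have hη' : ∀ m, η ≤ ‖(c (m0 + (m + 1)) - e₁) * (c (m0 + (m + 1)) - e₂) * (c (m0 + (m + 1)) - e₃)‖ := by
    intro m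
    refine (hb (c (m0 + (m + 1))) (hce _).1 (hce _).2.1 (hce _).2.2 ?_).2
    have : DD e₁ e₂ e₃ (c (m0 + (m + 1))) = c (m0 + m) := hcD (m0 + m)
    rw [this]
    exact hle m
  have hle1 : ∀ m, m0 < m → ‖c m‖ ≤ R := by
    intro m hm
    have : m = m0 + (m - m0) := by omega
    rw [this]
    exact hle _
  have hη1 : ∀ m, m0 < m → η ≤ ‖(c m - e₁) * (c m - e₂) * (c m - e₃)‖ := by
    intro m hm
    have : m = m0 + ((m - m0 - 1) + 1) := by omega
    rw [this]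
    exact hη' _
  -- close pairs give large sums or differences
  have hpair : ∀ m : ℕ, ∃ m' d : ℕ, m ≤ m' ∧ 1 ≤ d ∧ d ≤ N ∧
      ((P m' + P (m' + d) = 0 ∨ ∃ x, X (P m' + P (m' + d)) = some x ∧ R < ‖x‖) ∨
        (P m' - P (m' + d) = 0 ∨ ∃ x, X (P m' - P (m' + d)) = some x ∧ R < ‖x‖)) := by
    intro m
    obtain ⟨i, j, hij, hjN, hclose⟩ := hN (fun i => c (m0 + 1 + m + i)) (fun i => ⟨hcK _, hle1 _ (by omega)⟩)
    refine ⟨m0 + 1 + m + i, j - i, by omega, by omega, by omega, ?_⟩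
    have e : m0 + 1 + m + i + (j - i) = m0 + 1 + m + j := by omega
    rw [e]
    set a := m0 + 1 + m + i with haa
    set b := m0 + 1 + m + j with hbb
    by_cases hab : c a = c b
    · have h1 : X (P a) = X (P b) := by rw [hPX, hPX, hab]
      rcases hXe _ _ h1 with h2 | h2
      · right; left
        rw [h2, sub_self]
      · left; left
        rw [h2, neg_add_cancel]
    · obtain ⟨y, y', hy, hy', q1, q2⟩ := hXa (P a) (P b) (c a) (c b) (hPX a) (hPX b) hab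
      rcases hc (c a) (c b) y y' (hle1 a (by omega)) (hle1 b (by omega)) (hη1 a (by omega)) (hη1 b (by omega)) hab hclose hy hy'
        with h1 | h1
      · left; right
        exact ⟨_, q1, h1⟩
      · right; right
        exact ⟨_, q2, h1⟩
  -- pigeonhole
  have hpig : ∃ d : ℕ, 1 ≤ d ∧ d ≤ N ∧
      ((∀ m, ∃ m', m ≤ m' ∧ (P m' + P (m' + d) = 0 ∨ ∃ x, X (P m' + P (m' + d)) = some x ∧ R < ‖x‖)) ∨
        (∀ m, ∃ m', m ≤ m' ∧ (P m' - P (m' + d) = 0 ∨ ∃ x, X (P m' - P (m' + d)) = some x ∧ R < ‖x‖))) := by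
    by_contra hcon
    push Not at hcon
    have h1 : ∀ d, ∃ B : ℕ, 1 ≤ d → d ≤ N → ∀ m', B ≤ m' →
        ¬ ((P m' + P (m' + d) = 0 ∨ ∃ x, X (P m' + P (m' + d)) = some x ∧ R < ‖x‖) ∨
          (P m' - P (m' + d) = 0 ∨ ∃ x, X (P m' - P (m' + d)) = some x ∧ R < ‖x‖)) := by
      intro d
      by_cases hd : 1 ≤ d ∧ d ≤ N
      · obtain ⟨⟨B1, hB1⟩, ⟨B2, hB2⟩⟩ := hcon d hd.1 hd.2
        refine ⟨max B1 B2, fun _ _ m' hm' => ?_⟩
        have a1 := hB1 m' (le_trans (le_max_left _ _) hm')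
        have a2 := hB2 m' (le_trans (le_max_right _ _) hm')
        rintro ((h | ⟨x, hx, hx1⟩) | (h | ⟨x, hx, hx1⟩))
        · exact a1.1 h
        · exact absurd hx1 (not_lt.2 (a1.2 x hx))
        · exact a2.1 h
        · exact absurd hx1 (not_lt.2 (a2.2 x hx))
      · exact ⟨0, fun h1 h2 => absurd ⟨h1, h2⟩ hd⟩
    choose B hB using h1
    obtain ⟨m', d, hm', hd1, hd2, hh⟩ := hpair ((Finset.range (N + 1)).sup B)
    exact hB d hd1 hd2 m' (le_trans (Finset.le_sup (f := B) (Finset.mem_range.2 (by omega))) hm') hh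
  obtain ⟨d, hd1, hd2, hpig⟩ := hpig
  -- multiples
  have hmulP : ∀ j m, (2 ^ j) • P (m + j) = P m := by
    intro j
    induction j with
    | zero => intro m; simp
    | succ j ih =>
      intro m
      rw [pow_succ, mul_smul, two_smul, show m + (j + 1) = (m + j) + 1 by omega, hPd, ih]
  have hzero : ∀ (Q : ℕ → G), (∀ j, (2 ^ j) • Q j = Q 0) → (∀ m, ∃ m', m ≤ m' ∧ (Q m' = 0 ∨ ∃ x, X (Q m') = some x ∧ R < ‖x‖)) →
      Q 0 = 0 := by
    intro Q hQ hbigQ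
    by_contra hne
    obtain ⟨x0, hx0⟩ : ∃ x0, X (Q 0) = some x0 := by
      rcases h : X (Q 0) with _ | x
      · exact absurd ((hX0 _).1 h) hne
      · exact ⟨x, rfl⟩
    obtain ⟨m, hm⟩ := pow_unbounded_of_one_lt ‖x0‖ (one_lt_two)
    obtain ⟨m', hmm', hb'⟩ := hbigQ m
    rcases hbig m' _ hb' with h | ⟨x, hx, hx1⟩
    · rw [hQ] at h
      exact hne h
    · rw [hQ, hx0] at hx
      have e : x0 = x := Option.some_injective _ hx
      rw [← e] at hx1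
      have h3 : (2 : ℝ) ^ m ≤ 2 ^ m' := pow_le_pow_right₀ (by norm_num) hmm'
      have h4 : (2 : ℝ) ^ m' * 1 ≤ 2 ^ m' * R := mul_le_mul_of_nonneg_left hR (by positivity)
      linarith
  have hcd : c 0 = c d := by
    have hX0d : X (P 0) = X (P d) := by
      rcases hpig with h | h
      · have h1 := hzero (fun m => P m + P (m + d)) (by
          intro j
          show (2 ^ j) • (P j + P (j + d)) = P 0 + P (0 + d)
          rw [smul_add]
          have a1 := hmulP j 0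
          have a2 := hmulP j d
          rw [zero_add] at a1 ⊢
          rw [a1, add_comm j d, a2]) h
        have h2 : P 0 + P d = 0 := by simpa using h1
        rw [eq_neg_of_add_eq_zero_left h2, hXn]
      · have h1 := hzero (fun m => P m - P (m + d)) (by
          intro j
          show (2 ^ j) • (P j - P (j + d)) = P 0 - P (0 + d)
          rw [smul_sub]
          have a1 := hmulP j 0
          have a2 := hmulP j d
          rw [zero_add] at a1 ⊢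
          rw [a1, add_comm j d, a2]) h
        have h2 : P 0 - P d = 0 := by simpa using h1
        rw [sub_eq_zero.1 h2]
    rw [hPX, hPX] at hX0d
    exact Option.some_injective _ hX0d
  refine ⟨d, hd1, hd2, ?_⟩
  have hiter : ∀ n m : ℕ, (DD e₁ e₂ e₃)^[n] (c (m + n)) = c m := by
    intro n
    induction n with
    | zero => intro m; rfl
    | succ n ih =>
      intro m
      rw [Function.iterate_succ_apply, ← add_assoc, hcD, ih]
  have h1 := hiter d 0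
  rw [zero_add, ← hcd] at h1
  exact h1

theorem dd_polys (M : Type) [Field M] [CharZero M] (e₁ e₂ e₃ : M) (n : ℕ) :
    ∃ A B : M[X], A.Monic ∧ A.natDegree = 4 ^ n ∧ B.natDegree ≤ 4 ^ n - 1 ∧ B.coeff (4 ^ n - 1) = 4 ^ n ∧
      ∀ c : M, (∀ j, (DD e₁ e₂ e₃)^[j] c ≠ e₁ ∧ (DD e₁ e₂ e₃)^[j] c ≠ e₂ ∧ (DD e₁ e₂ e₃)^[j] c ≠ e₃) →
        B.eval c ≠ 0 ∧ (DD e₁ e₂ e₃)^[n] c = A.eval c / B.eval c := by
  induction n with
  | zero =>
    refine ⟨X, 1, monic_X, by simp, by simp, by simp, ?_⟩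
    intro c _
    simp
  | succ n ih =>
    obtain ⟨A, B, hA, hAd, hBd, hBc, hev⟩ := ih
    have hD : 1 ≤ 4 ^ n := Nat.one_le_pow _ _ (by norm_num)
    have hpow : 4 ^ (n + 1) = 4 * 4 ^ n := by ring
    set D := 4 ^ n with hDdef
    have hBdeg : B.degree < A.degree := by
      rw [Polynomial.degree_eq_natDegree hA.ne_zero, hAd]
      refine lt_of_le_of_lt degree_le_natDegree ?_
      exact_mod_cast (by omega : B.natDegree < D)
    -- the factors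
    have hfac : ∀ e : M, (A - C e * B).Monic ∧ (A - C e * B).natDegree = D := by
      intro e
      have h1 : (C e * B).degree < A.degree := by
        refine lt_of_le_of_lt ?_ hBdeg
        rw [← smul_eq_C_mul]
        exact degree_smul_le e B
      have h2 : (A - C e * B).Monic := hA.sub_of_left h1
      refine ⟨h2, ?_⟩
      have h3 := degree_sub_eq_left_of_degree_lt h1
      rw [← hAd]
      exact natDegree_eq_of_degree_eq h3
    obtain ⟨m1, d1⟩ := hfac e₁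
    obtain ⟨m2, d2⟩ := hfac e₂
    obtain ⟨m3, d3⟩ := hfac e₃
    set P := (A - C e₁ * B) * (A - C e₂ * B) * (A - C e₃ * B) with hP
    have hPm : P.Monic := (m1.mul m2).mul m3
    have hPd : P.natDegree = 3 * D := by
      rw [hP, (m1.mul m2).natDegree_mul m3, m1.natDegree_mul m2, d1, d2, d3]
      ring
    set F := B * P with hF
    have hFd : F.natDegree ≤ 4 * D - 1 := by
      refine le_trans natDegree_mul_le ?_
      rw [hPd]
      omega
    have hFc : F.coeff (4 * D - 1) = (4 : M) ^ n := by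
      have h1 := coeff_mul_add_eq_of_natDegree_le (f := B) (g := P) hBd (le_of_eq hPd)
      have h2 : D - 1 + 3 * D = 4 * D - 1 := by omega
      rw [h2] at h1
      rw [hF, h1, hBc]
      have h3 : P.coeff (3 * D) = 1 := by
        rw [← hPd]
        exact hPm
      rw [h3, mul_one]
    set Q := (A - C e₁ * B) ^ 2 - C ((e₁ - e₂) * (e₁ - e₃)) * B ^ 2 with hQ
    have hQmd : Q.Monic ∧ Q.natDegree = 2 * D := by
      have hm : ((A - C e₁ * B) ^ 2).Monic := m1.pow 2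
      have hd : ((A - C e₁ * B) ^ 2).natDegree = 2 * D := by
        rw [m1.natDegree_pow, d1]
      have h1 : (C ((e₁ - e₂) * (e₁ - e₃)) * B ^ 2).degree < ((A - C e₁ * B) ^ 2).degree := by
        rw [Polynomial.degree_eq_natDegree hm.ne_zero, hd]
        refine lt_of_le_of_lt degree_le_natDegree ?_
        have h2 : (C ((e₁ - e₂) * (e₁ - e₃)) * B ^ 2).natDegree < 2 * D := by
          refine lt_of_le_of_lt (natDegree_C_mul_le _ _) ?_
          refine lt_of_le_of_lt natDegree_pow_le ?_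
          omega
        exact_mod_cast h2
      refine ⟨hm.sub_of_left h1, ?_⟩
      rw [← hd]
      exact natDegree_eq_of_degree_eq (degree_sub_eq_left_of_degree_lt h1)
    obtain ⟨hQm, hQd⟩ := hQmd
    have hQ2m : (Q ^ 2).Monic := hQm.pow 2
    have hQ2d : (Q ^ 2).natDegree = 4 * D := by
      rw [hQm.natDegree_pow, hQd]
      ring
    have h4F : (C (4 : M) * F).natDegree ≤ 4 * D - 1 := (natDegree_C_mul_le _ _).trans hFd
    have hlow : (C e₁ * (C 4 * F)).degree < (Q ^ 2).degree := by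
      rw [Polynomial.degree_eq_natDegree hQ2m.ne_zero, hQ2d]
      refine lt_of_le_of_lt degree_le_natDegree ?_
      have h2 : (C e₁ * (C 4 * F)).natDegree < 4 * D := by
        refine lt_of_le_of_lt (natDegree_C_mul_le _ _) ?_
        omega
      exact_mod_cast h2
    refine ⟨C e₁ * (C 4 * F) + Q ^ 2, C 4 * F, ?_, ?_, ?_, ?_, ?_⟩
    · rw [add_comm]
      exact hQ2m.add_of_left hlow
    · rw [hpow, ← hQ2d]
      exact natDegree_eq_of_degree_eq (degree_add_eq_right_of_degree_lt hlow)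
    · rw [hpow]
      exact h4F
    · rw [hpow, coeff_C_mul, hFc]
      ring
    · intro c hc
      obtain ⟨hB0, hx⟩ := hev c hc
      obtain ⟨h1, h2, h3⟩ := hc n
      have hA1 : A.eval c - e₁ * B.eval c ≠ 0 := by
        intro h
        apply h1
        rw [hx, div_eq_iff hB0]
        exact sub_eq_zero.mp h
      have hA2 : A.eval c - e₂ * B.eval c ≠ 0 := by
        intro h
        apply h2
        rw [hx, div_eq_iff hB0]
        exact sub_eq_zero.mp h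
      have hA3 : A.eval c - e₃ * B.eval c ≠ 0 := by
        intro h
        apply h3
        rw [hx, div_eq_iff hB0]
        exact sub_eq_zero.mp h
      have hBev : (C 4 * F).eval c = 4 * (B.eval c * ((A.eval c - e₁ * B.eval c) *
          (A.eval c - e₂ * B.eval c) * (A.eval c - e₃ * B.eval c))) := by
        rw [hF, hP]
        simp only [eval_mul, eval_sub, eval_C]
      have h4 : (4 : M) ≠ 0 := by norm_num
      have hBne : (C 4 * F).eval c ≠ 0 := by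
        rw [hBev]
        exact mul_ne_zero h4 (mul_ne_zero hB0 (mul_ne_zero (mul_ne_zero hA1 hA2) hA3))
      refine ⟨hBne, ?_⟩
      have hAev : (C e₁ * (C 4 * F) + Q ^ 2).eval c = e₁ * (C 4 * F).eval c +
          ((A.eval c - e₁ * B.eval c) ^ 2 - (e₁ - e₂) * (e₁ - e₃) * B.eval c ^ 2) ^ 2 := by
        rw [hQ]
        simp only [eval_add, eval_mul, eval_sub, eval_C, eval_pow]
      rw [Function.iterate_succ_apply', hx, hAev, add_div, mul_div_assoc, div_self hBne, mul_one, hBev]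
      unfold DD
      set a := A.eval c with ha
      set b := B.eval c with hb
      have e1 : a / b - e₁ = (a - e₁ * b) / b := by field_simp
      have e2 : a / b - e₂ = (a - e₂ * b) / b := by field_simp
      have e3 : a / b - e₃ = (a - e₃ * b) / b := by field_simp
      rw [e1, e2, e3]
      congr 1
      have hden : 4 * ((a - e₁ * b) / b * ((a - e₂ * b) / b) * ((a - e₃ * b) / b)) ≠ 0 :=
        mul_ne_zero h4 (mul_ne_zero (mul_ne_zero (div_ne_zero hA1 hB0) (div_ne_zero hA2 hB0))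
          (div_ne_zero hA3 hB0))
      have hden2 : 4 * (b * ((a - e₁ * b) * (a - e₂ * b) * (a - e₃ * b))) ≠ 0 :=
        mul_ne_zero h4 (mul_ne_zero hB0 (mul_ne_zero (mul_ne_zero hA1 hA2) hA3))
      rw [div_eq_div_iff hden hden2]
      field_simp

theorem fixed_finite (M : Type) [Field M] [CharZero M] (e₁ e₂ e₃ : M) (n : ℕ) (hn : 1 ≤ n) :
    {c : M | (∀ j, (DD e₁ e₂ e₃)^[j] c ≠ e₁ ∧ (DD e₁ e₂ e₃)^[j] c ≠ e₂ ∧ (DD e₁ e₂ e₃)^[j] c ≠ e₃) ∧
      (DD e₁ e₂ e₃)^[n] c = c}.Finite := by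
  obtain ⟨A, B, hA, hAd, hBd, hBc, hev⟩ := dd_polys M e₁ e₂ e₃ n
  have hD : 1 ≤ 4 ^ n := Nat.one_le_pow _ _ (by norm_num)
  have hne : A - X * B ≠ 0 := by
    intro h
    have h1 : (A - X * B).coeff (4 ^ n) = 0 := by rw [h, coeff_zero]
    have h2 : (X * B).coeff (4 ^ n) = (4 : M) ^ n := by
      obtain ⟨m, hm⟩ : ∃ m, 4 ^ n = m + 1 := ⟨4 ^ n - 1, by omega⟩
      rw [hm, coeff_X_mul, ← hBc, hm]
      rfl
    have h3 : A.coeff (4 ^ n) = 1 := by
      rw [← hAd]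
      exact hA
    rw [coeff_sub, h2, h3] at h1
    have h4 : (4 : M) ^ n = 1 := (sub_eq_zero.mp h1).symm
    have h5 : ((4 ^ n : ℕ) : M) = ((1 : ℕ) : M) := by
      push_cast
      exact h4
    have h6 : 4 ^ n = 1 := Nat.cast_injective h5
    have h7 : 4 ^ 1 ≤ 4 ^ n := Nat.pow_le_pow_right (by norm_num) hn
    omega
  refine (Polynomial.finite_setOfPred_isRoot hne).subset ?_
  rintro c ⟨hc, hfix⟩
  obtain ⟨hB0, hx⟩ := hev c hc
  rw [hfix, eq_div_iff hB0] at hx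
  show (A - X * B).IsRoot c
  rw [IsRoot, eval_sub, eval_mul, eval_X, hx]
  ring

open Cardinal in
private theorem D5_lift (M P : Type) [Field M] [CharZero M] [Field P] [CharZero P] [IsAlgClosed P] (hM : #M ≤ ℵ₀)
    (hP : ℵ₀ < #P) : Nonempty (M →+* P) := by
  classical
  obtain ⟨B, hB⟩ := exists_isTranscendenceBasis ℚ M
  obtain ⟨C, hC⟩ := exists_isTranscendenceBasis ℚ P
  have hCc : #P = #C := IsAlgClosed.cardinal_eq_cardinal_transcendence_basis_of_aleph0_lt' _ hC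
    (by simp) hP
  have hBC : #B ≤ #C := by
    rw [← hCc]
    exact ((mk_set_le B).trans hM).trans hP.le
  obtain ⟨i⟩ := hBC
  have hy : AlgebraicIndependent ℚ (fun b : B => ((i b : C) : P)) := hC.1.comp i i.injective
  let R₀ := Algebra.adjoin ℚ (Set.range ((↑) : B → M))
  let g : R₀ →ₐ[ℚ] P := (MvPolynomial.aeval (fun b : B => ((i b : C) : P))).comp
    (hB.1.aevalEquiv.symm : R₀ →ₐ[ℚ] MvPolynomial B ℚ)
  have hg : Function.Injective g := by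
    have h1 : Function.Injective (MvPolynomial.aeval (R := ℚ) (fun b : B => ((i b : C) : P))) := hy
    exact h1.comp hB.1.aevalEquiv.symm.injective
  let _ : Algebra R₀ P := g.toRingHom.toAlgebra
  have hf : FaithfulSMul R₀ P := (faithfulSMul_iff_algebraMap_injective R₀ P).2 hg
  have halg : Algebra.IsAlgebraic R₀ M := hB.isAlgebraic
  exact ⟨(IsAlgClosed.lift : M →ₐ[R₀] P).toRingHom⟩

open Cardinal in
theorem exists_emb (M : Type) [Field M] [CharZero M] (h : (⊤ : IntermediateField ℚ M).FG) :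
    ∃ (σ : M →+* PadicAlgCl 2) (K : IntermediateField ℚ_[2] (PadicAlgCl 2)), FiniteDimensional ℚ_[2] K ∧ ∀ x, σ x ∈ K := by
  obtain ⟨S, hS⟩ := h
  have hM : #M ≤ ℵ₀ := by
    have h1 : #(IntermediateField.adjoin ℚ (S : Set M)) ≤ max (max #ℚ #(S : Set M)) ℵ₀ :=
      IntermediateField.cardinalMk_adjoin_le ℚ (S : Set M)
    rw [hS] at h1
    have h2 : #M = #(⊤ : IntermediateField ℚ M) := (mk_congr IntermediateField.topEquiv.toEquiv).symm
    rw [h2]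
    refine h1.trans (max_le (max_le (by simp) ?_) le_rfl)
    exact (lt_aleph0_of_finite _).le
  have hP : ℵ₀ < #(PadicAlgCl 2) := by
    have h1 : 𝔠 ≤ #ℚ_[2] := continuum_le_cardinal_of_nontriviallyNormedField ℚ_[2]
    have h2 : #ℚ_[2] ≤ #(PadicAlgCl 2) := mk_le_of_injective (algebraMap ℚ_[2] (PadicAlgCl 2)).injective
    exact aleph0_lt_continuum.trans_le (h1.trans h2)
  have hc : CharZero (PadicAlgCl 2) := inferInstance
  obtain ⟨σ⟩ := D5_lift M (PadicAlgCl 2) hM hP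
  have hfin : FiniteDimensional ℚ_[2] (IntermediateField.adjoin ℚ_[2] (σ '' (S : Set M))) := by
    have : Finite (σ '' (S : Set M)) := (S.finite_toSet.image σ).to_subtype
    exact IntermediateField.finiteDimensional_adjoin fun x _ => (Algebra.IsAlgebraic.isAlgebraic x).isIntegral
  refine ⟨σ, IntermediateField.adjoin ℚ_[2] (σ '' (S : Set M)), hfin, fun x => ?_⟩
  have hx : x ∈ IntermediateField.adjoin ℚ (S : Set M) := by
    rw [hS]
    exact IntermediateField.mem_top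
  induction hx using IntermediateField.adjoin_induction with
  | mem z hz => exact IntermediateField.subset_adjoin _ _ ⟨z, hz, rfl⟩
  | algebraMap q =>
    have h1 : σ (algebraMap ℚ M q) = algebraMap ℚ_[2] (PadicAlgCl 2) (algebraMap ℚ ℚ_[2] q) := by
      rw [eq_ratCast, map_ratCast, eq_ratCast, map_ratCast]
    rw [h1]
    exact IntermediateField.algebraMap_mem _ _
  | add a b _ _ ha hb => rw [map_add]; exact add_mem ha hb
  | inv a _ ha => rw [map_inv₀]; exact inv_mem ha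
  | mul a b _ _ ha hb => rw [map_mul]; exact mul_mem ha hb

theorem tot_bdd (K : IntermediateField ℚ_[2] (PadicAlgCl 2)) (h : FiniteDimensional ℚ_[2] K) : TotBdd (K : Set (PadicAlgCl 2)) := by
  intro R ρ hρ
  let S : Submodule ℚ_[2] (PadicAlgCl 2) := Subalgebra.toSubmodule K.toSubalgebra
  have hfd : FiniteDimensional ℚ_[2] S := h
  have hprop : ProperSpace S := FiniteDimensional.proper ℚ_[2] S
  have hcomp : IsCompact (Metric.closedBall (0 : S) R) := isCompact_closedBall _ _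
  obtain ⟨t, _, htf, hcov⟩ := finite_cover_balls_of_compact hcomp (half_pos hρ)
  refine ⟨htf.toFinset.card, fun u hu => ?_⟩
  have hmem : ∀ i, u i ∈ S := fun i => (hu i).1
  have hball : ∀ i, ∃ c ∈ t, dist (⟨u i, hmem i⟩ : S) c < ρ / 2 := by
    intro i
    have h1 : (⟨u i, hmem i⟩ : S) ∈ Metric.closedBall (0 : S) R := by
      rw [mem_closedBall_zero_iff]
      exact (hu i).2
    have h2 := hcov h1
    simp only [Set.mem_iUnion, Metric.mem_ball, exists_prop] at h2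
    exact h2
  choose c hct hcd using hball
  obtain ⟨i, hi, j, hj, hij, hc⟩ := Finset.exists_ne_map_eq_of_card_lt_of_maps_to
    (s := Finset.range (htf.toFinset.card + 1)) (t := htf.toFinset) (f := c) (by simp)
    (fun i _ => by simpa using hct i)
  have key : ∀ a b : ℕ, c a = c b → ‖u a - u b‖ ≤ ρ := by
    intro a b hab
    have h3 : dist (⟨u a, hmem a⟩ : S) ⟨u b, hmem b⟩ < ρ := by
      calc dist (⟨u a, hmem a⟩ : S) ⟨u b, hmem b⟩ ≤ dist (⟨u a, hmem a⟩ : S) (c a) + dist (c a) (⟨u b, hmem b⟩ : S) :=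
            dist_triangle _ _ _
        _ < ρ / 2 + ρ / 2 := by
            have h4 := hcd a
            have h5 := hcd b
            rw [← hab, dist_comm] at h5
            linarith
        _ = ρ := by ring
    have h6 : dist (⟨u a, hmem a⟩ : S) ⟨u b, hmem b⟩ = ‖u a - u b‖ := by
      rw [dist_eq_norm]
      rfl
    rw [h6] at h3
    exact h3.le
  rw [Finset.mem_range] at hi hj
  rcases lt_or_gt_of_ne hij with hlt | hgt
  · exact ⟨i, j, hlt, by omega, key i j hc⟩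
  · exact ⟨j, i, hgt, by omega, key j i hc.symm⟩

theorem map_DD {M L : Type} [Field M] [Field L] (σ : M →+* L) (a b c x : M) : σ (DD a b c x) = DD (σ a) (σ b) (σ c) (σ x) := by
  unfold DD
  simp only [map_add, map_div₀, map_pow, map_sub, map_mul, map_ofNat]

theorem map_DD_iter {M L : Type} [Field M] [Field L] (σ : M →+* L) (a b c x : M) (n : ℕ) :
    σ ((DD a b c)^[n] x) = (DD (σ a) (σ b) (σ c))^[n] (σ x) := by
  induction n with
  | zero => rfl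
  | succ n ih => rw [Function.iterate_succ_apply', Function.iterate_succ_apply', map_DD, ih]

private theorem d6_four : ‖(4 : PadicAlgCl 2)‖ ≤ 1 / 4 := by
  have h1 : ‖((2 : ℕ) : PadicAlgCl 2)‖ = 1 / 2 := by
    have h := PadicAlgCl.norm_extends 2 ((2 : ℕ) : ℚ_[2])
    rw [Padic.norm_p] at h
    have e : ((2 : ℕ) : PadicAlgCl 2) = algebraMap ℚ_[2] (PadicAlgCl 2) ((2 : ℕ) : ℚ_[2]) := (map_natCast _ _).symm
    rw [e, h]
    norm_num
  have h2 : (4 : PadicAlgCl 2) = ((2 : ℕ) : PadicAlgCl 2) * ((2 : ℕ) : PadicAlgCl 2) := by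
    push_cast
    norm_num
  rw [h2, norm_mul, h1]
  norm_num

theorem chain_fg (M : Type) [Field M] [CharZero M] (h : (⊤ : IntermediateField ℚ M).FG) (e₁ e₂ e₃ : M) (h12 : e₁ ≠ e₂)
    (h13 : e₁ ≠ e₃) (h23 : e₂ ≠ e₃) :
    ∃ N : ℕ, ∀ c : ℕ → M, (∀ m, c m ≠ e₁ ∧ c m ≠ e₂ ∧ c m ≠ e₃) → (∀ m, DD e₁ e₂ e₃ (c (m + 1)) = c m) →
      ∃ d : ℕ, 1 ≤ d ∧ d ≤ N ∧ (DD e₁ e₂ e₃)^[d] (c 0) = c 0 := by
  obtain ⟨σ, K, hfin, hσ⟩ := exists_emb M h
  have inj := σ.injective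
  obtain ⟨N, hN⟩ := chain_bound (PadicAlgCl 2) two_ne_zero d6_four (K : Set (PadicAlgCl 2)) (tot_bdd K hfin) (σ e₁) (σ e₂) (σ e₃)
    (inj.ne h12) (inj.ne h13) (inj.ne h23)
  refine ⟨N, fun c hc hD => ?_⟩
  obtain ⟨d, hd1, hd2, hd⟩ := hN (fun m => σ (c m)) (fun m => hσ _)
    (fun m => ⟨inj.ne (hc m).1, inj.ne (hc m).2.1, inj.ne (hc m).2.2⟩) (fun m => by rw [← map_DD, hD])
  refine ⟨d, hd1, hd2, inj ?_⟩
  rw [map_DD_iter]
  exact hd

theorem periodic_fg (M : Type) [Field M] [CharZero M] (h : (⊤ : IntermediateField ℚ M).FG) (e₁ e₂ e₃ : M) (h12 : e₁ ≠ e₂)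
    (h13 : e₁ ≠ e₃) (h23 : e₂ ≠ e₃) : {c : M | ∃ n : ℕ, 1 ≤ n ∧ (DD e₁ e₂ e₃)^[n] c = c}.Finite := by
  obtain ⟨N, hN⟩ := chain_fg M h e₁ e₂ e₃ h12 h13 h23
  have hU : (⋃ d ∈ Finset.Icc 1 N,
      {c : M | (∀ j, (DD e₁ e₂ e₃)^[j] c ≠ e₁ ∧ (DD e₁ e₂ e₃)^[j] c ≠ e₂ ∧ (DD e₁ e₂ e₃)^[j] c ≠ e₃) ∧
        (DD e₁ e₂ e₃)^[d] c = c}).Finite :=
    Set.Finite.biUnion (Finset.finite_toSet _) fun d hd => fixed_finite M e₁ e₂ e₃ d (Finset.mem_Icc.1 hd).1
  refine (hU.union (Set.finite_singleton e₁)).subset ?_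
  rintro c ⟨n, hn, hc⟩
  by_cases hroot : ∃ j : ℕ, (DD e₁ e₂ e₃)^[j] c = e₁ ∨ (DD e₁ e₂ e₃)^[j] c = e₂ ∨
      (DD e₁ e₂ e₃)^[j] c = e₃
  · right
    obtain ⟨j, hj⟩ := hroot
    have h1 : (DD e₁ e₂ e₃)^[j + 1] c = e₁ := by
      rw [Function.iterate_succ_apply']
      exact DD_root e₁ e₂ e₃ _ hj
    have h2 : (DD e₁ e₂ e₃)^[n * (j + 1)] c = c := iterate_mul_fixed _ c n hc (j + 1)
    have h3 : n * (j + 1) = (n * (j + 1) - (j + 1)) + (j + 1) := by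
      have : j + 1 ≤ n * (j + 1) := Nat.le_mul_of_pos_left _ hn
      omega
    rw [h3, Function.iterate_add_apply, h1, DD_iter_e1] at h2
    exact h2.symm
  · left
    have hroot' : ∀ j : ℕ, (DD e₁ e₂ e₃)^[j] c ≠ e₁ ∧ (DD e₁ e₂ e₃)^[j] c ≠ e₂ ∧
        (DD e₁ e₂ e₃)^[j] c ≠ e₃ := by
      intro j
      refine ⟨fun h => hroot ⟨j, Or.inl h⟩, fun h => hroot ⟨j, Or.inr (Or.inl h)⟩,
        fun h => hroot ⟨j, Or.inr (Or.inr h)⟩⟩
    obtain ⟨d, hd1, hd2, hd⟩ := hN (fun m => (DD e₁ e₂ e₃)^[(n - 1) * m] c) (fun m => hroot' _) (by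
      intro m
      show DD e₁ e₂ e₃ ((DD e₁ e₂ e₃)^[(n - 1) * (m + 1)] c) = (DD e₁ e₂ e₃)^[(n - 1) * m] c
      rw [← Function.iterate_succ_apply' (DD e₁ e₂ e₃)]
      have e : ((n - 1) * (m + 1)).succ = (n - 1) * m + n := by
        rw [mul_add, mul_one, Nat.succ_eq_add_one, add_assoc, Nat.sub_add_cancel hn]
      rw [e, Function.iterate_add_apply, hc])
    refine Set.mem_biUnion (Finset.mem_coe.2 (Finset.mem_Icc.2 ⟨hd1, hd2⟩)) ⟨hroot', ?_⟩
    simpa using hd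

end BSC
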