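import Pool.Agent.Lib_MP_49ddc8.ExDefs

/-!
[BS-S1] `ext_place`: the image `K.O → Ω` of `O` is a local subring of `Ω` (`LocalSubring.map (algebraMap K Ω) O.toLocalSubring`), dominated by a valuation ring `W` (`LocalSubring.exists_le_valuationSubring`).  `O ⊆ W`.  If `x ∉ O` then `x⁻¹ ∈ O` is not a unit of `O`,
so (domination) not a unit of `W`, so `x ∉ W`.  (Same proof as `BSC.ext_val` in `Loc.lean`.)

[BS-S2] `exists_max`: Zorn (`zorn_le_nonempty₀` or `zorn_le₀`) for the set of `M` with `RK κ W M`; the union of a nonempty chain is again an intermediate field (`sSup`, `IntermediateField.mem_sSup_of_directed` or so), and `RK` is a condition on single elements.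
-/

set_option autoImplicit false

namespace BSC

theorem ext_place {K Ω : Type} [Field K] [Field Ω] [Algebra K Ω] (O : ValuationSubring K) :
    ∃ W : ValuationSubring Ω, W.comap (algebraMap K Ω) = O := by
  obtain ⟨V, hle, hloc⟩ := (LocalSubring.map (algebraMap K Ω) O.toLocalSubring).exists_le_valuationSubring
  have hinj : Function.Injective (algebraMap K Ω) := (algebraMap K Ω).injective
  have hmem : ∀ z : K, z ∈ O → algebraMap K Ω z ∈ V := by
    intro z hz
    exact hle ⟨z, hz, rfl⟩
  refine ⟨V, SetLike.ext fun z => ⟨fun hz' => ?_, fun hz => hmem z hz⟩⟩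
  have hz : algebraMap K Ω z ∈ V := hz'
  by_contra hzO
  have hz0 : z ≠ 0 := by
    rintro rfl
    exact hzO O.zero_mem
  have hinv : z⁻¹ ∈ O := (O.mem_or_inv_mem z).resolve_left hzO
  have hinvA : algebraMap K Ω z⁻¹ ∈ (LocalSubring.map (algebraMap K Ω) O.toLocalSubring).toSubring := ⟨z⁻¹, hinv, rfl⟩
  have hu : IsUnit (Subring.inclusion hle ⟨algebraMap K Ω z⁻¹, hinvA⟩) := by
    refine IsUnit.of_mul_eq_one ⟨algebraMap K Ω z, hz⟩ ?_
    apply Subtype.ext
    show algebraMap K Ω z⁻¹ * algebraMap K Ω z = 1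
    rw [← map_mul, inv_mul_cancel₀ hz0, map_one]
  have hu' := hloc.map_nonunit _ hu
  obtain ⟨b, hb⟩ := hu'.exists_right_inv
  obtain ⟨u, hu1, hu2⟩ := b.2
  have h1 : algebraMap K Ω z⁻¹ * algebraMap K Ω u = 1 := by
    have h0 := congrArg Subtype.val hb
    have h00 : algebraMap K Ω z⁻¹ * (b : Ω) = 1 := h0
    rwa [← hu2] at h00
  have h2 : z⁻¹ * u = 1 := by
    apply hinj
    rw [map_mul, h1, map_one]
  have h3 : u = z := by
    field_simp at h2
    exact h2
  exact hzO (h3 ▸ hu1)

theorem exists_max (κ : Type) {K Ω : Type} [Field κ] [Field K] [Field Ω] [Algebra κ Ω] [Algebra K Ω] (W : ValuationSubring Ω)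
    (h : RK κ W (⊥ : IntermediateField K Ω)) :
    ∃ M : IntermediateField K Ω, RK κ W M ∧ ∀ M' : IntermediateField K Ω, M ≤ M' → RK κ W M' → M' = M := by
  obtain ⟨M, -, hM1, hM2⟩ := zorn_le_nonempty₀ {M : IntermediateField K Ω | RK κ W M} (by
    intro c hc hch y hy
    have : Nonempty c := ⟨⟨y, hy⟩⟩
    have hdir : Directed (· ≤ ·) (fun M : c => (M : IntermediateField K Ω)) := hch.directedOn.directed_val
    refine ⟨⨆ M : c, (M : IntermediateField K Ω), ?_, fun z hz => le_iSup (fun M : c => (M : IntermediateField K Ω)) ⟨z, hz⟩⟩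
    intro x hx hxW
    rw [← SetLike.mem_coe, IntermediateField.coe_iSup_of_directed hdir, Set.mem_iUnion] at hx
    obtain ⟨M, hM⟩ := hx
    exact hc M.2 x hM hxW) (⊥ : IntermediateField K Ω) h
  exact ⟨M, hM1, fun M' hle h' => le_antisymm (hM2 h' hle) hle⟩

end BSC
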