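import Pool.Agent.Lib_MP_49ddc8.ExDefs

/-!
[BS-S3] `val_full`: write `|·| = W.valuation`.  (i) For `z ≠ 0` some `n ≥ 1` and `t ∈ M`, `t ≠ 0` have `|z|^n = |t|`: `z` is algebraic over `M` (`Algebra.IsAlgebraic K Ω`), `∑ aᵢ zⁱ = 0` with `aᵢ ∈ M` not all `0`; two different nonzero terms have equal
(maximal) value (otherwise the sum has the maximal value, not `0`), `|aᵢ zⁱ| = |aⱼ zʲ|`, `i < j`, `n = j - i`, `t = aᵢ/aⱼ`.  (ii) Take `n` minimal for `z`.  If `n = 1` done.  Let `ℓ` be a prime divisor of `n`, `y = z^(n/ℓ)`: `|y|^ℓ = |t|`, and `|y|^j ≠ |s|`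
for `0 < j < ℓ`, `s ∈ M` (by minimality of `n`).  Let `r ∈ Ω` with `r^ℓ = t` (`IsAlgClosed`); `|r|^ℓ = |y|^ℓ`, so `|r| = |y|`.
(iii) `RK κ W (M(r))`, `M(r) = (IntermediateField.adjoin M {r}).restrictScalars K`: every element of `M(r)` is `∑_{i<ℓ} aᵢ rⁱ` with `aᵢ ∈ M` (`r` is integral over `M`, root of `X^ℓ - t`; reduce modulo this monic polynomial).  For such an element `z'` of `W`: the nonzero terms have
pairwise different values (`|r|^(i-j) ∉ |M|`), so `|z'| = max |aᵢ rⁱ| ≤ 1`; for `i ≥ 1` moreover `|aᵢ rⁱ| ≠ 1`, so `< 1`; so `|z' - a₀| < 1`, `a₀ ∈ M ∩ W`, `|a₀ - c| < 1` for some `c ∈ κ`.  (iv) By maximality `r ∈ M`, contradiction to `|r|^1 = |y| ∉ |M|` (`1 < ℓ`).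
-/

set_option autoImplicit false

namespace BSC

/-- a sum whose nonzero terms have different values has the largest value of its terms -/
private theorem s3_dom {Ω : Type} [Field Ω] (W : ValuationSubring Ω) {ι : Type} (s : Finset ι) (x : ι → Ω)
    (hs : s.Nonempty) (hd : ∀ i ∈ s, ∀ j ∈ s, i ≠ j → x i ≠ 0 → x j ≠ 0 → W.valuation (x i) ≠ W.valuation (x j)) :
    ∃ i ∈ s, W.valuation (∑ j ∈ s, x j) = W.valuation (x i) ∧ ∀ j ∈ s, W.valuation (x j) ≤ W.valuation (x i) := by
  classical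
  obtain ⟨i, hi, hmax⟩ := s.exists_max_image (fun j => W.valuation (x j)) hs
  refine ⟨i, hi, ?_, hmax⟩
  by_cases h0 : x i = 0
  · rw [Finset.sum_eq_zero, h0]
    intro j hj
    have h1 := hmax j hj
    rw [h0, map_zero] at h1
    exact (Valuation.zero_iff _).1 (le_antisymm h1 zero_le)
  · have hv : W.valuation (x i) ≠ 0 := (Valuation.ne_zero_iff _).2 h0
    have h1 : W.valuation (∑ j ∈ s.erase i, x j) < W.valuation (x i) := by
      refine Valuation.map_sum_lt _ hv fun j hj => ?_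
      refine lt_of_le_of_ne (hmax j (Finset.mem_of_mem_erase hj)) ?_
      by_cases h2 : x j = 0
      · rw [h2, map_zero]
        exact hv.symm
      · exact hd j (Finset.mem_of_mem_erase hj) i hi (Finset.ne_of_mem_erase hj) h2 h0
    rw [← Finset.add_sum_erase s x hi, Valuation.map_add_eq_of_lt_left _ h1]

/-- two terms with the same value -/
private theorem s3_two {Ω : Type} [Field Ω] (W : ValuationSubring Ω) {K : Type} [Field K] [Algebra K Ω] (M : IntermediateField K Ω)
    {z a b : Ω} (hz : z ≠ 0) (ha : a ∈ M) (hb : b ∈ M) (ha0 : a ≠ 0) (hb0 : b ≠ 0) {i j : ℕ} (hij : i < j)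
    (h : W.valuation (a * z ^ i) = W.valuation (b * z ^ j)) :
    ∃ t ∈ M, t ≠ 0 ∧ W.valuation z ^ (j - i) = W.valuation t := by
  refine ⟨a / b, div_mem ha hb, div_ne_zero ha0 hb0, ?_⟩
  have hvz : W.valuation z ≠ 0 := (Valuation.ne_zero_iff _).2 hz
  have hvb : W.valuation b ≠ 0 := (Valuation.ne_zero_iff _).2 hb0
  rw [map_mul, map_mul, map_pow, map_pow] at h
  have e : W.valuation z ^ j = W.valuation z ^ (j - i) * W.valuation z ^ i := by
    rw [← pow_add]
    congr 1
    omega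
  rw [e, ← mul_assoc] at h
  have h2 := mul_right_cancel₀ (pow_ne_zero i hvz) h
  rw [map_div₀, h2, mul_comm, mul_div_cancel_right₀ _ hvb]

/-- (i) -/
private theorem s3_pow {K Ω : Type} [Field K] [Field Ω] [Algebra K Ω] [Algebra.IsAlgebraic K Ω] (W : ValuationSubring Ω)
    (M : IntermediateField K Ω) (z : Ω) (hz : z ≠ 0) :
    ∃ n : ℕ, 1 ≤ n ∧ ∃ t ∈ M, t ≠ 0 ∧ W.valuation z ^ n = W.valuation t := by
  obtain ⟨p, hp, hp0⟩ := Algebra.IsAlgebraic.isAlgebraic (R := K) z
  have hne : p.support.Nonempty := Polynomial.support_nonempty.2 hp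
  have hco : ∀ i, algebraMap K Ω (p.coeff i) ∈ M := fun i => M.algebraMap_mem _
  have hx0 : ∀ i ∈ p.support, algebraMap K Ω (p.coeff i) ≠ 0 := by
    intro i hi
    rw [Ne, map_eq_zero]
    exact Polynomial.mem_support_iff.1 hi
  have hex : ∃ i ∈ p.support, ∃ j ∈ p.support, i ≠ j ∧
      W.valuation (algebraMap K Ω (p.coeff i) * z ^ i) = W.valuation (algebraMap K Ω (p.coeff j) * z ^ j) := by
    by_contra hcon
    push Not at hcon
    obtain ⟨i, hi, h1, -⟩ := s3_dom W p.support (fun i => algebraMap K Ω (p.coeff i) * z ^ i) hne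
      (fun i hi j hj hij _ _ => hcon i hi j hj hij)
    have h2 : ∑ j ∈ p.support, algebraMap K Ω (p.coeff j) * z ^ j = 0 := by
      rw [Polynomial.aeval_def, Polynomial.eval₂_eq_sum, Polynomial.sum_def] at hp0
      exact hp0
    rw [h2, map_zero] at h1
    exact mul_ne_zero (hx0 i hi) (pow_ne_zero i hz) ((Valuation.zero_iff _).1 h1.symm)
  obtain ⟨i, hi, j, hj, hij, h⟩ := hex
  rcases lt_or_gt_of_ne hij with h1 | h1
  · exact ⟨j - i, by omega, s3_two W M hz (hco i) (hco j) (hx0 i hi) (hx0 j hj) h1 h⟩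
  · exact ⟨i - j, by omega, s3_two W M hz (hco j) (hco i) (hx0 j hj) (hx0 i hi) h1 h.symm⟩

/-- the elements of `M(r)`, `r ^ l = t ∈ M` -/
private theorem s3_mem {K Ω : Type} [Field K] [Field Ω] [Algebra K Ω] (M : IntermediateField K Ω) (r t : Ω) (ht : t ∈ M)
    (l : ℕ) (hl : 1 < l) (hr : r ^ l = t) (z : Ω) (hz : z ∈ IntermediateField.adjoin M {r}) :
    ∃ a : ℕ → Ω, (∀ i, a i ∈ M) ∧ z = ∑ i ∈ Finset.range l, a i * r ^ i := by
  let q : Polynomial M := Polynomial.X ^ l - Polynomial.C ⟨t, ht⟩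
  have hq : q.Monic := Polynomial.monic_X_pow_sub_C _ (by omega)
  have hqd : q.natDegree = l := Polynomial.natDegree_X_pow_sub_C
  have hqr : Polynomial.aeval r q = 0 := by
    show Polynomial.aeval r (Polynomial.X ^ l - Polynomial.C ⟨t, ht⟩ : Polynomial M) = 0
    rw [map_sub, map_pow, Polynomial.aeval_X, Polynomial.aeval_C, hr]
    exact sub_self t
  have hint : IsIntegral M r := ⟨q, hq, hqr⟩
  have hz' : z ∈ Algebra.adjoin M {r} := by
    rw [← IntermediateField.adjoin_simple_toSubalgebra_of_isAlgebraic hint.isAlgebraic]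
    exact hz
  rw [Algebra.adjoin_singleton_eq_range_aeval] at hz'
  obtain ⟨p, hp⟩ := hz'
  have hp' : Polynomial.aeval r p = z := hp
  have hdeg : (p %ₘ q).natDegree < l := by
    rw [← hqd]
    refine Polynomial.natDegree_modByMonic_lt p hq ?_
    intro h
    rw [h, Polynomial.natDegree_one] at hqd
    omega
  refine ⟨fun i => ((p %ₘ q).coeff i : Ω), fun i => ((p %ₘ q).coeff i).2, ?_⟩
  rw [← hp', ← Polynomial.aeval_modByMonic_eq_self_of_root hqr, Polynomial.aeval_eq_sum_range' hdeg]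
  rfl

theorem val_full (κ : Type) {K Ω : Type} [Field κ] [Field K] [Field Ω] [IsAlgClosed Ω] [Algebra κ Ω] [Algebra K Ω]
    [Algebra.IsAlgebraic K Ω] (W : ValuationSubring Ω) (M : IntermediateField K Ω) (hM : RK κ W M)
    (hmax : ∀ M' : IntermediateField K Ω, M ≤ M' → RK κ W M' → M' = M) (z : Ω) (hz : z ≠ 0) :
    ∃ t ∈ M, t ≠ 0 ∧ W.valuation z = W.valuation t := by
  classical
  have hex := s3_pow W M z hz
  have hmin : ∀ m : ℕ, 1 ≤ m → m < Nat.find hex → ∀ s ∈ M, s ≠ 0 → W.valuation z ^ m ≠ W.valuation s := by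
    intro m hm hm' s hs hs0 h
    exact Nat.find_min hex hm' ⟨hm, s, hs, hs0, h⟩
  obtain ⟨hn1, t, htM, ht0, htv⟩ := Nat.find_spec hex
  set n := Nat.find hex with hn
  rcases Nat.lt_or_ge 1 n with hn2 | hn2
  swap
  · have h1 : n = 1 := by omega
    rw [h1, pow_one] at htv
    exact ⟨t, htM, ht0, htv⟩
  exfalso
  -- a prime divisor
  set l := n.minFac with hl
  have hlp : l.Prime := Nat.minFac_prime (by omega)
  obtain ⟨m, hm⟩ : l ∣ n := Nat.minFac_dvd n
  have hl1 : 1 < l := hlp.one_lt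
  have hm0 : 0 < m := by
    rcases Nat.eq_zero_or_pos m with h | h
    · rw [h, mul_zero] at hm
      omega
    · exact h
  have hy : ∀ j : ℕ, 1 ≤ j → j < l → ∀ s ∈ M, s ≠ 0 → (W.valuation z ^ m) ^ j ≠ W.valuation s := by
    intro j hj hjl s hs hs0
    rw [← pow_mul]
    refine hmin (m * j) (Nat.mul_pos hm0 hj) ?_ s hs hs0
    rw [hm, mul_comm l m]
    exact Nat.mul_lt_mul_of_pos_left hjl hm0
  obtain ⟨r, hr⟩ := IsAlgClosed.exists_pow_nat_eq t (show 0 < l by omega)
  have hr0 : r ≠ 0 := by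
    rintro rfl
    rw [zero_pow (by omega)] at hr
    exact ht0 hr.symm
  have hrv : W.valuation r = W.valuation z ^ m := by
    have h1 : W.valuation r ^ l = (W.valuation z ^ m) ^ l := by
      rw [← map_pow, hr, ← pow_mul, mul_comm m l, ← hm, htv]
    exact (pow_left_inj₀ zero_le zero_le (by omega)).1 h1
  have hrj : ∀ j : ℕ, 1 ≤ j → j < l → ∀ s ∈ M, s ≠ 0 → W.valuation r ^ j ≠ W.valuation s := by
    intro j hj hjl s hs hs0
    rw [hrv]
    exact hy j hj hjl s hs hs0
  let M' : IntermediateField K Ω := (IntermediateField.adjoin M {r}).restrictScalars K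
  have hMM' : M ≤ M' := by
    intro x hx
    exact (IntermediateField.adjoin M {r}).algebraMap_mem ⟨x, hx⟩
  have hrM' : r ∈ M' := IntermediateField.mem_adjoin_simple_self M r
  have hRK : RK κ W M' := by
    intro z' hz' hzW
    obtain ⟨a, haM, hza⟩ := s3_mem M r t htM l hl1 hr z' hz'
    obtain ⟨i0, hi0, h1, h2⟩ := s3_dom W (Finset.range l) (fun i => a i * r ^ i) ⟨0, Finset.mem_range.2 (by omega)⟩
      (by
        intro i hi j hj hij hxi hxj h
        have hi' := Finset.mem_range.1 hi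
        have hj' := Finset.mem_range.1 hj
        have hai : a i ≠ 0 := left_ne_zero_of_mul hxi
        have haj : a j ≠ 0 := left_ne_zero_of_mul hxj
        rcases lt_or_gt_of_ne hij with h3 | h3
        · obtain ⟨s, hs, hs0, hsv⟩ := s3_two W M hr0 (haM i) (haM j) hai haj h3 h
          exact hrj (j - i) (by omega) (by omega) s hs hs0 hsv
        · obtain ⟨s, hs, hs0, hsv⟩ := s3_two W M hr0 (haM j) (haM i) haj hai h3 h.symm
          exact hrj (i - j) (by omega) (by omega) s hs hs0 hsv)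
    have hle : ∀ i ∈ Finset.range l, W.valuation (a i * r ^ i) ≤ 1 := by
      intro i hi
      refine (h2 i hi).trans ?_
      have h3 : W.valuation (∑ j ∈ Finset.range l, a j * r ^ j) = W.valuation (a i0 * r ^ i0) := h1
      show W.valuation (a i0 * r ^ i0) ≤ 1
      rw [← h3, ← hza]
      exact (ValuationSubring.valuation_le_one_iff _ _).2 hzW
    have ha0 : W.valuation (a 0) ≤ 1 := by
      have := hle 0 (Finset.mem_range.2 (by omega))
      rwa [pow_zero, mul_one] at this
    have hlt : W.valuation (z' - a 0) < 1 := by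
      have e : z' - a 0 = ∑ i ∈ (Finset.range l).erase 0, a i * r ^ i := by
        have := Finset.add_sum_erase (Finset.range l) (fun i => a i * r ^ i) (Finset.mem_range.2 (show 0 < l by omega))
        rw [hza, ← this]
        simp
      rw [e]
      refine Valuation.map_sum_lt _ one_ne_zero fun i hi => ?_
      have hi1 := Finset.ne_of_mem_erase hi
      have hi2 := Finset.mem_of_mem_erase hi
      refine lt_of_le_of_ne (hle i hi2) ?_
      intro h3
      have hai : a i ≠ 0 := by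
        intro h4
        rw [h4, zero_mul, map_zero] at h3
        exact zero_ne_one h3
      have hvi : W.valuation (a i) ≠ 0 := (Valuation.ne_zero_iff _).2 hai
      apply hrj i (by omega) (Finset.mem_range.1 hi2) (a i)⁻¹ (inv_mem (haM i)) (inv_ne_zero hai)
      rw [map_mul, map_pow] at h3
      rw [map_inv₀]
      exact eq_inv_of_mul_eq_one_right h3
    obtain ⟨c, hc⟩ := hM (a 0) (haM 0) ((ValuationSubring.valuation_le_one_iff _ _).1 ha0)
    refine ⟨c, ?_⟩
    have e : z' - algebraMap κ Ω c = (z' - a 0) + (a 0 - algebraMap κ Ω c) := by ring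
    rw [e]
    exact lt_of_le_of_lt (Valuation.map_add _ _ _) (max_lt hlt hc)
  have hM' := hmax M' hMM' hRK
  have hrM : r ∈ M := by
    rw [← hM']
    exact hrM'
  exact hrj 1 le_rfl hl1 r hrM hr0 (pow_one _)

end BSC
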