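import Pool.Agent.Lib_MP_49ddc8.ExDefs

/-!
[BS-S4] `res_full`: `z ∈ W` is algebraic over `M`: `∑ aᵢ zⁱ = 0`, `aᵢ ∈ M` not all `0`; divide by a coefficient of maximal value: all `aᵢ ∈ W`, one is `1`.  Take `cᵢ ∈ κ` with `|aᵢ - cᵢ| < 1` (`RK`), `C(X) = ∑ cᵢ Xⁱ ∈ κ[X]` is not `0` (the coefficient with `aᵢ = 1` has `cᵢ ≠ 0`).
`|C(z)| < 1`.  `C` splits in `Ω` with roots algebraic over `κ`: `C(z) = c ∏ (z - ρⱼ)`, `c ∈ κ` nonzero is a unit of `W` (`hκ`), so `|z - ρⱼ| < 1` for some `j`.
-/

set_option autoImplicit false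

open Polynomial

namespace BSC

theorem res_full (κ : Type) {K Ω : Type} [Field κ] [Field K] [Field Ω] [IsAlgClosed Ω] [Algebra κ Ω] [Algebra K Ω]
    [Algebra.IsAlgebraic K Ω] (W : ValuationSubring Ω) (hκ : ∀ c : κ, algebraMap κ Ω c ∈ W) (M : IntermediateField K Ω)
    (hM : RK κ W M) (z : Ω) (hz : z ∈ W) : ∃ ρ : Ω, IsAlgebraic κ ρ ∧ W.valuation (z - ρ) < 1 := by
  classical
  have halg : Algebra.IsAlgebraic M Ω := Algebra.IsAlgebraic.tower_top (K := K) M
  obtain ⟨p, hp0, hpz⟩ := halg.isAlgebraic z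
  have hsupp : p.support.Nonempty := Polynomial.nonempty_support_iff.2 hp0
  obtain ⟨i₀, hi₀, hmax⟩ := Finset.exists_max_image p.support
    (fun i => W.valuation (algebraMap M Ω (p.coeff i))) hsupp
  have hb0 : p.coeff i₀ ≠ 0 := Polynomial.mem_support_iff.1 hi₀
  have hb1 : algebraMap M Ω (p.coeff i₀) ≠ 0 := by
    rw [Ne, map_eq_zero]
    exact hb0
  have hv0 : W.valuation (algebraMap M Ω (p.coeff i₀)) ≠ 0 := (Valuation.ne_zero_iff _).2 hb1
  set q : M[X] := C (p.coeff i₀)⁻¹ * p with hq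
  have hqz : aeval z q = 0 := by
    rw [hq, map_mul, hpz, mul_zero]
  have hqc : ∀ i, q.coeff i = (p.coeff i₀)⁻¹ * p.coeff i := fun i => by rw [hq, coeff_C_mul]
  have hq1 : q.coeff i₀ = 1 := by rw [hqc, inv_mul_cancel₀ hb0]
  have hqW : ∀ i, algebraMap M Ω (q.coeff i) ∈ W := by
    intro i
    rw [← ValuationSubring.valuation_le_one_iff, hqc, map_mul, map_inv₀, map_mul, map_inv₀]
    by_cases hi : p.coeff i = 0
    · rw [hi, map_zero, map_zero, mul_zero]
      exact zero_le_one
    · have h1 := hmax i (Polynomial.mem_support_iff.2 hi)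
      rw [mul_comm, ← div_eq_mul_inv]
      exact div_le_one_of_le₀ h1 zero_le'
  have hex : ∀ i, ∃ c : κ, W.valuation (algebraMap M Ω (q.coeff i) - algebraMap κ Ω c) < 1 :=
    fun i => hM _ (q.coeff i).2 (hqW i)
  choose c hc using hex
  -- the polynomial over `κ`
  set P : κ[X] := ∑ i ∈ Finset.range (q.natDegree + 1), C (c i) * X ^ i with hP
  have hq0 : i₀ ∈ Finset.range (q.natDegree + 1) := by
    rw [Finset.mem_range, Nat.lt_succ_iff]
    apply Polynomial.le_natDegree_of_ne_zero
    rw [hq1]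
    exact one_ne_zero
  have hPc : P.coeff i₀ = c i₀ := by
    rw [hP, finset_sum_coeff, Finset.sum_eq_single i₀]
    · rw [coeff_C_mul_X_pow, if_pos rfl]
    · intro j _ hj
      rw [coeff_C_mul_X_pow, if_neg (Ne.symm hj)]
    · intro h
      exact absurd hq0 h
  have hci₀ : c i₀ ≠ 0 := by
    intro h0
    have h1 := hc i₀
    rw [hq1, h0, map_one, map_zero, sub_zero, map_one] at h1
    exact lt_irrefl _ h1
  have hP0 : P ≠ 0 := by
    intro h0
    rw [h0, coeff_zero] at hPc
    exact hci₀ hPc.symm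
  have hzv : W.valuation z ≤ 1 := (ValuationSubring.valuation_le_one_iff W z).2 hz
  have hPz : W.valuation (aeval z P) < 1 := by
    have h1 : aeval z P = -∑ i ∈ Finset.range (q.natDegree + 1),
        (algebraMap M Ω (q.coeff i) - algebraMap κ Ω (c i)) * z ^ i := by
      have h2 := hqz
      rw [aeval_eq_sum_range] at h2
      simp only [Algebra.smul_def] at h2
      simp only [sub_mul, Finset.sum_sub_distrib]
      rw [h2, hP, map_sum]
      simp only [map_mul, aeval_C, map_pow, aeval_X, zero_sub, neg_neg]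
    rw [h1, Valuation.map_neg]
    apply Valuation.map_sum_lt _ one_ne_zero
    intro i _
    rw [map_mul, map_pow]
    exact mul_lt_one_of_lt_of_le (hc i) (pow_le_one' hzv i)
  -- factorisation
  have hsplit := IsAlgClosed.splits (P.map (algebraMap κ Ω))
  have hev : aeval z P = (P.map (algebraMap κ Ω)).leadingCoeff *
      (Multiset.map (fun a => z - a) (P.map (algebraMap κ Ω)).roots).prod := by
    rw [← hsplit.eval_eq_prod_roots z, eval_map_algebraMap]
  have hlc : W.valuation (P.map (algebraMap κ Ω)).leadingCoeff = 1 := by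
    rw [leadingCoeff_map]
    have hl0 : P.leadingCoeff ≠ 0 := leadingCoeff_ne_zero.2 hP0
    have h1 : W.valuation (algebraMap κ Ω P.leadingCoeff) ≤ 1 := (ValuationSubring.valuation_le_one_iff W _).2 (hκ _)
    have h2 : W.valuation (algebraMap κ Ω P.leadingCoeff⁻¹) ≤ 1 :=
      (ValuationSubring.valuation_le_one_iff W _).2 (hκ _)
    have h3 : W.valuation (algebraMap κ Ω P.leadingCoeff) * W.valuation (algebraMap κ Ω P.leadingCoeff⁻¹) = 1 := by
      rw [← map_mul, ← map_mul, mul_inv_cancel₀ hl0, map_one, map_one]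
    refine le_antisymm h1 ?_
    rw [← h3]
    exact mul_le_of_le_one_right' h2
  by_contra hcon
  push Not at hcon
  have hroot : ∀ a ∈ (P.map (algebraMap κ Ω)).roots, 1 ≤ W.valuation (z - a) := by
    intro a ha
    apply hcon
    refine ⟨P, hP0, ?_⟩
    have h1 := (mem_roots'.1 ha).2
    rw [IsRoot.def, eval_map_algebraMap] at h1
    exact h1
  have hge : ∀ s : Multiset Ω, (∀ a ∈ s, 1 ≤ W.valuation (z - a)) →
      1 ≤ W.valuation (Multiset.map (fun a => z - a) s).prod := by
    intro s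
    induction s using Multiset.induction_on with
    | empty => intro _; rw [Multiset.map_zero, Multiset.prod_zero, map_one]
    | cons a s ih =>
      intro h
      rw [Multiset.map_cons, Multiset.prod_cons, map_mul]
      exact one_le_mul (h a (Multiset.mem_cons_self a s)) (ih fun b hb => h b (Multiset.mem_cons_of_mem hb))
  rw [hev, map_mul, hlc, one_mul] at hPz
  exact absurd hPz (not_lt.2 (hge _ hroot))

end BSC
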