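import Pool.Agent.Lib_MP_49ddc8.ExG

/-!
[BS-S5b] `stab_surj`: `Ω/M` is Galois (characteristic 0, `Ω` algebraically closed and algebraic over `M`).  `A = W ∩ M` (as a subring `A` of `Ω`), `B = integralClosure A Ω`, `G = Ω ≃ₐ[M] Ω` (Krull topology: compact, totally disconnected) acts on `B` (define the `MulSemiringAction` by hand: `σ • b = ⟨σ b, _⟩`,
`σ b` is integral over `A` because `σ` fixes `A`); discrete topology on `B`, `ContinuousSMul G B` (stabilisers are open, `stabilizer_isOpen`/`continuousSMul_iff_stabilizer_isOpen` or by hand).  `Algebra.IsInvariant A B G`: a fixed element of `B` lies in `M` (Galois) and in `W` (integral over `A ⊆ W`), so in `A`.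
`Q = {b ∈ B : |b| < 1}` (prime ideal, `B ⊆ W`), `P = Q.under A`.  The ring homomorphism `j : algebraicClosure κ Ω → B ⧸ Q` (an element algebraic over `κ` is integral over `κ ⊆ A`) is injective (field) and surjective (`hfull` and: `b - ρ ∈ Q`).  So `τ` gives `τ' = j τ j⁻¹ : B ⧸ Q ≃ₐ[A ⧸ P] B ⧸ Q`; it is linear over
`A ⧸ P` since every `a ∈ A` is congruent to some `c ∈ κ` (`hM`).  `Ideal.Quotient.stabilizerHom_surjective_of_profinite` gives `σ ∈ G`, `σ Q = Q`, inducing `τ'`.  For `x` algebraic over `κ`: `σ x` and `τ x` are algebraic over `κ` (`σ` fixes `κ ⊆ M`), and `|σ x - τ x| < 1`; a nonzero element algebraic over `κ` is a unit of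
`W`; so `σ x = τ x`.  `σ z ∈ W ↔ z ∈ W`: `stab_of_int` for `σ.restrictScalars K` and for its inverse (`hσ'` from `σ Q = Q`).
-/

set_option autoImplicit false

open Polynomial

namespace BSC

open scoped Pointwise in
/-- the stabiliser of a prime of the integral closure surjects onto the automorphisms of the residue ring -/
theorem stab_lift {M Ω : Type} [Field M] [Field Ω] [CharZero M] [IsAlgClosed Ω] [Algebra M Ω] [Algebra.IsAlgebraic M Ω]
    (A : Subring Ω) (hA : ∀ a ∈ A, ∃ m : M, algebraMap M Ω m = a)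
    (hA' : ∀ m : M, IsIntegral A (algebraMap M Ω m) → algebraMap M Ω m ∈ A)
    (Q : Ideal (integralClosure A Ω)) [Q.IsPrime]
    (τ : (integralClosure A Ω ⧸ Q) ≃+* (integralClosure A Ω ⧸ Q))
    (hτ : ∀ a : A, τ (Ideal.Quotient.mk Q (algebraMap A (integralClosure A Ω) a)) =
      Ideal.Quotient.mk Q (algebraMap A (integralClosure A Ω) a)) :
    ∃ σ : Ω ≃ₐ[M] Ω, ∀ b b' : integralClosure A Ω, σ (b : Ω) = (b' : Ω) →
      (b ∈ Q ↔ b' ∈ Q) ∧ τ (Ideal.Quotient.mk Q b) = Ideal.Quotient.mk Q b' := by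
  classical
  have : SMulCommClass (Ω ≃ₐ[M] Ω) A Ω := ⟨fun g a x => by
    obtain ⟨m, hm⟩ := hA a a.2
    show g ((a : Ω) * x) = (a : Ω) * g x
    rw [map_mul, ← hm, AlgEquiv.commutes]⟩
  let : TopologicalSpace (integralClosure A Ω) := ⊥
  have : DiscreteTopology (integralClosure A Ω) := ⟨rfl⟩
  have : IsAlgClosure M Ω := ⟨inferInstance, inferInstance⟩
  have : IsGalois M Ω := inferInstance
  have : ContinuousSMul (Ω ≃ₐ[M] Ω) (integralClosure A Ω) := by
    rw [continuousSMul_iff_stabilizer_isOpen]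
    intro x
    have h1 := stabilizer_isOpen_of_isIntegral (K := M) (x : Ω)
    have h2 : (MulAction.stabilizer (Ω ≃ₐ[M] Ω) x : Set (Ω ≃ₐ[M] Ω)) =
        (MulAction.stabilizer (Ω ≃ₐ[M] Ω) (x : Ω) : Set (Ω ≃ₐ[M] Ω)) := by
      ext g
      simp only [SetLike.mem_coe, MulAction.mem_stabilizer_iff]
      rw [Subtype.ext_iff, integralClosure.coe_smul]
    rw [h2]
    exact h1
  have : Algebra.IsInvariant A (integralClosure A Ω) (Ω ≃ₐ[M] Ω) := ⟨fun b hb => by
    have h1 : (b : Ω) ∈ (⊥ : IntermediateField M Ω) := by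
      rw [InfiniteGalois.mem_bot_iff_fixed]
      intro g
      have := congrArg (fun z : integralClosure A Ω => (z : Ω)) (hb g)
      exact this
    obtain ⟨m, hm⟩ := IntermediateField.mem_bot.mp h1
    have h2 : (b : Ω) ∈ A := by
      rw [← hm]
      apply hA'
      rw [hm]
      exact b.2
    exact ⟨⟨b, h2⟩, Subtype.ext rfl⟩⟩
  have hs := Ideal.Quotient.stabilizerHom_surjective_of_profinite (G := Ω ≃ₐ[M] Ω) (Q.under A) Q
  let τ' : (integralClosure A Ω ⧸ Q) ≃ₐ[A ⧸ Q.under A] (integralClosure A Ω ⧸ Q) :=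
    AlgEquiv.ofRingEquiv (f := τ) (fun a => by
      obtain ⟨a, rfl⟩ := Ideal.Quotient.mk_surjective a
      exact hτ a)
  obtain ⟨⟨σ, hσ⟩, hσ'⟩ := hs τ'
  refine ⟨σ, fun b b' hbb => ?_⟩
  have hb' : b' = σ • b := Subtype.ext (by rw [integralClosure.coe_smul]; exact hbb.symm)
  subst hb'
  constructor
  · have h3 := MulAction.mem_stabilizer_iff.mp hσ
    conv_rhs => rw [← h3]
    exact (Ideal.smul_mem_pointwise_smul_iff).symm
  · have h4 : τ' (Ideal.Quotient.mk Q b) = τ (Ideal.Quotient.mk Q b) := rfl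
    rw [← h4, ← hσ']
    rfl

theorem stab_surj (κ : Type) {K Ω : Type} [Field κ] [Field K] [Field Ω] [CharZero Ω] [IsAlgClosed Ω] [Algebra κ Ω] [Algebra K Ω]
    [Algebra κ K] [IsScalarTower κ K Ω] [Algebra.IsAlgebraic K Ω] (W : ValuationSubring Ω) (hκ : ∀ c : κ, algebraMap κ Ω c ∈ W)
    (M : IntermediateField K Ω) (hM : RK κ W M)
    (hfull : ∀ z ∈ W, ∃ ρ : Ω, IsAlgebraic κ ρ ∧ W.valuation (z - ρ) < 1)
    (τ : algebraicClosure κ Ω ≃ₐ[κ] algebraicClosure κ Ω) :
    ∃ σ : Ω ≃ₐ[K] Ω, (∀ m ∈ M, σ m = m) ∧ (∀ x : algebraicClosure κ Ω, σ (x : Ω) = ((τ x : algebraicClosure κ Ω) : Ω)) ∧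
      ∀ z, σ z ∈ W ↔ z ∈ W := by
  classical
  have : CharZero M := ⟨fun a b hab => by
    have : ((a : M) : Ω) = ((b : M) : Ω) := by rw [hab]
    simpa using this⟩
  have : Algebra.IsAlgebraic M Ω := Algebra.IsAlgebraic.tower_top (K := K) M
  set A : Subring Ω := W.toSubring ⊓ M.toSubfield.toSubring with hAdef
  have hAmem : ∀ a : Ω, a ∈ A ↔ a ∈ W ∧ a ∈ M := fun a => Iff.rfl
  -- integral elements of `W`
  have hint : ∀ y : Ω, IsIntegral A y → y ∈ W := by
    intro y hy
    have h1 : IsIntegral W y := by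
      obtain ⟨p, hp, hp0⟩ := hy
      refine ⟨p.map (Subring.inclusion (show A ≤ W.toSubring from inf_le_left)), hp.map _, ?_⟩
      rw [Polynomial.eval₂_map]
      exact hp0
    obtain ⟨w, hw⟩ := IsIntegrallyClosed.isIntegral_iff.mp h1
    rw [← hw]
    exact w.2
  have hκM : ∀ c : κ, algebraMap κ Ω c ∈ M := by
    intro c
    rw [IsScalarTower.algebraMap_apply κ K Ω]
    exact M.algebraMap_mem _
  have hκA : ∀ c : κ, algebraMap κ Ω c ∈ A := fun c => ⟨hκ c, hκM c⟩
  have halgint : ∀ x : Ω, IsAlgebraic κ x → IsIntegral A x := by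
    intro x hx
    obtain ⟨p, hp, hp0⟩ := hx.isIntegral
    refine ⟨p.map ((algebraMap κ Ω).codRestrict A hκA), hp.map _, ?_⟩
    rw [Polynomial.eval₂_map]
    exact hp0
  -- nonzero elements algebraic over `κ` are units
  have hunit : ∀ x : Ω, IsAlgebraic κ x → W.valuation x < 1 → x = 0 := by
    intro x hx hx1
    by_contra hx0
    have h1 : x⁻¹ ∈ W := hint _ (halgint _ hx.inv)
    have h2 : W.valuation x⁻¹ ≤ 1 := (W.valuation_le_one_iff _).mpr h1
    have h3 : W.valuation x * W.valuation x⁻¹ = 1 := by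
      rw [← map_mul, mul_inv_cancel₀ hx0, map_one]
    have h4 : W.valuation x * W.valuation x⁻¹ < 1 := mul_lt_one_of_lt_of_le hx1 h2
    exact absurd h3 h4.ne
  -- the prime ideal
  let ι : integralClosure A Ω →+* W :=
    { toFun := fun b => ⟨b, hint b b.2⟩
      map_one' := rfl
      map_mul' := fun _ _ => rfl
      map_zero' := rfl
      map_add' := fun _ _ => rfl }
  let Q : Ideal (integralClosure A Ω) := (IsLocalRing.maximalIdeal W).comap ι
  have : Q.IsPrime := Ideal.comap_isPrime ι _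
  have hQ : ∀ b : integralClosure A Ω, b ∈ Q ↔ W.valuation (b : Ω) < 1 := by
    intro b
    rw [Ideal.mem_comap]
    exact W.valuation_lt_one_iff _
  -- the residue field
  let i : algebraicClosure κ Ω →+* integralClosure A Ω :=
    { toFun := fun x => ⟨x, halgint x (mem_algebraicClosure_iff.mp x.2)⟩
      map_one' := rfl
      map_mul' := fun _ _ => rfl
      map_zero' := rfl
      map_add' := fun _ _ => rfl }
  let j : algebraicClosure κ Ω →+* (integralClosure A Ω ⧸ Q) := (Ideal.Quotient.mk Q).comp i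
  have hj : Function.Bijective j := by
    refine ⟨j.injective, ?_⟩
    intro z
    obtain ⟨b, rfl⟩ := Ideal.Quotient.mk_surjective z
    obtain ⟨ρ, hρ, hρ1⟩ := hfull b (hint b b.2)
    refine ⟨⟨ρ, mem_algebraicClosure_iff.mpr hρ⟩, ?_⟩
    show Ideal.Quotient.mk Q (i _) = Ideal.Quotient.mk Q b
    symm
    rw [Ideal.Quotient.eq, hQ]
    exact hρ1
  let e : algebraicClosure κ Ω ≃+* (integralClosure A Ω ⧸ Q) := RingEquiv.ofBijective j hj
  have he : ∀ x, e x = Ideal.Quotient.mk Q (i x) := fun x => rfl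
  let τ' : (integralClosure A Ω ⧸ Q) ≃+* (integralClosure A Ω ⧸ Q) := (e.symm.trans τ.toRingEquiv).trans e
  have hτ' : ∀ x, τ' (Ideal.Quotient.mk Q (i x)) = Ideal.Quotient.mk Q (i (τ x)) := by
    intro x
    show e (τ (e.symm (Ideal.Quotient.mk Q (i x)))) = _
    rw [← he, RingEquiv.symm_apply_apply, he]
  have hτ'' : ∀ a : A, τ' (Ideal.Quotient.mk Q (algebraMap A (integralClosure A Ω) a)) =
      Ideal.Quotient.mk Q (algebraMap A (integralClosure A Ω) a) := by
    intro a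
    obtain ⟨c, hc⟩ := hM a a.2.2 a.2.1
    have h1 : Ideal.Quotient.mk Q (algebraMap A (integralClosure A Ω) a) =
        Ideal.Quotient.mk Q (i (algebraMap κ _ c)) := by
      rw [Ideal.Quotient.eq, hQ]
      exact hc
    rw [h1, hτ', AlgEquiv.commutes]
  obtain ⟨σ, hσ⟩ := stab_lift (M := M) A (fun a ha => ⟨⟨a, ha.2⟩, rfl⟩)
    (fun m hm => ⟨hint _ hm, m.2⟩) Q τ' hτ''
  have hσint : ∀ y : Ω, IsIntegral A y → IsIntegral A (σ y) := by
    intro y hy
    obtain ⟨p, hp, hp0⟩ := hy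
    refine ⟨p, hp, ?_⟩
    have h1 := congrArg σ hp0
    rw [map_zero] at h1
    rw [← h1, ← AlgEquiv.coe_ringEquiv, ← RingEquiv.coe_toRingHom, Polynomial.hom_eval₂]
    congr 1
    ext a
    show (a : Ω) = σ (a : Ω)
    exact (σ.commutes (⟨a, a.2.2⟩ : M)).symm
  have hσsint : ∀ y : Ω, IsIntegral A y → IsIntegral A (σ.symm y) := by
    intro y hy
    obtain ⟨p, hp, hp0⟩ := hy
    refine ⟨p, hp, ?_⟩
    have h1 := congrArg σ.symm hp0
    rw [map_zero] at h1
    rw [← h1, ← AlgEquiv.coe_ringEquiv, ← RingEquiv.coe_toRingHom, Polynomial.hom_eval₂]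
    congr 1
    ext a
    show (a : Ω) = σ.symm (a : Ω)
    exact (σ.symm.commutes (⟨a, a.2.2⟩ : M)).symm
  have hfixM : ∀ m ∈ M, (σ.restrictScalars K) m = m := fun m hm => σ.commutes (⟨m, hm⟩ : M)
  have hfixM' : ∀ m ∈ M, (σ.restrictScalars K).symm m = m := fun m hm => σ.symm.commutes (⟨m, hm⟩ : M)
  have hfwd : ∀ y : Ω, IsIntegral A y → W.valuation y < 1 → W.valuation (σ y) < 1 := by
    intro y hy hy1
    have := (hσ ⟨y, hy⟩ ⟨σ y, hσint y hy⟩ rfl).1
    rw [hQ, hQ] at this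
    exact this.mp hy1
  have hbwd : ∀ y : Ω, IsIntegral A y → W.valuation y < 1 → W.valuation (σ.symm y) < 1 := by
    intro y hy hy1
    have := (hσ ⟨σ.symm y, hσsint y hy⟩ ⟨y, hy⟩ (σ.apply_symm_apply y)).1
    rw [hQ, hQ] at this
    exact this.mpr hy1
  refine ⟨σ.restrictScalars K, hfixM, ?_, ?_⟩
  · intro x
    have hx : IsAlgebraic κ (x : Ω) := mem_algebraicClosure_iff.mp x.2
    have h1 := (hσ (i x) ⟨σ x, hσint x (halgint x hx)⟩ rfl).2
    rw [hτ', Ideal.Quotient.eq, hQ] at h1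
    have h2 : W.valuation (((τ x : algebraicClosure κ Ω) : Ω) - σ (x : Ω)) < 1 := h1
    have h3 : IsAlgebraic κ (σ (x : Ω)) := by
      obtain ⟨p, hp, hp0⟩ := hx
      refine ⟨p, hp, ?_⟩
      have h4 := congrArg (σ.restrictScalars K) hp0
      rw [map_zero] at h4
      have h5 : (σ.restrictScalars K) (aeval (x : Ω) p) = aeval (σ (x : Ω)) p := by
        have h6 : (σ.restrictScalars K) (aeval (x : Ω) p) = ((σ.restrictScalars K).restrictScalars κ) (aeval (x : Ω) p) := rfl
        rw [h6]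
        rw [← Polynomial.aeval_algHom_apply]
        rfl
      rw [← h5, h4]
    have h4 : IsAlgebraic κ (((τ x : algebraicClosure κ Ω) : Ω) - σ (x : Ω)) :=
      IsAlgebraic.sub (mem_algebraicClosure_iff.mp (τ x).2) h3
    have h5 := hunit _ h4 h2
    exact (sub_eq_zero.mp h5).symm
  · intro z
    constructor
    · intro hz
      have := stab_of_int W M (σ.restrictScalars K).symm hfixM' (fun y hy hy1 => hfwd y hy hy1) _ hz
      rwa [AlgEquiv.symm_apply_apply] at this
    · intro hz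
      exact stab_of_int W M (σ.restrictScalars K) hfixM (fun y hy hy1 => hbwd y hy hy1) z hz

end BSC
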