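import Mathlib

/-!
# [BS-S*]  Every rational place has a section: definitions

`W` is a valuation ring of the algebraically closed field `Ω`, `κ ⊆ W` a field, `K ⊆ Ω` a field over which `Ω` is algebraic, `κ ⊆ K`.  Plan: `M` maximal among the fields between `K` and `Ω` in which every element of `W ∩ M` is congruent to an element of `κ`
(`RK`); then the value group of `M` is the one of `Ω` (`val_full`), `W` is congruent to the algebraic closure of `κ` (`res_full`), `Stab(W) ∩ Gal(Ω/M) → Gal(κbar/κ)` is surjective (`stab_surj`) and injective (`stab_inj`); its inverse is the section (`exists_section`).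
-/

set_option autoImplicit false

namespace BSC

/-- `M` has residue field `κ` with respect to `W` -/
def RK (κ : Type) {K Ω : Type} [Field κ] [Field K] [Field Ω] [Algebra κ Ω] [Algebra K Ω] (W : ValuationSubring Ω)
    (M : IntermediateField K Ω) : Prop :=
  ∀ z ∈ M, z ∈ W → ∃ c : κ, W.valuation (z - algebraMap κ Ω c) < 1

end BSC
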