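import Pool.Agent.Lib_MP_49ddc8.ExDefs

/-!
[BS-S6] `stab_inj`: suppose `σ z ≠ z`.  The orbit of `z` under the powers of `σ` is finite (`z` is algebraic over `K`, the `σⁱ z` are roots of its minimal polynomial), so `σⁿ z = z` for some `n ≥ 1`.  `T = ∑_{i<n} σⁱ z`, `σ T = T`, `y = z - T/n`: `∑_{i<n} σⁱ y = 0` and `y ≠ 0` (else
`z = T/n` is fixed).  `hval`: `|y| = |t|`, `t ∈ M`; `hres` for `y/t ∈ W`: `|y/t - ρ| < 1` with `ρ` algebraic over `κ`; `ρ ≠ 0` as `|y/t| = 1`, and `|ρ| = 1` (`halg` for `ρ` and `ρ⁻¹`).  So `y/(t ρ) = 1 + m`, `|m| < 1`.  `σ` fixes `t` and `ρ`: `0 = ∑ σⁱ (1 + m) = n + ∑ σⁱ m`; `|σⁱ m| < 1`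
(`W` is stable under `σ` and `σ⁻¹`, so `|σ m| < 1`: `m = 0` or `m⁻¹ ∉ W`), so `|n| < 1`; but `n ∈ κ` is a nonzero algebraic element, `|n| = 1`: contradiction.
-/

set_option autoImplicit false

namespace BSC

private theorem lt_one_iff_ExE {Ω : Type} [Field Ω] (W : ValuationSubring Ω) (x : Ω) :
    W.valuation x < 1 ↔ x = 0 ∨ x⁻¹ ∉ W := by
  by_cases hx : x = 0
  · subst hx
    simp
  · have hpos : 0 < W.valuation x := zero_lt_iff.2 ((Valuation.ne_zero_iff _).2 hx)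
    rw [← W.valuation_le_one_iff, map_inv₀, inv_le_one₀ hpos, not_le]
    exact ⟨Or.inr, fun h => h.resolve_left hx⟩

theorem stab_inj (κ : Type) {K Ω : Type} [Field κ] [Field K] [Field Ω] [CharZero Ω] [Algebra κ Ω] [Algebra K Ω]
    [Algebra.IsAlgebraic K Ω] (W : ValuationSubring Ω) (halg : ∀ ρ : Ω, IsAlgebraic κ ρ → ρ ∈ W)
    (M : IntermediateField K Ω)
    (hval : ∀ z : Ω, z ≠ 0 → ∃ t ∈ M, t ≠ 0 ∧ W.valuation z = W.valuation t)
    (hres : ∀ z ∈ W, ∃ ρ : Ω, IsAlgebraic κ ρ ∧ W.valuation (z - ρ) < 1)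
    (σ : Ω ≃ₐ[K] Ω) (hσM : ∀ m ∈ M, σ m = m) (hσκ : ∀ x : Ω, IsAlgebraic κ x → σ x = x) (hσW : ∀ z, σ z ∈ W ↔ z ∈ W) (z : Ω) :
    σ z = z := by
  classical
  by_contra hne
  -- finite orbit
  have hroot : ∀ i : ℕ, (σ ^ i) z ∈ (minpoly K z).rootSet Ω := by
    intro i
    rw [Polynomial.mem_rootSet]
    refine ⟨minpoly.ne_zero (Algebra.IsAlgebraic.isAlgebraic z).isIntegral, ?_⟩
    exact (Polynomial.aeval_algHom_apply ((σ ^ i : Ω ≃ₐ[K] Ω) : Ω →ₐ[K] Ω) z (minpoly K z)).trans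
      (by rw [minpoly.aeval, map_zero])
  obtain ⟨a, b, hab, hσab⟩ := (Polynomial.rootSet_finite (minpoly K z) Ω).exists_lt_map_eq_of_forall_mem hroot
  obtain ⟨n, rfl⟩ : ∃ n, b = a + n := ⟨b - a, by omega⟩
  have hn : 0 < n := by omega
  have hσn : (σ ^ n) z = z := by
    apply (σ ^ a).injective
    rw [← AlgEquiv.mul_apply, ← pow_add]
    exact hσab.symm
  have hn0 : (n : Ω) ≠ 0 := by exact_mod_cast hn.ne'
  obtain ⟨T, hT⟩ : ∃ T : Ω, T = ∑ i ∈ Finset.range n, (σ ^ i) z := ⟨_, rfl⟩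
  have hσT : σ T = T := by
    have h1 : σ T = ∑ i ∈ Finset.range n, (σ ^ (i + 1)) z := by
      rw [hT, map_sum]
      refine Finset.sum_congr rfl fun i _ => ?_
      rw [pow_succ', AlgEquiv.mul_apply]
    have h2 := Finset.sum_range_succ' (fun i => (σ ^ i) z) n
    have h3 := Finset.sum_range_succ (fun i => (σ ^ i) z) n
    rw [h1, hT]
    rw [h3, hσn] at h2
    have h4 : (σ ^ 0) z = z := rfl
    rw [h4] at h2
    exact (add_right_cancel h2).symm
  have hσTi : ∀ i : ℕ, (σ ^ i) T = T := by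
    intro i
    induction i with
    | zero => rfl
    | succ i ih => rw [pow_succ', AlgEquiv.mul_apply, ih, hσT]
  obtain ⟨y, hy⟩ : ∃ y : Ω, y = z - T / n := ⟨_, rfl⟩
  have hsumy : ∑ i ∈ Finset.range n, (σ ^ i) y = 0 := by
    have h1 : ∀ i ∈ Finset.range n, (σ ^ i) y = (σ ^ i) z - T / n := by
      intro i _
      rw [hy, map_sub, map_div₀, map_natCast, hσTi]
    rw [Finset.sum_congr rfl h1, Finset.sum_sub_distrib, ← hT, Finset.sum_const, Finset.card_range,
      nsmul_eq_mul, mul_div_cancel₀ _ hn0, sub_self]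
  have hy0 : y ≠ 0 := by
    intro h
    apply hne
    have h1 : z = T / n := by
      rw [hy] at h
      exact sub_eq_zero.1 h
    rw [h1, map_div₀, map_natCast, hσT]
  obtain ⟨t, htM, ht0, hvt⟩ := hval y hy0
  have hvt0 : W.valuation t ≠ 0 := (Valuation.ne_zero_iff _).2 ht0
  have hv1 : W.valuation (y / t) = 1 := by
    rw [map_div₀, hvt, div_self hvt0]
  have hyW : y / t ∈ W := (W.valuation_le_one_iff _).1 hv1.le
  obtain ⟨ρ, hρ, hρv⟩ := hres _ hyW
  have hρ0 : ρ ≠ 0 := by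
    rintro rfl
    rw [sub_zero, hv1] at hρv
    exact lt_irrefl _ hρv
  have hρinv : W.valuation ρ⁻¹ ≤ 1 := (W.valuation_le_one_iff _).2 (halg _ hρ.inv)
  obtain ⟨m, hm⟩ : ∃ m : Ω, m = (y / t - ρ) * ρ⁻¹ := ⟨_, rfl⟩
  have hmv : W.valuation m < 1 := by
    rw [hm, map_mul]
    calc W.valuation (y / t - ρ) * W.valuation ρ⁻¹ ≤ W.valuation (y / t - ρ) * 1 :=
          mul_le_mul_right hρinv _
      _ = W.valuation (y / t - ρ) := mul_one _
      _ < 1 := hρv
  have hym : y = t * ρ * (1 + m) := by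
    rw [hm]
    field_simp
    ring
  have hfixt : ∀ i : ℕ, (σ ^ i) t = t := by
    intro i
    induction i with
    | zero => rfl
    | succ i ih => rw [pow_succ', AlgEquiv.mul_apply, ih, hσM t htM]
  have hfixρ : ∀ i : ℕ, (σ ^ i) ρ = ρ := by
    intro i
    induction i with
    | zero => rfl
    | succ i ih => rw [pow_succ', AlgEquiv.mul_apply, ih, hσκ ρ hρ]
  have hσv : ∀ x : Ω, W.valuation x < 1 → W.valuation (σ x) < 1 := by
    intro x hx
    rw [lt_one_iff_ExE] at hx ⊢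
    rcases hx with hx | hx
    · left
      rw [hx, map_zero]
    · right
      rw [← map_inv₀, hσW]
      exact hx
  have hσvi : ∀ i : ℕ, W.valuation ((σ ^ i) m) < 1 := by
    intro i
    induction i with
    | zero => exact hmv
    | succ i ih =>
      rw [pow_succ', AlgEquiv.mul_apply]
      exact hσv _ ih
  have hsum : (n : Ω) + ∑ i ∈ Finset.range n, (σ ^ i) m = 0 := by
    have h1 : ∀ i ∈ Finset.range n, (σ ^ i) y = t * ρ * (1 + (σ ^ i) m) := by
      intro i _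
      rw [hym, map_mul, map_mul, map_add, map_one, hfixt, hfixρ]
    rw [Finset.sum_congr rfl h1, ← Finset.mul_sum] at hsumy
    have h2 := (mul_eq_zero.1 hsumy).resolve_left (mul_ne_zero ht0 hρ0)
    rw [Finset.sum_add_distrib, Finset.sum_const, Finset.card_range, nsmul_eq_mul, mul_one] at h2
    exact h2
  have hvs : W.valuation (∑ i ∈ Finset.range n, (σ ^ i) m) < 1 :=
    Valuation.map_sum_lt _ one_ne_zero fun i _ => hσvi i
  have hvn : W.valuation (n : Ω) < 1 := by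
    have h1 : (n : Ω) = - ∑ i ∈ Finset.range n, (σ ^ i) m := eq_neg_of_add_eq_zero_left hsum
    rw [h1, Valuation.map_neg]
    exact hvs
  rw [lt_one_iff_ExE] at hvn
  rcases hvn with h | h
  · exact hn0 h
  · apply h
    apply halg
    have h2 : IsAlgebraic κ (n : Ω) := by
      have h3 := isAlgebraic_algebraMap (R := κ) (A := Ω) (n : κ)
      rwa [map_natCast] at h3
    exact h2.inv

end BSC
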