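import Pool.Agent.Lib_MP_49ddc8.ExA
import Pool.Agent.Lib_MP_49ddc8.ExB
import Pool.Agent.Lib_MP_49ddc8.ExC
import Pool.Agent.Lib_MP_49ddc8.ExD
import Pool.Agent.Lib_MP_49ddc8.ExE

/-!
[BS-S7], [BS-S8] (helper27): assembly, continuity.
-/

set_option autoImplicit false

open Polynomial Topology

namespace BSC

private theorem s7_closed {K Ω : Type} [Field K] [Field Ω] [Algebra K Ω] [Algebra.IsAlgebraic K Ω] (w : Ω) (P : Ω → Prop) :
    IsClosed {σ : Ω ≃ₐ[K] Ω | P (σ w)} := by
  rw [← isOpen_compl_iff]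
  rw [isOpen_iff_mem_nhds]
  intro σ hσ
  have h1 : (MulAction.stabilizer (Ω ≃ₐ[K] Ω) w : Set (Ω ≃ₐ[K] Ω)) ∈ 𝓝 (1 : Ω ≃ₐ[K] Ω) :=
    (stabilizer_isOpen_of_isIntegral w).mem_nhds (one_mem _)
  have h2 : Filter.Tendsto (fun g : Ω ≃ₐ[K] Ω => σ⁻¹ * g) (𝓝 σ) (𝓝 (σ⁻¹ * σ)) :=
    (continuous_const.mul continuous_id).continuousAt
  rw [inv_mul_cancel] at h2
  filter_upwards [h2 h1] with g hg
  have h3 : σ⁻¹ (g w) = w := hg
  have h4 : g w = σ w := by
    have := congrArg σ h3
    have e : σ (σ⁻¹ (g w)) = g w := AlgEquiv.apply_symm_apply σ (g w)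
    rw [e] at this
    exact this
  show ¬ P (g w)
  rw [h4]
  exact hσ

theorem exists_section (κ : Type) {K Ω : Type} [Field κ] [Field K] [Field Ω] [CharZero Ω] [IsAlgClosed Ω] [Algebra κ Ω] [Algebra K Ω]
    [Algebra κ K] [IsScalarTower κ K Ω] [Algebra.IsAlgebraic K Ω] (W : ValuationSubring Ω) (hκ : ∀ c : κ, algebraMap κ Ω c ∈ W)
    (hK : RK κ W (⊥ : IntermediateField K Ω)) :
    ∃ s : (algebraicClosure κ Ω ≃ₐ[κ] algebraicClosure κ Ω) →* (Ω ≃ₐ[K] Ω), Continuous s ∧
      (∀ (τ : algebraicClosure κ Ω ≃ₐ[κ] algebraicClosure κ Ω) (x : algebraicClosure κ Ω),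
        s τ (x : Ω) = ((τ x : algebraicClosure κ Ω) : Ω)) ∧ ∀ τ z, s τ z ∈ W ↔ z ∈ W := by
  classical
  have hC : CharZero K := (algebraMap K Ω).charZero_iff (algebraMap K Ω).injective |>.2 inferInstance
  have hgal : IsGalois K Ω := by
    have h1 : Algebra.IsSeparable K Ω := inferInstance
    have h2 : Normal K Ω := normal_iff.2 fun x => ⟨Algebra.IsIntegral.isIntegral x, IsAlgClosed.splits _⟩
    exact ⟨⟩
  obtain ⟨M, hM, hmax⟩ := exists_max κ W hK
  have hval := val_full κ W M hM hmax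
  have hres := res_full κ W hκ M hM
  have halg : ∀ ρ : Ω, IsAlgebraic κ ρ → ρ ∈ W := by
    intro ρ hρ
    have h1 : IsIntegral κ ρ := hρ.isIntegral
    obtain ⟨p, hp, hp0⟩ := h1
    have h2 : IsIntegral W ρ := by
      let f : κ →+* W := (algebraMap κ Ω).codRestrict W hκ
      refine ⟨p.map f, hp.map _, ?_⟩
      rw [eval₂_map]
      exact hp0
    obtain ⟨y, hy⟩ := IsIntegrallyClosed.isIntegral_iff.1 h2
    rw [← hy]
    exact y.2
  have hsurj := stab_surj κ W hκ M hM hres
  choose σ hσM hσκ hσW using hsurj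
  -- uniqueness
  have huniq : ∀ (g h : Ω ≃ₐ[K] Ω), (∀ m ∈ M, g m = m) → (∀ m ∈ M, h m = m) →
      (∀ x : algebraicClosure κ Ω, g (x : Ω) = h (x : Ω)) → (∀ z, g z ∈ W ↔ z ∈ W) → (∀ z, h z ∈ W ↔ z ∈ W) → g = h := by
    intro g h gM hM' gκ gW hW
    ext z
    have h1 := stab_inj κ W halg M hval hres (h⁻¹ * g) (by
      intro m hm
      show h.symm (g m) = m
      rw [gM m hm, AlgEquiv.symm_apply_eq, hM' m hm]) (by
      intro x hx
      show h.symm (g x) = x
      rw [AlgEquiv.symm_apply_eq]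
      exact gκ ⟨x, mem_algebraicClosure_iff.2 hx⟩) (by
      intro z
      show h.symm (g z) ∈ W ↔ z ∈ W
      rw [← gW z, ← hW (h.symm (g z)), AlgEquiv.apply_symm_apply]) z
    have h2 : h.symm (g z) = z := h1
    rw [AlgEquiv.symm_apply_eq] at h2
    exact h2
  let s : (algebraicClosure κ Ω ≃ₐ[κ] algebraicClosure κ Ω) →* (Ω ≃ₐ[K] Ω) :=
    { toFun := σ
      map_one' := by
        refine huniq _ _ (hσM 1) (fun m _ => rfl) (fun x => ?_) (hσW 1) (fun z => Iff.rfl)
        rw [hσκ]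
        rfl
      map_mul' := by
        intro a b
        refine huniq _ _ (hσM _) (fun m hm => ?_) (fun x => ?_) (hσW _) (fun z => ?_)
        · show σ a (σ b m) = m
          rw [hσM b m hm, hσM a m hm]
        · show σ (a * b) x = σ a (σ b x)
          rw [hσκ, hσκ, hσκ]
          rfl
        · show σ a (σ b z) ∈ W ↔ z ∈ W
          rw [hσW, hσW] }
  have hs : ∀ τ, s τ = σ τ := fun τ => rfl
  refine ⟨s, ?_, fun τ x => hσκ τ x, fun τ z => hσW τ z⟩
  -- continuity
  have hcomp : CompactSpace (Ω ≃ₐ[K] Ω) := inferInstance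
  have key : ∀ z : Ω, {τ : algebraicClosure κ Ω ≃ₐ[κ] algebraicClosure κ Ω | σ τ z = z} ∈ 𝓝 1 := by
    intro z
    by_contra hcon
    let C : Finset (algebraicClosure κ Ω) → Set (Ω ≃ₐ[K] Ω) := fun F =>
      {g | (∀ m ∈ M, g m = m) ∧ (∀ w, g w ∈ W ↔ w ∈ W) ∧ g z ≠ z ∧ ∀ x ∈ F, g (x : Ω) = x}
    have hCcl : ∀ F, IsClosed (C F) := by
      intro F
      have e : C F = (⋂ m ∈ M, {g : Ω ≃ₐ[K] Ω | g m = m}) ∩ ((⋂ w : Ω, {g : Ω ≃ₐ[K] Ω | g w ∈ W ↔ w ∈ W}) ∩
          ({g : Ω ≃ₐ[K] Ω | g z ≠ z} ∩ ⋂ x ∈ F, {g : Ω ≃ₐ[K] Ω | g (x : Ω) = x})) := by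
        ext g
        simp only [C, Set.mem_ofPred_eq, Set.mem_inter_iff, Set.mem_iInter]
      rw [e]
      refine IsClosed.inter (isClosed_iInter fun m => isClosed_iInter fun _ => s7_closed m (fun y => y = m)) ?_
      refine IsClosed.inter (isClosed_iInter fun w => s7_closed w (fun y => y ∈ W ↔ w ∈ W)) ?_
      refine IsClosed.inter (s7_closed z (fun y => y ≠ z)) ?_
      exact isClosed_iInter fun x => isClosed_iInter fun _ => s7_closed (x : Ω) (fun y => y = (x : Ω))
    have hne : ∀ F, (C F).Nonempty := by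
      intro F
      by_contra hempty
      apply hcon
      have h1 : (⋂ x ∈ F, {τ : algebraicClosure κ Ω ≃ₐ[κ] algebraicClosure κ Ω | τ x = x}) ∈
          𝓝 (1 : algebraicClosure κ Ω ≃ₐ[κ] algebraicClosure κ Ω) := by
        rw [Filter.biInter_finset_mem]
        intro x _
        exact (stabilizer_isOpen_of_isIntegral (K := κ) (L := algebraicClosure κ Ω) x).mem_nhds (one_mem _)
      filter_upwards [h1] with τ hτ
      by_contra hτz
      apply hempty
      refine ⟨σ τ, hσM τ, hσW τ, hτz, fun x hx => ?_⟩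
      rw [hσκ]
      have := Set.mem_iInter₂.1 hτ x hx
      exact congrArg Subtype.val this
    obtain ⟨g, hg⟩ := IsCompact.nonempty_iInter_of_directed_nonempty_isCompact_isClosed C (by
      intro F F'
      refine ⟨F ∪ F', fun g hg => ⟨hg.1, hg.2.1, hg.2.2.1, fun x hx => hg.2.2.2 x (Finset.mem_union_left _ hx)⟩,
        fun g hg => ⟨hg.1, hg.2.1, hg.2.2.1, fun x hx => hg.2.2.2 x (Finset.mem_union_right _ hx)⟩⟩) hne
      (fun F => (hCcl F).isCompact) hCcl
    rw [Set.mem_iInter] at hg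
    have hg0 := hg ∅
    refine hg0.2.2.1 (stab_inj κ W halg M hval hres g hg0.1 (fun x hx => ?_) hg0.2.1 z)
    exact (hg {⟨x, mem_algebraicClosure_iff.2 hx⟩}).2.2.2 _ (Finset.mem_singleton_self _)
  refine continuous_of_continuousAt_one s ?_
  rw [ContinuousAt, map_one]
  intro U hU
  rw [krullTopology_mem_nhds_one_iff] at hU
  obtain ⟨E, hE, hEU⟩ := hU
  obtain ⟨α, hα⟩ := Field.exists_primitive_element K E
  rw [Filter.mem_map]
  filter_upwards [key (α : Ω)] with τ hτ
  apply hEU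
  rw [SetLike.mem_coe, IntermediateField.mem_fixingSubgroup_iff]
  intro x hx
  have hx1 : (⟨x, hx⟩ : E) ∈ IntermediateField.adjoin K {α} := by rw [hα]; exact IntermediateField.mem_top
  have hτ' : σ τ (α : Ω) = α := hτ
  have hall : ∀ y : E, y ∈ IntermediateField.adjoin K {α} → s τ (y : Ω) = y := by
    intro y hy
    induction hy using IntermediateField.adjoin_induction with
    | mem y hy =>
      rw [Set.mem_singleton_iff] at hy
      rw [hy]
      exact hτ'
    | algebraMap c => exact (s τ).commutes c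
    | add a b _ _ ha hb => 
      rw [IntermediateField.coe_add, map_add, ha, hb]
    | inv a _ ha =>
      rw [IntermediateField.coe_inv, map_inv₀, ha]
    | mul a b _ _ ha hb =>
      rw [IntermediateField.coe_mul, map_mul, ha, hb]
  exact hall ⟨x, hx⟩ hx1

theorem exists_section' (κ : Type) [Field κ] [CharZero κ] (K : Type) [Field K] [Algebra κ K] (O : ValuationSubring K)
    (hO : (∀ c : κ, algebraMap κ K c ∈ O) ∧ O ≠ ⊤ ∧
            ∀ x ∈ O, ∃ c : κ, x - algebraMap κ K c = 0 ∨ (x - algebraMap κ K c)⁻¹ ∉ O) :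
          ∃ s : ((algebraicClosure κ (AlgebraicClosure K)) ≃ₐ[κ]
                  (algebraicClosure κ (AlgebraicClosure K))) →*
                (AlgebraicClosure K ≃ₐ[K] AlgebraicClosure K),
            Continuous s ∧
            (∀ (τ : (algebraicClosure κ (AlgebraicClosure K)) ≃ₐ[κ]
                  (algebraicClosure κ (AlgebraicClosure K)))
               (x : algebraicClosure κ (AlgebraicClosure K)),
                s τ (x : AlgebraicClosure K) =
                  ((τ x : algebraicClosure κ (AlgebraicClosure K)) : AlgebraicClosure K)) ∧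
            ∃ W : ValuationSubring (AlgebraicClosure K),
              W.comap (algebraMap K (AlgebraicClosure K)) = O ∧
              ∀ τ, ∀ y : AlgebraicClosure K, (s τ y ∈ W ↔ y ∈ W) := by
  obtain ⟨h1, -, h3⟩ := hO
  obtain ⟨W, hW⟩ := ext_place (Ω := AlgebraicClosure K) O
  have hmem : ∀ x : K, algebraMap K (AlgebraicClosure K) x ∈ W ↔ x ∈ O := by
    intro x
    rw [← hW]
    exact Iff.rfl
  have hC : CharZero (AlgebraicClosure K) := charZero_of_injective_algebraMap (algebraMap κ (AlgebraicClosure K)).injective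
  obtain ⟨s, hs1, hs2, hs3⟩ := exists_section κ (K := K) W (fun c => by
    rw [IsScalarTower.algebraMap_apply κ K (AlgebraicClosure K), hmem]
    exact h1 c) (by
    intro z hz hzW
    rw [IntermediateField.mem_bot] at hz
    obtain ⟨x, rfl⟩ := hz
    obtain ⟨c, hc⟩ := h3 x ((hmem x).1 hzW)
    refine ⟨c, ?_⟩
    have e : algebraMap K (AlgebraicClosure K) x - algebraMap κ (AlgebraicClosure K) c =
        algebraMap K (AlgebraicClosure K) (x - algebraMap κ K c) := by
      rw [map_sub, ← IsScalarTower.algebraMap_apply κ K (AlgebraicClosure K)]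
    rw [e]
    rcases hc with hc | hc
    · rw [hc, map_zero, map_zero]
      exact zero_lt_one
    · by_contra hlt
      apply hc
      rw [← hmem, map_inv₀, ← ValuationSubring.valuation_le_one_iff, map_inv₀]
      exact inv_le_one_of_one_le₀ (not_lt.1 hlt))
  exact ⟨s, hs1, hs2, W, hW, hs3⟩

end BSC
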