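import Pool.Agent.Lib_MP_49ddc8.ExDefs

/-!
[BS-S5a] `stab_of_int`: let `A = W ∩ M` (subring of `Ω`).  Claim: for `z ∈ W` there is `y` with `|y| = 1`, `y` and `z y` integral over `A`.  `z` is algebraic over `M`: `∑_{i ≤ n} aᵢ zⁱ = 0`, all `aᵢ ∈ A`, some `|aᵢ| = 1`; let `j` be the LARGEST index with `|aⱼ| = 1`.
`y = aₙ z^(n-j) + … + aⱼ₊₁ z + aⱼ`, `x = aⱼ₋₁ + aⱼ₋₂ z⁻¹ + … + a₀ z^(-(j-1))` (for `z ≠ 0`; `x = 0` if `j = 0`); `z y + x = 0`.  In every valuation ring `V ⊇ A` of `Ω`: if `z ∈ V` then `y ∈ V`, `x = - z y ∈ V`; if `z⁻¹ ∈ V` then `x ∈ V`, `y = - x z⁻¹ ∈ V`.  So `x, y` are integral over `A`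
(Mathlib: `iInf_valuationSubring_superset`, the integral closure is the intersection of the valuation rings).  `|y - aⱼ| < 1`, so `|y| = 1`.
Now `σ z = σ(z y)/σ y`: `σ(z y)` is integral over `A` (`σ` fixes `M`), so in `W` (integrally closed); `σ y` is integral over `A`, so in `W`, and `|σ y| = 1`: otherwise `|σ y| < 1` and by `hσ'` applied to `σ y` we get `|y| = |σ⁻¹ (σ y)| < 1`.
-/

set_option autoImplicit false

open Polynomial

namespace BSC

private theorem isIntegral_of_val {Ω : Type} [Field Ω] (A : Subring Ω) (y : Ω)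
    (h : ∀ V : ValuationSubring Ω, (A : Set Ω) ⊆ V.toSubring → y ∈ V) : IsIntegral A y := by
  have h1 : y ∈ (⨅ V : {V : ValuationSubring Ω // (A : Set Ω) ⊆ V.toSubring}, V.1.toSubring) := by
    rw [Subring.mem_iInf]
    exact fun V => h V.1 V.2
  rw [iInf_valuationSubring_superset] at h1
  have h2 : IsIntegral (Subring.closure (A : Set Ω)) y := h1
  rwa [Subring.closure_eq] at h2

private theorem mem_of_isIntegral {Ω : Type} [Field Ω] (A : Subring Ω) (W : ValuationSubring Ω)
    (hA : (A : Set Ω) ⊆ W.toSubring) (y : Ω) (h : IsIntegral A y) : y ∈ W := by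
  have h0 : IsIntegral (Subring.closure (A : Set Ω)) y := by
    rwa [Subring.closure_eq]
  have h1 : y ∈ (integralClosure (Subring.closure (A : Set Ω)) Ω).toSubring := h0
  rw [← iInf_valuationSubring_superset, Subring.mem_iInf] at h1
  exact h1 ⟨W, hA⟩

/-- the quotient of two integral elements -/
private theorem exists_den {Ω : Type} [Field Ω] (W : ValuationSubring Ω) (A : Subring Ω) (n : ℕ)
    (b : ℕ → Ω) (hb : ∀ i, b i ∈ A) (hbW : ∀ i, W.valuation (b i) ≤ 1)
    (c : ℕ) (hc : c ≤ n) (hbc : W.valuation (b c) = 1) (z : Ω) (hz0 : z ≠ 0)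
    (hz : W.valuation z ≤ 1) (hsum : ∑ i ∈ Finset.range (n + 1), b i * z ^ i = 0) :
    ∃ y : Ω, W.valuation y = 1 ∧ IsIntegral A y ∧ IsIntegral A (z * y) := by
  classical
  let S : Finset ℕ := (Finset.range (n + 1)).filter fun i => W.valuation (b i) = 1
  have hcS : c ∈ S := Finset.mem_filter.2 ⟨Finset.mem_range.2 (by omega), hbc⟩
  have hne : S.Nonempty := ⟨c, hcS⟩
  set j : ℕ := S.max' hne with hj
  have hjS : j ∈ S := Finset.max'_mem S hne
  have hjn : j < n + 1 := Finset.mem_range.1 (Finset.mem_filter.1 hjS).1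
  have hbj : W.valuation (b j) = 1 := (Finset.mem_filter.1 hjS).2
  have hlt : ∀ i, j < i → i < n + 1 → W.valuation (b i) < 1 := by
    intro i hji hin
    refine lt_of_le_of_ne (hbW i) fun h1 => ?_
    have : i ≤ j := Finset.le_max' S i (Finset.mem_filter.2 ⟨Finset.mem_range.2 hin, h1⟩)
    omega
  obtain ⟨m, hm⟩ : ∃ m, n + 1 = j + (m + 1) := ⟨n - j, by omega⟩
  let y : Ω := ∑ k ∈ Finset.range (m + 1), b (j + k) * z ^ k
  let x : Ω := ∑ k ∈ Finset.range j, b (j - 1 - k) * z⁻¹ ^ k
  have hxy : z * y + x = 0 := by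
    have e0 : ∑ i ∈ Finset.range j, b i * z ^ i + z ^ j * y = 0 := by
      have e := hsum
      rw [hm, Finset.sum_range_add] at e
      rw [← e]
      congr 1
      simp only [y, Finset.mul_sum]
      refine Finset.sum_congr rfl fun k _ => ?_
      rw [pow_add]; ring
    have e1 : z ^ j * x = z * ∑ i ∈ Finset.range j, b i * z ^ i := by
      rw [← Finset.sum_range_reflect (fun i => b i * z ^ i) j, Finset.mul_sum, Finset.mul_sum]
      refine Finset.sum_congr rfl fun k hk => ?_
      have hk' : k < j := Finset.mem_range.1 hk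
      have e2 : z ^ j = z * z ^ (j - 1 - k) * z ^ k := by
        rw [← pow_succ', ← pow_add]
        congr 1
        omega
      rw [e2, inv_pow]
      have : z ^ k ≠ 0 := pow_ne_zero k hz0
      field_simp
    have e3 : z ^ j * (z * y + x) = 0 := by
      rw [mul_add, e1]
      linear_combination z * e0
    exact (mul_eq_zero.1 e3).resolve_left (pow_ne_zero j hz0)
  have hyV : ∀ V : ValuationSubring Ω, (A : Set Ω) ⊆ V.toSubring → y ∈ V ∧ z * y ∈ V := by
    intro V hV
    rcases V.mem_or_inv_mem z with h | h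
    · have hy : y ∈ V := V.toSubring.sum_mem fun k _ =>
        V.toSubring.mul_mem (hV (hb _)) (V.toSubring.pow_mem h k)
      exact ⟨hy, V.toSubring.mul_mem h hy⟩
    · have hx : x ∈ V := V.toSubring.sum_mem fun k _ =>
        V.toSubring.mul_mem (hV (hb _)) (V.toSubring.pow_mem h k)
      have e4 : z * y = -x := eq_neg_of_add_eq_zero_left hxy
      have e5 : y = z⁻¹ * (-x) := by
        rw [← e4, ← mul_assoc, inv_mul_cancel₀ hz0, one_mul]
      refine ⟨?_, ?_⟩
      · rw [e5]
        exact V.toSubring.mul_mem h (V.toSubring.neg_mem hx)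
      · rw [e4]
        exact V.toSubring.neg_mem hx
  refine ⟨y, ?_, isIntegral_of_val A y fun V hV => (hyV V hV).1,
    isIntegral_of_val A (z * y) fun V hV => (hyV V hV).2⟩
  have e6 : y = b j + ∑ k ∈ Finset.range m, b (j + (k + 1)) * z ^ (k + 1) := by
    simp only [y]
    rw [Finset.sum_range_succ', add_comm]
    simp
  have e7 : W.valuation (∑ k ∈ Finset.range m, b (j + (k + 1)) * z ^ (k + 1)) < 1 := by
    refine W.valuation.map_sum_lt one_ne_zero fun k hk => ?_
    have hk' : k < m := Finset.mem_range.1 hk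
    rw [map_mul, map_pow]
    have h1 : W.valuation (b (j + (k + 1))) < 1 := hlt _ (by omega) (by omega)
    have h2 : W.valuation z ^ (k + 1) ≤ 1 := pow_le_one' hz (k + 1)
    exact lt_of_le_of_lt (mul_le_of_le_one_right' h2) h1
  rw [e6, Valuation.map_add_eq_of_lt_left]
  · exact hbj
  · rw [hbj]
    exact e7

theorem stab_of_int {K Ω : Type} [Field K] [Field Ω] [Algebra K Ω] [Algebra.IsAlgebraic K Ω] (W : ValuationSubring Ω)
    (M : IntermediateField K Ω) (σ : Ω ≃ₐ[K] Ω) (hσ : ∀ m ∈ M, σ m = m)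
    (hσ' : ∀ y : Ω, IsIntegral (W.toSubring ⊓ M.toSubfield.toSubring : Subring Ω) y → W.valuation y < 1 →
      W.valuation (σ.symm y) < 1) (z : Ω) (hz : z ∈ W) : σ z ∈ W := by
  by_cases hz0 : z = 0
  · rw [hz0, map_zero]
    exact W.zero_mem
  set A : Subring Ω := W.toSubring ⊓ M.toSubfield.toSubring with hA
  have hAW : (A : Set Ω) ⊆ W.toSubring := fun a ha => ha.1
  obtain ⟨p, hp0, hpz⟩ := Algebra.IsAlgebraic.isAlgebraic (R := K) z
  obtain ⟨c, hcr, hcmax⟩ := Finset.exists_max_image (Finset.range (p.natDegree + 1))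
    (fun i => W.valuation (algebraMap K Ω (p.coeff i))) ⟨0, by simp⟩
  have hlead : algebraMap K Ω (p.coeff p.natDegree) ≠ 0 := by
    rw [Ne, map_eq_zero]
    exact Polynomial.leadingCoeff_ne_zero.2 hp0
  have hc0 : algebraMap K Ω (p.coeff c) ≠ 0 := by
    intro h0
    have h1 := hcmax p.natDegree (by simp)
    rw [h0, map_zero, le_zero_iff, map_eq_zero] at h1
    exact hlead h1
  have hvc : W.valuation (algebraMap K Ω (p.coeff c)) ≠ 0 := by
    rw [Ne, map_eq_zero]
    exact hc0
  let b : ℕ → Ω := fun i => algebraMap K Ω (p.coeff i) / algebraMap K Ω (p.coeff c)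
  have hbW : ∀ i, W.valuation (b i) ≤ 1 := by
    intro i
    simp only [b]
    rw [map_div₀]
    by_cases hi : i ∈ Finset.range (p.natDegree + 1)
    · exact div_le_one_of_le₀ (hcmax i hi) zero_le
    · have : p.coeff i = 0 := Polynomial.coeff_eq_zero_of_natDegree_lt (by
        rw [Finset.mem_range] at hi; omega)
      rw [this, map_zero, map_zero, zero_div]
      exact zero_le
  have hbA : ∀ i, b i ∈ A := by
    intro i
    refine Subring.mem_inf.2 ⟨?_, ?_⟩
    · exact (W.valuation_le_one_iff _).1 (hbW i)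
    · exact M.div_mem (M.algebraMap_mem _) (M.algebraMap_mem _)
  have hbc : W.valuation (b c) = 1 := by
    simp only [b]
    rw [div_self hc0, map_one]
  have hsum : ∑ i ∈ Finset.range (p.natDegree + 1), b i * z ^ i = 0 := by
    have h1 := hpz
    rw [Polynomial.aeval_eq_sum_range] at h1
    have h2 : ∑ i ∈ Finset.range (p.natDegree + 1), b i * z ^ i =
        (∑ i ∈ Finset.range (p.natDegree + 1), p.coeff i • z ^ i) /
          algebraMap K Ω (p.coeff c) := by
      rw [Finset.sum_div]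
      refine Finset.sum_congr rfl fun i _ => ?_
      simp only [b]
      rw [Algebra.smul_def]
      ring
    rw [h2, h1, zero_div]
  obtain ⟨y, hy1, hyi, hzyi⟩ := exists_den W A p.natDegree b hbA hbW c
    (by rw [Finset.mem_range] at hcr; omega) hbc z hz0 ((W.valuation_le_one_iff z).2 hz) hsum
  let τ : Ω →ₐ[A] Ω :=
    { (σ : Ω →+* Ω) with
      commutes' := fun a => hσ a.1 (Subring.mem_inf.1 a.2).2 }
  have hτ : ∀ w : Ω, τ w = σ w := fun w => rfl
  have h1 : σ (z * y) ∈ W := by
    have := hzyi.map τ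
    rw [hτ] at this
    exact mem_of_isIntegral A W hAW _ this
  have h2i : IsIntegral A (σ y) := by
    have := hyi.map τ
    rwa [hτ] at this
  have h2 : σ y ∈ W := mem_of_isIntegral A W hAW _ h2i
  have h3 : W.valuation (σ y) = 1 := by
    refine le_antisymm ((W.valuation_le_one_iff _).2 h2) (not_lt.1 fun hlt => ?_)
    have h4 := hσ' (σ y) h2i hlt
    rw [AlgEquiv.symm_apply_apply, hy1] at h4
    exact lt_irrefl _ h4
  have h5 : σ z * σ y = σ (z * y) := (map_mul σ z y).symm
  have h6 : W.valuation (σ z) ≤ 1 := by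
    have h7 : W.valuation (σ z) * W.valuation (σ y) ≤ 1 := by
      rw [← map_mul, h5]
      exact (W.valuation_le_one_iff _).2 h1
    rwa [h3, mul_one] at h7
  exact (W.valuation_le_one_iff _).1 h6

end BSC
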