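import Pool.Agent.Lib_MP_49ddc8.Tw3

/-!
# Fixed branch points: parity

`y² = lc ∏_{e ∈ R} (x - e) G(t, x)` with constants `e ∈ R`, `G ∈ k[t][X]`.  A place `α` where `G(α, e) = 0` for some `e ∈ R` is
allowed if `e` is moved by some `τ` which fixes `α`.
-/

set_option autoImplicit false

open Polynomial

namespace BSC

section ev2

variable {k Ω : Type} [Field k] [Field Ω] [Algebra k Ω]

/-- the value of `G ∈ k[t][X]` at `t = a`, `X = e` -/
noncomputable def ev2 (G : k[X][X]) (a e : Ω) : Ω := G.eval₂ (aeval a : k[X] →ₐ[k] Ω).toRingHom e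

theorem ev2_eq (G : k[X][X]) (a e : Ω) :
    ev2 G a e = ∑ i ∈ Finset.range (G.natDegree + 1), aeval a (G.coeff i) * e ^ i := by
  unfold ev2
  rw [eval₂_eq_sum_range]
  rfl

/-- pairs of elements of `V` which are congruent modulo the maximal ideal -/
private def fbT (V : ValuationSubring Ω) : Subring (Ω × Ω) where
  carrier := {p | p.1 ∈ V ∧ p.2 ∈ V ∧ V.valuation (p.1 - p.2) < 1}
  mul_mem' := by
    rintro ⟨a, b⟩ ⟨c, d⟩ ⟨h1, h2, h3⟩ ⟨h4, h5, h6⟩
    refine ⟨mul_mem h1 h4, mul_mem h2 h5, ?_⟩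
    have e : a * c - b * d = a * (c - d) + (a - b) * d := by ring
    show V.valuation (a * c - b * d) < 1
    rw [e]
    refine V.valuation.map_add_lt ?_ ?_
    · rw [map_mul]
      exact mul_lt_one_of_nonneg_of_lt_one_right ((V.valuation_le_one_iff a).2 h1) zero_le h6
    · rw [map_mul]
      exact mul_lt_one_of_nonneg_of_lt_one_left zero_le h3 ((V.valuation_le_one_iff d).2 h5)
  one_mem' := ⟨V.one_mem, V.one_mem, by
    show V.valuation (1 - 1) < 1
    rw [sub_self, map_zero]
    exact zero_lt_one⟩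
  add_mem' := by
    rintro ⟨a, b⟩ ⟨c, d⟩ ⟨h1, h2, h3⟩ ⟨h4, h5, h6⟩
    refine ⟨add_mem h1 h4, add_mem h2 h5, ?_⟩
    have e : a + c - (b + d) = (a - b) + (c - d) := by ring
    show V.valuation (a + c - (b + d)) < 1
    rw [e]
    exact V.valuation.map_add_lt h3 h6
  zero_mem' := ⟨V.zero_mem, V.zero_mem, by
    show V.valuation (0 - 0) < 1
    rw [sub_self, map_zero]
    exact zero_lt_one⟩
  neg_mem' := by
    rintro ⟨a, b⟩ ⟨h1, h2, h3⟩
    refine ⟨neg_mem h1, neg_mem h2, ?_⟩
    show V.valuation (-a - -b) < 1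
    have e : -a - -b = -(a - b) := by ring
    rw [e, Valuation.map_neg]
    exact h3

private theorem fbT_const (V : ValuationSubring Ω) (hV : ∀ c : k, algebraMap k Ω c ∈ V) (c : k) :
    ((algebraMap k Ω c, algebraMap k Ω c) : Ω × Ω) ∈ fbT V :=
  ⟨hV c, hV c, by
    show V.valuation (algebraMap k Ω c - algebraMap k Ω c) < 1
    rw [sub_self, map_zero]
    exact zero_lt_one⟩

private theorem fbT_aeval (V : ValuationSubring Ω) (hV : ∀ c : k, algebraMap k Ω c ∈ V) (a a' : Ω)
    (h : ((a, a') : Ω × Ω) ∈ fbT V) (p : k[X]) : ((aeval a p, aeval a' p) : Ω × Ω) ∈ fbT V := by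
  have e0 : ∀ b : Ω, aeval b p = ∑ i ∈ Finset.range (p.natDegree + 1), algebraMap k Ω (p.coeff i) * b ^ i := by
    intro b
    rw [aeval_eq_sum_range]
    exact Finset.sum_congr rfl fun i _ => by rw [Algebra.smul_def]
  have e : ((aeval a p, aeval a' p) : Ω × Ω) =
      ∑ i ∈ Finset.range (p.natDegree + 1), (algebraMap k Ω (p.coeff i), algebraMap k Ω (p.coeff i)) * (a, a') ^ i := by
    apply Prod.ext
    · rw [Prod.fst_sum]
      exact e0 a
    · rw [Prod.snd_sum]
      exact e0 a'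
  rw [e]
  exact sum_mem fun i _ => mul_mem (fbT_const V hV _) (pow_mem h i)

private theorem fbT_ev2 (V : ValuationSubring Ω) (hV : ∀ c : k, algebraMap k Ω c ∈ V) (a a' b b' : Ω)
    (h : ((a, a') : Ω × Ω) ∈ fbT V) (h' : ((b, b') : Ω × Ω) ∈ fbT V) (G : k[X][X]) :
    ((ev2 G a b, ev2 G a' b') : Ω × Ω) ∈ fbT V := by
  have e : ((ev2 G a b, ev2 G a' b') : Ω × Ω) =
      ∑ i ∈ Finset.range (G.natDegree + 1), (aeval a (G.coeff i), aeval a' (G.coeff i)) * (b, b') ^ i := by
    apply Prod.ext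
    · rw [Prod.fst_sum]
      exact ev2_eq G a b
    · rw [Prod.snd_sum]
      exact ev2_eq G a' b'
  rw [e]
  exact sum_mem fun i _ => mul_mem (fbT_aeval V hV a a' h _) (pow_mem h' i)

/-- congruent arguments give congruent values -/
theorem ev2_congr (V : ValuationSubring Ω) (hV : ∀ c : k, algebraMap k Ω c ∈ V) (a a' b b' : Ω)
    (ha : a ∈ V) (ha' : a' ∈ V) (haa : V.valuation (a - a') < 1) (hb : b ∈ V) (hb' : b' ∈ V)
    (hbb : V.valuation (b - b') < 1) (G : k[X][X]) : V.valuation (ev2 G a b - ev2 G a' b') < 1 :=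
  (fbT_ev2 V hV a a' b b' ⟨ha, ha', haa⟩ ⟨hb, hb', hbb⟩ G).2.2

private theorem fb_one_lt {V : ValuationSubring Ω} {x : Ω} (hx : x ∉ V) : 1 < V.valuation x := by
  rw [← not_le, V.valuation_le_one_iff]
  exact hx

/-- the value of `G(a, x)` where `x` has a pole and the leading coefficient is a constant -/
theorem ev2_pole (V : ValuationSubring Ω) (hV : ∀ c : k, algebraMap k Ω c ∈ V) (a x : Ω) (ha : a ∈ V) (hx : x ∉ V)
    (G : k[X][X]) (c : k) (hc : c ≠ 0) (hG : G.leadingCoeff = C c) :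
    V.valuation (ev2 G a x) = V.valuation x ^ G.natDegree := by
  have hc1 : V.valuation (algebraMap k Ω c) = 1 := by
    have h1 : V.valuation (algebraMap k Ω c) ≤ 1 := (V.valuation_le_one_iff _).2 (hV c)
    have h2 : V.valuation (algebraMap k Ω c⁻¹) ≤ 1 := (V.valuation_le_one_iff _).2 (hV c⁻¹)
    have h3 : V.valuation (algebraMap k Ω c) * V.valuation (algebraMap k Ω c⁻¹) = 1 := by
      rw [← map_mul, ← map_mul, mul_inv_cancel₀ hc, map_one, map_one]
    refine le_antisymm h1 ?_
    rw [← h3]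
    exact mul_le_of_le_one_right' h2
  have hx1 := fb_one_lt hx
  have hcoef : ∀ p : k[X], aeval a p ∈ V := by
    intro p
    have h0 : ((a, a) : Ω × Ω) ∈ fbT V := ⟨ha, ha, by
      show V.valuation (a - a) < 1
      rw [sub_self, map_zero]
      exact zero_lt_one⟩
    exact (fbT_aeval V hV a a h0 p).1
  have htop : V.valuation (aeval a (G.coeff G.natDegree) * x ^ G.natDegree) = V.valuation x ^ G.natDegree := by
    have h1 : G.coeff G.natDegree = C c := hG
    rw [h1, aeval_C, map_mul, hc1, one_mul, map_pow]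
  rw [ev2_eq, Finset.sum_range_succ]
  rcases Nat.eq_zero_or_pos G.natDegree with h0 | hpos
  · rw [h0] at htop ⊢
    rw [Finset.sum_range_zero, zero_add]
    exact htop
  · have hlt : V.valuation (∑ i ∈ Finset.range G.natDegree, aeval a (G.coeff i) * x ^ i) <
        V.valuation (aeval a (G.coeff G.natDegree) * x ^ G.natDegree) := by
      rw [htop]
      have hxpos : 0 < V.valuation x := lt_trans zero_lt_one hx1
      refine V.valuation.map_sum_lt (pow_pos hxpos _).ne' fun i hi => ?_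
      rw [Finset.mem_range] at hi
      rw [map_mul, map_pow]
      calc V.valuation (aeval a (G.coeff i)) * V.valuation x ^ i ≤ V.valuation x ^ i :=
            mul_le_of_le_one_left' ((V.valuation_le_one_iff _).2 (hcoef _))
        _ < V.valuation x ^ G.natDegree := pow_lt_pow_right₀ hx1 hi
    rw [V.valuation.map_add_eq_of_lt_right hlt, htop]

end ev2

end BSC
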