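import Pool.Agent.Lib_MP_49ddc8.Fb1

/-!
# Fixed branch points: descent

`∏_{e ∈ J} (x - e)` is a constant times a square, for `J ⊆ R` of even cardinality (any `J` if the poles of `x` are even).
-/

set_option autoImplicit false

open Polynomial

namespace BSC

variable {k Ω : Type} [Field k] [CharZero k] [Field Ω] [IsAlgClosed Ω] [Algebra k Ω] [Algebra (RatFunc k) Ω]
  [IsScalarTower k (RatFunc k) Ω]

/-- the data of a curve `y² = c ∏_{e ∈ R} (x - e) G(t, x)` with fixed branch points `e ∈ R` -/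
structure FbD (Y : Sys k Ω) (R : Finset Ω) (G : k[X][X]) (A : Finset Y.k0) (c x y : Ω) : Prop where
  norm : ∀ τ, ∀ b ∈ Y.k0, Y.S.s τ b ∈ Y.k0
  memR : ∀ e ∈ R, e ∈ Y.k0
  stab : ∀ τ, ∀ e ∈ R, Y.S.s τ e ∈ R
  card : 3 ≤ R.card
  fix : ∀ τ, Y.S.s τ x = x
  memy : y ∈ Y.S.F Y.k0
  y0 : y ≠ 0
  memc : c ∈ Y.k0
  c0 : c ≠ 0
  eq : y ^ 2 = c * (∏ e ∈ R, (x - e)) * ev2 G (tt k Ω) x
  col : ∀ a : Ω, IsAlgebraic k a → ∀ e ∈ R, ev2 G a e = 0 → ∃ α ∈ A, (α : Ω) = a
  mov : ∀ α ∈ A, ∀ e ∈ R, ev2 G (α : Ω) e = 0 → ∃ τ, Y.S.s τ (α : Ω) = α ∧ Y.S.s τ e ≠ e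

/-- the poles of `x` are even -/
def FbPole (Y : Sys k Ω) (x : Ω) : Prop :=
  ∀ k'' : IntermediateField k Ω, Y.k0 ≤ k'' → FiniteDimensional k k'' → ∀ β : k'', x ∉ Y.V k'' (some β) →
    ∃ w ∈ Y.S.F k'', (Y.V k'' (some β)).valuation (x * w ^ 2) = 1

private theorem fb_one_lt {V : ValuationSubring Ω} {x : Ω} (hx : x ∉ V) : 1 < V.valuation x := by
  rw [← not_le, V.valuation_le_one_iff]
  exact hx

theorem fb_big {V : ValuationSubring Ω} {x e : Ω} (he : e ∈ V) (hx : x ∉ V) :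
    V.valuation (x - e) = V.valuation x :=
  Valuation.map_sub_eq_of_lt_left _ (lt_of_le_of_lt ((V.valuation_le_one_iff _).2 he) (fb_one_lt hx))

theorem fb_other {k' : IntermediateField k Ω} {S : Sec (RatFunc k) Ω} {V : ValuationSubring Ω} {a : Option k'}
    (L : Loc S k' a V) (x e e' : Ω) (he : e ∈ k') (he' : e' ∈ k') (hne : e' ≠ e) (hlt : V.valuation (x - e) < 1) :
    V.valuation (x - e') = 1 := by
  have h2 : V.valuation (e - e') = 1 := L.val_const _ (sub_mem he he') (sub_ne_zero.2 hne.symm)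
  have e1 : x - e' = (e - e') + (x - e) := by ring
  rw [e1, V.valuation.map_add_eq_of_lt_left (by rw [h2]; exact hlt), h2]

theorem fb_prod_one {V : ValuationSubring Ω} (J : Finset Ω) (x : Ω) (h : ∀ e ∈ J, V.valuation (x - e) = 1) :
    V.valuation (∏ e ∈ J, (x - e)) = 1 := by
  rw [map_prod]
  exact Finset.prod_eq_one h

variable {Y : Sys k Ω} {R : Finset Ω} {G : k[X][X]} {A : Finset Y.k0} {c x y : Ω}

theorem FbD.memx (D : FbD Y R G A c x y) (B : Set Ω) : x ∈ Y.S.F B := fun τ _ => D.fix τ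

theorem FbD.ne (D : FbD Y R G A c x y) (e : Ω) (he : e ∈ R) : x - e ≠ 0 := by
  intro h0
  apply D.y0
  have h1 : y ^ 2 = 0 := by
    rw [D.eq, Finset.prod_eq_zero he h0]
    ring
  exact (pow_eq_zero_iff two_ne_zero).1 h1

theorem FbD.prod_ne (D : FbD Y R G A c x y) (J : Finset Ω) (hJ : J ⊆ R) : ∏ e ∈ J, (x - e) ≠ 0 :=
  Finset.prod_ne_zero_iff.2 fun e he => D.ne e (hJ he)

theorem FbD.prod_mem (D : FbD Y R G A c x y) (J : Finset Ω) (hJ : J ⊆ R) (k'' : IntermediateField k Ω) (hk : Y.k0 ≤ k'')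
    (hfin : FiniteDimensional k k'') : ∏ e ∈ J, (x - e) ∈ Y.S.F k'' :=
  _root_.prod_mem fun e he => sub_mem (D.memx _) (tw_const_mem Y.S k'' hfin e (hk (D.memR e (hJ he))))

theorem ev2_mem_level (k'' : IntermediateField k Ω) (G : k[X][X]) (a e : Ω) (ha : a ∈ k'') (he : e ∈ k'') :
    ev2 G a e ∈ k'' := by
  rw [ev2_eq]
  refine sum_mem fun i _ => mul_mem ?_ (pow_mem he i)
  rw [aeval_eq_sum_range]
  refine sum_mem fun j _ => ?_
  rw [Algebra.smul_def]
  exact mul_mem (k''.algebraMap_mem _) (pow_mem ha j)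

/-- `x` close to `e`, no collision -/
theorem FbD.small (D : FbD Y R G A c x y) (k'' : IntermediateField k Ω) (hk : Y.k0 ≤ k'') (hfin : FiniteDimensional k k'')
    (β : k'') (hxV : x ∈ Y.V k'' (some β)) (e : Ω) (he : e ∈ R) (hlt : (Y.V k'' (some β)).valuation (x - e) < 1)
    (hne : ev2 G (β : Ω) e ≠ 0) : ∃ w ∈ Y.S.F k'', (Y.V k'' (some β)).valuation ((x - e) * w ^ 2) = 1 := by
  classical
  have L := Y.loc k'' hk hfin (some β)
  set V := Y.V k'' (some β) with hV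
  have hkV : ∀ b : k, algebraMap k Ω b ∈ V := fun b => L.const _ (k''.algebraMap_mem b)
  have heV : e ∈ V := L.const e (hk (D.memR e he))
  have hβV : (β : Ω) ∈ V := L.const β β.2
  have htβ : V.valuation (tt k Ω - β) < 1 := L.unif
  have htV : tt k Ω ∈ V := by
    have h1 : tt k Ω - β ∈ V := (V.valuation_le_one_iff _).1 htβ.le
    have e1 : tt k Ω = (tt k Ω - β) + β := by ring
    rw [e1]
    exact add_mem h1 hβV
  have hG1 : V.valuation (ev2 G (β : Ω) e) = 1 :=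
    L.val_const _ (ev2_mem_level k'' G β e β.2 (hk (D.memR e he))) hne
  have hG : V.valuation (ev2 G (tt k Ω) x) = 1 := by
    have h1 := ev2_congr V hkV (tt k Ω) β x e htV hβV htβ hxV heV hlt G
    have e1 : ev2 G (tt k Ω) x = ev2 G (β : Ω) e + (ev2 G (tt k Ω) x - ev2 G (β : Ω) e) := by ring
    rw [e1, V.valuation.map_add_eq_of_lt_left (by rw [hG1]; exact h1), hG1]
  have hy : V.valuation (y ^ 2) = V.valuation (x - e) := by
    rw [D.eq, map_mul, map_mul, hG, mul_one, L.val_const c (hk D.memc) D.c0, one_mul,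
      ← Finset.mul_prod_erase R _ he, map_mul, fb_prod_one (R.erase e) x (fun e' he' =>
        fb_other L x e e' (hk (D.memR e he)) (hk (D.memR e' (Finset.mem_of_mem_erase he'))) (Finset.ne_of_mem_erase he') hlt),
      mul_one]
  refine ⟨y⁻¹, inv_mem (Y.S.F_mono (show (Y.k0 : Set Ω) ⊆ (k'' : Set Ω) from fun z hz => hk hz) D.memy), ?_⟩
  rw [map_mul, ← hy, ← map_mul, inv_pow, mul_inv_cancel₀ (pow_ne_zero 2 D.y0), map_one]

/-- the product is even if all factors are -/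
theorem FbD.even_of (D : FbD Y R G A c x y) (J : Finset Ω) (hJ : J ⊆ R) (hpar : Even J.card ∨ FbPole Y x)
    (k'' : IntermediateField k Ω) (hk : Y.k0 ≤ k'') (hfin : FiniteDimensional k k'') (β : k'')
    (hsm : x ∈ Y.V k'' (some β) → ∀ e ∈ R, (Y.V k'' (some β)).valuation (x - e) < 1 →
      ∃ w ∈ Y.S.F k'', (Y.V k'' (some β)).valuation ((x - e) * w ^ 2) = 1) :
    ∃ w ∈ Y.S.F k'', (Y.V k'' (some β)).valuation ((∏ e ∈ J, (x - e)) * w ^ 2) = 1 := by
  classical
  have L := Y.loc k'' hk hfin (some β)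
  set V := Y.V k'' (some β) with hV
  have hIV : ∀ e ∈ R, e ∈ V := fun e he => L.const e (hk (D.memR e he))
  by_cases hxV : x ∈ V
  · by_cases hex : ∃ e ∈ J, V.valuation (x - e) < 1
    · obtain ⟨e, he, hlt⟩ := hex
      obtain ⟨w, hw, hw1⟩ := hsm hxV e (hJ he) hlt
      refine ⟨w, hw, ?_⟩
      rw [← Finset.mul_prod_erase J _ he, map_mul, map_mul, fb_prod_one (J.erase e) x (fun e' he' =>
        fb_other L x e e' (hk (D.memR e (hJ he))) (hk (D.memR e' (hJ (Finset.mem_of_mem_erase he'))))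
          (Finset.ne_of_mem_erase he') hlt), mul_one, ← map_mul]
      exact hw1
    · push Not at hex
      refine ⟨1, one_mem _, ?_⟩
      rw [one_pow, mul_one]
      exact fb_prod_one J x fun e he => le_antisymm ((V.valuation_le_one_iff _).2 (sub_mem hxV (hIV e (hJ he)))) (hex e he)
  · have hprod : V.valuation (∏ e ∈ J, (x - e)) = V.valuation x ^ J.card := by
      rw [map_prod, Finset.prod_congr rfl (fun e he => fb_big (hIV e (hJ he)) hxV), Finset.prod_const]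
    have hx0 : x ≠ 0 := by
      rintro rfl
      exact hxV (zero_mem _)
    rcases hpar with hev | hpole
    · obtain ⟨m, hm⟩ := hev
      refine ⟨(x ^ m)⁻¹, inv_mem (pow_mem (D.memx _) m), ?_⟩
      rw [map_mul, hprod, hm, ← map_pow, ← map_mul, inv_pow, ← pow_mul, mul_comm m 2, two_mul,
        mul_inv_cancel₀ (pow_ne_zero _ hx0), map_one]
    · obtain ⟨w, hw, hw1⟩ := hpole k'' hk hfin β hxV
      refine ⟨w ^ J.card, pow_mem hw _, ?_⟩
      rw [map_mul, hprod, ← map_pow, ← map_mul]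
      have e1 : x ^ J.card * (w ^ J.card) ^ 2 = (x * w ^ 2) ^ J.card := by
        rw [mul_pow]
        ring
      rw [e1, map_pow, hw1, one_pow]

theorem FbD.desc (D : FbD Y R G A c x y) (J : Finset Ω) (hJ : J ⊆ R) (hpar : Even J.card ∨ FbPole Y x) :
    ∃ ε : Y.k0, ε ≠ 0 ∧ ∃ B ⊆ A, ∃ w ∈ Y.S.F Y.k0, w ≠ 0 ∧
      ∏ e ∈ J, (x - e) = (ε : Ω) * (∏ α ∈ B, (tt k Ω - (α : Ω))) * w ^ 2 := by
  refine Y.desc Y.k0 le_rfl Y.fin0 (∏ e ∈ J, (x - e)) (D.prod_mem J hJ Y.k0 le_rfl Y.fin0) (D.prod_ne J hJ) A ?_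
  intro k'' hk hfin β hβ
  refine D.even_of J hJ hpar k'' hk hfin β fun hxV e he hlt => ?_
  refine D.small k'' hk hfin β hxV e he hlt ?_
  intro h0
  obtain ⟨α, hα, hαβ⟩ := D.col (β : Ω) (level_alg k'' hfin β β.2).1 e he h0
  exact hβ α hα hαβ

/-- value of a product over `B` at a place `α ∈ B` -/
private theorem fb_prodB {k' : IntermediateField k Ω} {S : Sec (RatFunc k) Ω} {V : ValuationSubring Ω} (α : k')
    (L : Loc S k' (some α) V) (B : Finset k') (g : k' → Ω) (hg : ∀ β ∈ B, g β ∈ k') (hα : g α = α)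
    (hinj : ∀ β ∈ B, β ≠ α → g β ≠ α) (hB : α ∈ B) :
    V.valuation (∏ β ∈ B, (tt k Ω - g β)) = V.valuation (tt k Ω - (α : Ω)) := by
  classical
  rw [← Finset.mul_prod_erase B _ hB, map_mul, hα, map_prod, Finset.prod_eq_one, mul_one]
  intro β hβ
  have h1 := Finset.mem_of_mem_erase hβ
  exact tw_sub_val α L (g β) (hg β h1) (fun h => hinj β h1 (Finset.ne_of_mem_erase hβ) h.symm)

/-- `x - e` is even at the places where a collision may occur -/
theorem FbD.close (D : FbD Y R G A c x y) (α : Y.k0) (hα : α ∈ A) (e : Ω) (he : e ∈ R)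
    (hxV : x ∈ Y.V Y.k0 (some α)) (hlt : (Y.V Y.k0 (some α)).valuation (x - e) < 1) :
    ∃ w ∈ Y.S.F Y.k0, (Y.V Y.k0 (some α)).valuation ((x - e) * w ^ 2) = 1 := by
  classical
  by_cases hcol : ev2 G (α : Ω) e = 0
  swap
  · exact D.small Y.k0 le_rfl Y.fin0 α hxV e he hlt hcol
  have L := Y.loc Y.k0 le_rfl Y.fin0 (some α)
  set V := Y.V Y.k0 (some α) with hV
  obtain ⟨τ, hτα, hτe⟩ := D.mov α hα e he hcol
  have hinjτ : Function.Injective (Y.S.s τ) := (Y.S.s τ).injective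
  -- a second element
  obtain ⟨e₂, he₂, hne₂, hτ₂⟩ : ∃ e₂ ∈ R, e₂ ≠ e ∧ Y.S.s τ e₂ ≠ e := by
    have h1 : 1 < (R.erase e).card := by
      rw [Finset.card_erase_of_mem he]
      have := D.card
      omega
    obtain ⟨a, ha, b, hb, hab⟩ := Finset.one_lt_card.1 h1
    by_cases h2 : Y.S.s τ a = e
    · refine ⟨b, Finset.mem_of_mem_erase hb, Finset.ne_of_mem_erase hb, fun h3 => hab ?_⟩
      exact hinjτ (h2.trans h3.symm)
    · exact ⟨a, Finset.mem_of_mem_erase ha, Finset.ne_of_mem_erase ha, h2⟩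
  have hJ : ({e, e₂} : Finset Ω) ⊆ R := by
    intro z hz
    rw [Finset.mem_insert, Finset.mem_singleton] at hz
    rcases hz with rfl | rfl
    · exact he
    · exact he₂
  have hcard : ({e, e₂} : Finset Ω).card = 2 := Finset.card_pair hne₂.symm
  obtain ⟨ε, hε, B, hBA, w, hw, hw0, hz⟩ := D.desc {e, e₂} hJ (Or.inl (by rw [hcard]; exact even_two))
  rw [Finset.prod_pair hne₂.symm] at hz
  have hε0 : (ε : Ω) ≠ 0 := fun h => hε (Subtype.ext h)
  have hx2 : V.valuation (x - e₂) = 1 := fb_other L x e e₂ (D.memR e he) (D.memR e₂ he₂) hne₂ hlt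
  -- apply `τ`
  have hz' : (x - Y.S.s τ e) * (x - Y.S.s τ e₂) =
      Y.S.s τ ε * (∏ β ∈ B, (tt k Ω - Y.S.s τ (β : Ω))) * (Y.S.s τ w) ^ 2 := by
    have h1 := congrArg (Y.S.s τ) hz
    rw [map_mul, map_sub, map_sub, D.fix τ, map_mul, map_mul, map_prod, map_pow] at h1
    rw [h1]
    congr 2
    refine Finset.prod_congr rfl fun β _ => ?_
    rw [map_sub, Y.S.s_tt]
  have hv' : V.valuation ((x - Y.S.s τ e) * (x - Y.S.s τ e₂)) = 1 := by
    rw [map_mul, fb_other L x e _ (D.memR e he) (D.memR _ (D.stab τ e he)) hτe hlt,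
      fb_other L x e _ (D.memR e he) (D.memR _ (D.stab τ e₂ he₂)) hτ₂ hlt, one_mul]
  have hαB : α ∉ B := by
    intro hαB
    have h1 : V.valuation (∏ β ∈ B, (tt k Ω - Y.S.s τ (β : Ω))) = V.valuation (tt k Ω - (α : Ω)) :=
      fb_prodB α L B (fun β => Y.S.s τ (β : Ω)) (fun β _ => D.norm τ β β.2) hτα
        (fun β _ hne h => hne (Subtype.ext (hinjτ (h.trans hτα.symm)))) hαB
    have hε' : V.valuation (Y.S.s τ ε) = 1 :=
      L.val_const _ (D.norm τ ε ε.2) ((map_ne_zero_iff _ hinjτ).2 hε0)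
    apply L.ram (Y.S.s τ w) (Y.S.F_stable Y.k0 D.norm τ w hw)
    show V.valuation ((tt k Ω - (α : Ω)) * (Y.S.s τ w) ^ 2) = 1
    rw [map_mul, ← h1, ← hv', hz', map_mul, map_mul, hε', one_mul]
  refine ⟨w⁻¹, inv_mem hw, ?_⟩
  have h1 : V.valuation (x - e) = V.valuation (w ^ 2) := by
    have h2 := congrArg V.valuation hz
    rw [map_mul, hx2, mul_one, map_mul, map_mul, L.val_const ε ε.2 hε0, one_mul,
      tw_prod_val le_rfl α L B (fun β hβ h => hαB (by rw [← Subtype.ext h]; exact hβ)), one_mul] at h2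
    exact h2
  rw [map_mul, h1, ← map_mul, inv_pow, mul_inv_cancel₀ (pow_ne_zero 2 hw0), map_one]

/-- the product is a constant times a square -/
theorem FbD.const (D : FbD Y R G A c x y) (J : Finset Ω) (hJ : J ⊆ R) (hpar : Even J.card ∨ FbPole Y x) :
    ∃ ε ∈ Y.k0, ε ≠ 0 ∧ ∃ w ∈ Y.S.F Y.k0, w ≠ 0 ∧ ∏ e ∈ J, (x - e) = ε * w ^ 2 := by
  classical
  obtain ⟨ε, hε, B, hBA, w, hw, hw0, hz⟩ := D.desc J hJ hpar
  have hε0 : (ε : Ω) ≠ 0 := fun h => hε (Subtype.ext h)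
  have hB : B = ∅ := by
    rw [Finset.eq_empty_iff_forall_notMem]
    intro α hαB
    have L := Y.loc Y.k0 le_rfl Y.fin0 (some α)
    obtain ⟨w', hw', hw1⟩ := D.even_of J hJ hpar Y.k0 le_rfl Y.fin0 α
      (fun hxV e he hlt => D.close α (hBA hαB) e he hxV hlt)
    set V := Y.V Y.k0 (some α) with hV
    have h1 : V.valuation (∏ β ∈ B, (tt k Ω - (β : Ω))) = V.valuation (tt k Ω - (α : Ω)) :=
      fb_prodB α L B (fun β => (β : Ω)) (fun β _ => β.2) rfl (fun β _ hne h => hne (Subtype.ext h)) hαB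
    apply L.ram (w * w') (mul_mem hw hw')
    show V.valuation ((tt k Ω - (α : Ω)) * (w * w') ^ 2) = 1
    rw [← hw1, hz, map_mul, ← h1, mul_pow, map_mul, map_mul, map_mul, map_mul, L.val_const ε ε.2 hε0, one_mul, mul_assoc]
  rw [hB, Finset.prod_empty, mul_one] at hz
  exact ⟨ε, ε.2, hε0, w, hw, hw0, hz⟩

/-- where `x` is integral all `x - e` are even, at every level -/
theorem FbD.even_int (D : FbD Y R G A c x y) (k'' : IntermediateField k Ω) (hk : Y.k0 ≤ k'') (hfin : FiniteDimensional k k'')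
    (a : Option k'') (hxV : x ∈ Y.V k'' a) (e : Ω) (he : e ∈ R) :
    ∃ w ∈ Y.S.F k'', (Y.V k'' a).valuation ((x - e) * w ^ 2) = 1 := by
  classical
  have L := Y.loc k'' hk hfin a
  set V := Y.V k'' a with hV
  have hle : V.valuation (x - e) ≤ 1 := (V.valuation_le_one_iff _).2 (sub_mem hxV (L.const e (hk (D.memR e he))))
  rcases hle.lt_or_eq with hlt | heq
  · obtain ⟨e₂, he₂, hne₂⟩ : ∃ e₂ ∈ R, e₂ ≠ e := by
      have h1 : 0 < (R.erase e).card := by
        rw [Finset.card_erase_of_mem he]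
        have := D.card
        omega
      obtain ⟨a, ha⟩ := Finset.card_pos.1 h1
      exact ⟨a, Finset.mem_of_mem_erase ha, Finset.ne_of_mem_erase ha⟩
    have hJ : ({e, e₂} : Finset Ω) ⊆ R := by
      intro z hz
      rw [Finset.mem_insert, Finset.mem_singleton] at hz
      rcases hz with rfl | rfl
      · exact he
      · exact he₂
    have hcard : ({e, e₂} : Finset Ω).card = 2 := Finset.card_pair hne₂.symm
    obtain ⟨ε, hε, hε0, w, hw, hw0, hz⟩ := D.const {e, e₂} hJ (Or.inl (by rw [hcard]; exact even_two))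
    rw [Finset.prod_pair hne₂.symm] at hz
    have hx2 : V.valuation (x - e₂) = 1 := fb_other L x e e₂ (hk (D.memR e he)) (hk (D.memR e₂ he₂)) hne₂ hlt
    refine ⟨w⁻¹, inv_mem (Y.S.F_mono (show (Y.k0 : Set Ω) ⊆ (k'' : Set Ω) from fun z hz => hk hz) hw), ?_⟩
    have h1 : V.valuation (x - e) = V.valuation (w ^ 2) := by
      have h2 := congrArg V.valuation hz
      rw [map_mul, hx2, mul_one, map_mul, L.val_const ε (hk hε) hε0, one_mul] at h2
      exact h2
    rw [map_mul, h1, ← map_mul, inv_pow, mul_inv_cancel₀ (pow_ne_zero 2 hw0), map_one]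
  · exact ⟨1, one_mem _, by rw [one_pow, mul_one]; exact heq⟩

/-- the poles of `x` are even if the degree in `X` is odd and the leading coefficient constant -/
theorem FbD.pole (D : FbD Y R G A c x y) (b : k) (hb : b ≠ 0) (hG : G.leadingCoeff = C b)
    (hodd : Odd (R.card + G.natDegree)) : FbPole Y x := by
  intro k'' hk hfin β hxV
  have L := Y.loc k'' hk hfin (some β)
  set V := Y.V k'' (some β) with hV
  have hkV : ∀ b : k, algebraMap k Ω b ∈ V := fun b => L.const _ (k''.algebraMap_mem b)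
  have hβV : (β : Ω) ∈ V := L.const β β.2
  have htβ : V.valuation (tt k Ω - β) < 1 := L.unif
  have htV : tt k Ω ∈ V := by
    have h1 : tt k Ω - β ∈ V := (V.valuation_le_one_iff _).1 htβ.le
    have e1 : tt k Ω = (tt k Ω - β) + β := by ring
    rw [e1]
    exact add_mem h1 hβV
  have hx0 : x ≠ 0 := by
    rintro rfl
    exact hxV (zero_mem _)
  obtain ⟨m, hm⟩ := hodd
  have hy : V.valuation (y ^ 2) = V.valuation x ^ (2 * m + 1) := by
    rw [D.eq, map_mul, map_mul, L.val_const c (hk D.memc) D.c0, one_mul, map_prod,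
      Finset.prod_congr rfl (fun e he => fb_big (L.const e (hk (D.memR e he))) hxV), Finset.prod_const,
      ev2_pole V hkV (tt k Ω) x htV hxV G b hb hG, ← pow_add, hm]
  refine ⟨x ^ m / y, div_mem (pow_mem (D.memx _) m)
    (Y.S.F_mono (show (Y.k0 : Set Ω) ⊆ (k'' : Set Ω) from fun z hz => hk hz) D.memy), ?_⟩
  have hv0 : V.valuation (y ^ 2) ≠ 0 := (Valuation.ne_zero_iff _).2 (pow_ne_zero 2 D.y0)
  have e1 : x * (x ^ m / y) ^ 2 = x ^ (2 * m + 1) * (y ^ 2)⁻¹ := by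
    rw [div_pow, ← pow_mul, mul_comm m 2, pow_succ, div_eq_mul_inv]
    ring
  rw [e1, map_mul, map_pow, ← hy, map_inv₀]
  exact mul_inv_cancel₀ hv0

end BSC
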