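import Pool.Agent.Lib_MP_49ddc8.Tw5

/-!
# The valuation ring for a point on a quadratic twist `c ∏ (t - α) y² = f(x)`
-/

set_option autoImplicit false

open Polynomial

namespace BSC

section

variable {k Ω : Type} [Field k] [CharZero k] [Field Ω] [IsAlgClosed Ω] [Algebra k Ω] [Algebra (RatFunc k) Ω]
  [IsScalarTower k (RatFunc k) Ω]

/-- the value of a separable polynomial as a product over its roots -/
theorem tw_roots (f : k[X]) (hf : f.Separable) : ∃ I : Finset Ω, (∀ e : Ω, e ∈ I ↔ aeval e f = 0) ∧ I.card = f.natDegree ∧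
    ∀ x : Ω, aeval x f = algebraMap k Ω f.leadingCoeff * ∏ e ∈ I, (x - e) := by
  classical
  set g : Polynomial Ω := f.map (algebraMap k Ω) with hg
  have hgs : g.Separable := hf.map
  have hf0 : f ≠ 0 := hf.ne_zero
  have hg0 : g ≠ 0 := (Polynomial.map_ne_zero_iff (algebraMap k Ω).injective).2 hf0
  have hgd : g.natDegree = f.natDegree := natDegree_map _
  have hgev : ∀ z : Ω, g.eval z = aeval z f := fun z => by
    rw [hg, eval_map_algebraMap]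
  have hsplit : g.Splits := IsAlgClosed.splits g
  have hnd : g.roots.Nodup := nodup_roots hgs
  refine ⟨g.roots.toFinset, fun e => ?_, ?_, fun x => ?_⟩
  · rw [Multiset.mem_toFinset, mem_roots hg0, IsRoot.def, hgev]
  · rw [Multiset.toFinset_card_of_nodup hnd, ← hgd, hsplit.natDegree_eq_card_roots]
  · have h1 : g = C g.leadingCoeff * (g.roots.map (fun a => X - C a)).prod := hsplit.eq_prod_roots
    have h2 : g.roots = g.roots.toFinset.val := by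
      rw [Multiset.toFinset_val, hnd.dedup]
    rw [← hgev]
    conv_lhs => rw [h1, h2]
    rw [eval_mul, eval_C]
    have h3 : g.leadingCoeff = algebraMap k Ω f.leadingCoeff := by
      rw [hg, leadingCoeff_map]
    rw [h3]
    congr 1
    rw [← Finset.prod_eq_multiset_prod, eval_prod]
    simp

theorem exists_U_tw (hC : Consts k Ω) (S : Sec (RatFunc k) Ω) (hdep : Dep (RatFunc k) Ω) (f : k[X]) (hf : f.Separable)
    (hodd : Odd f.natDegree) (hroot : ∀ a : k, f.eval a ≠ 0) (h3 : 3 ∣ Nat.card f.Gal) (c : k) (hc : c ≠ 0) (A : Finset k)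
    (hA : A.Nonempty) (x y : Ω) (hx : x ∈ S.F ∅) (hy : y ∈ S.F ∅) (htr : Transcendental (RatFunc k) x)
    (hxy : algebraMap k Ω c * (∏ α ∈ A, (tt k Ω - algebraMap k Ω α)) * y ^ 2 = aeval x f) :
    ∃ U : ValuationSubring Ω, (∀ z : Ω, IsAlgebraic (RatFunc k) z → z ∈ U) ∧ (∃ ξ : Ω, ξ ≠ 0 ∧ U.valuation ξ < 1) ∧
      ∀ (τ : algebraicClosure (RatFunc k) Ω ≃ₐ[RatFunc k] algebraicClosure (RatFunc k) Ω) (z : Ω), S.s τ z ∈ U ↔ z ∈ U := by
  classical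
  have : CharZero Ω := charZero_of_injective_algebraMap (algebraMap k Ω).injective
  have hf0 : f ≠ 0 := hf.ne_zero
  obtain ⟨k1, hfin1, hi1, hroots1, hnorm1⟩ := tw_level (Ω := Ω) f hf0
  obtain ⟨Y, hYS, hYk⟩ := exists_sys S k1 hfin1 (fun k' _ hfin' => hC.arith k' hfin') hi1
  subst hYS
  subst hYk
  have hnorm : ∀ τ, ∀ c ∈ Y.k0, Y.S.s τ c ∈ Y.k0 := hnorm1 Y.S
  obtain ⟨I, hIroot, hIcard, hIprod⟩ := tw_roots (Ω := Ω) f hf
  have hI : ∀ e ∈ I, e ∈ Y.k0 := fun e he => hroots1 e ((hIroot e).1 he)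
  obtain ⟨m, hm⟩ := hodd
  have hcard : I.card = 2 * m + 1 := by rw [hIcard, hm]
  have hlc : algebraMap k Ω f.leadingCoeff ≠ 0 :=
    (_root_.map_ne_zero (algebraMap k Ω)).2 (leadingCoeff_ne_zero.2 hf0)
  have hkmem : ∀ a : k, algebraMap k Ω a ∈ Y.k0 := fun a => Y.k0.algebraMap_mem a
  set c' : Ω := algebraMap k Ω (c / f.leadingCoeff) with hc'
  have hc'0 : c' ≠ 0 := (_root_.map_ne_zero (algebraMap k Ω)).2 (div_ne_zero hc (leadingCoeff_ne_zero.2 hf0))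
  have hc'k : c' ∈ Y.k0 := hkmem _
  let ι : k ↪ Y.k0 := ⟨fun a => algebraMap k Y.k0 a, (algebraMap k Y.k0).injective⟩
  set A' : Finset Y.k0 := A.map ι with hA'
  have hA'ne : A'.Nonempty := by
    obtain ⟨a, ha⟩ := hA
    exact ⟨ι a, Finset.mem_map.2 ⟨a, ha, rfl⟩⟩
  have hA'prod : ∏ α ∈ A', (tt k Ω - (α : Ω)) = ∏ α ∈ A, (tt k Ω - algebraMap k Ω α) := by
    rw [hA', Finset.prod_map]
    rfl
  have hA'fix : ∀ τ, ∀ α ∈ A', Y.S.s τ (α : Ω) = α := by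
    intro τ α hα
    obtain ⟨a, -, rfl⟩ := Finset.mem_map.1 hα
    exact Y.S.s_k τ a
  have hc'fix : ∀ τ, Y.S.s τ c' = c' := fun τ => Y.S.s_k τ _
  have hxF : x ∈ Y.S.F Y.k0 := Y.S.F_mono (Set.empty_subset _) hx
  have hyF : y ∈ Y.S.F Y.k0 := Y.S.F_mono (Set.empty_subset _) hy
  have hxfix : ∀ τ, Y.S.s τ x = x := fun τ => hx τ (fun z hz => absurd hz (Set.notMem_empty _))
  have hfx : aeval x f ≠ 0 := by
    intro h0
    have h1 : IsAlgebraic k x := ⟨f, hf0, h0⟩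
    exact htr (h1.tower_top (RatFunc k))
  have hy0 : y ≠ 0 := by
    rintro rfl
    apply hfx
    rw [← hxy]
    ring
  have hprod : ∏ e ∈ I, (x - e) = twD c' A' * y ^ 2 := by
    unfold twD
    rw [hA'prod, hc', map_div₀]
    have h1 := hIprod x
    rw [← hxy] at h1
    field_simp
    rw [h1]
    ring
  have hmove : ∀ e ∈ I, ∃ τ, Y.S.s τ x = x ∧ Y.S.s τ c' = c' ∧ (∀ α ∈ A', Y.S.s τ (α : Ω) = α) ∧ Y.S.s τ e ∈ I ∧
      Y.S.s τ e ≠ e := by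
    intro e he
    obtain ⟨τ, hτ⟩ := tw_moved Y.S f hf0 hroot e ((hIroot e).1 he)
    refine ⟨τ, hxfix τ, hc'fix τ, hA'fix τ, ?_, hτ⟩
    rw [hIroot, ← Y.S.s_aeval, (hIroot e).1 he, map_zero]
  have hpole := Y.tw_pole hnorm c' hc'k hc'0 A' I hI m hcard x y hxF hyF hy0 hprod hmove
  have hsq := Y.tw_squares c' hc'k hc'0 A' I hI m hcard x y hxF hyF hy0 hprod hpole hA'ne
  obtain ⟨τ, e₁, e₂, e₃, z1, z2, z3, h12, h13, h23, t1, t2, t3⟩ := tw_cycle Y.S f hf h3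
  have i1 := (hIroot e₁).2 z1
  have i2 := (hIroot e₂).2 z2
  have i3 := (hIroot e₃).2 z3
  obtain ⟨r₁, hr₁, q₁⟩ := hsq e₁ i1
  obtain ⟨r₂, hr₂, q₂⟩ := hsq e₂ i2
  obtain ⟨r₃, hr₃, q₃⟩ := hsq e₃ i3
  set D := twD c' A' with hD
  have hDF : D ∈ Y.S.F Y.k0 := twD_mem Y.S Y.k0 le_rfl Y.fin0 A' c' hc'k
  have hD0 : D ≠ 0 := twD_ne Y.fin0 A' c' hc'0
  have hDfix : ∀ τ, Y.S.s τ D = D := fun τ => twD_fix Y.S c' A' τ (hc'fix τ) (hA'fix τ)
  have hne : ∀ e ∈ I, x - e ≠ 0 := by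
    intro e he h0
    have h1 : ∏ e ∈ I, (x - e) = 0 := Finset.prod_eq_zero he h0
    rw [hprod] at h1
    exact mul_ne_zero hD0 (pow_ne_zero 2 hy0) h1
  have hr0 : ∀ e ∈ I, ∀ r : Ω, D * (x - e) = r ^ 2 → r ≠ 0 := by
    rintro e he r hq rfl
    exact mul_ne_zero hD0 (hne e he) (by rw [hq]; ring)
  set y₀ : Ω := r₁ * r₂ * r₃ / D ^ 2 with hy₀
  have hy₀F : y₀ ∈ Y.S.F Y.k0 := div_mem (mul_mem (mul_mem hr₁ hr₂) hr₃) (pow_mem hDF 2)
  have hy₀0 : y₀ ≠ 0 :=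
    div_ne_zero (mul_ne_zero (mul_ne_zero (hr0 e₁ i1 r₁ q₁) (hr0 e₂ i2 r₂ q₂)) (hr0 e₃ i3 r₃ q₃)) (pow_ne_zero 2 hD0)
  have hy₀2 : (x - e₁) * (x - e₂) * (x - e₃) = D * y₀ ^ 2 := by
    have e : D * y₀ ^ 2 = r₁ ^ 2 * r₂ ^ 2 * r₃ ^ 2 / D ^ 3 := by
      rw [hy₀]
      field_simp
    rw [e, ← q₁, ← q₂, ← q₃]
    field_simp
  have hy₀τ : Y.S.s τ y₀ = y₀ ∨ Y.S.s τ y₀ = -y₀ := by
    apply sq_eq_sq_iff_eq_or_eq_neg.1
    apply mul_left_cancel₀ hD0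
    have h1 := congrArg (Y.S.s τ) hy₀2
    rw [map_mul, map_mul, map_sub, map_sub, map_sub, hxfix, t1, t2, t3, map_mul, map_pow, hDfix] at h1
    rw [← h1, ← hy₀2]
    ring
  -- the fourth power of `τ`
  have hpow : ∀ z : Ω, Y.S.s (τ * τ * τ * τ) z = Y.S.s τ (Y.S.s τ (Y.S.s τ (Y.S.s τ z))) := by
    intro z
    rw [map_mul, map_mul, map_mul]
    rfl
  have P : TwSt Y D e₁ e₂ e₃ (τ * τ * τ * τ) x := by
    refine ⟨hxF, hxfix _, y₀, hy₀F, hy₀0, ?_, hy₀2⟩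
    rw [hpow]
    rcases hy₀τ with h | h
    · rw [h, h, h, h]
    · rw [h, map_neg, h, neg_neg, h, map_neg, h, neg_neg]
  obtain ⟨a₀, ha₀⟩ := hA
  have hα₀ : ι a₀ ∈ A' := Finset.mem_map.2 ⟨a₀, ha₀, rfl⟩
  have P3 : Pt3 Y x e₁ e₂ e₃ (some (ι a₀)) :=
    Y.tw_pt3 hC hnorm c' hc'k hc'0 A' (ι a₀) hα₀ e₁ e₂ e₃ (hI _ i1) (hI _ i2) (hI _ i3) h12 h13 h23 (τ * τ * τ * τ)
      (hc'fix _) (hA'fix _) (by rw [hpow, t1, t2, t3, t1]) (by rw [hpow, t2, t3, t1, t2]) (by rw [hpow, t3, t1, t2, t3]) x P htr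
  have htr0 : Transcendental (RatFunc k) (x - 0)⁻¹ := by
    rw [sub_zero]
    intro h
    exact htr (by simpa using h.inv)
  have hX : Xi Y (x - 0)⁻¹ :=
    ⟨htr0, fun k'' hk'' hfin'' a => P3.stepIII 0 (zero_mem _) k'' hk'' hfin'' a, fun z => hdep _ htr0 z⟩
  obtain ⟨U, u1, u2, u3⟩ := hX.V3
  refine ⟨U, u1, ⟨_, fun h0 => htr0 ?_, u2⟩, fun τ z => invariant _ U u1 u3 τ z⟩
  rw [h0]
  exact isAlgebraic_zero

end

/-- a polynomial which splits is a constant times a product of distinct linear factors times a square -/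
theorem tw_sqfree {k : Type} [Field k] [DecidableEq k] (D : k[X]) (hD : D ≠ 0) (hs : D.Splits) :
    ∃ (c : k) (A : Finset k) (s : k[X]), c ≠ 0 ∧ s ≠ 0 ∧ D = C c * (∏ α ∈ A, (X - C α)) * s ^ 2 := by
  have h1 : D = C D.leadingCoeff * (D.roots.map (fun a => X - C a)).prod := hs.eq_prod_roots
  have key : ∀ M : Multiset k, ∃ (A : Finset k) (s : k[X]), s ≠ 0 ∧ (M.map (fun a => X - C a)).prod = (∏ α ∈ A, (X - C α)) * s ^ 2 := by
    intro M
    induction M using Multiset.induction_on with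
    | empty => exact ⟨∅, 1, one_ne_zero, by simp⟩
    | cons a M ih =>
      obtain ⟨A, s, hs0, hM⟩ := ih
      rw [Multiset.map_cons, Multiset.prod_cons, hM]
      by_cases ha : a ∈ A
      · refine ⟨A.erase a, (X - C a) * s, mul_ne_zero (X_sub_C_ne_zero a) hs0, ?_⟩
        rw [← Finset.mul_prod_erase A _ ha]
        ring
      · refine ⟨insert a A, s, hs0, ?_⟩
        rw [Finset.prod_insert ha]
        ring
  obtain ⟨A, s, hs0, hM⟩ := key D.roots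
  refine ⟨D.leadingCoeff, A, s, leadingCoeff_ne_zero.2 hD, hs0, ?_⟩
  rw [mul_assoc, ← hM]
  exact h1

end BSC
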