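import Pool.Agent.Lib_MP_49ddc8.Fb2
import Pool.Agent.Lib_MP_49ddc8.Tw6

/-!
# Fixed branch points: collisions, Galois action
-/

set_option autoImplicit false

open Polynomial

namespace BSC

section

variable {k Ω : Type} [Field k] [CharZero k] [Field Ω] [IsAlgClosed Ω] [Algebra k Ω] [Algebra (RatFunc k) Ω]
  [IsScalarTower k (RatFunc k) Ω]

/-- a constant in `k'(t)` lies in `k'` -/
theorem mem_of_kt (k' : IntermediateField k Ω) (hfin : FiniteDimensional k k') (e : Ω) (he : IsAlgebraic k e)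
    (hk : e ∈ kt k') : e ∈ k' := by
  obtain ⟨p, q, hq, hpq⟩ := kt_frac k' hfin e hk
  obtain ⟨k'', hk'', hfin'', hA''⟩ := exists_level k' hfin {e} (Set.finite_singleton e) (by simpa using he)
  have he'' : e ∈ k'' := hA'' rfl
  set ι : k' →+* k'' := (IntermediateField.inclusion hk'').toRingHom with hι
  have hmap : ∀ (x : Ω) (r : k'[X]), aeval x (r.map ι) = aeval x r := by
    intro x r
    rw [aeval_def, aeval_def, eval₂_map]
    rfl
  have hq0 := aeval_tt_ne k' hfin q hq
  have h1 : aeval (tt k Ω) (p.map ι - C (⟨e, he''⟩ : k'') * q.map ι) = 0 := by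
    rw [map_sub, map_mul, hmap, hmap, aeval_C]
    show aeval (tt k Ω) p - e * aeval (tt k Ω) q = 0
    rw [hpq]
    field_simp
    ring
  have h2 : p.map ι - C (⟨e, he''⟩ : k'') * q.map ι = 0 := by
    by_contra h
    exact aeval_tt_ne k'' hfin'' _ h h1
  have h3 := congrArg (fun r => coeff r q.natDegree) h2
  simp only [coeff_sub, coeff_map, coeff_C_mul, coeff_zero] at h3
  have h4 : ((p.coeff q.natDegree : k') : Ω) - e * ((q.coeff q.natDegree : k') : Ω) = 0 := congrArg Subtype.val h3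
  have h5 : ((q.coeff q.natDegree : k') : Ω) ≠ 0 := by
    intro h0
    apply hq
    rw [← leadingCoeff_eq_zero]
    exact Subtype.ext h0
  have h6 : e = ((p.coeff q.natDegree : k') : Ω) / ((q.coeff q.natDegree : k') : Ω) := by
    rw [eq_div_iff h5]
    linear_combination -h4
  rw [h6]
  exact div_mem (p.coeff _).2 (q.coeff _).2

/-- a constant outside `k(α)` is moved by an automorphism which fixes `α` -/
theorem fb_moved (S : Sec (RatFunc k) Ω) (α e : Ω) (hα : IsAlgebraic k α) (he : IsAlgebraic k e)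
    (h : e ∉ IntermediateField.adjoin k {α}) : ∃ τ, S.s τ α = α ∧ S.s τ e ≠ e := by
  have hfin : FiniteDimensional k (IntermediateField.adjoin k {α}) :=
    IntermediateField.adjoin.finiteDimensional hα.isIntegral
  have hα' : IsAlgebraic (RatFunc k) α := hα.tower_top (RatFunc k)
  have he' : IsAlgebraic (RatFunc k) e := he.tower_top (RatFunc k)
  have hle : IntermediateField.adjoin (RatFunc k) {α} ≤ kt (IntermediateField.adjoin k {α}) := by
    apply IntermediateField.adjoin.mono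
    rintro z hz
    rw [Set.mem_singleton_iff] at hz
    rw [hz]
    exact IntermediateField.mem_adjoin_simple_self k α
  obtain ⟨τ, h1, h2⟩ := exists_move (κ := RatFunc k) (Ω := Ω) {α} (by
    intro z hz
    rw [Set.mem_singleton_iff] at hz
    rw [hz]
    exact hα') ⟨e, mem_algebraicClosure_iff.2 he'⟩ (fun hmem => h (mem_of_kt _ hfin e he (hle hmem)))
  refine ⟨τ, ?_, ?_⟩
  · have h3 := S.res τ ⟨α, mem_algebraicClosure_iff.2 hα'⟩
    rw [h1 ⟨α, mem_algebraicClosure_iff.2 hα'⟩ (Set.mem_singleton α)] at h3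
    exact h3
  · intro h3
    apply h2
    apply Subtype.ext
    rw [← S.res τ]
    exact h3

/-- a normal level with given algebraic elements -/
theorem fb_level (f : k[X]) (hf : f ≠ 0) (A : Finset Ω) (hA : ∀ a ∈ A, IsAlgebraic k a) :
    ∃ k1 : IntermediateField k Ω, FiniteDimensional k k1 ∧
    (∃ i ∈ k1, i ^ 2 = (-1 : Ω)) ∧ (∀ e : Ω, aeval e f = 0 → e ∈ k1) ∧ (∀ a ∈ A, a ∈ k1) ∧
    ∀ (S : Sec (RatFunc k) Ω) (τ : algebraicClosure (RatFunc k) Ω ≃ₐ[RatFunc k] algebraicClosure (RatFunc k) Ω),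
      ∀ c ∈ k1, S.s τ c ∈ k1 := by
  have hp : ∏ a ∈ A, minpoly k a ≠ 0 := Finset.prod_ne_zero_iff.2 fun a ha => minpoly.ne_zero (hA a ha).isIntegral
  obtain ⟨k1, h1, h2, h3, h4⟩ := tw_level (Ω := Ω) (f * ∏ a ∈ A, minpoly k a) (mul_ne_zero hf hp)
  refine ⟨k1, h1, h2, fun e he => h3 e ?_, fun a ha => h3 a ?_, h4⟩
  · rw [map_mul, he, zero_mul]
  · rw [map_mul, map_prod, Finset.prod_eq_zero ha (minpoly.aeval k a), mul_zero]

/-- the polynomial `G(X, e)` -/
theorem ev2_poly (G : k[X][X]) (e : Ω) : ∃ H : Polynomial Ω, ∀ a : Ω, H.eval a = ev2 G a e := by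
  refine ⟨∑ i ∈ Finset.range (G.natDegree + 1), (G.coeff i).map (algebraMap k Ω) * C (e ^ i), fun a => ?_⟩
  rw [ev2_eq, eval_finset_sum]
  refine Finset.sum_congr rfl fun i _ => ?_
  rw [eval_mul, eval_C, eval_map_algebraMap]

/-- the finitely many collisions -/
theorem fb_collisions (G : k[X][X]) (R : Finset Ω) (hR : ∀ e ∈ R, IsAlgebraic k e)
    (hcol : ∀ a e : Ω, IsAlgebraic k a → e ∈ R → ev2 G a e = 0 → e ∉ IntermediateField.adjoin k {a}) :
    ∃ A : Finset Ω, (∀ a ∈ A, IsAlgebraic k a) ∧ ∀ a : Ω, IsAlgebraic k a → ∀ e ∈ R, ev2 G a e = 0 → a ∈ A := by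
  classical
  have hH : ∀ e : Ω, ∃ H : Polynomial Ω, ∀ a : Ω, H.eval a = ev2 G a e := ev2_poly G
  choose H hH using hH
  refine ⟨(R.biUnion fun e => (H e).roots.toFinset).filter (fun a => IsAlgebraic k a), ?_, ?_⟩
  · intro a ha
    exact (Finset.mem_filter.1 ha).2
  · intro a ha e he h0
    rw [Finset.mem_filter, Finset.mem_biUnion]
    refine ⟨⟨e, he, ?_⟩, ha⟩
    rw [Multiset.mem_toFinset, mem_roots', IsRoot.def, hH]
    refine ⟨?_, h0⟩
    intro hz
    have h1 : ev2 G e e = 0 := by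
      rw [← hH, hz, eval_zero]
    exact hcol e e (hR e he) he h1 (IntermediateField.mem_adjoin_simple_self k e)

end

end BSC
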