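import Pool.Agent.Lib_MP_49ddc8.Gen

/-!
# The valuation ring for a point on a constant curve `ε y² = ∏ (x - e)` at a level
-/

set_option autoImplicit false

open Polynomial

namespace BSC

section

variable {k Ω : Type} [Field k] [CharZero k] [Field Ω] [IsAlgClosed Ω] [Algebra k Ω] [Algebra (RatFunc k) Ω]
  [IsScalarTower k (RatFunc k) Ω]

theorem odd_form_pts (S : Sec (RatFunc k) Ω) (k0 : IntermediateField k Ω) (hfin0 : FiniteDimensional k k0)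
    (I₀ : Finset Ω) (hI₀ : ∀ e ∈ I₀, e ∈ k0) (hdeg : 3 ≤ I₀.card) (x w ε : Ω) (hx : x ∈ S.F k0) (hw : w ∈ S.F k0) (hw0 : w ≠ 0)
    (hε : ε ∈ k0) (hε0 : ε ≠ 0)
    (htr : Transcendental (RatFunc k) x) (hxy : ∏ e ∈ I₀, (x - e) = ε * w ^ 2) :
    ∃ k' : IntermediateField k Ω, k0 ≤ k' ∧ FiniteDimensional k k' ∧ ∃ I : Finset Ω, (∀ e ∈ I, e ∈ k') ∧ Odd I.card ∧ 3 ≤ I.card ∧
      (∀ e ∈ I, ∀ e' ∈ I, ∃ d ∈ k', e - e' = d ^ 2) ∧ ∃ x' ∈ S.F k', Transcendental (RatFunc k) x' ∧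
        ∃ y' ∈ S.F k', y' ≠ 0 ∧ ∏ e ∈ I, (x' - e) = y' ^ 2 := by
  classical
  have hC : CharZero Ω := charZero_of_injective_algebraMap (algebraMap k Ω).injective
  set g : Polynomial Ω := ∏ e ∈ I₀, (X - C e) with hg
  have hgs : g.Separable := by
    rw [hg]
    exact separable_prod_X_sub_C_iff'.2 fun a _ b _ h => h
  have hgm : g.Monic := monic_prod_of_monic _ _ fun e _ => monic_X_sub_C e
  have hgd : g.natDegree = I₀.card := by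
    rw [hg, natDegree_prod_of_monic _ _ (fun e _ => monic_X_sub_C e)]
    simp
  have hgev : ∀ z : Ω, g.eval z = ∏ e ∈ I₀, (z - e) := fun z => by
    rw [hg, eval_prod]
    simp
  have hgx : g.eval x ≠ 0 := by
    rw [hgev, hxy]
    exact mul_ne_zero hε0 (pow_ne_zero 2 hw0)
  have hR : ∀ e : Ω, g.eval e = 0 → e ∈ I₀ := by
    intro e he
    rw [hgev, Finset.prod_eq_zero_iff] at he
    obtain ⟨e', he', h0⟩ := he
    rw [sub_eq_zero.1 h0]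
    exact he'
  have halg0 : ∀ z ∈ k0, IsAlgebraic k z := fun z hz => (level_alg k0 hfin0 z hz).1
  have hex : ∀ z : Ω, ∃ w : Ω, w ^ 2 = z := fun z => IsAlgClosed.exists_pow_nat_eq z (by norm_num)
  choose sq hsq using hex
  have hsqalg : ∀ z : Ω, IsAlgebraic k z → IsAlgebraic k (sq z) := fun z hz =>
    IsAlgebraic.of_pow (n := 2) (by norm_num) (by rw [hsq]; exact hz)
  let A : Set Ω := {sq (-1), sq ε} ∪ ((fun p : Ω × Ω => sq (p.1 - p.2)) '' ((I₀ : Set Ω) ×ˢ (I₀ : Set Ω)))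
  have hA : A.Finite := (Set.toFinite _).union (((I₀.finite_toSet).prod (I₀.finite_toSet)).image _)
  have halg : ∀ z ∈ A, IsAlgebraic k z := by
    rintro z ((rfl | hz) | ⟨⟨e, e'⟩, ⟨he, he'⟩, rfl⟩)
    · exact hsqalg _ (isAlgebraic_one.neg)
    · rw [Set.mem_singleton_iff] at hz
      rw [hz]
      exact hsqalg _ (halg0 _ hε)
    · exact hsqalg _ ((halg0 e (hI₀ e he)).sub (halg0 e' (hI₀ e' he')))
  obtain ⟨k', hk', hfin', hAk⟩ := exists_level k0 hfin0 A hA halg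
  have hεk : sq ε ∈ k' := hAk (Or.inl (Or.inr rfl))
  obtain ⟨I, hI1, hI2, hI3, hI4, hI5⟩ := prod_form k'.toSubfield g hgs (by rw [hgd]; exact hdeg)
    (fun e he => hk' (hI₀ e (hR e he)))
    ⟨sq (-1), hAk (Or.inl (Or.inl rfl)), hsq _⟩
    ⟨1, one_mem _, by rw [hgm.leadingCoeff, one_pow]⟩
    (fun e e' he he' => ⟨sq (e - e'), hAk (Or.inr ⟨(e, e'), ⟨hR e he, hR e' he'⟩, rfl⟩), (hsq _).symm⟩)
  have hkF : ∀ c ∈ k', c ∈ S.F k' := fun c hc => kt_le_F S k' hfin' c (IntermediateField.subset_adjoin _ _ hc)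
  have hx' : x ∈ S.F k' := S.F_mono hk' hx
  have hw' : w ∈ S.F k' := S.F_mono hk' hw
  have hsε0 : sq ε ≠ 0 := by
    intro h
    have := hsq ε
    rw [h] at this
    exact hε0 (by rw [← this]; ring)
  obtain ⟨x', hxx, u, hu, hu0, v, hv, hprod⟩ := hI5 x hgx
  refine ⟨k', hk', hfin', I, hI1, hI2, hI3, hI4, x', ?_, ?_, u * v * (sq ε * w), ?_, ?_, ?_⟩
  · rcases hxx with rfl | ⟨e, he, hne, rfl⟩
    · exact hx'
    · exact inv_mem (sub_mem hx' (hkF e he))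
  · rcases hxx with rfl | ⟨e, he, hne, rfl⟩
    · exact htr
    · intro hal
      apply htr
      have h1 : x = ((x - e)⁻¹)⁻¹ + e := by
        rw [inv_inv]
        ring
      rw [h1]
      exact hal.inv.add (level_alg k' hfin' e he).2
  · refine mul_mem (mul_mem (hkF u hu) ?_) (mul_mem (hkF _ hεk) hw')
    rcases hv with rfl | ⟨e, he, n, hne, rfl⟩
    · exact one_mem _
    · exact pow_mem (inv_mem (sub_mem hx' (hkF e he))) n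
  · refine mul_ne_zero (mul_ne_zero hu0 ?_) (mul_ne_zero hsε0 hw0)
    rcases hv with rfl | ⟨e, he, n, hne, rfl⟩
    · exact one_ne_zero
    · exact pow_ne_zero n (inv_ne_zero (sub_ne_zero.2 hne))
  · rw [hprod, hgev, hxy, mul_pow (u * v) (sq ε * w), mul_pow (sq ε) w, hsq]

theorem exists_pt1_pts (hC : Consts k Ω) (Y : Sys k Ω) (I₀ : Finset Ω) (hI₀ : ∀ e ∈ I₀, e ∈ Y.k0) (hdeg : 3 ≤ I₀.card)
    (x w ε : Ω) (hx : x ∈ Y.S.F Y.k0) (hw : w ∈ Y.S.F Y.k0) (hw0 : w ≠ 0) (hε : ε ∈ Y.k0) (hε0 : ε ≠ 0)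
    (htr : Transcendental (RatFunc k) x) (hxy : ∏ e ∈ I₀, (x - e) = ε * w ^ 2) :
    ∃ (k' : IntermediateField k Ω) (hk : Y.k0 ≤ k') (hfin : FiniteDimensional k k') (x₀ e₁ e₂ e₃ : Ω)
      (a₀ : Option k'), Pt1 (Y.raise k' hk hfin) x₀ e₁ e₂ e₃ a₀ := by
  obtain ⟨k₁, hk₁, hfin₁, I, hI, hodd, h3, hsq, x₁, hx₁, htr₁, y₁, hy₁, hy₁0, hxy₁⟩ :=
    odd_form_pts Y.S Y.k0 Y.fin0 I₀ hI₀ hdeg x w ε hx hw hw0 hε hε0 htr hxy
  obtain ⟨k₂, hk₂, hfin₂, e₁, he₁, e₂, he₂, e₃, he₃, h12, h13, h23, ⟨r₁, hr₁, q₁⟩, ⟨r₂, hr₂, q₂⟩, ⟨r₃, hr₃, q₃⟩⟩ :=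
    three_squares Y k₁ hk₁ hfin₁ I hI hodd h3 x₁ y₁ hx₁ hy₁ hy₁0 hxy₁
  have hxt : x₁ ≠ tt k Ω := by
    rintro rfl
    exact htr₁ (isAlgebraic_algebraMap _)
  obtain ⟨k₃, hk₃, hfin₃, a, ha⟩ := Y.base_place k₂ (hk₁.trans hk₂) hfin₂ x₁ (Y.S.F_mono hk₂ hx₁) hxt
  have hk13 : k₁ ≤ k₃ := hk₂.trans hk₃
  have hI3 : ∀ e ∈ I, e ∈ k₃ := fun e he => hk13 (hI e he)
  obtain ⟨x₀, hx₀, htr₀, hneg, s1, s2, s3⟩ := (Y.raise k₃ (hk₁.trans hk13) hfin₃).shift a e₁ e₂ e₃ (hI3 _ he₁) (hI3 _ he₂)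
    (hI3 _ he₃) h12 h13 h23 (by
      have hmem : ∀ e ∈ ({e₁, e₂, e₃} : Set Ω), e ∈ I := by
        rintro e (rfl | rfl | rfl)
        · exact he₁
        · exact he₂
        · exact he₃
      intro e he e' he'
      obtain ⟨d, hd, hdd⟩ := hsq e (hmem e he) e' (hmem e' he')
      exact ⟨d, hk13 hd, hdd⟩) x₁ (Y.S.F_mono hk13 hx₁) htr₁
    ⟨r₁, Y.S.F_mono hk₃ hr₁, q₁⟩ ⟨r₂, Y.S.F_mono hk₃ hr₂, q₂⟩ ⟨r₃, Y.S.F_mono hk₃ hr₃, q₃⟩ ha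
  obtain ⟨X, hX0, hst⟩ := (Y.raise k₃ (hk₁.trans hk13) hfin₃).chain1 a e₁ e₂ e₃ (hI3 _ he₁) (hI3 _ he₂)
    (hI3 _ he₃) h12 h13 h23 x₀ hx₀ hneg s1 s2 s3
  refine ⟨k₃, hk₁.trans hk13, hfin₃, x₀, e₁, e₂, e₃, a, ?_⟩
  refine { mem := hx₀, h1 := hI3 _ he₁, h2 := hI3 _ he₂, h3 := hI3 _ he₃, h12 := h12, h13 := h13, h23 := h23,
           sq1 := s1, neg := hneg, spec := ?_, fin := ?_, tr := htr₀, nsq := ?_ }
  · intro k' hk hfin b c hc hc1 hc2 hc3 hv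
    have hk3 : k₃ ≤ k' := hk
    obtain ⟨C, hC0, hCk, hCne, hCD⟩ := (Y.raise k₃ (hk₁.trans hk13) hfin₃).spec1 e₁ e₂ e₃ (hI3 _ he₁) (hI3 _ he₂)
      (hI3 _ he₃) h12 h13 h23 X hst k' hk hfin b c hc hc1 hc2 hc3 (by rw [hX0]; exact hv)
    obtain ⟨n, hn, hper⟩ := hC.chain k' hfin e₁ e₂ e₃ (hk3 (hI3 _ he₁)) (hk3 (hI3 _ he₂)) (hk3 (hI3 _ he₃))
      h12 h13 h23 C hCk hCne hCD
    exact ⟨n, hn, by rw [← hC0]; exact hper⟩
  · intro k' hk hfin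
    have hk3 : k₃ ≤ k' := hk
    exact hC.per k' hfin e₁ e₂ e₃ (hk3 (hI3 _ he₁)) (hk3 (hI3 _ he₂)) (hk3 (hI3 _ he₃)) h12 h13 h23
  · intro k' hk hfin
    obtain ⟨c, hc, -, -⟩ := (hC.arith k' hfin).2
    refine ⟨(c : Ω), c.2, ?_⟩
    rintro ⟨d, hd, hcd⟩
    exact hc ⟨⟨d, hd⟩, Subtype.ext (by rw [hcd]; rfl)⟩

/-- a point `x` of `∏_{e ∈ I} (x - e) = ε w²` at the level `k1` gives the valuation ring -/
theorem exists_U_pts (hC : Consts k Ω) (S : Sec (RatFunc k) Ω) (hdep : Dep (RatFunc k) Ω) (k1 : IntermediateField k Ω)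
    (hfin1 : FiniteDimensional k k1) (hi : ∃ i ∈ k1, i ^ 2 = (-1 : Ω)) (I : Finset Ω) (hI : ∀ e ∈ I, e ∈ k1) (h3 : 3 ≤ I.card)
    (x w ε : Ω) (hx : x ∈ S.F k1) (hw : w ∈ S.F k1) (hw0 : w ≠ 0) (hε : ε ∈ k1) (hε0 : ε ≠ 0)
    (htr : Transcendental (RatFunc k) x) (hxy : ∏ e ∈ I, (x - e) = ε * w ^ 2) :
    ∃ U : ValuationSubring Ω, (∀ z : Ω, IsAlgebraic (RatFunc k) z → z ∈ U) ∧ (∃ ξ : Ω, ξ ≠ 0 ∧ U.valuation ξ < 1) ∧
      ∀ (τ : algebraicClosure (RatFunc k) Ω ≃ₐ[RatFunc k] algebraicClosure (RatFunc k) Ω) (z : Ω), S.s τ z ∈ U ↔ z ∈ U := by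
  obtain ⟨Y, hYS, hYk⟩ := exists_sys S k1 hfin1 (fun k' _ hfin' => hC.arith k' hfin') hi
  subst hYS
  subst hYk
  obtain ⟨k', hk, hfin, x₀, e₁, e₂, e₃, a₀, P⟩ := exists_pt1_pts hC Y I hI h3 x w ε hx hw hw0 hε hε0 htr hxy
  have htr0 : Transcendental (RatFunc k) (x₀ - 0)⁻¹ := by
    rw [sub_zero]
    intro h
    exact P.tr (by simpa using h.inv)
  have hX : Xi (Y.raise k' hk hfin) (x₀ - 0)⁻¹ :=
    ⟨htr0, fun k'' hk'' hfin'' a => P.stepIII 0 (zero_mem _) k'' hk'' hfin'' a,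
      fun z => hdep _ htr0 z⟩
  obtain ⟨U, h1, h2, h3⟩ := hX.V3
  refine ⟨U, h1, ⟨_, fun h0 => htr0 ?_, h2⟩, fun τ z => invariant _ U h1 h3 τ z⟩
  rw [h0]
  exact isAlgebraic_zero

end

end BSC
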