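import Pool.Agent.Lib_MP_49ddc8.Main
import Pool.Agent.Lib_MP_49ddc8.Ari
import Pool.Agent.Lib_MP_49ddc8.Dyn

/-!
# The main theorem for finitely generated constant fields
-/

set_option autoImplicit false

open Polynomial

namespace BSC

/-- the arithmetic facts used of the levels `k'`, finite over `k` -/
structure Consts (k Ω : Type) [Field k] [Field Ω] [Algebra k Ω] : Prop where
  arith : ∀ k' : IntermediateField k Ω, FiniteDimensional k k' → Arith k'.toSubfield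
  per : ∀ (k' : IntermediateField k Ω), FiniteDimensional k k' → ∀ e₁ e₂ e₃ : Ω, e₁ ∈ k' → e₂ ∈ k' → e₃ ∈ k' →
    e₁ ≠ e₂ → e₁ ≠ e₃ → e₂ ≠ e₃ → {c : Ω | c ∈ k' ∧ ∃ n : ℕ, 1 ≤ n ∧ (DD e₁ e₂ e₃)^[n] c = c}.Finite
  chain : ∀ (k' : IntermediateField k Ω), FiniteDimensional k k' → ∀ e₁ e₂ e₃ : Ω, e₁ ∈ k' → e₂ ∈ k' → e₃ ∈ k' →
    e₁ ≠ e₂ → e₁ ≠ e₃ → e₂ ≠ e₃ → ∀ c : ℕ → Ω, (∀ m, c m ∈ k') → (∀ m, c m ≠ e₁ ∧ c m ≠ e₂ ∧ c m ≠ e₃) →
      (∀ m, DD e₁ e₂ e₃ (c (m + 1)) = c m) → ∃ n : ℕ, 1 ≤ n ∧ (DD e₁ e₂ e₃)^[n] (c 0) = c 0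

theorem level_fg (k M : Type) [Field k] [CharZero k] [Field M] [CharZero M] [Algebra k M] [FiniteDimensional k M]
    (hk : (⊤ : IntermediateField ℚ k).FG) : (⊤ : IntermediateField ℚ M).FG := by
  rw [IntermediateField.fg_top_iff] at hk ⊢
  exact Algebra.EssFiniteType.comp ℚ k M

theorem two_norm_lt : ‖(2 : PadicAlgCl 2)‖ < 1 := by
  have h : (2 : PadicAlgCl 2) = algebraMap ℚ_[2] (PadicAlgCl 2) 2 := by
    rw [map_ofNat]
  rw [h, PadicAlgCl.norm_extends]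
  have := Padic.norm_p_lt_one (p := 2)
  exact_mod_cast this

theorem arith_fg (M : Type) [Field M] [CharZero M] (h : (⊤ : IntermediateField ℚ M).FG) : Arith M := by
  obtain ⟨σ, K, hfin, hσ⟩ := exists_emb M h
  exact arith_two two_norm_lt K.toSubfield (tb_fin K hfin) M σ hσ

theorem good_fg (M : Type) [Field M] [CharZero M] (h : (⊤ : IntermediateField ℚ M).FG) : Good M where
  arith := arith_fg M h
  per := fun e₁ e₂ e₃ h12 h13 h23 => periodic_fg M h e₁ e₂ e₃ h12 h13 h23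
  chain := fun e₁ e₂ e₃ h12 h13 h23 c hc hD => by
    obtain ⟨N, hN⟩ := chain_fg M h e₁ e₂ e₃ h12 h13 h23
    obtain ⟨d, hd, -, hd'⟩ := hN c hc hD
    exact ⟨d, hd, hd'⟩

theorem consts_of_fg {k Ω : Type} [Field k] [CharZero k] [Field Ω] [Algebra k Ω] (hk : (⊤ : IntermediateField ℚ k).FG) :
    Consts k Ω := by
  have hG : ∀ k' : IntermediateField k Ω, FiniteDimensional k k' → Good k' := fun k' hfin => by
    have : CharZero k' := charZero_of_injective_algebraMap (algebraMap k k').injective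
    exact good_fg k' (level_fg k k' hk)
  refine ⟨fun k' hfin => (hG k' hfin).arith, ?_, ?_⟩
  · intro k' hfin e₁ e₂ e₃ h1 h2 h3 h12 h13 h23
    have hp := (hG k' hfin).per ⟨e₁, h1⟩ ⟨e₂, h2⟩ ⟨e₃, h3⟩ (fun h => h12 (congrArg Subtype.val h))
      (fun h => h13 (congrArg Subtype.val h)) (fun h => h23 (congrArg Subtype.val h))
    refine (hp.image (fun x : k' => (x : Ω))).subset ?_
    rintro c ⟨hck, n, hn, hc⟩
    refine ⟨⟨c, hck⟩, ⟨n, hn, ?_⟩, rfl⟩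
    apply Subtype.ext
    have := coe_DD_iter k' ⟨e₁, h1⟩ ⟨e₂, h2⟩ ⟨e₃, h3⟩ ⟨c, hck⟩ n
    rw [this]
    exact hc
  · intro k' hfin e₁ e₂ e₃ h1 h2 h3 h12 h13 h23 c hck hc hD
    obtain ⟨n, hn, hper⟩ := (hG k' hfin).chain ⟨e₁, h1⟩ ⟨e₂, h2⟩ ⟨e₃, h3⟩
      (fun h => h12 (congrArg Subtype.val h))
      (fun h => h13 (congrArg Subtype.val h)) (fun h => h23 (congrArg Subtype.val h))
      (fun m => ⟨c m, hck m⟩)
      (fun m => ⟨fun h => (hc m).1 (congrArg Subtype.val h), fun h => (hc m).2.1 (congrArg Subtype.val h),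
        fun h => (hc m).2.2 (congrArg Subtype.val h)⟩)
      (fun m => by
        apply Subtype.ext
        rw [coe_DD]
        exact hD m)
    refine ⟨n, hn, ?_⟩
    have := coe_DD_iter k' ⟨e₁, h1⟩ ⟨e₂, h2⟩ ⟨e₃, h3⟩ ⟨c 0, hck 0⟩ n
    rw [hper] at this
    exact this.symm

section

variable {k Ω : Type} [Field k] [CharZero k] [Field Ω] [IsAlgClosed Ω] [Algebra k Ω] [Algebra (RatFunc k) Ω]
  [IsScalarTower k (RatFunc k) Ω]

theorem exists_pt1_gen (hC : Consts k Ω) (Y : Sys k Ω) (f : k[X]) (hf : f.Separable) (hdeg : 3 ≤ f.natDegree) (x y : Ω) (hx : x ∈ Y.S.F Y.k0)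
    (hy : y ∈ Y.S.F Y.k0) (htr : Transcendental (RatFunc k) x) (hxy : y ^ 2 = aeval x f) :
    ∃ (k' : IntermediateField k Ω) (hk : Y.k0 ≤ k') (hfin : FiniteDimensional k k') (x₀ e₁ e₂ e₃ : Ω)
      (a₀ : Option k'), Pt1 (Y.raise k' hk hfin) x₀ e₁ e₂ e₃ a₀ := by
  obtain ⟨k₁, hk₁, hfin₁, I, hI, hodd, h3, hsq, x₁, hx₁, htr₁, y₁, hy₁, hy₁0, hxy₁⟩ :=
    odd_form Y.S Y.k0 Y.fin0 f hf hdeg x y hx hy htr hxy
  obtain ⟨k₂, hk₂, hfin₂, e₁, he₁, e₂, he₂, e₃, he₃, h12, h13, h23, ⟨r₁, hr₁, q₁⟩, ⟨r₂, hr₂, q₂⟩, ⟨r₃, hr₃, q₃⟩⟩ :=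
    three_squares Y k₁ hk₁ hfin₁ I hI hodd h3 x₁ y₁ hx₁ hy₁ hy₁0 hxy₁
  have hxt : x₁ ≠ tt k Ω := by
    rintro rfl
    exact htr₁ (isAlgebraic_algebraMap _)
  obtain ⟨k₃, hk₃, hfin₃, a, ha⟩ := Y.base_place k₂ (hk₁.trans hk₂) hfin₂ x₁ (Y.S.F_mono hk₂ hx₁) hxt
  have hk13 : k₁ ≤ k₃ := hk₂.trans hk₃
  have hI3 : ∀ e ∈ I, e ∈ k₃ := fun e he => hk13 (hI e he)
  obtain ⟨x₀, hx₀, htr₀, hneg, s1, s2, s3⟩ := (Y.raise k₃ (hk₁.trans hk13) hfin₃).shift a e₁ e₂ e₃ (hI3 _ he₁) (hI3 _ he₂)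
    (hI3 _ he₃) h12 h13 h23 (by
      have hmem : ∀ e ∈ ({e₁, e₂, e₃} : Set Ω), e ∈ I := by
        rintro e (rfl | rfl | rfl)
        · exact he₁
        · exact he₂
        · exact he₃
      intro e he e' he'
      obtain ⟨d, hd, hdd⟩ := hsq e (hmem e he) e' (hmem e' he')
      exact ⟨d, hk13 hd, hdd⟩) x₁ (Y.S.F_mono hk13 hx₁) htr₁
    ⟨r₁, Y.S.F_mono hk₃ hr₁, q₁⟩ ⟨r₂, Y.S.F_mono hk₃ hr₂, q₂⟩ ⟨r₃, Y.S.F_mono hk₃ hr₃, q₃⟩ ha
  obtain ⟨X, hX0, hst⟩ := (Y.raise k₃ (hk₁.trans hk13) hfin₃).chain1 a e₁ e₂ e₃ (hI3 _ he₁) (hI3 _ he₂)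
    (hI3 _ he₃) h12 h13 h23 x₀ hx₀ hneg s1 s2 s3
  refine ⟨k₃, hk₁.trans hk13, hfin₃, x₀, e₁, e₂, e₃, a, ?_⟩
  refine { mem := hx₀, h1 := hI3 _ he₁, h2 := hI3 _ he₂, h3 := hI3 _ he₃, h12 := h12, h13 := h13, h23 := h23,
           sq1 := s1, neg := hneg, spec := ?_, fin := ?_, tr := htr₀, nsq := ?_ }
  · intro k' hk hfin b c hc hc1 hc2 hc3 hv
    have hk3 : k₃ ≤ k' := hk
    obtain ⟨C, hC0, hCk, hCne, hCD⟩ := (Y.raise k₃ (hk₁.trans hk13) hfin₃).spec1 e₁ e₂ e₃ (hI3 _ he₁) (hI3 _ he₂)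
      (hI3 _ he₃) h12 h13 h23 X hst k' hk hfin b c hc hc1 hc2 hc3 (by rw [hX0]; exact hv)
    obtain ⟨n, hn, hper⟩ := hC.chain k' hfin e₁ e₂ e₃ (hk3 (hI3 _ he₁)) (hk3 (hI3 _ he₂)) (hk3 (hI3 _ he₃))
      h12 h13 h23 C hCk hCne hCD
    exact ⟨n, hn, by rw [← hC0]; exact hper⟩
  · intro k' hk hfin
    have hk3 : k₃ ≤ k' := hk
    exact hC.per k' hfin e₁ e₂ e₃ (hk3 (hI3 _ he₁)) (hk3 (hI3 _ he₂)) (hk3 (hI3 _ he₃)) h12 h13 h23
  · intro k' hk hfin
    obtain ⟨c, hc, -, -⟩ := (hC.arith k' hfin).2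
    refine ⟨(c : Ω), c.2, ?_⟩
    rintro ⟨d, hd, hcd⟩
    exact hc ⟨⟨d, hd⟩, Subtype.ext (by rw [hcd]; rfl)⟩


end

theorem exists_U_gen {k Ω : Type} [Field k] [CharZero k] [Field Ω] [IsAlgClosed Ω] [Algebra k Ω] [Algebra (RatFunc k) Ω]
    [IsScalarTower k (RatFunc k) Ω] (hC : Consts k Ω) (S : Sec (RatFunc k) Ω) (hdep : Dep (RatFunc k) Ω) (f : k[X]) (hf : f.Separable)
    (hdeg : 3 ≤ f.natDegree) (x y : Ω) (hx : x ∈ S.F ∅) (hy : y ∈ S.F ∅) (htr : Transcendental (RatFunc k) x)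
    (hxy : y ^ 2 = aeval x f) :
    ∃ U : ValuationSubring Ω, (∀ z : Ω, IsAlgebraic (RatFunc k) z → z ∈ U) ∧ (∃ ξ : Ω, ξ ≠ 0 ∧ U.valuation ξ < 1) ∧
      ∀ (τ : algebraicClosure (RatFunc k) Ω ≃ₐ[RatFunc k] algebraicClosure (RatFunc k) Ω) (z : Ω), S.s τ z ∈ U ↔ z ∈ U := by
  obtain ⟨i, hi⟩ := IsAlgClosed.exists_pow_nat_eq (-1 : Ω) (n := 2) (by norm_num)
  have hialg : IsAlgebraic k i := by
    refine ⟨X ^ 2 + C 1, (monic_X_pow_add_C (1 : k) two_ne_zero).ne_zero, ?_⟩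
    simp [hi]
  obtain ⟨k0, -, hfin0, hik⟩ := exists_level (k := k) (Ω := Ω) ⊥ inferInstance {i}
    (Set.finite_singleton i) (by rintro z rfl; exact hialg)
  obtain ⟨Y, hYS, hYk⟩ := exists_sys S k0 hfin0 (fun k' _ hfin' => hC.arith k' hfin') ⟨i, hik rfl, hi⟩
  subst hYS
  have hx' : x ∈ Y.S.F Y.k0 := Y.S.F_mono (Set.empty_subset _) hx
  have hy' : y ∈ Y.S.F Y.k0 := Y.S.F_mono (Set.empty_subset _) hy
  obtain ⟨k', hk, hfin, x₀, e₁, e₂, e₃, a₀, P⟩ := exists_pt1_gen hC Y f hf hdeg x y hx' hy' htr hxy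
  have htr0 : Transcendental (RatFunc k) (x₀ - 0)⁻¹ := by
    rw [sub_zero]
    intro h
    exact P.tr (by simpa using h.inv)
  have hX : Xi (Y.raise k' hk hfin) (x₀ - 0)⁻¹ :=
    ⟨htr0, fun k'' hk'' hfin'' a => P.stepIII 0 (zero_mem _) k'' hk'' hfin'' a,
      fun z => hdep _ htr0 z⟩
  obtain ⟨U, h1, h2, h3⟩ := hX.V3
  refine ⟨U, h1, ⟨_, fun h0 => htr0 ?_, h2⟩, fun τ z => invariant _ U h1 h3 τ z⟩
  rw [h0]
  exact isAlgebraic_zero

/-- `κ` has a finite extension `k(u)`, `k` finitely generated over `ℚ`; `K/κ` has transcendence degree one, and the field generated by `K` and `k(u)`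
contains `x` (transcendental over `κ`) and `y` with `y² = f(x)`, `f ∈ k[X]` separable of degree at least `3`.
Then every section of `G_K → G_κ` is defined by exactly one `κ`-rational place of `K`. -/
theorem bsc_fg (κ : Type) [Field κ] [CharZero κ] (K : Type) [Field K] [Algebra κ K]
    (htd : ∃ t : K, Transcendental κ t ∧ Algebra.IsAlgebraic (IntermediateField.adjoin κ {t}) K)
    (k : Type) [Field k] [CharZero k] (hk : (⊤ : IntermediateField ℚ k).FG) [Algebra κ (RatFunc k)] [FiniteDimensional κ (RatFunc k)]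
    (φ : RatFunc k →ₐ[κ] AlgebraicClosure K) (f : k[X]) (hf : f.Separable) (hdeg : 3 ≤ f.natDegree) (x y : AlgebraicClosure K)
    (hx : x ∈ IntermediateField.adjoin K (Set.range φ)) (hy : y ∈ IntermediateField.adjoin K (Set.range φ))
    (htr : Transcendental κ x) (hxy : y ^ 2 = f.eval₂ (φ.toRingHom.comp (algebraMap k (RatFunc k))) x)
    (s : ((algebraicClosure κ (AlgebraicClosure K)) ≃ₐ[κ] (algebraicClosure κ (AlgebraicClosure K))) →*
      (AlgebraicClosure K ≃ₐ[K] AlgebraicClosure K)) (hs : Continuous s)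
    (hres : ∀ (τ : (algebraicClosure κ (AlgebraicClosure K)) ≃ₐ[κ] (algebraicClosure κ (AlgebraicClosure K)))
      (x : algebraicClosure κ (AlgebraicClosure K)),
        s τ (x : AlgebraicClosure K) = ((τ x : algebraicClosure κ (AlgebraicClosure K)) : AlgebraicClosure K)) :
    ∃! O : ValuationSubring K,
      ((∀ c : κ, algebraMap κ K c ∈ O) ∧ O ≠ ⊤ ∧
        ∀ x ∈ O, ∃ c : κ, x - algebraMap κ K c = 0 ∨ (x - algebraMap κ K c)⁻¹ ∉ O) ∧
      ∃ W : ValuationSubring (AlgebraicClosure K),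
        W.comap (algebraMap K (AlgebraicClosure K)) = O ∧
        ∀ τ, ∀ y : AlgebraicClosure K, (s τ y ∈ W ↔ y ∈ W) := by
  obtain ⟨S, hS⟩ := exists_sec κ K s hs hres
  have hK : ∀ τ (c : K), S.s τ (algebraMap K (AlgebraicClosure K) c) = algebraMap K (AlgebraicClosure K) c := by
    intro τ c
    rw [hS]
    exact (s τ).commutes c
  have hφalg : ∀ r : RatFunc k, IsAlgebraic κ (φ r) := fun r => (Algebra.IsAlgebraic.isAlgebraic (R := κ) r).algHom φ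
  have hdep : Dep κ (AlgebraicClosure K) := dep_of_trdeg κ K htd
  -- the valuation ring
  obtain ⟨U, halgU, ξ, hξ0, hξ, hinvU⟩ : ∃ U : ValuationSubring (AlgebraicClosure K), (∀ z : AlgebraicClosure K, IsAlgebraic κ z → z ∈ U) ∧
      ∃ ξ : AlgebraicClosure K, ξ ≠ 0 ∧ U.valuation ξ < 1 ∧
        ∀ τ : algebraicClosure κ (AlgebraicClosure K) ≃ₐ[κ] algebraicClosure κ (AlgebraicClosure K),
          (∀ x : algebraicClosure κ (AlgebraicClosure K), (x : AlgebraicClosure K) ∈ Set.range φ → τ x = x) →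
            ∀ z : AlgebraicClosure K, S.s τ z ∈ U ↔ z ∈ U := by
    let _ : Algebra (RatFunc k) (AlgebraicClosure K) := φ.toRingHom.toAlgebra
    let _ : Algebra k (AlgebraicClosure K) := (φ.toRingHom.comp (algebraMap k (RatFunc k))).toAlgebra
    have : IsScalarTower k (RatFunc k) (AlgebraicClosure K) := IsScalarTower.of_algebraMap_eq (fun _ => rfl)
    have hsub : ∀ c : κ, ∃ r : RatFunc k, algebraMap (RatFunc k) (AlgebraicClosure K) r = algebraMap κ (AlgebraicClosure K) c :=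
      fun c => ⟨algebraMap κ (RatFunc k) c, φ.commutes c⟩
    obtain ⟨hiff, S₁, h1, h2⟩ := exists_restrict κ (RatFunc k) (AlgebraicClosure K) hsub hφalg S
    have hfix : ∀ z ∈ IntermediateField.adjoin K (Set.range φ), z ∈ S₁.F ∅ := by
      intro z hz τ₁ _
      obtain ⟨τ, hτ, hττ⟩ := h1 τ₁
      rw [hττ]
      induction hz using IntermediateField.adjoin_induction with
      | mem z hz =>
        obtain ⟨r, rfl⟩ := hz
        have := S.res τ ⟨φ r, mem_algebraicClosure_iff.2 (hφalg r)⟩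
        rw [hτ _ ⟨r, rfl⟩] at this
        exact this
      | algebraMap c => exact hK τ c
      | add a b _ _ ha hb => rw [map_add, ha, hb]
      | inv a _ ha => rw [map_inv₀, ha]
      | mul a b _ _ ha hb => rw [map_mul, ha, hb]
    obtain ⟨U, hU1, ⟨ξ, hξ0, hξ⟩, hU3⟩ := exists_U_gen (consts_of_fg hk) S₁ (dep_up κ (RatFunc k) (AlgebraicClosure K) hsub hdep) f hf hdeg x y
      (hfix x hx) (hfix y hy) (fun h => htr ((hiff x).1 h)) hxy
    refine ⟨U, fun z hz => hU1 z ((hiff z).2 hz), ξ, hξ0, hξ, ?_⟩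
    intro τ hτ z
    obtain ⟨τ₁, hτ₁⟩ := h2 τ hτ
    rw [← hτ₁, hU3]
  have hresU : ∀ y ∈ U, ∃ ρ : AlgebraicClosure K, IsAlgebraic κ ρ ∧ U.valuation (y - ρ) < 1 := fun y hy =>
    res_alg κ (AlgebraicClosure K) U halgU ξ hξ0 hξ y hy (hdep ξ (m3_tr U halgU ξ hξ0 hξ) y)
  have hinv := inv_all φ S U halgU hresU hinvU
  refine ⟨U.comap (algebraMap K (AlgebraicClosure K)), ⟨⟨?_, ?_, ?_⟩, U, rfl, ?_⟩, ?_⟩
  · intro c
    rw [ValuationSubring.mem_comap, ← IsScalarTower.algebraMap_apply]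
    exact halgU _ (isAlgebraic_algebraMap c)
  · intro htop
    have h1 : ∀ c : K, algebraMap K (AlgebraicClosure K) c ∈ U := by
      intro c
      rw [← ValuationSubring.mem_comap, htop]
      exact ValuationSubring.mem_top c
    exact (m3_lt_one U ξ hξ0).1 hξ (m3_int U h1 ξ⁻¹ (Algebra.IsAlgebraic.isAlgebraic _))
  · intro z hz
    obtain ⟨c, hc⟩ := m3_res S U halgU hresU hinv (algebraMap K (AlgebraicClosure K) z) hz (fun τ => hK τ z)
    refine ⟨c, ?_⟩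
    by_cases h0 : z - algebraMap κ K c = 0
    · exact Or.inl h0
    · right
      rw [ValuationSubring.mem_comap, map_inv₀, map_sub, ← IsScalarTower.algebraMap_apply]
      refine (m3_lt_one U _ ?_).1 hc
      rw [IsScalarTower.algebraMap_apply κ K (AlgebraicClosure K), ← map_sub, Ne, map_eq_zero]
      exact h0
  · intro τ y
    rw [← hS]
    exact hinv τ y
  · rintro O' ⟨⟨hO1, hO2, hO3⟩, W, hWO, hW⟩
    have hWκ : ∀ c : κ, algebraMap κ (AlgebraicClosure K) c ∈ W := by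
      intro c
      have := hO1 c
      rw [← hWO, ValuationSubring.mem_comap, ← IsScalarTower.algebraMap_apply] at this
      exact this
    have halgW : ∀ z : AlgebraicClosure K, IsAlgebraic κ z → z ∈ W := m3_int W hWκ
    obtain ⟨v, hv⟩ : ∃ v : K, v ∉ O' := by
      by_contra hcon
      push Not at hcon
      exact hO2 (eq_top_iff.2 fun z _ => hcon z)
    have hv0 : v ≠ 0 := by
      rintro rfl
      exact hv (zero_mem _)
    have hξ'0 : algebraMap K (AlgebraicClosure K) v⁻¹ ≠ 0 := by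
      rw [Ne, map_eq_zero]
      exact inv_ne_zero hv0
    have hξ' : W.valuation (algebraMap K (AlgebraicClosure K) v⁻¹) < 1 := by
      rw [m3_lt_one W _ hξ'0, ← map_inv₀, inv_inv, ← ValuationSubring.mem_comap, hWO]
      exact hv
    have hresW : ∀ y ∈ W, ∃ ρ : AlgebraicClosure K, IsAlgebraic κ ρ ∧ W.valuation (y - ρ) < 1 := fun y hy =>
      res_alg κ (AlgebraicClosure K) W halgW _ hξ'0 hξ' y hy (hdep _ (m3_tr W halgW _ hξ'0 hξ') y)
    obtain ⟨n, hn⟩ := nonsq k (RatFunc k)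
    have hUW : U = W := by
      refine unique_inv κ (AlgebraicClosure K) S φ.fieldRange ?_ (φ n) ⟨n, rfl⟩ ?_ U W halgU halgW hresU hresW
        (fun τ _ z => hinv τ z) (fun τ _ z => ?_)
      · rintro _ ⟨r, rfl⟩
        exact hφalg r
      · rintro ⟨_, ⟨d, rfl⟩, hd⟩
        apply hn
        refine ⟨d, φ.toRingHom.injective ?_⟩
        rw [map_pow]
        exact hd
      · rw [hS]
        exact hW τ z
    rw [hUW, hWO]


end BSC
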