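import Pool.Agent.Lib_MP_49ddc8.Main
import Pool.Agent.Lib_MP_49ddc8.Gen

/-!
# From an invariant valuation ring to the place which defines the section
-/

set_option autoImplicit false

open Polynomial

namespace BSC

/-- if there is a valuation ring of `Ω` which contains the algebraic closure of `κ`, is not trivial and is invariant under the
elements of the image of the section which fix `k(u)`, then the section is defined by exactly one `κ`-rational place -/
theorem bsc_of_U (κ : Type) [Field κ] [CharZero κ] (K : Type) [Field K] [Algebra κ K]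
    (htd : ∃ t : K, Transcendental κ t ∧ Algebra.IsAlgebraic (IntermediateField.adjoin κ {t}) K)
    (k : Type) [Field k] [Algebra κ (RatFunc k)] [FiniteDimensional κ (RatFunc k)]
    (φ : RatFunc k →ₐ[κ] AlgebraicClosure K)
    (s : ((algebraicClosure κ (AlgebraicClosure K)) ≃ₐ[κ] (algebraicClosure κ (AlgebraicClosure K))) →*
      (AlgebraicClosure K ≃ₐ[K] AlgebraicClosure K)) (hs : Continuous s)
    (hres : ∀ (τ : (algebraicClosure κ (AlgebraicClosure K)) ≃ₐ[κ] (algebraicClosure κ (AlgebraicClosure K)))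
      (x : algebraicClosure κ (AlgebraicClosure K)),
        s τ (x : AlgebraicClosure K) = ((τ x : algebraicClosure κ (AlgebraicClosure K)) : AlgebraicClosure K))
    (hU : ∀ S : Sec κ (AlgebraicClosure K), (∀ τ z, S.s τ z = s τ z) →
      ∃ U : ValuationSubring (AlgebraicClosure K), (∀ z : AlgebraicClosure K, IsAlgebraic κ z → z ∈ U) ∧
      ∃ ξ : AlgebraicClosure K, ξ ≠ 0 ∧ U.valuation ξ < 1 ∧
        ∀ τ : algebraicClosure κ (AlgebraicClosure K) ≃ₐ[κ] algebraicClosure κ (AlgebraicClosure K),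
          (∀ x : algebraicClosure κ (AlgebraicClosure K), (x : AlgebraicClosure K) ∈ Set.range φ → τ x = x) →
            ∀ z : AlgebraicClosure K, S.s τ z ∈ U ↔ z ∈ U) :
    ∃! O : ValuationSubring K,
      ((∀ c : κ, algebraMap κ K c ∈ O) ∧ O ≠ ⊤ ∧
        ∀ x ∈ O, ∃ c : κ, x - algebraMap κ K c = 0 ∨ (x - algebraMap κ K c)⁻¹ ∉ O) ∧
      ∃ W : ValuationSubring (AlgebraicClosure K),
        W.comap (algebraMap K (AlgebraicClosure K)) = O ∧
        ∀ τ, ∀ y : AlgebraicClosure K, (s τ y ∈ W ↔ y ∈ W) := by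
  obtain ⟨S, hS⟩ := exists_sec κ K s hs hres
  have hK : ∀ τ (c : K), S.s τ (algebraMap K (AlgebraicClosure K) c) = algebraMap K (AlgebraicClosure K) c := by
    intro τ c
    rw [hS]
    exact (s τ).commutes c
  have hφalg : ∀ r : RatFunc k, IsAlgebraic κ (φ r) := fun r => (Algebra.IsAlgebraic.isAlgebraic (R := κ) r).algHom φ
  have hdep : Dep κ (AlgebraicClosure K) := dep_of_trdeg κ K htd
  -- the valuation ring
  obtain ⟨U, halgU, ξ, hξ0, hξ, hinvU⟩ := hU S hS
  have hresU : ∀ y ∈ U, ∃ ρ : AlgebraicClosure K, IsAlgebraic κ ρ ∧ U.valuation (y - ρ) < 1 := fun y hy =>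
    res_alg κ (AlgebraicClosure K) U halgU ξ hξ0 hξ y hy (hdep ξ (m3_tr U halgU ξ hξ0 hξ) y)
  have hinv := inv_all φ S U halgU hresU hinvU
  refine ⟨U.comap (algebraMap K (AlgebraicClosure K)), ⟨⟨?_, ?_, ?_⟩, U, rfl, ?_⟩, ?_⟩
  · intro c
    rw [ValuationSubring.mem_comap, ← IsScalarTower.algebraMap_apply]
    exact halgU _ (isAlgebraic_algebraMap c)
  · intro htop
    have h1 : ∀ c : K, algebraMap K (AlgebraicClosure K) c ∈ U := by
      intro c
      rw [← ValuationSubring.mem_comap, htop]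
      exact ValuationSubring.mem_top c
    exact (m3_lt_one U ξ hξ0).1 hξ (m3_int U h1 ξ⁻¹ (Algebra.IsAlgebraic.isAlgebraic _))
  · intro z hz
    obtain ⟨c, hc⟩ := m3_res S U halgU hresU hinv (algebraMap K (AlgebraicClosure K) z) hz (fun τ => hK τ z)
    refine ⟨c, ?_⟩
    by_cases h0 : z - algebraMap κ K c = 0
    · exact Or.inl h0
    · right
      rw [ValuationSubring.mem_comap, map_inv₀, map_sub, ← IsScalarTower.algebraMap_apply]
      refine (m3_lt_one U _ ?_).1 hc
      rw [IsScalarTower.algebraMap_apply κ K (AlgebraicClosure K), ← map_sub, Ne, map_eq_zero]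
      exact h0
  · intro τ y
    rw [← hS]
    exact hinv τ y
  · rintro O' ⟨⟨hO1, hO2, hO3⟩, W, hWO, hW⟩
    have hWκ : ∀ c : κ, algebraMap κ (AlgebraicClosure K) c ∈ W := by
      intro c
      have := hO1 c
      rw [← hWO, ValuationSubring.mem_comap, ← IsScalarTower.algebraMap_apply] at this
      exact this
    have halgW : ∀ z : AlgebraicClosure K, IsAlgebraic κ z → z ∈ W := m3_int W hWκ
    obtain ⟨v, hv⟩ : ∃ v : K, v ∉ O' := by
      by_contra hcon
      push Not at hcon
      exact hO2 (eq_top_iff.2 fun z _ => hcon z)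
    have hv0 : v ≠ 0 := by
      rintro rfl
      exact hv (zero_mem _)
    have hξ'0 : algebraMap K (AlgebraicClosure K) v⁻¹ ≠ 0 := by
      rw [Ne, map_eq_zero]
      exact inv_ne_zero hv0
    have hξ' : W.valuation (algebraMap K (AlgebraicClosure K) v⁻¹) < 1 := by
      rw [m3_lt_one W _ hξ'0, ← map_inv₀, inv_inv, ← ValuationSubring.mem_comap, hWO]
      exact hv
    have hresW : ∀ y ∈ W, ∃ ρ : AlgebraicClosure K, IsAlgebraic κ ρ ∧ W.valuation (y - ρ) < 1 := fun y hy =>
      res_alg κ (AlgebraicClosure K) W halgW _ hξ'0 hξ' y hy (hdep _ (m3_tr W halgW _ hξ'0 hξ') y)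
    obtain ⟨n, hn⟩ := nonsq k (RatFunc k)
    have hUW : U = W := by
      refine unique_inv κ (AlgebraicClosure K) S φ.fieldRange ?_ (φ n) ⟨n, rfl⟩ ?_ U W halgU halgW hresU hresW
        (fun τ _ z => hinv τ z) (fun τ _ z => ?_)
      · rintro _ ⟨r, rfl⟩
        exact hφalg r
      · rintro ⟨_, ⟨d, rfl⟩, hd⟩
        apply hn
        refine ⟨d, φ.toRingHom.injective ?_⟩
        rw [map_pow]
        exact hd
      · rw [hS]
        exact hW τ z
    rw [hUW, hWO]

/-- the same with the valuation ring found over `k(u)` -/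
theorem bsc_of_U' (κ : Type) [Field κ] [CharZero κ] (K : Type) [Field K] [Algebra κ K]
    (htd : ∃ t : K, Transcendental κ t ∧ Algebra.IsAlgebraic (IntermediateField.adjoin κ {t}) K)
    (k : Type) [Field k] [Algebra κ (RatFunc k)] [FiniteDimensional κ (RatFunc k)]
    (φ : RatFunc k →ₐ[κ] AlgebraicClosure K)
    (s : ((algebraicClosure κ (AlgebraicClosure K)) ≃ₐ[κ] (algebraicClosure κ (AlgebraicClosure K))) →*
      (AlgebraicClosure K ≃ₐ[K] AlgebraicClosure K)) (hs : Continuous s)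
    (hres : ∀ (τ : (algebraicClosure κ (AlgebraicClosure K)) ≃ₐ[κ] (algebraicClosure κ (AlgebraicClosure K)))
      (x : algebraicClosure κ (AlgebraicClosure K)),
        s τ (x : AlgebraicClosure K) = ((τ x : algebraicClosure κ (AlgebraicClosure K)) : AlgebraicClosure K))
    (hU : ∀ [Algebra k (AlgebraicClosure K)] [Algebra (RatFunc k) (AlgebraicClosure K)]
      [IsScalarTower k (RatFunc k) (AlgebraicClosure K)],
      (∀ r, algebraMap (RatFunc k) (AlgebraicClosure K) r = φ r) →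
      (∀ r, algebraMap k (AlgebraicClosure K) r = φ (algebraMap k (RatFunc k) r)) →
      ∀ S : Sec (RatFunc k) (AlgebraicClosure K), Dep (RatFunc k) (AlgebraicClosure K) →
      (∀ z : AlgebraicClosure K, IsAlgebraic (RatFunc k) z ↔ IsAlgebraic κ z) →
      (∀ z ∈ IntermediateField.adjoin K (Set.range φ), z ∈ S.F ∅) →
      ∃ U : ValuationSubring (AlgebraicClosure K), (∀ z : AlgebraicClosure K, IsAlgebraic (RatFunc k) z → z ∈ U) ∧
      (∃ ξ : AlgebraicClosure K, ξ ≠ 0 ∧ U.valuation ξ < 1) ∧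
        ∀ (τ : algebraicClosure (RatFunc k) (AlgebraicClosure K) ≃ₐ[RatFunc k] algebraicClosure (RatFunc k) (AlgebraicClosure K))
          (z : AlgebraicClosure K), S.s τ z ∈ U ↔ z ∈ U) :
    ∃! O : ValuationSubring K,
      ((∀ c : κ, algebraMap κ K c ∈ O) ∧ O ≠ ⊤ ∧
        ∀ x ∈ O, ∃ c : κ, x - algebraMap κ K c = 0 ∨ (x - algebraMap κ K c)⁻¹ ∉ O) ∧
      ∃ W : ValuationSubring (AlgebraicClosure K),
        W.comap (algebraMap K (AlgebraicClosure K)) = O ∧
        ∀ τ, ∀ y : AlgebraicClosure K, (s τ y ∈ W ↔ y ∈ W) := by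
  refine bsc_of_U κ K htd k φ s hs hres ?_
  intro S hS
  have hK : ∀ τ (c : K), S.s τ (algebraMap K (AlgebraicClosure K) c) = algebraMap K (AlgebraicClosure K) c := by
    intro τ c
    rw [hS]
    exact (s τ).commutes c
  have hφalg : ∀ r : RatFunc k, IsAlgebraic κ (φ r) := fun r => (Algebra.IsAlgebraic.isAlgebraic (R := κ) r).algHom φ
  have hdep : Dep κ (AlgebraicClosure K) := dep_of_trdeg κ K htd
  let _ : Algebra (RatFunc k) (AlgebraicClosure K) := φ.toRingHom.toAlgebra
  let _ : Algebra k (AlgebraicClosure K) := (φ.toRingHom.comp (algebraMap k (RatFunc k))).toAlgebra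
  have : IsScalarTower k (RatFunc k) (AlgebraicClosure K) := IsScalarTower.of_algebraMap_eq (fun _ => rfl)
  have hsub : ∀ c : κ, ∃ r : RatFunc k, algebraMap (RatFunc k) (AlgebraicClosure K) r = algebraMap κ (AlgebraicClosure K) c :=
    fun c => ⟨algebraMap κ (RatFunc k) c, φ.commutes c⟩
  obtain ⟨hiff, S₁, h1, h2⟩ := exists_restrict κ (RatFunc k) (AlgebraicClosure K) hsub hφalg S
  have hfix : ∀ z ∈ IntermediateField.adjoin K (Set.range φ), z ∈ S₁.F ∅ := by
    intro z hz τ₁ _
    obtain ⟨τ, hτ, hττ⟩ := h1 τ₁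
    rw [hττ]
    induction hz using IntermediateField.adjoin_induction with
    | mem z hz =>
      obtain ⟨r, rfl⟩ := hz
      have := S.res τ ⟨φ r, mem_algebraicClosure_iff.2 (hφalg r)⟩
      rw [hτ _ ⟨r, rfl⟩] at this
      exact this
    | algebraMap c => exact hK τ c
    | add a b _ _ ha hb => rw [map_add, ha, hb]
    | inv a _ ha => rw [map_inv₀, ha]
    | mul a b _ _ ha hb => rw [map_mul, ha, hb]
  obtain ⟨U, hU1, ⟨ξ, hξ0, hξ⟩, hU3⟩ := hU (fun _ => rfl) (fun _ => rfl) S₁
    (dep_up κ (RatFunc k) (AlgebraicClosure K) hsub hdep) hiff hfix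
  refine ⟨U, fun z hz => hU1 z ((hiff z).2 hz), ξ, hξ0, hξ, ?_⟩
  intro τ hτ z
  obtain ⟨τ₁, hτ₁⟩ := h2 τ hτ
  rw [← hτ₁, hU3]

end BSC
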