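import Pool.Agent.Lib_MP_49ddc8.Fb3
import Pool.Agent.Lib_MP_49ddc8.Pts
import Pool.Agent.Lib_MP_49ddc8.Wrap

/-!
# Fixed branch points: the valuation ring
-/

set_option autoImplicit false

open Polynomial

namespace BSC

section

variable {k Ω : Type} [Field k] [CharZero k] [Field Ω] [IsAlgClosed Ω] [Algebra k Ω] [Algebra (RatFunc k) Ω]
  [IsScalarTower k (RatFunc k) Ω]

theorem ev2_tt (G : k[X][X]) (x : Ω) :
    ev2 G (tt k Ω) x = G.eval₂ ((algebraMap (RatFunc k) Ω).comp (algebraMap k[X] (RatFunc k))) x := by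
  unfold ev2
  congr 1
  apply RingHom.ext
  intro p
  show aeval (tt k Ω) p = algebraMap (RatFunc k) Ω (algebraMap k[X] (RatFunc k) p)
  have h2 : algebraMap k[X] (RatFunc k) p = aeval (RatFunc.X : RatFunc k) p := by
    rw [← RatFunc.algebraMap_X, aeval_algebraMap_apply, aeval_X_left_apply]
  rw [h2]
  unfold tt
  rw [aeval_algebraMap_apply]

theorem ev2_tt_ne (G : k[X][X]) (hG : G ≠ 0) (x : Ω) (hx : Transcendental (RatFunc k) x) : ev2 G (tt k Ω) x ≠ 0 := by
  intro h0
  apply hx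
  refine ⟨G.map (algebraMap k[X] (RatFunc k)), ?_, ?_⟩
  · exact (Polynomial.map_ne_zero_iff (FaithfulSMul.algebraMap_injective k[X] (RatFunc k))).2 hG
  · rw [aeval_def, eval₂_map, ← ev2_tt]
    exact h0

/-- the data `FbD` of a curve with fixed branch points -/
theorem exists_FbD (hC : Consts k Ω) (S : Sec (RatFunc k) Ω) (f : k[X]) (hf : f.Separable) (h3 : 3 ≤ f.natDegree)
    (G : k[X][X]) (hcol : ∀ a e : Ω, IsAlgebraic k a → aeval e f = 0 → ev2 G a e = 0 → e ∉ IntermediateField.adjoin k {a})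
    (x y : Ω) (hx : x ∈ S.F ∅) (hy : y ∈ S.F ∅) (htr : Transcendental (RatFunc k) x)
    (hxy : y ^ 2 = aeval x f * ev2 G (tt k Ω) x) :
    ∃ (Y : Sys k Ω) (R : Finset Ω) (A : Finset Y.k0) (c : Ω), Y.S = S ∧ FbD Y R G A c x y ∧ R.card = f.natDegree ∧
      (∀ e : Ω, e ∈ R ↔ aeval e f = 0) ∧ ∃ i ∈ Y.k0, i ^ 2 = (-1 : Ω) := by
  classical
  have hf0 : f ≠ 0 := hf.ne_zero
  obtain ⟨R, hR, hRc, hRp⟩ := tw_roots (Ω := Ω) f hf
  have hRalg : ∀ e ∈ R, IsAlgebraic k e := fun e he => ⟨f, hf0, (hR e).1 he⟩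
  obtain ⟨A, hAalg, hA⟩ := fb_collisions G R hRalg (fun a e ha he h0 => hcol a e ha ((hR e).1 he) h0)
  obtain ⟨k1, hfin1, hi1, hroots1, hA1, hnorm1⟩ := fb_level (Ω := Ω) f hf0 A hAalg
  obtain ⟨Y, hYS, hYk⟩ := exists_sys S k1 hfin1 (fun k' _ hfin' => hC.arith k' hfin') hi1
  subst hYS
  subst hYk
  have hG : G ≠ 0 := by
    rintro rfl
    obtain ⟨e, he⟩ : R.Nonempty := Finset.card_pos.1 (by omega)
    refine hcol e e (hRalg e he) ((hR e).1 he) ?_ (IntermediateField.mem_adjoin_simple_self k e)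
    unfold ev2
    rw [eval₂_zero]
  have hfx : aeval x f ≠ 0 := by
    intro h0
    have h1 : IsAlgebraic k x := ⟨f, hf0, h0⟩
    exact htr (h1.tower_top (RatFunc k))
  refine ⟨Y, R, (A.attach.image fun a => (⟨a.1, hA1 a.1 a.2⟩ : Y.k0)), algebraMap k Ω f.leadingCoeff, rfl, ?_, hRc, hR, hi1⟩
  refine
    { norm := hnorm1 Y.S
      memR := fun e he => hroots1 e ((hR e).1 he)
      stab := fun τ e he => ?_
      card := by rw [hRc]; exact h3
      fix := fun τ => hx τ (fun z hz => absurd hz (Set.notMem_empty _))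
      memy := Y.S.F_mono (Set.empty_subset _) hy
      y0 := ?_
      memc := Y.k0.algebraMap_mem _
      c0 := (_root_.map_ne_zero (algebraMap k Ω)).2 (leadingCoeff_ne_zero.2 hf0)
      eq := by rw [hxy, hRp]
      col := fun a ha e he h0 => ?_
      mov := fun α hα e he h0 => ?_ }
  · rw [hR, ← Y.S.s_aeval, (hR e).1 he, map_zero]
  · rintro rfl
    have h1 := mul_ne_zero hfx (ev2_tt_ne G hG x htr)
    rw [← hxy] at h1
    exact h1 (by ring)
  · have h1 := hA a ha e he h0
    exact ⟨⟨a, hA1 a h1⟩, Finset.mem_image.2 ⟨⟨a, h1⟩, Finset.mem_attach _ _, rfl⟩, rfl⟩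
  · have hαalg : IsAlgebraic k (α : Ω) := (level_alg Y.k0 Y.fin0 α α.2).1
    exact fb_moved Y.S (α : Ω) e hαalg (hRalg e he) (hcol _ e hαalg ((hR e).1 he) h0)

/-- four fixed branch points -/
theorem exists_U_fix (hC : Consts k Ω) (S : Sec (RatFunc k) Ω) (hdep : Dep (RatFunc k) Ω) (f : k[X]) (hf : f.Separable)
    (G : k[X][X]) (hdeg : 4 ≤ f.natDegree ∨ (3 ≤ f.natDegree ∧ Odd (f.natDegree + G.natDegree) ∧
      ∃ b : k, b ≠ 0 ∧ G.leadingCoeff = C b))
    (hcol : ∀ a e : Ω, IsAlgebraic k a → aeval e f = 0 → ev2 G a e = 0 → e ∉ IntermediateField.adjoin k {a})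
    (x y : Ω) (hx : x ∈ S.F ∅) (hy : y ∈ S.F ∅) (htr : Transcendental (RatFunc k) x)
    (hxy : y ^ 2 = aeval x f * ev2 G (tt k Ω) x) :
    ∃ U : ValuationSubring Ω, (∀ z : Ω, IsAlgebraic (RatFunc k) z → z ∈ U) ∧ (∃ ξ : Ω, ξ ≠ 0 ∧ U.valuation ξ < 1) ∧
      ∀ (τ : algebraicClosure (RatFunc k) Ω ≃ₐ[RatFunc k] algebraicClosure (RatFunc k) Ω) (z : Ω), S.s τ z ∈ U ↔ z ∈ U := by
  classical
  have h3 : 3 ≤ f.natDegree := by
    rcases hdeg with h | h
    · omega
    · exact h.1
  obtain ⟨Y, R, A, c, rfl, D, hRc, hR, hi⟩ := exists_FbD hC S f hf h3 G hcol x y hx hy htr hxy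
  obtain ⟨J, hJ, hJ3, hpar⟩ : ∃ J ⊆ R, 3 ≤ J.card ∧ (Even J.card ∨ FbPole Y x) := by
    rcases hdeg with h4 | ⟨-, hodd, b, hb, hG⟩
    · obtain ⟨J, hJ, hJc⟩ := Finset.exists_subset_card_eq (show 4 ≤ R.card by rw [hRc]; exact h4)
      exact ⟨J, hJ, by omega, Or.inl (by rw [hJc]; decide)⟩
    · exact ⟨R, Finset.Subset.refl R, D.card, Or.inr (D.pole b hb hG (by rw [hRc]; exact hodd))⟩
  obtain ⟨ε, hε, hε0, w, hw, hw0, hz⟩ := D.const J hJ hpar
  exact exists_U_pts hC Y.S hdep Y.k0 Y.fin0 hi J (fun e he => D.memR e (hJ he)) hJ3 x w ε (D.memx _) hw hw0 hε hε0 htr hz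

end

/-- the section conjecture for curves `y² = f(x) G(u, x)` with at least four fixed branch points -/
theorem bsc_fix (κ : Type) [Field κ] [CharZero κ] (K : Type) [Field K] [Algebra κ K]
    (htd : ∃ t : K, Transcendental κ t ∧ Algebra.IsAlgebraic (IntermediateField.adjoin κ {t}) K)
    (k : Type) [Field k] [CharZero k] (hk : (⊤ : IntermediateField ℚ k).FG) [Algebra κ (RatFunc k)]
    [FiniteDimensional κ (RatFunc k)] (φ : RatFunc k →ₐ[κ] AlgebraicClosure K) (f : k[X]) (hf : f.Separable)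
    (G : k[X][X]) (hdeg : 4 ≤ f.natDegree ∨ (3 ≤ f.natDegree ∧ Odd (f.natDegree + G.natDegree) ∧
      ∃ b : k, b ≠ 0 ∧ G.leadingCoeff = C b))
    (hcol : ∀ a e : AlgebraicClosure k, aeval e f = 0 →
      G.eval₂ (aeval a : k[X] →ₐ[k] AlgebraicClosure k).toRingHom e = 0 → e ∉ IntermediateField.adjoin k {a})
    (x y : AlgebraicClosure K)
    (hx : x ∈ IntermediateField.adjoin K (Set.range φ)) (hy : y ∈ IntermediateField.adjoin K (Set.range φ))
    (htr : Transcendental κ x)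
    (hxy : y ^ 2 = f.eval₂ (φ.toRingHom.comp (algebraMap k (RatFunc k))) x *
      G.eval₂ (φ.toRingHom.comp (algebraMap k[X] (RatFunc k))) x)
    (s : ((algebraicClosure κ (AlgebraicClosure K)) ≃ₐ[κ] (algebraicClosure κ (AlgebraicClosure K))) →*
      (AlgebraicClosure K ≃ₐ[K] AlgebraicClosure K)) (hs : Continuous s)
    (hres : ∀ (τ : (algebraicClosure κ (AlgebraicClosure K)) ≃ₐ[κ] (algebraicClosure κ (AlgebraicClosure K)))
      (x : algebraicClosure κ (AlgebraicClosure K)),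
        s τ (x : AlgebraicClosure K) = ((τ x : algebraicClosure κ (AlgebraicClosure K)) : AlgebraicClosure K)) :
    ∃! O : ValuationSubring K,
      ((∀ c : κ, algebraMap κ K c ∈ O) ∧ O ≠ ⊤ ∧
        ∀ x ∈ O, ∃ c : κ, x - algebraMap κ K c = 0 ∨ (x - algebraMap κ K c)⁻¹ ∉ O) ∧
      ∃ W : ValuationSubring (AlgebraicClosure K),
        W.comap (algebraMap K (AlgebraicClosure K)) = O ∧
        ∀ τ, ∀ y : AlgebraicClosure K, (s τ y ∈ W ↔ y ∈ W) := by
  refine bsc_of_U' κ K htd k φ s hs hres ?_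
  intro _ _ _ hφ hφk S hdep hiff hfix
  have hk1 : φ.toRingHom.comp (algebraMap k (RatFunc k)) = algebraMap k (AlgebraicClosure K) :=
    RingHom.ext fun r => (hφk r).symm
  have hk2 : φ.toRingHom.comp (algebraMap k[X] (RatFunc k)) =
      (algebraMap (RatFunc k) (AlgebraicClosure K)).comp (algebraMap k[X] (RatFunc k)) :=
    RingHom.ext fun r => (hφ _).symm
  refine exists_U_fix (consts_of_fg hk) S hdep f hf G hdeg ?_ x y (hfix x hx) (hfix y hy)
    (fun h => htr ((hiff x).1 h)) ?_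
  · -- transfer of the condition
    intro a e ha he h0 hmem
    have hea : IsAlgebraic k e := ⟨f, hf.ne_zero, he⟩
    let ι : AlgebraicClosure k →ₐ[k] AlgebraicClosure K := IsAlgClosed.lift
    have hrange : ∀ z : AlgebraicClosure K, IsAlgebraic k z → ∃ z', ι z' = z := by
      intro z hz
      obtain ⟨p, hp, hpz⟩ := hz
      have hsplit : (p.map (algebraMap k (AlgebraicClosure k))).Splits := IsAlgClosed.splits _
      have h1 : z ∈ (p.map (algebraMap k (AlgebraicClosure K))).roots := by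
        rw [mem_roots ((Polynomial.map_ne_zero_iff (algebraMap k (AlgebraicClosure K)).injective).2 hp), IsRoot.def,
          eval_map_algebraMap]
        exact hpz
      have h2 : p.map (algebraMap k (AlgebraicClosure K)) =
          (p.map (algebraMap k (AlgebraicClosure k))).map ι.toRingHom := by
        rw [Polynomial.map_map]
        congr 1
        exact ι.comp_algebraMap.symm
      rw [h2, hsplit.roots_map_of_injective ι.toRingHom.injective, Multiset.mem_map] at h1
      obtain ⟨z', -, hz'⟩ := h1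
      exact ⟨z', hz'⟩
    obtain ⟨a', rfl⟩ := hrange a ha
    obtain ⟨e', rfl⟩ := hrange e hea
    refine hcol a' e' ?_ ?_ ?_
    · apply ι.toRingHom.injective
      rw [map_zero]
      show ι (aeval e' f) = 0
      rw [← aeval_algHom_apply]
      exact he
    · apply ι.toRingHom.injective
      rw [map_zero, Polynomial.hom_eval₂]
      have h1 : ι.toRingHom.comp (aeval a' : k[X] →ₐ[k] AlgebraicClosure k).toRingHom =
          (aeval (ι a') : k[X] →ₐ[k] AlgebraicClosure K).toRingHom := by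
        apply RingHom.ext
        intro p
        show ι (aeval a' p) = aeval (ι a') p
        rw [aeval_algHom_apply]
      rw [h1]
      exact h0
    · have h1 : IntermediateField.adjoin k {ι a'} = (IntermediateField.adjoin k {a'}).map ι := by
        rw [IntermediateField.adjoin_map, Set.image_singleton]
      rw [h1] at hmem
      obtain ⟨b, hb, hbe⟩ := hmem
      have h2 : b = e' := ι.toRingHom.injective hbe
      rw [← h2]
      exact hb
  · rw [hxy, hk1, hk2, ev2_tt]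
    rfl

end BSC
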