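import Pool.Agent.Lib_MP_49ddc8.Fc1

/-!
# Fixed branch points with bad places: the choice of the factors
-/

set_option autoImplicit false

open Polynomial

namespace BSC

/-- two distinct elements which contain as many elements of `Z` as possible -/
theorem fc_two {M : Type} [Field M] [DecidableEq M] (Z : Finset M) :
    ∃ b₁ b₂ : M, b₁ ≠ b₂ ∧ (Z \ {b₁, b₂}).card ≤ Z.card - 2 := by
  by_cases h2 : 1 < Z.card
  · obtain ⟨b₁, h1, b₂, h2, hne⟩ := Finset.one_lt_card.1 h2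
    refine ⟨b₁, b₂, hne, ?_⟩
    have hsub : ({b₁, b₂} : Finset M) ⊆ Z := by
      intro z hz
      rw [Finset.mem_insert, Finset.mem_singleton] at hz
      rcases hz with rfl | rfl
      · exact h1
      · exact h2
    rw [Finset.card_sdiff_of_subset hsub, Finset.card_pair hne]
  · rcases Z.eq_empty_or_nonempty with rfl | ⟨b, hb⟩
    · exact ⟨0, 1, zero_ne_one, by simp⟩
    · refine ⟨b, b + 1, fun h => one_ne_zero (left_eq_add.1 h), ?_⟩
      have hZ : Z \ {b, b + 1} = ∅ := by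
        rw [Finset.sdiff_eq_empty_iff_subset]
        intro z hz
        have h3 : z = b := by
          by_contra hne
          exact h2 (Finset.one_lt_card.2 ⟨z, hz, b, hb, hne⟩)
        rw [h3]
        exact Finset.mem_insert_self _ _
      rw [hZ, Finset.card_empty]
      exact Nat.zero_le _

variable {k Ω : Type} [Field k] [CharZero k] [Field Ω] [IsAlgClosed Ω] [Algebra k Ω] [Algebra (RatFunc k) Ω]
  [IsScalarTower k (RatFunc k) Ω]

variable {Y : Sys k Ω} {R : Finset Ω} {G : k[X][X]} {A Z : Finset Y.k0} {c x y : Ω}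

/-- a product of at least three factors is a constant times a product of `t - b₁`, `t - b₂` times a square -/
theorem FbZ.choose (D : FbZ Y R G A Z c x y) [DecidableEq Y.k0] (b₁ b₂ : Y.k0)
    (h : (Z \ {b₁, b₂}).card + 4 ≤ R.card ∨ ((Z \ {b₁, b₂}).card + 3 ≤ R.card ∧ FbPoleZ Y Z x)) :
    ∃ J ⊆ R, 3 ≤ J.card ∧ ∃ ε ∈ Y.k0, ε ≠ 0 ∧ ∃ B ⊆ ({b₁, b₂} : Finset Y.k0), ∃ w ∈ Y.S.F Y.k0, w ≠ 0 ∧
      ∏ e ∈ J, (x - e) = ε * (∏ α ∈ B, (tt k Ω - (α : Ω))) * w ^ 2 := by
  classical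
  set W : Finset Y.k0 := Z \ {b₁, b₂} with hW
  set Win : Finset Y.k0 := W.filter (fun α => x ∈ Y.V Y.k0 (some α)) with hWin
  set Wout : Finset Y.k0 := W.filter (fun α => ¬ x ∈ Y.V Y.k0 (some α)) with hWout
  have hcardW : Win.card + Wout.card = W.card := Finset.card_filter_add_card_filter_not _
  set g : Y.k0 → Finset Ω := fun α => R.filter (fun e => (Y.V Y.k0 (some α)).valuation (x - e) < 1) with hg
  have hg1 : ∀ α ∈ Win, (g α).card ≤ 1 := by
    intro α _
    rw [Finset.card_le_one]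
    intro a ha b hb
    rw [hg, Finset.mem_filter] at ha hb
    by_contra hne
    have h1 := fb_other (Y.loc Y.k0 le_rfl Y.fin0 (some α)) x a b (D.memR a ha.1) (D.memR b hb.1) (fun h => hne h.symm) ha.2
    rw [h1] at hb
    exact absurd hb.2 (lt_irrefl _)
  have hDc : (Win.biUnion g).card ≤ Win.card := by
    have := Finset.card_biUnion_le_card_mul Win g 1 hg1
    rwa [mul_one] at this
  set R₁ : Finset Ω := R \ Win.biUnion g with hR₁
  have hR₁c : R.card ≤ R₁.card + Win.card := by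
    have h1 : R.card - (Win.biUnion g).card ≤ R₁.card := Finset.le_card_sdiff (Win.biUnion g) R
    omega
  have hR₁R : R₁ ⊆ R := Finset.sdiff_subset
  have hfar : ∀ α ∈ Z, α ∉ ({b₁, b₂} : Finset Y.k0) → x ∈ Y.V Y.k0 (some α) → ∀ e ∈ R₁,
      ¬ (Y.V Y.k0 (some α)).valuation (x - e) < 1 := by
    intro α hα hα' hx e he hlt
    rw [hR₁, Finset.mem_sdiff] at he
    apply he.2
    rw [Finset.mem_biUnion]
    exact ⟨α, Finset.mem_filter.2 ⟨Finset.mem_sdiff.2 ⟨hα, hα'⟩, hx⟩, Finset.mem_filter.2 ⟨he.1, hlt⟩⟩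
  have hfour : 4 ≤ R₁.card → ∃ J ⊆ R, 3 ≤ J.card ∧ ∃ ε ∈ Y.k0, ε ≠ 0 ∧ ∃ B ⊆ ({b₁, b₂} : Finset Y.k0),
      ∃ w ∈ Y.S.F Y.k0, w ≠ 0 ∧ ∏ e ∈ J, (x - e) = ε * (∏ α ∈ B, (tt k Ω - (α : Ω))) * w ^ 2 := by
    intro h4
    obtain ⟨J, hJ, hJc⟩ := Finset.exists_subset_card_eq h4
    have hev : Even J.card := by
      rw [hJc]
      decide
    exact ⟨J, hJ.trans hR₁R, by omega, D.const J (hJ.trans hR₁R) (Or.inl hev) _ fun α hα hα' =>
      ⟨fun hx e he => hfar α hα hα' hx e (hJ he), Or.inl hev⟩⟩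
  rcases h with h | ⟨h, hpole⟩
  · exact hfour (by omega)
  · by_cases hout : Wout = ∅
    · have h3 : 3 ≤ R₁.card := by omega
      refine ⟨R₁, hR₁R, h3, D.const R₁ hR₁R (Or.inr hpole) _ fun α hα hα' =>
        ⟨fun hx e he => hfar α hα hα' hx e he, Or.inr ?_⟩⟩
      by_contra hx
      have h1 : α ∈ Wout := Finset.mem_filter.2 ⟨Finset.mem_sdiff.2 ⟨hα, hα'⟩, hx⟩
      rw [hout] at h1
      exact absurd h1 (Finset.notMem_empty _)
    · have h1 : 0 < Wout.card := Finset.card_pos.2 (Finset.nonempty_iff_ne_empty.2 hout)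
      exact hfour (by omega)

end BSC
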