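import Pool.Agent.Lib_MP_49ddc8.Pts
import Pool.Agent.Lib_MP_49ddc8.Wrap

/-!
# Base change to `k₁(v)`, over which `t - b₁` and `t - b₂` are squares
-/

set_option autoImplicit false

open Polynomial

namespace BSC

/-- a valuation ring found after a finite base change `k₁(v) / k(u)` -/
theorem U_descend {k k₁ Ω : Type} [Field k] [CharZero k] [Field k₁] [Field Ω] [IsAlgClosed Ω] [Algebra (RatFunc k) Ω]
    [Algebra (RatFunc k₁) Ω] (hsub : ∀ c : RatFunc k, ∃ r : RatFunc k₁, algebraMap (RatFunc k₁) Ω r = algebraMap (RatFunc k) Ω c)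
    (M : IntermediateField (RatFunc k) Ω) (hfin : FiniteDimensional (RatFunc k) M)
    (hM : ∀ r : RatFunc k₁, algebraMap (RatFunc k₁) Ω r ∈ M) (S : Sec (RatFunc k) Ω) (hdep : Dep (RatFunc k) Ω)
    (hU : ∀ S₁ : Sec (RatFunc k₁) Ω, Dep (RatFunc k₁) Ω → (∀ z : Ω, IsAlgebraic (RatFunc k₁) z ↔ IsAlgebraic (RatFunc k) z) →
      (∀ τ₁ : algebraicClosure (RatFunc k₁) Ω ≃ₐ[RatFunc k₁] algebraicClosure (RatFunc k₁) Ω,
        ∃ τ : algebraicClosure (RatFunc k) Ω ≃ₐ[RatFunc k] algebraicClosure (RatFunc k) Ω,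
        (∀ x : algebraicClosure (RatFunc k) Ω, (x : Ω) ∈ Set.range (algebraMap (RatFunc k₁) Ω) → τ x = x) ∧
          ∀ z : Ω, S₁.s τ₁ z = S.s τ z) →
      ∃ U : ValuationSubring Ω, (∀ z : Ω, IsAlgebraic (RatFunc k₁) z → z ∈ U) ∧ (∃ ξ : Ω, ξ ≠ 0 ∧ U.valuation ξ < 1) ∧
        ∀ (τ : algebraicClosure (RatFunc k₁) Ω ≃ₐ[RatFunc k₁] algebraicClosure (RatFunc k₁) Ω) (z : Ω), S₁.s τ z ∈ U ↔ z ∈ U) :
    ∃ U : ValuationSubring Ω, (∀ z : Ω, IsAlgebraic (RatFunc k) z → z ∈ U) ∧ (∃ ξ : Ω, ξ ≠ 0 ∧ U.valuation ξ < 1) ∧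
      ∀ (τ : algebraicClosure (RatFunc k) Ω ≃ₐ[RatFunc k] algebraicClosure (RatFunc k) Ω) (z : Ω), S.s τ z ∈ U ↔ z ∈ U := by
  have halg : ∀ r : RatFunc k₁, IsAlgebraic (RatFunc k) (algebraMap (RatFunc k₁) Ω r) := by
    intro r
    have h1 : IsAlgebraic (RatFunc k) (⟨_, hM r⟩ : M) := Algebra.IsAlgebraic.isAlgebraic _
    exact h1.algebraMap (A := Ω)
  obtain ⟨hiff, S₁, h1, h2⟩ := exists_restrict (RatFunc k) (RatFunc k₁) Ω hsub halg S
  obtain ⟨U, hU1, ⟨ξ, hξ0, hξ⟩, hU3⟩ := hU S₁ (dep_up (RatFunc k) (RatFunc k₁) Ω hsub hdep) hiff h1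
  have hUalg : ∀ z : Ω, IsAlgebraic (RatFunc k) z → z ∈ U := fun z hz => hU1 z ((hiff z).2 hz)
  refine ⟨U, hUalg, ⟨ξ, hξ0, hξ⟩, ?_⟩
  have hresU : ∀ y ∈ U, ∃ ρ : Ω, IsAlgebraic (RatFunc k) ρ ∧ U.valuation (y - ρ) < 1 := fun y hy =>
    res_alg (RatFunc k) Ω U hUalg ξ hξ0 hξ y hy (hdep ξ (m3_tr U hUalg ξ hξ0 hξ) y)
  choose g hg using hsub
  have hinj : Function.Injective (algebraMap (RatFunc k₁) Ω) := (algebraMap (RatFunc k₁) Ω).injective
  let G : RatFunc k →+* RatFunc k₁ :=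
    { toFun := g
      map_one' := hinj (by rw [hg, map_one, map_one])
      map_mul' := fun a b => hinj (by rw [hg, map_mul, map_mul, hg, hg])
      map_zero' := hinj (by rw [hg, map_zero, map_zero])
      map_add' := fun a b => hinj (by rw [hg, map_add, map_add, hg, hg]) }
  have hG : ∀ c, algebraMap (RatFunc k₁) Ω (G c) = algebraMap (RatFunc k) Ω c := hg
  let _ : Algebra (RatFunc k) (RatFunc k₁) := G.toAlgebra
  let φ : RatFunc k₁ →ₐ[RatFunc k] Ω :=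
    { (algebraMap (RatFunc k₁) Ω : RatFunc k₁ →+* Ω) with
      commutes' := fun c => hG c }
  have hφ : ∀ r, φ r = algebraMap (RatFunc k₁) Ω r := fun _ => rfl
  let ψ : RatFunc k₁ →ₐ[RatFunc k] M := φ.codRestrict M.toSubalgebra hM
  have hψ : Function.Injective ψ.toLinearMap := ψ.toRingHom.injective
  have hfd : FiniteDimensional (RatFunc k) (RatFunc k₁) := Module.Finite.of_injective ψ.toLinearMap hψ
  refine inv_all φ S U hUalg hresU ?_
  intro τ hτ z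
  obtain ⟨τ₁, hτ₁⟩ := h2 τ hτ
  rw [← hτ₁, hU3]

section

variable {k Ω : Type} [Field k] [CharZero k] [Field Ω] [IsAlgClosed Ω] [Algebra k Ω] [Algebra (RatFunc k) Ω]
  [IsScalarTower k (RatFunc k) Ω]

theorem fc_rat (p : k[X]) : algebraMap (RatFunc k) Ω (algebraMap k[X] (RatFunc k) p) = aeval (tt k Ω) p := by
  have h2 : algebraMap k[X] (RatFunc k) p = aeval (RatFunc.X : RatFunc k) p := by
    rw [← RatFunc.algebraMap_X, aeval_algebraMap_apply, aeval_X_left_apply]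
  rw [h2]
  unfold tt
  rw [aeval_algebraMap_apply]

/-- values of polynomials in a subfield -/
theorem fc_aeval {A : Type} [Field A] [Algebra A Ω] (F : Subfield Ω) (hF : ∀ a : A, algebraMap A Ω a ∈ F) (v : Ω) (hv : v ∈ F)
    (p : A[X]) : aeval v p ∈ F := by
  rw [aeval_eq_sum_range]
  refine sum_mem fun j _ => ?_
  rw [Algebra.smul_def]
  exact mul_mem (hF _) (pow_mem hv j)

/-- a subfield which contains `k` and `t` contains `k(t)` -/
theorem fc_ratfunc (F : Subfield Ω) (hF : ∀ a : k, algebraMap k Ω a ∈ F) (ht : tt k Ω ∈ F) (r : RatFunc k) :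
    algebraMap (RatFunc k) Ω r ∈ F := by
  obtain ⟨a, b, -, rfl⟩ := IsFractionRing.div_surjective (A := k[X]) r
  rw [map_div₀, fc_rat, fc_rat]
  exact div_mem (fc_aeval F hF _ ht a) (fc_aeval F hF _ ht b)

/-- a finite extension of `k(t)` which contains `k₁` and `v` -/
theorem fc_fin (k₁ : IntermediateField k Ω) (hfin : FiniteDimensional k k₁) (v : Ω) (hv : IsAlgebraic (RatFunc k) v) :
    ∃ M : IntermediateField (RatFunc k) Ω, FiniteDimensional (RatFunc k) M ∧ (∀ c ∈ k₁, c ∈ M) ∧ v ∈ M := by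
  classical
  let b := Module.finBasis k k₁
  let A : Set Ω := insert v (Set.range fun i => ((b i : k₁) : Ω))
  have hA : A.Finite := (Set.finite_range _).insert v
  haveI : Finite A := hA
  have halg : ∀ z ∈ A, IsAlgebraic (RatFunc k) z := by
    rintro z (rfl | ⟨i, rfl⟩)
    · exact hv
    · exact (level_alg k₁ hfin _ (b i).2).2
  refine ⟨IntermediateField.adjoin (RatFunc k) A, IntermediateField.finiteDimensional_adjoin fun z hz => (halg z hz).isIntegral,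
    ?_, IntermediateField.subset_adjoin _ _ (Set.mem_insert v _)⟩
  intro c hc
  have h1 : (⟨c, hc⟩ : k₁) = ∑ i, b.repr ⟨c, hc⟩ i • b i := (b.sum_repr _).symm
  have h2 : c = ∑ i, algebraMap k Ω (b.repr ⟨c, hc⟩ i) * ((b i : k₁) : Ω) := by
    have h3 := congrArg (fun z : k₁ => (z : Ω)) h1
    simp only [AddSubmonoidClass.coe_finset_sum] at h3
    refine h3.trans (Finset.sum_congr rfl fun i _ => ?_)
    rw [IntermediateField.coe_smul, Algebra.smul_def]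
  rw [h2]
  refine sum_mem fun i _ => mul_mem ?_ (IntermediateField.subset_adjoin _ _ (Set.mem_insert_of_mem _ ⟨i, rfl⟩))
  rw [IsScalarTower.algebraMap_apply k (RatFunc k) Ω]
  exact IntermediateField.algebraMap_mem _ _

/-- the valuation ring for `∏_{e ∈ I} (x - e) = ε ∏_{β ∈ B} (t - β) w²`, `B ⊆ {b₁, b₂}` -/
theorem exists_U_base (hk : (⊤ : IntermediateField ℚ k).FG) (S : Sec (RatFunc k) Ω) (hdep : Dep (RatFunc k) Ω)
    (k₁ : IntermediateField k Ω) (hfin1 : FiniteDimensional k k₁) (hi : ∃ i ∈ k₁, i ^ 2 = (-1 : Ω)) (b₁ b₂ : Ω)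
    (hb₁ : b₁ ∈ k₁) (hb₂ : b₂ ∈ k₁) (hb : b₁ ≠ b₂) (I : Finset Ω) (hI : ∀ e ∈ I, e ∈ k₁) (h3 : 3 ≤ I.card)
    (x w ε : Ω) (hx : x ∈ S.F k₁) (hw : w ∈ S.F k₁) (hw0 : w ≠ 0) (hε : ε ∈ k₁) (hε0 : ε ≠ 0)
    (htr : Transcendental (RatFunc k) x) (B : Finset Ω) (hB : ∀ β ∈ B, β = b₁ ∨ β = b₂)
    (hxy : ∏ e ∈ I, (x - e) = ε * (∏ β ∈ B, (tt k Ω - β)) * w ^ 2) :
    ∃ U : ValuationSubring Ω, (∀ z : Ω, IsAlgebraic (RatFunc k) z → z ∈ U) ∧ (∃ ξ : Ω, ξ ≠ 0 ∧ U.valuation ξ < 1) ∧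
      ∀ (τ : algebraicClosure (RatFunc k) Ω ≃ₐ[RatFunc k] algebraicClosure (RatFunc k) Ω) (z : Ω), S.s τ z ∈ U ↔ z ∈ U := by
  classical
  have hC0 : CharZero Ω := charZero_of_injective_algebraMap (algebraMap k Ω).injective
  obtain ⟨p, hp⟩ := IsAlgClosed.exists_pow_nat_eq (tt k Ω - b₁) (n := 2) (by norm_num)
  obtain ⟨q, hq⟩ := IsAlgClosed.exists_pow_nat_eq (tt k Ω - b₂) (n := 2) (by norm_num)
  set v : Ω := p + q with hv
  have hd : b₂ - b₁ ≠ 0 := sub_ne_zero.2 fun h => hb h.symm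
  have hvd : v * (p - q) = b₂ - b₁ := by
    rw [hv]
    linear_combination hp - hq
  have hv0 : v ≠ 0 := by
    intro h0
    rw [h0, zero_mul] at hvd
    exact hd hvd.symm
  have hpq : p - q = (b₂ - b₁) / v := by
    rw [eq_div_iff hv0, mul_comm, hvd]
  have hpv : p = (v + (b₂ - b₁) / v) / 2 := by
    rw [← hpq, hv]
    ring
  have hqv : q = (v - (b₂ - b₁) / v) / 2 := by
    rw [← hpq, hv]
    ring
  have htp : tt k Ω = b₁ + p ^ 2 := by
    rw [hp]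
    ring
  have hp0 : p ≠ 0 := by
    intro h0
    apply unif_ne_zero k₁ hfin1 (some ⟨b₁, hb₁⟩)
    show tt k Ω - b₁ = 0
    rw [← hp, h0]
    ring
  have hq0 : q ≠ 0 := by
    intro h0
    apply unif_ne_zero k₁ hfin1 (some ⟨b₂, hb₂⟩)
    show tt k Ω - b₂ = 0
    rw [← hq, h0]
    ring
  have hb₁a : IsAlgebraic k₁ b₁ := isAlgebraic_algebraMap (⟨b₁, hb₁⟩ : k₁)
  have hb₂a : IsAlgebraic k₁ b₂ := isAlgebraic_algebraMap (⟨b₂, hb₂⟩ : k₁)
  have h2a : IsAlgebraic k₁ (2 : Ω) := by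
    have h := isAlgebraic_algebraMap (R := k₁) (A := Ω) (2 : k₁)
    rwa [map_ofNat] at h
  have hvtr : Transcendental k₁ v := by
    intro h
    apply tt_transc k₁ hfin1
    rw [htp, hpv, div_eq_mul_inv, div_eq_mul_inv]
    exact hb₁a.add (((h.add ((hb₂a.sub hb₁a).mul h.inv)).mul h2a.inv).pow 2)
  have htalg : IsAlgebraic (RatFunc k) (tt k Ω) := isAlgebraic_algebraMap _
  have hpalg : IsAlgebraic (RatFunc k) p := IsAlgebraic.of_pow (n := 2) (by norm_num) (by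
    rw [hp]
    exact htalg.sub (level_alg k₁ hfin1 b₁ hb₁).2)
  have hqalg : IsAlgebraic (RatFunc k) q := IsAlgebraic.of_pow (n := 2) (by norm_num) (by
    rw [hq]
    exact htalg.sub (level_alg k₁ hfin1 b₂ hb₂).2)
  have hvalg : IsAlgebraic (RatFunc k) v := hpalg.add hqalg
  -- the embedding of `k₁(v)`
  have hinj : Function.Injective ((aeval v : k₁[X] →ₐ[k₁] Ω) : k₁[X] →+* Ω) := transcendental_iff_injective.1 hvtr
  let φ₁ : RatFunc k₁ →+* Ω := IsFractionRing.lift (A := k₁[X]) hinj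
  have hφ₁ : ∀ r : k₁[X], φ₁ (algebraMap k₁[X] (RatFunc k₁) r) = aeval v r := fun r => IsFractionRing.lift_algebraMap hinj r
  let _ : Algebra (RatFunc k₁) Ω := φ₁.toAlgebra
  have hφalg : ∀ r : RatFunc k₁, algebraMap (RatFunc k₁) Ω r = φ₁ r := fun _ => rfl
  have htow : IsScalarTower k₁ (RatFunc k₁) Ω := by
    refine IsScalarTower.of_algebraMap_eq fun c => ?_
    rw [hφalg, IsScalarTower.algebraMap_apply k₁ k₁[X] (RatFunc k₁), hφ₁]
    show algebraMap k₁ Ω c = aeval v (C c)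
    rw [aeval_C]
  have hF1 : ∀ c ∈ k₁, c ∈ φ₁.fieldRange := by
    intro c hc
    refine ⟨algebraMap k₁[X] (RatFunc k₁) (C ⟨c, hc⟩), ?_⟩
    rw [hφ₁, aeval_C]
    rfl
  have hFv : v ∈ φ₁.fieldRange := ⟨algebraMap k₁[X] (RatFunc k₁) X, by rw [hφ₁, aeval_X]⟩
  have hFp : p ∈ φ₁.fieldRange := by
    rw [hpv]
    exact div_mem (add_mem hFv (div_mem (sub_mem (hF1 _ hb₂) (hF1 _ hb₁)) hFv)) (ofNat_mem _ 2)
  have hFq : q ∈ φ₁.fieldRange := by
    rw [hqv]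
    exact div_mem (sub_mem hFv (div_mem (sub_mem (hF1 _ hb₂) (hF1 _ hb₁)) hFv)) (ofNat_mem _ 2)
  have hFt : tt k Ω ∈ φ₁.fieldRange := by
    rw [htp]
    exact add_mem (hF1 _ hb₁) (pow_mem hFp 2)
  have hsub : ∀ c : RatFunc k, ∃ r : RatFunc k₁, algebraMap (RatFunc k₁) Ω r = algebraMap (RatFunc k) Ω c := fun c =>
    fc_ratfunc φ₁.fieldRange (fun a => hF1 _ (k₁.algebraMap_mem a)) hFt c
  obtain ⟨M, hMfin, hM1, hMv⟩ := fc_fin k₁ hfin1 v hvalg
  have hM : ∀ r : RatFunc k₁, algebraMap (RatFunc k₁) Ω r ∈ M := by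
    intro r
    obtain ⟨a, b, -, rfl⟩ := IsFractionRing.div_surjective (A := k₁[X]) r
    rw [map_div₀, hφalg, hφalg, hφ₁, hφ₁]
    exact div_mem (fc_aeval M.toSubfield (fun c => hM1 _ c.2) v hMv a) (fc_aeval M.toSubfield (fun c => hM1 _ c.2) v hMv b)
  refine U_descend hsub M hMfin hM S hdep ?_
  intro S₁ hdep₁ hiff h1
  have hkfin : FiniteDimensional k₁ (⊥ : IntermediateField k₁ Ω) := inferInstance
  have hbot : ∀ c ∈ k₁, c ∈ (⊥ : IntermediateField k₁ Ω) := fun c hc =>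
    (⊥ : IntermediateField k₁ Ω).algebraMap_mem ⟨c, hc⟩
  have hSF : ∀ z ∈ S.F k₁, z ∈ S₁.F (⊥ : IntermediateField k₁ Ω) := by
    intro z hz τ₁ _
    obtain ⟨τ, hτ, hττ⟩ := h1 τ₁
    rw [hττ]
    exact hz τ fun y hy => hτ y (hF1 _ hy)
  have hSr : ∀ z ∈ φ₁.fieldRange, z ∈ S₁.F (⊥ : IntermediateField k₁ Ω) := by
    intro z hz τ₁ _
    obtain ⟨τ, hτ, hττ⟩ := h1 τ₁
    rw [hττ]
    have hza : IsAlgebraic (RatFunc k) z := by
      obtain ⟨r, rfl⟩ := hz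
      exact (hiff _).1 (isAlgebraic_algebraMap r)
    have h2 := S.res τ ⟨z, mem_algebraicClosure_iff.2 hza⟩
    rw [hτ ⟨z, mem_algebraicClosure_iff.2 hza⟩ hz] at h2
    exact h2
  -- the square root of the product
  let m : Ω := ∏ β ∈ B, (if β = b₁ then p else q)
  have hm : m ^ 2 = ∏ β ∈ B, (tt k Ω - β) := by
    rw [← Finset.prod_pow]
    refine Finset.prod_congr rfl fun β hβ => ?_
    rcases hB β hβ with rfl | rfl
    · rw [if_pos rfl, hp]
    · rw [if_neg hb.symm, hq]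
  have hmr : m ∈ φ₁.fieldRange := by
    refine _root_.prod_mem fun β _ => ?_
    split_ifs
    · exact hFp
    · exact hFq
  have hm0 : m ≠ 0 := by
    refine Finset.prod_ne_zero_iff.2 fun β _ => ?_
    split_ifs
    · exact hp0
    · exact hq0
  have hCk : CharZero k₁ := charZero_of_injective_algebraMap (algebraMap k k₁).injective
  obtain ⟨i, hik, hi2⟩ := hi
  refine exists_U_pts (k := k₁) (consts_of_fg (level_fg k k₁ hk)) S₁ hdep₁ ⊥ hkfin ⟨i, hbot i hik, hi2⟩ I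
    (fun e he => hbot e (hI e he)) h3 x (m * w) ε (hSF x hx) (mul_mem (hSr m hmr) (hSF w hw)) (mul_ne_zero hm0 hw0)
    (hbot ε hε) hε0 (fun h => htr ((hiff x).1 h)) ?_
  rw [hxy, mul_pow, hm]
  ring

end

end BSC
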