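import Pool.Agent.Lib_MP_49ddc8.Fb4
import Pool.Agent.Lib_MP_49ddc8.Fc2
import Pool.Agent.Lib_MP_49ddc8.Fc3

/-!
# Fixed branch points with bad places: the theorem
-/

set_option autoImplicit false

open Polynomial

namespace BSC

/-- a translate of `e` outside a finite set -/
theorem fc_translate {Ω : Type} [Field Ω] [CharZero Ω] (Z : Finset Ω) (e : Ω) : ∃ n : ℕ, e + (n : Ω) ∉ Z := by
  classical
  by_contra hcon
  push Not at hcon
  have h1 : Set.range (fun n : ℕ => e + (n : Ω)) ⊆ (Z : Set Ω) := by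
    rintro z ⟨n, rfl⟩
    exact hcon n
  refine Set.infinite_range_of_injective (f := fun n : ℕ => e + (n : Ω)) ?_ (Z.finite_toSet.subset h1)
  intro a b hab
  exact Nat.cast_injective (add_left_cancel hab)

section

variable {k Ω : Type} [Field k] [CharZero k] [Field Ω] [IsAlgClosed Ω] [Algebra k Ω] [Algebra (RatFunc k) Ω]
  [IsScalarTower k (RatFunc k) Ω]

/-- the finitely many collisions, with arbitrary behaviour on `Z` -/
theorem fc_collisions (G : k[X][X]) (R : Finset Ω) (hR : ∀ e ∈ R, IsAlgebraic k e) (Z : Finset Ω)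
    (hcol : ∀ a e : Ω, IsAlgebraic k a → a ∉ Z → e ∈ R → ev2 G a e = 0 → e ∉ IntermediateField.adjoin k {a}) :
    ∃ A : Finset Ω, (∀ a ∈ A, IsAlgebraic k a) ∧ ∀ a : Ω, IsAlgebraic k a → ∀ e ∈ R, ev2 G a e = 0 → a ∈ A := by
  classical
  have hH : ∀ e : Ω, ∃ H : Polynomial Ω, ∀ a : Ω, H.eval a = ev2 G a e := ev2_poly G
  choose H hH using hH
  refine ⟨(R.biUnion fun e => (H e).roots.toFinset).filter (fun a => IsAlgebraic k a), ?_, ?_⟩
  · intro a ha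
    exact (Finset.mem_filter.1 ha).2
  · intro a ha e he h0
    rw [Finset.mem_filter, Finset.mem_biUnion]
    refine ⟨⟨e, he, ?_⟩, ha⟩
    rw [Multiset.mem_toFinset, mem_roots', IsRoot.def, hH]
    refine ⟨?_, h0⟩
    intro hz
    have hC : CharZero Ω := charZero_of_injective_algebraMap (algebraMap k Ω).injective
    obtain ⟨n, hn⟩ := fc_translate Z e
    have h1 : ev2 G (e + (n : Ω)) e = 0 := by
      rw [← hH, hz, eval_zero]
    have hn1 : IsAlgebraic k (n : Ω) := by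
      have h := isAlgebraic_algebraMap (R := k) (A := Ω) (n : k)
      rwa [map_natCast] at h
    refine hcol _ e ((hR e he).add hn1) hn he h1 ?_
    have h2 : e = (e + (n : Ω)) - (n : Ω) := by ring
    have h3 : (e + (n : Ω)) - (n : Ω) ∈ IntermediateField.adjoin k {e + (n : Ω)} :=
      sub_mem (IntermediateField.mem_adjoin_simple_self k _) (natCast_mem _ n)
    rwa [← h2] at h3

/-- the data `FbZ` of a curve with fixed branch points -/
theorem exists_FbZ (hC : Consts k Ω) (S : Sec (RatFunc k) Ω) (f : k[X]) (hf : f.Separable) (h3 : 3 ≤ f.natDegree)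
    (G : k[X][X]) (Z₀ : Finset Ω) (hZ₀ : ∀ a ∈ Z₀, IsAlgebraic k a) (hZc : Z₀.card < f.natDegree)
    (hcol : ∀ a e : Ω, IsAlgebraic k a → a ∉ Z₀ → aeval e f = 0 → ev2 G a e = 0 → e ∉ IntermediateField.adjoin k {a})
    (x y : Ω) (hx : x ∈ S.F ∅) (hy : y ∈ S.F ∅) (htr : Transcendental (RatFunc k) x)
    (hxy : y ^ 2 = aeval x f * ev2 G (tt k Ω) x) :
    ∃ (Y : Sys k Ω) (R : Finset Ω) (A Z : Finset Y.k0) (c : Ω), Y.S = S ∧ FbZ Y R G A Z c x y ∧ R.card = f.natDegree ∧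
      Z.card ≤ Z₀.card ∧ (∀ ζ ∈ Z₀, ∃ z ∈ Z, (z : Ω) = ζ) ∧ ∃ i ∈ Y.k0, i ^ 2 = (-1 : Ω) := by
  classical
  have hf0 : f ≠ 0 := hf.ne_zero
  obtain ⟨R, hR, hRc, hRp⟩ := tw_roots (Ω := Ω) f hf
  have hRalg : ∀ e ∈ R, IsAlgebraic k e := fun e he => ⟨f, hf0, (hR e).1 he⟩
  obtain ⟨A, hAalg, hA⟩ := fc_collisions G R hRalg Z₀ (fun a e ha haZ he h0 => hcol a e ha haZ ((hR e).1 he) h0)
  obtain ⟨k1, hfin1, hi1, hroots1, hA1, hnorm1⟩ := fb_level (Ω := Ω) f hf0 (A ∪ Z₀) (by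
    intro a ha
    rcases Finset.mem_union.1 ha with h | h
    · exact hAalg a h
    · exact hZ₀ a h)
  obtain ⟨Y, hYS, hYk⟩ := exists_sys S k1 hfin1 (fun k' _ hfin' => hC.arith k' hfin') hi1
  subst hYS
  subst hYk
  have hG : G ≠ 0 := by
    rintro rfl
    obtain ⟨e, he, heZ⟩ := Finset.exists_mem_notMem_of_card_lt_card (show Z₀.card < R.card by rw [hRc]; exact hZc)
    refine hcol e e (hRalg e he) heZ ((hR e).1 he) ?_ (IntermediateField.mem_adjoin_simple_self k e)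
    unfold ev2
    rw [eval₂_zero]
  have hfx : aeval x f ≠ 0 := by
    intro h0
    have h1 : IsAlgebraic k x := ⟨f, hf0, h0⟩
    exact htr (h1.tower_top (RatFunc k))
  have hA1' : ∀ a ∈ A, a ∈ Y.k0 := fun a ha => hA1 a (Finset.mem_union_left _ ha)
  have hZ1' : ∀ a ∈ Z₀, a ∈ Y.k0 := fun a ha => hA1 a (Finset.mem_union_right _ ha)
  let Z' : Finset Y.k0 := Z₀.attach.image fun a => (⟨a.1, hZ1' a.1 a.2⟩ : Y.k0)
  let A' : Finset Y.k0 := (A.attach.image fun a => (⟨a.1, hA1' a.1 a.2⟩ : Y.k0)) ∪ Z'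
  have hZmem : ∀ ζ ∈ Z₀, ∃ z ∈ Z', (z : Ω) = ζ := fun ζ hζ =>
    ⟨⟨ζ, hZ1' ζ hζ⟩, Finset.mem_image.2 ⟨⟨ζ, hζ⟩, Finset.mem_attach _ _, rfl⟩, rfl⟩
  refine ⟨Y, R, A', Z', algebraMap k Ω f.leadingCoeff, rfl, ?_, hRc, ?_, hZmem, hi1⟩
  swap
  · refine Finset.card_image_le.trans ?_
    rw [Finset.card_attach]
  refine
    { norm := hnorm1 Y.S
      memR := fun e he => hroots1 e ((hR e).1 he)
      stab := fun τ e he => ?_
      card := by rw [hRc]; exact h3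
      fix := fun τ => hx τ (fun z hz => absurd hz (Set.notMem_empty _))
      memy := Y.S.F_mono (Set.empty_subset _) hy
      y0 := ?_
      memc := Y.k0.algebraMap_mem _
      c0 := (_root_.map_ne_zero (algebraMap k Ω)).2 (leadingCoeff_ne_zero.2 hf0)
      eq := by rw [hxy, hRp]
      col := fun a ha e he h0 => ?_
      sub := Finset.subset_union_right
      mov := fun α _ hαZ e he h0 => ?_ }
  · rw [hR, ← Y.S.s_aeval, (hR e).1 he, map_zero]
  · rintro rfl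
    have h1 := mul_ne_zero hfx (ev2_tt_ne G hG x htr)
    rw [← hxy] at h1
    exact h1 (by ring)
  · have h1 := hA a ha e he h0
    exact ⟨⟨a, hA1' a h1⟩, Finset.mem_union_left _ (Finset.mem_image.2 ⟨⟨a, h1⟩, Finset.mem_attach _ _, rfl⟩), rfl⟩
  · have hαalg : IsAlgebraic k (α : Ω) := (level_alg Y.k0 Y.fin0 α α.2).1
    have hαZ₀ : (α : Ω) ∉ Z₀ := by
      intro h
      obtain ⟨z, hz, hzα⟩ := hZmem _ h
      apply hαZ
      rw [← Subtype.ext hzα]
      exact hz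
    exact fb_moved Y.S (α : Ω) e hαalg (hRalg e he) (hcol _ e hαalg hαZ₀ ((hR e).1 he) h0)

/-- fixed branch points with a set `Z₀` of bad places -/
theorem exists_U_fixZ (hk : (⊤ : IntermediateField ℚ k).FG) (S : Sec (RatFunc k) Ω) (hdep : Dep (RatFunc k) Ω) (f : k[X])
    (hf : f.Separable) (G : k[X][X]) (Z₀ : Finset Ω) (hZ₀ : ∀ a ∈ Z₀, IsAlgebraic k a)
    (hdeg : (4 ≤ f.natDegree ∧ Z₀.card + 2 ≤ f.natDegree) ∨ (3 ≤ f.natDegree ∧ Z₀.card + 1 ≤ f.natDegree ∧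
      Odd (f.natDegree + G.natDegree) ∧ ∀ a : Ω, IsAlgebraic k a → aeval a G.leadingCoeff = 0 → a ∈ Z₀))
    (hcol : ∀ a e : Ω, IsAlgebraic k a → a ∉ Z₀ → aeval e f = 0 → ev2 G a e = 0 → e ∉ IntermediateField.adjoin k {a})
    (x y : Ω) (hx : x ∈ S.F ∅) (hy : y ∈ S.F ∅) (htr : Transcendental (RatFunc k) x)
    (hxy : y ^ 2 = aeval x f * ev2 G (tt k Ω) x) :
    ∃ U : ValuationSubring Ω, (∀ z : Ω, IsAlgebraic (RatFunc k) z → z ∈ U) ∧ (∃ ξ : Ω, ξ ≠ 0 ∧ U.valuation ξ < 1) ∧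
      ∀ (τ : algebraicClosure (RatFunc k) Ω ≃ₐ[RatFunc k] algebraicClosure (RatFunc k) Ω) (z : Ω), S.s τ z ∈ U ↔ z ∈ U := by
  classical
  have h3 : 3 ≤ f.natDegree ∧ Z₀.card < f.natDegree := by
    rcases hdeg with h | h
    · exact ⟨by omega, by omega⟩
    · exact ⟨h.1, by omega⟩
  obtain ⟨Y, R, A, Z, c, rfl, D, hRc, hZc, hZm, hi⟩ := exists_FbZ (consts_of_fg hk) S f hf h3.1 G Z₀ hZ₀ h3.2 hcol x y hx hy htr hxy
  obtain ⟨b₁, b₂, hb, hb2⟩ := fc_two Z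
  obtain ⟨J, hJ, hJ3, ε, hε, hε0, B, hB, w, hw, hw0, hz⟩ := D.choose b₁ b₂ (by
    rcases hdeg with h | ⟨h1, h2, hodd, hl⟩
    · left
      omega
    · right
      refine ⟨by omega, D.pole (fun a ha h0 => hZm a (hl a ha h0)) (by rw [hRc]; exact hodd)⟩)
  refine exists_U_base hk Y.S hdep Y.k0 Y.fin0 hi b₁ b₂ b₁.2 b₂.2 (fun h => hb (Subtype.ext h)) J
    (fun e he => D.memR e (hJ he)) hJ3 x w ε (D.memx _) hw hw0 hε hε0 htr (B.image fun α : Y.k0 => (α : Ω)) ?_ ?_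
  · intro β hβ
    obtain ⟨α, hα, rfl⟩ := Finset.mem_image.1 hβ
    have h1 := hB hα
    rw [Finset.mem_insert, Finset.mem_singleton] at h1
    rcases h1 with rfl | rfl
    · exact Or.inl rfl
    · exact Or.inr rfl
  · rw [hz, Finset.prod_image fun a _ b _ h => Subtype.ext h]

end

end BSC
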