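import Pool.Agent.Lib_MP_49ddc8.Fc4

/-!
# Fixed branch points with bad places: the section theorem
-/

set_option autoImplicit false

open Polynomial

namespace BSC

/-- every element algebraic over `k` comes from the algebraic closure of `k` -/
theorem fc_range {k Ω : Type} [Field k] [Field Ω] [IsAlgClosed Ω] [Algebra k Ω] (ι : AlgebraicClosure k →ₐ[k] Ω) (z : Ω)
    (hz : IsAlgebraic k z) : ∃ z', ι z' = z := by
  obtain ⟨p, hp, hpz⟩ := hz
  have hsplit : (p.map (algebraMap k (AlgebraicClosure k))).Splits := IsAlgClosed.splits _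
  have h1 : z ∈ (p.map (algebraMap k Ω)).roots := by
    rw [mem_roots ((Polynomial.map_ne_zero_iff (algebraMap k Ω).injective).2 hp), IsRoot.def, eval_map_algebraMap]
    exact hpz
  have h2 : p.map (algebraMap k Ω) = (p.map (algebraMap k (AlgebraicClosure k))).map ι.toRingHom := by
    rw [Polynomial.map_map]
    congr 1
    exact ι.comp_algebraMap.symm
  rw [h2, hsplit.roots_map_of_injective ι.toRingHom.injective, Multiset.mem_map] at h1
  obtain ⟨z', -, hz'⟩ := h1
  exact ⟨z', hz'⟩

/-- the section conjecture for curves `y² = f(x) G(u, x)`: fixed branch points, arbitrary behaviour at a few places -/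
theorem bsc_fixZ (κ : Type) [Field κ] [CharZero κ] (K : Type) [Field K] [Algebra κ K]
    (htd : ∃ t : K, Transcendental κ t ∧ Algebra.IsAlgebraic (IntermediateField.adjoin κ {t}) K)
    (k : Type) [Field k] [CharZero k] (hk : (⊤ : IntermediateField ℚ k).FG) [Algebra κ (RatFunc k)]
    [FiniteDimensional κ (RatFunc k)] (φ : RatFunc k →ₐ[κ] AlgebraicClosure K) (f : k[X]) (hf : f.Separable)
    (G : k[X][X]) (Z : Finset (AlgebraicClosure k))
    (hdeg : (4 ≤ f.natDegree ∧ Z.card + 2 ≤ f.natDegree) ∨ (3 ≤ f.natDegree ∧ Z.card + 1 ≤ f.natDegree ∧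
      Odd (f.natDegree + G.natDegree) ∧ ∀ a : AlgebraicClosure k, aeval a G.leadingCoeff = 0 → a ∈ Z))
    (hcol : ∀ a e : AlgebraicClosure k, a ∉ Z → aeval e f = 0 →
      G.eval₂ (aeval a : k[X] →ₐ[k] AlgebraicClosure k).toRingHom e = 0 → e ∉ IntermediateField.adjoin k {a})
    (x y : AlgebraicClosure K)
    (hx : x ∈ IntermediateField.adjoin K (Set.range φ)) (hy : y ∈ IntermediateField.adjoin K (Set.range φ))
    (htr : Transcendental κ x)
    (hxy : y ^ 2 = f.eval₂ (φ.toRingHom.comp (algebraMap k (RatFunc k))) x *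
      G.eval₂ (φ.toRingHom.comp (algebraMap k[X] (RatFunc k))) x)
    (s : ((algebraicClosure κ (AlgebraicClosure K)) ≃ₐ[κ] (algebraicClosure κ (AlgebraicClosure K))) →*
      (AlgebraicClosure K ≃ₐ[K] AlgebraicClosure K)) (hs : Continuous s)
    (hres : ∀ (τ : (algebraicClosure κ (AlgebraicClosure K)) ≃ₐ[κ] (algebraicClosure κ (AlgebraicClosure K)))
      (x : algebraicClosure κ (AlgebraicClosure K)),
        s τ (x : AlgebraicClosure K) = ((τ x : algebraicClosure κ (AlgebraicClosure K)) : AlgebraicClosure K)) :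
    ∃! O : ValuationSubring K,
      ((∀ c : κ, algebraMap κ K c ∈ O) ∧ O ≠ ⊤ ∧
        ∀ x ∈ O, ∃ c : κ, x - algebraMap κ K c = 0 ∨ (x - algebraMap κ K c)⁻¹ ∉ O) ∧
      ∃ W : ValuationSubring (AlgebraicClosure K),
        W.comap (algebraMap K (AlgebraicClosure K)) = O ∧
        ∀ τ, ∀ y : AlgebraicClosure K, (s τ y ∈ W ↔ y ∈ W) := by
  classical
  refine bsc_of_U' κ K htd k φ s hs hres ?_
  intro _ _ _ hφ hφk S hdep hiff hfix
  have hk1 : φ.toRingHom.comp (algebraMap k (RatFunc k)) = algebraMap k (AlgebraicClosure K) :=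
    RingHom.ext fun r => (hφk r).symm
  have hk2 : φ.toRingHom.comp (algebraMap k[X] (RatFunc k)) =
      (algebraMap (RatFunc k) (AlgebraicClosure K)).comp (algebraMap k[X] (RatFunc k)) :=
    RingHom.ext fun r => (hφ _).symm
  let ι : AlgebraicClosure k →ₐ[k] AlgebraicClosure K := IsAlgClosed.lift
  have hrange : ∀ z : AlgebraicClosure K, IsAlgebraic k z → ∃ z', ι z' = z := fc_range ι
  have hZc : (Z.image ι).card ≤ Z.card := Finset.card_image_le
  refine exists_U_fixZ hk S hdep f hf G (Z.image ι) ?_ ?_ ?_ x y (hfix x hx) (hfix y hy)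
    (fun h => htr ((hiff x).1 h)) ?_
  · intro a ha
    obtain ⟨a', -, rfl⟩ := Finset.mem_image.1 ha
    exact (Algebra.IsAlgebraic.isAlgebraic (R := k) a').algHom ι
  · rcases hdeg with h | ⟨h1, h2, h3, h4⟩
    · exact Or.inl ⟨h.1, by omega⟩
    · refine Or.inr ⟨h1, by omega, h3, fun a ha h0 => ?_⟩
      obtain ⟨a', rfl⟩ := hrange a ha
      refine Finset.mem_image_of_mem _ (h4 a' ?_)
      apply ι.toRingHom.injective
      rw [map_zero]
      show ι (aeval a' G.leadingCoeff) = 0
      rw [← aeval_algHom_apply]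
      exact h0
  · -- transfer of the condition
    intro a e ha haZ he h0 hmem
    have hea : IsAlgebraic k e := ⟨f, hf.ne_zero, he⟩
    obtain ⟨a', rfl⟩ := hrange a ha
    obtain ⟨e', rfl⟩ := hrange e hea
    refine hcol a' e' (fun h => haZ (Finset.mem_image_of_mem _ h)) ?_ ?_ ?_
    · apply ι.toRingHom.injective
      rw [map_zero]
      show ι (aeval e' f) = 0
      rw [← aeval_algHom_apply]
      exact he
    · apply ι.toRingHom.injective
      rw [map_zero, Polynomial.hom_eval₂]
      have h1 : ι.toRingHom.comp (aeval a' : k[X] →ₐ[k] AlgebraicClosure k).toRingHom =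
          (aeval (ι a') : k[X] →ₐ[k] AlgebraicClosure K).toRingHom := by
        apply RingHom.ext
        intro p
        show ι (aeval a' p) = aeval (ι a') p
        rw [aeval_algHom_apply]
      rw [h1]
      exact h0
    · have h1 : IntermediateField.adjoin k {ι a'} = (IntermediateField.adjoin k {a'}).map ι := by
        rw [IntermediateField.adjoin_map, Set.image_singleton]
      rw [h1] at hmem
      obtain ⟨b, hb, hbe⟩ := hmem
      have h2 : b = e' := ι.toRingHom.injective hbe
      rw [← h2]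
      exact hb
  · rw [hxy, hk1, hk2, ev2_tt]
    rfl

end BSC
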