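import Pool.Agent.Lib_MP_49ddc8.Vtwo

/-!
# [BSC-X1] .. [BSC-X5]  Unique extension, Schmidt uniqueness, invariance

[BSC-X1] `span_indep`: `span_kbar` gives `z = ∑ c_i β_i`, `c_i ∈ S.F ∅ ⊆ Finf`, `β_i` algebraic over `RatFunc k`.  Express the `β_i` in a basis of their span over `kinfF` (finite-dimensional space), collect coefficients.

[BSC-X2] `mem_iff_coeff`: `U` contains all algebraic elements, so `𝔪_U` contains no algebraic element `≠ 0`.  If all `c_i ∈ U` then `z ∈ U`.  Conversely let some `c_i ∉ U`, `|c_m|` maximal (so `> 1`): `z/c_m = ∑ (c_i/c_m) β_i`, `|z/c_m| ≤ |c_m|⁻¹ < 1` if `z ∈ U`; `c_i/c_m ∈ Finf ∩ U` is `≡ d_i ∈ kinf` mod `𝔪_U`, `d_m = 1` (as `1 - d_m` is algebraic in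
`𝔪_U`), so `∑ d_i β_i ∈ 𝔪_U` is algebraic, so `0`, contradiction to the independence.
`ext_unique`: both sides of `z ∈ U ↔ z ∈ U'` are `∀ i, c_i ∈ U` (`hUU'` transfers the residue property: `|y - r|_U' < 1` iff `y = r` or `(y - r)⁻¹ ∉ U'`).

[BSC-X3] `schmidt` (with `q ≠ 0`): `e = (1 + q)⁻¹`, `t = w²`, `z = t + e (1 - t)`: `σ z = z`; `z - 1 = (1 - e)(t - 1) ∈ 𝔪_U` (`1 - e = q e`), `z/t - 1 = e (1 - t)/t ∈ 𝔪_U'` (`e = q⁻¹/(1 + q⁻¹)`).  `y² = z` with `y ≡ 1` mod `𝔪_U` (`(y - 1)(y + 1) ∈ 𝔪_U`, change the sign); `σ y = ± y` and `σ y ≡ 1` mod `𝔪_U`; `σ y = -y` would give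
`2 ∈ 𝔪_U`; so `σ y = y`.  In the same way `y'² = z/t`, `y' ≡ 1` mod `𝔪_U'`, `σ y' = y'`.  `(y/y')² = w²`, so `y/y' = ± w` is not fixed by `σ`, contradiction.
`compar`: if `a ∈ A ∩ U`, `a ∉ U'`, `b ∈ A ∩ U'`, `b ∉ U`, then `q = a/b`: `|q|_U < 1` and `|q⁻¹|_U' < 1`.
`res_eq`: say `A ∩ U ⊆ U'`; `a ∈ A ∩ U'`, `|a - r|_U' < 1`, `r ∈ K ⊆ U`; `a = r` or `(a - r)⁻¹ ∉ U'`, so `(a - r)⁻¹ ∉ U`, `a - r ∈ U`, `a ∈ U`.

[BSC-X4] `kinf_stable`, `Finf_stable`: `τ` maps elements algebraic over `k` to elements algebraic over `k` (`k → RatFunc k`), so `s τ` maps a level `k'` onto a level `τ k'` (`k'.map` of a suitable `k`-algebra automorphism of `Ω`; `s τ` is `k`-linear as `s τ` fixes the image of `RatFunc k`), `kt k'` onto `kt (τ k')`, `S.F k'` onto `S.F (τ k')`.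
`exists_sigma`: `w² = t` in `Ω`.  `w ∉ kt k'` for every level: `w = p(t)/q(t)`, `p² = X q²` in `k'[X]`, degrees have different parity.  So `w ∉ kinfF = adjoin (RatFunc k) {c | IsAlgebraic k c}`; `exists_move` gives `τ` fixing `{c | IsAlgebraic k c}` (hence `kinf`) with `τ w ≠ w`, so `τ w = -w`.

[BSC-X5] `invariant`: Step 1, `τ` fixes `kinf`: `U.comap (s τ)` and `U` agree on `Finf` (`s τ` fixes `Finf` pointwise), so they are equal (`ext_unique`).  Step 2, any `τ`: `U' = U.comap (s τ)` contains the algebraic elements, has the residue property (`kinf_stable`, `Finf_stable`, for `τ` and `τ⁻¹`), and is invariant under `s σ`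
for `σ` fixing `kinf` (`τ σ τ⁻¹` fixes `kinf`).  With `σ`, `w` from `exists_sigma`: `compar` with `A = FinfF S`, then `res_eq` with `K = kinf`, then `ext_unique`: `U' = U`.
-/

set_option autoImplicit false

open Polynomial

namespace BSC

section

variable {k Ω : Type} [Field k] [CharZero k] [Field Ω] [IsAlgClosed Ω] [Algebra k Ω] [Algebra (RatFunc k) Ω]
  [IsScalarTower k (RatFunc k) Ω]

theorem span_indep (S : Sec (RatFunc k) Ω) (z : Ω) : ∃ (n : ℕ) (c β : Fin n → Ω), (∀ i, c i ∈ Finf S) ∧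
    (∀ i, IsAlgebraic (RatFunc k) (β i)) ∧ LinearIndependent (kinfF k Ω) β ∧ z = ∑ i, c i * β i := by
  classical
  obtain ⟨n, c, β, hc, hβ, hz⟩ := span_kbar S z
  set V : Submodule (kinfF k Ω) Ω := Submodule.span (kinfF k Ω) (Set.range β) with hV
  have hfin : FiniteDimensional (kinfF k Ω) V := FiniteDimensional.span_of_finite _ (Set.finite_range β)
  set b := Module.finBasis (kinfF k Ω) V with hb
  have hmem : ∀ i, β i ∈ V := fun i => Submodule.subset_span ⟨i, rfl⟩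
  have halg : ∀ x ∈ V, IsAlgebraic (RatFunc k) x := by
    intro x hx
    induction hx using Submodule.span_induction with
    | mem x hx =>
      obtain ⟨i, rfl⟩ := hx
      exact hβ i
    | zero => exact isAlgebraic_zero
    | add x y _ _ hx hy => exact hx.add hy
    | smul a x _ hx =>
      have h1 : a • x = (a : Ω) * x := rfl
      rw [h1]
      exact (kinf_alg _ ((mem_kinfF _).1 a.2)).mul hx
  have hrep : ∀ i, ∑ j, ((b.repr ⟨β i, hmem i⟩ j : kinfF k Ω) : Ω) * ((b j : V) : Ω) = β i := by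
    intro i
    have h1 := congrArg (Subtype.val) (b.sum_repr ⟨β i, hmem i⟩)
    rw [Submodule.coe_sum] at h1
    exact h1
  refine ⟨Module.finrank (kinfF k Ω) V,
    fun j => ∑ i, c i * ((b.repr ⟨β i, hmem i⟩ j : kinfF k Ω) : Ω), fun j => ((b j : V) : Ω),
    fun j => ?_, fun j => halg _ (b j).2, b.linearIndependent.map' V.subtype (Submodule.ker_subtype V), ?_⟩
  · show _ ∈ FinfF S
    exact sum_mem fun i _ => mul_mem (F_empty_sub_Finf S _ (hc i))
      (kinf_sub_Finf S _ ((mem_kinfF _).1 (b.repr ⟨β i, hmem i⟩ j).2))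
  · simp only [Finset.sum_mul]
    rw [Finset.sum_comm, hz]
    refine Finset.sum_congr rfl fun i _ => ?_
    simp only [mul_assoc]
    rw [← Finset.mul_sum, hrep]

/-- an algebraic element in the maximal ideal is zero -/
private theorem alg_zero_of_lt {k Ω : Type} [Field k] [Field Ω] [Algebra (RatFunc k) Ω] (U : ValuationSubring Ω)
    (halg : ∀ z : Ω, IsAlgebraic (RatFunc k) z → z ∈ U) (a : Ω) (ha : IsAlgebraic (RatFunc k) a)
    (h : U.valuation a < 1) : a = 0 := by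
  by_contra h0
  have h1 := (U.valuation_le_one_iff _).2 (halg a⁻¹ ha.inv)
  have h2 : U.valuation a * U.valuation a⁻¹ = 1 := by
    rw [← map_mul, mul_inv_cancel₀ h0, map_one]
  have h3 : U.valuation a * U.valuation a⁻¹ < 1 := by
    calc U.valuation a * U.valuation a⁻¹ ≤ U.valuation a * 1 := mul_le_mul_right h1 _
      _ < 1 := by rwa [mul_one]
  exact absurd h2 h3.ne

theorem mem_iff_coeff (S : Sec (RatFunc k) Ω) (U : ValuationSubring Ω) (halg : ∀ z : Ω, IsAlgebraic (RatFunc k) z → z ∈ U)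
    (hres : ∀ y ∈ Finf S, y ∈ U → ∃ r ∈ kinf k Ω, U.valuation (y - r) < 1) (n : ℕ) (c β : Fin n → Ω)
    (hc : ∀ i, c i ∈ Finf S) (hβ : ∀ i, IsAlgebraic (RatFunc k) (β i)) (hind : LinearIndependent (kinfF k Ω) β) :
    ∑ i, c i * β i ∈ U ↔ ∀ i, c i ∈ U := by
  constructor
  · intro hz
    by_contra hcon
    push Not at hcon
    obtain ⟨j, hj⟩ := hcon
    obtain ⟨m, -, hm⟩ := Finset.exists_max_image Finset.univ (fun i => U.valuation (c i)) ⟨j, Finset.mem_univ j⟩
    have hj1 : 1 < U.valuation (c j) := by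
      rw [← not_le, U.valuation_le_one_iff]; exact hj
    have hm1 : 1 < U.valuation (c m) := hj1.trans_le (hm j (Finset.mem_univ j))
    have hcm : c m ≠ 0 := by
      intro h0
      rw [h0, map_zero] at hm1
      exact absurd hm1 (by simp)
    have hvm : U.valuation (c m) ≠ 0 := (U.valuation.ne_zero_iff).2 hcm
    have hinv : U.valuation (c m)⁻¹ < 1 := by
      rw [map_inv₀]
      exact inv_lt_one_of_one_lt₀ hm1
    have hle : ∀ i, c i / c m ∈ U := by
      intro i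
      rw [← U.valuation_le_one_iff, map_div₀]
      exact (div_le_one₀ (lt_trans zero_lt_one hm1)).2 (hm i (Finset.mem_univ i))
    have hF : ∀ i, c i / c m ∈ Finf S := by
      intro i
      exact (FinfF S).div_mem (hc i) (hc m)
    have hd : ∀ i, ∃ r ∈ kinf k Ω, U.valuation (c i / c m - r) < 1 := fun i => hres _ (hF i) (hle i)
    choose d hdk hdv using hd
    have hsum : ∑ i, d i * β i = (∑ i, c i * β i) * (c m)⁻¹ - ∑ i, (c i / c m - d i) * β i := by
      rw [Finset.sum_mul, ← Finset.sum_sub_distrib]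
      refine Finset.sum_congr rfl fun i _ => ?_
      field_simp
      ring
    have hlt : U.valuation (∑ i, d i * β i) < 1 := by
      rw [hsum]
      refine Valuation.map_sub_lt _ ?_ ?_
      · rw [map_mul]
        calc U.valuation (∑ i, c i * β i) * U.valuation (c m)⁻¹ ≤ 1 * U.valuation (c m)⁻¹ :=
              mul_le_mul_left ((U.valuation_le_one_iff _).2 hz) _
          _ < 1 := by rwa [one_mul]
      · refine Valuation.map_sum_lt _ one_ne_zero fun i _ => ?_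
        rw [map_mul]
        calc U.valuation (c i / c m - d i) * U.valuation (β i) ≤ U.valuation (c i / c m - d i) * 1 :=
              mul_le_mul_right ((U.valuation_le_one_iff _).2 (halg _ (hβ i))) _
          _ < 1 := by rw [mul_one]; exact hdv i
    have halgs : IsAlgebraic (RatFunc k) (∑ i, d i * β i) := by
      have : ∑ i, d i * β i ∈ algebraicClosure (RatFunc k) Ω := by
        refine sum_mem fun i _ => mul_mem ?_ ?_
        · exact mem_algebraicClosure_iff.2 (kinf_alg _ (hdk i))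
        · exact mem_algebraicClosure_iff.2 (hβ i)
      exact mem_algebraicClosure_iff.1 this
    have h0 := alg_zero_of_lt U halg _ halgs hlt
    have hall := Fintype.linearIndependent_iff.1 hind
      (fun i => (⟨d i, (mem_kinfF _).2 (hdk i)⟩ : kinfF k Ω)) (by
        simp only [IntermediateField.smul_def, smul_eq_mul]
        exact h0) m
    have hdm : d m = 0 := congrArg Subtype.val hall
    have := hdv m
    rw [hdm, div_self hcm, sub_zero, map_one] at this
    exact lt_irrefl _ this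
  · intro h
    exact sum_mem fun i _ => mul_mem (h i) (halg _ (hβ i))

theorem ext_unique (S : Sec (RatFunc k) Ω) (U U' : ValuationSubring Ω) (halg : ∀ z : Ω, IsAlgebraic (RatFunc k) z → z ∈ U)
    (halg' : ∀ z : Ω, IsAlgebraic (RatFunc k) z → z ∈ U')
    (hres : ∀ y ∈ Finf S, y ∈ U → ∃ r ∈ kinf k Ω, U.valuation (y - r) < 1)
    (hUU' : ∀ y ∈ Finf S, y ∈ U ↔ y ∈ U') : U = U' := by
  have hres' : ∀ y ∈ Finf S, y ∈ U' → ∃ r ∈ kinf k Ω, U'.valuation (y - r) < 1 := by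
    intro y hy hyU'
    obtain ⟨r, hr, hv⟩ := hres y hy ((hUU' y hy).2 hyU')
    refine ⟨r, hr, ?_⟩
    by_cases h0 : y - r = 0
    · rw [h0, map_zero]; exact zero_lt_one
    · have hmem : (y - r)⁻¹ ∈ Finf S :=
        (FinfF S).inv_mem ((FinfF S).sub_mem hy (kinf_sub_Finf S r hr))
      have h1 : (y - r)⁻¹ ∉ U := by
        rw [← U.valuation_le_one_iff, map_inv₀, not_le]
        exact (one_lt_inv₀ ((U.valuation.pos_iff).2 h0)).2 hv
      have h2 : (y - r)⁻¹ ∉ U' := fun h => h1 ((hUU' _ hmem).2 h)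
      rw [← U'.valuation_le_one_iff, map_inv₀, not_le] at h2
      exact (one_lt_inv₀ ((U'.valuation.pos_iff).2 h0)).1 h2
  ext z
  obtain ⟨n, c, β, hc, hβ, hind, rfl⟩ := span_indep S z
  rw [mem_iff_coeff S U halg hres n c β hc hβ hind, mem_iff_coeff S U' halg' hres' n c β hc hβ hind]
  exact forall_congr' fun i => hUU' _ (hc i)

end

section

variable {Ω : Type} [Field Ω] [CharZero Ω]

private theorem X3_lt_iff {Ω : Type} [Field Ω] (U : ValuationSubring Ω) (a : Ω) :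
    U.valuation a < 1 ↔ a = 0 ∨ a⁻¹ ∉ U := by
  by_cases h0 : a = 0
  · simp [h0]
  · have hpos : 0 < U.valuation a := zero_lt_iff.2 ((_root_.map_ne_zero _).2 h0)
    rw [← U.valuation_le_one_iff a⁻¹, map_inv₀, not_le, one_lt_inv₀ hpos]
    constructor
    · intro h
      exact Or.inr h
    · rintro (h | h)
      · exact absurd h h0
      · exact h

private theorem X3_sigma {Ω : Type} [Field Ω] (σ : Ω ≃+* Ω) (U : ValuationSubring Ω)
    (hU : ∀ z, σ z ∈ U ↔ z ∈ U) (a : Ω) (ha : U.valuation a < 1) : U.valuation (σ a) < 1 := by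
  rw [X3_lt_iff] at ha ⊢
  rcases ha with h | h
  · left
    rw [h, map_zero]
  · right
    rw [← map_inv₀, hU]
    exact h

private theorem X3_root [IsAlgClosed Ω] (σ : Ω ≃+* Ω) (U : ValuationSubring Ω)
    (hU : ∀ z, σ z ∈ U ↔ z ∈ U) (h2 : (2 : Ω)⁻¹ ∈ U) (z : Ω) (hz : σ z = z)
    (hz1 : U.valuation (z - 1) < 1) : ∃ y : Ω, y ^ 2 = z ∧ σ y = y := by
  have h2' : ¬ U.valuation (2 : Ω) < 1 := by
    rw [X3_lt_iff]
    rintro (h | h)
    · exact two_ne_zero h
    · exact h h2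
  -- a square root `y` with `y ≡ 1`
  have key : ∃ y : Ω, y ^ 2 = z ∧ U.valuation (y - 1) < 1 := by
    obtain ⟨y, hy⟩ := IsAlgClosed.exists_pow_nat_eq z (n := 2) (by norm_num)
    have h3 : U.valuation (y - 1) * U.valuation (y + 1) < 1 := by
      rw [← map_mul]
      have : (y - 1) * (y + 1) = z - 1 := by
        rw [← hy]
        ring
      rw [this]
      exact hz1
    by_cases h4 : U.valuation (y - 1) < 1
    · exact ⟨y, hy, h4⟩
    · refine ⟨-y, by rw [neg_sq, hy], ?_⟩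
      have h5 : U.valuation (-y - 1) = U.valuation (y + 1) := by
        rw [← Valuation.map_neg]
        congr 1
        ring
      rw [h5]
      by_contra h6
      exact absurd h3 (not_lt.2 (one_le_mul (not_lt.1 h4) (not_lt.1 h6)))
  obtain ⟨y, hy, hy1⟩ := key
  refine ⟨y, hy, ?_⟩
  have h7 : σ y = y ∨ σ y = -y := by
    refine sq_eq_sq_iff_eq_or_eq_neg.1 ?_
    rw [← map_pow, hy, hz]
  rcases h7 with h7 | h7
  · exact h7
  · exfalso
    apply h2'
    have h8 := X3_sigma σ U hU (y - 1) hy1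
    rw [map_sub, map_one, h7] at h8
    have h9 : (2 : Ω) = -((-y - 1) + (y - 1)) := by ring
    rw [h9, Valuation.map_neg]
    exact Valuation.map_add_lt _ h8 hy1

theorem schmidt [IsAlgClosed Ω] (σ : Ω ≃+* Ω) (U U' : ValuationSubring Ω) (hU : ∀ z, σ z ∈ U ↔ z ∈ U)
    (hU' : ∀ z, σ z ∈ U' ↔ z ∈ U') (h2 : (2 : Ω)⁻¹ ∈ U) (h2' : (2 : Ω)⁻¹ ∈ U') (w : Ω) (hw : σ w = -w)
    (hwU : U.valuation w = 1) (hwU' : U'.valuation w = 1) (q : Ω) (hq0 : q ≠ 0) (hq : σ q = q)
    (hqU : U.valuation q < 1) (hqU' : U'.valuation q⁻¹ < 1) : False := by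
  have hw0 : w ≠ 0 := by
    rintro rfl
    rw [map_zero] at hwU
    exact zero_ne_one hwU
  have hV2 : ∀ V : ValuationSubring Ω, ∀ r : Ω, V.valuation r < 1 → V.valuation (1 + r) = 1 := by
    intro V r hr
    have h1 : V.valuation r < V.valuation (1 : Ω) := by
      rw [map_one]
      exact hr
    rw [Valuation.map_add_eq_of_lt_left _ h1, map_one]
  have hle : ∀ V : ValuationSubring Ω, V.valuation w = 1 → V.valuation (w ^ 2 - 1) ≤ 1 := by
    intro V hV
    refine (Valuation.map_sub _ _ _).trans ?_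
    rw [map_pow, hV, one_pow, map_one, max_self]
  -- `w² = t`
  have hσt : σ (w ^ 2) = w ^ 2 := by
    rw [map_pow, hw, neg_sq]
  have hσe : σ (1 + q)⁻¹ = (1 + q)⁻¹ := by
    rw [map_inv₀, map_add, map_one, hq]
  have h1q : 1 + q ≠ 0 := by
    intro h
    have := hV2 U q hqU
    rw [h, map_zero] at this
    exact zero_ne_one this
  have heU : U.valuation (1 + q)⁻¹ = 1 := by
    rw [map_inv₀, hV2 U q hqU, inv_one]
  have heU' : U'.valuation (1 + q)⁻¹ < 1 := by
    have h1 : (1 + q)⁻¹ = q⁻¹ * (1 + q⁻¹)⁻¹ := by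
      have h3 : 1 + q⁻¹ = (1 + q) * q⁻¹ := by
        field_simp
        ring
      rw [h3, mul_inv, inv_inv]
      field_simp
    rw [h1, map_mul, map_inv₀ _ (1 + q⁻¹), hV2 U' _ hqU', inv_one, mul_one]
    exact hqU'
  set z : Ω := w ^ 2 + (1 + q)⁻¹ * (1 - w ^ 2) with hz
  have hσz : σ z = z := by
    rw [hz, map_add, map_mul, map_sub, map_one, hσt, hσe]
  have hz1 : U.valuation (z - 1) < 1 := by
    have h1 : z - 1 = q * ((1 + q)⁻¹ * (w ^ 2 - 1)) := by
      rw [hz]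
      field_simp
      ring
    rw [h1, map_mul, map_mul, heU, one_mul]
    calc U.valuation q * U.valuation (w ^ 2 - 1) ≤ U.valuation q * 1 :=
          mul_le_mul_right (hle U hwU) _
      _ < 1 := by
          rw [mul_one]
          exact hqU
  obtain ⟨y, hy, hσy⟩ := X3_root σ U hU h2 z hσz hz1
  have hz1' : U'.valuation (z / w ^ 2 - 1) < 1 := by
    have h1 : z / w ^ 2 - 1 = (1 + q)⁻¹ * ((1 - w ^ 2) / w ^ 2) := by
      rw [hz]
      field_simp
      ring
    rw [h1, map_mul, map_div₀, map_pow, hwU', one_pow, div_one, ← Valuation.map_neg _ (1 - w ^ 2), neg_sub]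
    calc U'.valuation (1 + q)⁻¹ * U'.valuation (w ^ 2 - 1) ≤ U'.valuation (1 + q)⁻¹ * 1 :=
          mul_le_mul_right (hle U' hwU') _
      _ < 1 := by
          rw [mul_one]
          exact heU'
  obtain ⟨y', hy', hσy'⟩ := X3_root σ U' hU' h2' (z / w ^ 2) (by rw [map_div₀, hσz, hσt]) hz1'
  have hy'0 : y' ≠ 0 := by
    rintro rfl
    have h1 : z = 0 := by
      have : z / w ^ 2 = 0 := by
        rw [← hy']
        ring
      rcases div_eq_zero_iff.1 this with h | h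
      · exact h
      · exact absurd h (pow_ne_zero 2 hw0)
    rw [h1, zero_sub, Valuation.map_neg, map_one] at hz1
    exact lt_irrefl _ hz1
  have h5 : (y / y') ^ 2 = w ^ 2 := by
    have hz0 : z ≠ 0 := by
      intro h
      apply hy'0
      have : y' ^ 2 = 0 := by rw [hy', h, zero_div]
      exact pow_eq_zero_iff (two_ne_zero) |>.1 this
    rw [div_pow, hy, hy']
    field_simp
  have h6 : σ (y / y') = y / y' := by
    rw [map_div₀, hσy, hσy']
  have h7 : σ w = w := by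
    rcases sq_eq_sq_iff_eq_or_eq_neg.1 h5 with h | h
    · rw [← h, h6]
    · have h8 : w = -(y / y') := by rw [h, neg_neg]
      rw [h8, map_neg, h6]
  rw [hw] at h7
  have h8 : (2 : Ω) * w = 0 := by linear_combination -h7
  rcases mul_eq_zero.1 h8 with h | h
  · exact two_ne_zero h
  · exact hw0 h

theorem compar [IsAlgClosed Ω] (σ : Ω ≃+* Ω) (U U' : ValuationSubring Ω) (hU : ∀ z, σ z ∈ U ↔ z ∈ U)
    (hU' : ∀ z, σ z ∈ U' ↔ z ∈ U') (h2 : (2 : Ω)⁻¹ ∈ U) (h2' : (2 : Ω)⁻¹ ∈ U') (w : Ω) (hw : σ w = -w)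
    (hwU : U.valuation w = 1) (hwU' : U'.valuation w = 1) (A : Subfield Ω) (hA : ∀ a ∈ A, σ a = a) :
    (∀ a ∈ A, a ∈ U → a ∈ U') ∨ ∀ a ∈ A, a ∈ U' → a ∈ U := by
  by_contra hcon
  push Not at hcon
  obtain ⟨⟨a, haA, haU, haU'⟩, b, hbA, hbU', hbU⟩ := hcon
  have ha0 : a ≠ 0 := by
    rintro rfl
    exact haU' U'.zero_mem
  have hb0 : b ≠ 0 := by
    rintro rfl
    exact hbU U.zero_mem
  refine schmidt σ U U' hU hU' h2 h2' w hw hwU hwU' (a / b) (div_ne_zero ha0 hb0)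
    (by rw [map_div₀, hA a haA, hA b hbA]) ?_ ?_
  · rw [X3_lt_iff]
    right
    intro h
    apply hbU
    have : b = (a / b)⁻¹ * a := by
      field_simp
    rw [this]
    exact mul_mem h haU
  · rw [X3_lt_iff]
    right
    intro h
    apply haU'
    have : a = (a / b)⁻¹⁻¹ * b := by
      field_simp
    rw [this]
    exact mul_mem h hbU'

private theorem X3_res (U U' : ValuationSubring Ω) (A : Subfield Ω) (K : Set Ω) (hKA : ∀ r ∈ K, r ∈ A)
    (hK : ∀ r ∈ K, r ∈ U) (hres' : ∀ a ∈ A, a ∈ U' → ∃ r ∈ K, U'.valuation (a - r) < 1)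
    (hcomp : ∀ a ∈ A, a ∈ U → a ∈ U') (a : Ω) (ha : a ∈ A) : a ∈ U ↔ a ∈ U' := by
  refine ⟨hcomp a ha, fun h => ?_⟩
  obtain ⟨r, hr, hlt⟩ := hres' a ha h
  rw [X3_lt_iff] at hlt
  rcases hlt with hlt | hlt
  · rw [sub_eq_zero.1 hlt]
    exact hK r hr
  · have h1 : (a - r)⁻¹ ∉ U := fun h2 => hlt (hcomp _ (A.inv_mem (A.sub_mem ha (hKA r hr))) h2)
    have h2 : a - r ∈ U := (U.mem_or_inv_mem (a - r)).resolve_right h1
    have : a = (a - r) + r := by ring
    rw [this]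
    exact add_mem h2 (hK r hr)

theorem res_eq (U U' : ValuationSubring Ω) (A : Subfield Ω) (K : Set Ω) (hKA : ∀ r ∈ K, r ∈ A) (hK : ∀ r ∈ K, r ∈ U)
    (hK' : ∀ r ∈ K, r ∈ U') (hres : ∀ a ∈ A, a ∈ U → ∃ r ∈ K, U.valuation (a - r) < 1)
    (hres' : ∀ a ∈ A, a ∈ U' → ∃ r ∈ K, U'.valuation (a - r) < 1)
    (hcomp : (∀ a ∈ A, a ∈ U → a ∈ U') ∨ ∀ a ∈ A, a ∈ U' → a ∈ U) (a : Ω) (ha : a ∈ A) : a ∈ U ↔ a ∈ U' := by
  rcases hcomp with h | h
  · exact X3_res U U' A K hKA hK hres' h a ha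
  · exact (X3_res U' U A K hKA hK' hres h a ha).symm

end

section

variable {k Ω : Type} [Field k] [CharZero k] [Field Ω] [IsAlgClosed Ω] [Algebra k Ω] [Algebra (RatFunc k) Ω]
  [IsScalarTower k (RatFunc k) Ω]

/-- `s τ` as an automorphism over `RatFunc k` -/
private noncomputable def X4_alg (S : Sec (RatFunc k) Ω)
    (τ : algebraicClosure (RatFunc k) Ω ≃ₐ[RatFunc k] algebraicClosure (RatFunc k) Ω) : Ω ≃ₐ[RatFunc k] Ω :=
  AlgEquiv.ofRingEquiv (f := S.s τ) fun x => algebraMap_mem_F S ∅ x τ (fun _ hx => absurd hx (Set.notMem_empty _))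

/-- `s τ` as a homomorphism over `k` -/
private noncomputable def X4_algk (S : Sec (RatFunc k) Ω)
    (τ : algebraicClosure (RatFunc k) Ω ≃ₐ[RatFunc k] algebraicClosure (RatFunc k) Ω) : Ω →ₐ[k] Ω :=
  (X4_alg S τ).toAlgHom.restrictScalars k

theorem kinf_stable (S : Sec (RatFunc k) Ω) (τ : algebraicClosure (RatFunc k) Ω ≃ₐ[RatFunc k] algebraicClosure (RatFunc k) Ω)
    (z : Ω) (hz : z ∈ kinf k Ω) : S.s τ z ∈ kinf k Ω := by
  rw [← mem_kinfF] at hz ⊢
  have h : kinfF k Ω ≤ (kinfF k Ω).comap (X4_alg S τ).toAlgHom := by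
    refine IntermediateField.adjoin_le_iff.2 fun c hc => ?_
    have hc' : IsAlgebraic k c := hc
    have h1 : IsAlgebraic k (X4_algk S τ c) := hc'.algHom (X4_algk S τ)
    exact IntermediateField.subset_adjoin (RatFunc k) {c : Ω | IsAlgebraic k c} h1
  exact h hz

theorem Finf_stable (S : Sec (RatFunc k) Ω) (τ : algebraicClosure (RatFunc k) Ω ≃ₐ[RatFunc k] algebraicClosure (RatFunc k) Ω)
    (z : Ω) (hz : z ∈ Finf S) : S.s τ z ∈ Finf S := by
  obtain ⟨k', hfin, hz⟩ := hz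
  refine ⟨k'.map (X4_algk S τ), ?_, ?_⟩
  · have := hfin
    exact (k'.equivMap (X4_algk S τ)).toLinearEquiv.finiteDimensional
  · intro ρ hρ
    have h1 : S.s (τ⁻¹ * ρ * τ) z = z := by
      refine hz _ fun x hx => ?_
      have h2 : ρ (τ x) = τ x := by
        refine hρ (τ x) ?_
        have h3 := S.res τ x
        rw [← h3]
        exact ⟨(x : Ω), hx, rfl⟩
      rw [AlgEquiv.mul_apply, AlgEquiv.mul_apply, h2, ← AlgEquiv.mul_apply, inv_mul_cancel,
        AlgEquiv.one_apply]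
    calc S.s ρ (S.s τ z) = S.s (τ * (τ⁻¹ * ρ * τ)) z := by
          rw [show τ * (τ⁻¹ * ρ * τ) = ρ * τ by group, map_mul]
          rfl
      _ = S.s τ (S.s (τ⁻¹ * ρ * τ) z) := by
          rw [map_mul]
          rfl
      _ = S.s τ z := by rw [h1]

theorem exists_sigma (S : Sec (RatFunc k) Ω) : ∃ w : Ω, w ^ 2 = tt k Ω ∧
    ∃ τ : algebraicClosure (RatFunc k) Ω ≃ₐ[RatFunc k] algebraicClosure (RatFunc k) Ω,
      (∀ x : algebraicClosure (RatFunc k) Ω, (x : Ω) ∈ kinf k Ω → τ x = x) ∧ S.s τ w = -w := by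
  obtain ⟨w, hw⟩ := IsAlgClosed.exists_pow_nat_eq (tt k Ω) (n := 2) (by norm_num)
  refine ⟨w, hw, ?_⟩
  have hA : ∀ x ∈ {c : Ω | IsAlgebraic k c}, IsAlgebraic (RatFunc k) x := by
    intro x hx
    have hx' : IsAlgebraic k x := hx
    exact hx'.tower_top (RatFunc k)
  have hwalg : IsAlgebraic (RatFunc k) w := by
    refine IsAlgebraic.of_pow (n := 2) (by norm_num) ?_
    rw [hw]
    exact isAlgebraic_algebraMap _
  -- `w` is not in `kbar(t)`
  have hwn : w ∉ kinf k Ω := by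
    rintro ⟨k', hfin, hwk⟩
    obtain ⟨p, q, hq, hpq⟩ := kt_frac k' hfin w hwk
    have hq0 := aeval_tt_ne k' hfin q hq
    have h1 : aeval (tt k Ω) (X * q ^ 2 - p ^ 2) = 0 := by
      have h5 : w * aeval (tt k Ω) q = aeval (tt k Ω) p := by
        rw [hpq, div_mul_cancel₀ _ hq0]
      rw [map_sub, map_mul, aeval_X, map_pow, map_pow, ← h5, mul_pow, hw, sub_self]
    have h2 : X * q ^ 2 - p ^ 2 = 0 := by
      by_contra hne
      exact aeval_tt_ne k' hfin _ hne h1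
    have h3 := congrArg natDegree (sub_eq_zero.1 h2)
    rw [natDegree_mul X_ne_zero (pow_ne_zero 2 hq), natDegree_X, natDegree_pow, natDegree_pow] at h3
    omega
  obtain ⟨τ, h1, h2⟩ := exists_move (κ := RatFunc k) {c : Ω | IsAlgebraic k c} hA
    ⟨w, mem_algebraicClosure_iff.2 hwalg⟩ (fun h => hwn ((mem_kinfF w).1 h))
  refine ⟨τ, ?_, ?_⟩
  · intro x hx
    have h3 : (x : Ω) ∈ S.F {c : Ω | IsAlgebraic k c} :=
      adjoin_le_F S _ hA x ((mem_kinfF (x : Ω)).2 hx)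
    have h4 := h3 τ h1
    rw [S.res] at h4
    exact Subtype.ext h4
  · have h3 : S.s τ w = w ∨ S.s τ w = -w := by
      refine sq_eq_sq_iff_eq_or_eq_neg.1 ?_
      rw [← map_pow, hw]
      exact algebraMap_mem_F S ∅ RatFunc.X τ (fun _ hx => absurd hx (Set.notMem_empty _))
    refine h3.resolve_left fun h4 => h2 (Subtype.ext ?_)
    have h5 := S.res τ ⟨w, mem_algebraicClosure_iff.2 hwalg⟩
    rw [← h5]
    exact h4

/-- `s τ` maps algebraic elements to algebraic elements -/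
theorem x5_alg (S : Sec (RatFunc k) Ω) (τ : algebraicClosure (RatFunc k) Ω ≃ₐ[RatFunc k] algebraicClosure (RatFunc k) Ω)
    (z : Ω) (hz : IsAlgebraic (RatFunc k) z) : IsAlgebraic (RatFunc k) (S.s τ z) := by
  have h1 : z ∈ algebraicClosure (RatFunc k) Ω := mem_algebraicClosure_iff.2 hz
  have h2 := S.res τ ⟨z, h1⟩
  rw [show S.s τ z = ((τ ⟨z, h1⟩ : algebraicClosure (RatFunc k) Ω) : Ω) from h2]
  exact mem_algebraicClosure_iff.1 (τ ⟨z, h1⟩).2

/-- `s τ` fixes `Finf` if `τ` fixes `kinf` -/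
theorem x5_fix (S : Sec (RatFunc k) Ω) (τ : algebraicClosure (RatFunc k) Ω ≃ₐ[RatFunc k] algebraicClosure (RatFunc k) Ω)
    (hτ : ∀ x : algebraicClosure (RatFunc k) Ω, (x : Ω) ∈ kinf k Ω → τ x = x) (y : Ω) (hy : y ∈ Finf S) : S.s τ y = y := by
  obtain ⟨k', hk', hyF⟩ := hy
  exact hyF τ fun x hx => hτ x ⟨k', hk', IntermediateField.subset_adjoin _ _ hx⟩

/-- the first step -/
theorem x5_step (S : Sec (RatFunc k) Ω) (U : ValuationSubring Ω) (halg : ∀ z : Ω, IsAlgebraic (RatFunc k) z → z ∈ U)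
    (hres : ∀ y ∈ Finf S, y ∈ U → ∃ r ∈ kinf k Ω, U.valuation (y - r) < 1)
    (τ : algebraicClosure (RatFunc k) Ω ≃ₐ[RatFunc k] algebraicClosure (RatFunc k) Ω)
    (hτ : ∀ x : algebraicClosure (RatFunc k) Ω, (x : Ω) ∈ kinf k Ω → τ x = x) (z : Ω) : S.s τ z ∈ U ↔ z ∈ U := by
  have h1 : ∀ w : Ω, w ∈ U.comap (S.s τ : Ω →+* Ω) ↔ S.s τ w ∈ U := fun w => Iff.rfl
  have h2 : U = U.comap (S.s τ : Ω →+* Ω) := by
    refine ext_unique S U _ halg (fun w hw => (h1 w).2 (halg _ (x5_alg S τ w hw))) hres fun y hy => ?_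
    rw [h1, x5_fix S τ hτ y hy]
  rw [← h1, ← h2]

theorem invariant (S : Sec (RatFunc k) Ω) (U : ValuationSubring Ω) (halg : ∀ z : Ω, IsAlgebraic (RatFunc k) z → z ∈ U)
    (hres : ∀ y ∈ Finf S, y ∈ U → ∃ r ∈ kinf k Ω, U.valuation (y - r) < 1)
    (τ : algebraicClosure (RatFunc k) Ω ≃ₐ[RatFunc k] algebraicClosure (RatFunc k) Ω) (z : Ω) : S.s τ z ∈ U ↔ z ∈ U := by
  haveI : CharZero Ω := charZero_of_injective_algebraMap (algebraMap k Ω).injective
  have h1 : ∀ w : Ω, w ∈ U.comap (S.s τ : Ω →+* Ω) ↔ S.s τ w ∈ U := fun w => Iff.rfl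
  obtain ⟨U', hU'⟩ : ∃ U', U' = U.comap (S.s τ : Ω →+* Ω) := ⟨_, rfl⟩
  rw [← hU'] at h1
  -- inverses
  have hinv : ∀ w : Ω, S.s τ (S.s τ⁻¹ w) = w := by
    intro w
    rw [← RingAut.mul_apply, ← map_mul, mul_inv_cancel, map_one, RingAut.one_apply]
  have halg' : ∀ w : Ω, IsAlgebraic (RatFunc k) w → w ∈ U' := fun w hw => (h1 w).2 (halg _ (x5_alg S τ w hw))
  -- the residue property of `U'`
  have hres' : ∀ y ∈ Finf S, y ∈ U' → ∃ r ∈ kinf k Ω, U'.valuation (y - r) < 1 := by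
    intro y hy hyU
    obtain ⟨r, hr, hyr⟩ := hres (S.s τ y) (Finf_stable S τ y hy) ((h1 y).1 hyU)
    refine ⟨S.s τ⁻¹ r, kinf_stable S τ⁻¹ r hr, ?_⟩
    by_cases h0 : y - S.s τ⁻¹ r = 0
    · rw [h0, map_zero]
      exact zero_lt_one
    · rw [v3_lt_one _ _ h0, h1, map_inv₀, map_sub, hinv]
      have h2 : S.s τ y - r ≠ 0 := by
        intro h3
        apply h0
        have h4 : S.s τ (y - S.s τ⁻¹ r) = 0 := by rw [map_sub, hinv, h3]
        exact (map_eq_zero_iff _ (S.s τ).injective).1 h4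
      exact (v3_lt_one _ _ h2).1 hyr
  obtain ⟨w, hw2, σ, hσ, hσw⟩ := exists_sigma S
  -- invariance of `U'` under `s σ`
  have hσU : ∀ x, S.s σ x ∈ U ↔ x ∈ U := x5_step S U halg hres σ hσ
  have hσU' : ∀ x, S.s σ x ∈ U' ↔ x ∈ U' := by
    intro x
    have h2 : S.s τ (S.s σ x) = S.s (τ * σ * τ⁻¹) (S.s τ x) := by
      rw [← RingAut.mul_apply, ← RingAut.mul_apply, ← map_mul, ← map_mul, inv_mul_cancel_right]
    rw [h1, h1, h2]
    refine x5_step S U halg hres (τ * σ * τ⁻¹) (fun y hy => ?_) _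
    have h3 : ((τ⁻¹ y : algebraicClosure (RatFunc k) Ω) : Ω) ∈ kinf k Ω := by
      rw [← S.res τ⁻¹ y]
      exact kinf_stable S τ⁻¹ y hy
    have h4 : (τ * σ * τ⁻¹) y = τ (σ (τ⁻¹ y)) := rfl
    rw [h4, hσ _ h3]
    exact AlgEquiv.apply_symm_apply τ y
  -- algebraic elements
  have hone : ∀ (V : ValuationSubring Ω), (∀ x : Ω, IsAlgebraic (RatFunc k) x → x ∈ V) → ∀ x : Ω,
      IsAlgebraic (RatFunc k) x → x ≠ 0 → V.valuation x = 1 := by
    intro V hV x hx hx0
    refine le_antisymm ((V.valuation_le_one_iff x).2 (hV x hx)) (not_lt.1 fun h2 => ?_)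
    exact (v3_lt_one V x hx0).1 h2 (hV _ hx.inv)
  have hwalg : IsAlgebraic (RatFunc k) w := by
    have h2 : IsAlgebraic (RatFunc k) (w ^ 2) := by
      rw [hw2]
      exact isAlgebraic_algebraMap _
    exact IsAlgebraic.of_pow (by norm_num) h2
  have hw0 : w ≠ 0 := by
    rintro rfl
    have h2 : tt k Ω = 0 := by rw [← hw2]; ring
    exact RatFunc.X_ne_zero ((map_eq_zero_iff _ (algebraMap (RatFunc k) Ω).injective).1 h2)
  have h2alg : IsAlgebraic (RatFunc k) (2 : Ω)⁻¹ := by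
    have h2 : ((2 : Ω)⁻¹) = algebraMap (RatFunc k) Ω (2⁻¹) := by
      rw [map_inv₀]
      congr 1
      exact (map_ofNat (algebraMap (RatFunc k) Ω) 2).symm
    rw [h2]
    exact isAlgebraic_algebraMap _
  have hcomp := compar (S.s σ) U U' hσU hσU' (halg _ h2alg) (halg' _ h2alg) w hσw (hone U halg w hwalg hw0)
    (hone U' halg' w hwalg hw0) (FinfF S) (fun a ha => x5_fix S σ hσ a ha)
  have hagree : ∀ y ∈ Finf S, y ∈ U ↔ y ∈ U' := fun y hy =>
    res_eq U U' (FinfF S) (kinf k Ω) (fun r hr => kinf_sub_Finf S r hr) (fun r hr => halg r (kinf_alg r hr))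
      (fun r hr => halg' r (kinf_alg r hr)) hres hres' hcomp y hy
  have hfin : U = U' := ext_unique S U U' halg halg' hres hagree
  rw [← h1, ← hfin]

end

end BSC
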