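import Pool.Agent.Lib_MP_49ddc8.Asm
import Pool.Agent.Lib_MP_49ddc8.Vfour

/-!
# [BS-F1] .. [BS-F6]  Sections, restriction to a finite extension, uniqueness of invariant valuation rings

Notation: `κbar = algebraicClosure κ Ω`, `Gal = Gal(κbar/κ)`.

[BS-F1] `exists_sec`: `S.s τ = (s τ).toRingEquiv`, `res` is `hres`.  `cont`: for `z ∈ Ω` the stabiliser of `z` in `Ω ≃ₐ[K] Ω` is open (`K(z)/K` finite, `IntermediateField.fixingSubgroup_isOpen` or `stabilizer_isOpen_of_isIntegral`), so its preimage under `s` is an open neighbourhood of `1`,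
which contains `E.fixingSubgroup` for a finite `E` (`krullTopology_mem_nhds_one_iff`).

[BS-F2] `exists_restrict`: `κ₁` a second field with an embedding in `Ω` whose image contains `κ` and is algebraic over `κ`.  Then an element of `Ω` is algebraic over `κ₁` iff it is algebraic over `κ`, so `algebraicClosure κ₁ Ω` and `algebraicClosure κ Ω` have the same elements; transport along this identification gives
`ψ : Gal(κ₁) →* Gal(κ)`, with image the `τ` which fix the image of `κ₁`.  `S₁.s = S.s ∘ ψ`.  `cont`: for `E/κ` finite the field generated over `κ₁` by (a finite set of generators of) `E` is finite over `κ₁`.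

[BS-F3] `ext_unique_gen`: let `z ≠ 0` and take `n` minimal with `z = ∑_{i < n} c_i β_i`, `c_i ∈ F`, `β_i` algebraic.  The `β_i` are independent over `M` (a relation `∑ m_i β_i = 0` with `m_j ≠ 0` expresses `β_j`, so gives a shorter sum as `M ≤ F`).  Let `|c_m|_U` be maximal (`c_m ≠ 0`).
`c_i/c_m ∈ F ∩ U` is `≡ r_i ∈ M`, `r_m = 1`; `δ = ∑ r_i β_i ≠ 0` is algebraic, so `δ, δ⁻¹ ∈ U ∩ U'`; `z/c_m - δ = ∑ (c_i/c_m - r_i) β_i ∈ 𝔪_U`, so `|z/c_m|_U = 1`, and the same for `U'` (for `w ∈ F`: `|w|_U < 1` iff `w = 0` or `w⁻¹ ∉ U` iff `|w|_U' < 1`).  So `z ∈ U ↔ c_m ∈ U ↔ c_m ∈ U' ↔ z ∈ U'`.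

[BS-F4] `res_alg`: `P(ξ, y) = 0`, `P = ∑ P_i(Z) Y^i`; divide by the largest power of `Z` dividing all `P_i` (`ξ ≠ 0`); `p = ∑ P_i(0) Y^i ≠ 0` and `p(y) ∈ ξ U ⊆ 𝔪_U`; the roots `ρ` of `p` in `Ω` are algebraic, so in `U`, the leading coefficient is a unit of `U` and
`p(y) = c ∏ (y - ρ)`, so some `|y - ρ| < 1` (compare `Xi.red`, `Xi.roots` in `Vone.lean`).
`dep_of_trdeg`: `Ω = AlgebraicClosure K` has transcendence degree one over `κ`: `{t}` is a transcendence basis of `Ω`, so two elements `ξ, z` are algebraically dependent (`Algebra.trdeg`, `AlgebraicIndependent` of `![ξ, z]` or of an `Option` family); convert the relation to `κ[X][Y]`.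
`dep_up`: `ξ` is transcendental over `κ` as well (`hsub`); map the coefficients of `P` to `κ₁` (the embedding `κ → κ₁` exists since the image of `κ` lies in the image of `κ₁`), it stays `≠ 0`.

[BS-F5] `unique_inv`: `F = S.F M`.  (i) `y ∈ F ∩ U`: `|y - ρ|_U < 1`, `ρ` algebraic (`hres`); for `τ` fixing `M`: `S.s τ y = y`, so `|y - S.s τ ρ|_U < 1` (invariance), `ρ - S.s τ ρ` is algebraic of value `< 1`, so `0` (nonzero algebraic elements are units of `U`); so `ρ ∈ S.F M`, `ρ ∈ M` by `mem_adjoin` (`adjoin κ M = M`).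
(ii) `w ∈ Ω` with `w² = n` is algebraic, `w ∉ M`; `exists_move`: `τ` fixes `M`, `τ w ≠ w`, so `S.s τ w = -w`.  (iii) `compar` with `A = F`, then `res_eq` with `K = M`, then `ext_unique_gen` (`span_kbar`: `S.F ∅ ≤ S.F M`).

[BS-F6] `nonsq`: if all elements of `M` are squares, then for `m = [M : k(u)]` there is `w` with `w^(2^m) = u`; take norms: `N(w)^(2^m) = u^m` in `RatFunc k`, and `RatFunc.intDegree`: `2^m * intDegree N(w) = m`, `0 < m < 2^m`, contradiction.
-/

set_option autoImplicit false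

open Polynomial

namespace BSC

/-- any two elements of `Ω` are algebraically dependent over `κ` -/
def Dep (κ Ω : Type) [Field κ] [Field Ω] [Algebra κ Ω] : Prop :=
  ∀ ξ : Ω, Transcendental κ ξ → ∀ z : Ω, ∃ P : Polynomial (Polynomial κ), P ≠ 0 ∧
    (P.map (aeval ξ : κ[X] →ₐ[κ] Ω).toRingHom).eval z = 0

theorem exists_sec (κ K : Type) [Field κ] [CharZero κ] [Field K] [Algebra κ K]
    (s : ((algebraicClosure κ (AlgebraicClosure K)) ≃ₐ[κ] (algebraicClosure κ (AlgebraicClosure K))) →*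
      (AlgebraicClosure K ≃ₐ[K] AlgebraicClosure K)) (hs : Continuous s)
    (hres : ∀ (τ : (algebraicClosure κ (AlgebraicClosure K)) ≃ₐ[κ] (algebraicClosure κ (AlgebraicClosure K)))
      (x : algebraicClosure κ (AlgebraicClosure K)),
        s τ (x : AlgebraicClosure K) = ((τ x : algebraicClosure κ (AlgebraicClosure K)) : AlgebraicClosure K)) :
    ∃ S : Sec κ (AlgebraicClosure K), ∀ τ z, S.s τ z = s τ z := by
  refine ⟨{ s := { toFun := fun τ => (s τ).toRingEquiv
                   map_one' := by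
                    rw [map_one]
                    rfl
                   map_mul' := by
                    intro a b
                    rw [map_mul]
                    rfl }
            res := hres
            cont := ?_ }, fun τ z => rfl⟩
  intro z
  have hz : IsIntegral K z := (Algebra.IsAlgebraic.isAlgebraic z).isIntegral
  have hfd : FiniteDimensional K (IntermediateField.adjoin K {z}) :=
    IntermediateField.adjoin.finiteDimensional hz
  have hopen := (IntermediateField.adjoin K {z}).fixingSubgroup_isOpen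
  have h1 : s ⁻¹' ((IntermediateField.adjoin K {z}).fixingSubgroup : Set _) ∈ nhds 1 := by
    refine (hopen.preimage hs).mem_nhds ?_
    show s 1 ∈ (IntermediateField.adjoin K {z}).fixingSubgroup
    rw [map_one]
    exact one_mem _
  rw [krullTopology_mem_nhds_one_iff] at h1
  obtain ⟨E, hE, hsub⟩ := h1
  refine ⟨E, hE, fun τ hτ => ?_⟩
  have h2 : s τ ∈ (IntermediateField.adjoin K {z}).fixingSubgroup := hsub hτ
  rw [IntermediateField.mem_fixingSubgroup_iff] at h2
  exact h2 z (IntermediateField.mem_adjoin_simple_self K z)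

/-- the identity of `Ω` restricted to the two algebraic closures -/
private def f2_equiv (κ κ₁ Ω : Type) [Field κ] [Field κ₁] [Field Ω] [Algebra κ Ω] [Algebra κ₁ Ω]
    (h : ∀ z : Ω, IsAlgebraic κ₁ z ↔ IsAlgebraic κ z) : algebraicClosure κ₁ Ω ≃+* algebraicClosure κ Ω where
  toFun x := ⟨(x : Ω), mem_algebraicClosure_iff.2 ((h _).1 (mem_algebraicClosure_iff.1 x.2))⟩
  invFun x := ⟨(x : Ω), mem_algebraicClosure_iff.2 ((h _).2 (mem_algebraicClosure_iff.1 x.2))⟩
  left_inv x := rfl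
  right_inv x := rfl
  map_mul' x y := rfl
  map_add' x y := rfl

private theorem restrict_aux (κ κ₁ Ω : Type) [Field κ] [Field κ₁] [Field Ω] [Algebra κ Ω] [Algebra κ₁ Ω]
    (hsub : ∀ c : κ, ∃ r : κ₁, algebraMap κ₁ Ω r = algebraMap κ Ω c) :
    ∃ j : κ →+* κ₁, ∀ c, algebraMap κ₁ Ω (j c) = algebraMap κ Ω c := by
  choose j hj using hsub
  have hinj : Function.Injective (algebraMap κ₁ Ω) := (algebraMap κ₁ Ω).injective
  refine ⟨{ toFun := j, map_one' := ?_, map_mul' := ?_, map_zero' := ?_, map_add' := ?_ }, hj⟩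
  · apply hinj; rw [hj, map_one, map_one]
  · intro a b; apply hinj; rw [map_mul, hj, hj, hj, map_mul]
  · apply hinj; rw [hj, map_zero, map_zero]
  · intro a b; apply hinj; rw [map_add, hj, hj, hj, map_add]

theorem exists_restrict (κ κ₁ Ω : Type) [Field κ] [CharZero κ] [Field κ₁] [Field Ω] [IsAlgClosed Ω] [Algebra κ Ω] [Algebra κ₁ Ω]
    (hsub : ∀ c : κ, ∃ r : κ₁, algebraMap κ₁ Ω r = algebraMap κ Ω c) (halg : ∀ r : κ₁, IsAlgebraic κ (algebraMap κ₁ Ω r))
    (S : Sec κ Ω) :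
    (∀ z : Ω, IsAlgebraic κ₁ z ↔ IsAlgebraic κ z) ∧ ∃ S₁ : Sec κ₁ Ω,
      (∀ τ₁ : algebraicClosure κ₁ Ω ≃ₐ[κ₁] algebraicClosure κ₁ Ω, ∃ τ : algebraicClosure κ Ω ≃ₐ[κ] algebraicClosure κ Ω,
        (∀ x : algebraicClosure κ Ω, (x : Ω) ∈ Set.range (algebraMap κ₁ Ω) → τ x = x) ∧ ∀ z : Ω, S₁.s τ₁ z = S.s τ z) ∧
      ∀ τ : algebraicClosure κ Ω ≃ₐ[κ] algebraicClosure κ Ω,
        (∀ x : algebraicClosure κ Ω, (x : Ω) ∈ Set.range (algebraMap κ₁ Ω) → τ x = x) →
          ∃ τ₁ : algebraicClosure κ₁ Ω ≃ₐ[κ₁] algebraicClosure κ₁ Ω, ∀ z : Ω, S₁.s τ₁ z = S.s τ z := by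
  classical
  obtain ⟨j, hj⟩ := restrict_aux κ κ₁ Ω hsub
  let _ : Algebra κ κ₁ := j.toAlgebra
  have _ : IsScalarTower κ κ₁ Ω := IsScalarTower.of_algebraMap_eq (fun c => (hj c).symm)
  have _ : Algebra.IsAlgebraic κ κ₁ :=
    ⟨fun r => (isAlgebraic_algebraMap_iff (A := Ω) (algebraMap κ₁ Ω).injective).1 (halg r)⟩
  have hiff : ∀ z : Ω, IsAlgebraic κ₁ z ↔ IsAlgebraic κ z :=
    fun z => ⟨fun h => h.restrictScalars κ, fun h => h.tower_top κ₁⟩
  refine ⟨hiff, ?_⟩
  -- the two algebraic closures have the same elements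
  let e : algebraicClosure κ₁ Ω ≃+* algebraicClosure κ Ω :=
    { toFun := fun x => ⟨(x : Ω), mem_algebraicClosure_iff.2 ((hiff _).1 (mem_algebraicClosure_iff.1 x.2))⟩
      invFun := fun x => ⟨(x : Ω), mem_algebraicClosure_iff.2 ((hiff _).2 (mem_algebraicClosure_iff.1 x.2))⟩
      left_inv := fun x => rfl
      right_inv := fun x => rfl
      map_mul' := fun x y => rfl
      map_add' := fun x y => rfl }
  have he : ∀ x, ((e x : algebraicClosure κ Ω) : Ω) = (x : Ω) := fun x => rfl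
  have hes : ∀ x, ((e.symm x : algebraicClosure κ₁ Ω) : Ω) = (x : Ω) := fun x => rfl
  let ψ : (algebraicClosure κ₁ Ω ≃ₐ[κ₁] algebraicClosure κ₁ Ω) →* (algebraicClosure κ Ω ≃ₐ[κ] algebraicClosure κ Ω) :=
    { toFun := fun τ₁ => AlgEquiv.ofRingEquiv (f := (e.symm.trans (τ₁ : algebraicClosure κ₁ Ω ≃+* algebraicClosure κ₁ Ω)).trans e)
        (by
          intro c
          have h1 : e.symm (algebraMap κ (algebraicClosure κ Ω) c) = algebraMap κ₁ (algebraicClosure κ₁ Ω) (j c) :=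
            Subtype.ext (hj c).symm
          show e (τ₁ (e.symm (algebraMap κ (algebraicClosure κ Ω) c))) = _
          rw [h1, AlgEquiv.commutes, ← h1, RingEquiv.apply_symm_apply])
      map_one' := by
        apply AlgEquiv.ext
        intro x
        rfl
      map_mul' := by
        intro a b
        apply AlgEquiv.ext
        intro x
        rfl }
  have hψ : ∀ τ₁ x, ψ τ₁ x = e (τ₁ (e.symm x)) := fun τ₁ x => rfl
  refine ⟨{ s := S.s.comp ψ, res := ?_, cont := ?_ }, ?_, ?_⟩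
  · intro τ₁ x
    have h := S.res (ψ τ₁) (e x)
    rw [hψ, RingEquiv.symm_apply_apply] at h
    exact h
  · intro z
    obtain ⟨E, hE, hEz⟩ := S.cont z
    obtain ⟨T, hT⟩ : E.FG := IntermediateField.essFiniteType_iff.1 inferInstance
    set E₁ : IntermediateField κ₁ (algebraicClosure κ₁ Ω) := IntermediateField.adjoin κ₁ (e.symm '' (T : Set (algebraicClosure κ Ω))) with hE₁
    refine ⟨E₁, ?_, ?_⟩
    · apply IntermediateField.finiteDimensional_adjoin
      intro x _
      exact (Algebra.IsAlgebraic.isAlgebraic x).isIntegral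
    · intro τ₁ hτ₁
      apply hEz
      rw [IntermediateField.mem_fixingSubgroup_iff] at hτ₁ ⊢
      intro x hx
      rw [← hT] at hx
      induction hx using IntermediateField.adjoin_induction with
      | mem x hx =>
        have h1 : e.symm x ∈ E₁ := IntermediateField.subset_adjoin _ _ ⟨x, hx, rfl⟩
        rw [hψ, hτ₁ _ h1, RingEquiv.apply_symm_apply]
      | algebraMap c => exact AlgEquiv.commutes _ _
      | add x y _ _ h1 h2 => rw [map_add, h1, h2]
      | inv x _ h1 => rw [map_inv₀, h1]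
      | mul x y _ _ h1 h2 => rw [map_mul, h1, h2]
  · intro τ₁
    refine ⟨ψ τ₁, ?_, fun z => rfl⟩
    rintro x ⟨r, hr⟩
    have h1 : e.symm x = algebraMap κ₁ (algebraicClosure κ₁ Ω) r := Subtype.ext hr.symm
    rw [hψ, h1, AlgEquiv.commutes, ← h1, RingEquiv.apply_symm_apply]
  · intro τ hτ
    have hcomm : ∀ r : κ₁, ((e.trans (τ : algebraicClosure κ Ω ≃+* algebraicClosure κ Ω)).trans e.symm)
        (algebraMap κ₁ (algebraicClosure κ₁ Ω) r) = algebraMap κ₁ (algebraicClosure κ₁ Ω) r := by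
      intro r
      have h1 : τ (e (algebraMap κ₁ (algebraicClosure κ₁ Ω) r)) = e (algebraMap κ₁ (algebraicClosure κ₁ Ω) r) :=
        hτ _ ⟨r, rfl⟩
      show e.symm (τ (e (algebraMap κ₁ (algebraicClosure κ₁ Ω) r))) = _
      rw [h1, RingEquiv.symm_apply_apply]
    refine ⟨AlgEquiv.ofRingEquiv hcomm, ?_⟩
    intro z
    have h2 : ψ (AlgEquiv.ofRingEquiv hcomm) = τ := by
      apply AlgEquiv.ext
      intro x
      rw [hψ]
      show e (e.symm (τ (e (e.symm x)))) = τ x
      rw [RingEquiv.apply_symm_apply, RingEquiv.apply_symm_apply]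
    show S.s (ψ (AlgEquiv.ofRingEquiv hcomm)) z = S.s τ z
    rw [h2]

private theorem f3_lt {Ω : Type} [Field Ω] (U : ValuationSubring Ω) (w : Ω) :
    U.valuation w < 1 ↔ w = 0 ∨ w⁻¹ ∉ U := by
  by_cases hw : w = 0
  · simp [hw]
  · have h0 : U.valuation w ≠ 0 := (Valuation.ne_zero_iff _).mpr hw
    rw [← ValuationSubring.valuation_le_one_iff, not_le, map_inv₀, one_lt_inv₀ (zero_lt_iff.mpr h0)]
    simp [hw]

private theorem f3_unit {κ Ω : Type} [Field κ] [Field Ω] [Algebra κ Ω] (U : ValuationSubring Ω)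
    (halg : ∀ z : Ω, IsAlgebraic κ z → z ∈ U) (d : Ω) (hd : IsAlgebraic κ d) (h0 : d ≠ 0) : U.valuation d = 1 := by
  have h1 : U.valuation d ≤ 1 := (U.valuation_le_one_iff d).mpr (halg d hd)
  have h2 : U.valuation d⁻¹ ≤ 1 := (U.valuation_le_one_iff _).mpr (halg _ hd.inv)
  have h3 : U.valuation d ≠ 0 := (Valuation.ne_zero_iff _).mpr h0
  rw [map_inv₀, inv_le_one₀ (zero_lt_iff.mpr h3)] at h2
  exact le_antisymm h1 h2

private theorem f3_eval {κ Ω : Type} [Field κ] [Field Ω] [Algebra κ Ω] (U : ValuationSubring Ω)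
    (halg : ∀ z : Ω, IsAlgebraic κ z → z ∈ U) {n : ℕ} (c β r : Fin n → Ω) (cm : Ω) (hcm : cm ≠ 0)
    (hβ : ∀ i, IsAlgebraic κ (β i)) (hlt : ∀ i, U.valuation (c i / cm - r i) < 1)
    (hδ : IsAlgebraic κ (∑ i, r i * β i)) (hδ0 : ∑ i, r i * β i ≠ 0) :
    ∑ i, c i * β i ∈ U ↔ cm ∈ U := by
  have h1 : U.valuation ((∑ i, c i * β i) / cm - ∑ i, r i * β i) < 1 := by
    have e : (∑ i, c i * β i) / cm - ∑ i, r i * β i = ∑ i, (c i / cm - r i) * β i := by
      rw [Finset.sum_div, ← Finset.sum_sub_distrib]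
      refine Finset.sum_congr rfl fun i _ => ?_
      ring
    rw [e]
    refine Valuation.map_sum_lt _ one_ne_zero fun i _ => ?_
    rw [map_mul]
    have h2 : U.valuation (β i) ≤ 1 := (U.valuation_le_one_iff _).mpr (halg _ (hβ i))
    calc U.valuation (c i / cm - r i) * U.valuation (β i) ≤ U.valuation (c i / cm - r i) * 1 :=
          mul_le_mul_right h2 _
      _ < 1 := by rw [mul_one]; exact hlt i
  have h2 := f3_unit U halg _ hδ hδ0
  have h3 : U.valuation ((∑ i, c i * β i) / cm) = 1 := by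
    have h4 := Valuation.map_add_eq_of_lt_right U.valuation (x := (∑ i, c i * β i) / cm - ∑ i, r i * β i)
      (y := ∑ i, r i * β i) (by rw [h2]; exact h1)
    rw [sub_add_cancel, h2] at h4
    exact h4
  have h5 : U.valuation (∑ i, c i * β i) = U.valuation cm := by
    rw [map_div₀, div_eq_one_iff_eq ((Valuation.ne_zero_iff _).mpr hcm)] at h3
    exact h3
  rw [← U.valuation_le_one_iff, ← U.valuation_le_one_iff, h5]

theorem ext_unique_gen (κ Ω : Type) [Field κ] [Field Ω] [Algebra κ Ω] (F M : Subfield Ω) (hMF : M ≤ F)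
    (hMalg : ∀ r ∈ M, IsAlgebraic κ r)
    (hspan : ∀ z : Ω, ∃ (n : ℕ) (c β : Fin n → Ω), (∀ i, c i ∈ F) ∧ (∀ i, IsAlgebraic κ (β i)) ∧ z = ∑ i, c i * β i)
    (U U' : ValuationSubring Ω) (halg : ∀ z : Ω, IsAlgebraic κ z → z ∈ U) (halg' : ∀ z : Ω, IsAlgebraic κ z → z ∈ U')
    (hres : ∀ y ∈ F, y ∈ U → ∃ r ∈ M, U.valuation (y - r) < 1) (hUU' : ∀ y ∈ F, y ∈ U ↔ y ∈ U') : U = U' := by
  have key : ∀ (n : ℕ) (c β : Fin n → Ω), (∀ i, c i ∈ F) → (∀ i, IsAlgebraic κ (β i)) →
      (∑ i, c i * β i ∈ U ↔ ∑ i, c i * β i ∈ U') := by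
    intro n
    induction n with
    | zero =>
      intro c β _ _
      simp [U.zero_mem, U'.zero_mem]
    | succ n ih =>
      intro c β hc hβ
      obtain ⟨m, -, hm⟩ := Finset.exists_max_image Finset.univ (fun i => U.valuation (c i)) Finset.univ_nonempty
      by_cases hcm : c m = 0
      · have h0 : ∀ i, c i = 0 := by
          intro i
          have h1 := hm i (Finset.mem_univ i)
          rw [hcm, map_zero, le_zero_iff, map_eq_zero] at h1
          exact h1
        simp [h0, U.zero_mem, U'.zero_mem]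
      · have h1 : ∀ i, ∃ r ∈ M, U.valuation (c i / c m - r) < 1 ∧ (i = m → r = 1) := by
          intro i
          by_cases him : i = m
          · refine ⟨1, M.one_mem, ?_, fun _ => rfl⟩
            rw [him, div_self hcm, sub_self, map_zero]
            exact zero_lt_one
          · obtain ⟨r, hr, hr1⟩ := hres (c i / c m) (F.div_mem (hc i) (hc m)) (by
              rw [← U.valuation_le_one_iff, map_div₀]
              exact div_le_one_of_le₀ (hm i (Finset.mem_univ i)) zero_le)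
            exact ⟨r, hr, hr1, fun h => absurd h him⟩
        choose r hrM hr1 hrm using h1
        have hr1' : ∀ i, U'.valuation (c i / c m - r i) < 1 := by
          intro i
          have h2 := hr1 i
          rw [f3_lt] at h2 ⊢
          rcases h2 with h2 | h2
          · exact Or.inl h2
          · right
            rwa [← hUU' _ (F.inv_mem (F.sub_mem (F.div_mem (hc i) (hc m)) (hMF (hrM i))))]
        have hδ : IsAlgebraic κ (∑ i, r i * β i) := by
          rw [← mem_algebraicClosure_iff]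
          refine sum_mem fun i _ => ?_
          rw [mem_algebraicClosure_iff]
          exact (hMalg _ (hrM i)).mul (hβ i)
        by_cases hδ0 : ∑ i, r i * β i = 0
        · have h2 : ∑ i, c i * β i = ∑ j : Fin n, (c (m.succAbove j) - c m * r (m.succAbove j)) * β (m.succAbove j) := by
            have h3 : ∑ i, c i * β i = ∑ i, (c i - c m * r i) * β i := by
              have : ∑ i, (c i - c m * r i) * β i = ∑ i, c i * β i - c m * ∑ i, r i * β i := by
                rw [Finset.mul_sum, ← Finset.sum_sub_distrib]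
                refine Finset.sum_congr rfl fun i _ => ?_
                ring
              rw [this, hδ0, mul_zero, sub_zero]
            rw [h3, Fin.sum_univ_succAbove _ m, hrm m rfl, mul_one, sub_self, zero_mul, zero_add]
          rw [h2]
          exact ih _ _ (fun j => F.sub_mem (hc _) (F.mul_mem (hc m) (hMF (hrM _)))) fun j => hβ _
        · rw [f3_eval U halg c β r (c m) hcm hβ hr1 hδ hδ0, f3_eval U' halg' c β r (c m) hcm hβ hr1' hδ hδ0]
          exact hUU' _ (hc m)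
  ext z
  obtain ⟨n, c, β, hc, hβ, hz⟩ := hspan z
  rw [hz]
  exact key n c β hc hβ

/-- divide out the first variable -/
private theorem ra_prim {κ Ω : Type} [Field κ] [Field Ω] [Algebra κ Ω] (ξ : Ω) (h0 : ξ ≠ 0) (y : Ω)
    (hdep : ∃ P : Polynomial (Polynomial κ), P ≠ 0 ∧ (P.map (aeval ξ : κ[X] →ₐ[κ] Ω).toRingHom).eval y = 0) :
    ∃ Q : Polynomial (Polynomial κ), Q.map (Polynomial.evalRingHom (0 : κ)) ≠ 0 ∧
      (Q.map (aeval ξ : κ[X] →ₐ[κ] Ω).toRingHom).eval y = 0 := by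
  obtain ⟨P, hP, hPy⟩ := hdep
  have hnu : ¬ IsUnit (Polynomial.C (X : κ[X]) : Polynomial (Polynomial κ)) := by
    rw [Polynomial.isUnit_C]
    exact Polynomial.not_isUnit_X
  have hfin : FiniteMultiplicity (Polynomial.C (X : κ[X]) : Polynomial (Polynomial κ)) P :=
    FiniteMultiplicity.of_not_isUnit hnu hP
  obtain ⟨Q, hQ, hnd⟩ := hfin.exists_eq_pow_mul_and_not_dvd
  refine ⟨Q, ?_, ?_⟩
  · intro h
    apply hnd
    rw [Polynomial.C_dvd_iff_dvd_coeff]
    intro i
    rw [Polynomial.X_dvd_iff]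
    have h1 := congrArg (fun q : κ[X] => q.coeff i) h
    simp only [Polynomial.coeff_map, Polynomial.coe_evalRingHom, Polynomial.coeff_zero] at h1
    rw [Polynomial.coeff_zero_eq_eval_zero]
    exact h1
  · rw [hQ, Polynomial.map_mul, Polynomial.map_pow, Polynomial.map_C, Polynomial.eval_mul, Polynomial.eval_pow, Polynomial.eval_C] at hPy
    rcases mul_eq_zero.1 hPy with h | h
    · refine absurd (?_ : ξ ^ multiplicity (Polynomial.C (X : κ[X]) : Polynomial (Polynomial κ)) P = 0) (pow_ne_zero _ h0)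
      simpa using h
    · exact h

theorem res_alg (κ Ω : Type) [Field κ] [Field Ω] [IsAlgClosed Ω] [Algebra κ Ω] (U : ValuationSubring Ω)
    (halg : ∀ z : Ω, IsAlgebraic κ z → z ∈ U) (ξ : Ω) (h0 : ξ ≠ 0) (hξ : U.valuation ξ < 1) (y : Ω) (hy : y ∈ U)
    (hdep : ∃ P : Polynomial (Polynomial κ), P ≠ 0 ∧ (P.map (aeval ξ : κ[X] →ₐ[κ] Ω).toRingHom).eval y = 0) :
    ∃ ρ : Ω, IsAlgebraic κ ρ ∧ U.valuation (y - ρ) < 1 := by
  obtain ⟨Q, hQ0, hQy⟩ := ra_prim ξ h0 y hdep
  set p : κ[X] := Q.map (Polynomial.evalRingHom (0 : κ)) with hp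
  have hc : ∀ c : κ, algebraMap κ Ω c ∈ U := fun c => halg _ (isAlgebraic_algebraMap c)
  have hξU : ξ ∈ U := (U.valuation_le_one_iff ξ).1 hξ.le
  have hmem : ∀ f : κ[X], aeval ξ f ∈ U := by
    intro f
    rw [Polynomial.aeval_eq_sum_range]
    refine sum_mem fun i _ => ?_
    rw [Algebra.smul_def]
    exact mul_mem (hc _) (pow_mem hξU _)
  have hred : ∀ f : κ[X], U.valuation (aeval ξ f - algebraMap κ Ω (f.eval 0)) < 1 := by
    intro f
    have h1 : aeval ξ f - algebraMap κ Ω (f.eval 0) = aeval ξ f.divX * ξ := by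
      conv_lhs => rw [← Polynomial.divX_mul_X_add f]
      rw [← Polynomial.coeff_zero_eq_eval_zero, map_add, map_mul, aeval_X, aeval_C]
      simp
    rw [h1, map_mul]
    calc U.valuation (aeval ξ f.divX) * U.valuation ξ ≤ 1 * U.valuation ξ :=
          mul_le_mul_left ((U.valuation_le_one_iff _).2 (hmem _)) _
      _ < 1 := by rwa [one_mul]
  -- `p (y)` lies in the maximal ideal
  have hpy : U.valuation (aeval y p) < 1 := by
    have h1 : aeval y p = ∑ i ∈ Finset.range (Q.natDegree + 1), algebraMap κ Ω ((Q.coeff i).eval 0) * y ^ i := by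
      have hdeg : p.natDegree < Q.natDegree + 1 := Nat.lt_succ_of_le Polynomial.natDegree_map_le
      rw [Polynomial.aeval_eq_sum_range' hdeg]
      refine Finset.sum_congr rfl fun i _ => ?_
      rw [Algebra.smul_def, hp, Polynomial.coeff_map, Polynomial.coe_evalRingHom]
    have h2 : (0 : Ω) = ∑ i ∈ Finset.range (Q.natDegree + 1), aeval ξ (Q.coeff i) * y ^ i := by
      rw [← hQy, Polynomial.eval_map, Polynomial.eval₂_eq_sum_range]
      rfl
    have h3 : aeval y p = - ∑ i ∈ Finset.range (Q.natDegree + 1),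
        (aeval ξ (Q.coeff i) - algebraMap κ Ω ((Q.coeff i).eval 0)) * y ^ i := by
      simp only [sub_mul, Finset.sum_sub_distrib]
      rw [← h1, ← h2]
      ring
    rw [h3, Valuation.map_neg]
    refine U.valuation.map_sum_lt one_ne_zero fun i _ => ?_
    rw [map_mul, map_pow]
    calc U.valuation (aeval ξ (Q.coeff i) - algebraMap κ Ω ((Q.coeff i).eval 0)) * U.valuation y ^ i
        ≤ U.valuation (aeval ξ (Q.coeff i) - algebraMap κ Ω ((Q.coeff i).eval 0)) * 1 :=
          mul_le_mul_right (pow_le_one' ((U.valuation_le_one_iff _).2 hy) i) _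
      _ < 1 := by rw [mul_one]; exact hred _
  have hspl : (p.map (algebraMap κ Ω)).Splits := IsAlgClosed.splits _
  have hlc : U.valuation (algebraMap κ Ω p.leadingCoeff) = 1 := by
    have h4 : algebraMap κ Ω p.leadingCoeff ≠ 0 := by
      rw [Ne, FaithfulSMul.algebraMap_eq_zero_iff, Polynomial.leadingCoeff_eq_zero]
      exact hQ0
    have h5 : U.valuation (algebraMap κ Ω p.leadingCoeff) ≤ 1 := (U.valuation_le_one_iff _).2 (hc _)
    have h6 : U.valuation (algebraMap κ Ω p.leadingCoeff)⁻¹ ≤ 1 := by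
      rw [← map_inv₀ (algebraMap κ Ω)]
      exact (U.valuation_le_one_iff _).2 (hc _)
    refine le_antisymm h5 ?_
    rw [map_inv₀] at h6
    exact (inv_le_one₀ (zero_lt_iff.2 ((Valuation.ne_zero_iff _).2 h4))).1 h6
  rw [hspl.aeval_eq_prod_aroots, map_mul, hlc, one_mul, map_multiset_prod, Multiset.map_map] at hpy
  by_contra hcon
  push Not at hcon
  refine absurd hpy (not_lt.2 (Multiset.one_le_prod_of_one_le fun v hv => ?_))
  obtain ⟨a, ha, rfl⟩ := Multiset.mem_map.1 hv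
  refine hcon a ?_
  exact ⟨p, hQ0, (Polynomial.mem_aroots.1 ha).2⟩

theorem dep_of_trdeg (κ K : Type) [Field κ] [Field K] [Algebra κ K]
    (htd : ∃ t : K, Transcendental κ t ∧ Algebra.IsAlgebraic (IntermediateField.adjoin κ {t}) K) : Dep κ (AlgebraicClosure K) := by
  obtain ⟨t, -, ht⟩ := htd
  have ht2 : Algebra.IsAlgebraic (Algebra.adjoin κ ({t} : Set K)) K :=
    IntermediateField.isAlgebraic_adjoin_iff_top.1 ht
  have h1 : Algebra.trdeg κ K ≤ 1 := by
    have := Algebra.IsAlgebraic.trdeg_le_cardinalMk κ ({t} : Set K)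
    simpa using this
  have h2 : Algebra.trdeg κ (AlgebraicClosure K) ≤ 1 := by
    have h3 := _root_.trdeg_add_eq κ K (A := AlgebraicClosure K)
    have h4 : Algebra.trdeg K (AlgebraicClosure K) = 0 := _root_.trdeg_eq_zero
    rw [h4, add_zero] at h3
    rw [← h3]
    exact h1
  intro ξ hξ z
  have hx : AlgebraicIndependent κ (fun _ : Unit => ξ) := algebraicIndependent_unique_type_iff.2 hξ
  have hb : IsTranscendenceBasis κ (fun _ : Unit => ξ) :=
    hx.isTranscendenceBasis_of_trdeg_le_of_finite (by simpa using h2)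
  have halg := hb.isAlgebraic
  obtain ⟨q, hq, hqe⟩ := halg.isAlgebraic z
  have hmem : ξ ∈ Algebra.adjoin κ (Set.range (fun _ : Unit => ξ)) := Algebra.subset_adjoin ⟨(), rfl⟩
  let ψ : κ[X] →ₐ[κ] Algebra.adjoin κ (Set.range (fun _ : Unit => ξ)) := aeval ⟨ξ, hmem⟩
  have hφ : (aeval ξ : κ[X] →ₐ[κ] AlgebraicClosure K) =
      (Algebra.adjoin κ (Set.range (fun _ : Unit => ξ))).val.comp ψ := by
    ext
    simp [ψ]
  have hψ : Function.Surjective ψ := by
    rintro ⟨a, ha⟩
    have ha' := ha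
    rw [Set.range_const, Algebra.adjoin_singleton_eq_range_aeval] at ha'
    obtain ⟨p, hp⟩ := ha'
    refine ⟨p, Subtype.ext ?_⟩
    show (Algebra.adjoin κ (Set.range (fun _ : Unit => ξ))).val.comp ψ p = a
    rw [← hφ]
    exact hp
  obtain ⟨P, hP⟩ := Polynomial.map_surjective ψ.toRingHom hψ q
  refine ⟨P, ?_, ?_⟩
  · rintro rfl
    rw [Polynomial.map_zero] at hP
    exact hq hP.symm
  · have h5 : (aeval ξ : κ[X] →ₐ[κ] AlgebraicClosure K).toRingHom =
        (algebraMap (Algebra.adjoin κ (Set.range (fun _ : Unit => ξ))) (AlgebraicClosure K)).comp ψ.toRingHom := by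
      rw [hφ]
      rfl
    rw [h5, ← Polynomial.map_map, hP, Polynomial.eval_map]
    exact hqe

theorem dep_up (κ κ₁ Ω : Type) [Field κ] [Field κ₁] [Field Ω] [Algebra κ Ω] [Algebra κ₁ Ω]
    (hsub : ∀ c : κ, ∃ r : κ₁, algebraMap κ₁ Ω r = algebraMap κ Ω c) (h : Dep κ Ω) : Dep κ₁ Ω := by
  intro ξ hξ z
  -- ring map `κ → κ₁`
  choose g hg using hsub
  have hinj : Function.Injective (algebraMap κ₁ Ω) := (algebraMap κ₁ Ω).injective
  let G : κ →+* κ₁ :=
    { toFun := g
      map_one' := hinj (by rw [hg, map_one, map_one])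
      map_mul' := fun a b => hinj (by rw [hg, map_mul, map_mul, hg, hg])
      map_zero' := hinj (by rw [hg, map_zero, map_zero])
      map_add' := fun a b => hinj (by rw [hg, map_add, map_add, hg, hg]) }
  have hG : ∀ c : κ, algebraMap κ₁ Ω (G c) = algebraMap κ Ω c := hg
  have hcomp : (algebraMap κ₁ Ω).comp G = algebraMap κ Ω := RingHom.ext hG
  have hξ' : Transcendental κ ξ := by
    intro h
    obtain ⟨p, hp, hpe⟩ := h
    apply hξ
    refine ⟨p.map G, (Polynomial.map_ne_zero_iff G.injective).2 hp, ?_⟩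
    rw [aeval_def, eval₂_map, hcomp]
    exact hpe
  obtain ⟨P, hP, hPe⟩ := h ξ hξ' z
  refine ⟨P.map (mapRingHom G), (Polynomial.map_ne_zero_iff ?_).2 hP, ?_⟩
  · exact Polynomial.map_injective G G.injective
  · rw [Polynomial.map_map]
    have hc : ((aeval ξ : κ₁[X] →ₐ[κ₁] Ω).toRingHom).comp (mapRingHom G) =
        (aeval ξ : κ[X] →ₐ[κ] Ω).toRingHom := by
      ext a
      · simp [hG]
      · simp
    rw [hc]
    exact hPe

private theorem f5_res {κ Ω : Type} [Field κ] [CharZero κ] [Field Ω] [IsAlgClosed Ω] [Algebra κ Ω] (S : Sec κ Ω)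
    (M : IntermediateField κ Ω) (hM : ∀ x ∈ M, IsAlgebraic κ x)
    (U : ValuationSubring Ω) (halg : ∀ z : Ω, IsAlgebraic κ z → z ∈ U)
    (hres : ∀ y ∈ U, ∃ ρ : Ω, IsAlgebraic κ ρ ∧ U.valuation (y - ρ) < 1)
    (hinv : ∀ τ : algebraicClosure κ Ω ≃ₐ[κ] algebraicClosure κ Ω, (∀ x : algebraicClosure κ Ω, (x : Ω) ∈ M → τ x = x) →
      ∀ z : Ω, S.s τ z ∈ U ↔ z ∈ U) (y : Ω) (hy : y ∈ S.F (M : Set Ω)) (hyU : y ∈ U) :
    ∃ r ∈ (M : Set Ω), U.valuation (y - r) < 1 := by
  obtain ⟨ρ, hρ, hlt⟩ := hres y hyU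
  refine ⟨ρ, ?_, hlt⟩
  have hρF : ρ ∈ S.F (M : Set Ω) := by
    rw [S.mem_F]
    intro τ hτ
    have hfix : S.s τ y = y := (S.mem_F _ y).mp hy τ hτ
    have h1 : U.valuation (y - S.s τ ρ) < 1 := by
      have e : y - S.s τ ρ = S.s τ (y - ρ) := by rw [map_sub, hfix]
      rw [e, f3_lt]
      rw [f3_lt] at hlt
      rcases hlt with h | h
      · left
        rw [h, map_zero]
      · right
        rw [← map_inv₀, hinv τ hτ]
        exact h
    have h2 : U.valuation (S.s τ ρ - ρ) < 1 := by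
      have e : S.s τ ρ - ρ = (y - ρ) - (y - S.s τ ρ) := by ring
      rw [e]
      exact (Valuation.map_sub _ _ _).trans_lt (max_lt hlt h1)
    have hτρ : IsAlgebraic κ (S.s τ ρ) := by
      have hm : ρ ∈ algebraicClosure κ Ω := mem_algebraicClosure_iff.mpr hρ
      have := S.res τ ⟨ρ, hm⟩
      have h3 : S.s τ ρ = ((τ ⟨ρ, hm⟩ : algebraicClosure κ Ω) : Ω) := this
      rw [h3]
      exact mem_algebraicClosure_iff.mp (τ ⟨ρ, hm⟩).2
    by_contra hne
    have h3 : S.s τ ρ - ρ ≠ 0 := sub_ne_zero.mpr hne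
    have h4 := f3_unit U halg _ (hτρ.sub hρ) h3
    exact absurd h2 (by rw [h4]; exact lt_irrefl 1)
  have h5 := mem_adjoin S (M : Set Ω) hM ρ hρF hρ
  rwa [IntermediateField.adjoin_self] at h5

theorem unique_inv (κ Ω : Type) [Field κ] [CharZero κ] [Field Ω] [IsAlgClosed Ω] [Algebra κ Ω] (S : Sec κ Ω)
    (M : IntermediateField κ Ω) (hM : ∀ x ∈ M, IsAlgebraic κ x) (n : Ω) (hn : n ∈ M) (hnsq : ¬ ∃ d ∈ M, n = d ^ 2)
    (U U' : ValuationSubring Ω) (halg : ∀ z : Ω, IsAlgebraic κ z → z ∈ U) (halg' : ∀ z : Ω, IsAlgebraic κ z → z ∈ U')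
    (hres : ∀ y ∈ U, ∃ ρ : Ω, IsAlgebraic κ ρ ∧ U.valuation (y - ρ) < 1)
    (hres' : ∀ y ∈ U', ∃ ρ : Ω, IsAlgebraic κ ρ ∧ U'.valuation (y - ρ) < 1)
    (hinv : ∀ τ : algebraicClosure κ Ω ≃ₐ[κ] algebraicClosure κ Ω, (∀ x : algebraicClosure κ Ω, (x : Ω) ∈ M → τ x = x) →
      ∀ z : Ω, S.s τ z ∈ U ↔ z ∈ U)
    (hinv' : ∀ τ : algebraicClosure κ Ω ≃ₐ[κ] algebraicClosure κ Ω, (∀ x : algebraicClosure κ Ω, (x : Ω) ∈ M → τ x = x) →
      ∀ z : Ω, S.s τ z ∈ U' ↔ z ∈ U') : U = U' := by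
  have : CharZero Ω := charZero_of_injective_algebraMap (algebraMap κ Ω).injective
  have hr := f5_res S M hM U halg hres hinv
  have hr' := f5_res S M hM U' halg' hres' hinv'
  obtain ⟨w, hw⟩ := IsAlgClosed.exists_pow_nat_eq n (n := 2) two_pos
  have hwalg : IsAlgebraic κ w := by
    refine IsAlgebraic.of_pow two_pos ?_
    rw [hw]
    exact hM n hn
  have hn0 : n ≠ 0 := by
    intro h0
    exact hnsq ⟨0, M.zero_mem, by rw [h0]; ring⟩
  have hw0 : w ≠ 0 := by
    rintro rfl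
    exact hn0 (by rw [← hw]; ring)
  have hwM : w ∉ M := fun h => hnsq ⟨w, h, hw.symm⟩
  have hwm : w ∈ algebraicClosure κ Ω := mem_algebraicClosure_iff.mpr hwalg
  obtain ⟨τ, hτ, hτw⟩ := exists_move (κ := κ) (Ω := Ω) (M : Set Ω) hM ⟨w, hwm⟩ (by
    rw [IntermediateField.adjoin_self]
    exact hwM)
  have hsw : S.s τ w = -w := by
    have h1 : S.s τ w = ((τ ⟨w, hwm⟩ : algebraicClosure κ Ω) : Ω) := S.res τ ⟨w, hwm⟩
    have hne : S.s τ w ≠ w := by
      rw [h1]
      intro h
      exact hτw (Subtype.ext h)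
    have hnF : S.s τ n = n := (S.mem_F _ n).mp (mem_F_of_mem S (M : Set Ω) n hn (hM n hn)) τ hτ
    have h2 : (S.s τ w) ^ 2 = w ^ 2 := by
      rw [← map_pow, hw, hnF]
    rcases sq_eq_sq_iff_eq_or_eq_neg.mp h2 with h | h
    · exact absurd h hne
    · exact h
  have h2U : ∀ V : ValuationSubring Ω, (∀ z : Ω, IsAlgebraic κ z → z ∈ V) → (2 : Ω)⁻¹ ∈ V := by
    intro V hV
    refine hV _ ?_
    have : (2 : Ω)⁻¹ = algebraMap κ Ω ((2 : κ)⁻¹) := by
      rw [map_inv₀, map_ofNat]
    rw [this]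
    exact isAlgebraic_algebraMap _
  have hcomp := compar (S.s τ) U U' (hinv τ hτ) (hinv' τ hτ) (h2U U halg) (h2U U' halg') w hsw
    (f3_unit U halg w hwalg hw0) (f3_unit U' halg' w hwalg hw0) (S.F (M : Set Ω))
    (fun a ha => (S.mem_F _ a).mp ha τ hτ)
  have hMF : ∀ r ∈ (M : Set Ω), r ∈ S.F (M : Set Ω) := fun r hr => mem_F_of_mem S (M : Set Ω) r hr (hM r hr)
  have heq := res_eq U U' (S.F (M : Set Ω)) (M : Set Ω) hMF (fun r hr => halg r (hM r hr))
    (fun r hr => halg' r (hM r hr)) hr hr' hcomp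
  refine ext_unique_gen κ Ω (S.F (M : Set Ω)) M.toSubfield hMF hM ?_ U U' halg halg' hr heq
  intro z
  obtain ⟨n, c, β, hc, hβ, hz⟩ := span_kbar S z
  exact ⟨n, c, β, fun i => S.F_mono (Set.empty_subset _) (hc i), hβ, hz⟩

theorem nonsq (k M : Type) [Field k] [Field M] [Algebra (RatFunc k) M] [FiniteDimensional (RatFunc k) M] :
    ∃ n : M, ¬ ∃ d : M, n = d ^ 2 := by
  by_contra hcon
  push Not at hcon
  let m := Module.finrank (RatFunc k) M
  have hm : 0 < m := Module.finrank_pos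
  -- iterated square roots
  have hroot : ∀ j : ℕ, ∃ w : M, w ^ (2 ^ j) = algebraMap (RatFunc k) M RatFunc.X := by
    intro j
    induction j with
    | zero => exact ⟨algebraMap (RatFunc k) M RatFunc.X, by simp⟩
    | succ j ih =>
      obtain ⟨w, hw⟩ := ih
      obtain ⟨d, hd⟩ := hcon w
      refine ⟨d, ?_⟩
      rw [pow_succ', pow_mul, ← hd, hw]
  obtain ⟨w, hw⟩ := hroot m
  have hN := congrArg (Algebra.norm (RatFunc k)) hw
  rw [map_pow, Algebra.norm_algebraMap] at hN
  have hX : (RatFunc.X : RatFunc k) ≠ 0 := RatFunc.X_ne_zero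
  have hNne : Algebra.norm (RatFunc k) w ≠ 0 := by
    intro h0
    rw [h0, zero_pow (by positivity)] at hN
    exact pow_ne_zero _ hX hN.symm
  have hpow : ∀ (x : RatFunc k) (_ : x ≠ 0) (n : ℕ), (x ^ n).intDegree = n * x.intDegree := by
    intro x hx n
    induction n with
    | zero => simp
    | succ n ih =>
      rw [pow_succ, RatFunc.intDegree_mul (pow_ne_zero _ hx) hx, ih]
      push_cast
      ring
  have h1 := congrArg RatFunc.intDegree hN
  rw [hpow _ hNne, hpow _ hX, RatFunc.intDegree_X, mul_one] at h1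
  have hdvd : ((2 ^ m : ℕ) : ℤ) ∣ ((m : ℕ) : ℤ) := ⟨_, h1.symm⟩
  have hdvd' : 2 ^ m ∣ m := by exact_mod_cast hdvd
  exact absurd (Nat.le_of_dvd hm hdvd') (not_le.2 Nat.lt_two_pow_self)

end BSC
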