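import Pool.Agent.Lib_MP_49ddc8.Defs

/-!
# [BSC-G1] .. [BSC-G4]  Fixed fields of a section

`κbar = algebraicClosure κ Ω` is Galois over `κ` (char 0, `Ω` algebraically closed); `G = κbar ≃ₐ[κ] κbar`.

[BSC-G1] `mem_F_of_mem`, `algebraMap_mem_F`: from `S.res`.  `mem_adjoin`: for `A` algebraic over `κ`, `z ∈ S.F A` algebraic over `κ`: by `res` the element `z` of `κbar` is fixed by every `τ` fixing `A`, so it lies in `fixedField (fixingSubgroup E) = E`,
`E = IntermediateField.adjoin κ (A ∩ κbar)` inside `κbar` (`InfiniteGalois.fixedField_fixingSubgroup`).  `exists_move`: the same statement backwards.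

[BSC-G2] `k2`: `y ∈ Ω` with `y² = z`.  For `τ` fixing `A`: `s τ y = ± y`.  If always `+`: `c = 1`, `w = y`.  Else take `b₀` fixing `A` with `s b₀ y = -y`, and `B' = {τ fixing A : s τ y = y}`, a subgroup; it is closed: the stabiliser of `y` contains the open subgroup
`E.fixingSubgroup` of `S.cont`, so is open and closed; the fixing subgroup of an intermediate field is closed.  By `InfiniteGalois.fixingSubgroup_fixedField` (for closed subgroups) `b₀ ∉ B'` gives `e ∈ κbar` fixed by `B'` with `b₀ e ≠ e`.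
Put `δ = e - b₀ e`: for `τ ∈ B'`: `τ b₀ e = b₀ (b₀⁻¹ τ b₀) e = b₀ e` (`b₀⁻¹ τ b₀ ∈ B'`), so `τ δ = δ`; `b₀² ∈ B'`, so `b₀ δ = -δ`; any `τ` fixing `A` is in `B'` or in `b₀ B'`.  So `w = y/δ ∈ S.F A`, `c = δ²` is fixed by all `τ` fixing `A`, `c ∈ adjoin κ A` by `mem_adjoin`.

[BSC-G3] `norm_step`: `E` a field between `κ` and `κbar`, `c ∈ E`, `-c` not a square in `E`, `l ∈ S.F E`.  Let `α² = -c`, `α ∉ E`.  `1 + α l ∈ S.F (E ∪ {α})`; if it is `0` then `1 + c l² = 0`, take `N = 0`.  Else by `k2` `1 + α l = r w²`, `r ∈ adjoin κ (E ∪ {α}) = E + E α`: `r = r₁ + r₂ α`, `w ∈ S.F (E ∪ {α})`.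
Take `τ₀` fixing `E` with `τ₀ α = -α` (`exists_move`).  Apply `s τ₀`: `1 - α l = (r₁ - r₂ α) (s τ₀ w)²`.  Product: `1 + c l² = (r₁² + c r₂²) N²`, `N = w · s τ₀ w`, fixed by every `τ` fixing `E`: `τ` fixes `α`, or `τ₀⁻¹ τ` fixes `α` (and conjugation by `τ₀` preserves the `τ` fixing `E` and `α`).

[BSC-G4] `span_kbar`: every `z ∈ Ω` is `∑ c_i β_i` with `c_i ∈ S.F ∅` (fixed by all `s τ`), `β_i ∈ κbar`.  Proof: by `cont` (and normal closure) `z` is fixed by `s τ` for all `τ` fixing a finite Galois `E/κ`.  Let `β` be a `κ`-basis of `E`, `β*` the dual basis for the trace form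
(`Algebra.trace`, `Algebra.trace_eq_sum_automorphisms`).  For `σ ∈ Gal(E/κ)` choose a lift `σ' ∈ G`; `s σ' (z)` does not depend on the lift.  `c_i = ∑_σ s σ' (z β*_i)` is fixed by all `s τ`, and `∑_i β_i σ(β*_i) = δ_{σ,1}`, so `∑ c_i β_i = z`.
(Any other proof is fine, e.g. Artin's theorem for the finite group `Gal(E/κ)` acting on `{z : fixed by s τ, τ fixing E}` and a dimension count.)
-/

set_option autoImplicit false

namespace BSC

variable {κ Ω : Type} [Field κ] [CharZero κ] [Field Ω] [IsAlgClosed Ω] [Algebra κ Ω]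

/-- `exists_move` with the full Galois group -/
private theorem exists_move' (A : Set Ω) (w : algebraicClosure κ Ω)
    (hw : (w : Ω) ∉ IntermediateField.adjoin κ A) : ∃ τ : algebraicClosure κ Ω ≃ₐ[κ] algebraicClosure κ Ω,
      (∀ x : algebraicClosure κ Ω, (x : Ω) ∈ A → τ x = x) ∧ τ w ≠ w := by
  haveI : IsGalois κ (algebraicClosure κ Ω) := ⟨⟩
  by_contra hcon
  push Not at hcon
  apply hw
  set E : IntermediateField κ (algebraicClosure κ Ω) := (IntermediateField.adjoin κ A).comap (algebraicClosure κ Ω).val with hE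
  have h1 : w ∈ IntermediateField.fixedField E.fixingSubgroup := by
    rw [IntermediateField.mem_fixedField_iff]
    intro τ hτ
    rw [IntermediateField.mem_fixingSubgroup_iff] at hτ
    refine hcon τ fun x hx => hτ x ?_
    show ((algebraicClosure κ Ω).val x) ∈ IntermediateField.adjoin κ A
    exact IntermediateField.subset_adjoin κ A hx
  rw [InfiniteGalois.fixedField_fixingSubgroup] at h1
  exact h1

theorem mem_F_of_mem (S : Sec κ Ω) (A : Set Ω) (z : Ω) (hz : z ∈ A) (ha : IsAlgebraic κ z) : z ∈ S.F A := by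
  intro τ hτ
  have h := S.res τ ⟨z, mem_algebraicClosure_iff.2 ha⟩
  rw [hτ _ hz] at h
  exact h

theorem algebraMap_mem_F (S : Sec κ Ω) (A : Set Ω) (z : κ) : algebraMap κ Ω z ∈ S.F A := by
  intro τ hτ
  have h := S.res τ (algebraMap κ (algebraicClosure κ Ω) z)
  rw [AlgEquiv.commutes] at h
  exact h

theorem mem_adjoin (S : Sec κ Ω) (A : Set Ω) (hA : ∀ x ∈ A, IsAlgebraic κ x) (z : Ω) (hz : z ∈ S.F A) (ha : IsAlgebraic κ z) :
    z ∈ IntermediateField.adjoin κ A := by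
  by_contra hcon
  obtain ⟨τ, h1, h2⟩ := exists_move' (κ := κ) A ⟨z, mem_algebraicClosure_iff.2 ha⟩ hcon
  apply h2
  apply Subtype.ext
  have h3 := S.res τ ⟨z, mem_algebraicClosure_iff.2 ha⟩
  rw [← h3]
  exact hz τ h1

theorem adjoin_le_F (S : Sec κ Ω) (A : Set Ω) (hA : ∀ x ∈ A, IsAlgebraic κ x) (z : Ω) (hz : z ∈ IntermediateField.adjoin κ A) :
    z ∈ S.F A := by
  have h : IntermediateField.adjoin κ A ≤ (S.F A).toIntermediateField (fun x => algebraMap_mem_F S A x) :=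
    IntermediateField.adjoin_le_iff.2 fun x hx => mem_F_of_mem S A x hx (hA x hx)
  exact h hz

theorem exists_move (A : Set Ω) (hA : ∀ x ∈ A, IsAlgebraic κ x) (w : algebraicClosure κ Ω)
    (hw : (w : Ω) ∉ IntermediateField.adjoin κ A) : ∃ τ : algebraicClosure κ Ω ≃ₐ[κ] algebraicClosure κ Ω,
      (∀ x : algebraicClosure κ Ω, (x : Ω) ∈ A → τ x = x) ∧ τ w ≠ w :=
  exists_move' A w hw

theorem k2 (S : Sec κ Ω) (A : Set Ω) (hA : ∀ x ∈ A, IsAlgebraic κ x) (z : Ω) (hz : z ∈ S.F A) (h0 : z ≠ 0) :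
    ∃ c ∈ IntermediateField.adjoin κ A, c ≠ 0 ∧ ∃ w ∈ S.F A, w ≠ 0 ∧ z = c * w ^ 2 := by
  obtain ⟨y, hy⟩ := IsAlgClosed.exists_pow_nat_eq z (n := 2) (by norm_num)
  have hy0 : y ≠ 0 := by
    rintro rfl
    exact h0 (by rw [← hy]; ring)
  have hpm : ∀ τ : algebraicClosure κ Ω ≃ₐ[κ] algebraicClosure κ Ω,
      (∀ x : algebraicClosure κ Ω, (x : Ω) ∈ A → τ x = x) → S.s τ y = y ∨ S.s τ y = -y := by
    intro τ hτ
    refine sq_eq_sq_iff_eq_or_eq_neg.1 ?_
    rw [← map_pow, hy]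
    exact hz τ hτ
  by_cases hall : ∀ τ : algebraicClosure κ Ω ≃ₐ[κ] algebraicClosure κ Ω,
      (∀ x : algebraicClosure κ Ω, (x : Ω) ∈ A → τ x = x) → S.s τ y = y
  · exact ⟨1, one_mem _, one_ne_zero, y, hall, hy0, by rw [one_mul, hy]⟩
  push Not at hall
  obtain ⟨b, hbA, hby⟩ := hall
  have hbn : S.s b y = -y := (hpm b hbA).resolve_left hby
  have hbi : S.s b⁻¹ y = -y := by
    have h1 : S.s b⁻¹ (S.s b y) = y := by
      rw [← RingAut.mul_apply, ← map_mul, inv_mul_cancel, map_one]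
      rfl
    rw [hbn, map_neg] at h1
    rw [← h1, neg_neg]
    exact congrArg _ h1
  have hbiA : ∀ x : algebraicClosure κ Ω, (x : Ω) ∈ A → b⁻¹ x = x := by
    intro x hx
    have h1 := hbA x hx
    calc b⁻¹ x = b⁻¹ (b x) := by rw [h1]
      _ = x := by rw [← AlgEquiv.mul_apply, inv_mul_cancel, AlgEquiv.one_apply]
  -- the subgroup `B`
  let B : Subgroup (algebraicClosure κ Ω ≃ₐ[κ] algebraicClosure κ Ω) :=
    { carrier := {τ | (∀ x : algebraicClosure κ Ω, (x : Ω) ∈ A → τ x = x) ∧ S.s τ y = y}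
      mul_mem' := by
        rintro σ τ ⟨h1, h2⟩ ⟨h3, h4⟩
        refine ⟨fun x hx => ?_, ?_⟩
        · rw [AlgEquiv.mul_apply, h3 x hx, h1 x hx]
        · rw [map_mul, RingAut.mul_apply, h4, h2]
      one_mem' := ⟨fun x _ => rfl, by rw [map_one]; rfl⟩
      inv_mem' := by
        rintro τ ⟨h1, h2⟩
        refine ⟨fun x hx => ?_, ?_⟩
        · calc τ⁻¹ x = τ⁻¹ (τ x) := by rw [h1 x hx]
            _ = x := by rw [← AlgEquiv.mul_apply, inv_mul_cancel, AlgEquiv.one_apply]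
        · calc S.s τ⁻¹ y = S.s τ⁻¹ (S.s τ y) := by rw [h2]
            _ = y := by
              rw [← RingAut.mul_apply, ← map_mul, inv_mul_cancel, map_one]
              rfl }
  have hBmem : ∀ τ, τ ∈ B ↔ (∀ x : algebraicClosure κ Ω, (x : Ω) ∈ A → τ x = x) ∧ S.s τ y = y :=
    fun τ => Iff.rfl
  have hgal : IsGalois κ (algebraicClosure κ Ω) := inferInstance
  have hclosed : IsClosed (B : Set (algebraicClosure κ Ω ≃ₐ[κ] algebraicClosure κ Ω)) := by
    let T : Subgroup (algebraicClosure κ Ω ≃ₐ[κ] algebraicClosure κ Ω) :=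
      { carrier := {τ | S.s τ y = y}
        mul_mem' := by
          intro σ τ h2 h4
          change S.s (σ * τ) y = y
          have h2' : S.s σ y = y := h2
          have h4' : S.s τ y = y := h4
          rw [map_mul, RingAut.mul_apply, h4', h2']
        one_mem' := by
          change S.s 1 y = y
          rw [map_one]
          rfl
        inv_mem' := by
          intro τ h2
          have h2' : S.s τ y = y := h2
          change S.s τ⁻¹ y = y
          calc S.s τ⁻¹ y = S.s τ⁻¹ (S.s τ y) := by rw [h2']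
            _ = y := by
              rw [← RingAut.mul_apply, ← map_mul, inv_mul_cancel, map_one]
              rfl }
    obtain ⟨E, hE, hEy⟩ := S.cont y
    have hTo : IsOpen (T : Set (algebraicClosure κ Ω ≃ₐ[κ] algebraicClosure κ Ω)) :=
      Subgroup.isOpen_mono (H₁ := E.fixingSubgroup) (fun τ hτ => hEy τ hτ) E.fixingSubgroup_isOpen
    have hTc : IsClosed (T : Set (algebraicClosure κ Ω ≃ₐ[κ] algebraicClosure κ Ω)) :=
      T.isClosed_of_isOpen hTo
    set E₀ : IntermediateField κ (algebraicClosure κ Ω) :=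
      IntermediateField.adjoin κ {x : algebraicClosure κ Ω | (x : Ω) ∈ A} with hE₀
    have hEc : IsClosed (E₀.fixingSubgroup : Set (algebraicClosure κ Ω ≃ₐ[κ] algebraicClosure κ Ω)) :=
      InfiniteGalois.fixingSubgroup_isClosed E₀
    have hBeq : (B : Set (algebraicClosure κ Ω ≃ₐ[κ] algebraicClosure κ Ω)) =
        (E₀.fixingSubgroup : Set (algebraicClosure κ Ω ≃ₐ[κ] algebraicClosure κ Ω)) ∩ T := by
      ext τ
      constructor
      · rintro ⟨h1, h2⟩
        refine ⟨?_, h2⟩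
        change τ ∈ E₀.fixingSubgroup
        rw [IntermediateField.mem_fixingSubgroup_iff]
        intro x hx
        rw [hE₀] at hx
        induction hx using IntermediateField.adjoin_induction with
        | mem x hx => exact h1 x hx
        | algebraMap x => exact τ.commutes x
        | add x y _ _ h3 h4 => rw [map_add, h3, h4]
        | inv x _ h3 => rw [map_inv₀, h3]
        | mul x y _ _ h3 h4 => rw [map_mul, h3, h4]
      · rintro ⟨h1, h2⟩
        refine ⟨fun x hx => ?_, h2⟩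
        have h3 : τ ∈ E₀.fixingSubgroup := h1
        rw [IntermediateField.mem_fixingSubgroup_iff] at h3
        exact h3 x (IntermediateField.subset_adjoin κ _ hx)
    rw [hBeq]
    exact hEc.inter hTc
  have hfix := InfiniteGalois.fixingSubgroup_fixedField
    (⟨B, hclosed⟩ : ClosedSubgroup (algebraicClosure κ Ω ≃ₐ[κ] algebraicClosure κ Ω))
  have hbB : b ∉ (IntermediateField.fixedField B).fixingSubgroup := by
    intro hmem
    have h1 : b ∈ B := by
      have h2 : (IntermediateField.fixedField B).fixingSubgroup = B := hfix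
      rwa [h2] at hmem
    exact hby h1.2
  rw [IntermediateField.mem_fixingSubgroup_iff] at hbB
  push Not at hbB
  obtain ⟨e, he, hbe⟩ := hbB
  have heB : ∀ τ ∈ B, τ e = e := by
    intro τ hτ
    rw [IntermediateField.mem_fixedField_iff] at he
    exact he τ hτ
  have hbe2 : ∀ τ ∈ B, τ (b e) = b e := by
    intro τ hτ
    have h1 : b⁻¹ * τ * b ∈ B := by
      refine ⟨fun x hx => ?_, ?_⟩
      · rw [AlgEquiv.mul_apply, AlgEquiv.mul_apply, hbA x hx, hτ.1 x hx, hbiA x hx]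
      · rw [map_mul, map_mul, RingAut.mul_apply, RingAut.mul_apply, hbn, map_neg, hτ.2, map_neg, hbi,
          neg_neg]
    have h2 := heB _ h1
    have h3 : τ (b e) = b ((b⁻¹ * τ * b) e) := by
      rw [← AlgEquiv.mul_apply, ← AlgEquiv.mul_apply]
      congr 1
      group
    rw [h3, h2]
  have hbb : b * b ∈ B := by
    refine ⟨fun x hx => ?_, ?_⟩
    · rw [AlgEquiv.mul_apply, hbA x hx, hbA x hx]
    · rw [map_mul, RingAut.mul_apply, hbn, map_neg, hbn, neg_neg]
  have hbb2 : b (b e) = e := by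
    rw [← AlgEquiv.mul_apply]
    exact heB _ hbb
  set δ : algebraicClosure κ Ω := e - b e with hδ
  have hδ0 : δ ≠ 0 := by
    rw [hδ, sub_ne_zero]
    exact fun h => hbe h.symm
  have hδB : ∀ τ ∈ B, τ δ = δ := by
    intro τ hτ
    rw [hδ, map_sub, heB τ hτ, hbe2 τ hτ]
  have hδb : b δ = -δ := by
    rw [hδ, map_sub, hbb2]
    ring
  have hcase : ∀ τ : algebraicClosure κ Ω ≃ₐ[κ] algebraicClosure κ Ω,
      (∀ x : algebraicClosure κ Ω, (x : Ω) ∈ A → τ x = x) →
      (S.s τ y = y ∧ τ δ = δ) ∨ (S.s τ y = -y ∧ τ δ = -δ) := by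
    intro τ hτ
    rcases hpm τ hτ with h | h
    · exact Or.inl ⟨h, hδB τ ⟨hτ, h⟩⟩
    · refine Or.inr ⟨h, ?_⟩
      have h1 : b⁻¹ * τ ∈ B := by
        refine ⟨fun x hx => ?_, ?_⟩
        · rw [AlgEquiv.mul_apply, hτ x hx, hbiA x hx]
        · rw [map_mul, RingAut.mul_apply, h, map_neg, hbi, neg_neg]
      have h2 : τ δ = b ((b⁻¹ * τ) δ) := by
        rw [← AlgEquiv.mul_apply]
        congr 1
        group
      rw [h2, hδB _ h1, hδb]
  have hδΩ : (δ : Ω) ≠ 0 := by
    intro h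
    exact hδ0 (Subtype.ext h)
  have hsδ : ∀ τ : algebraicClosure κ Ω ≃ₐ[κ] algebraicClosure κ Ω,
      (∀ x : algebraicClosure κ Ω, (x : Ω) ∈ A → τ x = x) →
      (S.s τ y = y ∧ S.s τ (δ : Ω) = δ) ∨ (S.s τ y = -y ∧ S.s τ (δ : Ω) = -δ) := by
    intro τ hτ
    rcases hcase τ hτ with ⟨h1, h2⟩ | ⟨h1, h2⟩
    · exact Or.inl ⟨h1, by rw [S.res, h2]⟩
    · exact Or.inr ⟨h1, by rw [S.res, h2]; rfl⟩
  refine ⟨(δ : Ω) ^ 2, ?_, pow_ne_zero 2 hδΩ, y / δ, ?_, div_ne_zero hy0 hδΩ, ?_⟩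
  · refine mem_adjoin S A hA _ ?_ ?_
    · intro τ hτ
      rw [map_pow]
      rcases hsδ τ hτ with ⟨-, h2⟩ | ⟨-, h2⟩
      · rw [h2]
      · rw [h2, neg_sq]
    · have h1 : IsAlgebraic κ (δ : Ω) := (mem_algebraicClosure_iff).1 δ.2
      exact h1.pow 2
  · intro τ hτ
    rw [map_div₀]
    rcases hsδ τ hτ with ⟨h1, h2⟩ | ⟨h1, h2⟩
    · rw [h1, h2]
    · rw [h1, h2, neg_div_neg_eq]
  · rw [← hy]
    field_simp

/-- the elements of `E(α)`, `α² = -c ∈ E` -/
private theorem norm_step_adjoin (E : IntermediateField κ Ω) (c : Ω) (hc : c ∈ E) (α : Ω)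
    (hα : α ^ 2 = -c) (hαE : α ∉ E) (z : Ω)
    (hz : z ∈ IntermediateField.adjoin κ ((E : Set Ω) ∪ {α})) :
    ∃ r₁ ∈ E, ∃ r₂ ∈ E, z = r₁ + r₂ * α := by
  have hz0 : ∀ a ∈ E, ∀ b ∈ E, a ^ 2 + c * b ^ 2 = 0 → a = 0 ∧ b = 0 := by
    intro a ha b hb h
    have h1 : (a + b * α) * (a - b * α) = 0 := by
      linear_combination h - b ^ 2 * hα
    by_cases hb0 : b = 0
    · subst hb0
      refine ⟨?_, rfl⟩
      have : a ^ 2 = 0 := by simpa using h
      exact pow_eq_zero_iff (two_ne_zero) |>.1 this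
    · exfalso
      rcases mul_eq_zero.1 h1 with h2 | h2
      · apply hαE
        have : α = -a / b := by
          field_simp
          linear_combination h2
        rw [this]
        exact div_mem (neg_mem ha) hb
      · apply hαE
        have : α = a / b := by
          field_simp
          linear_combination -h2
        rw [this]
        exact div_mem ha hb
  induction hz using IntermediateField.adjoin_induction with
  | mem x hx =>
    rcases hx with hx | hx
    · exact ⟨x, hx, 0, E.zero_mem, by ring⟩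
    · rw [Set.mem_singleton_iff] at hx
      exact ⟨0, E.zero_mem, 1, E.one_mem, by rw [hx]; ring⟩
  | algebraMap x => exact ⟨algebraMap κ Ω x, E.algebraMap_mem x, 0, E.zero_mem, by ring⟩
  | add x y _ _ h1 h2 =>
    obtain ⟨a, ha, b, hb, rfl⟩ := h1
    obtain ⟨a', ha', b', hb', rfl⟩ := h2
    exact ⟨a + a', add_mem ha ha', b + b', add_mem hb hb', by ring⟩
  | inv x _ h1 =>
    obtain ⟨a, ha, b, hb, rfl⟩ := h1
    have hN : a ^ 2 + c * b ^ 2 ∈ E := add_mem (pow_mem ha 2) (mul_mem hc (pow_mem hb 2))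
    refine ⟨a / (a ^ 2 + c * b ^ 2), div_mem ha hN, -b / (a ^ 2 + c * b ^ 2), div_mem (neg_mem hb) hN, ?_⟩
    by_cases h0 : a ^ 2 + c * b ^ 2 = 0
    · obtain ⟨rfl, rfl⟩ := hz0 a ha b hb h0
      simp
    · have h3 : (a + b * α) * (a - b * α) = a ^ 2 + c * b ^ 2 := by
        linear_combination -b ^ 2 * hα
      have h4 : a + b * α ≠ 0 := by
        intro h5
        rw [h5, zero_mul] at h3
        exact h0 h3.symm
      rw [inv_eq_one_div, div_mul_eq_mul_div, ← add_div, div_eq_div_iff h4 h0]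
      linear_combination -h3
  | mul x y _ _ h1 h2 =>
    obtain ⟨a, ha, b, hb, rfl⟩ := h1
    obtain ⟨a', ha', b', hb', rfl⟩ := h2
    refine ⟨a * a' - c * (b * b'), sub_mem (mul_mem ha ha') (mul_mem hc (mul_mem hb hb')),
      a * b' + b * a', add_mem (mul_mem ha hb') (mul_mem hb ha'), ?_⟩
    linear_combination b * b' * hα

theorem norm_step (S : Sec κ Ω) (E : IntermediateField κ Ω) (hE : ∀ x ∈ E, IsAlgebraic κ x) (c : Ω) (hc : c ∈ E)
    (hns : ¬ ∃ d ∈ E, -c = d ^ 2) (l : Ω) (hl : l ∈ S.F E) :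
    ∃ r₁ ∈ E, ∃ r₂ ∈ E, ∃ N ∈ S.F E, 1 + c * l ^ 2 = (r₁ ^ 2 + c * r₂ ^ 2) * N ^ 2 := by
  obtain ⟨α, hα⟩ := IsAlgClosed.exists_pow_nat_eq (-c) (n := 2) (by norm_num)
  have hαE : α ∉ E := fun h => hns ⟨α, h, hα.symm⟩
  have hαalg : IsAlgebraic κ α := by
    have h1 : IsAlgebraic κ (α ^ 2) := by
      rw [hα]
      exact (hE c hc).neg
    exact IsAlgebraic.of_pow (by norm_num) h1
  have hA : ∀ x ∈ (E : Set Ω) ∪ {α}, IsAlgebraic κ x := by
    rintro x (hx | hx)
    · exact hE x hx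
    · rw [Set.mem_singleton_iff] at hx
      rw [hx]
      exact hαalg
  have hαF : α ∈ S.F ((E : Set Ω) ∪ {α}) := mem_F_of_mem S _ α (Or.inr rfl) hαalg
  have hlF : l ∈ S.F ((E : Set Ω) ∪ {α}) := S.F_mono Set.subset_union_left hl
  by_cases h0 : 1 + α * l = 0
  · refine ⟨0, E.zero_mem, 0, E.zero_mem, 0, zero_mem _, ?_⟩
    linear_combination (1 - α * l) * h0 + l ^ 2 * hα
  obtain ⟨r, hr, -, w, hw, -, hrw⟩ := k2 S _ hA (1 + α * l) (add_mem (one_mem _) (mul_mem hαF hlF)) h0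
  obtain ⟨r₁, hr₁, r₂, hr₂, rfl⟩ := norm_step_adjoin E c hc α hα hαE r hr
  set αc : algebraicClosure κ Ω := ⟨α, mem_algebraicClosure_iff.2 hαalg⟩ with hαc
  obtain ⟨τ₀, hτ₀E, hτ₀α⟩ := exists_move (κ := κ) (E : Set Ω) hE αc (by
    rw [IntermediateField.adjoin_self]
    exact hαE)
  -- an automorphism which fixes `E` maps `α` to `± α`
  have hpm : ∀ τ : algebraicClosure κ Ω ≃ₐ[κ] algebraicClosure κ Ω,
      (∀ x : algebraicClosure κ Ω, (x : Ω) ∈ (E : Set Ω) → τ x = x) → τ αc = αc ∨ τ αc = -αc := by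
    intro τ hτ
    refine sq_eq_sq_iff_eq_or_eq_neg.1 ?_
    rw [← map_pow]
    refine hτ _ ?_
    have h1 : ((αc ^ 2 : algebraicClosure κ Ω) : Ω) = -c := hα
    rw [h1]
    exact E.neg_mem hc
  have hτ₀n : τ₀ αc = -αc := (hpm τ₀ hτ₀E).resolve_left hτ₀α
  have hfixA : ∀ τ : algebraicClosure κ Ω ≃ₐ[κ] algebraicClosure κ Ω,
      (∀ x : algebraicClosure κ Ω, (x : Ω) ∈ (E : Set Ω) → τ x = x) → τ αc = αc →
      S.s τ w = w := by
    intro τ hτ h1
    refine hw τ ?_
    rintro x (hx | hx)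
    · exact hτ x hx
    · rw [Set.mem_singleton_iff] at hx
      have : x = αc := Subtype.ext hx
      rw [this]
      exact h1
  have hinv : ∀ x : algebraicClosure κ Ω, (x : Ω) ∈ (E : Set Ω) → τ₀⁻¹ x = x := by
    intro x hx
    calc τ₀⁻¹ x = τ₀⁻¹ (τ₀ x) := by rw [hτ₀E x hx]
      _ = x := by rw [← AlgEquiv.mul_apply, inv_mul_cancel, AlgEquiv.one_apply]
  have hinvα : τ₀⁻¹ αc = -αc := by
    have h1 : τ₀⁻¹ (τ₀ αc) = αc := by
      rw [← AlgEquiv.mul_apply, inv_mul_cancel, AlgEquiv.one_apply]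
    rw [hτ₀n, map_neg] at h1
    rw [← h1, neg_neg]
    exact congrArg _ h1
  have hsα : S.s τ₀ α = -α := by
    have h1 := S.res τ₀ αc
    rw [hτ₀n] at h1
    exact h1
  have hsE : ∀ x ∈ E, S.s τ₀ x = x := by
    intro x hx
    have h1 := S.res τ₀ ⟨x, mem_algebraicClosure_iff.2 (hE x hx)⟩
    rw [hτ₀E _ hx] at h1
    exact h1
  have h1 : 1 - α * l = (r₁ - r₂ * α) * (S.s τ₀ w) ^ 2 := by
    have h2 := congrArg (S.s τ₀) hrw
    rw [map_add, map_one, map_mul, map_mul, map_add, map_mul, map_pow, hsα, hl τ₀ hτ₀E, hsE r₁ hr₁,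
      hsE r₂ hr₂] at h2
    linear_combination h2
  refine ⟨r₁, hr₁, r₂, hr₂, w * S.s τ₀ w, ?_, ?_⟩
  · intro τ hτ
    rw [map_mul]
    rcases hpm τ hτ with h3 | h3
    · rw [hfixA τ hτ h3]
      have h4 : S.s (τ₀⁻¹ * τ * τ₀) w = w := by
        refine hfixA _ ?_ ?_
        · intro x hx
          rw [AlgEquiv.mul_apply, AlgEquiv.mul_apply, hτ₀E x hx, hτ x hx, hinv x hx]
        · rw [AlgEquiv.mul_apply, AlgEquiv.mul_apply, hτ₀n, map_neg, h3, map_neg, hinvα, neg_neg]
      have h5 : S.s τ (S.s τ₀ w) = S.s τ₀ w := by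
        calc S.s τ (S.s τ₀ w) = S.s (τ₀ * (τ₀⁻¹ * τ * τ₀)) w := by
              rw [show τ₀ * (τ₀⁻¹ * τ * τ₀) = τ * τ₀ by group, map_mul, RingAut.mul_apply]
          _ = S.s τ₀ w := by rw [map_mul, RingAut.mul_apply, h4]
      rw [h5]
    · have h4 : S.s (τ₀⁻¹ * τ) w = w := by
        refine hfixA _ ?_ ?_
        · intro x hx
          rw [AlgEquiv.mul_apply, hτ x hx, hinv x hx]
        · rw [AlgEquiv.mul_apply, h3, map_neg, hinvα, neg_neg]
      have h5 : S.s τ w = S.s τ₀ w := by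
        calc S.s τ w = S.s (τ₀ * (τ₀⁻¹ * τ)) w := by
              rw [show τ₀ * (τ₀⁻¹ * τ) = τ by group]
          _ = S.s τ₀ w := by rw [map_mul, RingAut.mul_apply, h4]
      have h6 : S.s (τ * τ₀) w = w := by
        refine hfixA _ ?_ ?_
        · intro x hx
          rw [AlgEquiv.mul_apply, hτ₀E x hx, hτ x hx]
        · rw [AlgEquiv.mul_apply, hτ₀n, map_neg, h3, neg_neg]
      rw [map_mul, RingAut.mul_apply] at h6
      rw [h5, h6, mul_comm]
  · have h2 : 1 + c * l ^ 2 = (1 + α * l) * (1 - α * l) := by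
      linear_combination l ^ 2 * hα
    rw [h2, hrw, h1]
    linear_combination (-(r₂ ^ 2) * (w * S.s τ₀ w) ^ 2) * hα

/-- for finitely many (non normal) embeddings: elements `x_i` of `E`, `y_i` of the big field with `∑ y_i τ(x_i) = δ` -/
private theorem g4_dual {K : Type} [Field K] [Algebra κ K] (E : IntermediateField κ K) [FiniteDimensional κ E] :
    Finite ((K ≃ₐ[κ] K) ⧸ E.fixingSubgroup) ∧
    ∃ c : E →₀ K, ∀ τ : K ≃ₐ[κ] K, (τ ∈ E.fixingSubgroup → (c.sum fun x a => a * τ (x : K)) = 1) ∧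
      (τ ∉ E.fixingSubgroup → (c.sum fun x a => a * τ (x : K)) = 0) := by
  classical
  let N := E.fixingSubgroup
  have hmem : ∀ τ : K ≃ₐ[κ] K, τ ∈ N ↔ ∀ x : E, τ (x : K) = x := by
    intro τ
    rw [IntermediateField.mem_fixingSubgroup_iff]
    exact ⟨fun h x => h x x.2, fun h x hx => h ⟨x, hx⟩⟩
  let r : (K ≃ₐ[κ] K) → (E →ₐ[κ] K) := fun τ => (τ : K →ₐ[κ] K).comp E.val
  have hr : ∀ τ (x : E), r τ x = τ (x : K) := fun τ x => rfl
  have hrel : ∀ σ τ : K ≃ₐ[κ] K, r σ = r τ ↔ σ⁻¹ * τ ∈ N := by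
    intro σ τ
    rw [hmem]
    constructor
    · intro h x
      have h1 : σ (x : K) = τ (x : K) := by
        rw [← hr, ← hr, h]
      rw [AlgEquiv.mul_apply, ← h1, ← AlgEquiv.mul_apply, inv_mul_cancel, AlgEquiv.one_apply]
    · intro h
      ext x
      rw [hr, hr]
      have h1 := h x
      rw [AlgEquiv.mul_apply] at h1
      calc σ (x : K) = σ (σ⁻¹ (τ (x : K))) := by rw [h1]
        _ = τ (x : K) := by rw [← AlgEquiv.mul_apply, mul_inv_cancel, AlgEquiv.one_apply]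
  let χ : ((K ≃ₐ[κ] K) ⧸ N) → (E →ₐ[κ] K) := Quotient.lift r (by
    intro σ τ h
    rw [hrel]
    exact QuotientGroup.leftRel_apply.1 h)
  have hχ : ∀ τ : K ≃ₐ[κ] K, χ (τ : (K ≃ₐ[κ] K) ⧸ N) = r τ := fun τ => rfl
  have hinj : Function.Injective χ := by
    intro p q
    induction p using QuotientGroup.induction_on with
    | H σ =>
      induction q using QuotientGroup.induction_on with
      | H τ =>
        intro h
        rw [hχ, hχ, hrel] at h
        exact QuotientGroup.eq.2 h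
  have hfin : Finite ((K ≃ₐ[κ] K) ⧸ N) := Finite.of_injective χ hinj
  refine ⟨hfin, ?_⟩
  have := hfin
  have := Fintype.ofFinite ((K ≃ₐ[κ] K) ⧸ N)
  have hli : LinearIndependent K (fun q : (K ≃ₐ[κ] K) ⧸ N => ((fun x : E => χ q x) : E → K)) := by
    have h1 := (linearIndependent_monoidHom E K).comp
      (fun q : (K ≃ₐ[κ] K) ⧸ N => ((χ q : E →+* K) : E →* K)) (by
        intro p q h
        apply hinj
        ext x
        exact DFunLike.congr_fun h x)
    exact h1
  let v : E → (((K ≃ₐ[κ] K) ⧸ N) → K) := fun x q => χ q x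
  have hspan : Submodule.span K (Set.range v) = ⊤ := by
    by_contra hne
    obtain ⟨f, hf0, hf⟩ := Submodule.exists_le_ker_of_lt_top _ (lt_top_iff_ne_top.2 hne)
    apply hf0
    have hc : ∀ q, f (fun j => if q = j then 1 else 0) = 0 := by
      refine Fintype.linearIndependent_iff.1 hli (fun q => f (fun j => if q = j then 1 else 0)) ?_
      funext x
      have h1 : f (v x) = 0 := hf (Submodule.subset_span ⟨x, rfl⟩)
      rw [LinearMap.pi_apply_eq_sum_univ f (v x)] at h1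
      rw [Finset.sum_apply, Pi.zero_apply]
      refine Eq.trans (Finset.sum_congr rfl fun q _ => ?_) h1
      rw [Pi.smul_apply, smul_eq_mul, smul_eq_mul, mul_comm]
    refine LinearMap.ext fun g => ?_
    rw [LinearMap.pi_apply_eq_sum_univ f g, LinearMap.zero_apply]
    refine Finset.sum_eq_zero fun q _ => ?_
    rw [hc q, smul_zero]
  have hmem1 : (Pi.single ((1 : K ≃ₐ[κ] K) : (K ≃ₐ[κ] K) ⧸ N) (1 : K)) ∈ Submodule.span K (Set.range v) := by
    rw [hspan]
    exact Submodule.mem_top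
  rw [Finsupp.mem_span_range_iff_exists_finsupp] at hmem1
  obtain ⟨c, hc⟩ := hmem1
  refine ⟨c, fun τ => ?_⟩
  have hval : (c.sum fun x a => a * τ (x : K)) =
      (Pi.single ((1 : K ≃ₐ[κ] K) : (K ≃ₐ[κ] K) ⧸ N) (1 : K) : ((K ≃ₐ[κ] K) ⧸ N) → K) (τ : (K ≃ₐ[κ] K) ⧸ N) := by
    rw [← hc, Finsupp.sum, Finsupp.sum, Finset.sum_apply]
    refine Finset.sum_congr rfl fun x _ => ?_
    rw [Pi.smul_apply, smul_eq_mul]
    rfl
  rw [hval]
  constructor
  · intro h
    have h1 : (τ : (K ≃ₐ[κ] K) ⧸ N) = ((1 : K ≃ₐ[κ] K) : (K ≃ₐ[κ] K) ⧸ N) := by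
      refine (QuotientGroup.eq.2 ?_).symm
      rw [inv_one, one_mul]
      exact h
    rw [h1, Pi.single_eq_same]
  · intro h
    rw [Pi.single_eq_of_ne]
    intro h1
    apply h
    have h2 := QuotientGroup.eq.1 h1.symm
    rw [inv_one, one_mul] at h2
    exact h2

theorem span_kbar (S : Sec κ Ω) (z : Ω) : ∃ (n : ℕ) (c β : Fin n → Ω), (∀ i, c i ∈ S.F ∅) ∧ (∀ i, IsAlgebraic κ (β i)) ∧
    z = ∑ i, c i * β i := by
  classical
  obtain ⟨E, hE, hEz⟩ := S.cont z
  have := hE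
  obtain ⟨hfin, c, hc⟩ := g4_dual E
  have := hfin
  have := Fintype.ofFinite ((algebraicClosure κ Ω ≃ₐ[κ] algebraicClosure κ Ω) ⧸ E.fixingSubgroup)
  have hxE : ∀ (x : E) (τ : algebraicClosure κ Ω ≃ₐ[κ] algebraicClosure κ Ω), τ ∈ E.fixingSubgroup →
      S.s τ (((x : algebraicClosure κ Ω) : Ω) * z) = ((x : algebraicClosure κ Ω) : Ω) * z := by
    intro x τ hτ
    rw [map_mul, S.res, hEz τ hτ]
    rw [IntermediateField.mem_fixingSubgroup_iff] at hτ
    rw [hτ _ x.2]
  have hrep : ∀ w : Ω, (∀ τ ∈ E.fixingSubgroup, S.s τ w = w) →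
      ∀ τ : algebraicClosure κ Ω ≃ₐ[κ] algebraicClosure κ Ω,
      S.s (Quotient.out (τ : (algebraicClosure κ Ω ≃ₐ[κ] algebraicClosure κ Ω) ⧸ E.fixingSubgroup)) w = S.s τ w := by
    intro w hw τ
    have h1 : (τ : (algebraicClosure κ Ω ≃ₐ[κ] algebraicClosure κ Ω) ⧸ E.fixingSubgroup) =
        ((Quotient.out (τ : (algebraicClosure κ Ω ≃ₐ[κ] algebraicClosure κ Ω) ⧸ E.fixingSubgroup) :
          algebraicClosure κ Ω ≃ₐ[κ] algebraicClosure κ Ω) :
          (algebraicClosure κ Ω ≃ₐ[κ] algebraicClosure κ Ω) ⧸ E.fixingSubgroup) :=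
      (QuotientGroup.out_eq' _).symm
    have h2 := hw _ (QuotientGroup.eq.1 h1)
    rw [map_mul, RingAut.mul_apply] at h2
    have h3 := congrArg (S.s τ) h2
    rw [← RingAut.mul_apply, ← map_mul, mul_inv_cancel, map_one] at h3
    exact h3
  let T : E → Ω := fun x => ∑ q : (algebraicClosure κ Ω ≃ₐ[κ] algebraicClosure κ Ω) ⧸ E.fixingSubgroup,
    S.s (Quotient.out q) (((x : algebraicClosure κ Ω) : Ω) * z)
  have hT : ∀ x, T x ∈ S.F ∅ := by
    intro x τ _
    show S.s τ (∑ q : (algebraicClosure κ Ω ≃ₐ[κ] algebraicClosure κ Ω) ⧸ E.fixingSubgroup,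
      S.s (Quotient.out q) (((x : algebraicClosure κ Ω) : Ω) * z)) = _
    rw [map_sum]
    refine Fintype.sum_equiv (MulAction.toPerm τ) _ _ fun q => ?_
    rw [← RingAut.mul_apply, ← map_mul, MulAction.toPerm_apply]
    rw [← hrep _ (fun ρ hρ => hxE x ρ hρ) (τ * Quotient.out q)]
    have h1 : ((τ * Quotient.out q : algebraicClosure κ Ω ≃ₐ[κ] algebraicClosure κ Ω) :
        (algebraicClosure κ Ω ≃ₐ[κ] algebraicClosure κ Ω) ⧸ E.fixingSubgroup) = τ • q := by
      conv_rhs => rw [← QuotientGroup.out_eq' q]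
      rfl
    rw [h1]
  have hz : z = ∑ x ∈ c.support, T x * ((c x : algebraicClosure κ Ω) : Ω) := by
    have h1 : ∀ q : (algebraicClosure κ Ω ≃ₐ[κ] algebraicClosure κ Ω) ⧸ E.fixingSubgroup,
        ∑ x ∈ c.support, S.s (Quotient.out q) (((x : algebraicClosure κ Ω) : Ω) * z) *
          ((c x : algebraicClosure κ Ω) : Ω) =
        ((c.sum fun x a => a * (Quotient.out q) (x : algebraicClosure κ Ω) : algebraicClosure κ Ω) : Ω) *
          S.s (Quotient.out q) z := by
      intro q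
      rw [Finsupp.sum, AddSubmonoidClass.coe_finsetSum, Finset.sum_mul]
      refine Finset.sum_congr rfl fun x _ => ?_
      rw [map_mul, S.res]
      show _ = ((c x : algebraicClosure κ Ω) : Ω) * (((Quotient.out q) (x : algebraicClosure κ Ω) : algebraicClosure κ Ω) : Ω) * _
      ring
    show z = ∑ x ∈ c.support, (∑ q : (algebraicClosure κ Ω ≃ₐ[κ] algebraicClosure κ Ω) ⧸ E.fixingSubgroup,
      S.s (Quotient.out q) (((x : algebraicClosure κ Ω) : Ω) * z)) * ((c x : algebraicClosure κ Ω) : Ω)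
    simp_rw [Finset.sum_mul]
    rw [Finset.sum_comm]
    simp_rw [h1]
    rw [Finset.sum_eq_single ((1 : algebraicClosure κ Ω ≃ₐ[κ] algebraicClosure κ Ω) :
      (algebraicClosure κ Ω ≃ₐ[κ] algebraicClosure κ Ω) ⧸ E.fixingSubgroup)]
    · have h2 : Quotient.out ((1 : algebraicClosure κ Ω ≃ₐ[κ] algebraicClosure κ Ω) :
          (algebraicClosure κ Ω ≃ₐ[κ] algebraicClosure κ Ω) ⧸ E.fixingSubgroup) ∈ E.fixingSubgroup := by
        have h3 := QuotientGroup.out_eq' ((1 : algebraicClosure κ Ω ≃ₐ[κ] algebraicClosure κ Ω) :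
          (algebraicClosure κ Ω ≃ₐ[κ] algebraicClosure κ Ω) ⧸ E.fixingSubgroup)
        have h4 := QuotientGroup.eq.1 h3.symm
        rwa [inv_one, one_mul] at h4
      rw [(hc _).1 h2, hEz _ h2]
      simp
    · intro q _ hq
      have h2 : Quotient.out q ∉ E.fixingSubgroup := by
        intro h3
        apply hq
        rw [← QuotientGroup.out_eq' q]
        refine (QuotientGroup.eq.2 ?_).symm
        rwa [inv_one, one_mul]
      rw [(hc _).2 h2]
      simp
    · intro h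
      exact absurd (Finset.mem_univ _) h
  refine ⟨c.support.card, fun i => T (c.support.equivFin.symm i : E),
    fun i => ((c (c.support.equivFin.symm i : E) : algebraicClosure κ Ω) : Ω), fun i => hT _, fun i => ?_, ?_⟩
  · exact mem_algebraicClosure_iff.1 (c (c.support.equivFin.symm i : E)).2
  · rw [hz, ← Finset.sum_coe_sort c.support (fun x => T x * ((c x : algebraicClosure κ Ω) : Ω))]
    exact (Equiv.sum_comp c.support.equivFin.symm (fun x : c.support => T x * ((c x : algebraicClosure κ Ω) : Ω))).symm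

end BSC
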