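import Mathlib

/-!
# Polynomials: square classes of `N - e D` against squarefree polynomials

`N`, `D` are coprime with `N' D - N D' ≠ 0`, `f e` is squarefree and `f e (N - e D) D` is a square. The degree of
`N/D` is bounded by the degrees of the `f e` (Mason-Stothers argument), and for two values `i ≠ j` the polynomials
`f i (N - j D)` and `f j (N - i D)` are associated.
-/

set_option autoImplicit false

open Polynomial

namespace BSC

section
variable {F : Type} [Field F]

/-- two squarefree polynomials whose product is a unit times a square are associated -/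
theorem gp_assoc {a b s : F[X]} (ha : Squarefree a) (hb : Squarefree b) (h : Associated (a * b) (s ^ 2)) :
    Associated a b := by
  classical
  let _ : GCDMonoid F[X] := EuclideanDomain.gcdMonoid _
  have hA : a ≠ 0 := ha.ne_zero
  have hB : b ≠ 0 := hb.ne_zero
  obtain ⟨a', b', h1, h2, h3⟩ := extract_gcd a b
  set G := gcd a b with hG
  have hG0 : G ≠ 0 := by
    intro h0
    rw [h0, zero_mul] at h1
    exact hA h1
  have hc : IsCoprime a' b' := (gcd_isUnit_iff a' b').1 h3
  obtain ⟨u, hu⟩ := h
  have h4 : G ^ 2 ∣ s ^ 2 := ⟨a' * b' * u, by rw [← hu, h1, h2]; ring⟩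
  have h5 : G ∣ s := (IsIntegrallyClosed.pow_dvd_pow_iff two_ne_zero).1 h4
  obtain ⟨s', rfl⟩ := h5
  have h6 : a' * (b' * u) = s' ^ 2 := by
    have : G ^ 2 * (a' * (b' * u)) = G ^ 2 * s' ^ 2 := by
      rw [← mul_pow, ← hu]
      conv_rhs => rw [h1, h2]
      ring
    exact mul_left_cancel₀ (pow_ne_zero 2 hG0) this
  have hc' : IsCoprime a' (b' * u) := by
    refine IsCoprime.mul_right hc ?_
    exact isCoprime_one_right.of_isCoprime_of_dvd_right (u.isUnit.dvd)
  have ha' : IsUnit a' := by
    obtain ⟨t, ht⟩ := exists_associated_pow_of_mul_eq_pow' hc' h6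
    have h7 : t * t ∣ a := by
      rw [← sq]
      exact ht.dvd.trans ⟨G, by rw [mul_comm]; exact h1⟩
    have h8 := ha t h7
    exact ht.isUnit (h8.pow 2)
  have hb' : IsUnit b' := by
    have h6' : (b' * u) * a' = s' ^ 2 := by rw [mul_comm]; exact h6
    obtain ⟨t, ht⟩ := exists_associated_pow_of_mul_eq_pow' hc'.symm h6'
    have h7 : t * t ∣ b := by
      rw [← sq]
      refine ht.dvd.trans ⟨G * (u⁻¹ : F[X]ˣ), ?_⟩
      rw [h2]
      have : (u : F[X]) * ((u⁻¹ : F[X]ˣ) : F[X]) = 1 := Units.mul_inv u
      linear_combination (-(b' * G)) * this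
    have h8 := hb t h7
    have h9 : IsUnit (b' * u) := ht.isUnit (h8.pow 2)
    exact isUnit_of_mul_isUnit_left h9
  rw [h1, h2]
  exact (associated_mul_unit_left _ _ ha').trans (associated_mul_unit_left _ _ hb').symm

/-- splitting of `f P D = s²` -/
theorem gp_split {f P D s : F[X]} (hf : f ≠ 0) (hPD : IsCoprime P D) (h : f * P * D = s ^ 2) :
    ∃ Q R T S S' : F[X], f = Q * T ∧ P = Q * R ∧ Associated (S ^ 2) R ∧
      Associated (S' ^ 2) (T * D) := by
  classical
  let _ : GCDMonoid F[X] := EuclideanDomain.gcdMonoid _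
  obtain ⟨T, R, h1, h2, h3⟩ := extract_gcd f P
  set Q := gcd f P with hQ
  have hQ0 : Q ≠ 0 := by
    intro h0
    rw [h0, zero_mul] at h1
    exact hf h1
  have hc : IsCoprime T R := (gcd_isUnit_iff T R).1 h3
  have h4 : Q ^ 2 ∣ s ^ 2 := ⟨T * R * D, by rw [← h]; conv_lhs => rw [h1, h2]
                                            ring⟩
  have h5 : Q ∣ s := (IsIntegrallyClosed.pow_dvd_pow_iff two_ne_zero).1 h4
  obtain ⟨s', rfl⟩ := h5
  have h6 : R * (T * D) = s' ^ 2 := by
    have : Q ^ 2 * (R * (T * D)) = Q ^ 2 * s' ^ 2 := by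
      rw [← mul_pow, ← h]
      conv_rhs => rw [h1, h2]
      ring
    exact mul_left_cancel₀ (pow_ne_zero 2 hQ0) this
  have hRD : IsCoprime R D := hPD.of_isCoprime_of_dvd_left ⟨Q, by rw [mul_comm]; exact h2⟩
  have hR : IsCoprime R (T * D) := IsCoprime.mul_right hc.symm hRD
  obtain ⟨S, hS⟩ := exists_associated_pow_of_mul_eq_pow' hR h6
  have h6' : (T * D) * R = s' ^ 2 := by rw [mul_comm]; exact h6
  obtain ⟨S', hS'⟩ := exists_associated_pow_of_mul_eq_pow' hR.symm h6'
  exact ⟨Q, R, T, S, S', h1, h2, hS, hS'⟩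

/-- different values are coprime -/
theorem gp_coprime {N D : F[X]} (hND : IsCoprime N D) {a b : F} (hab : a ≠ b) :
    IsCoprime (N - C a * D) (N - C b * D) := by
  obtain ⟨x, y, hxy⟩ := hND
  have h0 : b - a ≠ 0 := sub_ne_zero.2 hab.symm
  have hc : C (b - a)⁻¹ * (C b - C a) = (1 : F[X]) := by
    rw [← C_sub, ← C_mul, inv_mul_cancel₀ h0, C_1]
  refine ⟨C (b - a)⁻¹ * (x * C b + y), C (b - a)⁻¹ * (-(x * C a) - y), ?_⟩
  calc C (b - a)⁻¹ * (x * C b + y) * (N - C a * D) + C (b - a)⁻¹ * (-(x * C a) - y) * (N - C b * D)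
      = (C (b - a)⁻¹ * (C b - C a)) * (x * N + y * D) := by ring
    _ = 1 := by rw [hc, hxy, one_mul]

/-- squares dividing `N - a D` divide the Wronskian -/
theorem gp_dvd {N D S : F[X]} {a : F} (h : S ^ 2 ∣ N - C a * D) :
    S ∣ derivative N * D - N * derivative D := by
  have h1 : S ∣ N - C a * D := (dvd_pow_self S two_ne_zero).trans h
  have h2 : S ∣ derivative (N - C a * D) := by
    have := pow_sub_one_dvd_derivative_of_pow_dvd h
    simpa using this
  have h3 : derivative N * D - N * derivative D =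
      derivative (N - C a * D) * D - (N - C a * D) * derivative D := by
    simp only [derivative_sub, derivative_mul, derivative_C, zero_mul, zero_add]
    ring
  rw [h3]
  exact dvd_sub (h2.mul_right _) (h1.mul_right _)

theorem gp_coprime_D {N D : F[X]} (hND : IsCoprime N D) (a : F) : IsCoprime (N - C a * D) D := by
  have h := hND.add_mul_right_left (-C a)
  have e : N - C a * D = N + -C a * D := by ring
  rw [e]
  exact h

theorem gp_ne {N D : F[X]} (hW : derivative N * D - N * derivative D ≠ 0) (a : F) :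
    N - C a * D ≠ 0 := by
  intro h
  have h1 : N = C a * D := sub_eq_zero.1 h
  apply hW
  rw [h1]
  simp only [derivative_mul, derivative_C, zero_mul, zero_add]
  ring

/-- **Step 1 and 2**: the degree bound, and two values with associated products -/
theorem gp_main {N D : F[X]} {d n : ℕ} (hND : IsCoprime N D)
    (hW : derivative N * D - N * derivative D ≠ 0) (hN : N.natDegree ≤ d) (hD : D.natDegree ≤ d)
    (hc : N.coeff d ≠ 0 ∨ D.coeff d ≠ 0) (hn : ∀ i < n, ∀ j < n, (i : F) = j → i = j)
    (f : ℕ → F[X]) (hf : ∀ i < n, Squarefree (f i))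
    (hs : ∀ i < n, ∃ s, f i * (N - C (i : F) * D) * D = s ^ 2) :
    (6 ≤ n → d ≤ ∑ i ∈ Finset.range 6, (f i).natDegree) ∧
    (2 * d + 1 ≤ n → ∃ i < n, ∃ j < n, i ≠ j ∧
      Associated (f i * (N - C (j : F) * D)) (f j * (N - C (i : F) * D))) := by
  classical
  have hsplit : ∀ i : ℕ, i < n → ∃ Q R T S S' : F[X], f i = Q * T ∧ N - C (i : F) * D = Q * R ∧
      Associated (S ^ 2) R ∧ Associated (S' ^ 2) (T * D) := fun i hi => by
    obtain ⟨s, h⟩ := hs i hi
    exact gp_split (hf i hi).ne_zero (gp_coprime_D hND _) h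
  choose! Q R T S S' h1 h2 h3 h4 using hsplit
  have hP0 : ∀ i : ℕ, N - C (i : F) * D ≠ 0 := fun i => gp_ne hW _
  have hR0 : ∀ i < n, R i ≠ 0 := fun i hi h0 => hP0 i (by rw [h2 i hi, h0, mul_zero])
  have hQ0 : ∀ i < n, Q i ≠ 0 := fun i hi h0 => hP0 i (by rw [h2 i hi, h0, zero_mul])
  have hT0 : ∀ i < n, T i ≠ 0 := fun i hi h0 => (hf i hi).ne_zero (by rw [h1 i hi, h0, mul_zero])
  have hS0 : ∀ i < n, S i ≠ 0 := fun i hi h0 => hR0 i hi (by
    have := h3 i hi
    rw [h0, zero_pow two_ne_zero] at this
    exact associated_zero_iff_eq_zero _ |>.1 this.symm)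
  have hD0 : D ≠ 0 := by
    rintro rfl
    simp at hW
  have hSR : ∀ i < n, S i ^ 2 ∣ N - C (i : F) * D := fun i hi => by
    rw [h2 i hi]
    exact (h3 i hi).dvd.mul_left _
  -- degrees
  have hdR : ∀ i < n, (R i).natDegree = 2 * (S i).natDegree := fun i hi => by
    rw [← natDegree_eq_of_degree_eq (degree_eq_degree_of_associated (h3 i hi)), natDegree_pow]
  have hdP : ∀ i < n, (N - C (i : F) * D).natDegree ≤ (f i).natDegree + 2 * (S i).natDegree :=
    fun i hi => by
    rw [h2 i hi, natDegree_mul (hQ0 i hi) (hR0 i hi), hdR i hi]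
    have : (Q i).natDegree ≤ (f i).natDegree :=
      natDegree_le_of_dvd ⟨T i, h1 i hi⟩ (hf i hi).ne_zero
    omega
  have hWd : (derivative N * D - N * derivative D).natDegree < 2 * d := by
    have e : wronskian N D = -(derivative N * D - N * derivative D) := by
      unfold wronskian
      ring
    have hw : wronskian N D ≠ 0 := by rw [e]; exact neg_ne_zero.2 hW
    have := natDegree_wronskian_lt_add hw
    rw [e, natDegree_neg] at this
    omega
  have hsum : ∀ m ≤ n, ∑ i ∈ Finset.range m, (S i).natDegree < 2 * d := fun m hm => by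
    have hlt : ∀ i ∈ Finset.range m, i < n := fun i hi => (Finset.mem_range.1 hi).trans_le hm
    have hdvd : ∏ i ∈ Finset.range m, S i ∣ derivative N * D - N * derivative D := by
      refine Finset.prod_dvd_of_coprime ?_ fun i hi => gp_dvd (hSR i (hlt i hi))
      intro i hi j hj hij
      have hi' := hlt i hi
      have hj' := hlt j hj
      have hne : (i : F) ≠ j := fun h => hij (hn i hi' j hj' h)
      exact (gp_coprime hND hne).of_isCoprime_of_dvd_left
        ((dvd_pow_self _ two_ne_zero).trans (hSR i hi')) |>.of_isCoprime_of_dvd_right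
        ((dvd_pow_self _ two_ne_zero).trans (hSR j hj'))
    have h5 := natDegree_le_of_dvd hdvd hW
    rw [natDegree_prod _ _ fun i hi => hS0 i (hlt i hi)] at h5
    omega
  constructor
  · intro h6
    -- one exception
    obtain ⟨i0, hi0⟩ : ∃ i0 : ℕ, ∀ i < n, i ≠ i0 → d ≤ (N - C (i : F) * D).natDegree := by
      by_cases hex : ∃ i0 < n, (N - C (i0 : F) * D).coeff d = 0
      · obtain ⟨i0, hi0, h0⟩ := hex
        refine ⟨i0, fun i hi hne => le_natDegree_of_ne_zero fun h00 => ?_⟩
        simp only [coeff_sub, coeff_C_mul] at h0 h00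
        have h7 : ((i : F) - i0) * D.coeff d = 0 := by linear_combination h0 - h00
        rcases mul_eq_zero.1 h7 with h8 | h8
        · exact hne (hn i hi i0 hi0 (sub_eq_zero.1 h8))
        · rw [h8, mul_zero, sub_zero] at h0
          rcases hc with h9 | h9
          · exact h9 h0
          · exact h9 h8
      · push Not at hex
        exact ⟨0, fun i hi _ => le_natDegree_of_ne_zero (hex i hi)⟩
    have h7 : 5 * d ≤ ∑ i ∈ Finset.range 6, (N - C (i : F) * D).natDegree := by
      calc 5 * d ≤ ((Finset.range 6).erase i0).card * d := by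
            refine Nat.mul_le_mul_right _ ?_
            have := Finset.pred_card_le_card_erase (s := Finset.range 6) (a := i0)
            rw [Finset.card_range] at this
            exact this
        _ = ∑ i ∈ (Finset.range 6).erase i0, d := by simp
        _ ≤ ∑ i ∈ (Finset.range 6).erase i0, (N - C (i : F) * D).natDegree := by
            refine Finset.sum_le_sum fun i hi => ?_
            rw [Finset.mem_erase, Finset.mem_range] at hi
            exact hi0 i (by omega) hi.1
        _ ≤ _ := Finset.sum_le_sum_of_subset (Finset.erase_subset _ _)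
    have h8 : ∑ i ∈ Finset.range 6, (N - C (i : F) * D).natDegree ≤
        ∑ i ∈ Finset.range 6, (f i).natDegree + 2 * ∑ i ∈ Finset.range 6, (S i).natDegree := by
      rw [Finset.mul_sum, ← Finset.sum_add_distrib]
      refine Finset.sum_le_sum fun i hi => hdP i ?_
      have := Finset.mem_range.1 hi
      omega
    have h9 := hsum 6 h6
    omega
  · intro h6
    have hB : 1 < ((Finset.range n).filter fun i => (S i).natDegree = 0).card := by
      have h7 := Finset.card_filter_add_card_filter_not (s := Finset.range n)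
        (fun i => (S i).natDegree = 0)
      rw [Finset.card_range] at h7
      have h8 : ((Finset.range n).filter fun i => ¬ (S i).natDegree = 0).card < 2 * d := by
        calc ((Finset.range n).filter fun i => ¬ (S i).natDegree = 0).card
            = ∑ i ∈ (Finset.range n).filter fun i => ¬ (S i).natDegree = 0, 1 := by simp
          _ ≤ ∑ i ∈ (Finset.range n).filter fun i => ¬ (S i).natDegree = 0, (S i).natDegree := by
              refine Finset.sum_le_sum fun i hi => ?_
              have := (Finset.mem_filter.1 hi).2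
              omega
          _ ≤ ∑ i ∈ Finset.range n, (S i).natDegree :=
              Finset.sum_le_sum_of_subset (Finset.filter_subset _ _)
          _ < 2 * d := hsum n le_rfl
      omega
    obtain ⟨i, hi, j, hj, hij⟩ := Finset.one_lt_card.1 hB
    rw [Finset.mem_filter, Finset.mem_range] at hi hj
    obtain ⟨hi, hi'⟩ := hi
    obtain ⟨hj, hj'⟩ := hj
    have hu : ∀ k < n, (S k).natDegree = 0 → IsUnit (R k) := fun k hk h0 => by
      have h7 : IsUnit (S k) := by
        rw [isUnit_iff_degree_eq_zero, degree_eq_natDegree (hS0 k hk), h0]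
        rfl
      exact (h3 k hk).isUnit (h7.pow 2)
    have hRi := hu i hi hi'
    have hRj := hu j hj hj'
    have hTT : Associated (T i) (T j) := by
      have h7 := (h4 i hi).mul_mul (h4 j hj)
      have e1 : T i * D * (T j * D) = D ^ 2 * (T i * T j) := by ring
      rw [e1, ← mul_pow] at h7
      have h8 : D ^ 2 ∣ (S' i * S' j) ^ 2 := (Dvd.intro _ rfl).trans h7.symm.dvd
      obtain ⟨t, ht⟩ := (IsIntegrallyClosed.pow_dvd_pow_iff two_ne_zero).1 h8
      rw [ht, mul_pow] at h7
      have h9 : Associated (t ^ 2) (T i * T j) :=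
        Associated.of_mul_left h7 (Associated.refl _) (pow_ne_zero 2 hD0)
      exact gp_assoc ((hf i hi).squarefree_of_dvd ⟨Q i, by rw [mul_comm]; exact h1 i hi⟩)
        ((hf j hj).squarefree_of_dvd ⟨Q j, by rw [mul_comm]; exact h1 j hj⟩) h9.symm
    refine ⟨i, hi, j, hj, hij, ?_⟩
    rw [h2 i hi, h2 j hj, h1 i hi, h1 j hj]
    have e1 : Q i * T i * (Q j * R j) = Q i * Q j * (T i * R j) := by ring
    have e2 : Q j * T j * (Q i * R i) = Q i * Q j * (T j * R i) := by ring
    rw [e1, e2]
    refine (Associated.refl _).mul_mul (hTT.mul_mul ?_)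
    exact associated_of_dvd_dvd (hRj.dvd) (hRi.dvd)

end

end BSC
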