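import Pool.Agent.Lib_MP_49ddc8.Gp1

/-!
# The global part: from reductions at one good prime to constant square classes

`M` is a subfield of `Ω` (the fixed field of the section), `u` the variable of `k(u)`.  `GRed` is the package of the
local part at one prime `p`: a subring `R` of `k` with a homomorphism to `ℤ/p`, a valuation ring `W` of `Ω` above the
Gauss valuation, such that the elements of `M ∩ W` have reductions in `(ℤ/p)(u)`, and square classes are compatible.
-/

set_option autoImplicit false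

open Polynomial

namespace BSC

section

variable (k Ω : Type) [Field k] [Field Ω] [Algebra (RatFunc k) Ω]

/-- the value of a polynomial at `u` -/
noncomputable def gev : k[X] →+* Ω := (algebraMap (RatFunc k) Ω).comp (algebraMap k[X] (RatFunc k))

/-- the value at `u` of a polynomial with coefficients in the subring `R` -/
noncomputable def gevR (R : Subring k) : R[X] →+* Ω := (gev k Ω).comp (mapRingHom R.subtype)

/-- the local package at one prime -/
structure GRed (M : Subfield Ω) {p : ℕ} (R : Subring k) (ρ : R →+* ZMod p) (W : ValuationSubring Ω) : Prop where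
  mem : ∀ f : R[X], gevR k Ω R f ∈ W
  red : ∀ f : R[X], W.valuation (gevR k Ω R f) < 1 ↔ f.map ρ = 0
  rat : ∀ x ∈ M, x ∈ W → ∃ a b : R[X], b.map ρ ≠ 0 ∧ W.valuation (gevR k Ω R b * x - gevR k Ω R a) < 1
  sq : ∀ f g : R[X], f.map ρ ≠ 0 → g.map ρ ≠ 0 → ∀ m ∈ M,
    W.valuation (gevR k Ω R f * m ^ 2 - gevR k Ω R g) < 1 → ∃ s, f.map ρ * g.map ρ = s ^ 2

end

section

variable {k Ω : Type} [Field k] [Field Ω] [Algebra (RatFunc k) Ω]

theorem gev_injective : Function.Injective (gev k Ω) :=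
  (algebraMap (RatFunc k) Ω).injective.comp (IsFractionRing.injective k[X] (RatFunc k))

theorem gev_ne {f : k[X]} (h : f ≠ 0) : gev k Ω f ≠ 0 := (map_ne_zero_iff _ gev_injective).2 h

private theorem vmul {W : ValuationSubring Ω} {a b : Ω} (ha : a ∈ W) (hb : W.valuation b < 1) :
    W.valuation (a * b) < 1 := by
  rw [map_mul]
  exact mul_lt_one_of_nonneg_of_lt_one_right ((W.valuation_le_one_iff a).2 ha) zero_le hb

private theorem vsub {W : ValuationSubring Ω} {a b : Ω} (ha : W.valuation a < 1) (hb : W.valuation b < 1) :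
    W.valuation (a - b) < 1 :=
  (Valuation.map_sub _ a b).trans_lt (max_lt ha hb)

variable {M : Subfield Ω} {p : ℕ} [Fact p.Prime] {R : Subring k} {ρ : R →+* ZMod p} {W : ValuationSubring Ω}

/-- the square class of `x - e` in the residue field -/
theorem GRed.class (h : GRed k Ω M R ρ W) {x : Ω} {a b : R[X]} {G N D : (ZMod p)[X]}
    (hab : W.valuation (gevR k Ω R b * x - gevR k Ω R a) < 1) (ha : a.map ρ = G * N) (hb : b.map ρ = G * D)
    (hG : G ≠ 0) (hD : D ≠ 0) {F : R[X]} (hF : F.map ρ ≠ 0) {m : Ω} (hm : m ∈ M) (e : ℕ)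
    (hx : x - e = gevR k Ω R F * m ^ 2) (hN : N - C (e : ZMod p) * D ≠ 0) :
    ∃ s, F.map ρ * (N - C (e : ZMod p) * D) * D = s ^ 2 := by
  have hg : (a - C (e : R) * b).map ρ = G * (N - C (e : ZMod p) * D) := by
    rw [Polynomial.map_sub, Polynomial.map_mul, map_C, ha, hb, map_natCast]
    ring
  have hf : (b * F).map ρ = G * D * F.map ρ := by
    rw [Polynomial.map_mul, hb]
  have hge : gevR k Ω R (C (e : R) * b) = e * gevR k Ω R b := by
    rw [map_mul, map_natCast C, map_natCast]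
  obtain ⟨s, hs⟩ := h.sq (b * F) (a - C (e : R) * b) (by
      rw [hf]; exact mul_ne_zero (mul_ne_zero hG hD) hF) (by
      rw [hg]; exact mul_ne_zero hG hN) m hm (by
      have e1 : gevR k Ω R (b * F) * m ^ 2 - gevR k Ω R (a - C (e : R) * b) =
          gevR k Ω R b * x - gevR k Ω R a := by
        rw [map_mul, map_sub, hge]
        linear_combination (-(gevR k Ω R b)) * hx
      rw [e1]
      exact hab)
  rw [hf, hg] at hs
  have h1 : G ^ 2 ∣ s ^ 2 := ⟨F.map ρ * (N - C (e : ZMod p) * D) * D, by rw [← hs]; ring⟩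
  obtain ⟨t, rfl⟩ := (IsIntegrallyClosed.pow_dvd_pow_iff two_ne_zero).1 h1
  refine ⟨t, mul_left_cancel₀ (pow_ne_zero 2 hG) ?_⟩
  linear_combination hs

/-- Case 1: constant reduction -/
theorem GRed.const (h : GRed k Ω M R ρ W) {z : Ω} {a b : R[X]} {c : ZMod p}
    (hab : W.valuation (gevR k Ω R b * z - gevR k Ω R a) < 1) (ha : a.map ρ = C c * b.map ρ)
    (hb : b.map ρ ≠ 0) {F : R[X]} (hF : Squarefree (F.map ρ)) {m : Ω} (hm : m ∈ M) (e : ℕ)
    (hx : z - e = gevR k Ω R F * m ^ 2) (hc : c ≠ e) : (F.map ρ).natDegree = 0 := by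
  obtain ⟨s, hs⟩ := h.class (N := C c) (D := 1) hab (by rw [ha, mul_comm]) (mul_one _).symm hb one_ne_zero
    hF.ne_zero hm e hx (by
      rw [mul_one, ← C_sub, Ne, C_eq_zero, sub_eq_zero]
      exact hc)
  rw [mul_one, mul_one, ← C_sub] at hs
  have hu : IsUnit (C (c - e) : (ZMod p)[X]) := isUnit_C.2 (isUnit_iff_ne_zero.2 (sub_ne_zero.2 hc))
  obtain ⟨v, hv⟩ := hu
  have h1 : s * s ∣ F.map ρ := by
    refine ⟨(v⁻¹ : ((ZMod p)[X])ˣ), ?_⟩
    rw [← pow_two, ← hs, ← hv, mul_assoc, Units.mul_inv, mul_one]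
  have h2 := hF s h1
  have h3 : IsUnit (F.map ρ * C (c - e)) := by
    rw [hs]
    exact h2.pow 2
  exact natDegree_eq_zero_of_isUnit (isUnit_of_mul_isUnit_left h3)

/-- Step 2: from the reduction of `x` with nonzero derivative to an element with constant reduction -/
theorem GRed.moebius (h : GRed k Ω M R ρ W) {x : Ω} {a b : R[X]} {G N D : (ZMod p)[X]}
    (hab : W.valuation (gevR k Ω R b * x - gevR k Ω R a) < 1) (ha : a.map ρ = G * N) (hb : b.map ρ = G * D)
    (hG : G ≠ 0) (hx : x ∈ W) {i j : ℕ} {Fi Fj : R[X]} (hFi : Fi.map ρ ≠ 0)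
    (hNj : N - C (j : ZMod p) * D ≠ 0)
    (has : Associated (Fi.map ρ * (N - C (j : ZMod p) * D)) (Fj.map ρ * (N - C (i : ZMod p) * D)))
    {z : Ω} (hz : z = (x - i) * gevR k Ω R Fj / ((x - j) * gevR k Ω R Fi)) :
    z ∈ W ∧ ∃ (a' b' : R[X]) (c : ZMod p), b'.map ρ ≠ 0 ∧ a'.map ρ = C c * b'.map ρ ∧
      W.valuation (gevR k Ω R b' * z - gevR k Ω R a') < 1 := by
  have hge : ∀ e : ℕ, gevR k Ω R (C (e : R) * b) = e * gevR k Ω R b := fun e => by
    rw [map_mul, map_natCast C, map_natCast]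
  have hred : ∀ e : ℕ, (a - C (e : R) * b).map ρ = G * (N - C (e : ZMod p) * D) := fun e => by
    rw [Polynomial.map_sub, Polynomial.map_mul, map_C, ha, hb, map_natCast]
    ring
  set μ : Ω := gevR k Ω R b * x - gevR k Ω R a with hμ
  have hb'0 : ((a - C (j : R) * b) * Fi).map ρ ≠ 0 := by
    rw [Polynomial.map_mul, hred]
    exact mul_ne_zero (mul_ne_zero hG hNj) hFi
  -- the denominator is a unit of `W`
  have hden : gevR k Ω R ((a - C (j : R) * b) * Fi) =
      gevR k Ω R b * ((x - j) * gevR k Ω R Fi) - μ * gevR k Ω R Fi := by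
    rw [map_mul, map_sub, hge, hμ]
    ring
  have hv1 : W.valuation (gevR k Ω R ((a - C (j : R) * b) * Fi)) = 1 := by
    refine le_antisymm ((W.valuation_le_one_iff _).2 (h.mem _)) (not_lt.1 fun hlt => hb'0 ((h.red _).1 hlt))
  have hμF : W.valuation (μ * gevR k Ω R Fi) < 1 := by
    rw [mul_comm]
    exact vmul (h.mem _) hab
  have hv2 : W.valuation (gevR k Ω R b * ((x - j) * gevR k Ω R Fi)) = 1 := by
    have e1 : gevR k Ω R b * ((x - j) * gevR k Ω R Fi) =
        gevR k Ω R ((a - C (j : R) * b) * Fi) + μ * gevR k Ω R Fi := by rw [hden]; ring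
    rw [e1, ← hv1]
    refine Valuation.map_add_eq_of_lt_left _ ?_
    rw [hv1]
    exact hμF
  have hne : gevR k Ω R b * ((x - j) * gevR k Ω R Fi) ≠ 0 := fun h0 => by
    rw [h0, map_zero] at hv2
    exact zero_ne_one hv2
  have hz1 : gevR k Ω R b * ((x - j) * gevR k Ω R Fi) * z = gevR k Ω R b * ((x - i) * gevR k Ω R Fj) := by
    have h1 : (x - j) * gevR k Ω R Fi ≠ 0 := right_ne_zero_of_mul hne
    rw [hz, mul_assoc, mul_div_cancel₀ _ h1]
  have hnat : ∀ e : ℕ, (e : Ω) ∈ W := fun e => natCast_mem W e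
  have hzW : z ∈ W := by
    have h2 : gevR k Ω R b * ((x - i) * gevR k Ω R Fj) ∈ W :=
      mul_mem (h.mem _) (mul_mem (sub_mem hx (hnat i)) (h.mem _))
    rw [← hz1, ← W.valuation_le_one_iff, map_mul, hv2, one_mul, W.valuation_le_one_iff] at h2
    exact h2
  obtain ⟨v, hv⟩ := has
  obtain ⟨c, hc, hcv⟩ : ∃ c : ZMod p, c ≠ 0 ∧ C c = (v : (ZMod p)[X]) := by
    obtain ⟨c, hc, h3⟩ := Polynomial.isUnit_iff.1 v.isUnit
    exact ⟨c, hc.ne_zero, h3⟩
  refine ⟨hzW, (a - C (i : R) * b) * Fj, (a - C (j : R) * b) * Fi, c, hb'0, ?_, ?_⟩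
  · rw [Polynomial.map_mul, Polynomial.map_mul, hred, hred, hcv]
    linear_combination (-G) * hv
  · have e2 : gevR k Ω R ((a - C (j : R) * b) * Fi) * z - gevR k Ω R ((a - C (i : R) * b) * Fj) =
        gevR k Ω R Fj * μ - (gevR k Ω R Fi * z) * μ := by
      rw [hden, sub_mul, hz1, map_mul, map_sub, hge, hμ]
      ring
    rw [e2]
    exact vsub (vmul (h.mem _) hab) (vmul (mul_mem (h.mem _) hzW) hab)

end

end BSC
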