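import Pool.Agent.Lib_MP_49ddc8.Gp2

/-!
# The global part: assembly

`glob`: if there are good reductions at arbitrarily large primes, for any prescribed finite set of units, then `M` contains an element `z`,
transcendental over `k(u)`, such that the square classes of four of the elements `z, z - 1, .., z - 4` are constant.
-/

set_option autoImplicit false

open Polynomial

namespace BSC

/-- squarefree part of a polynomial -/
theorem gp_sqfree_poly {k : Type} [Field k] : ∀ (n : ℕ) (P : k[X]), P ≠ 0 → P.natDegree ≤ n →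
    ∃ F Q : k[X], Squarefree F ∧ Q ≠ 0 ∧ P = F * Q ^ 2 := by
  intro n
  induction n using Nat.strong_induction_on with
  | _ n ih =>
    intro P hP hn
    by_cases hsq : Squarefree P
    · exact ⟨P, 1, hsq, one_ne_zero, by ring⟩
    · unfold Squarefree at hsq
      push Not at hsq
      obtain ⟨x, ⟨y, hy⟩, hx⟩ := hsq
      have hx0 : x ≠ 0 := by
        rintro rfl
        exact hP (by rw [hy]; ring)
      have hy0 : y ≠ 0 := by
        rintro rfl
        exact hP (by rw [hy]; ring)
      have hxd : 0 < x.natDegree := by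
        rw [Nat.pos_iff_ne_zero]
        intro h0
        apply hx
        rw [isUnit_iff_degree_eq_zero, degree_eq_natDegree hx0, h0]
        rfl
      have hd : y.natDegree < P.natDegree := by
        rw [hy, natDegree_mul (mul_ne_zero hx0 hx0) hy0, natDegree_mul hx0 hx0]
        omega
      obtain ⟨F, Q, h1, h2, h3⟩ := ih y.natDegree (by omega) y hy0 le_rfl
      exact ⟨F, x * Q, h1, mul_ne_zero hx0 h2, by rw [hy, h3]; ring⟩

/-- squarefree part of a rational function -/
theorem gp_sqfree {k : Type} [Field k] (c : RatFunc k) (hc : c ≠ 0) :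
    ∃ F : k[X], Squarefree F ∧ ∃ w : RatFunc k, c = algebraMap k[X] (RatFunc k) F * w ^ 2 := by
  have hn : c.num ≠ 0 := RatFunc.num_ne_zero hc
  have hd : c.denom ≠ 0 := RatFunc.denom_ne_zero c
  obtain ⟨F, Q, h1, h2, h3⟩ := gp_sqfree_poly _ (c.num * c.denom) (mul_ne_zero hn hd) le_rfl
  have hd' : algebraMap k[X] (RatFunc k) c.denom ≠ 0 := RatFunc.algebraMap_ne_zero hd
  refine ⟨F, h1, algebraMap k[X] (RatFunc k) Q / algebraMap k[X] (RatFunc k) c.denom, ?_⟩
  have h4 := congrArg (algebraMap k[X] (RatFunc k)) h3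
  rw [map_mul, map_mul, map_pow] at h4
  conv_lhs => rw [← RatFunc.num_div_denom c]
  rw [div_pow]
  field_simp
  linear_combination h4

/-- lifting and reducing a squarefree polynomial -/
theorem gp_lift {k : Type} [Field k] {p : ℕ} [Fact p.Prime] (R : Subring k) (ρ : R →+* ZMod p) (f A B : k[X])
    (hAB : A * f + B * derivative f = 1)
    (h : ∀ c, c ∈ f.coeffs ∨ c ∈ A.coeffs ∨ c ∈ B.coeffs → c ∈ R ∧ c⁻¹ ∈ R) :
    ∃ f' : R[X], f'.map R.subtype = f ∧ Squarefree (f'.map ρ) ∧ (f'.map ρ).natDegree = f.natDegree := by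
  have hinj : Function.Injective R.subtype := Subtype.val_injective
  have hl : ∀ q : k[X], (∀ c ∈ q.coeffs, c ∈ R) → ∃ q' : R[X], q'.map R.subtype = q := fun q hq => by
    have h1 : q ∈ lifts R.subtype := by
      rw [lifts_iff_coeff_lifts]
      intro n
      by_cases h0 : q.coeff n = 0
      · exact ⟨0, by rw [map_zero, h0]⟩
      · exact ⟨⟨q.coeff n, hq _ (coeff_mem_coeffs h0)⟩, rfl⟩
    exact (mem_lifts _).1 h1
  obtain ⟨f', hf'⟩ := hl f fun c hc => (h c (Or.inl hc)).1
  obtain ⟨A', hA'⟩ := hl A fun c hc => (h c (Or.inr (Or.inl hc))).1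
  obtain ⟨B', hB'⟩ := hl B fun c hc => (h c (Or.inr (Or.inr hc))).1
  have hf0 : f ≠ 0 := by
    rintro rfl
    simp at hAB
  have hAB' : A' * f' + B' * derivative f' = 1 := by
    apply Polynomial.map_injective _ hinj
    rw [Polynomial.map_add, Polynomial.map_mul, Polynomial.map_mul, ← derivative_map, hf', hA', hB', hAB,
      Polynomial.map_one]
  refine ⟨f', hf', ?_, ?_⟩
  · apply Polynomial.Separable.squarefree
    refine ⟨A'.map ρ, B'.map ρ, ?_⟩
    rw [derivative_map, ← Polynomial.map_mul, ← Polynomial.map_mul, ← Polynomial.map_add, hAB',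
      Polynomial.map_one]
  · have h1 : f'.natDegree = f.natDegree := by
      rw [← hf', natDegree_map_eq_of_injective hinj]
    rw [← h1]
    apply natDegree_map_of_leadingCoeff_ne_zero
    have h2 : ((f'.leadingCoeff : R) : k) = f.leadingCoeff := by
      rw [← hf', leadingCoeff_map_of_injective hinj]
      rfl
    have h3 : f.leadingCoeff ≠ 0 := leadingCoeff_ne_zero.2 hf0
    obtain ⟨h4, h5⟩ := h f.leadingCoeff (Or.inl (coeff_mem_coeffs h3))
    have h6 : f'.leadingCoeff * ⟨f.leadingCoeff⁻¹, h5⟩ = 1 := by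
      apply Subtype.ext
      show ((f'.leadingCoeff : R) : k) * f.leadingCoeff⁻¹ = 1
      rw [h2, mul_inv_cancel₀ h3]
    intro h7
    have h8 := congrArg ρ h6
    rw [map_mul, h7, zero_mul, map_one] at h8
    exact zero_ne_one h8

section

variable {k Ω : Type} [Field k] [Field Ω] [Algebra (RatFunc k) Ω]
variable {M : Subfield Ω} {p : ℕ} [Fact p.Prime] {R : Subring k} {ρ : R →+* ZMod p} {W : ValuationSubring Ω}

/-- step 0: the reduction has nonzero derivative, for `x` or for `x + u` -/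
theorem GRed.deriv (h : GRed k Ω M R ρ W) {x : Ω} (hx : x ∈ M) (hxW : x ∈ W) :
    ∃ y : Ω, (y = x ∨ y = x + gev k Ω X) ∧ y ∈ W ∧ ∃ (a b : R[X]) (G N D : (ZMod p)[X]),
      W.valuation (gevR k Ω R b * y - gevR k Ω R a) < 1 ∧ a.map ρ = G * N ∧ b.map ρ = G * D ∧ G ≠ 0 ∧
      IsCoprime N D ∧ derivative N * D - N * derivative D ≠ 0 := by
  classical
  obtain ⟨a, b, hb0, hab⟩ := h.rat x hx hxW
  let _ : GCDMonoid (ZMod p)[X] := EuclideanDomain.gcdMonoid _
  obtain ⟨N, D, h1, h2, h3⟩ := extract_gcd (a.map ρ) (b.map ρ)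
  set G := gcd (a.map ρ) (b.map ρ) with hG
  have hG0 : G ≠ 0 := by
    intro h0
    rw [h0, zero_mul] at h2
    exact hb0 h2
  have hc : IsCoprime N D := (gcd_isUnit_iff N D).1 h3
  have hD0 : D ≠ 0 := by
    rintro rfl
    exact hb0 (by rw [h2, mul_zero])
  by_cases hW : derivative N * D - N * derivative D = 0
  · have hX : gevR k Ω R X = gev k Ω X := by
      show gev k Ω ((X : R[X]).map R.subtype) = gev k Ω X
      rw [map_X]
    have huW : gev k Ω X ∈ W := by
      rw [← hX]
      exact h.mem X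
    refine ⟨x + gev k Ω X, Or.inr rfl, add_mem hxW huW, a + X * b, b, G, N + X * D, D, ?_, ?_, h2, hG0, ?_, ?_⟩
    · have e1 : gevR k Ω R b * (x + gev k Ω X) - gevR k Ω R (a + X * b) = gevR k Ω R b * x - gevR k Ω R a := by
        rw [map_add, map_mul, hX]
        ring
      rw [e1]
      exact hab
    · rw [Polynomial.map_add, Polynomial.map_mul, map_X, h1, h2]
      ring
    · exact hc.add_mul_right_left X
    · have e2 : derivative (N + X * D) * D - (N + X * D) * derivative D = D ^ 2 := by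
        rw [derivative_add, derivative_mul, derivative_X]
        linear_combination hW
      rw [e2]
      exact pow_ne_zero 2 hD0
  · exact ⟨x, Or.inl rfl, hxW, a, b, G, N, D, hab, h1, h2, hG0, hc, hW⟩

/-- a Moebius transform of a transcendental element is transcendental -/
theorem gp_tr {κ Ω : Type} [Field κ] [CharZero κ] [Field Ω] [Algebra κ Ω] {y z : Ω} (hy : Transcendental κ y) {i j : ℕ} (hij : i ≠ j)
    {f g : κ} (hf : f ≠ 0) (hg : g ≠ 0)
    (hz : z = (y - i) * algebraMap κ Ω g / ((y - j) * algebraMap κ Ω f)) : Transcendental κ z := by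
  intro hza
  apply hy
  have hf' : algebraMap κ Ω f ≠ 0 := (_root_.map_ne_zero _).2 hf
  have hg' : algebraMap κ Ω g ≠ 0 := (_root_.map_ne_zero _).2 hg
  have hyj : y - j ≠ 0 := fun h0 => hy (by
    rw [sub_eq_zero.1 h0]
    exact isAlgebraic_natCast j)
  have h1 : z * ((y - j) * algebraMap κ Ω f) = (y - i) * algebraMap κ Ω g := by
    rw [hz, div_mul_cancel₀ _ (mul_ne_zero hyj hf')]
  have hij' : (j : Ω) - i ≠ 0 := by
    have hcz : CharZero Ω := charZero_of_injective_algebraMap (algebraMap κ Ω).injective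
    rw [sub_ne_zero]
    exact_mod_cast hij.symm
  have h2 : algebraMap κ Ω f * z - algebraMap κ Ω g ≠ 0 := by
    intro h0
    have h3 : ((j : Ω) - i) * algebraMap κ Ω g = 0 := by
      linear_combination (y - j) * h0 - h1
    rcases mul_eq_zero.1 h3 with h4 | h4
    · exact hij' h4
    · exact hg' h4
  have h5 : y = (j * (algebraMap κ Ω f * z) - i * algebraMap κ Ω g) * (algebraMap κ Ω f * z - algebraMap κ Ω g)⁻¹ := by
    rw [eq_mul_inv_iff_mul_eq₀ h2]
    linear_combination h1
  rw [h5]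
  have hfa : IsAlgebraic κ (algebraMap κ Ω f) := isAlgebraic_algebraMap f
  have hga : IsAlgebraic κ (algebraMap κ Ω g) := isAlgebraic_algebraMap g
  exact (((isAlgebraic_natCast j).mul (hfa.mul hza)).sub ((isAlgebraic_natCast i).mul hga)).mul
    ((hfa.mul hza).sub hga).inv

/-- **Section 2**: the global part -/
theorem glob {k Ω : Type} [Field k] [CharZero k] [Field Ω] [Algebra (RatFunc k) Ω] (M : Subfield Ω)
    (hM : ∀ c : RatFunc k, algebraMap (RatFunc k) Ω c ∈ M)
    (K2 : ∀ z ∈ M, z ≠ 0 → ∃ F : k[X], Squarefree F ∧ ∃ m ∈ M, z = gev k Ω F * m ^ 2)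
    (hloc : ∀ (B : Finset k) (n : ℕ), ∃ p : ℕ, n < p ∧ ∃ _ : Fact p.Prime, ∃ (R : Subring k) (ρ : R →+* ZMod p)
      (W : ValuationSubring Ω), (∀ b ∈ B, b ≠ 0 → b ∈ R ∧ b⁻¹ ∈ R) ∧ GRed k Ω M R ρ W)
    (x : Ω) (hx : x ∈ M) (htr : Transcendental (RatFunc k) x) :
    ∃ z ∈ M, Transcendental (RatFunc k) z ∧ ∃ T : Finset ℕ, 4 ≤ T.card ∧
      ∀ e ∈ T, ∃ c : k, c ≠ 0 ∧ ∃ m ∈ M, z - e = gev k Ω (C c) * m ^ 2 := by
  classical
  have hκ : CharZero (RatFunc k) := charZero_of_injective_algebraMap (algebraMap k (RatFunc k)).injective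
  have hcz : CharZero Ω := charZero_of_injective_algebraMap (algebraMap (RatFunc k) Ω).injective
  have K2' : ∀ (z : Ω) (e : ℕ), ∃ F : k[X], Squarefree F ∧ ∃ m ∈ M, (z ∈ M → z - e ≠ 0 → z - e = gev k Ω F * m ^ 2) := by
    intro z e
    by_cases hz : z ∈ M ∧ z - e ≠ 0
    · obtain ⟨F, h1, m, h2, h3⟩ := K2 (z - e) (sub_mem hz.1 (natCast_mem M e)) hz.2
      exact ⟨F, h1, m, h2, fun _ _ => h3⟩
    · exact ⟨1, squarefree_one, 1, M.one_mem, fun h1 h2 => absurd ⟨h1, h2⟩ hz⟩
  choose F hF m hm hFm using K2'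
  have hBez : ∀ f : k[X], ∃ A B : k[X], Squarefree f → A * f + B * derivative f = 1 := by
    intro f
    by_cases hf : Squarefree f
    · obtain ⟨A, B, h1⟩ := (PerfectField.separable_iff_squarefree (g := f)).2 hf
      exact ⟨A, B, fun _ => h1⟩
    · exact ⟨0, 0, fun h => absurd h hf⟩
  choose A B hAB using hBez
  let n : Ω → ℕ := fun y => 2 * (∑ e ∈ Finset.range 6, (F y e).natDegree) + 6
  let zz : Ω → ℕ → ℕ → Ω := fun y i j => (y - i) * gev k Ω (F y j) / ((y - j) * gev k Ω (F y i))
  let cand : Finset Ω := {x, x⁻¹, x + gev k Ω X, x⁻¹ + gev k Ω X}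
  let P1 : Finset k[X] := cand.biUnion fun y => (Finset.range (n y)).image (F y)
  let P2 : Finset k[X] := cand.biUnion fun y => (Finset.range (n y) ×ˢ Finset.range (n y)).biUnion fun ij =>
    (Finset.range 5).image (F (zz y ij.1 ij.2))
  let K : Finset k := (P1 ∪ P2).biUnion fun f => f.coeffs ∪ ((A f).coeffs ∪ (B f).coeffs)
  obtain ⟨p, hp, hp', R, ρ, W, hB, h⟩ := hloc K (∑ y ∈ cand, n y + 5)
  have hlift : ∀ f ∈ P1 ∪ P2, Squarefree f → ∃ f' : R[X], f'.map R.subtype = f ∧ Squarefree (f'.map ρ) ∧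
      (f'.map ρ).natDegree = f.natDegree := by
    intro f hf hsf
    refine gp_lift R ρ f (A f) (B f) (hAB f hsf) fun c hc => ?_
    have hcK : c ∈ K := by
      refine Finset.mem_biUnion.2 ⟨f, hf, ?_⟩
      simp only [Finset.mem_union]
      exact hc
    have hc0 : c ≠ 0 := by
      have hz : ∀ q : k[X], c ∈ q.coeffs → c ≠ 0 := fun q hq => by
        obtain ⟨i, hi, rfl⟩ := mem_coeffs_iff.1 hq
        exact mem_support_iff.1 hi
      rcases hc with hc | hc | hc
      · exact hz _ hc
      · exact hz _ hc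
      · exact hz _ hc
    exact hB c hcK hc0
  have hgevR : ∀ f' : R[X], gevR k Ω R f' = gev k Ω (f'.map R.subtype) := fun f' => rfl
  -- x or its inverse lies in `W`
  obtain ⟨x1, hx1c, hx1M, hx1tr, hx1W⟩ : ∃ x1 : Ω, (x1 = x ∨ x1 = x⁻¹) ∧ x1 ∈ M ∧ Transcendental (RatFunc k) x1 ∧ x1 ∈ W := by
    rcases W.mem_or_inv_mem x with h1 | h1
    · exact ⟨x, Or.inl rfl, hx, htr, h1⟩
    · refine ⟨x⁻¹, Or.inr rfl, inv_mem hx, fun h2 => htr ?_, h1⟩
      have := h2.inv
      rwa [inv_inv] at this
  have huM : gev k Ω X ∈ M := hM _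
  have hua : IsAlgebraic (RatFunc k) (gev k Ω X) := isAlgebraic_algebraMap _
  obtain ⟨y, hyx, hyW, a, b, G, N, D, hab, ha, hb, hG0, hND, hWr⟩ := h.deriv hx1M hx1W
  have hyc : y ∈ cand := by
    simp only [cand, Finset.mem_insert, Finset.mem_singleton]
    rcases hyx with rfl | rfl
    · rcases hx1c with rfl | rfl
      · exact Or.inl rfl
      · exact Or.inr (Or.inl rfl)
    · rcases hx1c with rfl | rfl
      · exact Or.inr (Or.inr (Or.inl rfl))
      · exact Or.inr (Or.inr (Or.inr rfl))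
  have hyM : y ∈ M := by
    rcases hyx with rfl | rfl
    · exact hx1M
    · exact add_mem hx1M huM
  have hytr : Transcendental (RatFunc k) y := by
    rcases hyx with rfl | rfl
    · exact hx1tr
    · intro h2
      apply hx1tr
      have := h2.sub hua
      rwa [add_sub_cancel_right] at this
  have hne : ∀ (w : Ω), Transcendental (RatFunc k) w → ∀ e : ℕ, w - e ≠ 0 := fun w hw e h0 => hw (by
    rw [sub_eq_zero.1 h0]
    exact isAlgebraic_natCast e)
  have hny : n y ≤ ∑ y ∈ cand, n y := Finset.single_le_sum (f := n) (fun _ _ => Nat.zero_le _) hyc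
  have hD0 : D ≠ 0 := by
    rintro rfl
    simp at hWr
  have hf1 : ∀ e < n y, ∃ f' : R[X], f'.map R.subtype = F y e ∧ Squarefree (f'.map ρ) ∧
      (f'.map ρ).natDegree = (F y e).natDegree := fun e he =>
    hlift _ (Finset.mem_union_left _ (Finset.mem_biUnion.2 ⟨y, hyc, Finset.mem_image_of_mem _ (Finset.mem_range.2 he)⟩)) (hF y e)
  choose! f' hf'1 hf'2 hf'3 using hf1
  -- degrees
  set d := max N.natDegree D.natDegree with hd
  have hcoef : N.coeff d ≠ 0 ∨ D.coeff d ≠ 0 := by
    rcases le_total N.natDegree D.natDegree with h1 | h1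
    · right
      rw [hd, max_eq_right h1]
      exact leadingCoeff_ne_zero.2 hD0
    · by_cases hN0 : N = 0
      · right
        have h2 : D.natDegree = 0 := by
          rw [hN0, natDegree_zero] at h1
          omega
        rw [hd, hN0, natDegree_zero, h2, max_self]
        have := leadingCoeff_ne_zero.2 hD0
        unfold leadingCoeff at this
        rwa [h2] at this
      · left
        rw [hd, max_eq_left h1]
        exact leadingCoeff_ne_zero.2 hN0
  have hinj : ∀ i < p, ∀ j < p, (i : ZMod p) = j → i = j := fun i hi j hj hij => by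
    rw [ZMod.natCast_eq_natCast_iff', Nat.mod_eq_of_lt hi, Nat.mod_eq_of_lt hj] at hij
    exact hij
  obtain ⟨hA1, hA2⟩ := gp_main (n := n y) hND hWr (le_max_left _ _) (le_max_right _ _) hcoef
    (fun i hi j hj hij => hinj i (by omega) j (by omega) hij) (fun e => (f' e).map ρ) (fun e he => hf'2 e he)
    (fun e he => h.class hab ha hb hG0 hD0 (hf'2 e he).ne_zero (hm y e) e (by
      rw [hgevR, hf'1 e he]
      exact hFm y e hyM (hne y hytr e)) (gp_ne hWr _))
  have hB1 : d ≤ ∑ e ∈ Finset.range 6, (F y e).natDegree := by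
    refine (hA1 (by simp only [n]; omega)).trans (le_of_eq (Finset.sum_congr rfl fun e he => ?_))
    refine hf'3 e ?_
    have := Finset.mem_range.1 he
    simp only [n]
    omega
  obtain ⟨i, hi, j, hj, hij, has⟩ := hA2 (by simp only [n]; omega)
  have hzz : zz y i j = (y - i) * gevR k Ω R (f' j) / ((y - j) * gevR k Ω R (f' i)) := by
    simp only [zz]
    rw [hgevR, hgevR, hf'1 i hi, hf'1 j hj]
  obtain ⟨hzW, a', b', c, hb', ha', hab'⟩ := h.moebius hab ha hb hG0 hyW (hf'2 i hi).ne_zero (gp_ne hWr _) has hzz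
  have hzM : zz y i j ∈ M :=
    div_mem (mul_mem (sub_mem hyM (natCast_mem M i)) (hM _)) (mul_mem (sub_mem hyM (natCast_mem M j)) (hM _))
  have hztr : Transcendental (RatFunc k) (zz y i j) := by
    refine gp_tr (f := algebraMap k[X] (RatFunc k) (F y i)) (g := algebraMap k[X] (RatFunc k) (F y j)) hytr hij
      (RatFunc.algebraMap_ne_zero (hF y i).ne_zero) (RatFunc.algebraMap_ne_zero (hF y j).ne_zero) rfl
  refine ⟨zz y i j, hzM, hztr, (Finset.range 5).filter fun e => (F (zz y i j) e).natDegree = 0, ?_, ?_⟩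
  · have h1 := Finset.card_filter_add_card_filter_not (s := Finset.range 5)
      (fun e => (F (zz y i j) e).natDegree = 0)
    rw [Finset.card_range] at h1
    have h2 : ((Finset.range 5).filter fun e => ¬ (F (zz y i j) e).natDegree = 0).card ≤ 1 := by
      rw [Finset.card_le_one]
      have h3 : ∀ e ∈ (Finset.range 5).filter fun e => ¬ (F (zz y i j) e).natDegree = 0, c = e := by
        intro e he
        rw [Finset.mem_filter] at he
        obtain ⟨he, he'⟩ := he
        by_contra hce
        apply he'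
        obtain ⟨g', hg1, hg2, hg3⟩ := hlift (F (zz y i j) e) (Finset.mem_union_right _ (Finset.mem_biUnion.2 ⟨y, hyc,
          Finset.mem_biUnion.2 ⟨(i, j), Finset.mem_product.2 ⟨Finset.mem_range.2 hi, Finset.mem_range.2 hj⟩,
            Finset.mem_image_of_mem _ he⟩⟩)) (hF _ e)
        rw [← hg3]
        refine h.const hab' ha' hb' hg2 (hm (zz y i j) e) e ?_ hce
        rw [hgevR, hg1]
        exact hFm _ e hzM (hne _ hztr e)
      intro e he e' he'
      have h4 : (e : ZMod p) = e' := (h3 e he).symm.trans (h3 e' he')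
      have h5 := Finset.mem_range.1 (Finset.mem_filter.1 he).1
      have h6 := Finset.mem_range.1 (Finset.mem_filter.1 he').1
      exact hinj e (by omega) e' (by omega) h4
    omega
  · intro e he
    rw [Finset.mem_filter] at he
    obtain ⟨c', hc'⟩ := natDegree_eq_zero.1 he.2
    refine ⟨c', ?_, m (zz y i j) e, hm _ e, ?_⟩
    · rintro rfl
      apply (hF (zz y i j) e).ne_zero
      rw [← hc', C_0]
    · rw [hc']
      exact hFm _ e hzM (hne _ hztr e)

end

end BSC
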