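import Pool.Agent.Lib_MP_49ddc8.Loc

/-!
# [Gs1] The local theorem for a discrete valuation with any residue field

As `local_thm'` of `Loc.lean`, without a residue field inside `E`.
-/

set_option autoImplicit false

namespace BSC

private theorem gs_vlt {K : Type} [Field K] (A : ValuationSubring K) (x : K) :
    A.valuation x < 1 ↔ x = 0 ∨ x⁻¹ ∉ A := by
  by_cases hx : x = 0
  · simp [hx]
  have h1 : A.valuation x ≠ 0 := (Valuation.ne_zero_iff _).2 hx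
  rw [← ValuationSubring.valuation_le_one_iff, map_inv₀]
  constructor
  · intro h
    right
    rw [not_le]
    exact (one_lt_inv₀ (zero_lt_iff.2 h1)).2 h
  · rintro (h | h)
    · exact absurd h hx
    · rw [not_le] at h
      exact (one_lt_inv₀ (zero_lt_iff.2 h1)).1 h

/-- the local theorem for a field `E` with a discrete valuation `ord` with `1 + 𝔪` in the squares -/
theorem local_mixed {Ω : Type} [Field Ω] (E L : Subfield Ω) (hEL : E ≤ L) (ord : Ω → ℤ) (π : Ω)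
    (hmul : ∀ x ∈ E, ∀ y ∈ E, x ≠ 0 → y ≠ 0 → ord (x * y) = ord x + ord y)
    (hπ : π ∈ E ∧ π ≠ 0 ∧ ord π = 1) (hsq : ∀ z ∈ E, z ≠ 0 → 0 < ord z → ∃ w ∈ E, 1 + z = w ^ 2) (hi : ∃ i ∈ E, i ^ 2 = (-1 : Ω))
    (hA1 : ∀ V : ValuationSubring E, (∀ z : E, z ≠ 0 → 0 < ord (z : Ω) → V.valuation z < 1) →
      (∀ z : E, V.valuation z < 1 → ∃ w : E, 1 + z = w ^ 2) → ∀ z : E, z ≠ 0 → 0 ≤ ord (z : Ω) → z ∈ V)
    (hA2 : ∃ a ∈ E, a ≠ 0 ∧ 1 + a ≠ 0 ∧ ord a = 0 ∧ ord (1 + a) = 0 ∧ (¬ ∃ w ∈ E, a = w ^ 2) ∧ (¬ ∃ w ∈ E, 1 + a = w ^ 2) ∧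
      ¬ ∃ w ∈ E, a * (1 + a) = w ^ 2)
    (h1 : ∀ z ∈ E, ∀ w ∈ L, z = w ^ 2 → ∃ w' ∈ E, z = w' ^ 2) (h2 : ∀ z ∈ L, z ≠ 0 → ∃ c ∈ E, c ≠ 0 ∧ ∃ w ∈ L, z = c * w ^ 2)
    (h3 : ∀ c ∈ E, c ≠ 0 → Odd (ord c) → ∀ l ∈ L, (∃ w ∈ L, 1 + c * l ^ 2 = w ^ 2) ∨ ∃ w ∈ L, 1 + c * l ^ 2 = c * w ^ 2) :
    ∃ V : ValuationSubring Ω, (∀ z ∈ E, z ≠ 0 → (z ∈ V ↔ 0 ≤ ord z)) ∧
      (∀ z ∈ L, V.valuation z < 1 → z = 0 ∨ LPrim E L ord z ∨ ∃ x y : Ω, LPrim E L ord x ∧ LPrim E L ord y ∧ z = x * y) ∧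
      ∀ z : Ω, LPrim E L ord z → V.valuation z < 1 := by
  classical
  have hord1 : ord 1 = 0 := by
    have h := hmul 1 E.one_mem 1 E.one_mem one_ne_zero one_ne_zero
    rw [one_mul] at h
    omega
  have hsq' : ∀ x ∈ E, x ≠ 0 → ord (x ^ 2) = 2 * ord x := by
    intro x hx hx0
    rw [pow_two, hmul x hx x hx hx0 hx0]
    ring
  have hinv : ∀ x ∈ E, x ≠ 0 → ord x⁻¹ = - ord x := by
    intro x hx hx0
    have h := hmul x hx x⁻¹ (inv_mem hx) hx0 (inv_ne_zero hx0)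
    rw [mul_inv_cancel₀ hx0, hord1] at h
    omega
  -- the parity of `ord c` depends only on `c w ^ 2`
  have hwd : ∀ c ∈ E, ∀ c' ∈ E, ∀ w ∈ L, ∀ w' ∈ L, c ≠ 0 → c' ≠ 0 → w ≠ 0 → w' ≠ 0 →
      c * w ^ 2 = c' * w' ^ 2 → (Even (ord c) → Even (ord c')) := by
    intro c hc c' hc' w hw w' hw' hc0 hc0' hw0 hw0' e he
    obtain ⟨d, hd, hcd⟩ := h1 (c' * c⁻¹) (mul_mem hc' (inv_mem hc)) (w * w'⁻¹) (mul_mem hw (inv_mem hw'))
      (by field_simp; linear_combination -e)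
    have hd0 : d ≠ 0 := by
      rintro rfl
      have : c' * c⁻¹ ≠ 0 := mul_ne_zero hc0' (inv_ne_zero hc0)
      exact this (by rw [hcd]; ring)
    have h4 : c' = c * d ^ 2 := by rw [← hcd]; field_simp
    rw [h4, hmul c hc _ (pow_mem hd 2) hc0 (pow_ne_zero 2 hd0), hsq' d hd hd0]
    exact he.add ⟨ord d, by ring⟩
  set T : Set L := {z | z ≠ 0 ∧ ∃ w : L, z = w ^ 2} with hT
  set H : Set L := {z | z ≠ 0 ∧ ∃ c ∈ E, ∃ w ∈ L, (z : Ω) = c * w ^ 2 ∧ Even (ord c)} with hH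
  have hTH : T ⊆ H := by
    rintro z ⟨hz0, w, hw⟩
    refine ⟨hz0, 1, E.one_mem, w, w.2, ?_, ?_⟩
    · rw [hw]; push_cast; ring
    · rw [hord1]; exact Even.zero
  have hHr : ∀ z : L, z ∈ H → ∀ c ∈ E, c ≠ 0 → ∀ w ∈ L, w ≠ 0 → (z : Ω) = c * w ^ 2 → Even (ord c) := by
    rintro z ⟨hz0, c', hc', w', hw', e', hev⟩ c hc hc0 w hw hw0 e
    have hzΩ : (z : Ω) ≠ 0 := fun h0 => hz0 (Subtype.ext h0)
    have hc0' : c' ≠ 0 := by
      rintro rfl
      exact hzΩ (by rw [e']; ring)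
    have hw0' : w' ≠ 0 := by
      rintro rfl
      exact hzΩ (by rw [e']; ring)
    exact hwd c' hc' c hc w' hw' w hw hc0' hc0 hw0' hw0 (by rw [← e', e]) hev
  have hrep : ∀ z : L, z ≠ 0 → z ∉ H → ∃ c ∈ E, c ≠ 0 ∧ ∃ w ∈ L, w ≠ 0 ∧ (z : Ω) = c * w ^ 2 ∧ Odd (ord c) := by
    intro z hz0 hzH
    have hzΩ : (z : Ω) ≠ 0 := fun h0 => hz0 (Subtype.ext h0)
    obtain ⟨c, hc, hc0, w, hw, e⟩ := h2 z z.2 hzΩ
    refine ⟨c, hc, hc0, w, hw, ?_, e, ?_⟩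
    · rintro rfl
      exact hzΩ (by rw [e]; ring)
    · rw [← Int.not_even_iff_odd]
      intro hev
      exact hzH ⟨hz0, c, hc, w, hw, e, hev⟩
  obtain ⟨hπE, hπ0, hπ1⟩ := hπ
  have hπw : ∀ w ∈ L, w ≠ 0 → ∀ z : L, (z : Ω) = π * w ^ 2 → z ∉ H := by
    intro w hw hw0 z e hz
    have h5 := hHr z hz π hπE hπ0 w hw hw0 e
    rw [hπ1] at h5
    exact absurd h5 (by decide)
  obtain ⟨i, hiE, hi2⟩ := hi
  have hTneg : (-1 : L) ∈ T := by
    refine ⟨neg_ne_zero.2 one_ne_zero, ⟨i, hEL hiE⟩, ?_⟩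
    apply Subtype.ext
    push_cast
    exact hi2.symm
  have hone : ∀ x : L, x ∉ H → 1 + x ≠ 0 := by
    intro x hx h0
    apply hx
    rw [← eq_neg_of_add_eq_zero_right h0] at hTneg
    exact hTH hTneg
  have hA' : Aej T H := by
    refine ⟨⟨one_ne_zero, 1, by ring⟩, hTneg, ?_, ?_, hTH, fun h0 => h0.1 rfl, ?_, ?_, ?_, ?_, ?_, ?_⟩
    · rintro x ⟨hx0, u, hu⟩ y ⟨hy0, v, hv⟩
      exact ⟨mul_ne_zero hx0 hy0, u * v, by rw [hu, hv]; ring⟩
    · rintro x ⟨hx0, u, hu⟩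
      exact ⟨inv_ne_zero hx0, u⁻¹, by rw [hu, inv_pow]⟩
    · rintro x ⟨hx0, c, hc, u, hu, ex, hcx⟩ y ⟨hy0, d, hd, v, hv, ey, hdy⟩
      have hxΩ : (x : Ω) ≠ 0 := fun h0 => hx0 (Subtype.ext h0)
      have hyΩ : (y : Ω) ≠ 0 := fun h0 => hy0 (Subtype.ext h0)
      have hc0 : c ≠ 0 := by
        rintro rfl
        exact hxΩ (by rw [ex]; ring)
      have hd0 : d ≠ 0 := by
        rintro rfl
        exact hyΩ (by rw [ey]; ring)
      refine ⟨mul_ne_zero hx0 hy0, c * d, mul_mem hc hd, u * v, mul_mem hu hv, ?_, ?_⟩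
      · push_cast
        rw [ex, ey]
        ring
      · rw [hmul c hc d hd hc0 hd0]
        exact hcx.add hdy
    · rintro x ⟨hx0, c, hc, u, hu, ex, hcx⟩
      have hxΩ : (x : Ω) ≠ 0 := fun h0 => hx0 (Subtype.ext h0)
      have hc0 : c ≠ 0 := by
        rintro rfl
        exact hxΩ (by rw [ex]; ring)
      refine ⟨inv_ne_zero hx0, c⁻¹, inv_mem hc, u⁻¹, inv_mem hu, ?_, ?_⟩
      · push_cast
        rw [ex, mul_inv, inv_pow]
      · rw [hinv c hc hc0]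
        exact hcx.neg
    · intro x y hx0 hy0 hx hy
      obtain ⟨c, hc, hc0, u, hu, hu0, ex, hcx⟩ := hrep x hx0 hx
      obtain ⟨d, hd, hd0, v, hv, hv0, ey, hdy⟩ := hrep y hy0 hy
      refine ⟨mul_ne_zero hx0 hy0, c * d, mul_mem hc hd, u * v, mul_mem hu hv, ?_, ?_⟩
      · push_cast
        rw [ex, ey]
        ring
      · rw [hmul c hc d hd hc0 hd0]
        exact hcx.add_odd hdy
    · refine ⟨⟨π, hEL hπE⟩, fun h0 => hπ0 (congrArg Subtype.val h0), ?_⟩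
      exact hπw 1 L.one_mem one_ne_zero _ (by simp)
    · intro x hx0 hx
      obtain ⟨c, hc, hc0, u, hu, hu0, ex, hcx⟩ := hrep x hx0 hx
      have hx1 := hone x hx
      rcases h3 c hc hc0 hcx u hu with ⟨w, hw, e⟩ | ⟨w, hw, e⟩
      · left
        refine ⟨hx1, ⟨w, hw⟩, ?_⟩
        apply Subtype.ext
        push_cast
        rw [ex, e]
      · right
        refine ⟨div_ne_zero hx1 hx0, ⟨w * u⁻¹, mul_mem hw (inv_mem hu)⟩, ?_⟩
        apply Subtype.ext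
        push_cast
        rw [ex, e]
        field_simp
    · obtain ⟨a, haE, ha0, hb0, hoa, hob, ha1, ha2, ha3⟩ := hA2
      have hbE : (1 : Ω) + a ∈ E := add_mem E.one_mem haE
      refine ⟨⟨a, hEL haE⟩, ?_, ?_, ?_, ?_, ?_⟩
      · refine ⟨fun h0 => ha0 (congrArg Subtype.val h0), a, haE, 1, L.one_mem, by simp, ?_⟩
        rw [hoa]
        exact Even.zero
      · refine ⟨fun h0 => hb0 (congrArg Subtype.val h0), 1 + a, hbE, 1, L.one_mem, by simp, ?_⟩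
        rw [hob]
        exact Even.zero
      · rintro ⟨-, w, hw⟩
        exact ha1 (h1 a haE w w.2 (by
          have := congrArg Subtype.val hw
          simpa using this))
      · rintro ⟨-, w, hw⟩
        exact ha2 (h1 (1 + a) hbE w w.2 (by
          have := congrArg Subtype.val hw
          simpa using this))
      · rintro ⟨-, w, hw⟩
        have hw' : (1 + (a : Ω)) / a = (w : Ω) ^ 2 := by
          have := congrArg Subtype.val hw
          simpa using this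
        exact ha3 (h1 (a * (1 + a)) (mul_mem haE hbE) (a * w) (mul_mem (hEL haE) w.2) (by
          rw [mul_pow, ← hw']
          field_simp))
  obtain ⟨O, ho1, ho2, ho3, ho4⟩ := aej' hA'
  -- the elements of odd positive order
  have hodd : ∀ c (hc : c ∈ E), c ≠ 0 → 0 < ord c → Odd (ord c) → O.valuation (⟨c, hEL hc⟩ : L) < 1 := by
    intro c hc hc0 hpos hod
    have hcH : (⟨c, hEL hc⟩ : L) ∉ H := by
      intro h5
      exact Int.not_even_iff_odd.2 hod (hHr ⟨c, hEL hc⟩ h5 c hc hc0 1 L.one_mem one_ne_zero (by simp))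
    refine ho2 ⟨c, hEL hc⟩ (fun h0 => hc0 (congrArg Subtype.val h0)) hcH ?_
    obtain ⟨w, hw, e⟩ := hsq c hc hc0 hpos
    exact ⟨hone _ hcH, ⟨w, hEL hw⟩, Subtype.ext (by simpa using e)⟩
  have hpos : ∀ c (hc : c ∈ E), c ≠ 0 → 0 < ord c → O.valuation (⟨c, hEL hc⟩ : L) < 1 := by
    intro c hc hc0 hp
    rcases Int.even_or_odd (ord c) with hev | hod
    · have hcπ : c * π⁻¹ ∈ E := mul_mem hc (inv_mem hπE)
      have hcπ0 : c * π⁻¹ ≠ 0 := mul_ne_zero hc0 (inv_ne_zero hπ0)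
      have ho : ord (c * π⁻¹) = ord c - 1 := by
        rw [hmul c hc _ (inv_mem hπE) hc0 (inv_ne_zero hπ0), hinv π hπE hπ0, hπ1]
        ring
      obtain ⟨n, hn⟩ := hev
      have h5 := hodd (c * π⁻¹) hcπ hcπ0 (by omega) ⟨n - 1, by omega⟩
      have h6 := hodd π hπE hπ0 (by omega) (by rw [hπ1]; exact odd_one)
      have e1 : (⟨c, hEL hc⟩ : L) = ⟨c * π⁻¹, hEL hcπ⟩ * ⟨π, hEL hπE⟩ := by
        apply Subtype.ext
        show c = c * π⁻¹ * π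
        rw [inv_mul_cancel_right₀ hπ0]
      rw [e1, map_mul]
      exact mul_lt_one_of_nonneg_of_lt_one_right h5.le zero_le' h6
    · exact hodd c hc hc0 hp hod
  have hEO : ∀ c (hc : c ∈ E), c ≠ 0 → 0 ≤ ord c → (⟨c, hEL hc⟩ : L) ∈ O := by
    intro c hc hc0 hp
    have h5 := hA1 (O.comap (Subfield.inclusion hEL)) (by
      intro z hz0 hz
      have hz0' : (z : Ω) ≠ 0 := fun h0 => hz0 (Subtype.ext h0)
      have h6 := hpos z z.2 hz0' hz
      rw [gs_vlt] at h6 ⊢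
      rcases h6 with h6 | h6
      · exact absurd (congrArg Subtype.val h6) hz0'
      · right
        intro h7
        apply h6
        rw [ValuationSubring.mem_comap, map_inv₀] at h7
        exact h7) (by
      intro z hz
      have hz' : O.valuation (Subfield.inclusion hEL z) < 1 := by
        rw [gs_vlt] at hz ⊢
        rcases hz with hz | hz
        · left
          rw [hz, map_zero]
        · right
          intro h0
          apply hz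
          rw [ValuationSubring.mem_comap, map_inv₀]
          exact h0
      obtain ⟨-, u, hu⟩ := ho1 _ hz'
      have hcz : ((Subfield.inclusion hEL z : L) : Ω) = z := rfl
      obtain ⟨d, hd, hd2⟩ := h1 (1 + z) (add_mem E.one_mem z.2) u u.2 (by
        have := congrArg Subtype.val hu
        push_cast at this
        rwa [hcz] at this)
      exact ⟨⟨d, hd⟩, Subtype.ext (by simpa using hd2)⟩) ⟨c, hc⟩ (fun h0 => hc0 (congrArg Subtype.val h0)) hp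
    exact h5
  obtain ⟨V, hV⟩ := ext_val L O
  have hVlt : ∀ z : L, V.valuation (z : Ω) < 1 ↔ O.valuation z < 1 := by
    intro z
    rw [gs_vlt, gs_vlt, ← hV z⁻¹]
    push_cast
    rw [ZeroMemClass.coe_eq_zero]
  have hprim : ∀ x : L, x ∈ PP T H → LPrim E L ord (x : Ω) := by
    rintro x ⟨hx0, hxH, -, v, hv⟩
    obtain ⟨c, hc, hc0, w, hw, hw0, e, hodd⟩ := hrep x hx0 hxH
    exact ⟨⟨c, hc, hc0, hodd, w, hw, hw0, e⟩, v, v.2, by
      have := congrArg Subtype.val hv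
      simpa using this⟩
  refine ⟨V, ?_, ?_, ?_⟩
  · intro z hz hz0
    constructor
    · intro hzV
      by_contra hneg
      rw [not_le] at hneg
      have h5 := hpos z⁻¹ (inv_mem hz) (inv_ne_zero hz0) (by rw [hinv z hz hz0]; omega)
      have h6 := (hVlt ⟨z⁻¹, hEL (inv_mem hz)⟩).2 h5
      have h7 : V.valuation z ≤ 1 := (V.valuation_le_one_iff z).2 hzV
      have h8 : V.valuation z * V.valuation z⁻¹ = 1 := by
        rw [← map_mul, mul_inv_cancel₀ hz0, map_one]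
      have h9 := mul_lt_one_of_nonneg_of_lt_one_right h7 zero_le' h6
      rw [h8] at h9
      exact lt_irrefl _ h9
    · intro hp
      exact (hV ⟨z, hEL hz⟩).2 (hEO z hz hz0 hp)
  · intro z hz hv
    rcases ho4 ⟨z, hz⟩ ((hVlt ⟨z, hz⟩).1 hv) with h0 | h0 | ⟨x, hx, y, hy, e⟩
    · exact Or.inl (congrArg Subtype.val h0)
    · exact Or.inr (Or.inl (hprim _ h0))
    · exact Or.inr (Or.inr ⟨x, y, hprim x hx, hprim y hy, congrArg Subtype.val e⟩)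
  · rintro z ⟨⟨c, hc, hc0, hodd, w, hw, hw0, e⟩, v, hv, ev⟩
    have hz : z ∈ L := by
      rw [e]
      exact mul_mem (hEL hc) (pow_mem hw 2)
    have hz0 : z ≠ 0 := by
      rw [e]
      exact mul_ne_zero hc0 (pow_ne_zero 2 hw0)
    have hzH : (⟨z, hz⟩ : L) ∉ H := by
      intro h5
      exact Int.not_even_iff_odd.2 hodd (hHr ⟨z, hz⟩ h5 c hc hc0 w hw hw0 e)
    exact (hVlt ⟨z, hz⟩).2 (ho2 ⟨z, hz⟩ (fun h0 => hz0 (congrArg Subtype.val h0)) hzH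
      ⟨hone _ hzH, ⟨v, hv⟩, Subtype.ext (by simpa using ev)⟩)

/-- a form `x ^ 2 + c y ^ 2` with `ord c` odd has the class `1` or `c` -/
theorem gs_form {Ω : Type} [Field Ω] (E : Subfield Ω) (ord : Ω → ℤ)
    (hmul : ∀ x ∈ E, ∀ y ∈ E, x ≠ 0 → y ≠ 0 → ord (x * y) = ord x + ord y)
    (hsq : ∀ z ∈ E, z ≠ 0 → 0 < ord z → ∃ w ∈ E, 1 + z = w ^ 2)
    {c : Ω} (hc : c ∈ E) (hc0 : c ≠ 0) (hodd : Odd (ord c)) {x y : Ω} (hx : x ∈ E) (hy : y ∈ E) :
    (∃ w ∈ E, x ^ 2 + c * y ^ 2 = w ^ 2) ∨ ∃ w ∈ E, x ^ 2 + c * y ^ 2 = c * w ^ 2 := by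
  have hord1 : ord 1 = 0 := by
    have h := hmul 1 E.one_mem 1 E.one_mem one_ne_zero one_ne_zero
    rw [one_mul] at h
    omega
  have hsq' : ∀ x ∈ E, x ≠ 0 → ord (x ^ 2) = 2 * ord x := by
    intro x hx hx0
    rw [pow_two, hmul x hx x hx hx0 hx0]
    ring
  have hinv : ∀ x ∈ E, x ≠ 0 → ord x⁻¹ = - ord x := by
    intro x hx hx0
    have h := hmul x hx x⁻¹ (inv_mem hx) hx0 (inv_ne_zero hx0)
    rw [mul_inv_cancel₀ hx0, hord1] at h
    omega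
  by_cases hx0 : x = 0
  · exact Or.inr ⟨y, hy, by rw [hx0]; ring⟩
  by_cases hy0 : y = 0
  · exact Or.inl ⟨x, hx, by rw [hy0]; ring⟩
  have hx2 : x ^ 2 ∈ E := pow_mem hx 2
  have hy2 : y ^ 2 ∈ E := pow_mem hy 2
  have hx20 : x ^ 2 ≠ 0 := pow_ne_zero 2 hx0
  have hy20 : y ^ 2 ≠ 0 := pow_ne_zero 2 hy0
  have hcy : c * y ^ 2 ∈ E := mul_mem hc hy2
  have hcy0 : c * y ^ 2 ≠ 0 := mul_ne_zero hc0 hy20
  have e1 : ord (c * y ^ 2) = ord c + 2 * ord y := by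
    rw [hmul c hc _ hy2 hc0 hy20, hsq' y hy hy0]
  have e2 := hsq' x hx hx0
  obtain ⟨n, hn⟩ := hodd
  rcases lt_or_gt_of_ne (show ord (x ^ 2) ≠ ord (c * y ^ 2) by omega) with hlt | hlt
  · obtain ⟨w, hw, hw2⟩ := hsq (c * y ^ 2 * (x ^ 2)⁻¹) (mul_mem hcy (inv_mem hx2))
      (mul_ne_zero hcy0 (inv_ne_zero hx20)) (by
        rw [hmul _ hcy _ (inv_mem hx2) hcy0 (inv_ne_zero hx20), hinv _ hx2 hx20]
        omega)
    refine Or.inl ⟨x * w, mul_mem hx hw, ?_⟩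
    rw [mul_pow, ← hw2]
    field_simp
  · obtain ⟨w, hw, hw2⟩ := hsq (x ^ 2 * (c * y ^ 2)⁻¹) (mul_mem hx2 (inv_mem hcy))
      (mul_ne_zero hx20 (inv_ne_zero hcy0)) (by
        rw [hmul _ hx2 _ (inv_mem hcy) hx20 (inv_ne_zero hcy0), hinv _ hcy hcy0]
        omega)
    refine Or.inr ⟨y * w, mul_mem hy hw, ?_⟩
    rw [mul_pow, ← hw2]
    field_simp
    ring

/-- the local theorem for the fixed field of a section over a field `E` of algebraic elements -/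
theorem exists_mixed {κ Ω : Type} [Field κ] [CharZero κ] [Field Ω] [IsAlgClosed Ω] [Algebra κ Ω] (S : Sec κ Ω)
    (E : IntermediateField κ Ω) (hEalg : ∀ z ∈ E, IsAlgebraic κ z) (ord : Ω → ℤ) (π : Ω)
    (hmul : ∀ x ∈ E, ∀ y ∈ E, x ≠ 0 → y ≠ 0 → ord (x * y) = ord x + ord y)
    (hπ : π ∈ E ∧ π ≠ 0 ∧ ord π = 1) (hsq : ∀ z ∈ E, z ≠ 0 → 0 < ord z → ∃ w ∈ E, 1 + z = w ^ 2) (hi : ∃ i ∈ E, i ^ 2 = (-1 : Ω))
    (hA1 : ∀ V : ValuationSubring E, (∀ z : E, z ≠ 0 → 0 < ord (z : Ω) → V.valuation z < 1) →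
      (∀ z : E, V.valuation z < 1 → ∃ w : E, 1 + z = w ^ 2) → ∀ z : E, z ≠ 0 → 0 ≤ ord (z : Ω) → z ∈ V)
    (hA2 : ∃ a ∈ E, a ≠ 0 ∧ 1 + a ≠ 0 ∧ ord a = 0 ∧ ord (1 + a) = 0 ∧ (¬ ∃ w ∈ E, a = w ^ 2) ∧ (¬ ∃ w ∈ E, 1 + a = w ^ 2) ∧
      ¬ ∃ w ∈ E, a * (1 + a) = w ^ 2) :
    ∃ V : ValuationSubring Ω, (∀ z ∈ E, z ≠ 0 → (z ∈ V ↔ 0 ≤ ord z)) ∧
      (∀ z ∈ S.F (E : Set Ω), V.valuation z < 1 → z = 0 ∨ LPrim E.toSubfield (S.F (E : Set Ω)) ord z ∨
        ∃ x y : Ω, LPrim E.toSubfield (S.F (E : Set Ω)) ord x ∧ LPrim E.toSubfield (S.F (E : Set Ω)) ord y ∧ z = x * y) ∧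
      ∀ z : Ω, LPrim E.toSubfield (S.F (E : Set Ω)) ord z → V.valuation z < 1 := by
  have hEA : ∀ x ∈ (E : Set Ω), IsAlgebraic κ x := fun x hx => hEalg x hx
  have hadj : IntermediateField.adjoin κ (E : Set Ω) = E := IntermediateField.adjoin_self _ E
  have hEL : E.toSubfield ≤ S.F (E : Set Ω) := fun z hz => mem_F_of_mem S _ z hz (hEalg z hz)
  have hmem : ∀ w ∈ S.F (E : Set Ω), IsAlgebraic κ w → w ∈ E := by
    intro w hw hwa
    have := mem_adjoin S (E : Set Ω) hEA w hw hwa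
    rwa [hadj] at this
  have hord1 : ord 1 = 0 := by
    have h := hmul 1 E.one_mem 1 E.one_mem one_ne_zero one_ne_zero
    rw [one_mul] at h
    omega
  have hneg : ∀ x ∈ E, x ≠ 0 → ord (-x) = ord x := by
    intro x hx hx0
    have h0 : (-1 : Ω) ∈ E := neg_mem E.one_mem
    have h1 := hmul (-1) h0 (-1) h0 (neg_ne_zero.2 one_ne_zero) (neg_ne_zero.2 one_ne_zero)
    rw [neg_one_mul, neg_neg, hord1] at h1
    have h2 := hmul (-1) h0 x hx (neg_ne_zero.2 one_ne_zero) hx0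
    rw [neg_one_mul] at h2
    omega
  refine local_mixed E.toSubfield (S.F (E : Set Ω)) hEL ord π hmul hπ hsq hi hA1 hA2 ?_ ?_ ?_
  · intro z hz w hw hzw
    refine ⟨w, hmem w hw ?_, hzw⟩
    have h2 : IsAlgebraic κ (w ^ 2) := by rw [← hzw]; exact hEalg z hz
    exact IsAlgebraic.of_pow two_pos h2
  · intro z hz h0
    obtain ⟨c, hc, hc0, w, hw, _, e⟩ := k2 S (E : Set Ω) hEA z hz h0
    rw [hadj] at hc
    exact ⟨c, hc, hc0, w, hw, e⟩
  · intro c hc hc0 hodd l hl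
    have hns : ¬ ∃ d ∈ E, -c = d ^ 2 := by
      rintro ⟨d, hd, hcd⟩
      have hd0 : d ≠ 0 := by
        rintro rfl
        apply hc0
        have : -c = 0 := by rw [hcd]; ring
        exact neg_eq_zero.1 this
      have e1 := hneg c hc hc0
      rw [hcd, pow_two, hmul d hd d hd hd0 hd0] at e1
      obtain ⟨n, hn⟩ := hodd
      omega
    obtain ⟨r₁, hr₁, r₂, hr₂, N, hN, e⟩ := norm_step S E hEalg c hc hns l hl
    rcases gs_form E.toSubfield ord hmul hsq hc hc0 hodd hr₁ hr₂ with ⟨w, hw, hw2⟩ | ⟨w, hw, hw2⟩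
    · exact Or.inl ⟨w * N, mul_mem (hEL hw) hN, by rw [e, hw2]; ring⟩
    · exact Or.inr ⟨w * N, mul_mem (hEL hw) hN, by rw [e, hw2]; ring⟩

end BSC
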