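import Pool.Agent.Lib_MP_49ddc8.Vone

/-!
# [BSC-W1], [BSC-W2], [BSC-W3], [BSC-W4]  Finitely many elements at one place, and the ultrafilter

[BSC-W1] `Xi.moeb`: `p` from `Xi.red` for `y`; `k1` is infinite, so there is `c ∈ k1` with `p(c) ≠ 0` (`aeval c p`, an element of `k1(t)`).  `y ≠ c`: otherwise `y ∈ U` (`Loc.coarse_kt` or `coarse_alg`) and `p(y) = p(c)` would have value 1 and `< 1` (place `none` of the level `k1`).
If `(y - c)⁻¹ ∉ U` then `y - c ∈ 𝔪_U`, `y ∈ U`, `p(y) ∈ 𝔪_U`, and `p(y) - p(c) ∈ (y - c) U`, so `p(c) ∈ 𝔪_U`, but `p(c)` is algebraic, `≠ 0`: value 1.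

[BSC-W2] `generic`: for a tuple `ρ` with some `ρ_i ∉ K` fewer than `n` (natural) numbers `l` satisfy `∑ l^i ρ_i ∈ K` (`n` different ones: the Vandermonde matrix over `ℚ` is invertible, so all `ρ_i ∈ K`); finitely many tuples.

[BSC-W3] `Xi.V2`: `c_i` from `Xi.moeb` for `y_i`, `y'_i = (y_i - c_i)⁻¹ ∈ U` for all places of levels `≥ k1`.  `R_i` from `Xi.roots` for `y'_i`.  `l` from `generic` for the subfield `kinfF`.  `k3 ≥ k1` a level with `R_i ∩ kinf ⊆ k3(t)` for all `i` (directedness, `kt_mono`).  `Xi.V1` for `y = ∑ l^i y'_i ∈ F k3`: a place `(k', a)`, `k' ≥ k3`; `y ∈ U`,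
so `y - r ∈ 𝔪_U`, `r ∈ kt k'`.  `y'_i - ρ_i ∈ 𝔪_U`, `ρ_i ∈ R_i`; so `∑ l^i ρ_i - r ∈ 𝔪_U` is algebraic over `RatFunc k`, so it is `0` (`Loc.coarse_alg`); by `generic` `ρ_i ∈ kinf`, so `ρ_i ∈ kt k3 ≤ kt k'`.  If `ρ_i ≠ 0`: `y_i = c_i + 1/y'_i` and `y_i - (c_i + 1/ρ_i) = (ρ_i - y'_i)/(ρ_i y'_i) ∈ 𝔪_U`.
If `ρ_i = 0`: `y'_i ∈ 𝔪_U`, `y_i - c_i = 1/y'_i ∉ U`, so `y_i ∉ U`.

[BSC-W4] `Xi.V3`: index set `J = {(k', a) : Y.k0 ≤ k', FiniteDimensional}`.  For `y ∈ Finf` let `S_y = {(k', a) ∈ J : y ∈ F k' and (y ∉ Y.U k' a or ∃ r ∈ kt k', |y - r|_U < 1)}`.  Finite intersections are nonempty by `Xi.V2` (take `k1` above `Y.k0` and the levels of the `y_i`), so there is an ultrafilter containing all `S_y`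
(`Filter.generate`, `Ultrafilter.of`, or `Ultrafilter` from the finite intersection property).  `U = {z : ∀ᶠ j, z ∈ Y.U j}` is a valuation ring of `Ω` (for each `z` one of `z ∈ Y.U j`, `z⁻¹ ∈ Y.U j` holds eventually); `U.valuation z < 1` iff `z = 0` or `z⁻¹ ∉ U` iff eventually `(Y.U j).valuation z < 1`.
Algebraic elements are in all `Y.U j` (`coarse_alg`).  `ξ`: `Xi.small`.  For `y ∈ Finf ∩ U`: eventually `|y - r_j| < 1` with `r_j ∈ kt k'_j`, and `|y - ρ_j| < 1` with `ρ_j ∈ R` (`Xi.roots`), so `r_j = ρ_j ∈ R` (algebraic elements of `𝔪` are `0`); `R` is finite, so there is `r ∈ R` with eventually `r_j = r`.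
-/

set_option autoImplicit false

open Polynomial

namespace BSC

section

variable {k Ω : Type} [Field k] [CharZero k] [Field Ω] [IsAlgClosed Ω] [Algebra k Ω] [Algebra (RatFunc k) Ω]
  [IsScalarTower k (RatFunc k) Ω]

/-- `kbar(t)` as a field -/
noncomputable def kinfF (k Ω : Type) [Field k] [Field Ω] [Algebra k Ω] [Algebra (RatFunc k) Ω] :
    IntermediateField (RatFunc k) Ω :=
  IntermediateField.adjoin (RatFunc k) {c : Ω | IsAlgebraic k c}

private theorem w0_dir (x y : Ω) (hx : x ∈ kinf k Ω) (hy : y ∈ kinf k Ω) :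
    ∃ k' : IntermediateField k Ω, FiniteDimensional k k' ∧ x ∈ kt k' ∧ y ∈ kt k' := by
  obtain ⟨k1, hf1, h1⟩ := hx
  obtain ⟨k2, hf2, h2⟩ := hy
  exact ⟨k1 ⊔ k2, inferInstance, kt_mono k1 (k1 ⊔ k2) le_sup_left h1, kt_mono k2 (k1 ⊔ k2) le_sup_right h2⟩

private theorem w0_dirF (S : Sec (RatFunc k) Ω) (x y : Ω) (hx : x ∈ Finf S) (hy : y ∈ Finf S) :
    ∃ k' : IntermediateField k Ω, FiniteDimensional k k' ∧ x ∈ S.F k' ∧ y ∈ S.F k' := by
  obtain ⟨k1, hf1, h1⟩ := hx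
  obtain ⟨k2, hf2, h2⟩ := hy
  have e1 : k1 ≤ k1 ⊔ k2 := le_sup_left
  have e2 : k2 ≤ k1 ⊔ k2 := le_sup_right
  exact ⟨k1 ⊔ k2, inferInstance, S.F_mono e1 h1, S.F_mono e2 h2⟩

theorem mem_kinfF (z : Ω) : z ∈ kinfF k Ω ↔ z ∈ kinf k Ω := by
  constructor
  · intro hz
    unfold kinfF at hz
    induction hz using IntermediateField.adjoin_induction with
    | mem c hc =>
      obtain ⟨k', -, hf, hA⟩ := exists_level (⊥ : IntermediateField k Ω) inferInstance {c} (Set.finite_singleton c)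
        (fun x hx => by rw [Set.mem_singleton_iff.1 hx]; exact hc)
      exact ⟨k', hf, IntermediateField.subset_adjoin _ _ (hA rfl)⟩
    | algebraMap x => exact ⟨⊥, inferInstance, IntermediateField.algebraMap_mem _ x⟩
    | add x y _ _ hx hy =>
      obtain ⟨k', hf, h1, h2⟩ := w0_dir x y hx hy
      exact ⟨k', hf, add_mem h1 h2⟩
    | inv x _ hx =>
      obtain ⟨k', hf, h1⟩ := hx
      exact ⟨k', hf, inv_mem h1⟩
    | mul x y _ _ hx hy =>
      obtain ⟨k', hf, h1, h2⟩ := w0_dir x y hx hy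
      exact ⟨k', hf, mul_mem h1 h2⟩
  · rintro ⟨k', hf, hz⟩
    exact IntermediateField.adjoin.mono _ _ _ (fun c hc => (level_alg k' hf c hc).1) hz

theorem kinf_alg (z : Ω) (hz : z ∈ kinf k Ω) : IsAlgebraic (RatFunc k) z := by
  obtain ⟨k', hf, h1⟩ := hz
  exact kt_alg k' hf z h1

theorem Finf_add (S : Sec (RatFunc k) Ω) (x y : Ω) (hx : x ∈ Finf S) (hy : y ∈ Finf S) : x + y ∈ Finf S := by
  obtain ⟨k', hf, h1, h2⟩ := w0_dirF S x y hx hy
  exact ⟨k', hf, add_mem h1 h2⟩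

theorem Finf_mul (S : Sec (RatFunc k) Ω) (x y : Ω) (hx : x ∈ Finf S) (hy : y ∈ Finf S) : x * y ∈ Finf S := by
  obtain ⟨k', hf, h1, h2⟩ := w0_dirF S x y hx hy
  exact ⟨k', hf, mul_mem h1 h2⟩

theorem Finf_neg (S : Sec (RatFunc k) Ω) (x : Ω) (hx : x ∈ Finf S) : -x ∈ Finf S := by
  obtain ⟨k', hf, h1⟩ := hx
  exact ⟨k', hf, neg_mem h1⟩

theorem Finf_inv (S : Sec (RatFunc k) Ω) (x : Ω) (hx : x ∈ Finf S) : x⁻¹ ∈ Finf S := by
  obtain ⟨k', hf, h1⟩ := hx
  exact ⟨k', hf, inv_mem h1⟩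

theorem kinf_sub_Finf (S : Sec (RatFunc k) Ω) (x : Ω) (hx : x ∈ kinf k Ω) : x ∈ Finf S := by
  obtain ⟨k', hf, h1⟩ := hx
  exact ⟨k', hf, kt_le_F S k' hf x h1⟩

theorem F_empty_sub_Finf (S : Sec (RatFunc k) Ω) (x : Ω) (hx : x ∈ S.F ∅) : x ∈ Finf S :=
  ⟨⊥, inferInstance, S.F_mono (Set.empty_subset _) hx⟩

/-- `F_∞` as a field -/
noncomputable def FinfF (S : Sec (RatFunc k) Ω) : Subfield Ω where
  carrier := Finf S
  mul_mem' := fun hx hy => Finf_mul S _ _ hx hy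
  one_mem' := kinf_sub_Finf S 1 ((mem_kinfF 1).1 (one_mem _))
  add_mem' := fun hx hy => Finf_add S _ _ hx hy
  zero_mem' := kinf_sub_Finf S 0 ((mem_kinfF 0).1 (zero_mem _))
  neg_mem' := fun hx => Finf_neg S _ hx
  inv_mem' := fun _ hx => Finf_inv S _ hx

variable {Y : Sys k Ω} {ξ : Ω}

private theorem w1_pow {V : ValuationSubring Ω} {y c : Ω} (hy : y ∈ V) (hc : c ∈ V)
    (h : V.valuation (y - c) < 1) (n : ℕ) : V.valuation (y ^ n - c ^ n) < 1 := by
  induction n with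
  | zero => simp
  | succ n ih =>
    have e : y ^ (n + 1) - c ^ (n + 1) = y * (y ^ n - c ^ n) + (y - c) * c ^ n := by ring
    rw [e]
    refine V.valuation.map_add_lt ?_ ?_
    · rw [map_mul]
      exact mul_lt_one_of_nonneg_of_lt_one_right ((V.valuation_le_one_iff _).2 hy) zero_le' ih
    · rw [map_mul]
      exact mul_lt_one_of_nonneg_of_lt_one_left zero_le' h
        ((V.valuation_le_one_iff _).2 (pow_mem hc n))

private theorem w1_poly {V : ValuationSubring Ω} (hV : ∀ a : RatFunc k, algebraMap (RatFunc k) Ω a ∈ V)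
    {y c : Ω} (hy : y ∈ V) (hc : c ∈ V) (h : V.valuation (y - c) < 1) (p : (RatFunc k)[X]) :
    V.valuation (aeval y p - aeval c p) < 1 := by
  induction p using Polynomial.induction_on' with
  | add p q hp hq =>
    have e : aeval y (p + q) - aeval c (p + q) = (aeval y p - aeval c p) + (aeval y q - aeval c q) := by
      rw [map_add, map_add]
      ring
    rw [e]
    exact V.valuation.map_add_lt hp hq
  | monomial n a =>
    rw [aeval_monomial, aeval_monomial, ← mul_sub, map_mul]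
    exact mul_lt_one_of_nonneg_of_lt_one_right ((V.valuation_le_one_iff _).2 (hV a)) zero_le'
      (w1_pow hy hc h n)

theorem Xi.moeb (X : Xi Y ξ) (k1 : IntermediateField k Ω) (hk1 : Y.k0 ≤ k1) (hfin1 : FiniteDimensional k k1) (y : Ω) :
    ∃ c ∈ k1, y ≠ c ∧ ∀ k' : IntermediateField k Ω, k1 ≤ k' → FiniteDimensional k k' → ∀ a : Option k',
      (y - c)⁻¹ ∈ Y.U k' a := by
  have hchar : CharZero Ω := charZero_of_injective_algebraMap (algebraMap k Ω).injective
  obtain ⟨p, hp0, hp⟩ := X.red y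
  obtain ⟨n, hn⟩ : ∃ n : ℕ, aeval (n : Ω) p ≠ 0 := by
    by_contra hcon
    push Not at hcon
    apply hp0
    have hmap : p.map (algebraMap (RatFunc k) Ω) = 0 := by
      apply Polynomial.eq_zero_of_infinite_isRoot
      refine Set.Infinite.mono ?_ (Set.infinite_range_of_injective (Nat.cast_injective (R := Ω)))
      rintro _ ⟨n, rfl⟩
      show IsRoot _ _
      rw [IsRoot.def, eval_map_algebraMap]
      exact hcon n
    exact (Polynomial.map_eq_zero _).1 hmap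
  have hval : ∀ k' : IntermediateField k Ω, k1 ≤ k' → FiniteDimensional k k' → ∀ a : Option k',
      (Y.U k' a).valuation (aeval (n : Ω) p) = 1 := by
    intro k' hk hfin a
    have e : aeval (n : Ω) p = algebraMap (RatFunc k) Ω (aeval (n : RatFunc k) p) := by
      rw [← Polynomial.aeval_algebraMap_apply, map_natCast]
    refine Loc.coarse_alg hfin (Y.loc k' (hk1.trans hk) hfin a) _ ?_ hn
    rw [e]
    exact isAlgebraic_algebraMap _
  have hcoef : ∀ k' : IntermediateField k Ω, k1 ≤ k' → FiniteDimensional k k' → ∀ a : Option k',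
      ∀ b : RatFunc k, algebraMap (RatFunc k) Ω b ∈ Y.U k' a := by
    intro k' hk hfin a b
    by_cases hb : algebraMap (RatFunc k) Ω b = 0
    · rw [hb]
      exact zero_mem _
    · rw [← ValuationSubring.valuation_le_one_iff]
      exact (Loc.coarse_alg hfin (Y.loc k' (hk1.trans hk) hfin a) _ (isAlgebraic_algebraMap b) hb).le
  have hnU : ∀ (k' : IntermediateField k Ω) (a : Option k'), (n : Ω) ∈ Y.U k' a := fun k' a => natCast_mem _ n
  refine ⟨(n : Ω), natCast_mem k1 n, ?_, ?_⟩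
  · intro hy
    have h1 := hp k1 hk1 hfin1 none (by rw [hy]; exact hnU k1 none)
    rw [hy, hval k1 le_rfl hfin1 none] at h1
    exact lt_irrefl _ h1
  · intro k' hk hfin a
    by_contra hcon
    have hlt : (Y.U k' a).valuation (y - n) < 1 := by
      have h1 : 1 < (Y.U k' a).valuation (y - n)⁻¹ :=
        not_le.1 (mt ((Y.U k' a).valuation_le_one_iff _).1 hcon)
      rw [map_inv₀] at h1
      by_contra h2
      push Not at h2
      exact absurd h1 (not_lt.2 (inv_le_one_of_one_le₀ h2))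
    have hyU : y ∈ Y.U k' a := by
      have e : y = (y - n) + n := by ring
      rw [e]
      exact add_mem (((Y.U k' a).valuation_le_one_iff _).1 hlt.le) (hnU k' a)
    have h3 := hp k' (hk1.trans hk) hfin a hyU
    have h4 := w1_poly (hcoef k' hk hfin a) hyU (hnU k' a) hlt p
    have h5 : (Y.U k' a).valuation (aeval (n : Ω) p) < 1 := by
      have e : aeval (n : Ω) p = aeval y p - (aeval y p - aeval (n : Ω) p) := by ring
      rw [e]
      exact Valuation.map_sub_lt _ h3 h4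
    rw [hval k' hk hfin a] at h5
    exact lt_irrefl _ h5

private theorem W2_finite {Ω : Type} [Field Ω] [CharZero Ω] (K : Subfield Ω) (n : ℕ) (ρ : Fin n → Ω)
    (i₀ : Fin n) (hi₀ : ρ i₀ ∉ K) : {l : ℕ | ∑ i : Fin n, (l : Ω) ^ (i : ℕ) * ρ i ∈ K}.Finite := by
  have hmem : ∀ x : Ω, x ∈ LinearMap.range (Algebra.linearMap K Ω) ↔ x ∈ K := by
    intro x
    constructor
    · rintro ⟨y, rfl⟩
      exact y.2
    · intro hx
      exact ⟨⟨x, hx⟩, rfl⟩
  obtain ⟨f, hf1, hf2⟩ := Submodule.exists_le_ker_of_notMem (K := K)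
    (p := LinearMap.range (Algebra.linearMap K Ω)) (v := ρ i₀) (fun h => hi₀ ((hmem _).1 h))
  -- the polynomial `∑ f (ρ i) X ^ i` has the roots `l`
  set P : Polynomial K := ∑ i : Fin n, Polynomial.monomial (i : ℕ) (f (ρ i)) with hP
  have hP0 : P ≠ 0 := by
    intro h
    apply hf1
    have h1 : P.coeff (i₀ : ℕ) = f (ρ i₀) := by
      rw [hP, Polynomial.finsetSum_coeff, Finset.sum_eq_single i₀]
      · rw [Polynomial.coeff_monomial, if_pos rfl]
      · intro j _ hj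
        rw [Polynomial.coeff_monomial, if_neg]
        intro h
        exact hj (Fin.ext h)
      · intro h
        exact absurd (Finset.mem_univ _) h
    rw [← h1, h, Polynomial.coeff_zero]
  have : CharZero K := ⟨fun a b h => by
    have h1 : ((a : K) : Ω) = ((b : K) : Ω) := congrArg _ h
    push_cast at h1
    exact_mod_cast h1⟩
  have hinj : Set.InjOn (fun l : ℕ => (l : K)) (Set.univ) := fun a _ b _ h => Nat.cast_injective h
  have hfin : {x : K | P.IsRoot x}.Finite := by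
    classical
    refine (P.roots.toFinset.finite_toSet).subset ?_
    intro x hx
    exact Finset.mem_coe.2 (Multiset.mem_toFinset.2 ((Polynomial.mem_roots hP0).2 hx))
  refine Set.Finite.subset (hfin.preimage (f := fun l : ℕ => (l : K)) (hinj.mono (Set.subset_univ _))) ?_
  intro l hl
  simp only [Set.mem_ofPred_eq, Set.mem_preimage] at hl ⊢
  have h2 := hf2 ((hmem _).2 hl)
  rw [LinearMap.mem_ker, map_sum] at h2
  rw [Polynomial.IsRoot.def, hP, Polynomial.eval_finsetSum, ← h2]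
  refine Finset.sum_congr rfl fun i _ => ?_
  rw [Polynomial.eval_monomial]
  have h3 : (l : Ω) ^ (i : ℕ) * ρ i = ((l : K) ^ (i : ℕ)) • ρ i := by
    rw [Subfield.smul_def, smul_eq_mul]
    push_cast
    rfl
  rw [h3, map_smul, smul_eq_mul, mul_comm]

theorem generic {Ω : Type} [Field Ω] [CharZero Ω] (K : Subfield Ω) (n : ℕ) (R : Fin n → Finset Ω) :
    ∃ l : ℕ, ∀ ρ : Fin n → Ω, (∀ i, ρ i ∈ R i) → ∑ i : Fin n, (l : Ω) ^ (i : ℕ) * ρ i ∈ K → ∀ i, ρ i ∈ K := by
  classical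
  -- the bad values of `l`
  set T : Set (Fin n → Ω) := {ρ | (∀ i, ρ i ∈ R i) ∧ ∃ i, ρ i ∉ K} with hT
  have hTfin : T.Finite := by
    refine Set.Finite.subset (Set.Finite.pi' (fun i => (R i).finite_toSet)) ?_
    rintro ρ ⟨h, -⟩ i
    exact h i
  have hbad : (⋃ ρ ∈ T, {l : ℕ | ∑ i : Fin n, (l : Ω) ^ (i : ℕ) * ρ i ∈ K}).Finite := by
    refine hTfin.biUnion ?_
    rintro ρ ⟨-, i₀, hi₀⟩
    exact W2_finite K n ρ i₀ hi₀
  obtain ⟨l, hl⟩ := hbad.infinite_compl.nonempty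
  refine ⟨l, fun ρ hρ hsum => ?_⟩
  by_contra hcon
  push Not at hcon
  apply hl
  rw [Set.mem_iUnion₂]
  exact ⟨ρ, ⟨hρ, hcon⟩, hsum⟩

private theorem w3_level (k1 : IntermediateField k Ω) (hfin1 : FiniteDimensional k k1) (T : Finset Ω) :
    (∀ ρ ∈ T, ρ ∈ kinf k Ω) → ∃ k3 : IntermediateField k Ω, k1 ≤ k3 ∧ FiniteDimensional k k3 ∧ ∀ ρ ∈ T, ρ ∈ kt k3 := by
  classical
  induction T using Finset.induction_on with
  | empty => intro _; exact ⟨k1, le_rfl, hfin1, by simp⟩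
  | insert ρ T _ ih =>
    intro h
    obtain ⟨k3, h1, h2, h3⟩ := ih (fun x hx => h x (Finset.mem_insert_of_mem hx))
    obtain ⟨k', hk', hρ⟩ := h ρ (Finset.mem_insert_self _ _)
    haveI := h2
    haveI := hk'
    refine ⟨k3 ⊔ k', h1.trans le_sup_left, IntermediateField.finiteDimensional_sup k3 k', ?_⟩
    intro x hx
    rcases Finset.mem_insert.1 hx with rfl | hx
    · exact kt_mono k' _ le_sup_right hρ
    · exact kt_mono k3 _ le_sup_left (h3 x hx)

theorem Xi.V2 (X : Xi Y ξ) (k1 : IntermediateField k Ω) (hk1 : Y.k0 ≤ k1) (hfin1 : FiniteDimensional k k1) (n : ℕ)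
    (y : Fin n → Ω) (hy : ∀ i, y i ∈ Y.S.F k1) : ∃ k' : IntermediateField k Ω, k1 ≤ k' ∧ FiniteDimensional k k' ∧
      ∃ a : Option k', ∀ i, y i ∉ Y.U k' a ∨ ∃ r ∈ kt k', (Y.U k' a).valuation (y i - r) < 1 := by
  classical
  haveI : CharZero Ω := charZero_of_injective_algebraMap (algebraMap k Ω).injective
  choose c hc hyc hcU using fun i => X.moeb k1 hk1 hfin1 (y i)
  choose R hRalg hR using fun i => X.roots ((y i - c i)⁻¹)
  obtain ⟨l, hl⟩ := generic (kinfF k Ω).toSubfield n R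
  obtain ⟨k3, h13, hfin3, hk3⟩ := w3_level k1 hfin1
    ((Finset.univ.biUnion R).filter (fun ρ => ρ ∈ kinf k Ω)) (fun ρ hρ => (Finset.mem_filter.1 hρ).2)
  have hck : ∀ i, ∀ K : IntermediateField k Ω, k1 ≤ K → c i ∈ kt K := fun i K hK =>
    IntermediateField.subset_adjoin _ _ (hK (hc i))
  have hyF : ∑ i : Fin n, (l : Ω) ^ (i : ℕ) * (y i - c i)⁻¹ ∈ Y.S.F k3 := by
    refine sum_mem fun i _ => mul_mem (pow_mem (natCast_mem _ l) _) (inv_mem (sub_mem ?_ ?_))
    · exact Y.S.F_mono h13 (hy i)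
    · exact kt_le_F Y.S k3 hfin3 _ (hck i k3 h13)
  obtain ⟨k', hk', hfin', a, ha⟩ := X.V1 k3 (hk1.trans h13) hfin3 _ hyF
  have h1' : k1 ≤ k' := h13.trans hk'
  have h0' : Y.k0 ≤ k' := hk1.trans h1'
  have hloc := Y.loc k' h0' hfin' a
  have hlU : ∀ i : ℕ, (Y.U k' a).valuation ((l : Ω) ^ i) ≤ 1 := fun i =>
    (ValuationSubring.valuation_le_one_iff _ _).2 (pow_mem (natCast_mem _ l) _)
  have hyU : ∑ i : Fin n, (l : Ω) ^ (i : ℕ) * (y i - c i)⁻¹ ∈ Y.U k' a :=
    sum_mem fun i _ => mul_mem (pow_mem (natCast_mem _ l) _) (hcU i k' h1' hfin' a)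
  obtain ⟨r, hr, hyr⟩ := ha.resolve_left (fun h => h hyU)
  choose ρ hρR hρ using fun i => hR i k' h0' hfin' a (hcU i k' h1' hfin' a)
  have hsum : (Y.U k' a).valuation (∑ i : Fin n, (l : Ω) ^ (i : ℕ) * ((y i - c i)⁻¹ - ρ i)) < 1 := by
    refine Valuation.map_sum_lt _ one_ne_zero fun i _ => ?_
    rw [map_mul]
    calc (Y.U k' a).valuation ((l : Ω) ^ (i : ℕ)) * (Y.U k' a).valuation ((y i - c i)⁻¹ - ρ i)
        ≤ 1 * (Y.U k' a).valuation ((y i - c i)⁻¹ - ρ i) := mul_le_mul' (hlU i) le_rfl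
      _ < 1 := by rw [one_mul]; exact hρ i
  have hdiff : (Y.U k' a).valuation (∑ i : Fin n, (l : Ω) ^ (i : ℕ) * ρ i - r) < 1 := by
    have e : ∑ i : Fin n, (l : Ω) ^ (i : ℕ) * ρ i - r =
        (∑ i : Fin n, (l : Ω) ^ (i : ℕ) * (y i - c i)⁻¹ - r) -
          ∑ i : Fin n, (l : Ω) ^ (i : ℕ) * ((y i - c i)⁻¹ - ρ i) := by
      have e1 : ∑ i : Fin n, (l : Ω) ^ (i : ℕ) * ((y i - c i)⁻¹ - ρ i) =
          ∑ i : Fin n, (l : Ω) ^ (i : ℕ) * (y i - c i)⁻¹ - ∑ i : Fin n, (l : Ω) ^ (i : ℕ) * ρ i := by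
        rw [← Finset.sum_sub_distrib]
        exact Finset.sum_congr rfl fun i _ => by ring
      rw [e1]
      ring
    rw [e]
    exact lt_of_le_of_lt (Valuation.map_sub _ _ _) (max_lt hyr hsum)
  have halg : IsAlgebraic (RatFunc k) (∑ i : Fin n, (l : Ω) ^ (i : ℕ) * ρ i - r) := by
    rw [← mem_algebraicClosure_iff]
    refine sub_mem (sum_mem fun i _ => mul_mem (pow_mem (natCast_mem _ l) _) ?_) ?_
    · exact mem_algebraicClosure_iff.2 (hRalg i _ (hρR i))
    · exact mem_algebraicClosure_iff.2 (kt_alg k' hfin' r hr)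
  have hzero : ∑ i : Fin n, (l : Ω) ^ (i : ℕ) * ρ i - r = 0 := by
    by_contra hne
    have h1 : (Y.U k' a).valuation (∑ i : Fin n, (l : Ω) ^ (i : ℕ) * ρ i - r) = 1 :=
      hloc.coarse_alg hfin' _ halg hne
    rw [h1] at hdiff
    exact lt_irrefl _ hdiff
  have hρk : ∀ i, ρ i ∈ kt k' := by
    intro i
    have h1 : ρ i ∈ (kinfF k Ω).toSubfield := by
      refine hl ρ hρR ?_ i
      rw [sub_eq_zero.1 hzero]
      exact (mem_kinfF r).2 ⟨k', hfin', hr⟩
    have h2 : ρ i ∈ kinf k Ω := (mem_kinfF _).1 h1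
    refine kt_mono k3 k' hk' (hk3 (ρ i) (Finset.mem_filter.2 ⟨?_, h2⟩))
    exact Finset.mem_biUnion.2 ⟨i, Finset.mem_univ _, hρR i⟩
  refine ⟨k', h1', hfin', a, fun i => ?_⟩
  have hy0 : y i - c i ≠ 0 := sub_ne_zero.2 (hyc i)
  by_cases hρ0 : ρ i = 0
  · left
    intro hyi
    have h1 := hρ i
    rw [hρ0, sub_zero, map_inv₀] at h1
    have h2 : y i - c i ∈ Y.U k' a := by
      refine sub_mem hyi (le_coarse _ _ _ ?_)
      exact hloc.const _ (h1' (hc i))
    have h3 := (ValuationSubring.valuation_le_one_iff _ _).2 h2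
    have h4 : 0 < (Y.U k' a).valuation (y i - c i) := zero_lt_iff.2 ((Valuation.ne_zero_iff _).2 hy0)
    rw [inv_lt_one₀ h4] at h1
    exact absurd h3 (not_le.2 h1)
  · right
    have hv1 : (Y.U k' a).valuation (ρ i) = 1 := hloc.coarse_alg hfin' _ (hRalg i _ (hρR i)) hρ0
    have hv2 : (Y.U k' a).valuation ((y i - c i)⁻¹) = 1 := by
      have h1 : (y i - c i)⁻¹ = ρ i + ((y i - c i)⁻¹ - ρ i) := by ring
      rw [h1, Valuation.map_add_eq_of_lt_left _ (by rw [hv1]; exact hρ i), hv1]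
    have hv3 : (Y.U k' a).valuation (y i - c i) = 1 := by
      rw [map_inv₀, inv_eq_one] at hv2
      exact hv2
    refine ⟨c i + (ρ i)⁻¹, add_mem (hck i k' h1') (inv_mem (hρk i)), ?_⟩
    have e : y i - (c i + (ρ i)⁻¹) = -(((y i - c i)⁻¹ - ρ i) * (y i - c i) * (ρ i)⁻¹) := by
      field_simp
      ring
    rw [e, Valuation.map_neg, map_mul, map_mul, map_inv₀, hv1, hv3, inv_one, mul_one, mul_one]
    exact hρ i

theorem v3_lt_one {Ω : Type} [Field Ω] (V : ValuationSubring Ω) (z : Ω) (hz : z ≠ 0) :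
    V.valuation z < 1 ↔ z⁻¹ ∉ V := by
  have h0 : 0 < V.valuation z := by
    rw [pos_iff_ne_zero]
    exact (Valuation.ne_zero_iff _).2 hz
  rw [← V.valuation_le_one_iff, map_inv₀, not_le, one_lt_inv₀ h0]

/-- the limit of valuation rings along an ultrafilter -/
def v3_lim {Ω J : Type*} [Field Ω] (F : Ultrafilter J) (W : J → ValuationSubring Ω) : ValuationSubring Ω where
  carrier := {z | ∀ᶠ j in (F : Filter J), z ∈ W j}
  mul_mem' := by
    intro x y hx hy
    filter_upwards [hx, hy] with j h1 h2 using mul_mem h1 h2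
  one_mem' := Filter.Eventually.of_forall fun j => one_mem _
  add_mem' := by
    intro x y hx hy
    filter_upwards [hx, hy] with j h1 h2 using add_mem h1 h2
  zero_mem' := Filter.Eventually.of_forall fun j => zero_mem _
  neg_mem' := by
    intro x hx
    filter_upwards [hx] with j h1 using neg_mem h1
  mem_or_inv_mem' := by
    intro x
    exact Ultrafilter.eventually_or.1 (Filter.Eventually.of_forall fun j => (W j).mem_or_inv_mem x)

theorem v3_mem {Ω J : Type*} [Field Ω] (F : Ultrafilter J) (W : J → ValuationSubring Ω) (z : Ω) :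
    z ∈ v3_lim F W ↔ ∀ᶠ j in (F : Filter J), z ∈ W j := Iff.rfl

theorem v3_val {Ω J : Type} [Field Ω] (F : Ultrafilter J) (W : J → ValuationSubring Ω) (z : Ω) :
    (v3_lim F W).valuation z < 1 ↔ ∀ᶠ j in (F : Filter J), (W j).valuation z < 1 := by
  by_cases hz : z = 0
  · subst hz
    simp
  · rw [v3_lt_one _ z hz, v3_mem, ← Ultrafilter.eventually_not]
    constructor
    · intro h
      filter_upwards [h] with j hj
      exact (v3_lt_one _ z hz).2 hj
    · intro h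
      filter_upwards [h] with j hj
      exact (v3_lt_one _ z hz).1 hj

theorem Xi.V3 (X : Xi Y ξ) : ∃ U : ValuationSubring Ω, (∀ z : Ω, IsAlgebraic (RatFunc k) z → z ∈ U) ∧ U.valuation ξ < 1 ∧
    ∀ y ∈ Finf Y.S, y ∈ U → ∃ r ∈ kinf k Ω, U.valuation (y - r) < 1 := by
  classical
  let J : Type := {j : Σ k' : IntermediateField k Ω, Option k' // Y.k0 ≤ j.1 ∧ FiniteDimensional k j.1}
  let W : J → ValuationSubring Ω := fun j => Y.U j.1.1 j.1.2
  let G : Ω → Set J := fun y => {j | y ∉ W j ∨ ∃ r ∈ kt j.1.1, (W j).valuation (y - r) < 1}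
  obtain ⟨F, hF⟩ := Ultrafilter.exists_ultrafilter_of_finite_inter_nonempty (G '' Finf Y.S) (by
    intro T hT
    have h1 : ∀ s : T, ∃ y ∈ Finf Y.S, G y = s := fun s => hT s.2
    choose y hy hys using h1
    choose lev hfin hlev using hy
    have e := T.equivFin.symm
    have hfin' : ∀ i, FiniteDimensional k (lev i) := hfin
    have := Y.fin0
    have hf2 : FiniteDimensional k (⨆ i, lev i : IntermediateField k Ω) :=
      IntermediateField.finiteDimensional_iSup_of_finite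
    have hle : ∀ i, lev i ≤ Y.k0 ⊔ ⨆ i, lev i := fun i => (le_iSup lev i).trans le_sup_right
    obtain ⟨k', hk, hf, a, ha⟩ := X.V2 (Y.k0 ⊔ ⨆ i, lev i) le_sup_left (IntermediateField.finiteDimensional_sup _ _)
      T.card (fun i => y (e i)) (fun i => Y.S.F_mono (fun x hx => hle (e i) hx) (hlev (e i)))
    refine ⟨⟨⟨k', a⟩, le_sup_left.trans hk, hf⟩, ?_⟩
    rw [Set.mem_sInter]
    intro s hs
    have h2 := ha (e.symm ⟨s, hs⟩)
    rw [e.apply_symm_apply] at h2
    have h3 : G (y ⟨s, hs⟩) = s := hys ⟨s, hs⟩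
    rw [← h3]
    exact h2)
  have hne : ∀ (j : J) (z : Ω), IsAlgebraic (RatFunc k) z → z ≠ 0 → (W j).valuation z = 1 := fun j z hz h0 =>
    (Y.loc j.1.1 j.2.1 j.2.2 j.1.2).coarse_alg j.2.2 z hz h0
  refine ⟨v3_lim F W, ?_, ?_, ?_⟩
  · intro z hz
    refine Filter.Eventually.of_forall fun j => ?_
    by_cases h0 : z = 0
    · rw [h0]; exact zero_mem _
    · rw [← (W j).valuation_le_one_iff, hne j z hz h0]
  · rw [v3_val]
    exact Filter.Eventually.of_forall fun j => X.small j.1.1 j.2.1 j.2.2 j.1.2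
  · intro y hy hyU
    obtain ⟨R, hR, hRj⟩ := X.roots y
    have h1 : ∀ᶠ j in (F : Filter J), j ∈ G y := hF ⟨y, hy, rfl⟩
    have h2 : ∀ᶠ j in (F : Filter J), ∃ ρ ∈ (R : Set Ω), ρ ∈ kt j.1.1 ∧ (W j).valuation (y - ρ) < 1 := by
      filter_upwards [h1, (v3_mem F W y).1 hyU] with j hj hyj
      obtain ⟨ρ, hρ, hρj⟩ := hRj j.1.1 j.2.1 j.2.2 j.1.2 hyj
      rcases hj with hj | ⟨r, hr, hrj⟩
      · exact absurd hyj hj
      · have hrρ : r = ρ := by
          by_contra hne'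
          have h3 : r - ρ ≠ 0 := sub_ne_zero.2 hne'
          have h4 : (W j).valuation (r - ρ) = 1 :=
            hne j _ ((kt_alg j.1.1 j.2.2 r hr).sub (hR ρ hρ)) h3
          have h5 : (W j).valuation (r - ρ) < 1 := by
            have : r - ρ = (y - ρ) - (y - r) := by ring
            rw [this]
            exact lt_of_le_of_lt (Valuation.map_sub _ _ _) (max_lt hρj hrj)
          exact absurd h4 h5.ne
        exact ⟨ρ, hρ, hrρ ▸ hr, hρj⟩
    obtain ⟨ρ, hρ, hρe⟩ := (Ultrafilter.eventually_exists_mem_iff R.finite_toSet).1 h2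
    obtain ⟨j, hj⟩ := hρe.exists
    refine ⟨ρ, ⟨j.1.1, j.2.2, hj.1⟩, ?_⟩
    rw [v3_val]
    exact hρe.mono fun j hj => hj.2

end

end BSC
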