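import Pool.Agent.Lib_MP_49ddc8.Gs1
import Pool.Agent.Lib_MP_49ddc8.Vtwo

/-!
# [Gs2] The stable valuation ring `W` above a discrete valuation

`E / L` runs over extensions with a discrete valuation as in `Gs1`; the limit of the valuation rings along an ultrafilter is a valuation
ring of `Ω` which is stable under the image of the decomposition group.
-/

set_option autoImplicit false

namespace BSC

variable {κ Ω : Type} [Field κ] [Field Ω] [Algebra κ Ω]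

/-- the conditions on the field `E` of the theorem `exists_mixed`, over the base field `L` with the valuation ring `O` -/
structure GoodE (S : Sec κ Ω) (L : IntermediateField κ Ω) (O : Ω → Prop) (E : IntermediateField κ Ω) (ord : Ω → ℤ) (π : Ω) : Prop where
  alg : ∀ z ∈ E, IsAlgebraic κ z
  le : L ≤ E
  stab : ∀ τ : algebraicClosure κ Ω ≃ₐ[κ] algebraicClosure κ Ω, (∀ x : algebraicClosure κ Ω, (x : Ω) ∈ L → τ x = x) →
    ∀ z ∈ E, S.s τ z ∈ E
  mul : ∀ x ∈ E, ∀ y ∈ E, x ≠ 0 → y ≠ 0 → ord (x * y) = ord x + ord y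
  unif : π ∈ E ∧ π ≠ 0 ∧ ord π = 1
  sq : ∀ z ∈ E, z ≠ 0 → 0 < ord z → ∃ w ∈ E, 1 + z = w ^ 2
  i : ∃ i ∈ E, i ^ 2 = (-1 : Ω)
  A1 : ∀ V : ValuationSubring E, (∀ z : E, z ≠ 0 → 0 < ord (z : Ω) → V.valuation z < 1) →
      (∀ z : E, V.valuation z < 1 → ∃ w : E, 1 + z = w ^ 2) → ∀ z : E, z ≠ 0 → 0 ≤ ord (z : Ω) → z ∈ V
  A2 : ∃ a ∈ E, a ≠ 0 ∧ 1 + a ≠ 0 ∧ ord a = 0 ∧ ord (1 + a) = 0 ∧ (¬ ∃ w ∈ E, a = w ^ 2) ∧ (¬ ∃ w ∈ E, 1 + a = w ^ 2) ∧
      ¬ ∃ w ∈ E, a * (1 + a) = w ^ 2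
  inv : ∀ τ : algebraicClosure κ Ω ≃ₐ[κ] algebraicClosure κ Ω, (∀ x : algebraicClosure κ Ω, (x : Ω) ∈ L → τ x = x) →
    ∀ z ∈ E, z ≠ 0 → ord (S.s τ z) = ord z
  O_iff : ∀ z ∈ L, z ≠ 0 → (O z ↔ 0 ≤ ord z)

private theorem gs_inv (S : Sec κ Ω) (τ : algebraicClosure κ Ω ≃ₐ[κ] algebraicClosure κ Ω) (z : Ω) :
    S.s τ⁻¹ (S.s τ z) = z := by
  have h : S.s (τ⁻¹ * τ) z = S.s τ⁻¹ (S.s τ z) := by rw [map_mul]; rfl
  rw [← h, inv_mul_cancel, map_one]
  rfl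

private theorem gs_stableF (S : Sec κ Ω) (E : Set Ω) (τ : algebraicClosure κ Ω ≃ₐ[κ] algebraicClosure κ Ω)
    (hE : ∀ z ∈ E, IsAlgebraic κ z → S.s τ z ∈ E) (z : Ω) (hz : z ∈ S.F E) : S.s τ z ∈ S.F E := by
  intro ρ hρ
  have h1 : S.s (τ⁻¹ * ρ * τ) z = z := by
    refine hz _ fun x hx => ?_
    have h2 : ((τ x : algebraicClosure κ Ω) : Ω) ∈ E := by
      rw [← S.res τ x]
      exact hE _ hx (mem_algebraicClosure_iff.1 x.2)
    have h3 : ρ (τ x) = τ x := hρ _ h2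
    show τ⁻¹ (ρ (τ x)) = x
    rw [h3]
    show (τ⁻¹ * τ) x = x
    rw [inv_mul_cancel]
    rfl
  have h2 : S.s ρ (S.s τ z) = S.s τ (S.s (τ⁻¹ * ρ * τ) z) := by
    have h3 : S.s (τ * (τ⁻¹ * ρ * τ)) z = S.s τ (S.s (τ⁻¹ * ρ * τ) z) := by
      rw [map_mul]; rfl
    rw [← h3]
    have h4 : τ * (τ⁻¹ * ρ * τ) = ρ * τ := by group
    rw [h4, map_mul]
    rfl
  rw [h2, h1]

private theorem gs_prim (S : Sec κ Ω) (L : IntermediateField κ Ω) (O : Ω → Prop) (E : IntermediateField κ Ω) (ord : Ω → ℤ) (π : Ω)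
    (G : GoodE S L O E ord π) (τ : algebraicClosure κ Ω ≃ₐ[κ] algebraicClosure κ Ω)
    (hτ : ∀ x : algebraicClosure κ Ω, (x : Ω) ∈ L → τ x = x) (z : Ω) (hz : LPrim E.toSubfield (S.F (E : Set Ω)) ord z) :
    LPrim E.toSubfield (S.F (E : Set Ω)) ord (S.s τ z) := by
  have hF := gs_stableF S (E : Set Ω) τ fun w hw _ => G.stab τ hτ w hw
  obtain ⟨⟨c, hc, hc0, hodd, w, hw, hw0, e⟩, v, hv, ev⟩ := hz
  have hinj : Function.Injective (S.s τ) := (S.s τ).injective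
  refine ⟨⟨S.s τ c, G.stab τ hτ c hc, (map_ne_zero_iff _ hinj).2 hc0, ?_, S.s τ w, hF w hw, (map_ne_zero_iff _ hinj).2 hw0, ?_⟩,
    S.s τ v, hF v hv, ?_⟩
  · rw [G.inv τ hτ c hc hc0]
    exact hodd
  · rw [e, map_mul, map_pow]
  · rw [← map_pow, ← ev, map_add, map_one]

/-- the valuation ring of `exists_mixed` is stable on `S.F E` -/
theorem mixed_stable (S : Sec κ Ω) (L : IntermediateField κ Ω) (O : Ω → Prop) (E : IntermediateField κ Ω) (ord : Ω → ℤ) (π : Ω)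
    (G : GoodE S L O E ord π) (V : ValuationSubring Ω)
    (hV2 : ∀ z ∈ S.F (E : Set Ω), V.valuation z < 1 → z = 0 ∨ LPrim E.toSubfield (S.F (E : Set Ω)) ord z ∨
        ∃ x y : Ω, LPrim E.toSubfield (S.F (E : Set Ω)) ord x ∧ LPrim E.toSubfield (S.F (E : Set Ω)) ord y ∧ z = x * y)
    (hV3 : ∀ z : Ω, LPrim E.toSubfield (S.F (E : Set Ω)) ord z → V.valuation z < 1)
    (τ : algebraicClosure κ Ω ≃ₐ[κ] algebraicClosure κ Ω) (hτ : ∀ x : algebraicClosure κ Ω, (x : Ω) ∈ L → τ x = x)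
    (z : Ω) (hz : z ∈ S.F (E : Set Ω)) : S.s τ z ∈ V ↔ z ∈ V := by
  have hone : ∀ ρ : algebraicClosure κ Ω ≃ₐ[κ] algebraicClosure κ Ω, (∀ x : algebraicClosure κ Ω, (x : Ω) ∈ L → ρ x = x) →
      ∀ y ∈ S.F (E : Set Ω), V.valuation y < 1 → V.valuation (S.s ρ y) < 1 := by
    intro ρ hρ y hy hlt
    rcases hV2 y hy hlt with rfl | h | ⟨a, b, ha, hb, rfl⟩
    · rw [map_zero, map_zero]
      exact zero_lt_one
    · exact hV3 _ (gs_prim S L O E ord π G ρ hρ y h)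
    · rw [map_mul, map_mul]
      exact mul_lt_one_of_nonneg_of_lt_one_right (hV3 _ (gs_prim S L O E ord π G ρ hρ a ha)).le zero_le'
        (hV3 _ (gs_prim S L O E ord π G ρ hρ b hb))
  have hmem : ∀ ρ : algebraicClosure κ Ω ≃ₐ[κ] algebraicClosure κ Ω, (∀ x : algebraicClosure κ Ω, (x : Ω) ∈ L → ρ x = x) →
      ∀ y ∈ S.F (E : Set Ω), S.s ρ y ∈ V → y ∈ V := by
    intro ρ hρ y hy hyV
    by_contra hn
    have hy0 : y ≠ 0 := by
      rintro rfl
      exact hn (zero_mem _)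
    have h1 : V.valuation y⁻¹ < 1 := (v3_lt_one V _ (inv_ne_zero hy0)).2 (by rwa [inv_inv])
    have h2 := hone ρ hρ y⁻¹ (inv_mem hy) h1
    rw [map_inv₀, v3_lt_one V _ (inv_ne_zero ((map_ne_zero_iff _ (S.s ρ).injective).2 hy0)), inv_inv] at h2
    exact h2 hyV
  refine ⟨hmem τ hτ z hz, fun h => ?_⟩
  have hτ' : ∀ x : algebraicClosure κ Ω, (x : Ω) ∈ L → τ⁻¹ x = x := by
    intro x hx
    have h1 : τ⁻¹ (τ x) = x := by
      show (τ⁻¹ * τ) x = x
      rw [inv_mul_cancel]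
      rfl
    rwa [hτ x hx] at h1
  refine hmem τ⁻¹ hτ' (S.s τ z) (gs_stableF S (E : Set Ω) τ (fun w hw _ => G.stab τ hτ w hw) z hz) ?_
  rw [gs_inv]
  exact h

/-- the stable valuation ring -/
theorem exists_W [CharZero κ] [IsAlgClosed Ω] (S : Sec κ Ω) (L : IntermediateField κ Ω) (O : Ω → Prop)
    (hgood : ∀ A : Finset (algebraicClosure κ Ω), ∃ E : IntermediateField κ Ω, (∀ z ∈ A, (z : Ω) ∈ E) ∧
      ∃ (ord : Ω → ℤ) (π : Ω), GoodE S L O E ord π) :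
    ∃ W : ValuationSubring Ω, (∀ z ∈ L, z ≠ 0 → (z ∈ W ↔ O z)) ∧
      ∀ τ : algebraicClosure κ Ω ≃ₐ[κ] algebraicClosure κ Ω, (∀ x : algebraicClosure κ Ω, (x : Ω) ∈ L → τ x = x) →
        ∀ z : Ω, S.s τ z ∈ W ↔ z ∈ W := by
  classical
  choose E hAE ord π G using hgood
  have hV := fun A => exists_mixed S (E A) (G A).alg (ord A) (π A) (G A).mul (G A).unif (G A).sq (G A).i (G A).A1 (G A).A2
  choose V hV1 hV2 hV3 using hV
  let F : Ultrafilter (Finset (algebraicClosure κ Ω)) := Ultrafilter.of Filter.atTop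
  have hF : ∀ A₀ : Finset (algebraicClosure κ Ω), ∀ᶠ A in (F : Filter (Finset (algebraicClosure κ Ω))), A₀ ≤ A := fun A₀ =>
    Ultrafilter.of_le Filter.atTop (Filter.eventually_ge_atTop A₀)
  refine ⟨v3_lim F V, ?_, ?_⟩
  · intro z hz hz0
    rw [v3_mem]
    have h1 : ∀ A, (z ∈ V A ↔ O z) := fun A => (hV1 A z ((G A).le hz) hz0).trans ((G A).O_iff z hz hz0).symm
    constructor
    · intro h
      obtain ⟨A, hA⟩ := h.exists
      exact (h1 A).1 hA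
    · intro h
      exact Filter.Eventually.of_forall fun A => (h1 A).2 h
  · intro τ hτ z
    rw [v3_mem, v3_mem]
    obtain ⟨E₀, hE₀, hfix⟩ := S.cont z
    let b := Module.finBasis κ E₀
    let A₀ : Finset (algebraicClosure κ Ω) := Finset.univ.image fun i => (b i : algebraicClosure κ Ω)
    have hzF : ∀ A, A₀ ≤ A → z ∈ S.F (E A : Set Ω) := by
      intro A hA ρ hρ
      refine hfix ρ ?_
      rw [IntermediateField.mem_fixingSubgroup_iff]
      intro x hx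
      have h2 : ∀ i, ρ (b i : algebraicClosure κ Ω) = b i := fun i =>
        hρ _ (hAE A _ (hA (Finset.mem_image_of_mem _ (Finset.mem_univ i))))
      have h3 : (⟨x, hx⟩ : E₀) = ∑ i, b.repr ⟨x, hx⟩ i • b i := (b.sum_repr _).symm
      have h4 : x = ∑ i, b.repr ⟨x, hx⟩ i • (b i : algebraicClosure κ Ω) := by
        have h5 := congrArg (fun y : E₀ => (y : algebraicClosure κ Ω)) h3
        simp only [AddSubmonoidClass.coe_finset_sum] at h5
        exact h5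
      rw [h4, map_sum]
      refine Finset.sum_congr rfl fun i _ => ?_
      rw [Algebra.smul_def, map_mul, h2, AlgEquiv.commutes]
    constructor
    · intro h
      filter_upwards [h, hF A₀] with A hA hA₀
      exact (mixed_stable S L O (E A) (ord A) (π A) (G A) (V A) (hV2 A) (hV3 A) τ hτ z (hzF A hA₀)).1 hA
    · intro h
      filter_upwards [h, hF A₀] with A hA hA₀
      exact (mixed_stable S L O (E A) (ord A) (π A) (G A) (V A) (hV2 A) (hV3 A) τ hτ z (hzF A hA₀)).2 hA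

end BSC
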