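import Mathlib

/-!
# [Gs3] Polynomial lemmas for the Gauss valuation
-/

set_option autoImplicit false

open Polynomial

namespace BSC

/-- coprime parts -/
theorem gs_coprime {F : Type} [Field F] (C D : F[X]) (hC : C ≠ 0) (hD : D ≠ 0) :
    ∃ g C' D' : F[X], g ≠ 0 ∧ C' ≠ 0 ∧ D' ≠ 0 ∧ C = g * C' ∧ D = g * D' ∧ IsCoprime C' D' := by
  obtain ⟨C', D', g, hrel, h1, h2⟩ := UniqueFactorizationMonoid.exists_reduced_factors C hC D
  refine ⟨g, C', D', ?_, ?_, ?_, h1.symm, h2.symm, hrel.isCoprime⟩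
  · rintro rfl
    rw [zero_mul] at h1
    exact hC h1.symm
  · rintro rfl
    rw [mul_zero] at h1
    exact hC h1.symm
  · rintro rfl
    rw [mul_zero] at h2
    exact hD h2.symm

private theorem gs_no_factor {F : Type} [Field F] (A B : F[X]) (hA : A ≠ 0) (hB : B ≠ 0) (n : ℕ) (hn : n ≠ 0) (hcop : IsCoprime A B)
    (h : ∀ j : ℕ, ∃ C D : F[X], C ≠ 0 ∧ D ≠ 0 ∧ A ^ n * D ^ (2 ^ j) = B ^ n * C ^ (2 ^ j)) : IsUnit A := by
  by_contra hu
  obtain ⟨q, hq, hqA⟩ := WfDvdMonoid.exists_irreducible_factor hu hA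
  have hqp : Prime q := hq.prime
  have hqB : ¬ q ∣ B := fun hqB => hq.not_isUnit (hcop.isUnit_of_dvd' hqA hqB)
  have hfin : ∀ P : F[X], P ≠ 0 → FiniteMultiplicity q P := fun P hP => FiniteMultiplicity.of_prime_left hqp hP
  have hv : 0 < multiplicity q A := by
    rw [Nat.pos_iff_ne_zero]
    intro h0
    exact (multiplicity_eq_zero.1 h0) hqA
  have hvB : multiplicity q B = 0 := multiplicity_eq_zero.2 hqB
  obtain ⟨C, D, hC, hD, e⟩ := h (n * multiplicity q A)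
  have e1 := congrArg (multiplicity q) e
  rw [multiplicity_mul hqp (hfin _ (mul_ne_zero (pow_ne_zero _ hA) (pow_ne_zero _ hD))),
    multiplicity_mul hqp (hfin _ (mul_ne_zero (pow_ne_zero _ hB) (pow_ne_zero _ hC))),
    FiniteMultiplicity.multiplicity_pow hqp (hfin A hA), FiniteMultiplicity.multiplicity_pow hqp (hfin D hD),
    FiniteMultiplicity.multiplicity_pow hqp (hfin B hB), FiniteMultiplicity.multiplicity_pow hqp (hfin C hC), hvB, mul_zero,
    zero_add] at e1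
  have hdvd : 2 ^ (n * multiplicity q A) ∣ n * multiplicity q A := by
    have h1 : 2 ^ (n * multiplicity q A) ∣ n * multiplicity q A + 2 ^ (n * multiplicity q A) * multiplicity q D := by
      rw [e1]
      exact dvd_mul_right _ _
    exact (Nat.dvd_add_left (dvd_mul_right _ _)).1 h1
  have hpos : 0 < n * multiplicity q A := Nat.mul_pos (Nat.pos_of_ne_zero hn) hv
  exact absurd (Nat.le_of_dvd hpos hdvd) (not_le.2 Nat.lt_two_pow_self)

/-- if `(A/B)ⁿ` is a `2^j`-th power for all `j` then `A/B` is constant -/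
theorem gs_const {F : Type} [Field F] (A B : F[X]) (hA : A ≠ 0) (hB : B ≠ 0) (n : ℕ) (hn : n ≠ 0)
    (h : ∀ j : ℕ, ∃ C D : F[X], C ≠ 0 ∧ D ≠ 0 ∧ A ^ n * D ^ (2 ^ j) = B ^ n * C ^ (2 ^ j)) : ∃ c : F, c ≠ 0 ∧ A = C c * B := by
  obtain ⟨g, A', B', hg, hA', hB', rfl, rfl, hcop⟩ := gs_coprime A B hA hB
  have h1 : ∀ j : ℕ, ∃ C D : F[X], C ≠ 0 ∧ D ≠ 0 ∧ A' ^ n * D ^ (2 ^ j) = B' ^ n * C ^ (2 ^ j) := by
    intro j
    obtain ⟨C, D, hC, hD, e⟩ := h j
    refine ⟨C, D, hC, hD, mul_left_cancel₀ (pow_ne_zero n hg) ?_⟩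
    rw [← mul_assoc, ← mul_assoc, ← mul_pow, ← mul_pow]
    exact e
  have hu1 := gs_no_factor A' B' hA' hB' n hn hcop h1
  have hu2 := gs_no_factor B' A' hB' hA' n hn hcop.symm fun j => by
    obtain ⟨C, D, hC, hD, e⟩ := h1 j
    exact ⟨D, C, hD, hC, e.symm⟩
  obtain ⟨a, ha, rfl⟩ := Polynomial.isUnit_iff.1 hu1
  obtain ⟨b, hb, rfl⟩ := Polynomial.isUnit_iff.1 hu2
  refine ⟨a / b, div_ne_zero ha.ne_zero hb.ne_zero, ?_⟩
  have e1 : C a = C (a / b) * C b := by rw [← C_mul, div_mul_cancel₀ _ hb.ne_zero]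
  rw [e1]
  ring

/-- squarefree polynomials in the same class modulo squares have the same degree -/
theorem gs_sqfree {F : Type} [Field F] (B B' C D : F[X]) (hB : Squarefree B) (hB' : Squarefree B') (hC : C ≠ 0) (hD : D ≠ 0)
    (h : B * D ^ 2 = B' * C ^ 2) : B.natDegree = B'.natDegree := by
  obtain ⟨g, C', D', hg, hC', hD', rfl, rfl, hcop⟩ := gs_coprime C D hC hD
  have h1 : B * D' ^ 2 = B' * C' ^ 2 := by
    refine mul_left_cancel₀ (pow_ne_zero 2 hg) ?_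
    linear_combination h
  have hcop2 : IsCoprime (C' ^ 2) (D' ^ 2) := hcop.pow
  have hd1 : C' ^ 2 ∣ B := hcop2.dvd_of_dvd_mul_right ⟨B', by rw [h1]; ring⟩
  have hd2 : D' ^ 2 ∣ B' := hcop2.symm.dvd_of_dvd_mul_right ⟨B, by rw [← h1]; ring⟩
  have hu1 : IsUnit C' := hB C' (by rwa [← pow_two])
  have hu2 : IsUnit D' := hB' D' (by rwa [← pow_two])
  have e1 := congrArg natDegree h1
  have hB0 : B ≠ 0 := hB.ne_zero
  have hB0' : B' ≠ 0 := hB'.ne_zero
  rw [natDegree_mul hB0 (pow_ne_zero 2 hD'), natDegree_mul hB0' (pow_ne_zero 2 hC'), natDegree_pow, natDegree_pow,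
    natDegree_eq_zero_of_isUnit hu1, natDegree_eq_zero_of_isUnit hu2] at e1
  omega

section

variable (p : ℕ) [Fact p.Prime]

/-- the polynomials `X^(p m) + X + c` -/
theorem gs_am_sep (m : ℕ) (c : ZMod p) : (X ^ (p * m) + X + C c : (ZMod p)[X]).Separable := by
  have h1 : derivative (X ^ (p * m) + X + C c : (ZMod p)[X]) = 1 := by
    rw [derivative_add, derivative_add, derivative_X_pow, derivative_X, derivative_C]
    have h2 : ((p * m : ℕ) : ZMod p) = 0 := by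
      rw [Nat.cast_mul, CharP.cast_eq_zero, zero_mul]
    rw [h2, C_0, zero_mul, zero_add, add_zero]
  rw [separable_def, h1]
  exact isCoprime_one_right

theorem gs_am_deg (m : ℕ) (hm : 1 ≤ m) (c : ZMod p) : (X ^ (p * m) + X + C c : (ZMod p)[X]).natDegree = p * m := by
  have hp := (Fact.out : p.Prime).two_le
  have h1 : 1 < p * m := by nlinarith
  have h2 : (X ^ (p * m) + X + C c : (ZMod p)[X]) = X ^ (p * m) + (X + C c) := by ring
  rw [h2, natDegree_add_eq_left_of_natDegree_lt, natDegree_X_pow]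
  rw [natDegree_X_pow, natDegree_X_add_C]
  exact h1

/-- `a`, `1 + a` and `a (1 + a)` are squarefree for `a = X^(p m) + X` -/
theorem gs_am (m : ℕ) (hm : 1 ≤ m) : Squarefree (X ^ (p * m) + X : (ZMod p)[X]) ∧ Squarefree (1 + (X ^ (p * m) + X) : (ZMod p)[X]) ∧
    Squarefree ((X ^ (p * m) + X) * (1 + (X ^ (p * m) + X)) : (ZMod p)[X]) ∧
    (X ^ (p * m) + X : (ZMod p)[X]).natDegree = p * m ∧ (1 + (X ^ (p * m) + X) : (ZMod p)[X]).natDegree = p * m ∧
    ((X ^ (p * m) + X) * (1 + (X ^ (p * m) + X)) : (ZMod p)[X]).natDegree = 2 * (p * m) := by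
  have h0 : (X ^ (p * m) + X : (ZMod p)[X]) = X ^ (p * m) + X + C 0 := by rw [C_0, add_zero]
  have h1 : (1 + (X ^ (p * m) + X) : (ZMod p)[X]) = X ^ (p * m) + X + C 1 := by rw [C_1]; ring
  have s0 : Squarefree (X ^ (p * m) + X : (ZMod p)[X]) := by
    rw [h0]
    exact (gs_am_sep p m 0).squarefree
  have s1 : Squarefree (1 + (X ^ (p * m) + X) : (ZMod p)[X]) := by
    rw [h1]
    exact (gs_am_sep p m 1).squarefree
  have d0 : (X ^ (p * m) + X : (ZMod p)[X]).natDegree = p * m := by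
    rw [h0]
    exact gs_am_deg p m hm 0
  have d1 : (1 + (X ^ (p * m) + X) : (ZMod p)[X]).natDegree = p * m := by
    rw [h1]
    exact gs_am_deg p m hm 1
  have hcop : IsCoprime (X ^ (p * m) + X : (ZMod p)[X]) (1 + (X ^ (p * m) + X)) := ⟨-1, 1, by ring⟩
  refine ⟨s0, s1, squarefree_mul_iff.2 ⟨hcop.isRelPrime, s0, s1⟩, d0, d1, ?_⟩
  rw [natDegree_mul s0.ne_zero s1.ne_zero, d0, d1]
  ring

end

end BSC
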