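import Pool.Agent.Lib_MP_49ddc8.Gs2

/-!
# [Gs4] The stable valuation ring, described on all algebraic elements; restriction of automorphisms to a smaller base field
-/

set_option autoImplicit false

namespace BSC

/-- as `exists_W`, with the description of `W` on all algebraic elements -/
theorem exists_W_all {κ Ω : Type} [Field κ] [CharZero κ] [Field Ω] [IsAlgClosed Ω] [Algebra κ Ω] (S : Sec κ Ω)
    (L : IntermediateField κ Ω) (O : Ω → Prop)
    (hgood : ∀ A : Finset (algebraicClosure κ Ω), ∃ E : IntermediateField κ Ω, (∀ z ∈ A, (z : Ω) ∈ E) ∧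
      ∃ (ord : Ω → ℤ) (π : Ω), GoodE S L O E ord π ∧ ∀ z ∈ E, z ≠ 0 → (O z ↔ 0 ≤ ord z)) :
    ∃ W : ValuationSubring Ω, (∀ z : Ω, IsAlgebraic κ z → z ≠ 0 → (z ∈ W ↔ O z)) ∧
      ∀ τ : algebraicClosure κ Ω ≃ₐ[κ] algebraicClosure κ Ω, (∀ x : algebraicClosure κ Ω, (x : Ω) ∈ L → τ x = x) →
        ∀ z : Ω, S.s τ z ∈ W ↔ z ∈ W := by
  classical
  choose E hAE ord π G hO using hgood
  have hV := fun A => exists_mixed S (E A) (G A).alg (ord A) (π A) (G A).mul (G A).unif (G A).sq (G A).i (G A).A1 (G A).A2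
  choose V hV1 hV2 hV3 using hV
  let F : Ultrafilter (Finset (algebraicClosure κ Ω)) := Ultrafilter.of Filter.atTop
  have hF : ∀ A₀ : Finset (algebraicClosure κ Ω), ∀ᶠ A in (F : Filter (Finset (algebraicClosure κ Ω))), A₀ ≤ A := fun A₀ =>
    Ultrafilter.of_le Filter.atTop (Filter.eventually_ge_atTop A₀)
  refine ⟨v3_lim F V, ?_, ?_⟩
  · intro z hz hz0
    rw [v3_mem]
    have h1 : ∀ᶠ A in (F : Filter (Finset (algebraicClosure κ Ω))), (z ∈ V A ↔ O z) := by
      filter_upwards [hF {⟨z, mem_algebraicClosure_iff.2 hz⟩}] with A hA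
      have h2 : z ∈ E A := hAE A ⟨z, mem_algebraicClosure_iff.2 hz⟩ (hA (Finset.mem_singleton_self _))
      exact (hV1 A z h2 hz0).trans (hO A z h2 hz0).symm
    constructor
    · intro h
      obtain ⟨A, hA, hA'⟩ := (h.and h1).exists
      exact hA'.1 hA
    · intro h
      filter_upwards [h1] with A hA using hA.2 h
  · intro τ hτ z
    rw [v3_mem, v3_mem]
    obtain ⟨E₀, hE₀, hfix⟩ := S.cont z
    let b := Module.finBasis κ E₀
    let A₀ : Finset (algebraicClosure κ Ω) := Finset.univ.image fun i => (b i : algebraicClosure κ Ω)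
    have hzF : ∀ A, A₀ ≤ A → z ∈ S.F (E A : Set Ω) := by
      intro A hA ρ hρ
      refine hfix ρ ?_
      rw [IntermediateField.mem_fixingSubgroup_iff]
      intro x hx
      have h2 : ∀ i, ρ (b i : algebraicClosure κ Ω) = b i := fun i =>
        hρ _ (hAE A _ (hA (Finset.mem_image_of_mem _ (Finset.mem_univ i))))
      have h3 : (⟨x, hx⟩ : E₀) = ∑ i, b.repr ⟨x, hx⟩ i • b i := (b.sum_repr _).symm
      have h4 : x = ∑ i, b.repr ⟨x, hx⟩ i • (b i : algebraicClosure κ Ω) := by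
        have h5 := congrArg (fun y : E₀ => (y : algebraicClosure κ Ω)) h3
        simp only [AddSubmonoidClass.coe_finset_sum] at h5
        exact h5
      rw [h4, map_sum]
      refine Finset.sum_congr rfl fun i _ => ?_
      rw [Algebra.smul_def, map_mul, h2, AlgEquiv.commutes]
    constructor
    · intro h
      filter_upwards [h, hF A₀] with A hA hA₀
      exact (mixed_stable S L O (E A) (ord A) (π A) (G A) (V A) (hV2 A) (hV3 A) τ hτ z (hzF A hA₀)).1 hA
    · intro h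
      filter_upwards [h, hF A₀] with A hA hA₀
      exact (mixed_stable S L O (E A) (ord A) (π A) (G A) (V A) (hV2 A) (hV3 A) τ hτ z (hzF A hA₀)).2 hA

/-- an automorphism over `κ` of the algebraic closure is one over a subfield `κ₀`, `κ / κ₀` algebraic -/
theorem gal_down {κ₀ κ Ω : Type} [Field κ₀] [Field κ] [Field Ω] [Algebra κ₀ Ω] [Algebra κ₀ κ] [Algebra κ Ω] [IsScalarTower κ₀ κ Ω]
    [Algebra.IsAlgebraic κ₀ κ] (τ : algebraicClosure κ Ω ≃ₐ[κ] algebraicClosure κ Ω) :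
    ∃ τ' : algebraicClosure κ₀ Ω ≃ₐ[κ₀] algebraicClosure κ₀ Ω, ∀ (x : algebraicClosure κ₀ Ω) (y : algebraicClosure κ Ω),
      (x : Ω) = (y : Ω) → ((τ' x : algebraicClosure κ₀ Ω) : Ω) = ((τ y : algebraicClosure κ Ω) : Ω) := by
  have hiff : ∀ z : Ω, IsAlgebraic κ₀ z ↔ IsAlgebraic κ z := fun z =>
    ⟨fun h => h.tower_top κ, fun h => h.restrictScalars κ₀⟩
  have h1 : ∀ x : algebraicClosure κ₀ Ω, (x : Ω) ∈ algebraicClosure κ Ω := fun x =>
    mem_algebraicClosure_iff.2 ((hiff _).1 (mem_algebraicClosure_iff.1 x.2))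
  have h2 : ∀ y : algebraicClosure κ Ω, (y : Ω) ∈ algebraicClosure κ₀ Ω := fun y =>
    mem_algebraicClosure_iff.2 ((hiff _).2 (mem_algebraicClosure_iff.1 y.2))
  let f : (algebraicClosure κ Ω ≃ₐ[κ] algebraicClosure κ Ω) → algebraicClosure κ₀ Ω → algebraicClosure κ₀ Ω := fun ρ x =>
    ⟨(ρ ⟨x, h1 x⟩ : algebraicClosure κ Ω), h2 _⟩
  have hinv : ∀ ρ ρ' : algebraicClosure κ Ω ≃ₐ[κ] algebraicClosure κ Ω, (∀ y, ρ' (ρ y) = y) → ∀ x, f ρ' (f ρ x) = x := by
    intro ρ ρ' h x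
    apply Subtype.ext
    show ((ρ' (ρ ⟨x, h1 x⟩) : algebraicClosure κ Ω) : Ω) = x
    rw [h]
  refine ⟨{ toFun := f τ
            invFun := f τ.symm
            left_inv := hinv τ τ.symm fun y => τ.symm_apply_apply y
            right_inv := hinv τ.symm τ fun y => τ.apply_symm_apply y
            map_mul' := fun x y => ?_
            map_add' := fun x y => ?_
            commutes' := fun r => ?_ }, fun x y hxy => ?_⟩
  · apply Subtype.ext
    show ((τ (⟨x, h1 x⟩ * ⟨y, h1 y⟩) : algebraicClosure κ Ω) : Ω) = _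
    rw [map_mul]
    rfl
  · apply Subtype.ext
    show ((τ (⟨x, h1 x⟩ + ⟨y, h1 y⟩) : algebraicClosure κ Ω) : Ω) = _
    rw [map_add]
    rfl
  · apply Subtype.ext
    have h3 : (⟨((algebraMap κ₀ (algebraicClosure κ₀ Ω) r : algebraicClosure κ₀ Ω) : Ω), h1 _⟩ : algebraicClosure κ Ω) =
        algebraMap κ (algebraicClosure κ Ω) (algebraMap κ₀ κ r) := by
      apply Subtype.ext
      show algebraMap κ₀ Ω r = algebraMap κ Ω (algebraMap κ₀ κ r)
      rw [← IsScalarTower.algebraMap_apply]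
    show ((τ ⟨((algebraMap κ₀ (algebraicClosure κ₀ Ω) r : algebraicClosure κ₀ Ω) : Ω), h1 _⟩ : algebraicClosure κ Ω) : Ω) = _
    rw [h3, AlgEquiv.commutes, ← h3]
  · show ((τ ⟨x, h1 x⟩ : algebraicClosure κ Ω) : Ω) = _
    congr 2
    exact Subtype.ext hxy

end BSC
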