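import Pool.Agent.Lib_MP_49ddc8.Defs

/-!
# [BSC-P1], [BSC-P2]  The local fields `κ_v`

[BSC-P1] `sqrt_laurent`: a Laurent series `1 + f`, `f = 0` or `0 < f.order`, over a field of characteristic `0` is a square.  (Power series with constant coefficient `1`: square root by recursion on the coefficients, or the binomial series, or Hensel.)

[BSC-P2] `lf_exists`: `k'` algebraic over `k`, `a` a place of `k'(t)`.  `RatFunc k' → Ω`, `X ↦ t` (injective: `t` is transcendental over `k`, so over `k'`), makes `κbar` an algebraic extension of `RatFunc k'`; `RatFunc k' → LaurentSeries k' → Λ = AlgebraicClosure (LaurentSeries k')`, `X ↦ α + T` (`a = some α`),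
`X ↦ T⁻¹` (`a = none`), `T` the uniformiser `HahnSeries.single 1 1`.  `IsAlgClosed.lift` gives `θ : κbar → Λ` over `RatFunc k'`.  `E = {z : z ∈ κbar, θ z ∈ LaurentSeries k'}`, `ord z = order of the Laurent series` (`0` outside `E`).  `mul`, `add`: `HahnSeries.order_mul`, `HahnSeries.min_order_le_order_add`;
`sq`: `1 + θ z = g²` by `sqrt_laurent`, `κbar` contains `w` with `w² = 1 + z`, `θ w = ± g`; `res`: `c` = the constant coefficient; `unif`: `θ (unif) = T`.
-/

set_option autoImplicit false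

namespace BSC

theorem sqrt_laurent (M : Type) [Field M] [CharZero M] (f : LaurentSeries M) (hf : f ≠ 0 → 0 < f.order) :
    ∃ g : LaurentSeries M, 1 + f = g ^ 2 := by
  classical
  by_cases h0 : f = 0
  · exact ⟨1, by rw [h0]; ring⟩
  obtain ⟨n, hn⟩ : ∃ n : ℕ, f.order = ((n + 1 : ℕ) : ℤ) := by
    have h1 := hf h0
    refine ⟨(f.order - 1).toNat, ?_⟩
    push_cast
    omega
  have h2 : f = HahnSeries.ofPowerSeries ℤ M (PowerSeries.X ^ (n + 1) * LaurentSeries.powerSeriesPart f) := by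
    rw [map_mul, HahnSeries.ofPowerSeries_X_pow, ← hn]
    exact (LaurentSeries.single_order_mul_powerSeriesPart f).symm
  set φ : PowerSeries M := PowerSeries.X ^ (n + 1) * LaurentSeries.powerSeriesPart f with hφ
  have hc : PowerSeries.constantCoeff φ = 0 := by simp [hφ]
  have hs : PowerSeries.HasSubst φ := PowerSeries.HasSubst.of_constantCoeff_zero' hc
  let b : PowerSeries M := PowerSeries.binomialSeries M (1 / 2 : ℚ)
  have hb : b ^ 2 = 1 + PowerSeries.X := by
    rw [pow_two, ← PowerSeries.binomialSeries_add]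
    have h3 := PowerSeries.binomialSeries_nat (R := ℚ) (A := M) 1
    rw [pow_one] at h3
    rw [← h3]
    norm_num
  refine ⟨HahnSeries.ofPowerSeries ℤ M (b.subst φ), ?_⟩
  rw [← map_pow, ← PowerSeries.subst_pow hs, hb, PowerSeries.subst_add hs, PowerSeries.subst_X hs]
  rw [map_add, ← h2]
  congr 1
  rw [← PowerSeries.coe_substAlgHom hs, map_one, map_one]

open Polynomial in
/-- extension of a field homomorphism to an algebraic extension, algebraically closed target -/
theorem lf_lift {R B L : Type} [Field R] [Field B] [Field L] [IsAlgClosed L] (φ : R →+* B) (σ : R →+* L)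
    (h : ∀ b : B, ∃ p : R[X], p ≠ 0 ∧ p.eval₂ φ b = 0) : ∃ θ : B →+* L, ∀ r, θ (φ r) = σ r := by
  let _ := φ.toAlgebra
  let _ := σ.toAlgebra
  have : Algebra.IsAlgebraic R B := ⟨fun b => by
    obtain ⟨p, hp, h0⟩ := h b
    exact ⟨p, hp, by rw [aeval_def]; exact h0⟩⟩
  let θ : B →ₐ[R] L := IsAlgClosed.lift
  exact ⟨θ.toRingHom, fun r => θ.commutes r⟩

open Polynomial in
/-- a homomorphism from the field of rational functions -/
theorem lf_ratHom {M L : Type} [Field M] [Field L] (ι : M →+* L) (x : L)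
    (h : ∀ p : M[X], p.eval₂ ι x = 0 → p = 0) :
    ∃ φ : RatFunc M →+* L, (∀ c, φ (RatFunc.C c) = ι c) ∧ φ RatFunc.X = x := by
  have hinj : Function.Injective (eval₂RingHom ι x) := by
    rw [injective_iff_map_eq_zero]
    intro p hp
    exact h p hp
  refine ⟨IsFractionRing.lift hinj, fun c => ?_, ?_⟩
  · rw [← RatFunc.algebraMap_C, IsFractionRing.lift_algebraMap]
    simp
  · rw [← RatFunc.algebraMap_X, IsFractionRing.lift_algebraMap]
    simp

/-- the image of the variable in the local field of the place `a` -/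
noncomputable def lfX {M : Type} [Field M] : Option M → LaurentSeries M
  | some α => HahnSeries.C α + HahnSeries.single 1 1
  | none => (HahnSeries.single 1 1)⁻¹

open scoped RatFunc in
theorem lf_sigma (M : Type) [Field M] (a : Option M) :
    ∃ σ : RatFunc M →+* LaurentSeries M, (∀ c, σ (RatFunc.C c) = HahnSeries.C c) ∧ σ RatFunc.X = lfX a := by
  obtain ⟨e, heC, heX⟩ : ∃ e : RatFunc M →+* LaurentSeries M, (∀ c, e (RatFunc.C c) = HahnSeries.C c) ∧
      e RatFunc.X = HahnSeries.single 1 1 := by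
    refine ⟨algebraMap (RatFunc M) (LaurentSeries M), fun c => ?_, RatFunc.coe_X⟩
    rw [← RatFunc.algebraMap_C, ← IsScalarTower.algebraMap_apply (Polynomial M) (RatFunc M) (LaurentSeries M)]
    simp
  obtain ⟨y, hy1, hy2⟩ : ∃ y : RatFunc M, e y = lfX a ∧ ¬ IsAlgebraic M y := by
    cases a with
    | none =>
      refine ⟨RatFunc.X⁻¹, ?_, fun h => ?_⟩
      · rw [map_inv₀, heX]; rfl
      · exact RatFunc.transcendental_X (by simpa using h.inv)
    | some α =>
      refine ⟨RatFunc.C α + RatFunc.X, ?_, fun h => ?_⟩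
      · rw [map_add, heC, heX]; rfl
      · refine RatFunc.transcendental_X (K := M) ?_
        have h2 := h.sub (isAlgebraic_algebraMap (R := M) (A := RatFunc M) α)
        have : RatFunc.C α + RatFunc.X - algebraMap M (RatFunc M) α = RatFunc.X := by
          rw [RatFunc.algebraMap_eq_C]; ring
        rwa [this] at h2
  apply lf_ratHom
  intro p hp
  by_contra hne
  apply hy2
  refine ⟨p, hne, ?_⟩
  apply e.injective
  rw [map_zero, ← hp, ← hy1, Polynomial.aeval_def, Polynomial.hom_eval₂]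
  congr 1
  ext c : 1
  rw [RingHom.comp_apply, RatFunc.algebraMap_eq_C, heC]

open Polynomial in
theorem lf_theta {k Ω : Type} [Field k] [Field Ω] [IsAlgClosed Ω] [Algebra k Ω] [Algebra (RatFunc k) Ω]
    [IsScalarTower k (RatFunc k) Ω] (k' : IntermediateField k Ω) (halg : ∀ c ∈ k', IsAlgebraic k c) (a : Option k') :
    ∃ θ : algebraicClosure (RatFunc k) Ω →+* AlgebraicClosure (LaurentSeries k'),
      (∀ (c : k') (hc : (c : Ω) ∈ algebraicClosure (RatFunc k) Ω),
        θ ⟨c, hc⟩ = algebraMap (LaurentSeries k') (AlgebraicClosure (LaurentSeries k')) (HahnSeries.C c)) ∧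
      (∀ r : RatFunc k, ∃ f : LaurentSeries k', θ (algebraMap (RatFunc k) (algebraicClosure (RatFunc k) Ω) r)
        = algebraMap (LaurentSeries k') (AlgebraicClosure (LaurentSeries k')) f) ∧
      θ (algebraMap (RatFunc k) (algebraicClosure (RatFunc k) Ω) RatFunc.X) =
        algebraMap (LaurentSeries k') (AlgebraicClosure (LaurentSeries k')) (lfX a) := by
  have : Algebra.IsAlgebraic k k' := ⟨fun c => by
    have := halg c c.2
    rwa [show (c : Ω) = algebraMap k' Ω c from rfl, isAlgebraic_algebraMap_iff (algebraMap k' Ω).injective] at this⟩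
  have hmem : ∀ c : k', (c : Ω) ∈ algebraicClosure (RatFunc k) Ω := by
    intro c
    rw [mem_algebraicClosure_iff]
    exact (halg c c.2).extendScalars (algebraMap k (RatFunc k)).injective
  -- the homomorphism from `k'`
  let i' : k' →+* algebraicClosure (RatFunc k) Ω :=
    { toFun := fun c => ⟨c, hmem c⟩
      map_one' := rfl
      map_mul' := fun _ _ => rfl
      map_zero' := rfl
      map_add' := fun _ _ => rfl }
  let t' : algebraicClosure (RatFunc k) Ω := algebraMap (RatFunc k) (algebraicClosure (RatFunc k) Ω) RatFunc.X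
  have htr : ∀ p : k'[X], p.eval₂ i' t' = 0 → p = 0 := by
    intro p hp
    by_contra hne
    have h1 : IsAlgebraic k' (algebraMap (RatFunc k) Ω RatFunc.X) := by
      refine ⟨p, hne, ?_⟩
      have h2 := congrArg (algebraMap (algebraicClosure (RatFunc k) Ω) Ω) hp
      rw [Polynomial.hom_eval₂, map_zero] at h2
      rw [Polynomial.aeval_def]
      exact h2
    have h3 : IsAlgebraic k (algebraMap (RatFunc k) Ω RatFunc.X) := h1.restrictScalars k
    rw [isAlgebraic_algebraMap_iff (algebraMap (RatFunc k) Ω).injective] at h3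
    exact RatFunc.transcendental_X h3
  obtain ⟨φ, hφC, hφX⟩ := lf_ratHom i' t' htr
  obtain ⟨σ, hσC, hσX⟩ := lf_sigma k' a
  -- `RatFunc k → RatFunc k'`
  obtain ⟨ψ, hψC, hψX⟩ := lf_ratHom ((RatFunc.C (K := k')).comp (algebraMap k k')) RatFunc.X (by
    intro p hp
    by_contra hne
    have h1 : IsAlgebraic k (RatFunc.X (K := k')) := by
      refine ⟨p, hne, ?_⟩
      rw [Polynomial.aeval_def, ← hp]
      rfl
    have h2 : IsAlgebraic k' (RatFunc.X (K := k')) := h1.extendScalars (algebraMap k k').injective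
    exact RatFunc.transcendental_X h2)
  have hcomp : ∀ r, φ (ψ r) = algebraMap (RatFunc k) (algebraicClosure (RatFunc k) Ω) r := by
    have : φ.comp ψ = algebraMap (RatFunc k) (algebraicClosure (RatFunc k) Ω) := by
      apply IsLocalization.ringHom_ext (nonZeroDivisors k[X])
      apply Polynomial.ringHom_ext
      · intro c
        simp only [RingHom.comp_apply, RatFunc.algebraMap_C, hψC, hφC]
        apply Subtype.ext
        show ((algebraMap k k' c : k') : Ω) = algebraMap (RatFunc k) Ω (RatFunc.C c)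
        rw [← RatFunc.algebraMap_eq_C, ← IsScalarTower.algebraMap_apply k (RatFunc k) Ω]
        rfl
      · simp only [RingHom.comp_apply, RatFunc.algebraMap_X, hψX, hφX]
        rfl
    intro r
    exact congrArg (fun f => f r) this
  obtain ⟨θ, hθ⟩ := lf_lift φ ((algebraMap (LaurentSeries k') (AlgebraicClosure (LaurentSeries k'))).comp σ) (by
    intro b
    have hb : IsAlgebraic (RatFunc k) b := by
      have := b.2
      rw [mem_algebraicClosure_iff] at this
      rwa [show (b : Ω) = algebraMap (algebraicClosure (RatFunc k) Ω) Ω b from rfl,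
        isAlgebraic_algebraMap_iff (algebraMap (algebraicClosure (RatFunc k) Ω) Ω).injective] at this
    obtain ⟨p, hp, h0⟩ := hb
    refine ⟨p.map ψ, (Polynomial.map_ne_zero_iff ψ.injective).mpr hp, ?_⟩
    rw [Polynomial.eval₂_map]
    rw [Polynomial.aeval_def] at h0
    rw [← h0]
    congr 1
    ext r : 1
    exact hcomp r)
  refine ⟨θ, fun c hc => ?_, fun r => ?_, ?_⟩
  · have := hθ (RatFunc.C c)
    rw [hφC, RingHom.comp_apply, hσC] at this
    exact this
  · exact ⟨σ (ψ r), by rw [← hcomp r, hθ]; rfl⟩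
  · have := hθ RatFunc.X
    rw [hφX, RingHom.comp_apply, hσX] at this
    exact this

/-- the Laurent series attached to an element of `Ω` -/
def lfP {k Ω : Type} [Field k] [Field Ω] [Algebra k Ω] [Algebra (RatFunc k) Ω] (k' : IntermediateField k Ω)
    (θ : algebraicClosure (RatFunc k) Ω →+* AlgebraicClosure (LaurentSeries k')) (z : Ω) (f : LaurentSeries k') : Prop :=
  ∃ hz : z ∈ algebraicClosure (RatFunc k) Ω,
    θ ⟨z, hz⟩ = algebraMap (LaurentSeries k') (AlgebraicClosure (LaurentSeries k')) f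

section

variable {k Ω : Type} [Field k] [Field Ω] [Algebra k Ω] [Algebra (RatFunc k) Ω] {k' : IntermediateField k Ω}
  {θ : algebraicClosure (RatFunc k) Ω →+* AlgebraicClosure (LaurentSeries k')}

theorem lfP_add {z w : Ω} {f g : LaurentSeries k'} (h1 : lfP k' θ z f) (h2 : lfP k' θ w g) :
    lfP k' θ (z + w) (f + g) := by
  obtain ⟨hz, h1⟩ := h1
  obtain ⟨hw, h2⟩ := h2
  refine ⟨add_mem hz hw, ?_⟩
  rw [map_add, ← h1, ← h2, ← map_add]
  rfl

theorem lfP_mul {z w : Ω} {f g : LaurentSeries k'} (h1 : lfP k' θ z f) (h2 : lfP k' θ w g) :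
    lfP k' θ (z * w) (f * g) := by
  obtain ⟨hz, h1⟩ := h1
  obtain ⟨hw, h2⟩ := h2
  refine ⟨mul_mem hz hw, ?_⟩
  rw [map_mul, ← h1, ← h2, ← map_mul]
  rfl

theorem lfP_neg {z : Ω} {f : LaurentSeries k'} (h1 : lfP k' θ z f) : lfP k' θ (-z) (-f) := by
  obtain ⟨hz, h1⟩ := h1
  refine ⟨neg_mem hz, ?_⟩
  rw [map_neg, ← h1, ← map_neg]
  rfl

theorem lfP_sub {z w : Ω} {f g : LaurentSeries k'} (h1 : lfP k' θ z f) (h2 : lfP k' θ w g) :
    lfP k' θ (z - w) (f - g) := by
  rw [sub_eq_add_neg, sub_eq_add_neg]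
  exact lfP_add h1 (lfP_neg h2)

theorem lfP_inv {z : Ω} {f : LaurentSeries k'} (h1 : lfP k' θ z f) : lfP k' θ z⁻¹ f⁻¹ := by
  obtain ⟨hz, h1⟩ := h1
  refine ⟨inv_mem hz, ?_⟩
  rw [map_inv₀, ← h1, ← map_inv₀]
  rfl

theorem lfP_unique {z : Ω} {f g : LaurentSeries k'} (h1 : lfP k' θ z f) (h2 : lfP k' θ z g) : f = g := by
  obtain ⟨hz, h1⟩ := h1
  obtain ⟨hw, h2⟩ := h2
  exact (algebraMap (LaurentSeries k') (AlgebraicClosure (LaurentSeries k'))).injective (h1.symm.trans h2)

theorem lfP_inj {z w : Ω} {f : LaurentSeries k'} (h1 : lfP k' θ z f) (h2 : lfP k' θ w f) : z = w := by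
  obtain ⟨hz, h1⟩ := h1
  obtain ⟨hw, h2⟩ := h2
  exact congrArg Subtype.val (θ.injective (h1.trans h2.symm))

theorem lfP_zero : lfP k' θ 0 0 := ⟨zero_mem _, by rw [map_zero]; exact map_zero θ⟩

theorem lfP_one : lfP k' θ 1 1 := ⟨one_mem _, by rw [map_one]; exact map_one θ⟩

theorem lfP_ne {z : Ω} {f : LaurentSeries k'} (h1 : lfP k' θ z f) (hz : z ≠ 0) : f ≠ 0 := by
  rintro rfl
  exact hz (lfP_inj h1 lfP_zero)

open Classical in
/-- the order of `z` -/
noncomputable def lfOrd (k' : IntermediateField k Ω)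
    (θ : algebraicClosure (RatFunc k) Ω →+* AlgebraicClosure (LaurentSeries k')) (z : Ω) : ℤ :=
  if h : ∃ f, lfP k' θ z f then h.choose.order else 0

theorem lfOrd_eq {z : Ω} {f : LaurentSeries k'} (h : lfP k' θ z f) : lfOrd k' θ z = f.order := by
  have h' : ∃ f, lfP k' θ z f := ⟨f, h⟩
  rw [lfOrd, dif_pos h', lfP_unique h'.choose_spec h]

end

theorem lf_exists {k Ω : Type} [Field k] [CharZero k] [Field Ω] [IsAlgClosed Ω] [Algebra k Ω] [Algebra (RatFunc k) Ω]
    [IsScalarTower k (RatFunc k) Ω] (k' : IntermediateField k Ω) (halg : ∀ c ∈ k', IsAlgebraic k c) (a : Option k') :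
    ∃ E : IntermediateField (RatFunc k) Ω, (∀ z ∈ E, IsAlgebraic (RatFunc k) z) ∧ (k' : Set Ω) ⊆ E ∧
      ∃ ord : Ω → ℤ, LF E.toSubfield k'.toSubfield ord (unif k' a) := by
  obtain ⟨θ, hθC, hθr, hθX⟩ := lf_theta k' halg a
  have hmem : ∀ c : k', (c : Ω) ∈ algebraicClosure (RatFunc k) Ω := by
    intro c
    rw [mem_algebraicClosure_iff]
    exact (halg c c.2).extendScalars (algebraMap k (RatFunc k)).injective
  have hC : ∀ c : k', lfP k' θ (c : Ω) (HahnSeries.C c) := fun c => ⟨hmem c, hθC c (hmem c)⟩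
  have hT : lfP k' θ (unif k' a) (HahnSeries.single 1 1) := by
    have hX : lfP k' θ (tt k Ω) (lfX a) := ⟨(algebraMap (RatFunc k) (algebraicClosure (RatFunc k) Ω) RatFunc.X).2, hθX⟩
    cases a with
    | none =>
      have := lfP_inv hX
      rwa [lfX, inv_inv] at this
    | some α =>
      have := lfP_sub hX (hC α)
      rwa [lfX, add_sub_cancel_left] at this
  have : CharZero k' := by
    have : CharZero Ω := charZero_of_injective_algebraMap (algebraMap k Ω).injective
    exact (algebraMap k' Ω).charZero_iff (algebraMap k' Ω).injective |>.mpr this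
  have hac : IsAlgClosed (algebraicClosure (RatFunc k) Ω) :=
    (algebraicClosure.isAlgClosure (F := RatFunc k) (E := Ω)).isAlgClosed
  let E : IntermediateField (RatFunc k) Ω :=
    { carrier := {z | ∃ f, lfP k' θ z f}
      mul_mem' := fun ⟨f, hf⟩ ⟨g, hg⟩ => ⟨_, lfP_mul hf hg⟩
      one_mem' := ⟨_, lfP_one⟩
      add_mem' := fun ⟨f, hf⟩ ⟨g, hg⟩ => ⟨_, lfP_add hf hg⟩
      zero_mem' := ⟨_, lfP_zero⟩
      algebraMap_mem' := fun r => by
        obtain ⟨f, hf⟩ := hθr r
        exact ⟨f, (algebraMap (RatFunc k) (algebraicClosure (RatFunc k) Ω) r).2, hf⟩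
      inv_mem' := fun z ⟨f, hf⟩ => ⟨_, lfP_inv hf⟩ }
  have hE : ∀ z, z ∈ E.toSubfield ↔ ∃ f, lfP k' θ z f := fun z => Iff.rfl
  refine ⟨E, ?_, ?_, lfOrd k' θ, ?_, ?_, ?_, ?_, ?_, ?_, ?_⟩
  · rintro z ⟨f, hz, _⟩
    rwa [mem_algebraicClosure_iff] at hz
  · intro c hc
    exact ⟨_, hC ⟨c, hc⟩⟩
  · intro c hc
    exact ⟨_, hC ⟨c, hc⟩⟩
  · rintro x ⟨f, hf⟩ y ⟨g, hg⟩ hx hy
    rw [lfOrd_eq hf, lfOrd_eq hg, lfOrd_eq (lfP_mul hf hg)]
    exact HahnSeries.order_mul (lfP_ne hf hx) (lfP_ne hg hy)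
  · rintro x ⟨f, hf⟩ y ⟨g, hg⟩ hx hy hxy
    rw [lfOrd_eq hf, lfOrd_eq hg, lfOrd_eq (lfP_add hf hg)]
    exact HahnSeries.min_order_le_order_add (lfP_ne (lfP_add hf hg) hxy)
  · intro c hc h0
    rw [lfOrd_eq (hC ⟨c, hc⟩)]
    exact HahnSeries.order_C
  · rintro z ⟨f, hf⟩ hz hord
    rw [lfOrd_eq hf] at hord
    obtain ⟨g, hg⟩ := sqrt_laurent k' f (fun _ => hord)
    have h1 := lfP_add lfP_one hf
    obtain ⟨hm, h1'⟩ := id h1
    obtain ⟨w, hw⟩ := hac.exists_pow_nat_eq (⟨1 + z, hm⟩ : algebraicClosure (RatFunc k) Ω) (n := 2) (by norm_num)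
    have h2 : θ w ^ 2 = (algebraMap (LaurentSeries k') (AlgebraicClosure (LaurentSeries k')) g) ^ 2 := by
      rw [← map_pow, hw, h1', hg, map_pow]
    have h3 : (w : Ω) ^ 2 = 1 + z := congrArg Subtype.val hw
    rcases sq_eq_sq_iff_eq_or_eq_neg.mp h2 with h | h
    · exact ⟨w, ⟨g, w.2, h⟩, h3.symm⟩
    · exact ⟨w, ⟨-g, w.2, by rw [map_neg]; exact h⟩, h3.symm⟩
  · rintro z ⟨f, hf⟩ hz hord
    rw [lfOrd_eq hf] at hord
    have hf0 := lfP_ne hf hz
    have hc0 : f.coeff 0 ≠ 0 := by
      rw [← hord]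
      exact fun h => hf0 (HahnSeries.coeff_order_eq_zero.mp h)
    refine ⟨(f.coeff 0 : k'), (f.coeff 0).2, fun h => hc0 (Subtype.ext h), ?_⟩
    have h1 := lfP_sub hf (hC (f.coeff 0))
    by_cases hfc : f - HahnSeries.C (f.coeff 0) = 0
    · left
      rw [hfc] at h1
      exact sub_eq_zero.mp (lfP_inj h1 lfP_zero)
    · right
      rw [lfOrd_eq h1]
      by_contra hle
      rw [not_lt] at hle
      apply hfc
      rw [← HahnSeries.coeff_order_eq_zero]
      rcases hle.lt_or_eq with hlt | heq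
      · have e1 : (HahnSeries.C (f.coeff 0) : LaurentSeries k').coeff
            (HahnSeries.order (f - HahnSeries.C (f.coeff 0))) = 0 := HahnSeries.coeff_single_of_ne hlt.ne
        rw [HahnSeries.coeff_sub, HahnSeries.coeff_eq_zero_of_lt_order (x := f) (by rw [hord]; exact hlt), e1, sub_zero]
      · rw [heq, HahnSeries.coeff_sub, HahnSeries.C_apply, HahnSeries.coeff_single_same, sub_self]
  · refine ⟨⟨_, hT⟩, ?_, ?_⟩
    · intro h0
      rw [h0] at hT
      have := lfP_unique hT lfP_zero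
      have h2 := congrArg (fun f => HahnSeries.coeff f 1) this
      simp at h2
    · rw [lfOrd_eq hT, HahnSeries.order_single one_ne_zero]

end BSC
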