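import Pool.Agent.Lib_MP_49ddc8.Aej
import Pool.Agent.Lib_MP_49ddc8.Gal
import Pool.Agent.Lib_MP_49ddc8.Pws

/-!
# [BSC-L1], [BSC-L2], [BSC-L3]  The local theorem and the package

[BSC-L1] `ext_val`: a valuation ring `O` of the subfield `L` extends to `Ω`: the image of `O` in `Ω` is a local subring, dominated by a valuation ring `V` of `Ω` (`LocalSubring.exists_le_valuationSubring` or similar); `V ∩ L` dominates `O`, so it is `O`.

[BSC-L2] `local_thm`: `aej` for the field `L`, `T = {z ≠ 0 : z a square in L}`, `H = {z : z = c w², c ∈ E, w ∈ L, c w ≠ 0, ord c even}` (well defined: `c w² = c' w'²` gives `c/c'` a square in `E` by `h1`, so `ord c ≡ ord c'`); `-1 ∈ T` by `hi`; index 2: `h2`; `π ∉ H`;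
`rig`: `x = c l²`, `ord c` odd, `h3`; witness: `a` of (A2), `a, 1 + a ∈ M`; they are not squares in `L` since a square of `L` in `E` is a square in `E` (`h1`) and an element `c ∈ M` which is a square `e²`, `e ∈ E`, is a square in `M` (`ord e = 0`, `e = d` or `ord (e - d) > 0`, then `c - d² ∈ M` has positive `ord`, so is `0`).
Then `O` with `1 + 𝔪 ⊆ T`.  `M ⊆ O`: the valuation ring `O ∩ M` of `M` has `1 + 𝔪` in the squares of `M`, so it is `M` by (A1).  `π ∈ 𝔪`: `π ∉ H`, `1 + π ∈ T` by `LF.sq`.  `π w² ∉ H`, so never a unit.  `pin`: `c w² ∈ 1 + 𝔪 ⊆ T`, so `c` is a square in `L`, so in `M`.  Extend `O` to `V` by `ext_val`.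

[BSC-L3] `exists_loc`: `lf_exists` gives `E`, `ord`; `L = S.F E ⊇ S.F k'`.  `h1`: `mem_adjoin` (`w ∈ S.F E` algebraic over `κ` lies in `E`); `h2`: `k2`; `h3`: `c ∈ E`, `ord c` odd, so `-c` is not a square in `E`, `norm_step`: `1 + c l² = (r₁² + c r₂²) N²`;
if `r₁ = 0` or `r₂ = 0` clear; else `ord (r₁²) ≠ ord (c r₂²)`, so `r₁² + c r₂² = r₁² (1 + m)` or `c r₂² (1 + m)` with `ord m > 0` (`LF.sq`).
-/

set_option autoImplicit false

namespace BSC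

theorem ext_val {Ω : Type} [Field Ω] (L : Subfield Ω) (O : ValuationSubring L) :
    ∃ V : ValuationSubring Ω, ∀ z : L, (z : Ω) ∈ V ↔ z ∈ O := by
  obtain ⟨V, hle, hloc⟩ := (LocalSubring.map L.subtype O.toLocalSubring).exists_le_valuationSubring
  have hmem : ∀ z : L, z ∈ O → (z : Ω) ∈ V := by
    intro z hz
    exact hle ⟨z, hz, rfl⟩
  refine ⟨V, fun z => ⟨fun hz => ?_, hmem z⟩⟩
  by_contra hzO
  have hz0 : z ≠ 0 := by
    rintro rfl
    exact hzO O.zero_mem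
  have hinv : z⁻¹ ∈ O := (O.mem_or_inv_mem z).resolve_left hzO
  have hinvA : ((z⁻¹ : L) : Ω) ∈ (LocalSubring.map L.subtype O.toLocalSubring).toSubring := ⟨z⁻¹, hinv, rfl⟩
  have hzΩ : (z : Ω) ≠ 0 := fun h => hz0 (Subtype.ext h)
  have hu : IsUnit (Subring.inclusion hle ⟨((z⁻¹ : L) : Ω), hinvA⟩) := by
    refine IsUnit.of_mul_eq_one ⟨(z : Ω), hz⟩ ?_
    apply Subtype.ext
    simp [hzΩ]
  have hu' := hloc.map_nonunit _ hu
  obtain ⟨b, hb⟩ := hu'.exists_right_inv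
  obtain ⟨u, hu1, hu2⟩ := b.2
  have h1 : ((z⁻¹ : L) : Ω) * (u : Ω) = 1 := by
    have := congrArg Subtype.val hb
    simpa [← hu2] using this
  have h2 : z⁻¹ * u = 1 := Subtype.ext h1
  have h3 : u = z := by
    field_simp at h2
    exact h2
  exact hzO (h3 ▸ hu1)

private theorem loc_vlt {K : Type} [Field K] (A : ValuationSubring K) (x : K) :
    A.valuation x < 1 ↔ x = 0 ∨ x⁻¹ ∉ A := by
  by_cases hx : x = 0
  · simp [hx]
  have h1 : A.valuation x ≠ 0 := (Valuation.ne_zero_iff _).2 hx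
  rw [← ValuationSubring.valuation_le_one_iff, map_inv₀]
  constructor
  · intro h
    right
    rw [not_le]
    exact (one_lt_inv₀ (zero_lt_iff.2 h1)).2 h
  · rintro (h | h)
    · exact absurd h hx
    · rw [not_le] at h
      exact (one_lt_inv₀ (zero_lt_iff.2 h1)).1 h

private theorem loc_veq {K : Type} [Field K] (A : ValuationSubring K) (x : K) :
    A.valuation x = 1 ↔ x ≠ 0 ∧ x ∈ A ∧ x⁻¹ ∈ A := by
  by_cases hx : x = 0
  · simp [hx]
  have h1 : A.valuation x ≠ 0 := (Valuation.ne_zero_iff _).2 hx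
  rw [← ValuationSubring.valuation_le_one_iff, ← ValuationSubring.valuation_le_one_iff, map_inv₀]
  constructor
  · intro h
    exact ⟨hx, h.le, by rw [h, inv_one]⟩
  · rintro ⟨-, h2, h3⟩
    exact le_antisymm h2 ((inv_le_one₀ (zero_lt_iff.2 h1)).1 h3)

/-- an element of the residue field which is a square in `E` is a square -/
private theorem loc_sqM {Ω : Type} [Field Ω] {M E : Subfield Ω} {ord : Ω → ℤ} {π : Ω} (h : LF E M ord π)
    {c : Ω} (hc : c ∈ M) (hc0 : c ≠ 0) {e : Ω} (he : e ∈ E) (hce : c = e ^ 2) : ∃ d ∈ M, c = d ^ 2 := by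
  have he0 : e ≠ 0 := by
    rintro rfl
    exact hc0 (by rw [hce]; ring)
  have h1 : ord e + ord e = 0 := by
    rw [← h.mul e he e he he0 he0, ← pow_two, ← hce]
    exact h.const c hc hc0
  have h2 : ord e = 0 := by omega
  obtain ⟨d, hd, hd0, h3 | h3⟩ := h.res e he he0 h2
  · exact ⟨d, hd, by rw [hce, h3]⟩
  by_cases h4 : e - d = 0
  · exact ⟨d, hd, by rw [hce, sub_eq_zero.1 h4]⟩
  by_cases h5 : e + d = 0
  · exact ⟨d, hd, by rw [hce, eq_neg_of_add_eq_zero_left h5]; ring⟩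
  exfalso
  have hdE : d ∈ E := h.sub hd
  have h6 : c - d ^ 2 = (e - d) * (e + d) := by rw [hce]; ring
  have h7 : c - d ^ 2 ≠ 0 := by rw [h6]; exact mul_ne_zero h4 h5
  have h8 := h.const (c - d ^ 2) (sub_mem hc (pow_mem hd 2)) h7
  rw [h6, h.mul _ (sub_mem he hdE) _ (add_mem he hdE) h4 h5] at h8
  have h9 := h.add e he d hdE he0 hd0 h5
  rw [h2, h.const d hd hd0] at h9
  simp at h9
  omega

/-- the set `PP` of the local theorem: odd class, `1 + z` a square -/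
def LPrim {Ω : Type} [Field Ω] (E L : Subfield Ω) (ord : Ω → ℤ) (z : Ω) : Prop :=
  (∃ c ∈ E, c ≠ 0 ∧ Odd (ord c) ∧ ∃ w ∈ L, w ≠ 0 ∧ z = c * w ^ 2) ∧ ∃ v ∈ L, 1 + z = v ^ 2

/-- the local theorem with the description of the maximal ideal on `L` -/
theorem local_thm' {Ω : Type} [Field Ω] (M E L : Subfield Ω) (hEL : E ≤ L) (ord : Ω → ℤ) (π : Ω) (h : LF E M ord π)
    (hA : Arith M) (hi : ∃ i ∈ M, i ^ 2 = (-1 : Ω)) (h1 : ∀ z ∈ E, ∀ w ∈ L, z = w ^ 2 → ∃ w' ∈ E, z = w' ^ 2)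
    (h2 : ∀ z ∈ L, z ≠ 0 → ∃ c ∈ E, c ≠ 0 ∧ ∃ w ∈ L, z = c * w ^ 2)
    (h3 : ∀ c ∈ E, c ≠ 0 → Odd (ord c) → ∀ l ∈ L, (∃ w ∈ L, 1 + c * l ^ 2 = w ^ 2) ∨ ∃ w ∈ L, 1 + c * l ^ 2 = c * w ^ 2) :
    ∃ V : ValuationSubring Ω, (∀ c ∈ M, c ∈ V) ∧ V.valuation π < 1 ∧ (∀ w ∈ L, V.valuation (π * w ^ 2) ≠ 1) ∧
      (∀ c ∈ M, ∀ w ∈ L, V.valuation (c * w ^ 2 - 1) < 1 → ∃ d ∈ M, c = d ^ 2) ∧
      (∀ z ∈ L, V.valuation z < 1 → z = 0 ∨ LPrim E L ord z ∨ ∃ x y : Ω, LPrim E L ord x ∧ LPrim E L ord y ∧ z = x * y) ∧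
      ∀ z : Ω, LPrim E L ord z → V.valuation z < 1 := by
  classical
  have hML : M ≤ L := h.sub.trans hEL
  have hsq : ∀ x ∈ E, x ≠ 0 → ord (x ^ 2) = 2 * ord x := by
    intro x hx hx0
    rw [pow_two, h.mul x hx x hx hx0 hx0]
    ring
  -- the parity of `ord c` depends only on `c w ^ 2`
  have hwd : ∀ c ∈ E, ∀ c' ∈ E, ∀ w ∈ L, ∀ w' ∈ L, c ≠ 0 → c' ≠ 0 → w ≠ 0 → w' ≠ 0 →
      c * w ^ 2 = c' * w' ^ 2 → (Even (ord c) → Even (ord c')) := by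
    intro c hc c' hc' w hw w' hw' hc0 hc0' hw0 hw0' e he
    obtain ⟨d, hd, hcd⟩ := h1 (c' * c⁻¹) (mul_mem hc' (inv_mem hc)) (w * w'⁻¹) (mul_mem hw (inv_mem hw'))
      (by field_simp; linear_combination -e)
    have hd0 : d ≠ 0 := by
      rintro rfl
      have : c' * c⁻¹ ≠ 0 := mul_ne_zero hc0' (inv_ne_zero hc0)
      exact this (by rw [hcd]; ring)
    have h4 : c' = c * d ^ 2 := by rw [← hcd]; field_simp
    rw [h4, h.mul c hc _ (pow_mem hd 2) hc0 (pow_ne_zero 2 hd0), hsq d hd hd0]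
    exact he.add ⟨ord d, by ring⟩
  have hLM : ∀ c ∈ M, c ≠ 0 → ∀ w ∈ L, c = w ^ 2 → ∃ d ∈ M, c = d ^ 2 := by
    intro c hc hc0 w hw hcw
    obtain ⟨e, he, hce⟩ := h1 c (h.sub hc) w hw hcw
    exact loc_sqM h hc hc0 he hce
  set T : Set L := {z | z ≠ 0 ∧ ∃ w : L, z = w ^ 2} with hT
  set H : Set L := {z | z ≠ 0 ∧ ∃ c ∈ E, ∃ w ∈ L, (z : Ω) = c * w ^ 2 ∧ Even (ord c)} with hH
  have hTH : T ⊆ H := by
    rintro z ⟨hz0, w, hw⟩
    refine ⟨hz0, 1, E.one_mem, w, w.2, ?_, ?_⟩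
    · rw [hw]; push_cast; ring
    · rw [h.const 1 M.one_mem one_ne_zero]; exact Even.zero
  -- membership in `H` read on a representative
  have hHr : ∀ z : L, z ∈ H → ∀ c ∈ E, c ≠ 0 → ∀ w ∈ L, w ≠ 0 → (z : Ω) = c * w ^ 2 → Even (ord c) := by
    rintro z ⟨hz0, c', hc', w', hw', e', hev⟩ c hc hc0 w hw hw0 e
    have hzΩ : (z : Ω) ≠ 0 := fun h0 => hz0 (Subtype.ext h0)
    have hc0' : c' ≠ 0 := by
      rintro rfl
      exact hzΩ (by rw [e']; ring)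
    have hw0' : w' ≠ 0 := by
      rintro rfl
      exact hzΩ (by rw [e']; ring)
    exact hwd c' hc' c hc w' hw' w hw hc0' hc0 hw0' hw0 (by rw [← e', e]) hev
  have hrep : ∀ z : L, z ≠ 0 → z ∉ H → ∃ c ∈ E, c ≠ 0 ∧ ∃ w ∈ L, w ≠ 0 ∧ (z : Ω) = c * w ^ 2 ∧ Odd (ord c) := by
    intro z hz0 hzH
    have hzΩ : (z : Ω) ≠ 0 := fun h0 => hz0 (Subtype.ext h0)
    obtain ⟨c, hc, hc0, w, hw, e⟩ := h2 z z.2 hzΩ
    refine ⟨c, hc, hc0, w, hw, ?_, e, ?_⟩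
    · rintro rfl
      exact hzΩ (by rw [e]; ring)
    · rw [← Int.not_even_iff_odd]
      intro hev
      exact hzH ⟨hz0, c, hc, w, hw, e, hev⟩
  obtain ⟨hπE, hπ0, hπ1⟩ := h.unif
  have hπw : ∀ w ∈ L, w ≠ 0 → ∀ z : L, (z : Ω) = π * w ^ 2 → z ∉ H := by
    intro w hw hw0 z e hz
    have h5 := hHr z hz π hπE hπ0 w hw hw0 e
    rw [hπ1] at h5
    exact absurd h5 (by decide)
  obtain ⟨i, hiM, hi2⟩ := hi
  have hTneg : (-1 : L) ∈ T := by
    refine ⟨neg_ne_zero.2 one_ne_zero, ⟨i, hML hiM⟩, ?_⟩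
    apply Subtype.ext
    push_cast
    exact hi2.symm
  have hone : ∀ x : L, x ∉ H → 1 + x ≠ 0 := by
    intro x hx h0
    apply hx
    rw [← eq_neg_of_add_eq_zero_right h0] at hTneg
    exact hTH hTneg
  have hA' : Aej T H := by
    refine ⟨⟨one_ne_zero, 1, by ring⟩, hTneg, ?_, ?_, hTH, fun h0 => h0.1 rfl, ?_, ?_, ?_, ?_, ?_, ?_⟩
    · rintro x ⟨hx0, u, hu⟩ y ⟨hy0, v, hv⟩
      exact ⟨mul_ne_zero hx0 hy0, u * v, by rw [hu, hv]; ring⟩
    · rintro x ⟨hx0, u, hu⟩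
      exact ⟨inv_ne_zero hx0, u⁻¹, by rw [hu, inv_pow]⟩
    · rintro x ⟨hx0, c, hc, u, hu, ex, hcx⟩ y ⟨hy0, d, hd, v, hv, ey, hdy⟩
      have hxΩ : (x : Ω) ≠ 0 := fun h0 => hx0 (Subtype.ext h0)
      have hyΩ : (y : Ω) ≠ 0 := fun h0 => hy0 (Subtype.ext h0)
      have hc0 : c ≠ 0 := by
        rintro rfl
        exact hxΩ (by rw [ex]; ring)
      have hd0 : d ≠ 0 := by
        rintro rfl
        exact hyΩ (by rw [ey]; ring)
      refine ⟨mul_ne_zero hx0 hy0, c * d, mul_mem hc hd, u * v, mul_mem hu hv, ?_, ?_⟩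
      · push_cast
        rw [ex, ey]
        ring
      · rw [h.mul c hc d hd hc0 hd0]
        exact hcx.add hdy
    · rintro x ⟨hx0, c, hc, u, hu, ex, hcx⟩
      have hxΩ : (x : Ω) ≠ 0 := fun h0 => hx0 (Subtype.ext h0)
      have hc0 : c ≠ 0 := by
        rintro rfl
        exact hxΩ (by rw [ex]; ring)
      refine ⟨inv_ne_zero hx0, c⁻¹, inv_mem hc, u⁻¹, inv_mem hu, ?_, ?_⟩
      · push_cast
        rw [ex, mul_inv, inv_pow]
      · have h6 := h.mul c hc c⁻¹ (inv_mem hc) hc0 (inv_ne_zero hc0)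
        rw [mul_inv_cancel₀ hc0, h.const 1 M.one_mem one_ne_zero] at h6
        have h7 : ord c⁻¹ = - ord c := by omega
        rw [h7]
        exact hcx.neg
    · intro x y hx0 hy0 hx hy
      obtain ⟨c, hc, hc0, u, hu, hu0, ex, hcx⟩ := hrep x hx0 hx
      obtain ⟨d, hd, hd0, v, hv, hv0, ey, hdy⟩ := hrep y hy0 hy
      refine ⟨mul_ne_zero hx0 hy0, c * d, mul_mem hc hd, u * v, mul_mem hu hv, ?_, ?_⟩
      · push_cast
        rw [ex, ey]
        ring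
      · rw [h.mul c hc d hd hc0 hd0]
        exact hcx.add_odd hdy
    · refine ⟨⟨π, hEL hπE⟩, fun h0 => hπ0 (congrArg Subtype.val h0), ?_⟩
      exact hπw 1 L.one_mem one_ne_zero _ (by simp)
    · intro x hx0 hx
      obtain ⟨c, hc, hc0, u, hu, hu0, ex, hcx⟩ := hrep x hx0 hx
      have hx1 := hone x hx
      rcases h3 c hc hc0 hcx u hu with ⟨w, hw, e⟩ | ⟨w, hw, e⟩
      · left
        refine ⟨hx1, ⟨w, hw⟩, ?_⟩
        apply Subtype.ext
        push_cast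
        rw [ex, e]
      · right
        refine ⟨div_ne_zero hx1 hx0, ⟨w * u⁻¹, mul_mem hw (inv_mem hu)⟩, ?_⟩
        apply Subtype.ext
        push_cast
        rw [ex, e]
        field_simp
    · obtain ⟨a, ha1, ha2, ha3⟩ := hA.2
      have ha0 : (a : Ω) ≠ 0 := by
        intro h0
        exact ha1 ⟨0, Subtype.ext (by push_cast; rw [h0]; ring)⟩
      have hb0 : (1 : Ω) + a ≠ 0 := by
        intro h0
        exact ha2 ⟨0, Subtype.ext (by push_cast; rw [h0]; ring)⟩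
      have haM : (a : Ω) ∈ M := a.2
      have hbM : (1 : Ω) + a ∈ M := add_mem M.one_mem haM
      refine ⟨⟨a, hML haM⟩, ?_, ?_, ?_, ?_, ?_⟩
      · refine ⟨fun h0 => ha0 (congrArg Subtype.val h0), a, h.sub haM, 1, L.one_mem, by simp, ?_⟩
        rw [h.const _ haM ha0]
        exact Even.zero
      · refine ⟨fun h0 => hb0 (congrArg Subtype.val h0), 1 + a, h.sub hbM, 1, L.one_mem, by simp, ?_⟩
        rw [h.const _ hbM hb0]
        exact Even.zero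
      · rintro ⟨-, w, hw⟩
        obtain ⟨d, hd, hd2⟩ := hLM a haM ha0 w w.2 (by
          have := congrArg Subtype.val hw
          simpa using this)
        exact ha1 ⟨⟨d, hd⟩, Subtype.ext (by simpa using hd2)⟩
      · rintro ⟨-, w, hw⟩
        obtain ⟨d, hd, hd2⟩ := hLM (1 + a) hbM hb0 w w.2 (by
          have := congrArg Subtype.val hw
          simpa using this)
        exact ha2 ⟨⟨d, hd⟩, Subtype.ext (by simpa using hd2)⟩
      · rintro ⟨-, w, hw⟩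
        have hw' : (1 + (a : Ω)) / a = (w : Ω) ^ 2 := by
          have := congrArg Subtype.val hw
          simpa using this
        obtain ⟨d, hd, hd2⟩ := hLM (a * (1 + a)) (mul_mem haM hbM) (mul_ne_zero ha0 hb0) (a * w)
          (mul_mem (hML haM) w.2) (by
          rw [mul_pow, ← hw']
          field_simp)
        exact ha3 ⟨⟨d, hd⟩, Subtype.ext (by simpa using hd2)⟩
  obtain ⟨O, ho1, ho2, ho3, ho4⟩ := aej' hA'
  have hpin : ∀ c ∈ M, c ≠ 0 → ∀ w ∈ L, w ≠ 0 → ∀ z : L, (z : Ω) = c * w ^ 2 - 1 → O.valuation z < 1 →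
      ∃ d ∈ M, c = d ^ 2 := by
    intro c hc hc0 w hw hw0 z hz hv
    obtain ⟨-, u, hu⟩ := ho1 z hv
    have hu' : c * w ^ 2 = (u : Ω) ^ 2 := by
      have := congrArg Subtype.val hu
      push_cast at this
      rw [← this, hz]
      ring
    refine hLM c hc hc0 (u * w⁻¹) (mul_mem u.2 (inv_mem hw)) ?_
    rw [mul_pow, ← hu']
    field_simp
  have hMO : ∀ c (hc : c ∈ M), (⟨c, hML hc⟩ : L) ∈ O := by
    have htop := hA.1 (O.comap (Subfield.inclusion hML)) (by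
      intro z hz
      have hz' : O.valuation (Subfield.inclusion hML z) < 1 := by
        rw [loc_vlt] at hz ⊢
        rcases hz with hz | hz
        · left
          rw [hz, map_zero]
        · right
          intro h0
          apply hz
          rw [ValuationSubring.mem_comap, map_inv₀]
          exact h0
      obtain ⟨hT0, u, hu⟩ := ho1 _ hz'
      have hcz : ((Subfield.inclusion hML z : L) : Ω) = z := rfl
      have h10 : (1 : Ω) + z ≠ 0 := by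
        intro h0
        exact hT0 (Subtype.ext (by push_cast; rw [hcz]; exact h0))
      obtain ⟨d, hd, hd2⟩ := hLM (1 + z) (add_mem M.one_mem z.2) h10 u u.2 (by
        have := congrArg Subtype.val hu
        push_cast at this
        rwa [hcz] at this)
      exact ⟨⟨d, hd⟩, Subtype.ext (by simpa using hd2)⟩)
    intro c hc
    have h11 : (⟨c, hc⟩ : M) ∈ O.comap (Subfield.inclusion hML) := by
      rw [htop]
      trivial
    exact h11
  obtain ⟨V, hV⟩ := ext_val L O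
  have hVlt : ∀ z : L, V.valuation (z : Ω) < 1 ↔ O.valuation z < 1 := by
    intro z
    rw [loc_vlt, loc_vlt, ← hV z⁻¹]
    push_cast
    rw [ZeroMemClass.coe_eq_zero]
  have hVeq : ∀ z : L, V.valuation (z : Ω) = 1 ↔ O.valuation z = 1 := by
    intro z
    rw [loc_veq, loc_veq, ← hV z⁻¹, ← hV z]
    push_cast
    rw [Ne, Ne, ZeroMemClass.coe_eq_zero]
  have hprim : ∀ x : L, x ∈ PP T H → LPrim E L ord (x : Ω) := by
    rintro x ⟨hx0, hxH, -, v, hv⟩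
    obtain ⟨c, hc, hc0, w, hw, hw0, e, hodd⟩ := hrep x hx0 hxH
    exact ⟨⟨c, hc, hc0, hodd, w, hw, hw0, e⟩, v, v.2, by
      have := congrArg Subtype.val hv
      simpa using this⟩
  refine ⟨V, ?_, ?_, ?_, ?_, ?_, ?_⟩
  · intro c hc
    exact (hV ⟨c, hML hc⟩).2 (hMO c hc)
  · have hπH : (⟨π, hEL hπE⟩ : L) ∉ H := hπw 1 L.one_mem one_ne_zero _ (by simp)
    have h12 := ho2 ⟨π, hEL hπE⟩ (fun h0 => hπ0 (congrArg Subtype.val h0)) hπH (by
      obtain ⟨w, hw, e⟩ := h.sq π hπE hπ0 (by rw [hπ1]; exact one_pos)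
      exact ⟨hone _ hπH, ⟨w, hEL hw⟩, Subtype.ext (by simpa using e)⟩)
    exact (hVlt ⟨π, hEL hπE⟩).2 h12
  · intro w hw
    by_cases hw0 : w = 0
    · rw [hw0]
      simp
    have hm : π * w ^ 2 ∈ L := mul_mem (hEL hπE) (pow_mem hw 2)
    have h13 := ho3 ⟨π * w ^ 2, hm⟩ (fun h0 => mul_ne_zero hπ0 (pow_ne_zero 2 hw0) (congrArg Subtype.val h0))
      (hπw w hw hw0 _ rfl)
    exact fun h0 => h13 ((hVeq ⟨π * w ^ 2, hm⟩).1 h0)
  · intro c hc w hw hv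
    have hm : c * w ^ 2 - 1 ∈ L := sub_mem (mul_mem (hML hc) (pow_mem hw 2)) L.one_mem
    by_cases hc0 : c = 0
    · exact ⟨0, M.zero_mem, by rw [hc0]; ring⟩
    have hw0 : w ≠ 0 := by
      rintro rfl
      simp at hv
    exact hpin c hc hc0 w hw hw0 ⟨c * w ^ 2 - 1, hm⟩ rfl ((hVlt ⟨c * w ^ 2 - 1, hm⟩).1 hv)
  · intro z hz hv
    rcases ho4 ⟨z, hz⟩ ((hVlt ⟨z, hz⟩).1 hv) with h0 | h0 | ⟨x, hx, y, hy, e⟩
    · exact Or.inl (congrArg Subtype.val h0)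
    · exact Or.inr (Or.inl (hprim _ h0))
    · exact Or.inr (Or.inr ⟨x, y, hprim x hx, hprim y hy, congrArg Subtype.val e⟩)
  · rintro z ⟨⟨c, hc, hc0, hodd, w, hw, hw0, e⟩, v, hv, ev⟩
    have hz : z ∈ L := by
      rw [e]
      exact mul_mem (hEL hc) (pow_mem hw 2)
    have hz0 : z ≠ 0 := by
      rw [e]
      exact mul_ne_zero hc0 (pow_ne_zero 2 hw0)
    have hzH : (⟨z, hz⟩ : L) ∉ H := by
      intro h5
      exact Int.not_even_iff_odd.2 hodd (hHr ⟨z, hz⟩ h5 c hc hc0 w hw hw0 e)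
    exact (hVlt ⟨z, hz⟩).2 (ho2 ⟨z, hz⟩ (fun h0 => hz0 (congrArg Subtype.val h0)) hzH
      ⟨hone _ hzH, ⟨v, hv⟩, Subtype.ext (by simpa using ev)⟩)

theorem local_thm {Ω : Type} [Field Ω] (M E L : Subfield Ω) (hEL : E ≤ L) (ord : Ω → ℤ) (π : Ω) (h : LF E M ord π)
    (hA : Arith M) (hi : ∃ i ∈ M, i ^ 2 = (-1 : Ω)) (h1 : ∀ z ∈ E, ∀ w ∈ L, z = w ^ 2 → ∃ w' ∈ E, z = w' ^ 2)
    (h2 : ∀ z ∈ L, z ≠ 0 → ∃ c ∈ E, c ≠ 0 ∧ ∃ w ∈ L, z = c * w ^ 2)
    (h3 : ∀ c ∈ E, c ≠ 0 → Odd (ord c) → ∀ l ∈ L, (∃ w ∈ L, 1 + c * l ^ 2 = w ^ 2) ∨ ∃ w ∈ L, 1 + c * l ^ 2 = c * w ^ 2) :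
    ∃ V : ValuationSubring Ω, (∀ c ∈ M, c ∈ V) ∧ V.valuation π < 1 ∧ (∀ w ∈ L, V.valuation (π * w ^ 2) ≠ 1) ∧
      ∀ c ∈ M, ∀ w ∈ L, V.valuation (c * w ^ 2 - 1) < 1 → ∃ d ∈ M, c = d ^ 2 := by
  obtain ⟨V, a1, a2, a3, a4, _⟩ := local_thm' M E L hEL ord π h hA hi h1 h2 h3
  exact ⟨V, a1, a2, a3, a4⟩

theorem LF.ord_one {Ω : Type} [Field Ω] {E M : Subfield Ω} {ord : Ω → ℤ} {π : Ω} (h : LF E M ord π) :
    ord 1 = 0 := h.const 1 M.one_mem one_ne_zero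

theorem LF.ord_neg {Ω : Type} [Field Ω] {E M : Subfield Ω} {ord : Ω → ℤ} {π : Ω} (h : LF E M ord π)
    {x : Ω} (hx : x ∈ E) (h0 : x ≠ 0) : ord (-x) = ord x := by
  have h1 : ord (-1 : Ω) = 0 := h.const _ (neg_mem M.one_mem) (neg_ne_zero.2 one_ne_zero)
  have h2 := h.mul (-1) (neg_mem E.one_mem) x hx (neg_ne_zero.2 one_ne_zero) h0
  rw [neg_one_mul] at h2
  rw [h2, h1, zero_add]

theorem LF.ord_inv {Ω : Type} [Field Ω] {E M : Subfield Ω} {ord : Ω → ℤ} {π : Ω} (h : LF E M ord π)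
    {x : Ω} (hx : x ∈ E) (h0 : x ≠ 0) : ord x⁻¹ = - ord x := by
  have h2 := h.mul x hx x⁻¹ (inv_mem hx) h0 (inv_ne_zero h0)
  rw [mul_inv_cancel₀ h0, h.ord_one] at h2
  omega

theorem LF.ord_sq {Ω : Type} [Field Ω] {E M : Subfield Ω} {ord : Ω → ℤ} {π : Ω} (h : LF E M ord π)
    {x : Ω} (hx : x ∈ E) (h0 : x ≠ 0) : ord (x ^ 2) = 2 * ord x := by
  rw [pow_two, h.mul x hx x hx h0 h0]
  ring

/-- a form `x ^ 2 + c y ^ 2` with `ord c` odd has the class `1` or `c` -/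
theorem LF.form {Ω : Type} [Field Ω] {E M : Subfield Ω} {ord : Ω → ℤ} {π : Ω} (h : LF E M ord π)
    {c : Ω} (hc : c ∈ E) (hc0 : c ≠ 0) (hodd : Odd (ord c)) {x y : Ω} (hx : x ∈ E) (hy : y ∈ E) :
    (∃ w ∈ E, x ^ 2 + c * y ^ 2 = w ^ 2) ∨ ∃ w ∈ E, x ^ 2 + c * y ^ 2 = c * w ^ 2 := by
  by_cases hx0 : x = 0
  · exact Or.inr ⟨y, hy, by rw [hx0]; ring⟩
  by_cases hy0 : y = 0
  · exact Or.inl ⟨x, hx, by rw [hy0]; ring⟩
  have hx2 : x ^ 2 ∈ E := pow_mem hx 2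
  have hy2 : y ^ 2 ∈ E := pow_mem hy 2
  have hx20 : x ^ 2 ≠ 0 := pow_ne_zero 2 hx0
  have hy20 : y ^ 2 ≠ 0 := pow_ne_zero 2 hy0
  have hcy : c * y ^ 2 ∈ E := mul_mem hc hy2
  have hcy0 : c * y ^ 2 ≠ 0 := mul_ne_zero hc0 hy20
  have e1 : ord (c * y ^ 2) = ord c + 2 * ord y := by
    rw [h.mul c hc _ hy2 hc0 hy20, h.ord_sq hy hy0]
  have e2 := h.ord_sq hx hx0
  obtain ⟨n, hn⟩ := hodd
  rcases lt_or_gt_of_ne (show ord (x ^ 2) ≠ ord (c * y ^ 2) by omega) with hlt | hlt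
  · obtain ⟨w, hw, hw2⟩ := h.sq (c * y ^ 2 * (x ^ 2)⁻¹) (mul_mem hcy (inv_mem hx2))
      (mul_ne_zero hcy0 (inv_ne_zero hx20)) (by
        rw [h.mul _ hcy _ (inv_mem hx2) hcy0 (inv_ne_zero hx20), h.ord_inv hx2 hx20]
        omega)
    refine Or.inl ⟨x * w, mul_mem hx hw, ?_⟩
    rw [mul_pow, ← hw2]
    field_simp
  · obtain ⟨w, hw, hw2⟩ := h.sq (x ^ 2 * (c * y ^ 2)⁻¹) (mul_mem hx2 (inv_mem hcy))
      (mul_ne_zero hx20 (inv_ne_zero hcy0)) (by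
        rw [h.mul _ hx2 _ (inv_mem hcy) hx20 (inv_ne_zero hcy0), h.ord_inv hcy hcy0]
        omega)
    refine Or.inr ⟨y * w, mul_mem hy hw, ?_⟩
    rw [mul_pow, ← hw2]
    field_simp
    ring

theorem exists_locD {k Ω : Type} [Field k] [CharZero k] [Field Ω] [IsAlgClosed Ω] [Algebra k Ω] [Algebra (RatFunc k) Ω]
    [IsScalarTower k (RatFunc k) Ω] (S : Sec (RatFunc k) Ω) (k' : IntermediateField k Ω)
    (hA : Arith k'.toSubfield) (hi : ∃ i ∈ k', i ^ 2 = (-1 : Ω)) (a : Option k') (E : IntermediateField (RatFunc k) Ω)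
    (hEalg : ∀ z ∈ E, IsAlgebraic (RatFunc k) z) (hkE : (k' : Set Ω) ⊆ E) (ord : Ω → ℤ)
    (hLF : LF E.toSubfield k'.toSubfield ord (unif k' a)) : ∃ V : ValuationSubring Ω, Loc S k' a V ∧
      (∀ z ∈ S.F (E : Set Ω), V.valuation z < 1 → z = 0 ∨ LPrim E.toSubfield (S.F (E : Set Ω)) ord z ∨
        ∃ x y : Ω, LPrim E.toSubfield (S.F (E : Set Ω)) ord x ∧ LPrim E.toSubfield (S.F (E : Set Ω)) ord y ∧ z = x * y) ∧
      ∀ z : Ω, LPrim E.toSubfield (S.F (E : Set Ω)) ord z → V.valuation z < 1 := by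
  have hEA : ∀ x ∈ (E : Set Ω), IsAlgebraic (RatFunc k) x := fun x hx => hEalg x hx
  have hadj : IntermediateField.adjoin (RatFunc k) (E : Set Ω) = E := IntermediateField.adjoin_self _ E
  have hEL : E.toSubfield ≤ S.F (E : Set Ω) := fun z hz => mem_F_of_mem S _ z hz (hEalg z hz)
  have hsub : S.F (k' : Set Ω) ≤ S.F (E : Set Ω) := S.F_mono hkE
  have hmem : ∀ w ∈ S.F (E : Set Ω), IsAlgebraic (RatFunc k) w → w ∈ E := by
    intro w hw hwa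
    have := mem_adjoin S (E : Set Ω) hEA w hw hwa
    rwa [hadj] at this
  have h1 : ∀ z ∈ E.toSubfield, ∀ w ∈ S.F (E : Set Ω), z = w ^ 2 →
      ∃ w' ∈ E.toSubfield, z = w' ^ 2 := by
    intro z hz w hw hzw
    refine ⟨w, hmem w hw ?_, hzw⟩
    have h2 : IsAlgebraic (RatFunc k) (w ^ 2) := by rw [← hzw]; exact hEalg z hz
    exact IsAlgebraic.of_pow two_pos h2
  have h2 : ∀ z ∈ S.F (E : Set Ω), z ≠ 0 → ∃ c ∈ E.toSubfield, c ≠ 0 ∧
      ∃ w ∈ S.F (E : Set Ω), z = c * w ^ 2 := by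
    intro z hz h0
    obtain ⟨c, hc, hc0, w, hw, _, e⟩ := k2 S (E : Set Ω) hEA z hz h0
    rw [hadj] at hc
    exact ⟨c, hc, hc0, w, hw, e⟩
  have h3 : ∀ c ∈ E.toSubfield, c ≠ 0 → Odd (ord c) → ∀ l ∈ S.F (E : Set Ω),
      (∃ w ∈ S.F (E : Set Ω), 1 + c * l ^ 2 = w ^ 2) ∨
        ∃ w ∈ S.F (E : Set Ω), 1 + c * l ^ 2 = c * w ^ 2 := by
    intro c hc hc0 hodd l hl
    have hns : ¬ ∃ d ∈ E, -c = d ^ 2 := by
      rintro ⟨d, hd, hcd⟩
      have hd0 : d ≠ 0 := by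
        rintro rfl
        apply hc0
        have : -c = 0 := by rw [hcd]; ring
        exact neg_eq_zero.1 this
      have e1 := hLF.ord_neg hc hc0
      rw [hcd, hLF.ord_sq hd hd0] at e1
      obtain ⟨n, hn⟩ := hodd
      omega
    obtain ⟨r₁, hr₁, r₂, hr₂, N, hN, e⟩ := norm_step S E hEalg c hc hns l hl
    rcases hLF.form hc hc0 hodd hr₁ hr₂ with ⟨w, hw, hw2⟩ | ⟨w, hw, hw2⟩
    · exact Or.inl ⟨w * N, mul_mem (hEL hw) hN, by rw [e, hw2]; ring⟩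
    · exact Or.inr ⟨w * N, mul_mem (hEL hw) hN, by rw [e, hw2]; ring⟩
  obtain ⟨V, hV1, hV2, hV3, hV4, hV5, hV6⟩ := local_thm' k'.toSubfield E.toSubfield (S.F (E : Set Ω)) hEL ord
    (unif k' a) hLF hA hi h1 h2 h3
  exact ⟨V, ⟨fun c hc => hV1 c hc, hV2, fun w hw => hV3 w (hsub hw),
    fun c hc w hw hv => hV4 c hc w (hsub hw) hv⟩, hV5, hV6⟩

theorem exists_loc {k Ω : Type} [Field k] [CharZero k] [Field Ω] [IsAlgClosed Ω] [Algebra k Ω] [Algebra (RatFunc k) Ω]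
    [IsScalarTower k (RatFunc k) Ω] (S : Sec (RatFunc k) Ω) (k' : IntermediateField k Ω) (halg : ∀ c ∈ k', IsAlgebraic k c)
    (hA : Arith k'.toSubfield) (hi : ∃ i ∈ k', i ^ 2 = (-1 : Ω)) (a : Option k') : ∃ V : ValuationSubring Ω, Loc S k' a V := by
  obtain ⟨E, hEalg, hkE, ord, hLF⟩ := lf_exists k' halg a
  obtain ⟨V, hV, _⟩ := exists_locD S k' hA hi a E hEalg hkE ord hLF
  exact ⟨V, hV⟩

end BSC
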