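import Pool.Agent.Lib_MP_49ddc8.Pws

/-!
# [BSC-P3]  The local fields of all levels with one embedding

`lf_all`: fix the point `a` (an element algebraic over `k`, or infinity).  Let `K = algebraicClosure k Ω` (as an `IntermediateField k Ω`), `aK : Option K` the point, `θ` from `lf_theta K aK`.  For a level `k'` let `j : LaurentSeries k' →+* LaurentSeries K` be the coefficientwise inclusion (`HahnSeries.map`), and
`E k' = IntermediateField.adjoin (RatFunc k) {z | ∃ f : LaurentSeries k', lfP K θ z (j f)}`, `ord = lfOrd K θ`.  If the point lies in `k'` the set is itself a field containing `k'`, `t` and so the image of `RatFunc k` (fractions of polynomials), so `E k'` is this set, and everything is as in `lf_exists`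
(`sqrt_laurent` over `k'`; `order (j f) = order f`).  Monotone: `adjoin_mono`, coefficientwise inclusion factors through `LaurentSeries k''`.
-/

set_option autoImplicit false

namespace BSC

/-- coefficientwise inclusion of Laurent series -/
noncomputable def lfJ {A B : Type} [Field A] [Field B] (φ : A →+* B) : LaurentSeries A →+* LaurentSeries B where
  toFun x := x.map φ
  map_one' := by
    ext n
    rw [HahnSeries.map_coeff, HahnSeries.coeff_one, HahnSeries.coeff_one]
    split_ifs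
    · exact map_one φ
    · exact map_zero φ
  map_zero' := by
    ext n
    rw [HahnSeries.map_coeff, HahnSeries.coeff_zero, HahnSeries.coeff_zero, map_zero]
  map_add' x y := by
    ext n
    rw [HahnSeries.map_coeff, HahnSeries.coeff_add, HahnSeries.coeff_add, HahnSeries.map_coeff, HahnSeries.map_coeff, map_add]
  map_mul' x y := HahnSeries.map_mul (φ : A →ₙ+* B)

theorem lfJ_coeff {A B : Type} [Field A] [Field B] (φ : A →+* B) (g : LaurentSeries A) (n : ℤ) :
    (lfJ φ g).coeff n = φ (g.coeff n) := rfl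

theorem lfJ_C {A B : Type} [Field A] [Field B] (φ : A →+* B) (c : A) : lfJ φ (HahnSeries.C c) = HahnSeries.C (φ c) := by
  ext n
  rw [lfJ_coeff, HahnSeries.C_apply, HahnSeries.C_apply, HahnSeries.coeff_single, HahnSeries.coeff_single]
  split_ifs
  · rfl
  · exact map_zero φ

theorem lfJ_single {A B : Type} [Field A] [Field B] (φ : A →+* B) :
    lfJ φ (HahnSeries.single (1 : ℤ) (1 : A)) = HahnSeries.single (1 : ℤ) (1 : B) := by
  ext n
  rw [lfJ_coeff, HahnSeries.coeff_single, HahnSeries.coeff_single]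
  split_ifs
  · exact map_one φ
  · exact map_zero φ

theorem lfJ_order {A B : Type} [Field A] [Field B] (φ : A →+* B) (g : LaurentSeries A) (hg : g ≠ 0) :
    (lfJ φ g).order = g.order := by
  have hg' : lfJ φ g ≠ 0 := fun h => hg ((lfJ φ).injective (h.trans (map_zero _).symm))
  apply le_antisymm
  · apply HahnSeries.order_le_of_coeff_ne_zero
    rw [lfJ_coeff]
    exact fun h => hg (HahnSeries.coeff_order_eq_zero.mp (φ.injective (h.trans (map_zero φ).symm)))
  · apply HahnSeries.order_le_of_coeff_ne_zero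
    intro h
    apply hg'
    rw [← HahnSeries.coeff_order_eq_zero, lfJ_coeff, h, map_zero]

theorem lfJ_lfX {A B : Type} [Field A] [Field B] (φ : A →+* B) (a : Option A) : lfJ φ (lfX a) = lfX (a.map φ) := by
  cases a with
  | none => rw [lfX, map_inv₀, lfJ_single]; rfl
  | some α => rw [lfX, map_add, lfJ_C, lfJ_single]; rfl

/-- a Laurent series with coefficients in a subfield -/
theorem lfJ_exists {A B : Type} [Field A] [Field B] (φ : A →+* B) (f : LaurentSeries B)
    (hf : ∀ n, ∃ c, φ c = f.coeff n) : ∃ g : LaurentSeries A, lfJ φ g = f := by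
  choose c hc using hf
  refine ⟨⟨c, f.isPWO_support.mono fun n hn => ?_⟩, ?_⟩
  · intro h
    apply hn
    have h1 : φ (c n) = 0 := (hc n).trans h
    exact φ.injective (h1.trans (map_zero φ).symm)
  · ext n
    rw [lfJ_coeff]
    exact hc n

section

variable {k Ω : Type} [Field k] [Field Ω] [Algebra k Ω] [Algebra (RatFunc k) Ω] [IsScalarTower k (RatFunc k) Ω]

/-- the field of the elements of `Ω` whose Laurent series has its coefficients in the level `k'` -/
theorem lf_level (K : IntermediateField k Ω)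
    (θ : algebraicClosure (RatFunc k) Ω →+* AlgebraicClosure (LaurentSeries K))
    (hC : ∀ c : K, lfP K θ (c : Ω) (HahnSeries.C c)) (aK : Option K)
    (hX : lfP K θ (tt k Ω) (lfX aK)) (k' : IntermediateField k Ω) (hk : k' ≤ K) (a' : Option k')
    (ha : a'.map (IntermediateField.inclusion hk : k' →+* K) = aK) :
    ∃ T : IntermediateField (RatFunc k) Ω, (∀ z, z ∈ T ↔ ∃ f : LaurentSeries K, lfP K θ z f ∧ ∀ n, ((f.coeff n : K) : Ω) ∈ k') ∧
      ∀ z, z ∈ T ↔ ∃ g : LaurentSeries k', lfP K θ z (lfJ (IntermediateField.inclusion hk : k' →+* K) g) := by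
  set φ : k' →+* K := (IntermediateField.inclusion hk : k' →+* K) with hφ
  let T0 : Subfield Ω :=
    { carrier := {z | ∃ g : LaurentSeries k', lfP K θ z (lfJ φ g)}
      mul_mem' := fun ⟨f, hf⟩ ⟨g, hg⟩ => ⟨f * g, by rw [map_mul]; exact lfP_mul hf hg⟩
      one_mem' := ⟨1, by rw [map_one]; exact lfP_one⟩
      add_mem' := fun ⟨f, hf⟩ ⟨g, hg⟩ => ⟨f + g, by rw [map_add]; exact lfP_add hf hg⟩
      zero_mem' := ⟨0, by rw [map_zero]; exact lfP_zero⟩
      neg_mem' := fun ⟨f, hf⟩ => ⟨-f, by rw [map_neg]; exact lfP_neg hf⟩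
      inv_mem' := fun z ⟨f, hf⟩ => ⟨f⁻¹, by rw [map_inv₀]; exact lfP_inv hf⟩ }
  have hT0 : ∀ z, z ∈ T0 ↔ ∃ g : LaurentSeries k', lfP K θ z (lfJ φ g) := fun z => Iff.rfl
  have hCT : ∀ c : k', (c : Ω) ∈ T0 := fun c => ⟨HahnSeries.C c, by rw [lfJ_C]; exact hC (φ c)⟩
  have hXT : tt k Ω ∈ T0 := ⟨lfX a', by rw [lfJ_lfX, ha]; exact hX⟩
  have hpol : ∀ p : Polynomial k, algebraMap (RatFunc k) Ω (algebraMap (Polynomial k) (RatFunc k) p) ∈ T0 := by
    intro p
    induction p using Polynomial.induction_on with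
    | C c =>
      rw [RatFunc.algebraMap_C, ← RatFunc.algebraMap_eq_C, ← IsScalarTower.algebraMap_apply k (RatFunc k) Ω]
      exact hCT (algebraMap k k' c)
    | add p q hp hq =>
      rw [map_add, map_add]
      exact add_mem hp hq
    | monomial n c h =>
      rw [pow_succ, ← mul_assoc, map_mul, map_mul, RatFunc.algebraMap_X]
      exact mul_mem h hXT
  have hrat : ∀ r : RatFunc k, algebraMap (RatFunc k) Ω r ∈ T0 := by
    intro r
    induction r using RatFunc.induction_on with
    | f p q hq =>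
      rw [map_div₀]
      exact div_mem (hpol p) (hpol q)
  let T : IntermediateField (RatFunc k) Ω := { T0 with algebraMap_mem' := hrat }
  have hT : ∀ z, z ∈ T ↔ ∃ g : LaurentSeries k', lfP K θ z (lfJ φ g) := fun z => Iff.rfl
  refine ⟨T, fun z => ?_, hT⟩
  rw [hT]
  constructor
  · rintro ⟨g, hg⟩
    refine ⟨_, hg, fun n => ?_⟩
    rw [lfJ_coeff]
    exact (g.coeff n).2
  · rintro ⟨f, hf, hn⟩
    obtain ⟨g, hg⟩ := lfJ_exists φ f fun n => ⟨⟨_, hn n⟩, Subtype.ext rfl⟩
    exact ⟨g, by rw [hg]; exact hf⟩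

end

theorem lf_all {k Ω : Type} [Field k] [CharZero k] [Field Ω] [IsAlgClosed Ω] [Algebra k Ω] [Algebra (RatFunc k) Ω]
    [IsScalarTower k (RatFunc k) Ω] (a : Option Ω) (ha : ∀ α : Ω, a = some α → IsAlgebraic k α) :
    ∃ (ord : Ω → ℤ) (E : IntermediateField k Ω → IntermediateField (RatFunc k) Ω),
      (∀ k' : IntermediateField k Ω, (∀ c ∈ k', IsAlgebraic k c) → ∀ a' : Option k', a'.map (fun c : k' => (c : Ω)) = a →
        (∀ z ∈ E k', IsAlgebraic (RatFunc k) z) ∧ (k' : Set Ω) ⊆ E k' ∧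
          LF (E k').toSubfield k'.toSubfield ord (unif k' a')) ∧
      ∀ k' k'' : IntermediateField k Ω, (∀ c ∈ k'', IsAlgebraic k c) → k' ≤ k'' → E k' ≤ E k'' := by
  obtain ⟨K, hK⟩ : ∃ K : IntermediateField k Ω, K = algebraicClosure k Ω := ⟨_, rfl⟩
  have hKmem : ∀ c : Ω, c ∈ K ↔ IsAlgebraic k c := by
    intro c
    rw [hK, mem_algebraicClosure_iff]
  obtain ⟨aK, haK⟩ : ∃ aK : Option K, aK.map (fun c : K => (c : Ω)) = a := by
    cases a with
    | none => exact ⟨none, rfl⟩
    | some α => exact ⟨some ⟨α, (hKmem α).mpr (ha α rfl)⟩, rfl⟩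
  obtain ⟨θ, hθC, hθr, hθX⟩ := lf_theta K (fun c hc => (hKmem c).mp hc) aK
  have hmem : ∀ c : K, (c : Ω) ∈ algebraicClosure (RatFunc k) Ω := by
    intro c
    rw [mem_algebraicClosure_iff]
    exact ((hKmem c).mp c.2).extendScalars (algebraMap k (RatFunc k)).injective
  have hC : ∀ c : K, lfP K θ (c : Ω) (HahnSeries.C c) := fun c => ⟨hmem c, hθC c (hmem c)⟩
  have hX : lfP K θ (tt k Ω) (lfX aK) := ⟨(algebraMap (RatFunc k) (algebraicClosure (RatFunc k) Ω) RatFunc.X).2, hθX⟩
  have hac : IsAlgClosed (algebraicClosure (RatFunc k) Ω) :=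
    (algebraicClosure.isAlgClosure (F := RatFunc k) (E := Ω)).isAlgClosed
  have hΩ0 : CharZero Ω := charZero_of_injective_algebraMap (algebraMap k Ω).injective
  refine ⟨lfOrd K θ, fun k' => IntermediateField.adjoin (RatFunc k)
    {z | ∃ f : LaurentSeries K, lfP K θ z f ∧ ∀ n, ((f.coeff n : K) : Ω) ∈ k'}, ?_, ?_⟩
  swap
  · intro k' k'' _ hle
    apply IntermediateField.adjoin.mono
    rintro z ⟨f, hf, hn⟩
    exact ⟨f, hf, fun n => hle (hn n)⟩
  intro k' halg a' ha'
  have hk : k' ≤ K := fun c hc => (hKmem c).mpr (halg c hc)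
  have haa : a'.map (IntermediateField.inclusion hk : k' →+* K) = aK := by
    cases a' with
    | none =>
      cases aK with
      | none => rfl
      | some β => rw [← haK] at ha'; simp at ha'
    | some α =>
      cases aK with
      | none => rw [← haK] at ha'; simp at ha'
      | some β =>
        rw [← haK] at ha'
        simp only [Option.map_some, Option.some.injEq] at ha' ⊢
        exact Subtype.ext ha'
  obtain ⟨T, hT1, hT2⟩ := lf_level K θ hC aK hX k' hk a' haa
  have hET : IntermediateField.adjoin (RatFunc k)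
      {z | ∃ f : LaurentSeries K, lfP K θ z f ∧ ∀ n, ((f.coeff n : K) : Ω) ∈ k'} = T := by
    have : {z | ∃ f : LaurentSeries K, lfP K θ z f ∧ ∀ n, ((f.coeff n : K) : Ω) ∈ k'} = (T : Set Ω) := by
      ext z
      exact (hT1 z).symm
    rw [this]
    exact IntermediateField.adjoin_self _ _
  simp only [hET]
  set φ : k' →+* K := (IntermediateField.inclusion hk : k' →+* K) with hφ
  have hchar : CharZero k' := (algebraMap k' Ω).charZero_iff (algebraMap k' Ω).injective |>.mpr hΩ0
  have hCT : ∀ c : k', lfP K θ (c : Ω) (lfJ φ (HahnSeries.C c)) := fun c => by rw [lfJ_C]; exact hC (φ c)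
  have hTs : ∀ z, z ∈ T.toSubfield ↔ ∃ g : LaurentSeries k', lfP K θ z (lfJ φ g) := hT2
  refine ⟨?_, ?_, ?_, ?_, ?_, ?_, ?_, ?_, ?_⟩
  · intro z hz
    obtain ⟨g, hz, _⟩ := (hT2 z).mp hz
    rwa [mem_algebraicClosure_iff] at hz
  · intro c hc
    exact (hT2 c).mpr ⟨_, hCT ⟨c, hc⟩⟩
  · intro c hc
    exact (hT2 c).mpr ⟨_, hCT ⟨c, hc⟩⟩
  · intro x hx y hy hx0 hy0
    obtain ⟨f, hf⟩ := (hTs x).mp hx
    obtain ⟨g, hg⟩ := (hTs y).mp hy
    rw [lfOrd_eq hf, lfOrd_eq hg, lfOrd_eq (lfP_mul hf hg)]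
    exact HahnSeries.order_mul (lfP_ne hf hx0) (lfP_ne hg hy0)
  · intro x hx y hy hx0 hy0 hxy
    obtain ⟨f, hf⟩ := (hTs x).mp hx
    obtain ⟨g, hg⟩ := (hTs y).mp hy
    rw [lfOrd_eq hf, lfOrd_eq hg, lfOrd_eq (lfP_add hf hg)]
    exact HahnSeries.min_order_le_order_add (lfP_ne (lfP_add hf hg) hxy)
  · intro c hc h0
    rw [lfOrd_eq (hCT ⟨c, hc⟩), lfJ_C]
    exact HahnSeries.order_C
  · intro z hz hz0 hord
    obtain ⟨g, hg⟩ := (hTs z).mp hz
    rw [lfOrd_eq hg] at hord
    have hg0 : g ≠ 0 := by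
      rintro rfl
      exact lfP_ne hg hz0 (map_zero _)
    rw [lfJ_order φ g hg0] at hord
    obtain ⟨h, hh⟩ := sqrt_laurent k' g (fun _ => hord)
    have h1 := lfP_add lfP_one hg
    obtain ⟨hm, h1'⟩ := id h1
    obtain ⟨w, hw⟩ := hac.exists_pow_nat_eq (⟨1 + z, hm⟩ : algebraicClosure (RatFunc k) Ω) (n := 2) (by norm_num)
    have h2 : θ w ^ 2 = (algebraMap (LaurentSeries K) (AlgebraicClosure (LaurentSeries K)) (lfJ φ h)) ^ 2 := by
      rw [← map_pow, hw, h1', ← map_pow, ← map_pow, ← hh, map_add (lfJ φ), map_one (lfJ φ)]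
    have h3 : (w : Ω) ^ 2 = 1 + z := congrArg Subtype.val hw
    rcases sq_eq_sq_iff_eq_or_eq_neg.mp h2 with h' | h'
    · exact ⟨w, (hTs _).mpr ⟨h, w.2, h'⟩, h3.symm⟩
    · exact ⟨w, (hTs _).mpr ⟨-h, w.2, by rw [map_neg, map_neg]; exact h'⟩, h3.symm⟩
  · intro z hz hz0 hord
    obtain ⟨g, hg⟩ := (hTs z).mp hz
    rw [lfOrd_eq hg] at hord
    have hf0 := lfP_ne hg hz0
    have hc0 : (lfJ φ g).coeff 0 ≠ 0 := by
      rw [← hord]
      exact fun h => hf0 (HahnSeries.coeff_order_eq_zero.mp h)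
    have hc1 : g.coeff 0 ≠ 0 := by
      intro h
      apply hc0
      rw [lfJ_coeff, h, map_zero]
    refine ⟨(g.coeff 0 : k'), (g.coeff 0).2, fun h => hc1 (Subtype.ext h), ?_⟩
    have h1 := lfP_sub hg (hCT (g.coeff 0))
    rw [lfJ_C] at h1
    by_cases hfc : lfJ φ g - HahnSeries.C (φ (g.coeff 0)) = 0
    · left
      rw [hfc] at h1
      exact sub_eq_zero.mp (lfP_inj h1 lfP_zero)
    · right
      rw [lfOrd_eq h1]
      by_contra hle
      rw [not_lt] at hle
      apply hfc
      rw [← HahnSeries.coeff_order_eq_zero]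
      rcases hle.lt_or_eq with hlt | heq
      · have e1 : (HahnSeries.C (φ (g.coeff 0)) : LaurentSeries K).coeff
            (HahnSeries.order (lfJ φ g - HahnSeries.C (φ (g.coeff 0)))) = 0 := HahnSeries.coeff_single_of_ne hlt.ne
        rw [HahnSeries.coeff_sub, HahnSeries.coeff_eq_zero_of_lt_order (x := lfJ φ g) (by rw [hord]; exact hlt), e1, sub_zero]
      · rw [heq, HahnSeries.coeff_sub, HahnSeries.C_apply, HahnSeries.coeff_single_same, lfJ_coeff, sub_self]
  · have hT : lfP K θ (unif k' a') (HahnSeries.single 1 1) := by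
      cases a' with
      | none =>
        subst haa
        have := lfP_inv hX
        rwa [Option.map_none, lfX, inv_inv] at this
      | some α =>
        subst haa
        have := lfP_sub hX (hC (φ α))
        rwa [Option.map_some, lfX, add_sub_cancel_left] at this
    refine ⟨(hTs _).mpr ⟨HahnSeries.single 1 1, by rw [lfJ_single]; exact hT⟩, ?_, ?_⟩
    · intro h0
      rw [h0] at hT
      have := lfP_unique hT lfP_zero
      have h2 := congrArg (fun f => HahnSeries.coeff f 1) this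
      simp at h2
    · rw [lfOrd_eq hT, HahnSeries.order_single one_ne_zero]

end BSC
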