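import Pool.Agent.Lib_MP_49ddc8.Loc
import Pool.Agent.Lib_MP_49ddc8.PwsAll

/-!
# [BSC-L4]  The whole system of valuation rings, with compatibility of levels

`exists_sys`: for every point use the one embedding of `lf_all`; `comp` by the description of the maximal ideal (`exists_locD`).
-/

set_option autoImplicit false

namespace BSC

theorem LPrim.mono {Ω : Type} [Field Ω] {E E' L L' : Subfield Ω} {ord : Ω → ℤ} {z : Ω} (hE : E ≤ E') (hL : L ≤ L')
    (h : LPrim E L ord z) : LPrim E' L' ord z := by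
  obtain ⟨⟨c, hc, hc0, hodd, w, hw, hw0, e⟩, v, hv, ev⟩ := h
  exact ⟨⟨c, hE hc, hc0, hodd, w, hL hw, hw0, e⟩, v, hL hv, ev⟩

theorem exists_sys {k Ω : Type} [Field k] [CharZero k] [Field Ω] [IsAlgClosed Ω] [Algebra k Ω] [Algebra (RatFunc k) Ω]
    [IsScalarTower k (RatFunc k) Ω] (S : Sec (RatFunc k) Ω) (k0 : IntermediateField k Ω) (hfin0 : FiniteDimensional k k0)
    (hA : ∀ k' : IntermediateField k Ω, k0 ≤ k' → FiniteDimensional k k' → Arith k'.toSubfield)
    (hi : ∃ i ∈ k0, i ^ 2 = (-1 : Ω)) : ∃ Y : Sys k Ω, Y.S = S ∧ Y.k0 = k0 := by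
  classical
  have halgk : ∀ k' : IntermediateField k Ω, FiniteDimensional k k' → ∀ c ∈ k', IsAlgebraic k c := by
    intro k' hfin c hc
    have h1 : IsAlgebraic k (⟨c, hc⟩ : k') := Algebra.IsAlgebraic.isAlgebraic _
    exact (isAlgebraic_algebraMap_iff (algebraMap k' Ω).injective).2 h1
  -- the local data of a point
  have hpt : ∀ a : Option Ω, ∃ (ord : Ω → ℤ) (E : IntermediateField k Ω → IntermediateField (RatFunc k) Ω),
      (∀ α : Ω, a = some α → IsAlgebraic k α) →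
      (∀ k' : IntermediateField k Ω, (∀ c ∈ k', IsAlgebraic k c) → ∀ a' : Option k', a'.map (fun c : k' => (c : Ω)) = a →
        (∀ z ∈ E k', IsAlgebraic (RatFunc k) z) ∧ (k' : Set Ω) ⊆ E k' ∧
          LF (E k').toSubfield k'.toSubfield ord (unif k' a')) ∧
      ∀ k' k'' : IntermediateField k Ω, (∀ c ∈ k'', IsAlgebraic k c) → k' ≤ k'' → E k' ≤ E k'' := by
    intro a
    by_cases ha : ∀ α : Ω, a = some α → IsAlgebraic k α
    · obtain ⟨ord, E, h⟩ := lf_all a ha
      exact ⟨ord, E, fun _ => h⟩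
    · exact ⟨fun _ => 0, fun _ => ⊥, fun h => absurd h ha⟩
  choose ord E hE using hpt
  have hpa : ∀ (k' : IntermediateField k Ω), FiniteDimensional k k' → ∀ (a' : Option k') (α : Ω),
      a'.map (fun c : k' => (c : Ω)) = some α → IsAlgebraic k α := by
    intro k' hfin a' α h
    rw [Option.map_eq_some_iff] at h
    obtain ⟨c, _, rfl⟩ := h
    exact halgk k' hfin c c.2
  have hV : ∀ (k' : IntermediateField k Ω) (a' : Option k'), ∃ V : ValuationSubring Ω, k0 ≤ k' → FiniteDimensional k k' →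
      Loc S k' a' V ∧
      (∀ z ∈ S.F (E (a'.map (fun c : k' => (c : Ω))) k' : Set Ω), V.valuation z < 1 → z = 0 ∨
        LPrim (E (a'.map (fun c : k' => (c : Ω))) k').toSubfield (S.F (E (a'.map (fun c : k' => (c : Ω))) k' : Set Ω))
          (ord (a'.map (fun c : k' => (c : Ω)))) z ∨
        ∃ x y : Ω, LPrim (E (a'.map (fun c : k' => (c : Ω))) k').toSubfield
            (S.F (E (a'.map (fun c : k' => (c : Ω))) k' : Set Ω)) (ord (a'.map (fun c : k' => (c : Ω)))) x ∧
          LPrim (E (a'.map (fun c : k' => (c : Ω))) k').toSubfield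
            (S.F (E (a'.map (fun c : k' => (c : Ω))) k' : Set Ω)) (ord (a'.map (fun c : k' => (c : Ω)))) y ∧ z = x * y) ∧
      ∀ z : Ω, LPrim (E (a'.map (fun c : k' => (c : Ω))) k').toSubfield
          (S.F (E (a'.map (fun c : k' => (c : Ω))) k' : Set Ω)) (ord (a'.map (fun c : k' => (c : Ω)))) z →
        V.valuation z < 1 := by
    intro k' a'
    by_cases h : k0 ≤ k' ∧ FiniteDimensional k k'
    · obtain ⟨hk, hfin⟩ := h
      obtain ⟨h1, h2, h3⟩ := (hE (a'.map (fun c : k' => (c : Ω))) (hpa k' hfin a')).1 k' (halgk k' hfin) a' rfl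
      obtain ⟨i, hi1, hi2⟩ := hi
      obtain ⟨V, hV⟩ := exists_locD S k' (hA k' hk hfin) ⟨i, hk hi1, hi2⟩ a' _ h1 h2 _ h3
      exact ⟨V, fun _ _ => hV⟩
    · exact ⟨⊤, fun h1 h2 => absurd ⟨h1, h2⟩ h⟩
  choose V hV using hV
  refine ⟨⟨S, k0, hfin0, V, fun k' hk hfin a => (hV k' a hk hfin).1, ?_⟩, rfl, rfl⟩
  intro k' k'' hk h hfin hfin'' a z hz hv
  have hpt' : (a.map (IntermediateField.inclusion h)).map (fun c : k'' => (c : Ω)) = a.map (fun c : k' => (c : Ω)) := by
    rw [Option.map_map]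
    rfl
  have hmono : E (a.map (fun c : k' => (c : Ω))) k' ≤ E (a.map (fun c : k' => (c : Ω))) k'' :=
    (hE (a.map (fun c : k' => (c : Ω))) (hpa k' hfin a)).2 k' k'' (halgk k'' hfin'') h
  obtain ⟨_, hsub, _⟩ := (hE (a.map (fun c : k' => (c : Ω))) (hpa k' hfin a)).1 k' (halgk k' hfin) a rfl
  have hL : S.F (E (a.map (fun c : k' => (c : Ω))) k' : Set Ω) ≤ S.F (E (a.map (fun c : k' => (c : Ω))) k'' : Set Ω) :=
    S.F_mono hmono
  obtain ⟨_, hd, _⟩ := hV k' a hk hfin
  obtain ⟨_, _, hd''⟩ := hV k'' (a.map (IntermediateField.inclusion h)) (hk.trans h) hfin''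
  rw [hpt'] at hd''
  rcases hd z (S.F_mono hsub hz) hv with rfl | h1 | ⟨x, y, hx, hy, rfl⟩
  · rw [map_zero]
    exact zero_lt_one
  · exact hd'' z (h1.mono hmono hL)
  · rw [map_mul]
    exact mul_lt_one_of_nonneg_of_lt_one_left zero_le (hd'' x (hx.mono hmono hL)) (hd'' y (hy.mono hmono hL)).le

end BSC
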