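import Pool.Agent.Lib_MP_49ddc8.Fin
import Pool.Agent.Lib_MP_49ddc8.LocAll

/-!
# [BS-M1] .. [BS-M3]  The main theorem

[BS-M1] `exists_U`: `exists_level` for a square root of `-1` over the level `⊥` gives `k0`; `exists_sys` gives `Y`; `x, y ∈ S.F ∅ ≤ S.F k0` (`Sec.F_mono`); `exists_pt1` gives `P : Pt1 Y' x₀ ..`, `Y' = Y.raise ..`; `ξ = (x₀ - 0)⁻¹`, `P.stepIII 0`: `ξ` is small at all places, `Xi Y' ξ`
(`tr`: `x₀ = ξ⁻¹` is transcendental), `Xi.V3`, `invariant`.

[BS-M2] `inv_all`: `φ' r = S.s τ⁻¹ (φ r)` is a second `κ`-algebra map `RatFunc k → Ω`; `M = φ.fieldRange ⊔ φ'.fieldRange` is finite over `κ`, so over `RatFunc k` (`Module.Finite.of_restrictScalars_finite`), `nonsq` gives a nonsquare of `M`.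
`U' = U.comap (S.s τ)`: contains the algebraic elements, `hres` holds for `U'` (apply `hres` to `S.s τ y`, `ρ' = S.s τ⁻¹ ρ`), and it is invariant under `S.s σ` if `σ` fixes `M`: `S.s σ z ∈ U' ↔ S.s (τ σ τ⁻¹) (S.s τ z) ∈ U` and `τ σ τ⁻¹` fixes the range of `φ`.  `unique_inv`: `U' = U`.

[BS-M3] `bsc`: `S` from `exists_sec`; `Algebra (RatFunc k) Ω` and `Algebra k Ω` from `φ`; `S₁` from `exists_restrict` (`κ₁ = RatFunc k`); `x, y ∈ S₁.F ∅` since every `S₁.s τ₁ = S.s τ = s τ` fixes `K` and the range of `φ`; `Dep` from `dep_of_trdeg`, `dep_up`; `U` from `exists_U`; `res_alg` gives `hres` for `U`; `inv_all`.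
Existence: `O = U.comap (algebraMap K Ω)`, `W = U`.  `O ≠ ⊤`: otherwise `K ≤ U`, `Ω` is algebraic over `K` and `U` is integrally closed, so `ξ⁻¹ ∈ U`.  Residue field: `x ∈ O`: `|x - ρ| < 1`, `ρ` algebraic; for every `τ`: `|x - S.s τ ρ| < 1`, so `S.s τ ρ = ρ`, `ρ ∈ S.F ∅`, `ρ ∈ adjoin κ ∅ = κ` (`mem_adjoin`);
`c = ρ`: `x - c = 0` or `(x - c)⁻¹ ∉ U`.  Uniqueness: let `O', W'` be another pair.  `W'` contains `κ`, so all algebraic elements; `O' ≠ ⊤` gives `ξ' ∈ K`, `ξ' ≠ 0`, `W'.valuation ξ' < 1` (`ξ' = y⁻¹` for `y ∉ O'`), `ξ'` is transcendental over `κ` (otherwise `ξ'⁻¹ ∈ W'`), `res_alg` gives `hres` for `W'`;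
`unique_inv` with `M = φ.fieldRange` and `nonsq`: `W' = U`, so `O' = O`.
-/

set_option autoImplicit false

open Polynomial

namespace BSC

/-- the system of valuation rings over a number field -/
theorem exists_sys' {k Ω : Type} [Field k] [NumberField k] [Field Ω] [IsAlgClosed Ω] [Algebra k Ω] [Algebra (RatFunc k) Ω]
    [IsScalarTower k (RatFunc k) Ω] (S : Sec (RatFunc k) Ω) (k0 : IntermediateField k Ω) (hfin : FiniteDimensional k k0)
    (hi : ∃ i ∈ k0, i ^ 2 = (-1 : Ω)) : ∃ Y : Sys k Ω, Y.S = S ∧ k0 ≤ Y.k0 := by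
  obtain ⟨Y, hS, hk⟩ := exists_sys S k0 hfin (fun k' _ hfin' => by
    have : NumberField k' := NumberField.of_module_finite k k'
    exact arith_nf k') hi
  exact ⟨Y, hS, hk.ge⟩

theorem exists_U {k Ω : Type} [Field k] [NumberField k] [Field Ω] [IsAlgClosed Ω] [Algebra k Ω] [Algebra (RatFunc k) Ω]
    [IsScalarTower k (RatFunc k) Ω] (S : Sec (RatFunc k) Ω) (hdep : Dep (RatFunc k) Ω) (f : k[X]) (hf : f.Separable)
    (hdeg : 3 ≤ f.natDegree) (x y : Ω) (hx : x ∈ S.F ∅) (hy : y ∈ S.F ∅) (htr : Transcendental (RatFunc k) x)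
    (hxy : y ^ 2 = aeval x f) :
    ∃ U : ValuationSubring Ω, (∀ z : Ω, IsAlgebraic (RatFunc k) z → z ∈ U) ∧ (∃ ξ : Ω, ξ ≠ 0 ∧ U.valuation ξ < 1) ∧
      ∀ (τ : algebraicClosure (RatFunc k) Ω ≃ₐ[RatFunc k] algebraicClosure (RatFunc k) Ω) (z : Ω), S.s τ z ∈ U ↔ z ∈ U := by
  obtain ⟨i, hi⟩ := IsAlgClosed.exists_pow_nat_eq (-1 : Ω) (n := 2) (by norm_num)
  have hialg : IsAlgebraic k i := by
    refine ⟨X ^ 2 + C 1, (monic_X_pow_add_C (1 : k) two_ne_zero).ne_zero, ?_⟩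
    simp [hi]
  obtain ⟨k0, -, hfin0, hik⟩ := exists_level (k := k) (Ω := Ω) ⊥ inferInstance {i}
    (Set.finite_singleton i) (by rintro z rfl; exact hialg)
  obtain ⟨Y, hYS, hYk⟩ := exists_sys' S k0 hfin0 ⟨i, hik rfl, hi⟩
  subst hYS
  have hx' : x ∈ Y.S.F Y.k0 := Y.S.F_mono (Set.empty_subset _) hx
  have hy' : y ∈ Y.S.F Y.k0 := Y.S.F_mono (Set.empty_subset _) hy
  obtain ⟨k', hk, hfin, x₀, e₁, e₂, e₃, a₀, P⟩ := exists_pt1 Y f hf hdeg x y hx' hy' htr hxy
  have htr0 : Transcendental (RatFunc k) (x₀ - 0)⁻¹ := by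
    rw [sub_zero]
    intro h
    exact P.tr (by simpa using h.inv)
  have hX : Xi (Y.raise k' hk hfin) (x₀ - 0)⁻¹ :=
    ⟨htr0, fun k'' hk'' hfin'' a => P.stepIII 0 (zero_mem _) k'' hk'' hfin'' a,
      fun z => hdep _ htr0 z⟩
  obtain ⟨U, h1, h2, h3⟩ := hX.V3
  refine ⟨U, h1, ⟨_, fun h0 => htr0 ?_, h2⟩, fun τ z => invariant _ U h1 h3 τ z⟩
  rw [h0]
  exact isAlgebraic_zero

private theorem val_lt_one_iff' {Ω : Type} [Field Ω] (A : ValuationSubring Ω) (z : Ω) :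
    A.valuation z < 1 ↔ z = 0 ∨ z⁻¹ ∉ A := by
  by_cases hz : z = 0
  · simp [hz]
  · have h0 : A.valuation z ≠ 0 := (Valuation.ne_zero_iff _).2 hz
    rw [← ValuationSubring.valuation_le_one_iff, map_inv₀, not_le]
    constructor
    · intro h
      right
      exact (one_lt_inv₀ (zero_lt_iff.2 h0)).2 h
    · rintro (h | h)
      · exact absurd h hz
      · exact (one_lt_inv₀ (zero_lt_iff.2 h0)).1 h

theorem inv_all {κ k Ω : Type} [Field κ] [CharZero κ] [Field k] [Field Ω] [IsAlgClosed Ω] [Algebra κ Ω] [Algebra κ (RatFunc k)]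
    [FiniteDimensional κ (RatFunc k)] (φ : RatFunc k →ₐ[κ] Ω) (S : Sec κ Ω) (U : ValuationSubring Ω)
    (halg : ∀ z : Ω, IsAlgebraic κ z → z ∈ U) (hres : ∀ y ∈ U, ∃ ρ : Ω, IsAlgebraic κ ρ ∧ U.valuation (y - ρ) < 1)
    (hinv : ∀ τ : algebraicClosure κ Ω ≃ₐ[κ] algebraicClosure κ Ω,
      (∀ x : algebraicClosure κ Ω, (x : Ω) ∈ Set.range φ → τ x = x) → ∀ z : Ω, S.s τ z ∈ U ↔ z ∈ U)
    (τ : algebraicClosure κ Ω ≃ₐ[κ] algebraicClosure κ Ω) (z : Ω) : S.s τ z ∈ U ↔ z ∈ U := by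
  classical
  -- the second embedding
  have hcom : ∀ (σ : algebraicClosure κ Ω ≃ₐ[κ] algebraicClosure κ Ω) (c : κ),
      S.s σ (algebraMap κ Ω c) = algebraMap κ Ω c := by
    intro σ c
    have h := S.res σ (algebraMap κ (algebraicClosure κ Ω) c)
    rw [AlgEquiv.commutes] at h
    exact h
  have hinvS : ∀ w : Ω, S.s τ⁻¹ (S.s τ w) = w := by
    intro w
    have h : (S.s τ⁻¹ * S.s τ) w = w := by
      rw [← map_mul, inv_mul_cancel, map_one]; rfl
    exact h
  have hinvS' : ∀ w : Ω, S.s τ (S.s τ⁻¹ w) = w := by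
    intro w
    have h : (S.s τ * S.s τ⁻¹) w = w := by
      rw [← map_mul, mul_inv_cancel, map_one]; rfl
    exact h
  let φ' : RatFunc k →ₐ[κ] Ω :=
    { ((S.s τ⁻¹ : Ω ≃+* Ω) : Ω →+* Ω).comp (φ : RatFunc k →+* Ω) with
      commutes' := by
        intro c
        have h1 : (φ : RatFunc k →+* Ω) (algebraMap κ (RatFunc k) c) = algebraMap κ Ω c := φ.commutes c
        show (S.s τ⁻¹) ((φ : RatFunc k →+* Ω) (algebraMap κ (RatFunc k) c)) = algebraMap κ Ω c
        rw [h1, hcom] }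
  have hφ' : ∀ r, φ' r = S.s τ⁻¹ (φ r) := fun r => rfl
  set M : IntermediateField κ Ω := φ.fieldRange ⊔ φ'.fieldRange with hM
  have hφM : ∀ r, φ r ∈ M := fun r => (le_sup_left : φ.fieldRange ≤ M) ⟨r, rfl⟩
  have hφ'M : ∀ r, φ' r ∈ M := fun r => (le_sup_right : φ'.fieldRange ≤ M) ⟨r, rfl⟩
  have hf1 : FiniteDimensional κ φ.fieldRange :=
    Module.Finite.of_surjective (φ.rangeRestrict.toLinearMap) φ.rangeRestrict_surjective
  have hf2 : FiniteDimensional κ φ'.fieldRange :=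
    Module.Finite.of_surjective (φ'.rangeRestrict.toLinearMap) φ'.rangeRestrict_surjective
  have hfM : FiniteDimensional κ M := IntermediateField.finiteDimensional_sup _ _
  have hMalg : ∀ x ∈ M, IsAlgebraic κ x := by
    intro x hx
    have h := (Algebra.IsAlgebraic.of_finite κ M).isAlgebraic ⟨x, hx⟩
    exact (isAlgebraic_algebraMap_iff (A := Ω) (FaithfulSMul.algebraMap_injective M Ω)).2 h
  -- M as an extension of `RatFunc k`
  let f : RatFunc k →+* M := (φ : RatFunc k →+* Ω).codRestrict M hφM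
  let _ : Algebra (RatFunc k) M := f.toAlgebra
  have : IsScalarTower κ (RatFunc k) M := by
    refine IsScalarTower.of_algebraMap_eq (fun c => ?_)
    apply Subtype.ext
    exact (φ.commutes c).symm
  have : FiniteDimensional (RatFunc k) M := Module.Finite.of_restrictScalars_finite κ (RatFunc k) M
  obtain ⟨n, hn⟩ := nonsq k M
  -- the second valuation ring
  let U' : ValuationSubring Ω := U.comap ((S.s τ : Ω ≃+* Ω) : Ω →+* Ω)
  have hU' : ∀ w, w ∈ U' ↔ S.s τ w ∈ U := fun w => Iff.rfl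
  have halgs : ∀ (σ : algebraicClosure κ Ω ≃ₐ[κ] algebraicClosure κ Ω) (w : Ω), IsAlgebraic κ w → IsAlgebraic κ (S.s σ w) := by
    intro σ w hw
    have h := S.res σ ⟨w, mem_algebraicClosure_iff.2 hw⟩
    have h2 : S.s σ w = ((σ ⟨w, mem_algebraicClosure_iff.2 hw⟩ : algebraicClosure κ Ω) : Ω) := h
    rw [h2]
    exact mem_algebraicClosure_iff.1 (σ ⟨w, mem_algebraicClosure_iff.2 hw⟩).2
  have key : U' = U := by
    refine unique_inv κ Ω S M hMalg (n : Ω) n.2 ?_ U' U (fun w hw => (hU' w).2 (halg _ (halgs τ w hw))) halg ?_ hres ?_ ?_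
    · rintro ⟨d, hd, hnd⟩
      exact hn ⟨⟨d, hd⟩, Subtype.ext hnd⟩
    · intro y hy
      obtain ⟨ρ, hρ, hρ1⟩ := hres (S.s τ y) hy
      refine ⟨S.s τ⁻¹ ρ, halgs τ⁻¹ ρ hρ, ?_⟩
      rw [val_lt_one_iff'] at hρ1 ⊢
      have h1 : S.s τ (y - S.s τ⁻¹ ρ) = S.s τ y - ρ := by rw [map_sub, hinvS']
      rcases hρ1 with h | h
      · left
        have h2 : S.s τ (y - S.s τ⁻¹ ρ) = 0 := by rw [h1, h]
        exact (map_eq_zero_iff _ (S.s τ).injective).1 h2
      · right
        rw [hU', map_inv₀, h1]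
        exact h
    · intro σ hσ w
      rw [hU', hU']
      have h1 : S.s τ (S.s σ w) = S.s (τ * σ * τ⁻¹) (S.s τ w) := by
        have h2 : S.s (τ * σ * τ⁻¹) (S.s τ w) = (S.s τ * S.s σ * S.s τ⁻¹ * S.s τ) w := by
          rw [map_mul, map_mul]; rfl
        rw [h2]
        show S.s τ (S.s σ w) = S.s τ (S.s σ (S.s τ⁻¹ (S.s τ w)))
        rw [hinvS]
      rw [h1]
      apply hinv
      rintro x ⟨r, hr⟩
      have h3 : σ (τ⁻¹ x) = τ⁻¹ x := by
        apply hσ
        have h4 := S.res τ⁻¹ x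
        rw [← h4, ← hr]
        exact hφ'M r
      show τ (σ (τ⁻¹ x)) = x
      rw [h3]
      show (τ * τ⁻¹) x = x
      rw [mul_inv_cancel]; rfl
    · intro σ hσ w
      apply hinv
      rintro x ⟨r, hr⟩
      apply hσ
      rw [← hr]
      exact hφM r
  rw [← hU' z, key]

theorem m3_lt_one {Ω : Type} [Field Ω] (V : ValuationSubring Ω) (z : Ω) (hz : z ≠ 0) :
    V.valuation z < 1 ↔ z⁻¹ ∉ V := by
  have h0 : 0 < V.valuation z := by
    rw [pos_iff_ne_zero]
    exact (Valuation.ne_zero_iff _).2 hz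
  rw [← V.valuation_le_one_iff, map_inv₀, not_le, one_lt_inv₀ h0]

/-- a valuation ring which contains a field contains the elements algebraic over it -/
theorem m3_int {A Ω : Type} [Field A] [Field Ω] [Algebra A Ω] (W : ValuationSubring Ω) (hA : ∀ c : A, algebraMap A Ω c ∈ W)
    (z : Ω) (hz : IsAlgebraic A z) : z ∈ W := by
  obtain ⟨p, hp, hpz⟩ := hz.isIntegral
  have h1 : IsIntegral W z := by
    refine ⟨p.map ((algebraMap A Ω).codRestrict W.toSubring hA), hp.map _, ?_⟩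
    rw [eval₂_map]
    exact hpz
  obtain ⟨y, hy⟩ := IsIntegrallyClosed.isIntegral_iff.1 h1
  rw [← hy]
  exact y.2

theorem m3_tr {κ Ω : Type} [Field κ] [Field Ω] [Algebra κ Ω] (U : ValuationSubring Ω)
    (halg : ∀ z : Ω, IsAlgebraic κ z → z ∈ U) (ξ : Ω) (h0 : ξ ≠ 0) (hξ : U.valuation ξ < 1) : Transcendental κ ξ := by
  intro h
  exact (m3_lt_one U ξ h0).1 hξ (halg _ h.inv)

theorem m3_inv {κ Ω : Type} [Field κ] [Field Ω] [Algebra κ Ω] (S : Sec κ Ω) (U : ValuationSubring Ω)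
    (τ : algebraicClosure κ Ω ≃ₐ[κ] algebraicClosure κ Ω) (hU : ∀ z : Ω, S.s τ z ∈ U ↔ z ∈ U) (z : Ω)
    (hz : U.valuation z < 1) : U.valuation (S.s τ z) < 1 := by
  by_cases h0 : z = 0
  · rw [h0, map_zero, map_zero]
    exact zero_lt_one
  · have h1 : S.s τ z ≠ 0 := by
      rw [Ne, map_eq_zero]
      exact h0
    rw [m3_lt_one U _ h1, ← map_inv₀, hU]
    exact (m3_lt_one U _ h0).1 hz

/-- the residue field is `κ` -/
theorem m3_res {κ Ω : Type} [Field κ] [CharZero κ] [Field Ω] [IsAlgClosed Ω] [Algebra κ Ω] (S : Sec κ Ω) (U : ValuationSubring Ω)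
    (halg : ∀ z : Ω, IsAlgebraic κ z → z ∈ U) (hres : ∀ y ∈ U, ∃ ρ : Ω, IsAlgebraic κ ρ ∧ U.valuation (y - ρ) < 1)
    (hinv : ∀ (τ : algebraicClosure κ Ω ≃ₐ[κ] algebraicClosure κ Ω) (z : Ω), S.s τ z ∈ U ↔ z ∈ U)
    (x : Ω) (hx : x ∈ U) (hfix : ∀ τ, S.s τ x = x) : ∃ c : κ, U.valuation (x - algebraMap κ Ω c) < 1 := by
  obtain ⟨ρ, hρ, hρx⟩ := hres x hx
  have hF : ρ ∈ S.F ∅ := by
    intro τ _
    by_contra hne
    have h0 : ρ - S.s τ ρ ≠ 0 := fun h => hne (sub_eq_zero.1 h).symm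
    have h1 : U.valuation (x - S.s τ ρ) < 1 := by
      have := m3_inv S U τ (hinv τ) _ hρx
      rwa [map_sub, hfix] at this
    have h2 : U.valuation (ρ - S.s τ ρ) < 1 := by
      have : ρ - S.s τ ρ = (x - S.s τ ρ) - (x - ρ) := by ring
      rw [this]
      exact lt_of_le_of_lt (Valuation.map_sub _ _ _) (max_lt h1 hρx)
    have h3 : IsAlgebraic κ (S.s τ ρ) := by
      have := S.res τ ⟨ρ, mem_algebraicClosure_iff.2 hρ⟩
      rw [this]
      exact mem_algebraicClosure_iff.1 (τ ⟨ρ, mem_algebraicClosure_iff.2 hρ⟩).2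
    exact (m3_lt_one U _ h0).1 h2 (halg _ (hρ.sub h3).inv)
  have h4 := mem_adjoin S ∅ (fun x hx => absurd hx (Set.notMem_empty x)) ρ hF hρ
  rw [IntermediateField.adjoin_empty, IntermediateField.mem_bot] at h4
  obtain ⟨c, hc⟩ := h4
  exact ⟨c, hc ▸ hρx⟩

/-- `κ` has a finite extension `k(u)`, `k` a number field; `K/κ` has transcendence degree one, and the field generated by `K` and `k(u)`
contains `x` (transcendental over `κ`) and `y` with `y² = f(x)`, `f ∈ k[X]` separable of degree at least `3`.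
Then every section of `G_K → G_κ` is defined by exactly one `κ`-rational place of `K`. -/
theorem bsc (κ : Type) [Field κ] [CharZero κ] (K : Type) [Field K] [Algebra κ K]
    (htd : ∃ t : K, Transcendental κ t ∧ Algebra.IsAlgebraic (IntermediateField.adjoin κ {t}) K)
    (k : Type) [Field k] [NumberField k] [Algebra κ (RatFunc k)] [FiniteDimensional κ (RatFunc k)]
    (φ : RatFunc k →ₐ[κ] AlgebraicClosure K) (f : k[X]) (hf : f.Separable) (hdeg : 3 ≤ f.natDegree) (x y : AlgebraicClosure K)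
    (hx : x ∈ IntermediateField.adjoin K (Set.range φ)) (hy : y ∈ IntermediateField.adjoin K (Set.range φ))
    (htr : Transcendental κ x) (hxy : y ^ 2 = f.eval₂ (φ.toRingHom.comp (algebraMap k (RatFunc k))) x)
    (s : ((algebraicClosure κ (AlgebraicClosure K)) ≃ₐ[κ] (algebraicClosure κ (AlgebraicClosure K))) →*
      (AlgebraicClosure K ≃ₐ[K] AlgebraicClosure K)) (hs : Continuous s)
    (hres : ∀ (τ : (algebraicClosure κ (AlgebraicClosure K)) ≃ₐ[κ] (algebraicClosure κ (AlgebraicClosure K)))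
      (x : algebraicClosure κ (AlgebraicClosure K)),
        s τ (x : AlgebraicClosure K) = ((τ x : algebraicClosure κ (AlgebraicClosure K)) : AlgebraicClosure K)) :
    ∃! O : ValuationSubring K,
      ((∀ c : κ, algebraMap κ K c ∈ O) ∧ O ≠ ⊤ ∧
        ∀ x ∈ O, ∃ c : κ, x - algebraMap κ K c = 0 ∨ (x - algebraMap κ K c)⁻¹ ∉ O) ∧
      ∃ W : ValuationSubring (AlgebraicClosure K),
        W.comap (algebraMap K (AlgebraicClosure K)) = O ∧
        ∀ τ, ∀ y : AlgebraicClosure K, (s τ y ∈ W ↔ y ∈ W) := by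
  obtain ⟨S, hS⟩ := exists_sec κ K s hs hres
  have hK : ∀ τ (c : K), S.s τ (algebraMap K (AlgebraicClosure K) c) = algebraMap K (AlgebraicClosure K) c := by
    intro τ c
    rw [hS]
    exact (s τ).commutes c
  have hφalg : ∀ r : RatFunc k, IsAlgebraic κ (φ r) := fun r => (Algebra.IsAlgebraic.isAlgebraic (R := κ) r).algHom φ
  have hdep : Dep κ (AlgebraicClosure K) := dep_of_trdeg κ K htd
  -- the valuation ring
  obtain ⟨U, halgU, ξ, hξ0, hξ, hinvU⟩ : ∃ U : ValuationSubring (AlgebraicClosure K), (∀ z : AlgebraicClosure K, IsAlgebraic κ z → z ∈ U) ∧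
      ∃ ξ : AlgebraicClosure K, ξ ≠ 0 ∧ U.valuation ξ < 1 ∧
        ∀ τ : algebraicClosure κ (AlgebraicClosure K) ≃ₐ[κ] algebraicClosure κ (AlgebraicClosure K),
          (∀ x : algebraicClosure κ (AlgebraicClosure K), (x : AlgebraicClosure K) ∈ Set.range φ → τ x = x) →
            ∀ z : AlgebraicClosure K, S.s τ z ∈ U ↔ z ∈ U := by
    let _ : Algebra (RatFunc k) (AlgebraicClosure K) := φ.toRingHom.toAlgebra
    let _ : Algebra k (AlgebraicClosure K) := (φ.toRingHom.comp (algebraMap k (RatFunc k))).toAlgebra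
    have : IsScalarTower k (RatFunc k) (AlgebraicClosure K) := IsScalarTower.of_algebraMap_eq (fun _ => rfl)
    have hsub : ∀ c : κ, ∃ r : RatFunc k, algebraMap (RatFunc k) (AlgebraicClosure K) r = algebraMap κ (AlgebraicClosure K) c :=
      fun c => ⟨algebraMap κ (RatFunc k) c, φ.commutes c⟩
    obtain ⟨hiff, S₁, h1, h2⟩ := exists_restrict κ (RatFunc k) (AlgebraicClosure K) hsub hφalg S
    have hfix : ∀ z ∈ IntermediateField.adjoin K (Set.range φ), z ∈ S₁.F ∅ := by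
      intro z hz τ₁ _
      obtain ⟨τ, hτ, hττ⟩ := h1 τ₁
      rw [hττ]
      induction hz using IntermediateField.adjoin_induction with
      | mem z hz =>
        obtain ⟨r, rfl⟩ := hz
        have := S.res τ ⟨φ r, mem_algebraicClosure_iff.2 (hφalg r)⟩
        rw [hτ _ ⟨r, rfl⟩] at this
        exact this
      | algebraMap c => exact hK τ c
      | add a b _ _ ha hb => rw [map_add, ha, hb]
      | inv a _ ha => rw [map_inv₀, ha]
      | mul a b _ _ ha hb => rw [map_mul, ha, hb]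
    obtain ⟨U, hU1, ⟨ξ, hξ0, hξ⟩, hU3⟩ := exists_U S₁ (dep_up κ (RatFunc k) (AlgebraicClosure K) hsub hdep) f hf hdeg x y
      (hfix x hx) (hfix y hy) (fun h => htr ((hiff x).1 h)) hxy
    refine ⟨U, fun z hz => hU1 z ((hiff z).2 hz), ξ, hξ0, hξ, ?_⟩
    intro τ hτ z
    obtain ⟨τ₁, hτ₁⟩ := h2 τ hτ
    rw [← hτ₁, hU3]
  have hresU : ∀ y ∈ U, ∃ ρ : AlgebraicClosure K, IsAlgebraic κ ρ ∧ U.valuation (y - ρ) < 1 := fun y hy =>
    res_alg κ (AlgebraicClosure K) U halgU ξ hξ0 hξ y hy (hdep ξ (m3_tr U halgU ξ hξ0 hξ) y)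
  have hinv := inv_all φ S U halgU hresU hinvU
  refine ⟨U.comap (algebraMap K (AlgebraicClosure K)), ⟨⟨?_, ?_, ?_⟩, U, rfl, ?_⟩, ?_⟩
  · intro c
    rw [ValuationSubring.mem_comap, ← IsScalarTower.algebraMap_apply]
    exact halgU _ (isAlgebraic_algebraMap c)
  · intro htop
    have h1 : ∀ c : K, algebraMap K (AlgebraicClosure K) c ∈ U := by
      intro c
      rw [← ValuationSubring.mem_comap, htop]
      exact ValuationSubring.mem_top c
    exact (m3_lt_one U ξ hξ0).1 hξ (m3_int U h1 ξ⁻¹ (Algebra.IsAlgebraic.isAlgebraic _))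
  · intro z hz
    obtain ⟨c, hc⟩ := m3_res S U halgU hresU hinv (algebraMap K (AlgebraicClosure K) z) hz (fun τ => hK τ z)
    refine ⟨c, ?_⟩
    by_cases h0 : z - algebraMap κ K c = 0
    · exact Or.inl h0
    · right
      rw [ValuationSubring.mem_comap, map_inv₀, map_sub, ← IsScalarTower.algebraMap_apply]
      refine (m3_lt_one U _ ?_).1 hc
      rw [IsScalarTower.algebraMap_apply κ K (AlgebraicClosure K), ← map_sub, Ne, map_eq_zero]
      exact h0
  · intro τ y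
    rw [← hS]
    exact hinv τ y
  · rintro O' ⟨⟨hO1, hO2, hO3⟩, W, hWO, hW⟩
    have hWκ : ∀ c : κ, algebraMap κ (AlgebraicClosure K) c ∈ W := by
      intro c
      have := hO1 c
      rw [← hWO, ValuationSubring.mem_comap, ← IsScalarTower.algebraMap_apply] at this
      exact this
    have halgW : ∀ z : AlgebraicClosure K, IsAlgebraic κ z → z ∈ W := m3_int W hWκ
    obtain ⟨v, hv⟩ : ∃ v : K, v ∉ O' := by
      by_contra hcon
      push Not at hcon
      exact hO2 (eq_top_iff.2 fun z _ => hcon z)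
    have hv0 : v ≠ 0 := by
      rintro rfl
      exact hv (zero_mem _)
    have hξ'0 : algebraMap K (AlgebraicClosure K) v⁻¹ ≠ 0 := by
      rw [Ne, map_eq_zero]
      exact inv_ne_zero hv0
    have hξ' : W.valuation (algebraMap K (AlgebraicClosure K) v⁻¹) < 1 := by
      rw [m3_lt_one W _ hξ'0, ← map_inv₀, inv_inv, ← ValuationSubring.mem_comap, hWO]
      exact hv
    have hresW : ∀ y ∈ W, ∃ ρ : AlgebraicClosure K, IsAlgebraic κ ρ ∧ W.valuation (y - ρ) < 1 := fun y hy =>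
      res_alg κ (AlgebraicClosure K) W halgW _ hξ'0 hξ' y hy (hdep _ (m3_tr W halgW _ hξ'0 hξ') y)
    obtain ⟨n, hn⟩ := nonsq k (RatFunc k)
    have hUW : U = W := by
      refine unique_inv κ (AlgebraicClosure K) S φ.fieldRange ?_ (φ n) ⟨n, rfl⟩ ?_ U W halgU halgW hresU hresW
        (fun τ _ z => hinv τ z) (fun τ _ z => ?_)
      · rintro _ ⟨r, rfl⟩
        exact hφalg r
      · rintro ⟨_, ⟨d, rfl⟩, hd⟩
        apply hn
        refine ⟨d, φ.toRingHom.injective ?_⟩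
        rw [map_pow]
        exact hd
      · rw [hS]
        exact hW τ z
    rw [hUW, hWO]

end BSC
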