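import Pool.Agent.Lib_MP_49ddc8.Fc2
import Pool.Agent.Lib_MP_49ddc8.Fc3

/-!
# One moving branch point: valuations up to `1 + 𝔪`, the curve `y² = c ∏ (x - e) (x - t)`, the hits
-/

set_option autoImplicit false

open Polynomial

namespace BSC

section sim

variable {Ω : Type} [Field Ω]

/-- `a / b` is in `1 + 𝔪` -/
def Sim (V : ValuationSubring Ω) (a b : Ω) : Prop := V.valuation (a - b) < V.valuation b

/-- the value of `z` is even in `F` -/
def Ev (F : Subfield Ω) (V : ValuationSubring Ω) (z : Ω) : Prop := ∃ w ∈ F, V.valuation (z * w ^ 2) = 1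

/-- `z` is a square of `F` up to `1 + 𝔪` -/
def Sq (F : Subfield Ω) (V : ValuationSubring Ω) (z : Ω) : Prop := ∃ u ∈ F, Sim V z (u ^ 2)

variable {V : ValuationSubring Ω} {F : Subfield Ω} {a b c d : Ω}

theorem Sim.val (h : Sim V a b) : V.valuation a = V.valuation b := by
  have e : a = b + (a - b) := by ring
  rw [e, V.valuation.map_add_eq_of_lt_left h]

theorem Sim.ne_right (h : Sim V a b) : b ≠ 0 := by
  rintro rfl
  unfold Sim at h
  rw [map_zero] at h
  exact not_lt_zero' h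

theorem Sim.ne_left (h : Sim V a b) : a ≠ 0 := by
  intro h0
  have h1 := h.val
  rw [h0, map_zero] at h1
  exact h.ne_right ((Valuation.zero_iff _).1 h1.symm)

theorem Sim.refl (h : a ≠ 0) : Sim V a a := by
  unfold Sim
  rw [sub_self, map_zero]
  exact (Valuation.pos_iff _).2 h

theorem Sim.symm (h : Sim V a b) : Sim V b a := by
  unfold Sim
  rw [h.val, Valuation.map_sub_swap]
  exact h

theorem Sim.trans (h : Sim V a b) (h' : Sim V b c) : Sim V a c := by
  unfold Sim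
  have e : a - c = (a - b) + (b - c) := by ring
  rw [e]
  refine V.valuation.map_add_lt ?_ h'
  rw [← h'.val]
  exact h

theorem Sim.mul (h : Sim V a b) (h' : Sim V c d) : Sim V (a * c) (b * d) := by
  unfold Sim
  have e : a * c - b * d = (a - b) * c + b * (c - d) := by ring
  rw [e, map_mul V.valuation b d]
  refine V.valuation.map_add_lt ?_ ?_
  · rw [map_mul, h'.val]
    exact mul_lt_mul_of_pos_right h ((Valuation.pos_iff _).2 h'.ne_right)
  · rw [map_mul]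
    exact mul_lt_mul_of_pos_left h' ((Valuation.pos_iff _).2 h.ne_right)

theorem Sim.inv (h : Sim V a b) : Sim V a⁻¹ b⁻¹ := by
  have ha := h.ne_left
  have hb := h.ne_right
  have h1 : Sim V b a := h.symm
  have e : a⁻¹ - b⁻¹ = (b - a) * (a⁻¹ * b⁻¹) := by
    field_simp
  unfold Sim
  have h2 : V.valuation (b - a) * V.valuation a⁻¹ < 1 := by
    have h3 : V.valuation (b - a) * V.valuation a⁻¹ < V.valuation a * V.valuation a⁻¹ :=
      mul_lt_mul_of_pos_right h1 ((Valuation.pos_iff _).2 (inv_ne_zero ha))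
    rwa [← map_mul V.valuation a, mul_inv_cancel₀ ha, map_one] at h3
  rw [e, map_mul, map_mul, ← mul_assoc]
  calc V.valuation (b - a) * V.valuation a⁻¹ * V.valuation b⁻¹ < 1 * V.valuation b⁻¹ :=
        mul_lt_mul_of_pos_right h2 ((Valuation.pos_iff _).2 (inv_ne_zero hb))
    _ = V.valuation b⁻¹ := one_mul _

theorem Sim.div (h : Sim V a b) (h' : Sim V c d) : Sim V (a / c) (b / d) := by
  rw [div_eq_mul_inv, div_eq_mul_inv]
  exact h.mul h'.inv

theorem Sim.pow (h : Sim V a b) (n : ℕ) : Sim V (a ^ n) (b ^ n) := by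
  induction n with
  | zero =>
    rw [pow_zero, pow_zero]
    exact Sim.refl one_ne_zero
  | succ n ih =>
    rw [pow_succ, pow_succ]
    exact ih.mul h

theorem Sim.prod {ι : Type} (s : Finset ι) (f g : ι → Ω) (h : ∀ i ∈ s, Sim V (f i) (g i)) : Sim V (∏ i ∈ s, f i) (∏ i ∈ s, g i) := by
  classical
  induction s using Finset.induction_on with
  | empty =>
    rw [Finset.prod_empty, Finset.prod_empty]
    exact Sim.refl one_ne_zero
  | insert i s hi ih =>
    rw [Finset.prod_insert hi, Finset.prod_insert hi]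
    exact (h i (Finset.mem_insert_self _ _)).mul (ih fun j hj => h j (Finset.mem_insert_of_mem hj))

theorem Sim.of_unit (hb : V.valuation b = 1) (h : V.valuation (a - b) < 1) : Sim V a b := by
  unfold Sim
  rw [hb]
  exact h

/-- `x - e ~ p - e` if `x` is close to `p` -/
theorem Sim.shift {x p e : Ω} (h : V.valuation (x - p) < 1) (h1 : V.valuation (p - e) = 1) : Sim V (x - e) (p - e) := by
  refine Sim.of_unit h1 ?_
  have e1 : x - e - (p - e) = x - p := by ring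
  rw [e1]
  exact h

theorem one_lt_of_notMem {x : Ω} (hx : x ∉ V) : 1 < V.valuation x := by
  rw [← not_le, V.valuation_le_one_iff]
  exact hx

/-- `x - e ~ x` at a pole of `x` -/
theorem Sim.big {x e : Ω} (hx : x ∉ V) (he : e ∈ V) : Sim V (x - e) x := by
  unfold Sim
  have e1 : x - e - x = -e := by ring
  rw [e1, Valuation.map_neg]
  exact lt_of_le_of_lt ((V.valuation_le_one_iff _).2 he) (one_lt_of_notMem hx)

theorem Sim.sq (h : Sim V a b) (hb : Sq F V b) : Sq F V a := by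
  obtain ⟨u, hu, hu1⟩ := hb
  exact ⟨u, hu, h.trans hu1⟩

theorem Sq.ne (h : Sq F V a) : a ≠ 0 := by
  obtain ⟨u, _, hu⟩ := h
  exact hu.ne_left

theorem Sq.of_sq (ha : a ∈ F) (h0 : a ≠ 0) : Sq F V (a ^ 2) := ⟨a, ha, Sim.refl (pow_ne_zero 2 h0)⟩

theorem Sq.mul (h : Sq F V a) (h' : Sq F V b) : Sq F V (a * b) := by
  obtain ⟨u, hu, hu1⟩ := h
  obtain ⟨v, hv, hv1⟩ := h'
  refine ⟨u * v, mul_mem hu hv, ?_⟩
  rw [mul_pow]
  exact hu1.mul hv1

theorem Sq.inv (h : Sq F V a) : Sq F V a⁻¹ := by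
  obtain ⟨u, hu, hu1⟩ := h
  refine ⟨u⁻¹, inv_mem hu, ?_⟩
  rw [inv_pow]
  exact hu1.inv

theorem Sq.cancel (h : Sq F V (a * b)) (h' : Sq F V b) : Sq F V a := by
  have h1 := h.mul h'.inv
  rwa [mul_assoc, mul_inv_cancel₀ h'.ne, mul_one] at h1

theorem Sq.ev (h : Sq F V a) : Ev F V a := by
  obtain ⟨u, hu, hu1⟩ := h
  have hu0 : u ^ 2 ≠ 0 := hu1.ne_right
  refine ⟨u⁻¹, inv_mem hu, ?_⟩
  rw [map_mul, hu1.val, ← map_mul, inv_pow, mul_inv_cancel₀ hu0, map_one]

theorem Ev.congr (h : Ev F V a) (hv : V.valuation b = V.valuation a) : Ev F V b := by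
  obtain ⟨w, hw, hw1⟩ := h
  refine ⟨w, hw, ?_⟩
  rw [map_mul, hv, ← map_mul]
  exact hw1

theorem Ev.one (hv : V.valuation a = 1) : Ev F V a := ⟨1, one_mem _, by rw [one_pow, mul_one]; exact hv⟩

theorem Ev.of_sq (ha : a ∈ F) (h0 : a ≠ 0) : Ev F V (a ^ 2) := (Sq.of_sq ha h0).ev

theorem Ev.mul (h : Ev F V a) (h' : Ev F V b) : Ev F V (a * b) := by
  obtain ⟨u, hu, hu1⟩ := h
  obtain ⟨v, hv, hv1⟩ := h'
  refine ⟨u * v, mul_mem hu hv, ?_⟩
  have e : a * b * (u * v) ^ 2 = (a * u ^ 2) * (b * v ^ 2) := by ring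
  rw [e, map_mul, hu1, hv1, one_mul]

theorem Ev.ne (h : Ev F V a) : a ≠ 0 := by
  rintro rfl
  obtain ⟨u, _, hu⟩ := h
  rw [zero_mul, map_zero] at hu
  exact zero_ne_one hu

theorem Ev.inv (h : Ev F V a) : Ev F V a⁻¹ := by
  obtain ⟨u, hu, hu1⟩ := h
  refine ⟨u⁻¹, inv_mem hu, ?_⟩
  rw [inv_pow, ← mul_inv, map_inv₀, hu1, inv_one]

theorem Ev.cancel (h : Ev F V (a * b)) (h' : Ev F V b) : Ev F V a := by
  have h1 := h.mul h'.inv
  rwa [mul_assoc, mul_inv_cancel₀ h'.ne, mul_one] at h1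

end sim

variable {k Ω : Type} [Field k] [CharZero k] [Field Ω] [IsAlgClosed Ω] [Algebra k Ω] [Algebra (RatFunc k) Ω]
  [IsScalarTower k (RatFunc k) Ω]

/-- a constant which is a square up to `1 + 𝔪` is a square -/
theorem Loc.sq_const {S : Sec (RatFunc k) Ω} {k' : IntermediateField k Ω} {a : Option k'} {V : ValuationSubring Ω}
    (L : Loc S k' a V) (c : Ω) (hc : c ∈ k') (h : Sq (S.F k') V c) : ∃ d ∈ k', c = d ^ 2 := by
  obtain ⟨u, hu, hu1⟩ := h
  have hu0 : u ^ 2 ≠ 0 := hu1.ne_right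
  refine L.pin c hc u⁻¹ (inv_mem hu) ?_
  have h1 : Sim V (c * (u⁻¹) ^ 2) (u ^ 2 * (u⁻¹) ^ 2) := hu1.mul (Sim.refl (by
    rw [inv_pow]
    exact inv_ne_zero hu0))
  have h2 : u ^ 2 * (u⁻¹) ^ 2 = 1 := by
    rw [inv_pow, mul_inv_cancel₀ hu0]
  rw [h2] at h1
  have h3 := h1
  unfold Sim at h3
  rwa [map_one] at h3

/-- the uniformiser is not even -/
theorem Loc.not_ev {S : Sec (RatFunc k) Ω} {k' : IntermediateField k Ω} {a : Option k'} {V : ValuationSubring Ω}
    (L : Loc S k' a V) : ¬ Ev (S.F k') V (BSC.unif k' a) := by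
  rintro ⟨w, hw, h⟩
  exact L.ram w hw h

theorem Loc.t_mem {S : Sec (RatFunc k) Ω} {k' : IntermediateField k Ω} {β : k'} {V : ValuationSubring Ω}
    (L : Loc S k' (some β) V) : tt k Ω ∈ V := by
  have h1 : tt k Ω - β ∈ V := (V.valuation_le_one_iff _).1 (le_of_lt L.unif)
  have e1 : tt k Ω = (tt k Ω - β) + β := by ring
  rw [e1]
  exact add_mem h1 (L.const β β.2)

theorem Loc.t_lt {S : Sec (RatFunc k) Ω} {k' : IntermediateField k Ω} {β : k'} {V : ValuationSubring Ω}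
    (L : Loc S k' (some β) V) : V.valuation (tt k Ω - (β : Ω)) < 1 := L.unif

theorem Loc.t_not_ev {S : Sec (RatFunc k) Ω} {k' : IntermediateField k Ω} {β : k'} {V : ValuationSubring Ω}
    (L : Loc S k' (some β) V) : ¬ Ev (S.F k') V (tt k Ω - (β : Ω)) := L.not_ev

theorem Loc.t_sim {S : Sec (RatFunc k) Ω} {k' : IntermediateField k Ω} {β : k'} {V : ValuationSubring Ω}
    (L : Loc S k' (some β) V) (γ : Ω) (hγ : γ ∈ k') (hne : γ ≠ β) : Sim V (tt k Ω - γ) ((β : Ω) - γ) :=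
  Sim.shift L.t_lt (L.val_const _ (sub_mem β.2 hγ) (sub_ne_zero.2 hne.symm))

/-- the data of a curve `y² = c ∏_{e ∈ R} (x - e) (x - t)` -/
structure Mv (Y : Sys k Ω) (R : Finset Y.k0) (c x y : Ω) : Prop where
  memx : x ∈ Y.S.F ∅
  memy : y ∈ Y.S.F ∅
  y0 : y ≠ 0
  memc : c ∈ Y.k0
  c0 : c ≠ 0
  eq : y ^ 2 = c * (∏ e ∈ R, (x - (e : Ω))) * (x - tt k Ω)

variable {Y : Sys k Ω} {R : Finset Y.k0} {c x y : Ω}

theorem Mv.mx (D : Mv Y R c x y) (A : Set Ω) : x ∈ Y.S.F A := Y.S.F_mono (Set.empty_subset _) D.memx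

theorem Mv.my (D : Mv Y R c x y) (A : Set Ω) : y ∈ Y.S.F A := Y.S.F_mono (Set.empty_subset _) D.memy

theorem Mv.ne (D : Mv Y R c x y) (e : Y.k0) (he : e ∈ R) : x - (e : Ω) ≠ 0 := by
  intro h0
  apply D.y0
  have h1 : y ^ 2 = 0 := by
    rw [D.eq, Finset.prod_eq_zero he h0]
    ring
  exact (pow_eq_zero_iff two_ne_zero).1 h1

theorem Mv.net (D : Mv Y R c x y) : x - tt k Ω ≠ 0 := by
  intro h0
  apply D.y0
  have h1 : y ^ 2 = 0 := by
    rw [D.eq, h0]
    ring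
  exact (pow_eq_zero_iff two_ne_zero).1 h1

/-- `x` close to a root `e` at a place different from `e` -/
theorem Mv.c1 (D : Mv Y R c x y) (k'' : IntermediateField k Ω) (hk : Y.k0 ≤ k'') (hfin : FiniteDimensional k k'') (β : k'')
    (e : Y.k0) (he : e ∈ R) (hne : (e : Ω) ≠ β) (hlt : (Y.V k'' (some β)).valuation (x - (e : Ω)) < 1) :
    Ev (Y.S.F k'') (Y.V k'' (some β)) (x - (e : Ω)) := by
  classical
  have L := Y.loc k'' hk hfin (some β)
  set V := Y.V k'' (some β) with hV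
  have hxt : V.valuation (x - tt k Ω) = 1 := by
    have h1 : V.valuation ((e : Ω) - β) = 1 := L.val_const _ (sub_mem (hk e.2) β.2) (sub_ne_zero.2 hne)
    have e1 : x - tt k Ω = ((e : Ω) - β) + ((x - e) - (tt k Ω - β)) := by ring
    rw [e1, V.valuation.map_add_eq_of_lt_left, h1]
    rw [h1]
    exact lt_of_le_of_lt (V.valuation.map_sub _ _) (max_lt hlt L.t_lt)
  have hy : V.valuation (y ^ 2) = V.valuation (x - (e : Ω)) := by
    rw [D.eq, map_mul, map_mul, hxt, mul_one, L.val_const c (hk D.memc) D.c0, one_mul,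
      ← Finset.mul_prod_erase R _ he, map_mul, map_prod, Finset.prod_eq_one, mul_one]
    intro e' he'
    exact fb_other L x e e' (hk e.2) (hk e'.2) (fun h => Finset.ne_of_mem_erase he' (Subtype.ext h)) hlt
  exact (Ev.of_sq (D.my _) D.y0).congr hy.symm

/-- `x` close to `t` at a place which is not a root -/
theorem Mv.c2 (D : Mv Y R c x y) (k'' : IntermediateField k Ω) (hk : Y.k0 ≤ k'') (hfin : FiniteDimensional k k'') (β : k'')
    (hne : ∀ e ∈ R, (e : Ω) ≠ β) (hlt : (Y.V k'' (some β)).valuation (x - tt k Ω) < 1) :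
    Ev (Y.S.F k'') (Y.V k'' (some β)) (x - tt k Ω) := by
  classical
  have L := Y.loc k'' hk hfin (some β)
  set V := Y.V k'' (some β) with hV
  have hxβ : V.valuation (x - (β : Ω)) < 1 := by
    have e1 : x - (β : Ω) = (x - tt k Ω) + (tt k Ω - β) := by ring
    rw [e1]
    exact V.valuation.map_add_lt hlt L.t_lt
  have hy : V.valuation (y ^ 2) = V.valuation (x - tt k Ω) := by
    rw [D.eq, map_mul, map_mul, L.val_const c (hk D.memc) D.c0, one_mul, map_prod, Finset.prod_eq_one, one_mul]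
    intro e he
    exact fb_other L x β e β.2 (hk e.2) (hne e he) hxβ
  exact (Ev.of_sq (D.my _) D.y0).congr hy.symm

theorem Mv.prod_mem (D : Mv Y R c x y) (T : Finset Y.k0) (k'' : IntermediateField k Ω) (hk : Y.k0 ≤ k'')
    (hfin : FiniteDimensional k k'') : ∏ e ∈ T, (x - (e : Ω)) ∈ Y.S.F k'' :=
  _root_.prod_mem fun e _ => sub_mem (D.mx _) (tw_const_mem Y.S k'' hfin e (hk e.2))

theorem Mv.prod_ne (D : Mv Y R c x y) (T : Finset Y.k0) (hT : T ⊆ R) : ∏ e ∈ T, (x - (e : Ω)) ≠ 0 :=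
  Finset.prod_ne_zero_iff.2 fun e he => D.ne e (hT he)

/-- an even product is even if the factors are -/
theorem Mv.even_of (D : Mv Y R c x y) (T : Finset Y.k0) (hev : Even T.card)
    (k'' : IntermediateField k Ω) (hk : Y.k0 ≤ k'') (hfin : FiniteDimensional k k'') (β : k'')
    (hsm : ∀ e ∈ T, (Y.V k'' (some β)).valuation (x - (e : Ω)) < 1 → Ev (Y.S.F k'') (Y.V k'' (some β)) (x - (e : Ω))) :
    Ev (Y.S.F k'') (Y.V k'' (some β)) (∏ e ∈ T, (x - (e : Ω))) := by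
  classical
  have L := Y.loc k'' hk hfin (some β)
  set V := Y.V k'' (some β) with hV
  have hIV : ∀ e : Y.k0, (e : Ω) ∈ V := fun e => L.const e (hk e.2)
  by_cases hxV : x ∈ V
  · by_cases hex : ∃ e ∈ T, V.valuation (x - (e : Ω)) < 1
    · obtain ⟨e, he, hlt⟩ := hex
      refine (hsm e he hlt).congr ?_
      rw [← Finset.mul_prod_erase T _ he, map_mul, map_prod, Finset.prod_eq_one, mul_one]
      intro e' he'
      exact fb_other L x e e' (hk e.2) (hk e'.2) (fun h => Finset.ne_of_mem_erase he' (Subtype.ext h)) hlt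
    · push Not at hex
      refine Ev.one ?_
      rw [map_prod]
      exact Finset.prod_eq_one fun e he => le_antisymm ((V.valuation_le_one_iff _).2 (sub_mem hxV (hIV e))) (hex e he)
  · have hprod : V.valuation (∏ e ∈ T, (x - (e : Ω))) = V.valuation x ^ T.card := by
      rw [map_prod, Finset.prod_congr rfl (fun e _ => fb_big (hIV e) hxV), Finset.prod_const]
    have hx0 : x ≠ 0 := by
      rintro rfl
      exact hxV (zero_mem _)
    obtain ⟨m, hm⟩ := hev
    refine (Ev.of_sq (pow_mem (D.mx _) m) (pow_ne_zero m hx0)).congr ?_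
    rw [hprod, hm, map_pow, map_pow, ← pow_mul, mul_comm m 2, two_mul]

/-- `e` is hit: at the place `e` the value of `x - e` is positive and not even -/
def Hit (Y : Sys k Ω) (x : Ω) (e : Y.k0) : Prop :=
  (Y.V Y.k0 (some e)).valuation (x - (e : Ω)) < 1 ∧ ¬ Ev (Y.S.F Y.k0) (Y.V Y.k0 (some e)) (x - (e : Ω))

/-- an even product of `x - e` is a constant times the product of `t - e` over the roots which are hit, times a square -/
theorem Mv.desc (D : Mv Y R c x y) (E : Finset Y.k0) (hE : ∀ e ∈ R, e ∈ E ↔ Hit Y x e) (T : Finset Y.k0) (hT : T ⊆ R)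
    (hev : Even T.card) [DecidableEq Y.k0] :
    ∃ ε ∈ Y.k0, ε ≠ 0 ∧ ∃ w ∈ Y.S.F Y.k0, w ≠ 0 ∧
      ∏ e ∈ T, (x - (e : Ω)) = ε * (∏ α ∈ T ∩ E, (tt k Ω - (α : Ω))) * w ^ 2 := by
  classical
  obtain ⟨ε, hε, B, hB, w, hw, hw0, hz⟩ := Y.desc Y.k0 le_rfl Y.fin0 (∏ e ∈ T, (x - (e : Ω))) (D.prod_mem T Y.k0 le_rfl Y.fin0)
    (D.prod_ne T hT) R (fun k'' hk hfin β hβ => D.even_of T hev k'' hk hfin β fun e he hlt =>
      D.c1 k'' hk hfin β e (hT he) (hβ e (hT he)) hlt)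
  have hε0 : (ε : Ω) ≠ 0 := fun h => hε (Subtype.ext h)
  have hBT : B = T ∩ E := by
    apply Finset.Subset.antisymm
    · intro α hα
      have hαR := hB hα
      by_contra hn
      have L := Y.loc Y.k0 le_rfl Y.fin0 (some α)
      have h1 : Ev (Y.S.F Y.k0) (Y.V Y.k0 (some α)) (∏ e ∈ T, (x - (e : Ω))) := by
        refine D.even_of T hev Y.k0 le_rfl Y.fin0 α fun e he hlt => ?_
        by_cases hea : e = α
        · subst hea
          by_contra hev'
          exact hn (Finset.mem_inter.2 ⟨he, (hE e hαR).2 ⟨hlt, hev'⟩⟩)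
        · exact D.c1 Y.k0 le_rfl Y.fin0 α e (hT he) (fun h => hea (Subtype.ext h)) hlt
      rw [hz, ← Finset.mul_prod_erase B _ hα] at h1
      have h2 : Ev (Y.S.F Y.k0) (Y.V Y.k0 (some α)) ((ε : Ω) * (∏ β ∈ B.erase α, (tt k Ω - (β : Ω))) * w ^ 2) := by
        refine ((Ev.one (F := Y.S.F Y.k0) (L.val_const ε ε.2 hε0)).mul (Ev.one ?_)).mul (Ev.of_sq hw hw0)
        exact tw_prod_val le_rfl α L _ fun β hβ h => Finset.ne_of_mem_erase hβ (Subtype.ext h)
      apply L.t_not_ev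
      refine Ev.cancel (b := (ε : Ω) * (∏ β ∈ B.erase α, (tt k Ω - (β : Ω))) * w ^ 2) ?_ h2
      have e1 : (tt k Ω - (α : Ω)) * ((ε : Ω) * (∏ β ∈ B.erase α, (tt k Ω - (β : Ω))) * w ^ 2) =
        (ε : Ω) * ((tt k Ω - (α : Ω)) * (∏ β ∈ B.erase α, (tt k Ω - (β : Ω)))) * w ^ 2 := by ring
      rw [e1]
      exact h1
    · intro α hα
      obtain ⟨hαT, hαE⟩ := Finset.mem_inter.1 hα
      obtain ⟨hlt, hnev⟩ := (hE α (hT hαT)).1 hαE
      by_contra hαB
      have L := Y.loc Y.k0 le_rfl Y.fin0 (some α)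
      apply hnev
      have h1 : (Y.V Y.k0 (some α)).valuation (∏ e ∈ T, (x - (e : Ω))) = (Y.V Y.k0 (some α)).valuation (x - (α : Ω)) := by
        rw [← Finset.mul_prod_erase T _ hαT, map_mul, map_prod, Finset.prod_eq_one, mul_one]
        intro e' he'
        exact fb_other L x α e' α.2 e'.2 (fun h => Finset.ne_of_mem_erase he' (Subtype.ext h)) hlt
      have h2 : Ev (Y.S.F Y.k0) (Y.V Y.k0 (some α)) (∏ e ∈ T, (x - (e : Ω))) := by
        rw [hz]
        refine ((Ev.one (F := Y.S.F Y.k0) (L.val_const ε ε.2 hε0)).mul (Ev.one ?_)).mul (Ev.of_sq hw hw0)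
        exact tw_prod_val le_rfl α L _ fun β hβ h => hαB (by rw [← Subtype.ext h]; exact hβ)
      exact h2.congr h1.symm
  subst hBT
  exact ⟨ε, ε.2, hε0, w, hw, hw0, hz⟩

/-- at least two roots are not hit -/
theorem Mv.exists_U_two (hk : (⊤ : IntermediateField ℚ k).FG) (hdep : Dep (RatFunc k) Ω) (D : Mv Y R c x y) (E : Finset Y.k0)
    (hi : ∃ i ∈ Y.k0, i ^ 2 = (-1 : Ω))
    (hE : ∀ e ∈ R, e ∈ E ↔ Hit Y x e) (hER : E ⊆ R) (h4 : 4 ≤ R.card) (hcard : E.card + 2 ≤ R.card)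
    (htr : Transcendental (RatFunc k) x) :
    ∃ U : ValuationSubring Ω, (∀ z : Ω, IsAlgebraic (RatFunc k) z → z ∈ U) ∧ (∃ ξ : Ω, ξ ≠ 0 ∧ U.valuation ξ < 1) ∧
      ∀ (τ : algebraicClosure (RatFunc k) Ω ≃ₐ[RatFunc k] algebraicClosure (RatFunc k) Ω) (z : Ω), Y.S.s τ z ∈ U ↔ z ∈ U := by
  classical
  obtain ⟨b₁, b₂, hb, hb2⟩ := fc_two E
  have h1 : 4 ≤ (R \ (E \ {b₁, b₂})).card := by
    have h2 : R.card - (E \ {b₁, b₂}).card ≤ (R \ (E \ {b₁, b₂})).card := Finset.le_card_sdiff _ R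
    omega
  obtain ⟨J, hJ, hJc⟩ := Finset.exists_subset_card_eq h1
  have hJR : J ⊆ R := hJ.trans Finset.sdiff_subset
  obtain ⟨ε, hε, hε0, w, hw, hw0, hz⟩ := D.desc E hE J hJR (by rw [hJc]; decide)
  refine exists_U_base hk Y.S hdep Y.k0 Y.fin0 hi b₁ b₂ b₁.2 b₂.2 (fun h => hb (Subtype.ext h))
    (J.image fun e : Y.k0 => (e : Ω)) ?_ ?_ x w ε (D.mx _) hw hw0 hε hε0 htr ((J ∩ E).image fun α : Y.k0 => (α : Ω)) ?_ ?_
  · intro e he
    obtain ⟨e', _, rfl⟩ := Finset.mem_image.1 he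
    exact e'.2
  · rw [Finset.card_image_of_injective _ Subtype.val_injective]
    omega
  · intro β hβ
    obtain ⟨α, hα, rfl⟩ := Finset.mem_image.1 hβ
    obtain ⟨hαJ, hαE⟩ := Finset.mem_inter.1 hα
    have h3 := (Finset.mem_sdiff.1 (hJ hαJ)).2
    by_cases h4 : α ∈ ({b₁, b₂} : Finset Y.k0)
    · rw [Finset.mem_insert, Finset.mem_singleton] at h4
      rcases h4 with rfl | rfl
      · exact Or.inl rfl
      · exact Or.inr rfl
    · exact absurd (Finset.mem_sdiff.2 ⟨hαE, h4⟩) h3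
  · rw [Finset.prod_image fun a _ b _ h => Subtype.ext h, Finset.prod_image fun a _ b _ h => Subtype.ext h]
    exact hz

end BSC
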