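import Pool.Agent.Lib_MP_49ddc8.Mv1

/-!
# One moving branch point: the pair lemma and the place at infinity
-/

set_option autoImplicit false

open Polynomial

namespace BSC

variable {k Ω : Type} [Field k] [CharZero k] [Field Ω] [IsAlgClosed Ω] [Algebra k Ω] [Algebra (RatFunc k) Ω]
  [IsScalarTower k (RatFunc k) Ω]

variable {Y : Sys k Ω} {R : Finset Y.k0} {c x y : Ω}

theorem t_sub_ne (Y : Sys k Ω) (e : Y.k0) : tt k Ω - (e : Ω) ≠ 0 := unif_ne_zero Y.k0 Y.fin0 (some e)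

theorem t_sub_mem (Y : Sys k Ω) (e : Y.k0) : tt k Ω - (e : Ω) ∈ Y.S.F Y.k0 := by
  refine sub_mem ?_ (tw_const_mem Y.S Y.k0 Y.fin0 e e.2)
  intro τ _
  exact Y.S.s_tt τ

/-- `(x - e)(x - e')(t - e)(t - e')` is a square if `e`, `e'` and a third root are hit -/
theorem Mv.pair (D : Mv Y R c x y) (E : Finset Y.k0) (hE : ∀ e ∈ R, e ∈ E ↔ Hit Y x e) (hER : E ⊆ R) (e e' p : Y.k0)
    (he : e ∈ E) (he' : e' ∈ E) (hp : p ∈ E) (hee : e ≠ e') (hpe : p ≠ e) (hpe' : p ≠ e') :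
    ∃ w ∈ Y.S.F Y.k0, w ^ 2 * ((x - (e' : Ω)) * (tt k Ω - (e : Ω))) = (x - (e : Ω)) * (tt k Ω - (e' : Ω)) := by
  classical
  have hT : ({e, e'} : Finset Y.k0) ⊆ R := by
    intro z hz
    rw [Finset.mem_insert, Finset.mem_singleton] at hz
    rcases hz with rfl | rfl
    · exact hER he
    · exact hER he'
  obtain ⟨ε, hε, hε0, w, hw, hw0, hz⟩ := D.desc E hE {e, e'} hT (by rw [Finset.card_pair hee]; exact even_two)
  have hint : ({e, e'} : Finset Y.k0) ∩ E = {e, e'} := by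
    rw [Finset.inter_eq_left]
    intro z hz
    rw [Finset.mem_insert, Finset.mem_singleton] at hz
    rcases hz with rfl | rfl
    · exact he
    · exact he'
  rw [hint, Finset.prod_pair hee, Finset.prod_pair hee] at hz
  have L := Y.loc Y.k0 le_rfl Y.fin0 (some p)
  have hlt := ((hE p (hER hp)).1 hp).1
  have hcp : ∀ q : Y.k0, p ≠ q → (Y.V Y.k0 (some p)).valuation ((p : Ω) - q) = 1 := fun q hq =>
    L.val_const _ (sub_mem p.2 q.2) (sub_ne_zero.2 fun h => hq (Subtype.ext h))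
  have h1 : Sim (Y.V Y.k0 (some p)) ((x - (e : Ω)) * (x - (e' : Ω))) (((p : Ω) - e) * ((p : Ω) - e')) :=
    (Sim.shift hlt (hcp e hpe)).mul (Sim.shift hlt (hcp e' hpe'))
  have h2 : Sim (Y.V Y.k0 (some p)) ((tt k Ω - (e : Ω)) * (tt k Ω - (e' : Ω))) (((p : Ω) - e) * ((p : Ω) - e')) :=
    (L.t_sim e e.2 fun h => hpe (Subtype.ext h.symm)).mul (L.t_sim e' e'.2 fun h => hpe' (Subtype.ext h.symm))
  have ht0 := t_sub_ne Y e
  have ht0' := t_sub_ne Y e'
  have h3 : Sim (Y.V Y.k0 (some p)) (ε * w ^ 2) (1 ^ 2) := by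
    have h4 := h1.div h2
    rw [div_self h2.ne_right, hz] at h4
    have e1 : ε * ((tt k Ω - (e : Ω)) * (tt k Ω - (e' : Ω))) * w ^ 2 / ((tt k Ω - (e : Ω)) * (tt k Ω - (e' : Ω))) = ε * w ^ 2 := by
      field_simp
    rw [e1] at h4
    rw [one_pow]
    exact h4
  have h5 : Sq (Y.S.F Y.k0) (Y.V Y.k0 (some p)) ε := Sq.cancel ⟨1, one_mem _, h3⟩ (Sq.of_sq hw hw0)
  obtain ⟨d, hd, rfl⟩ := L.sq_const ε hε h5
  have hxe := D.ne e' (hER he')
  refine ⟨d * w * (tt k Ω - (e' : Ω)) / (x - (e' : Ω)), div_mem (mul_mem (mul_mem (tw_const_mem Y.S Y.k0 Y.fin0 d hd) hw)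
    (t_sub_mem Y e')) (sub_mem (D.mx _) (tw_const_mem Y.S Y.k0 Y.fin0 e' e'.2)), ?_⟩
  rw [div_pow, div_mul_eq_mul_div, div_eq_iff (pow_ne_zero 2 hxe)]
  linear_combination (-((x - (e' : Ω)) * (tt k Ω - (e' : Ω)))) * hz

/-- all roots but one are hit: impossible -/
theorem Mv.not_one (D : Mv Y R c x y) (E : Finset Y.k0) (hE : ∀ e ∈ R, e ∈ E ↔ Hit Y x e) (hER : E ⊆ R) (e₀ : Y.k0) (he₀ : e₀ ∈ R)
    (hEe : ∀ e ∈ R, e ≠ e₀ → e ∈ E) (he₀E : e₀ ∉ E) (h5 : 5 ≤ R.card) (J : Finset Y.k0) (hJR : J ⊆ R) (hJ : J.card = 4)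
    (hi : ∃ i ∈ Y.k0, i ^ 2 = (-1 : Ω)) (hsq : ∀ a ∈ J, ∀ b ∈ J, ∃ d ∈ Y.k0, (a : Ω) - b = d ^ 2)
    (hH : ∀ m ∈ R, m ∉ J → ∀ B ⊆ J, B.Nonempty → ¬ ∃ d ∈ Y.k0, ∏ a ∈ B, ((m : Ω) - a) = d ^ 2) : False := by
  classical
  -- `(e₀ - e) (e₀ - e')` is a square for all other roots
  have key : ∀ e ∈ E, ∀ e' ∈ E, e ≠ e' → ∃ d ∈ Y.k0, ((e₀ : Ω) - e) * ((e₀ : Ω) - e') = d ^ 2 := by
    have L := Y.loc Y.k0 le_rfl Y.fin0 none
    set V := Y.V Y.k0 none with hV
    have ht0 : tt k Ω ≠ 0 := by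
      have h := unif_ne_zero Y.k0 Y.fin0 none
      exact fun h0 => h (by show (tt k Ω)⁻¹ = 0; rw [h0, inv_zero])
    have hu : V.valuation (tt k Ω)⁻¹ < 1 := L.unif
    have htV : tt k Ω ∉ V := by
      intro h
      have h1 : V.valuation (tt k Ω) ≤ 1 := (V.valuation_le_one_iff _).2 h
      have h2 : V.valuation (tt k Ω) * V.valuation (tt k Ω)⁻¹ = 1 := by
        rw [← map_mul, mul_inv_cancel₀ ht0, map_one]
      have h3 : V.valuation (tt k Ω) * V.valuation (tt k Ω)⁻¹ < 1 := mul_lt_one_of_nonneg_of_lt_one_right h1 zero_le' hu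
      rw [h2] at h3
      exact lt_irrefl _ h3
    have htE : ¬ Ev (Y.S.F Y.k0) V (tt k Ω) := by
      intro h
      have h1 := h.inv
      exact L.not_ev h1
    have htsim : ∀ e : Y.k0, Sim V (tt k Ω - (e : Ω)) (tt k Ω) := fun e => Sim.big htV (L.const e e.2)
    have hne : ∀ e ∈ E, ¬ Ev (Y.S.F Y.k0) V ((x - (e : Ω)) * (x - (e₀ : Ω))) := by
      intro e he hev
      have hee : e ≠ e₀ := fun h => he₀E (h ▸ he)
      have hT : ({e, e₀} : Finset Y.k0) ⊆ R := by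
        intro z hz
        rw [Finset.mem_insert, Finset.mem_singleton] at hz
        rcases hz with rfl | rfl
        · exact hER he
        · exact he₀
      obtain ⟨ε, hε, hε0, w, hw, hw0, hz⟩ := D.desc E hE {e, e₀} hT (by rw [Finset.card_pair hee]; exact even_two)
      have hint : ({e, e₀} : Finset Y.k0) ∩ E = {e} := by
        ext z
        rw [Finset.mem_inter, Finset.mem_insert, Finset.mem_singleton, Finset.mem_singleton]
        constructor
        · rintro ⟨rfl | rfl, hzE⟩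
          · rfl
          · exact absurd hzE he₀E
        · rintro rfl
          exact ⟨Or.inl rfl, he⟩
      rw [hint, Finset.prod_pair hee, Finset.prod_singleton] at hz
      apply htE
      rw [hz] at hev
      have h1 : Ev (Y.S.F Y.k0) V ((tt k Ω - (e : Ω)) * (ε * w ^ 2)) := by
        have e1 : (tt k Ω - (e : Ω)) * (ε * w ^ 2) = ε * (tt k Ω - (e : Ω)) * w ^ 2 := by ring
        rw [e1]
        exact hev
      exact (h1.cancel ((Ev.one (L.val_const ε hε hε0)).mul (Ev.of_sq hw hw0))).congr (htsim e).val.symm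
    have hEc : 4 ≤ E.card := by
      have h1 : R.erase e₀ ⊆ E := fun z hz => hEe z (Finset.mem_of_mem_erase hz) (Finset.ne_of_mem_erase hz)
      have h2 := Finset.card_le_card h1
      rw [Finset.card_erase_of_mem he₀] at h2
      omega
    have hxV : x ∈ V := by
      by_contra hxV
      obtain ⟨e, he⟩ : E.Nonempty := Finset.card_pos.1 (by omega)
      apply hne e he
      have hx0 : x ≠ 0 := by
        rintro rfl
        exact hxV (zero_mem _)
      refine (Ev.of_sq (D.mx _) hx0).congr ?_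
      have h1 := ((Sim.big hxV (L.const e e.2)).mul (Sim.big hxV (L.const e₀ e₀.2))).val
      rw [h1, sq]
    have hxe : V.valuation (x - (e₀ : Ω)) < 1 := by
      by_contra hxe
      have hxe1 : V.valuation (x - (e₀ : Ω)) = 1 :=
        le_antisymm ((V.valuation_le_one_iff _).2 (sub_mem hxV (L.const e₀ e₀.2))) (not_lt.1 hxe)
      have hsm : ∀ e ∈ E, V.valuation (x - (e : Ω)) < 1 := by
        intro e he
        by_contra hlt
        have h1 : V.valuation (x - (e : Ω)) = 1 :=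
          le_antisymm ((V.valuation_le_one_iff _).2 (sub_mem hxV (L.const e e.2))) (not_lt.1 hlt)
        exact hne e he (Ev.one (by rw [map_mul, h1, hxe1, one_mul]))
      obtain ⟨e, he, e', he', hee⟩ := Finset.one_lt_card.1 (show 1 < E.card by omega)
      have h1 := fb_other L x e e' e.2 e'.2 (fun h => hee (Subtype.ext h.symm)) (hsm e he)
      have h2 := hsm e' he'
      rw [h1] at h2
      exact lt_irrefl _ h2
    intro e he e' he' hee
    have hc : ∀ q ∈ E, V.valuation ((e₀ : Ω) - q) = 1 := fun q hq =>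
      L.val_const _ (sub_mem e₀.2 q.2) (sub_ne_zero.2 fun h => he₀E (by rw [Subtype.ext h]; exact hq))
    obtain ⟨p, hp, hpe, hpe'⟩ : ∃ p ∈ E, p ≠ e ∧ p ≠ e' := by
      obtain ⟨p, hp⟩ : ((E.erase e).erase e').Nonempty := by
        apply Finset.card_pos.1
        have h1 := Finset.pred_card_le_card_erase (s := E.erase e) (a := e')
        have h2 := Finset.pred_card_le_card_erase (s := E) (a := e)
        omega
      have h1 := Finset.mem_of_mem_erase hp
      exact ⟨p, Finset.mem_of_mem_erase h1, Finset.ne_of_mem_erase h1, Finset.ne_of_mem_erase hp⟩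
    obtain ⟨w, hw, hwe⟩ := D.pair E hE hER e e' p he he' hp hee hpe hpe'
    have s1 : Sim V (x - (e : Ω)) ((e₀ : Ω) - e) := Sim.shift hxe (hc e he)
    have s2 : Sim V (x - (e' : Ω)) ((e₀ : Ω) - e') := Sim.shift hxe (hc e' he')
    have hw0 : w ≠ 0 := by
      rintro rfl
      have h1 : (x - (e : Ω)) * (tt k Ω - (e' : Ω)) = 0 := by
        rw [← hwe]
        ring
      exact mul_ne_zero s1.ne_left (t_sub_ne Y e') h1
    -- `(e₀ - e)(e₀ - e') ~ (w (e₀ - e'))²`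
    have s3 : Sim V ((x - (e : Ω)) * (tt k Ω - (e' : Ω))) (((e₀ : Ω) - e) * tt k Ω) := s1.mul (htsim e')
    have s4 : Sim V (w ^ 2 * ((x - (e' : Ω)) * (tt k Ω - (e : Ω)))) (w ^ 2 * (((e₀ : Ω) - e') * tt k Ω)) :=
      (Sim.refl (pow_ne_zero 2 hw0)).mul (s2.mul (htsim e))
    rw [hwe] at s4
    have s5 : Sim V (((e₀ : Ω) - e) * tt k Ω) (w ^ 2 * (((e₀ : Ω) - e') * tt k Ω)) := s3.symm.trans s4
    have hne' : (e₀ : Ω) - e' ≠ 0 := s2.ne_right
    have s6 : Sim V (((e₀ : Ω) - e) * ((e₀ : Ω) - e')) ((w * ((e₀ : Ω) - e')) ^ 2) := by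
      have h1 := s5.mul (Sim.refl (V := V) (mul_ne_zero (inv_ne_zero ht0) hne'))
      have e1 : ((e₀ : Ω) - e) * tt k Ω * ((tt k Ω)⁻¹ * ((e₀ : Ω) - e')) = ((e₀ : Ω) - e) * ((e₀ : Ω) - e') := by
        field_simp
      have e2 : w ^ 2 * (((e₀ : Ω) - e') * tt k Ω) * ((tt k Ω)⁻¹ * ((e₀ : Ω) - e')) = (w * ((e₀ : Ω) - e')) ^ 2 := by
        field_simp
      rw [e1, e2] at h1
      exact h1
    exact L.sq_const _ (mul_mem (sub_mem e₀.2 e.2) (sub_mem e₀.2 e'.2))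
      ⟨w * ((e₀ : Ω) - e'), mul_mem hw (tw_const_mem Y.S Y.k0 Y.fin0 _ (sub_mem e₀.2 e'.2)), s6⟩
  by_cases heJ : e₀ ∈ J
  · -- `e₀ ∈ J`
    obtain ⟨m, hm, hmJ⟩ := Finset.exists_mem_notMem_of_card_lt_card (show J.card < R.card by omega)
    obtain ⟨a, ha, hae⟩ : ∃ a ∈ J, a ≠ e₀ := by
      obtain ⟨a, ha⟩ : (J.erase e₀).Nonempty := by
        apply Finset.card_pos.1
        rw [Finset.card_erase_of_mem heJ]
        omega
      exact ⟨a, Finset.mem_of_mem_erase ha, Finset.ne_of_mem_erase ha⟩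
    have hme : m ≠ e₀ := fun h => hmJ (h ▸ heJ)
    have hma : m ≠ a := fun h => hmJ (h ▸ ha)
    obtain ⟨d, hd, hdd⟩ := key m (hEe m hm hme) a (hEe a (hJR ha) hae) hma
    obtain ⟨s, hs, hss⟩ := hsq e₀ heJ a ha
    obtain ⟨i, hi, hi2⟩ := hi
    have hs0 : s ≠ 0 := by
      rintro rfl
      have h1 : (e₀ : Ω) - a = 0 := by
        rw [hss]
        ring
      exact hae (Subtype.ext (sub_eq_zero.1 h1)).symm
    refine hH m hm hmJ {e₀} (Finset.singleton_subset_iff.2 heJ) (Finset.singleton_nonempty _) ⟨i * d / s, div_mem (mul_mem hi hd) hs, ?_⟩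
    rw [Finset.prod_singleton, div_pow, mul_pow, hi2, ← hdd, hss, eq_div_iff (pow_ne_zero 2 hs0)]
    ring
  · -- `e₀ ∉ J`
    obtain ⟨a, ha, b, hb, hab⟩ := Finset.one_lt_card.1 (show 1 < J.card by omega)
    have hae : a ≠ e₀ := fun h => heJ (h ▸ ha)
    have hbe : b ≠ e₀ := fun h => heJ (h ▸ hb)
    obtain ⟨d, hd, hdd⟩ := key a (hEe a (hJR ha) hae) b (hEe b (hJR hb) hbe) hab
    refine hH e₀ he₀ heJ {a, b} ?_ (Finset.insert_nonempty _ _) ⟨d, hd, ?_⟩
    · intro z hz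
      rw [Finset.mem_insert, Finset.mem_singleton] at hz
      rcases hz with rfl | rfl
      · exact ha
      · exact hb
    · rw [Finset.prod_pair hab]
      exact hdd

end BSC
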