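import Pool.Agent.Lib_MP_49ddc8.Mv2

/-!
# One moving branch point: the descent lemma for `D η² = (ξ - a)(ξ - b)(ξ - c)`
-/

set_option autoImplicit false

open Polynomial

namespace BSC

section

variable {Ω : Type} [Field Ω] {V : ValuationSubring Ω} {F : Subfield Ω}

/-- a point of `D η² = (ξ - a)(ξ - b)(ξ - c)` with a pole: `D (ξ - a)` is a square up to `1 + 𝔪` -/
theorem sq_of_pole (D a b c ξ η : Ω) (hD : D ∈ F) (hη : η ∈ F) (hξ : ξ ∈ F) (ha : a ∈ V) (hb : b ∈ V) (hc : c ∈ V)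
    (hpole : ξ ∉ V) (h : D * η ^ 2 = (ξ - a) * (ξ - b) * (ξ - c)) : Sq F V (D * (ξ - a)) := by
  have hξ0 : ξ ≠ 0 := by
    rintro rfl
    exact hpole (zero_mem _)
  have s : Sim V (D * η ^ 2) (ξ * ξ * ξ) := by
    rw [h]
    exact ((Sim.big hpole ha).mul (Sim.big hpole hb)).mul (Sim.big hpole hc)
  have hD0 : D ≠ 0 := fun h0 => s.ne_left (by rw [h0, zero_mul])
  have s1 : Sim V (D * (ξ - a) * ξ ^ 2) (D * ξ * ξ ^ 2) :=
    ((Sim.refl hD0).mul (Sim.big hpole ha)).mul (Sim.refl (pow_ne_zero 2 hξ0))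
  have s2 : Sim V (D * (D * η ^ 2)) (D * (ξ * ξ * ξ)) := (Sim.refl hD0).mul s
  have e1 : D * ξ * ξ ^ 2 = D * (ξ * ξ * ξ) := by ring
  have e2 : D * (D * η ^ 2) = (D * η) ^ 2 := by ring
  rw [e1] at s1
  rw [e2] at s2
  exact Sq.cancel ⟨D * η, mul_mem hD hη, s1.trans s2.symm⟩ (Sq.of_sq hξ hξ0)

/-- where `D` is a unit, `ξ - a` is even -/
theorem ev_of_point (D a b c ξ η : Ω) (hD : D ∈ F) (hη : η ∈ F) (hξ : ξ ∈ F) (ha : a ∈ V) (hb : b ∈ V) (hc : c ∈ V)
    (hab : V.valuation (a - b) = 1) (hac : V.valuation (a - c) = 1) (hD1 : V.valuation D = 1) (h0 : ξ - a ≠ 0)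
    (h : D * η ^ 2 = (ξ - a) * (ξ - b) * (ξ - c)) : Ev F V (ξ - a) := by
  by_cases hpole : ξ ∈ V
  · by_cases hlt : V.valuation (ξ - a) < 1
    · have s1 := (Sim.shift hlt hab).val
      have s2 := (Sim.shift hlt hac).val
      have hv : V.valuation (η ^ 2) = V.valuation (ξ - a) := by
        have h1 := congrArg V.valuation h
        rw [map_mul, hD1, one_mul, map_mul, map_mul, s1, s2, hab, hac, mul_one, mul_one] at h1
        exact h1
      have hη0 : η ≠ 0 := by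
        rintro rfl
        rw [zero_pow two_ne_zero, map_zero] at hv
        exact h0 ((Valuation.zero_iff _).1 hv.symm)
      exact (Ev.of_sq hη hη0).congr hv.symm
    · exact Ev.one (le_antisymm ((V.valuation_le_one_iff _).2 (sub_mem hpole ha)) (not_lt.1 hlt))
  · refine (sq_of_pole D a b c ξ η hD hη hξ ha hb hc hpole h).ev.congr ?_
    rw [map_mul, hD1, one_mul]

end

variable {k Ω : Type} [Field k] [CharZero k] [Field Ω] [IsAlgClosed Ω] [Algebra k Ω] [Algebra (RatFunc k) Ω]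
  [IsScalarTower k (RatFunc k) Ω]

/-- the descent lemma -/
theorem Sys.selmer (Y : Sys k Ω) (J : Finset Y.k0) (e₄ m : Y.k0) (hmJ : m ∉ J)
    (hsq4 : ∀ a ∈ J, a ≠ e₄ → ∃ d ∈ Y.k0, (e₄ : Ω) - a = d ^ 2)
    (hH : ∀ B ⊆ J, B.Nonempty → ¬ ∃ d ∈ Y.k0, ∏ a ∈ B, ((m : Ω) - a) = d ^ 2)
    (D : Ω) (hD : D ∈ Y.S.F Y.k0) (hD0 : D ≠ 0)
    (hDu : ∀ k'' : IntermediateField k Ω, Y.k0 ≤ k'' → FiniteDimensional k k'' → ∀ β : k'', (∀ α ∈ J, (α : Ω) ≠ (β : Ω)) →
      (Y.V k'' (some β)).valuation D = 1)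
    (hD4 : Sim (Y.V Y.k0 (some e₄)) D ((tt k Ω - (e₄ : Ω))⁻¹ ^ 3))
    (a b c ξ η : Ω) (ha : a ∈ Y.k0) (hb : b ∈ Y.k0) (hc : c ∈ Y.k0) (hab : a ≠ b) (hac : a ≠ c) (hbc : b ≠ c)
    (sab : ∃ d ∈ Y.k0, a - b = d ^ 2) (sac : ∃ d ∈ Y.k0, a - c = d ^ 2) (sba : ∃ d ∈ Y.k0, b - a = d ^ 2)
    (sca : ∃ d ∈ Y.k0, c - a = d ^ 2) (hξ : ξ ∈ Y.S.F Y.k0) (hη : η ∈ Y.S.F Y.k0)
    (h : D * η ^ 2 = (ξ - a) * (ξ - b) * (ξ - c)) (hpole : ξ ∉ Y.V Y.k0 (some m)) :
    ∃ n ∈ Y.S.F Y.k0, ξ - a = D * n ^ 2 := by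
  classical
  have hcF : ∀ q ∈ Y.k0, q ∈ Y.S.F Y.k0 := fun q hq => tw_const_mem Y.S Y.k0 Y.fin0 q hq
  have Lm := Y.loc Y.k0 le_rfl Y.fin0 (some m)
  have hξa : ∀ q ∈ Y.k0, ξ - q ≠ 0 := by
    intro q hq h0
    apply hpole
    rw [sub_eq_zero.1 h0]
    exact Lm.const q hq
  have hη0 : η ≠ 0 := by
    rintro rfl
    have h1 : (ξ - a) * (ξ - b) * (ξ - c) = 0 := by
      rw [← h]
      ring
    exact mul_ne_zero (mul_ne_zero (hξa a ha) (hξa b hb)) (hξa c hc) h1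
  have hz0 : D * (ξ - a) ≠ 0 := mul_ne_zero hD0 (hξa a ha)
  have hzF : D * (ξ - a) ∈ Y.S.F Y.k0 := mul_mem hD (sub_mem hξ (hcF a ha))
  obtain ⟨ε, hε, B, hB, w, hw, hw0, hz⟩ := Y.desc Y.k0 le_rfl Y.fin0 (D * (ξ - a)) hzF hz0 J (by
    intro k'' hk hfin β hβ
    have L := Y.loc k'' hk hfin (some β)
    have hF : ∀ q ∈ Y.S.F Y.k0, q ∈ Y.S.F k'' := fun q hq =>
      Y.S.F_mono (show (Y.k0 : Set Ω) ⊆ (k'' : Set Ω) from fun z hz => hk hz) hq
    have h1 : Ev (Y.S.F k'') (Y.V k'' (some β)) (ξ - a) :=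
      ev_of_point D a b c ξ η (hF D hD) (hF η hη) (hF ξ hξ) (L.const a (hk ha)) (L.const b (hk hb)) (L.const c (hk hc))
        (L.val_const _ (sub_mem (hk ha) (hk hb)) (sub_ne_zero.2 hab)) (L.val_const _ (sub_mem (hk ha) (hk hc)) (sub_ne_zero.2 hac))
        (hDu k'' hk hfin β hβ) (hξa a ha) h
    exact (Ev.one (hDu k'' hk hfin β hβ)).mul h1)
  have hε0 : (ε : Ω) ≠ 0 := fun h => hε (Subtype.ext h)
  -- the place `e₄`
  have hεsq : ∃ d ∈ Y.k0, (ε : Ω) = d ^ 2 := by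
    have L := Y.loc Y.k0 le_rfl Y.fin0 (some e₄)
    set V := Y.V Y.k0 (some e₄) with hV
    set u := tt k Ω - (e₄ : Ω) with hu
    have hu0 : u ≠ 0 := t_sub_ne Y e₄
    have huF : u ∈ Y.S.F Y.k0 := t_sub_mem Y e₄
    have hun : ¬ Ev (Y.S.F Y.k0) V u := L.t_not_ev
    -- the two cases
    have hcase : Sq (Y.S.F Y.k0) V (D * (ξ - a)) ∨ Sq (Y.S.F Y.k0) V (D * (ξ - a) * u) := by
      by_cases hξV : ξ ∈ V
      · have hle : ∀ q ∈ Y.k0, ¬ V.valuation (ξ - q) < 1 → V.valuation (ξ - q) = 1 := fun q hq h1 =>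
          le_antisymm ((V.valuation_le_one_iff _).2 (sub_mem hξV (L.const q hq))) (not_lt.1 h1)
        have hcc : ∀ p ∈ Y.k0, ∀ q ∈ Y.k0, p ≠ q → V.valuation (p - q) = 1 := fun p hp q hq hpq =>
          L.val_const _ (sub_mem hp hq) (sub_ne_zero.2 hpq)
        -- `D (ξ - a) u` for `ξ` close to `b` or `c`
        have hother : ∀ q ∈ Y.k0, q ≠ a → (∃ d ∈ Y.k0, q - a = d ^ 2) → V.valuation (ξ - q) < 1 →
            Sq (Y.S.F Y.k0) V (D * (ξ - a) * u) := by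
          rintro q hq hqa ⟨d, hd, hdd⟩ hlt
          have s1 : Sim V (D * (ξ - a) * u) (u⁻¹ ^ 3 * (q - a) * u) :=
            (hD4.mul (Sim.shift hlt (hcc q hq a ha hqa))).mul (Sim.refl hu0)
          have e1 : u⁻¹ ^ 3 * (q - a) * u = (u⁻¹ * d) ^ 2 := by
            rw [hdd]
            field_simp
          rw [e1] at s1
          exact ⟨u⁻¹ * d, mul_mem (inv_mem huF) (hcF d hd), s1⟩
        by_cases h1 : V.valuation (ξ - a) < 1
        · left
          obtain ⟨d, hd, hdd⟩ := sab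
          obtain ⟨d', hd', hdd'⟩ := sac
          have s1 : Sq (Y.S.F Y.k0) V ((ξ - b) * (ξ - c)) := by
            have s2 := (Sim.shift h1 (hcc a ha b hb hab)).mul (Sim.shift h1 (hcc a ha c hc hac))
            have e1 : (a - b) * (a - c) = (d * d') ^ 2 := by
              rw [hdd, hdd']
              ring
            rw [e1] at s2
            exact ⟨d * d', mul_mem (hcF d hd) (hcF d' hd'), s2⟩
          have e2 : D * (ξ - a) * ((ξ - b) * (ξ - c)) = (D * η) ^ 2 := by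
            linear_combination (-D) * h
          refine Sq.cancel ?_ s1
          rw [e2]
          exact Sq.of_sq (mul_mem hD hη) (mul_ne_zero hD0 hη0)
        · by_cases h2 : V.valuation (ξ - b) < 1
          · exact Or.inr (hother b hb hab.symm sba h2)
          · by_cases h3 : V.valuation (ξ - c) < 1
            · exact Or.inr (hother c hc hac.symm sca h3)
            · exfalso
              apply hun
              have hv : V.valuation (D * η ^ 2) = 1 := by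
                rw [h, map_mul, map_mul, hle a ha h1, hle b hb h2, hle c hc h3, one_mul, one_mul]
              have h4 : Ev (Y.S.F Y.k0) V (D * η ^ 2) := Ev.one hv
              have h5 : Ev (Y.S.F Y.k0) V D := h4.cancel (Ev.of_sq hη hη0)
              have h6 : Ev (Y.S.F Y.k0) V (u⁻¹ ^ 3) := h5.congr hD4.val.symm
              have h7 : Ev (Y.S.F Y.k0) V (u⁻¹ ^ 3 * (u ^ 2) ^ 2) := h6.mul (Ev.of_sq (pow_mem huF 2) (pow_ne_zero 2 hu0))
              have e3 : u⁻¹ ^ 3 * (u ^ 2) ^ 2 = u := by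
                field_simp
              rw [e3] at h7
              exact h7
      · exact Or.inl (sq_of_pole D a b c ξ η hD hη hξ (L.const a ha) (L.const b hb) (L.const c hc) hξV h)
    -- the product over `B`
    have hQ : Sq (Y.S.F Y.k0) V (∏ α ∈ B.erase e₄, (tt k Ω - (α : Ω))) := by
      have h1 : ∀ α ∈ B.erase e₄, ∃ d ∈ Y.k0, (e₄ : Ω) - α = d ^ 2 := fun α hα =>
        hsq4 α (hB (Finset.mem_of_mem_erase hα)) (Finset.ne_of_mem_erase hα)
      choose! d hd hdd using h1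
      refine ⟨∏ α ∈ B.erase e₄, d α, _root_.prod_mem fun α hα => hcF _ (hd α hα), ?_⟩
      rw [← Finset.prod_pow]
      refine Sim.prod _ _ _ fun α hα => ?_
      rw [← hdd α hα]
      exact L.t_sim α α.2 fun h => Finset.ne_of_mem_erase hα (Subtype.ext h)
    have hww : Sq (Y.S.F Y.k0) V (w ^ 2) := Sq.of_sq hw hw0
    have hεev : Ev (Y.S.F Y.k0) V (ε : Ω) := Ev.one (L.val_const ε ε.2 hε0)
    apply L.sq_const ε ε.2
    by_cases h4 : e₄ ∈ B
    · have e1 : D * (ξ - a) = u * ((ε : Ω) * ((∏ α ∈ B.erase e₄, (tt k Ω - (α : Ω))) * w ^ 2)) := by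
        rw [hz, ← Finset.mul_prod_erase B _ h4]
        ring
      rcases hcase with hc1 | hc1
      · exfalso
        apply hun
        rw [e1] at hc1
        exact hc1.ev.cancel (hεev.mul (hQ.mul hww).ev)
      · have e2 : D * (ξ - a) * u = (ε : Ω) * ((∏ α ∈ B.erase e₄, (tt k Ω - (α : Ω))) * w ^ 2 * u ^ 2) := by
          rw [e1]
          ring
        rw [e2] at hc1
        exact hc1.cancel ((hQ.mul hww).mul (Sq.of_sq huF hu0))
    · rw [Finset.erase_eq_of_notMem h4] at hQ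
      have e1 : D * (ξ - a) = (ε : Ω) * ((∏ α ∈ B, (tt k Ω - (α : Ω))) * w ^ 2) := by
        rw [hz]
        ring
      rcases hcase with hc1 | hc1
      · rw [e1] at hc1
        exact hc1.cancel (hQ.mul hww)
      · exfalso
        apply hun
        have e2 : D * (ξ - a) * u = u * ((ε : Ω) * ((∏ α ∈ B, (tt k Ω - (α : Ω))) * w ^ 2)) := by
          rw [e1]
          ring
        rw [e2] at hc1
        exact hc1.ev.cancel (hεev.mul (hQ.mul hww).ev)
  obtain ⟨d, hd, hdd⟩ := hεsq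
  have hd0 : d ≠ 0 := by
    rintro rfl
    apply hε0
    rw [hdd]
    ring
  -- the place `m`
  have hB0 : B = ∅ := by
    rw [← Finset.not_nonempty_iff_eq_empty]
    intro hBn
    apply hH B hB hBn
    apply Lm.sq_const _ (_root_.prod_mem fun α _ => sub_mem m.2 α.2)
    have h1 : Sq (Y.S.F Y.k0) (Y.V Y.k0 (some m)) (D * (ξ - a)) :=
      sq_of_pole D a b c ξ η hD hη hξ (Lm.const a ha) (Lm.const b hb) (Lm.const c hc) hpole h
    have h2 : Sim (Y.V Y.k0 (some m)) (∏ α ∈ B, (tt k Ω - (α : Ω))) (∏ α ∈ B, ((m : Ω) - (α : Ω))) :=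
      Sim.prod _ _ _ fun α hα => Lm.t_sim α α.2 fun h => hmJ (by rw [← Subtype.ext h]; exact hB hα)
    have e1 : D * (ξ - a) = (∏ α ∈ B, (tt k Ω - (α : Ω))) * (d * w) ^ 2 := by
      rw [hz, hdd]
      ring
    rw [e1] at h1
    exact h2.symm.sq (h1.cancel (Sq.of_sq (mul_mem (hcF d hd) hw) (mul_ne_zero hd0 hw0)))
  rw [hB0, Finset.prod_empty, hdd] at hz
  refine ⟨d * w / D, div_mem (mul_mem (hcF d hd) hw) hD, ?_⟩
  have h1 : ξ - a = (D * (ξ - a)) / D := by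
    field_simp
  rw [h1, hz, div_pow]
  field_simp

end BSC
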