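import Pool.Agent.Lib_MP_49ddc8.Gal

/-!
# [BSC-Q1] .. [BSC-Q5]  Places and polynomials

[BSC-Q1] `tt_transc` (`RatFunc.X` is transcendental over `k`, `k'/k` algebraic), `unif_ne_zero`, `exists_level` (adjoin finitely many elements algebraic over `k`), `aeval_mem_kt`, `kt_frac` (the fractions `p(t)/q(t)`, `p, q ∈ k'[X]`, form a subfield of `Ω` containing `k'` and the image of `RatFunc k`),
`kt_le_F`, `kt_mono`, `kt_alg`.

[BSC-Q2] `Loc.val_const`: `c, c⁻¹ ∈ k' ⊆ V`.  `Loc.poly_le`: `p(t) - p(α)` is `(t - α)` times an element of `V` (`X - C α ∣ p - C (p.eval α)`, and `t = (t - α) + α ∈ V`).  `Loc.poly_unit`: ultrametric.  `Loc.poly_val`: `p = (X - C α)^m q`, `q.eval α ≠ 0`.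
`Loc.poly_inf`: `t^(-n) p(t)` is the reversed polynomial at `t⁻¹`, constant coefficient = leading coefficient ≠ 0, all in terms of `t⁻¹ ∈ 𝔪`.  `Loc.kt_val`: from `kt_frac`.

[BSC-Q3] coarsening: `coarse_lt_one`: `z ∈ 𝔪(V[1/π])` iff `z = 0` or `z⁻¹ ∉ V[1/π]`, i.e. `π^m z⁻¹ ∉ V` for all `m`, i.e. `|z| < |π^m|` for all `m`, equivalently `≤` (use `m + 1`).  `coarse_of_lt`: if `|z| < 1` in the coarsening then `|z| < 1` in `V` (and more).  `Loc.coarse_kt`: `kt_val`.
`Loc.coarse_alg`: `k'(t) ⊆ V[1/π]` and `z` is integral (algebraic) over it; valuation rings are integrally closed; the same for `z⁻¹`.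

[BSC-Q4] `Loc.ram_pow`: induction on `j`.  `j + 1`: if `m = 2 m' + 1` then `π (π^m' w^(2^j))²` has value 1, contradiction to `ram` (`π ∈ S.F k'`); `m = 2 m'`: `(π^m' w^(2^j))²` has value 1, so `π^m' w^(2^j)` has.
`k2_poly`: `k2` and `kt_frac`: `z = (p/q) w² = p q (w/q)²`; among all polynomials `p ≠ 0` with `z ∈ p(t)·(S.F k')²` take one of minimal degree; it is squarefree (if `g² ∣ p`, `g` not a unit, divide).  `k2_pow`: iterate (induction on `j`, `w = p' w'²`).

[BSC-Q5] `Sys.desc`: `z = p(t) w²`, `p` squarefree (`k2_poly`).  Let `α ∈ Ω` be a root of `p` (algebraic over `k`), `k'' = k'(α)` (`exists_level`).  `p` is separable (char 0), so `rootMultiplicity α p = 1` over `k''`, `|p(t)| = |t - α|` (`poly_val` for `p` mapped to `k''`).  If `α ∉ A`: `z w'²` is a unit,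
so `(t - α) (w w')²` is a unit at `(k'', α)`, contradiction to `ram`.  So all roots of `p` lie in `A`, and `p = ε ∏_{α ∈ B} (X - α)`.
-/

set_option autoImplicit false

open Polynomial

namespace BSC

section Q1

variable {k Ω : Type} [Field k] [CharZero k] [Field Ω] [IsAlgClosed Ω] [Algebra k Ω] [Algebra (RatFunc k) Ω]
  [IsScalarTower k (RatFunc k) Ω]

theorem tt_transc (k' : IntermediateField k Ω) (hfin : FiniteDimensional k k') : Transcendental k' (tt k Ω) := by
  intro h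
  have h1 : IsAlgebraic k (tt k Ω) := h.restrictScalars k
  unfold tt at h1
  rw [isAlgebraic_algebraMap_iff (algebraMap (RatFunc k) Ω).injective] at h1
  exact RatFunc.transcendental_X h1

theorem aeval_tt_ne (k' : IntermediateField k Ω) (hfin : FiniteDimensional k k') (p : k'[X]) (hp : p ≠ 0) :
    aeval (tt k Ω) p ≠ 0 := fun h => tt_transc k' hfin ⟨p, hp, h⟩

theorem unif_ne_zero (k' : IntermediateField k Ω) (hfin : FiniteDimensional k k') (a : Option k') : unif k' a ≠ 0 := by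
  cases a with
  | none =>
    have h : tt k Ω ≠ 0 := by
      have := aeval_tt_ne k' hfin (X : k'[X]) X_ne_zero
      rwa [aeval_X] at this
    exact inv_ne_zero h
  | some α =>
    have := aeval_tt_ne k' hfin (X - C α : k'[X]) (X_sub_C_ne_zero α)
    rw [map_sub, aeval_X, aeval_C] at this
    exact this

theorem exists_level (k' : IntermediateField k Ω) (hfin : FiniteDimensional k k') (A : Set Ω) (hA : A.Finite)
    (halg : ∀ x ∈ A, IsAlgebraic k x) :
    ∃ k'' : IntermediateField k Ω, k' ≤ k'' ∧ FiniteDimensional k k'' ∧ A ⊆ k'' := by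
  haveI : Finite A := hA
  haveI : FiniteDimensional k (IntermediateField.adjoin k A) :=
    IntermediateField.finiteDimensional_adjoin fun x hx => (halg x hx).isIntegral
  refine ⟨k' ⊔ IntermediateField.adjoin k A, le_sup_left, inferInstance, ?_⟩
  intro x hx
  exact (le_sup_right : IntermediateField.adjoin k A ≤ k' ⊔ IntermediateField.adjoin k A)
    (IntermediateField.subset_adjoin k A hx)

theorem level_alg (k' : IntermediateField k Ω) (hfin : FiniteDimensional k k') (c : Ω) (hc : c ∈ k') :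
    IsAlgebraic k c ∧ IsAlgebraic (RatFunc k) c := by
  have h1 : IsAlgebraic k c := by
    have h2 : IsAlgebraic k (⟨c, hc⟩ : k') := Algebra.IsAlgebraic.isAlgebraic _
    have h3 := h2.algebraMap (A := Ω)
    exact h3
  exact ⟨h1, h1.tower_top (RatFunc k)⟩

private theorem tt_mem_kt (k' : IntermediateField k Ω) : tt k Ω ∈ kt k' :=
  (kt k').algebraMap_mem RatFunc.X

private theorem mem_kt_of_mem (k' : IntermediateField k Ω) (c : Ω) (hc : c ∈ k') : c ∈ kt k' :=
  IntermediateField.subset_adjoin _ _ hc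

theorem aeval_mem_kt (k' : IntermediateField k Ω) (p : k'[X]) : aeval (tt k Ω) p ∈ kt k' := by
  rw [aeval_eq_sum_range]
  refine sum_mem fun i _ => ?_
  rw [Algebra.smul_def]
  exact mul_mem (mem_kt_of_mem k' _ (p.coeff i).2) (pow_mem (tt_mem_kt k') i)

theorem unif_mem_kt (k' : IntermediateField k Ω) (a : Option k') : unif k' a ∈ kt k' := by
  cases a with
  | none => exact inv_mem (tt_mem_kt k')
  | some α => exact sub_mem (tt_mem_kt k') (mem_kt_of_mem k' _ α.2)

private theorem algebraMap_frac (k' : IntermediateField k Ω) (f : RatFunc k) :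
    ∃ p q : k'[X], q ≠ 0 ∧ algebraMap (RatFunc k) Ω f = aeval (tt k Ω) p / aeval (tt k Ω) q := by
  have key : ∀ p : k[X], algebraMap (RatFunc k) Ω (algebraMap k[X] (RatFunc k) p)
      = aeval (tt k Ω) (p.map (algebraMap k k')) := by
    intro p
    have h1 : aeval (tt k Ω) (p.map (algebraMap k k')) = aeval (tt k Ω) p := by
      rw [aeval_map_algebraMap]
    have h2 : algebraMap k[X] (RatFunc k) p = aeval (RatFunc.X : RatFunc k) p := by
      rw [← RatFunc.algebraMap_X, aeval_algebraMap_apply, aeval_X_left_apply]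
    rw [h1, h2]
    unfold tt
    rw [aeval_algebraMap_apply]
  refine ⟨f.num.map (algebraMap k k'), f.denom.map (algebraMap k k'), ?_, ?_⟩
  · exact (Polynomial.map_ne_zero_iff (algebraMap k k').injective).2 (RatFunc.denom_ne_zero f)
  · rw [← key, ← key, ← map_div₀, RatFunc.num_div_denom]

theorem kt_frac (k' : IntermediateField k Ω) (hfin : FiniteDimensional k k') (r : Ω) (hr : r ∈ kt k') :
    ∃ p q : k'[X], q ≠ 0 ∧ r = aeval (tt k Ω) p / aeval (tt k Ω) q := by
  let F : Subfield Ω :=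
    { carrier := {r | ∃ p q : k'[X], q ≠ 0 ∧ r = aeval (tt k Ω) p / aeval (tt k Ω) q}
      mul_mem' := by
        rintro x y ⟨p1, q1, h1, rfl⟩ ⟨p2, q2, h2, rfl⟩
        refine ⟨p1 * p2, q1 * q2, mul_ne_zero h1 h2, ?_⟩
        rw [map_mul, map_mul, div_mul_div_comm]
      one_mem' := ⟨1, 1, one_ne_zero, by rw [map_one, div_one]⟩
      add_mem' := by
        rintro x y ⟨p1, q1, h1, rfl⟩ ⟨p2, q2, h2, rfl⟩
        refine ⟨p1 * q2 + q1 * p2, q1 * q2, mul_ne_zero h1 h2, ?_⟩
        rw [div_add_div _ _ (aeval_tt_ne k' hfin q1 h1) (aeval_tt_ne k' hfin q2 h2), map_add,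
          map_mul, map_mul, map_mul]
      zero_mem' := ⟨0, 1, one_ne_zero, by rw [map_zero, zero_div]⟩
      neg_mem' := by
        rintro x ⟨p, q, h, rfl⟩
        exact ⟨-p, q, h, by rw [map_neg, neg_div]⟩
      inv_mem' := by
        rintro x ⟨p, q, h, rfl⟩
        by_cases hp : p = 0
        · subst hp
          exact ⟨0, 1, one_ne_zero, by rw [map_zero, zero_div, zero_div, inv_zero]⟩
        · exact ⟨q, p, hp, by rw [inv_div]⟩ }
  have hF : kt k' ≤ F.toIntermediateField (fun f => algebraMap_frac k' f) := by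
    refine IntermediateField.adjoin_le_iff.2 fun x hx => ?_
    exact ⟨C ⟨x, hx⟩, 1, one_ne_zero, by rw [map_one, div_one, aeval_C]; rfl⟩
  exact hF hr

theorem kt_mono (k' k'' : IntermediateField k Ω) (h : k' ≤ k'') : kt k' ≤ kt k'' :=
  IntermediateField.adjoin.mono _ _ _ h

theorem kt_alg (k' : IntermediateField k Ω) (hfin : FiniteDimensional k k') (r : Ω) (hr : r ∈ kt k') :
    IsAlgebraic (RatFunc k) r := by
  have h : kt k' ≤ algebraicClosure (RatFunc k) Ω :=
    IntermediateField.adjoin_le_iff.2 fun x hx => mem_algebraicClosure_iff.2 (level_alg k' hfin x hx).2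
  exact mem_algebraicClosure_iff.1 (h hr)

theorem kt_le_F (S : Sec (RatFunc k) Ω) (k' : IntermediateField k Ω) (hfin : FiniteDimensional k k') (r : Ω)
    (hr : r ∈ kt k') : r ∈ S.F k' :=
  adjoin_le_F S (k' : Set Ω) (fun x hx => (level_alg k' hfin x hx).2) r hr

end Q1

section Q2

variable {k Ω : Type} [Field k] [CharZero k] [Field Ω] [IsAlgClosed Ω] [Algebra k Ω] [Algebra (RatFunc k) Ω]
  [IsScalarTower k (RatFunc k) Ω] {S : Sec (RatFunc k) Ω} {k' : IntermediateField k Ω} {V : ValuationSubring Ω}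

theorem Loc.val_const {a : Option k'} (h : Loc S k' a V) (c : Ω) (hc : c ∈ k') (h0 : c ≠ 0) : V.valuation c = 1 := by
  have h1 : V.valuation c ≤ 1 := (V.valuation_le_one_iff c).2 (h.const c hc)
  have h2 : V.valuation c⁻¹ ≤ 1 := (V.valuation_le_one_iff _).2 (h.const _ (inv_mem hc))
  have h3 : V.valuation c * V.valuation c⁻¹ = 1 := by
    rw [← map_mul, mul_inv_cancel₀ h0, map_one]
  refine le_antisymm h1 ?_
  calc (1 : V.ValueGroup) = V.valuation c * V.valuation c⁻¹ := h3.symm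
    _ ≤ V.valuation c * 1 := mul_le_mul_right h2 _
    _ = V.valuation c := mul_one _

omit [CharZero k] [IsAlgClosed Ω] [Algebra (RatFunc k) Ω] [IsScalarTower k (RatFunc k) Ω] in
private theorem q2_mem (hc : ∀ c ∈ k', c ∈ V) (x : Ω) (hx : x ∈ V) (p : k'[X]) : aeval x p ∈ V := by
  rw [aeval_eq_sum_range]
  refine sum_mem fun i _ => ?_
  rw [Algebra.smul_def]
  exact mul_mem (hc _ (p.coeff i).2) (pow_mem hx i)

omit [CharZero k] [IsAlgClosed Ω] [Algebra (RatFunc k) Ω] [IsScalarTower k (RatFunc k) Ω] in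
private theorem q2_le (hc : ∀ c ∈ k', c ∈ V) (x : Ω) (α : k') (hx : V.valuation (x - (α : Ω)) < 1) (p : k'[X]) :
    V.valuation (aeval x p - ((p.eval α : k') : Ω)) ≤ V.valuation (x - (α : Ω)) := by
  obtain ⟨q, hq⟩ := X_sub_C_dvd_sub_C_eval (a := α) (p := p)
  have hxV : x ∈ V := by
    have h1 : x - (α : Ω) ∈ V := (V.valuation_le_one_iff _).1 hx.le
    have h2 := add_mem h1 (hc _ α.2)
    rwa [sub_add_cancel] at h2
  have h3 : aeval x p - ((p.eval α : k') : Ω) = (x - (α : Ω)) * aeval x q := by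
    have h4 := congrArg (aeval x) hq
    rw [map_sub, map_mul, map_sub, aeval_X, aeval_C, aeval_C] at h4
    exact h4
  rw [h3, map_mul]
  have h5 : V.valuation (aeval x q) ≤ 1 := (V.valuation_le_one_iff _).2 (q2_mem hc x hxV q)
  calc V.valuation (x - (α : Ω)) * V.valuation (aeval x q) ≤ V.valuation (x - (α : Ω)) * 1 := mul_le_mul_right h5 _
    _ = V.valuation (x - (α : Ω)) := mul_one _

omit [CharZero k] [IsAlgClosed Ω] [Algebra (RatFunc k) Ω] [IsScalarTower k (RatFunc k) Ω] in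
private theorem q2_unit (hc : ∀ c ∈ k', c ∈ V) (hc1 : ∀ c : Ω, c ∈ k' → c ≠ 0 → V.valuation c = 1) (x : Ω) (α : k')
    (hx : V.valuation (x - (α : Ω)) < 1) (p : k'[X]) (hp : p.eval α ≠ 0) :
    V.valuation (aeval x p) = 1 := by
  have h1 := (q2_le hc x α hx p).trans_lt hx
  have h2 : V.valuation ((p.eval α : k') : Ω) = 1 := by
    refine hc1 _ (p.eval α).2 fun h => hp ?_
    exact Subtype.ext h
  have h3 : aeval x p = ((p.eval α : k') : Ω) + (aeval x p - ((p.eval α : k') : Ω)) := by ring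
  rw [h3, V.valuation.map_add_eq_of_lt_left (by rw [h2]; exact h1), h2]

theorem Loc.poly_le {α : k'} (h : Loc S k' (some α) V) (p : k'[X]) :
    V.valuation (aeval (tt k Ω) p - ((p.eval α : k') : Ω)) ≤ V.valuation (BSC.unif k' (some α)) :=
  q2_le h.const _ α h.unif p

theorem Loc.poly_unit {α : k'} (h : Loc S k' (some α) V) (p : k'[X]) (hp : p.eval α ≠ 0) :
    V.valuation (aeval (tt k Ω) p) = 1 :=
  q2_unit h.const h.val_const _ α h.unif p hp

theorem Loc.poly_val {α : k'} (h : Loc S k' (some α) V) (p : k'[X]) (hp : p ≠ 0) :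
    V.valuation (aeval (tt k Ω) p) = V.valuation (BSC.unif k' (some α)) ^ (p.rootMultiplicity α) := by
  obtain ⟨q, hq, hnd⟩ := exists_eq_pow_rootMultiplicity_mul_and_not_dvd p hp α
  have h1 : q.eval α ≠ 0 := fun h2 => hnd (dvd_iff_isRoot.2 h2)
  have h3 : aeval (tt k Ω) p = (BSC.unif k' (some α)) ^ (p.rootMultiplicity α) * aeval (tt k Ω) q := by
    conv_lhs => rw [hq]
    rw [map_mul, map_pow, map_sub, aeval_X, aeval_C]
    rfl
  rw [h3, map_mul, map_pow, h.poly_unit q h1, mul_one]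

theorem Loc.poly_inf (h : Loc S k' none V) (p : k'[X]) (hp : p ≠ 0) :
    V.valuation (aeval (tt k Ω) p) * V.valuation (BSC.unif k' none) ^ p.natDegree = 1 := by
  have ht : tt k Ω ≠ 0 := by
    unfold tt
    rw [Ne, map_eq_zero]
    exact RatFunc.X_ne_zero
  have hu : V.valuation ((tt k Ω)⁻¹) < 1 := h.unif
  have h1 : V.valuation ((tt k Ω)⁻¹ - ((0 : k') : Ω)) < 1 := by
    rw [ZeroMemClass.coe_zero, sub_zero]
    exact hu
  have h2 : p.reverse.eval 0 ≠ 0 := by
    rw [← coeff_zero_eq_eval_zero, coeff_zero_reverse]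
    exact leadingCoeff_ne_zero.2 hp
  have h3 := q2_unit h.const h.val_const _ 0 h1 p.reverse h2
  let _ : Invertible (tt k Ω) := invertibleOfNonzero ht
  have h4 := eval₂_reverse_mul_pow (algebraMap k' Ω) (tt k Ω) p
  rw [invOf_eq_inv] at h4
  have h5 : aeval (tt k Ω) p = aeval (tt k Ω)⁻¹ p.reverse * tt k Ω ^ p.natDegree := h4.symm
  rw [h5, map_mul, h3, one_mul, ← map_pow, ← map_mul]
  change V.valuation (tt k Ω ^ p.natDegree * (tt k Ω)⁻¹ ^ p.natDegree) = 1
  rw [← mul_pow, mul_inv_cancel₀ ht, one_pow, map_one]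

theorem Loc.kt_val (hfin : FiniteDimensional k k') {a : Option k'} (h : Loc S k' a V) (r : Ω) (hr : r ∈ kt k') (h0 : r ≠ 0) :
    ∃ m : ℤ, V.valuation r = V.valuation (BSC.unif k' a) ^ m := by
  obtain ⟨p, q, hq, hr'⟩ := kt_frac k' hfin r hr
  have hp : p ≠ 0 := by
    rintro rfl
    rw [map_zero, zero_div] at hr'
    exact h0 hr'
  have hπ : V.valuation (BSC.unif k' a) ≠ 0 := (Valuation.ne_zero_iff _).2 (unif_ne_zero k' hfin a)
  have key : ∀ p : k'[X], p ≠ 0 → ∃ m : ℤ, V.valuation (aeval (tt k Ω) p) = V.valuation (BSC.unif k' a) ^ m := by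
    intro p hp
    cases a with
    | some α => exact ⟨(p.rootMultiplicity α : ℤ), by rw [h.poly_val p hp, zpow_natCast]⟩
    | none =>
      refine ⟨-(p.natDegree : ℤ), ?_⟩
      rw [zpow_neg, zpow_natCast]
      exact eq_inv_of_mul_eq_one_left (h.poly_inf p hp)
  obtain ⟨m, hm⟩ := key p hp
  obtain ⟨n, hn⟩ := key q hq
  exact ⟨m - n, by rw [hr', map_div₀, hm, hn, zpow_sub₀ hπ]⟩

end Q2

section Q3

theorem coarse_lt_one {Ω : Type} [Field Ω] (V : ValuationSubring Ω) (π : Ω) (h0 : π ≠ 0) (hπ : V.valuation π < 1) (z : Ω) :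
    (coarse V π).valuation z < 1 ↔ ∀ m : ℕ, V.valuation z ≤ V.valuation π ^ m := by
  by_cases hz : z = 0
  · rw [hz, map_zero, map_zero]
    exact ⟨fun _ m => zero_le', fun _ => zero_lt_one⟩
  have hvz : 0 < V.valuation z := zero_lt_iff.mpr ((Valuation.ne_zero_iff _).mpr hz)
  have hvπ : 0 < V.valuation π := zero_lt_iff.mpr ((Valuation.ne_zero_iff _).mpr h0)
  have h1 : (coarse V π).valuation z < 1 ↔ z⁻¹ ∉ coarse V π := by
    rw [← ValuationSubring.valuation_le_one_iff, map_inv₀, not_le,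
      one_lt_inv₀ (zero_lt_iff.mpr ((Valuation.ne_zero_iff _).mpr hz))]
  have h2 : z⁻¹ ∈ coarse V π ↔ ∃ m : ℕ, V.valuation π ^ m ≤ V.valuation z := by
    have : z⁻¹ ∈ coarse V π ↔ ∃ m : ℕ, π ^ m * z⁻¹ ∈ V := Iff.rfl
    rw [this]
    refine exists_congr fun m => ?_
    rw [← ValuationSubring.valuation_le_one_iff, map_mul, map_pow, map_inv₀, mul_inv_le_iff₀ hvz, one_mul]
  rw [h1, h2]
  push Not
  constructor
  · intro h m
    exact (h m).le
  · intro h m
    refine lt_of_le_of_lt (h (m + 1)) ?_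
    rw [pow_succ]
    exact mul_lt_of_lt_one_right (pow_pos hvπ m) hπ

theorem coarse_of_lt {Ω : Type} [Field Ω] (V : ValuationSubring Ω) (π : Ω) (h0 : π ≠ 0) (hπ : V.valuation π < 1) (z : Ω)
    (hz : (coarse V π).valuation z < 1) (m : ℕ) : V.valuation z < V.valuation π ^ m := by
  have hvπ : 0 < V.valuation π := zero_lt_iff.mpr ((Valuation.ne_zero_iff _).mpr h0)
  refine lt_of_le_of_lt ((coarse_lt_one V π h0 hπ z).mp hz (m + 1)) ?_
  rw [pow_succ]
  exact mul_lt_of_lt_one_right (pow_pos hvπ m) hπ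

theorem le_coarse {Ω : Type} [Field Ω] (V : ValuationSubring Ω) (π : Ω) (z : Ω) (hz : z ∈ V) : z ∈ coarse V π :=
  ⟨0, by rwa [pow_zero, one_mul]⟩

/-- an element whose value is a power of the value of `π` lies in the coarsening -/
theorem mem_coarse_of_zpow {Ω : Type} [Field Ω] (V : ValuationSubring Ω) (π : Ω) (h0 : π ≠ 0) (hπ : V.valuation π < 1) (r : Ω)
    (m : ℤ) (hr : V.valuation r = V.valuation π ^ m) : r ∈ coarse V π := by
  have hvπ : V.valuation π ≠ 0 := (Valuation.ne_zero_iff _).mpr h0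
  refine ⟨m.natAbs, ?_⟩
  rw [← ValuationSubring.valuation_le_one_iff, map_mul, map_pow, hr, ← zpow_natCast, ← zpow_add₀ hvπ]
  obtain ⟨n, hn⟩ : ∃ n : ℕ, (m.natAbs : ℤ) + m = n := ⟨(m.natAbs + m).toNat, by omega⟩
  rw [hn, zpow_natCast]
  exact pow_le_one₀ zero_le' hπ.le

/-- valuation rings are integrally closed -/
theorem mem_of_algebraic {F Ω : Type} [Field F] [Field Ω] [Algebra F Ω] (W : ValuationSubring Ω)
    (hF : ∀ c : F, algebraMap F Ω c ∈ W) (z : Ω) (hz : IsAlgebraic F z) : z ∈ W := by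
  obtain ⟨p, hp, h0⟩ := hz.isIntegral
  let φ : F →+* W := (algebraMap F Ω).codRestrict W.toSubring hF
  have h1 : IsIntegral W z := by
    refine ⟨p.map φ, hp.map φ, ?_⟩
    rw [Polynomial.eval₂_map, ← h0]
    congr 1
  obtain ⟨y, hy⟩ := IsIntegrallyClosed.isIntegral_iff.mp h1
  rw [← hy]
  exact y.2

variable {k Ω : Type} [Field k] [CharZero k] [Field Ω] [IsAlgClosed Ω] [Algebra k Ω] [Algebra (RatFunc k) Ω]
  [IsScalarTower k (RatFunc k) Ω] {S : Sec (RatFunc k) Ω} {k' : IntermediateField k Ω} {V : ValuationSubring Ω}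

theorem Loc.coarse_kt (hfin : FiniteDimensional k k') {a : Option k'} (h : Loc S k' a V) (r : Ω) (hr : r ∈ kt k') (h0 : r ≠ 0) :
    (coarse V (BSC.unif k' a)).valuation r = 1 := by
  have key : ∀ r ∈ kt k', r ≠ 0 → r ∈ coarse V (BSC.unif k' a) := by
    intro r hr h0
    obtain ⟨m, hm⟩ := h.kt_val hfin r hr h0
    exact mem_coarse_of_zpow V _ (unif_ne_zero k' hfin a) h.unif r m hm
  have hvr : 0 < (coarse V (BSC.unif k' a)).valuation r := zero_lt_iff.mpr ((Valuation.ne_zero_iff _).mpr h0)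
  apply le_antisymm
  · rw [ValuationSubring.valuation_le_one_iff]
    exact key r hr h0
  · have h1 := key r⁻¹ (inv_mem hr) (inv_ne_zero h0)
    rw [← ValuationSubring.valuation_le_one_iff, map_inv₀, inv_le_one₀ hvr] at h1
    exact h1

theorem Loc.coarse_alg (hfin : FiniteDimensional k k') {a : Option k'} (h : Loc S k' a V) (z : Ω) (hz : IsAlgebraic (RatFunc k) z)
    (h0 : z ≠ 0) : (coarse V (BSC.unif k' a)).valuation z = 1 := by
  have hF : ∀ c : RatFunc k, algebraMap (RatFunc k) Ω c ∈ coarse V (BSC.unif k' a) := by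
    intro c
    by_cases hc : c = 0
    · rw [hc, map_zero]
      exact zero_mem _
    · rw [← ValuationSubring.valuation_le_one_iff]
      exact (h.coarse_kt hfin _ ((kt k').algebraMap_mem c)
        (fun h => hc ((algebraMap (RatFunc k) Ω).injective (h.trans (map_zero _).symm)))).le
  have hvz : 0 < (coarse V (BSC.unif k' a)).valuation z := zero_lt_iff.mpr ((Valuation.ne_zero_iff _).mpr h0)
  apply le_antisymm
  · rw [ValuationSubring.valuation_le_one_iff]
    exact mem_of_algebraic _ hF z hz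
  · have h1 := mem_of_algebraic _ hF z⁻¹ hz.inv
    rw [← ValuationSubring.valuation_le_one_iff, map_inv₀, inv_le_one₀ hvz] at h1
    exact h1

end Q3

section Q4

variable {k Ω : Type} [Field k] [CharZero k] [Field Ω] [IsAlgClosed Ω] [Algebra k Ω] [Algebra (RatFunc k) Ω]
  [IsScalarTower k (RatFunc k) Ω] {k' : IntermediateField k Ω}

theorem Loc.ram_pow {S : Sec (RatFunc k) Ω} {V : ValuationSubring Ω} (hfin : FiniteDimensional k k') {a : Option k'}
    (h : Loc S k' a V) (j : ℕ) (m : ℤ) (w : Ω) (hw : w ∈ S.F k')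
    (hv : V.valuation (BSC.unif k' a) ^ m * V.valuation w ^ (2 ^ j) = 1) : (2 ^ j : ℤ) ∣ m := by
  induction j generalizing m with
  | zero => simp
  | succ j ih =>
    have hπ0 : BSC.unif k' a ≠ 0 := unif_ne_zero k' hfin a
    have hv0 : V.valuation (BSC.unif k' a) ≠ 0 := (Valuation.ne_zero_iff _).2 hπ0
    have hπF : BSC.unif k' a ∈ S.F k' := kt_le_F S k' hfin _ (unif_mem_kt k' a)
    rcases Int.even_or_odd' m with ⟨m', hm | hm⟩
    · have h1 : (V.valuation (BSC.unif k' a) ^ m' * V.valuation w ^ (2 ^ j)) ^ 2 = 1 := by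
        rw [← hv, mul_pow, ← pow_mul, ← pow_succ, hm, mul_comm 2 m', zpow_mul]
        rfl
      have h2 : V.valuation (BSC.unif k' a) ^ m' * V.valuation w ^ (2 ^ j) = 1 :=
        (pow_eq_one_iff.1 h1).resolve_right two_ne_zero
      obtain ⟨c, hc⟩ := ih m' h2
      exact ⟨c, by rw [hm, hc]; ring⟩
    · exfalso
      have h1 : BSC.unif k' a ^ m' * w ^ (2 ^ j) ∈ S.F k' := mul_mem (zpow_mem hπF m') (pow_mem hw _)
      apply h.ram _ h1
      rw [map_mul, map_pow, map_mul, map_pow, map_zpow₀, ← hv, mul_pow, ← pow_mul (V.valuation w), ← pow_succ,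
        hm, zpow_add₀ hv0, zpow_one, mul_comm 2 m', zpow_mul, ← mul_assoc,
        mul_comm (V.valuation (BSC.unif k' a))]
      rfl

theorem k2_poly (S : Sec (RatFunc k) Ω) (hfin : FiniteDimensional k k') (z : Ω) (hz : z ∈ S.F k') (h0 : z ≠ 0) :
    ∃ p : k'[X], Squarefree p ∧ ∃ w ∈ S.F k', w ≠ 0 ∧ z = aeval (tt k Ω) p * w ^ 2 := by
  classical
  have hF : ∀ p : k'[X], aeval (tt k Ω) p ∈ S.F k' := fun p => kt_le_F S k' hfin _ (aeval_mem_kt k' p)
  have hex : ∃ n : ℕ, ∃ p : k'[X], p ≠ 0 ∧ p.natDegree = n ∧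
      ∃ w ∈ S.F k', w ≠ 0 ∧ z = aeval (tt k Ω) p * w ^ 2 := by
    obtain ⟨c, hc, hc0, w, hw, hw0, e⟩ := k2 S (k' : Set Ω) (fun x hx => (level_alg k' hfin x hx).2) z hz h0
    obtain ⟨p, q, hq, hpq⟩ := kt_frac k' hfin c hc
    have hq0 : aeval (tt k Ω) q ≠ 0 := aeval_tt_ne k' hfin q hq
    have hp : p ≠ 0 := by
      rintro rfl
      apply hc0
      rw [hpq, map_zero, zero_div]
    refine ⟨_, p * q, mul_ne_zero hp hq, rfl, w / aeval (tt k Ω) q, div_mem hw (hF q), div_ne_zero hw0 hq0, ?_⟩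
    rw [e, hpq, map_mul]
    field_simp
  obtain ⟨p, hp0, hpn, w, hw, hw0, e⟩ := Nat.find_spec hex
  refine ⟨p, ?_, w, hw, hw0, e⟩
  rintro g ⟨r, hr⟩
  have hg0 : g ≠ 0 := by
    rintro rfl
    exact hp0 (by rw [hr]; ring)
  have hr0 : r ≠ 0 := by
    rintro rfl
    exact hp0 (by rw [hr]; ring)
  have h1 : Nat.find hex ≤ r.natDegree := by
    refine Nat.find_min' hex ⟨r, hr0, rfl, aeval (tt k Ω) g * w, mul_mem (hF g) hw,
      mul_ne_zero (aeval_tt_ne k' hfin g hg0) hw0, ?_⟩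
    rw [e, hr, map_mul, map_mul]
    ring
  have h2 : p.natDegree = g.natDegree + g.natDegree + r.natDegree := by
    rw [hr, natDegree_mul (mul_ne_zero hg0 hg0) hr0, natDegree_mul hg0 hg0]
  have h3 : g.natDegree = 0 := by omega
  rw [Polynomial.isUnit_iff_degree_eq_zero, Polynomial.degree_eq_natDegree hg0, h3]
  rfl

theorem k2_pow (S : Sec (RatFunc k) Ω) (hfin : FiniteDimensional k k') (j : ℕ) (z : Ω) (hz : z ∈ S.F k') (h0 : z ≠ 0) :
    ∃ p : k'[X], p ≠ 0 ∧ ∃ w ∈ S.F k', w ≠ 0 ∧ z = aeval (tt k Ω) p * w ^ (2 ^ j) := by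
  induction j with
  | zero => exact ⟨1, one_ne_zero, z, hz, h0, by simp⟩
  | succ j ih =>
    obtain ⟨p, hp, w, hw, hw0, e⟩ := ih
    obtain ⟨q, hq, u, hu, hu0, e'⟩ := k2_poly S hfin w hw hw0
    refine ⟨p * q ^ (2 ^ j), mul_ne_zero hp (pow_ne_zero _ hq.ne_zero), u, hu, hu0, ?_⟩
    rw [map_mul, map_pow, pow_succ 2 j, mul_comm (2 ^ j) 2, pow_mul u, mul_assoc, ← mul_pow, ← e']
    exact e

end Q4

section Q5

variable {k Ω : Type} [Field k] [CharZero k] [Field Ω] [IsAlgClosed Ω] [Algebra k Ω] [Algebra (RatFunc k) Ω]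
  [IsScalarTower k (RatFunc k) Ω]

theorem Sys.desc (Y : Sys k Ω) (k' : IntermediateField k Ω) (hk : Y.k0 ≤ k') (hfin : FiniteDimensional k k') (z : Ω)
    (hz : z ∈ Y.S.F k') (h0 : z ≠ 0) (A : Finset k')
    (hev : ∀ k'' : IntermediateField k Ω, k' ≤ k'' → FiniteDimensional k k'' → ∀ α : k'', (∀ β ∈ A, (β : Ω) ≠ (α : Ω)) →
      ∃ w ∈ Y.S.F k'', (Y.V k'' (some α)).valuation (z * w ^ 2) = 1) :
    ∃ ε : k', ε ≠ 0 ∧ ∃ B ⊆ A, ∃ w ∈ Y.S.F k', w ≠ 0 ∧ z = (ε : Ω) * (∏ α ∈ B, (tt k Ω - (α : Ω))) * w ^ 2 := by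
  classical
  obtain ⟨p, hp, w0, hw0, hw00, hzw⟩ := k2_poly Y.S hfin z hz h0
  have hp0 : p ≠ 0 := hp.ne_zero
  have hsep : p.Separable := PerfectField.separable_iff_squarefree.2 hp
  -- the roots of `p` lie in `A`
  have hroot : ∀ α : Ω, aeval α p = 0 → ∃ β ∈ A, (β : Ω) = α := by
    intro α hα
    by_contra hcon
    push Not at hcon
    have := hfin
    have halg' : IsAlgebraic k' α := ⟨p, hp0, hα⟩
    have halg : IsAlgebraic k α := halg'.restrictScalars k
    obtain ⟨k'', hk'', hfin'', hA''⟩ := exists_level k' hfin {α} (Set.finite_singleton α) (by simpa using halg)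
    have hα'' : α ∈ k'' := hA'' rfl
    set ι : k' →+* k'' := (IntermediateField.inclusion hk'').toRingHom with hι
    have hmap : ∀ x : Ω, aeval x (p.map ι) = aeval x p := by
      intro x
      rw [aeval_def, aeval_def, eval₂_map]
      rfl
    have hq0 : p.map ι ≠ 0 := (Polynomial.map_ne_zero_iff ι.injective).2 hp0
    have hqr : (p.map ι).eval (⟨α, hα''⟩ : k'') = 0 := by
      have h1 : algebraMap k'' Ω ((p.map ι).eval (⟨α, hα''⟩ : k'')) = aeval α (p.map ι) := by
        rw [← aeval_algebraMap_apply_eq_algebraMap_eval]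
        rfl
      rw [hmap, hα] at h1
      exact (map_eq_zero (algebraMap k'' Ω)).1 h1
    have hm : (p.map ι).rootMultiplicity (⟨α, hα''⟩ : k'') = 1 :=
      le_antisymm (rootMultiplicity_le_one_of_separable hsep.map _)
        ((rootMultiplicity_pos hq0).2 hqr)
    have hL := Y.loc k'' (hk.trans hk'') hfin'' (some ⟨α, hα''⟩)
    have hval := hL.poly_val (p.map ι) hq0
    rw [hm, pow_one, hmap] at hval
    obtain ⟨w1, hw1, hv1⟩ := hev k'' hk'' hfin'' ⟨α, hα''⟩ hcon
    refine hL.ram (w0 * w1) (mul_mem (Y.S.F_mono (show (k' : Set Ω) ⊆ k'' from hk'') hw0) hw1) ?_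
    rw [map_mul, ← hval, ← map_mul, ← hv1]
    congr 1
    rw [hzw]
    ring
  refine ⟨p.leadingCoeff, leadingCoeff_ne_zero.2 hp0, A.filter fun β => p.eval β = 0, Finset.filter_subset _ _,
    w0, hw0, hw00, ?_⟩
  have hq : (p.map (algebraMap k' Ω)).roots =
      Multiset.map (fun β : k' => (β : Ω)) (A.filter fun β => p.eval β = 0).val := by
    have hn1 : (p.map (algebraMap k' Ω)).roots.Nodup := nodup_roots hsep.map
    have hn2 : (Multiset.map (fun β : k' => (β : Ω)) (A.filter fun β => p.eval β = 0).val).Nodup :=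
      Multiset.Nodup.map Subtype.val_injective (A.filter fun β => p.eval β = 0).nodup
    refine (Multiset.Nodup.ext hn1 hn2).2 fun x => ?_
    rw [mem_roots ((Polynomial.map_ne_zero_iff (algebraMap k' Ω).injective).2 hp0), IsRoot.def, eval_map_algebraMap,
      Multiset.mem_map]
    constructor
    · intro hx
      obtain ⟨β, hβ, rfl⟩ := hroot x hx
      refine ⟨β, ?_, rfl⟩
      rw [Finset.mem_val, Finset.mem_filter]
      refine ⟨hβ, ?_⟩
      have h1 := aeval_algebraMap_apply_eq_algebraMap_eval (A := Ω) β p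
      have h2 : algebraMap k' Ω (p.eval β) = 0 := by
        rw [← h1]
        exact hx
      exact (map_eq_zero (algebraMap k' Ω)).1 h2
    · rintro ⟨β, hβ, rfl⟩
      rw [Finset.mem_val, Finset.mem_filter] at hβ
      have h1 := aeval_algebraMap_apply_eq_algebraMap_eval (A := Ω) β p
      rw [hβ.2, map_zero] at h1
      exact h1
  have h2 : aeval (tt k Ω) p = ((p.leadingCoeff : k') : Ω) *
      ∏ α ∈ A.filter fun β => p.eval β = 0, (tt k Ω - (α : Ω)) := by
    rw [← eval_map_algebraMap, (IsAlgClosed.splits (p.map (algebraMap k' Ω))).eval_eq_prod_roots, hq,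
      leadingCoeff_map, Multiset.map_map]
    rfl
  rw [hzw, h2]

end Q5

end BSC
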