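import Pool.Agent.Lib_MP_49ddc8.Des

/-!
# [BSC-S1] .. [BSC-S4]  Steps I, II, III

`t = tt k Ω`, `|z|_{k',a}` the valuation of `Y.V k' a`, `F k' = Y.S.F k'`.

[BSC-S1] `Pt.neg`: at a place with uniformiser `t^(±1)` (`a = some 0` or `none`): if `|x₀| ≤ 1` then one of `x₀ - e₁`, `x₀ - e₂` is a unit (their difference is), so `|t| = |r|²`, contradiction to `ram` (for `none`: `|t⁻¹ r²| = 1`).
`Pt.even_neg`: place `α ≠ 0`: if `|x₀| > 1` then `|x₀ - b| = |x₀ - e₁|` for every `b` with `|b| ≤ 1`, and `(x₀ - e₁) r₁⁻² = t⁻¹` is a unit.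
`Pt.stepI`: `c ∈ k'`, `c ≠ e_i`, not periodic: `z = x₀ - c ≠ 0`.  At every `(k'', α)`, `α ≠ 0`, `z` is even: `|x₀| > 1`: `even_neg`; `|x₀| ≤ 1`: `|x₀ - c| < 1` would make `c` periodic (`spec`), so `w = 1`.  By `Sys.desc` (`A = {0}`) `z = ε t^i w²`.  At `(k', 0)`: `|x₀| > 1`, `(x₀ - c)/(x₀ - e₁) ∈ 1 + 𝔪`, so
`ε t^(i+1) (w/r₁)² ∈ 1 + 𝔪`; `i = 0` contradicts `ram`, so `i = 1`, and `ε` is a square in `k'` (`pin`).

[BSC-S2] `Pt.good`: in every level `k' ⊇ k0` all but finitely many `c` are good (`c ≠ e_i`, not periodic), `k'` is infinite.  `Pt.stepII`: suppose `|x₀ - c| < 1` at `(k', α)`, `α ≠ 0`, `c ∈ k'`.  Take `c₀ ∈ k0` good; `c ≠ c₀` (otherwise `c₀` is periodic by `spec`); `d = 1/(c - c₀) ∈ k'`.  For a nonsquare `n ∈ k'` and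
`q ∈ ℚ^×` the element `n q²` is a nonsquare, so there is a nonsquare `n'` with `c' = c₀ + (1 - n')(c - c₀)` good.  By `stepI` `(x₀ - c')/(x₀ - c₀) = (r/r₀)²` is a square in `F k'`, and it is `≡ (c - c')/(c - c₀) = n'` mod `𝔪`; `pin` (`n'⁻¹ (r/r₀)² ∈ 1 + 𝔪`) makes `n'` a square, contradiction.

[BSC-S3] `Pt.cls`: `c₀ ∈ k0` good, `b = c₀ + β π⁻ᵐ`, `π = unif k' a`, `β ∈ k'`.  Claim: `t (x₀ - b)` is a square in `F k'`.  `x₀ ≠ b` as `x₀` is transcendental over `RatFunc k`, `b` algebraic.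
Places `(k'', α')`, `α' ≠ 0`, `α' ≠ α` (when `a = some α`): `|b| ≤ 1` and `|b - c| < 1` for some `c ∈ k''` (`b` is a polynomial in `t` divided by a polynomial which does not vanish at `α'`); `|x₀| > 1`: `even_neg`; `|x₀| ≤ 1`: `|x₀ - c| = 1` by `stepII`, so `|x₀ - b| = 1`.
`Sys.desc` with `A = {0, α}` (resp. `{0}`): `x₀ - b = ε t^i (t - α)^l w²`.
Case `a = some α`, `α ≠ 0`: at `(k', 0)` and `(k', none)` `|b| ≤ 1 < |x₀|` (`neg`), so `(x₀ - b)/(x₀ - e₁) ∈ 1 + 𝔪`: `ε t^(i+1) (t - α)^l (w/r₁)² ∈ 1 + 𝔪`.  At `0`: `|t - α| = 1`, so `i = 1` (`ram`); at infinity `|t - α| = |t|`, so `i + 1 + l` is even: `l = 0`.  Then `ε (t w/r₁)² ∈ 1 + 𝔪` at `0`, `ε` is a square (`pin`).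
Case `a = some 0` (`l = 0`): the same at `none` only (`|b| ≤ 1` there).  Case `a = none` (`l = 0`): the same at `some 0` only.

[BSC-S4] `Pt.stepIII`: `ξ = (x₀ - c₀)⁻¹`, `π = unif k' a`.  For `β ∈ k'`, `m ≥ 1`: `1 - β π⁻ᵐ ξ = (x₀ - b)/(x₀ - c₀)` is a square in `F k'` (`cls` and `stepI` / `cls` with `β = 0`).  If `|π⁻ᵐ ξ| > 1` for some `m`: for `β ≠ 0` `1 - β π⁻ᵐ ξ ∈ -β π⁻ᵐ ξ (1 + 𝔪)`; take `β = 1` and `β = n` a nonsquare: the quotient is a square in
`n (1 + 𝔪)`, so `n` is a square in `k'` by `pin`.  Contradiction; so `|ξ| ≤ |π^m|` for all `m`, i.e. `(Y.U k' a).valuation ξ < 1` (`coarse_lt_one`).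
-/

set_option autoImplicit false

open Polynomial

namespace BSC

variable {k Ω : Type} [Field k] [CharZero k] [Field Ω] [IsAlgClosed Ω] [Algebra k Ω] [Algebra (RatFunc k) Ω]
  [IsScalarTower k (RatFunc k) Ω]

/-- the point `x₀` with its properties -/
structure Pt (Y : Sys k Ω) (x₀ e₁ e₂ e₃ : Ω) : Prop where
  mem : x₀ ∈ Y.S.F Y.k0
  h1 : e₁ ∈ Y.k0
  h2 : e₂ ∈ Y.k0
  h3 : e₃ ∈ Y.k0
  h12 : e₁ ≠ e₂
  h13 : e₁ ≠ e₃
  h23 : e₂ ≠ e₃
  sq1 : ∃ r ∈ Y.S.F Y.k0, tt k Ω * (x₀ - e₁) = r ^ 2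
  sq2 : ∃ r ∈ Y.S.F Y.k0, tt k Ω * (x₀ - e₂) = r ^ 2
  spec : ∀ k' : IntermediateField k Ω, Y.k0 ≤ k' → FiniteDimensional k k' → ∀ α : k', α ≠ 0 → ∀ c ∈ k',
    c ≠ e₁ → c ≠ e₂ → c ≠ e₃ → (Y.V k' (some α)).valuation (x₀ - c) < 1 → ∃ n : ℕ, 1 ≤ n ∧ (DD e₁ e₂ e₃)^[n] c = c
  fin : ∀ k' : IntermediateField k Ω, Y.k0 ≤ k' → FiniteDimensional k k' →
    {c : Ω | c ∈ k' ∧ ∃ n : ℕ, 1 ≤ n ∧ (DD e₁ e₂ e₃)^[n] c = c}.Finite
  tr : Transcendental (RatFunc k) x₀
  nsq : ∀ k' : IntermediateField k Ω, Y.k0 ≤ k' → FiniteDimensional k k' → ∃ n ∈ k', ¬ ∃ d ∈ k', n = d ^ 2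

/-- good constants -/
def Good {Ω : Type} [Field Ω] (e₁ e₂ e₃ c : Ω) : Prop :=
  c ≠ e₁ ∧ c ≠ e₂ ∧ c ≠ e₃ ∧ ¬ ∃ n : ℕ, 1 ≤ n ∧ (DD e₁ e₂ e₃)^[n] c = c

variable {Y : Sys k Ω} {x₀ e₁ e₂ e₃ : Ω}

private theorem S1_mono (Y : Sys k Ω) {k' : IntermediateField k Ω} (hk : Y.k0 ≤ k') {z : Ω} (hz : z ∈ Y.S.F Y.k0) :
    z ∈ Y.S.F k' := Y.S.F_mono (SetLike.coe_subset_coe.2 hk) hz

private theorem S1_tt0 : tt k Ω ≠ 0 := (map_ne_zero (algebraMap (RatFunc k) Ω)).2 RatFunc.X_ne_zero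

private theorem S1_ttF (S : Sec (RatFunc k) Ω) (k' : IntermediateField k Ω) (hfin : FiniteDimensional k k') :
    tt k Ω ∈ S.F k' := kt_le_F S k' hfin _ ((kt k').algebraMap_mem _)

private theorem S1_constF (S : Sec (RatFunc k) Ω) (k' : IntermediateField k Ω) (hfin : FiniteDimensional k k') {c : Ω}
    (hc : c ∈ k') : c ∈ S.F k' := kt_le_F S k' hfin _ (IntermediateField.subset_adjoin _ _ hc)

/-- for `|x₀| > 1`, `|b| ≤ 1`: `|x₀ - b| = |x₀|` -/
private theorem S1_sub {Ω : Type} [Field Ω] (V : ValuationSubring Ω) {x b : Ω} (hx : x ∉ V) (hb : b ∈ V) :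
    1 < V.valuation x ∧ V.valuation (x - b) = V.valuation x := by
  have h1 : 1 < V.valuation x := by
    rw [← not_le, V.valuation_le_one_iff]
    exact hx
  refine ⟨h1, V.valuation.map_sub_eq_of_lt_left ?_⟩
  exact ((V.valuation_le_one_iff b).2 hb).trans_lt h1

/-- one of two elements with unit difference is a unit -/
private theorem S1_unit {Ω : Type} [Field Ω] (V : ValuationSubring Ω) {x b c : Ω} (hx : x ∈ V) (hb : b ∈ V) (hc : c ∈ V)
    (h : V.valuation (b - c) = 1) : V.valuation (x - b) = 1 ∨ V.valuation (x - c) = 1 := by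
  by_contra hcon
  push Not at hcon
  have h1 : V.valuation (x - b) < 1 := lt_of_le_of_ne ((V.valuation_le_one_iff _).2 (sub_mem hx hb)) hcon.1
  have h2 : V.valuation (x - c) < 1 := lt_of_le_of_ne ((V.valuation_le_one_iff _).2 (sub_mem hx hc)) hcon.2
  have h3 : V.valuation (b - c) < 1 := by
    have h4 : b - c = (x - c) - (x - b) := by ring
    rw [h4]
    exact V.valuation.map_sub_lt h2 h1
  rw [h] at h3
  exact lt_irrefl _ h3

private theorem S1_negaux (P : Pt Y x₀ e₁ e₂ e₃) (k' : IntermediateField k Ω) (hk : Y.k0 ≤ k')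
    (hfin : FiniteDimensional k k') (a : Option k') (hx : x₀ ∈ Y.V k' a) :
    ∃ r ∈ Y.S.F k', (Y.V k' a).valuation (tt k Ω) = (Y.V k' a).valuation r ^ 2 ∧ r ≠ 0 := by
  have hl := Y.loc k' hk hfin a
  have h1 := hk P.h1
  have h2 := hk P.h2
  have hd : (Y.V k' a).valuation (e₁ - e₂) = 1 :=
    hl.val_const _ (sub_mem h1 h2) (sub_ne_zero.2 P.h12)
  have key : ∀ e : Ω, (∃ r ∈ Y.S.F Y.k0, tt k Ω * (x₀ - e) = r ^ 2) → (Y.V k' a).valuation (x₀ - e) = 1 →
      ∃ r ∈ Y.S.F k', (Y.V k' a).valuation (tt k Ω) = (Y.V k' a).valuation r ^ 2 ∧ r ≠ 0 := by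
    rintro e ⟨r, hr, hr2⟩ he
    have h3 : (Y.V k' a).valuation (tt k Ω) = (Y.V k' a).valuation r ^ 2 := by
      rw [← map_pow, ← hr2, map_mul, he, mul_one]
    refine ⟨r, S1_mono Y hk hr, h3, ?_⟩
    rintro rfl
    rw [map_zero, zero_pow two_ne_zero, Valuation.zero_iff] at h3
    exact S1_tt0 h3
  rcases S1_unit (Y.V k' a) hx (hl.const _ h1) (hl.const _ h2) hd with h | h
  · exact key e₁ P.sq1 h
  · exact key e₂ P.sq2 h

theorem Pt.neg (P : Pt Y x₀ e₁ e₂ e₃) (k' : IntermediateField k Ω) (hk : Y.k0 ≤ k') (hfin : FiniteDimensional k k') :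
    x₀ ∉ Y.V k' (some 0) ∧ x₀ ∉ Y.V k' none := by
  constructor
  · intro hx
    obtain ⟨r, hr, hv, hr0⟩ := S1_negaux P k' hk hfin _ hx
    refine (Y.loc k' hk hfin (some 0)).ram r⁻¹ (inv_mem hr) ?_
    have h1 : unif k' (some 0) = tt k Ω := by
      show tt k Ω - ((0 : k') : Ω) = tt k Ω
      simp
    have hvr : (Y.V k' (some 0)).valuation r ≠ 0 := (Valuation.ne_zero_iff _).2 hr0
    rw [h1, map_mul, map_pow, map_inv₀, hv, inv_pow, mul_inv_cancel₀ (pow_ne_zero 2 hvr)]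
  · intro hx
    obtain ⟨r, hr, hv, hr0⟩ := S1_negaux P k' hk hfin _ hx
    refine (Y.loc k' hk hfin none).ram r hr ?_
    have h1 : unif k' (none : Option k') = (tt k Ω)⁻¹ := rfl
    have hvr : (Y.V k' none).valuation r ≠ 0 := (Valuation.ne_zero_iff _).2 hr0
    rw [h1, map_mul, map_pow, map_inv₀, hv, inv_mul_cancel₀ (pow_ne_zero 2 hvr)]

theorem Pt.even_neg (P : Pt Y x₀ e₁ e₂ e₃) (k' : IntermediateField k Ω) (hk : Y.k0 ≤ k') (hfin : FiniteDimensional k k')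
    (α : k') (hα : α ≠ 0) (hneg : x₀ ∉ Y.V k' (some α)) (b : Ω) (hb : b ∈ Y.V k' (some α)) :
    ∃ w ∈ Y.S.F k', (Y.V k' (some α)).valuation ((x₀ - b) * w ^ 2) = 1 := by
  have hl := Y.loc k' hk hfin (some α)
  have h1 := hl.const _ (hk P.h1)
  obtain ⟨r, hr, hr2⟩ := P.sq1
  have ht : (Y.V k' (some α)).valuation (tt k Ω) = 1 := by
    have h2 := hl.poly_unit (X : k'[X]) (by rw [eval_X]; exact hα)
    rwa [aeval_X] at h2
  have hb1 := S1_sub _ hneg hb
  have he1 := S1_sub _ hneg h1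
  have h3 : (Y.V k' (some α)).valuation (x₀ - b) = (Y.V k' (some α)).valuation r ^ 2 := by
    rw [← map_pow, ← hr2, map_mul, ht, one_mul, he1.2, hb1.2]
  have hvr : (Y.V k' (some α)).valuation r ^ 2 ≠ 0 := by
    rw [← h3, hb1.2]
    exact (zero_lt_one.trans hb1.1).ne'
  refine ⟨r⁻¹, inv_mem (S1_mono Y hk hr), ?_⟩
  rw [map_mul, map_pow, map_inv₀, h3, inv_pow, mul_inv_cancel₀ hvr]

theorem Pt.stepI (P : Pt Y x₀ e₁ e₂ e₃) (k' : IntermediateField k Ω) (hk : Y.k0 ≤ k') (hfin : FiniteDimensional k k')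
    (c : Ω) (hc : c ∈ k') (hg : Good e₁ e₂ e₃ c) : ∃ r ∈ Y.S.F k', tt k Ω * (x₀ - c) = r ^ 2 := by
  have hx0 : x₀ ∈ Y.S.F k' := S1_mono Y hk P.mem
  have hcF : c ∈ Y.S.F k' := S1_constF Y.S k' hfin hc
  have hz0 : x₀ - c ≠ 0 := by
    intro h
    rw [sub_eq_zero] at h
    exact P.tr (h ▸ (level_alg k' hfin c hc).2)
  obtain ⟨ε, hε, B, hB, w, hw, hw0, hz⟩ := Y.desc k' hk hfin (x₀ - c) (sub_mem hx0 hcF) hz0 {0} (by
    intro k'' hk'' hfin'' α hα
    have hk2 : Y.k0 ≤ k'' := hk.trans hk''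
    have hα0 : α ≠ 0 := by
      rintro rfl
      exact hα 0 (Finset.mem_singleton_self _) (by simp)
    have hcV : c ∈ Y.V k'' (some α) := (Y.loc k'' hk2 hfin'' (some α)).const _ (hk'' hc)
    by_cases hx : x₀ ∈ Y.V k'' (some α)
    · refine ⟨1, one_mem _, ?_⟩
      rw [one_pow, mul_one]
      by_contra hne
      have hlt : (Y.V k'' (some α)).valuation (x₀ - c) < 1 :=
        lt_of_le_of_ne (((Y.V k'' (some α)).valuation_le_one_iff _).2 (sub_mem hx hcV)) hne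
      exact hg.2.2.2 (P.spec k'' hk2 hfin'' α hα0 c (hk'' hc) hg.1 hg.2.1 hg.2.2.1 hlt)
    · exact P.even_neg k'' hk2 hfin'' α hα0 hx c hcV)
  have hl := Y.loc k' hk hfin (some 0)
  have hneg := (P.neg k' hk hfin).1
  have he1V := hl.const _ (hk P.h1)
  have hcV := hl.const _ hc
  obtain ⟨r₁, hr₁, hr₁2⟩ := P.sq1
  have hr₁F : r₁ ∈ Y.S.F k' := S1_mono Y hk hr₁
  have he1 := S1_sub _ hneg he1V
  have hc1 := S1_sub _ hneg hcV
  have hxe0 : x₀ - e₁ ≠ 0 := by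
    intro h
    have h2 := he1.1
    rw [← he1.2, h, map_zero] at h2
    exact not_lt_zero' h2
  have hr₁0 : r₁ ≠ 0 := by
    rintro rfl
    rw [zero_pow two_ne_zero] at hr₁2
    exact (mul_ne_zero S1_tt0 hxe0) hr₁2
  have hq1 : (Y.V k' (some 0)).valuation ((x₀ - c) / (x₀ - e₁)) = 1 := by
    rw [map_div₀, he1.2, hc1.2, div_self]
    exact (zero_lt_one.trans he1.1).ne'
  have hq2 : (Y.V k' (some 0)).valuation ((x₀ - c) / (x₀ - e₁) - 1) < 1 := by
    have h1 : (x₀ - c) / (x₀ - e₁) - 1 = (e₁ - c) / (x₀ - e₁) := by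
      field_simp
      ring
    rw [h1, map_div₀, he1.2]
    rw [div_lt_one₀ (zero_lt_one.trans he1.1)]
    exact (((Y.V k' (some 0)).valuation_le_one_iff _).2 (sub_mem he1V hcV)).trans_lt he1.1
  have hunif : unif k' (some 0) = tt k Ω := by
    show tt k Ω - ((0 : k') : Ω) = tt k Ω
    simp
  have hxe : x₀ - e₁ = r₁ ^ 2 / tt k Ω := by
    rw [← hr₁2]
    field_simp [S1_tt0 (k := k) (Ω := Ω)]
  have hε0 : (ε : Ω) ≠ 0 := by
    intro h
    exact hε (Subtype.ext h)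
  rcases Finset.subset_singleton_iff.1 hB with hB | hB
  · exfalso
    subst hB
    rw [Finset.prod_empty, mul_one] at hz
    refine hl.ram (w / r₁) (div_mem hw hr₁F) ?_
    have h1 : (x₀ - c) / (x₀ - e₁) = (ε : Ω) * (unif k' (some 0) * (w / r₁) ^ 2) := by
      rw [hz, hxe, hunif]
      have := S1_tt0 (k := k) (Ω := Ω)
      field_simp
    rw [h1, map_mul, hl.val_const _ ε.2 hε0, one_mul] at hq1
    exact hq1
  · subst hB
    have hprod : ∏ α ∈ ({0} : Finset k'), (tt k Ω - (α : Ω)) = tt k Ω := by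
      rw [Finset.prod_singleton]
      simp
    rw [hprod] at hz
    obtain ⟨d, hd, hd2⟩ := hl.pin (ε : Ω) ε.2 (tt k Ω * w / r₁) (div_mem (mul_mem (S1_ttF Y.S k' hfin) hw) hr₁F) (by
      have h1 : (ε : Ω) * (tt k Ω * w / r₁) ^ 2 = (x₀ - c) / (x₀ - e₁) := by
        rw [hz, hxe]
        have := S1_tt0 (k := k) (Ω := Ω)
        field_simp
      rw [h1]
      exact hq2)
    refine ⟨d * tt k Ω * w, mul_mem (mul_mem (S1_constF Y.S k' hfin hd) (S1_ttF Y.S k' hfin)) hw, ?_⟩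
    rw [hz, hd2]
    ring

theorem Pt.good (P : Pt Y x₀ e₁ e₂ e₃) (k' : IntermediateField k Ω) (hk : Y.k0 ≤ k') (hfin : FiniteDimensional k k') :
    {c : Ω | c ∈ k' ∧ ¬ Good e₁ e₂ e₃ c}.Finite ∧ ∃ c ∈ k', Good e₁ e₂ e₃ c := by
  have hf3 : ({e₁, e₂, e₃} : Set Ω).Finite := Set.toFinite _
  have hf : {c : Ω | c ∈ k' ∧ ¬ Good e₁ e₂ e₃ c}.Finite := by
    refine (hf3.union (P.fin k' hk hfin)).subset ?_
    rintro c ⟨hc, hg⟩
    by_cases h1 : c = e₁
    · left; simp [h1]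
    by_cases h2 : c = e₂
    · left; simp [h2]
    by_cases h3 : c = e₃
    · left; simp [h3]
    right
    refine ⟨hc, ?_⟩
    by_contra h4
    exact hg ⟨h1, h2, h3, h4⟩
  refine ⟨hf, ?_⟩
  by_contra hcon
  have : CharZero Ω := charZero_of_injective_algebraMap (algebraMap k Ω).injective
  have hinj : Function.Injective (fun n : ℕ => (n : Ω)) := Nat.cast_injective
  refine (Set.infinite_range_of_injective hinj) (hf.subset ?_)
  rintro _ ⟨n, rfl⟩
  exact ⟨natCast_mem k' n, fun hg => hcon ⟨_, natCast_mem k' n, hg⟩⟩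

theorem Pt.stepII (P : Pt Y x₀ e₁ e₂ e₃) (k' : IntermediateField k Ω) (hk : Y.k0 ≤ k') (hfin : FiniteDimensional k k')
    (α : k') (hα : α ≠ 0) (c : Ω) (hc : c ∈ k') : ¬ (Y.V k' (some α)).valuation (x₀ - c) < 1 := by
  intro hv
  have : CharZero Ω := charZero_of_injective_algebraMap (algebraMap k Ω).injective
  have hL := Y.loc k' hk hfin (some α)
  obtain ⟨c₀, hc₀0, hg₀⟩ := (P.good Y.k0 le_rfl Y.fin0).2
  have hc₀ : c₀ ∈ k' := hk hc₀0
  have hne : c ≠ c₀ := by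
    rintro rfl
    exact hg₀.2.2.2 (P.spec k' hk hfin α hα c hc hg₀.1 hg₀.2.1 hg₀.2.2.1 hv)
  have hd0 : c - c₀ ≠ 0 := sub_ne_zero.2 hne
  obtain ⟨n, hn, hnsq⟩ := P.nsq k' hk hfin
  have hn0 : n ≠ 0 := by
    rintro rfl
    exact hnsq ⟨0, k'.zero_mem, by ring⟩
  have hsk : ∀ q : ℕ, ((q : Ω) + 1) ∈ k' := fun q => add_mem (natCast_mem k' q) k'.one_mem
  have hck : ∀ q : ℕ, c₀ + (1 - n * ((q : Ω) + 1) ^ 2) * (c - c₀) ∈ k' := fun q =>
    add_mem hc₀ (mul_mem (sub_mem k'.one_mem (mul_mem hn (pow_mem (hsk q) 2))) (sub_mem hc hc₀))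
  have hq : ∃ q : ℕ, Good e₁ e₂ e₃ (c₀ + (1 - n * ((q : Ω) + 1) ^ 2) * (c - c₀)) := by
    by_contra hcon
    refine (Set.infinite_range_of_injective
      (f := fun q : ℕ => c₀ + (1 - n * ((q : Ω) + 1) ^ 2) * (c - c₀)) ?_) ((P.good k' hk hfin).1.subset ?_)
    · intro a b hab
      have h1 : (1 - n * ((a : Ω) + 1) ^ 2) * (c - c₀) = (1 - n * ((b : Ω) + 1) ^ 2) * (c - c₀) :=
        add_left_cancel hab
      have h2 : 1 - n * ((a : Ω) + 1) ^ 2 = 1 - n * ((b : Ω) + 1) ^ 2 := mul_right_cancel₀ hd0 h1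
      have h3 : n * ((a : Ω) + 1) ^ 2 = n * ((b : Ω) + 1) ^ 2 := by linear_combination -h2
      have h4 : ((a : Ω) + 1) ^ 2 = ((b : Ω) + 1) ^ 2 := mul_left_cancel₀ hn0 h3
      have h5 : (a + 1) ^ 2 = (b + 1) ^ 2 := by exact_mod_cast h4
      have h6 : a + 1 = b + 1 := Nat.pow_left_injective (n := 2) (by norm_num) h5
      omega
    · rintro _ ⟨q, rfl⟩
      exact ⟨hck q, fun hg => hcon ⟨q, hg⟩⟩
  obtain ⟨q, hgq⟩ := hq
  have hs0 : (q : Ω) + 1 ≠ 0 := by exact_mod_cast Nat.succ_ne_zero q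
  obtain ⟨r, hr, hrr⟩ := P.stepI k' hk hfin _ (hck q) hgq
  obtain ⟨r₀, hr₀, hrr₀⟩ := P.stepI k' hk hfin c₀ hc₀ hg₀
  generalize hs : (q : Ω) + 1 = s at *
  have hsk' : s ∈ k' := hs ▸ hsk q
  have hn'0 : n * s ^ 2 ≠ 0 := mul_ne_zero hn0 (pow_ne_zero 2 hs0)
  have hn'k : (n * s ^ 2)⁻¹ ∈ k' := inv_mem (mul_mem hn (pow_mem hsk' 2))
  have ht : tt k Ω ≠ 0 := by
    have h1 := aeval_tt_ne (Ω := Ω) k' hfin X X_ne_zero
    rwa [aeval_X] at h1
  have hcc : (Y.V k' (some α)).valuation (c - c₀) = 1 := hL.val_const (c - c₀) (sub_mem hc hc₀) hd0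
  have hxc : (Y.V k' (some α)).valuation (x₀ - c₀) = 1 := by
    have e : x₀ - c₀ = (x₀ - c) + (c - c₀) := by ring
    rw [e, Valuation.map_add_eq_of_lt_right _ (by rw [hcc]; exact hv), hcc]
  have hx0 : x₀ - c₀ ≠ 0 := by
    intro h
    rw [h, map_zero] at hxc
    exact zero_ne_one hxc
  have hr₀0 : r₀ ≠ 0 := by
    rintro rfl
    exact mul_ne_zero ht hx0 (by rw [hrr₀]; ring)
  have key : (n * s ^ 2)⁻¹ * (r / r₀) ^ 2 - 1 = ((n * s ^ 2)⁻¹ - 1) * (x₀ - c) / (x₀ - c₀) := by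
    rw [div_pow, ← hrr, ← hrr₀]
    field_simp
    ring
  have hlt : (Y.V k' (some α)).valuation ((n * s ^ 2)⁻¹ * (r / r₀) ^ 2 - 1) < 1 := by
    rw [key, map_div₀, hxc, div_one, map_mul]
    refine mul_lt_one_of_nonneg_of_lt_one_right ?_ zero_le' hv
    exact (ValuationSubring.valuation_le_one_iff _ _).2 (sub_mem (hL.const _ hn'k) (one_mem _))
  obtain ⟨d, hd, hdd⟩ := hL.pin _ hn'k _ (div_mem hr hr₀) hlt
  have hd0' : d ≠ 0 := by
    rintro rfl
    exact inv_ne_zero hn'0 (by rw [hdd]; ring)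
  refine hnsq ⟨d⁻¹ / s, div_mem (inv_mem hd) hsk', ?_⟩
  have h7 : n * s ^ 2 = (d⁻¹) ^ 2 := by rw [inv_pow, ← hdd, inv_inv]
  rw [div_pow, ← h7]
  field_simp

theorem cls_pow_sub {Ω : Type} [Field Ω] (V : ValuationSubring Ω) (x y : Ω) (hx : x ∈ V) (hy : y ∈ V) (h : V.valuation (x - y) < 1) (m : ℕ) :
    V.valuation (x ^ m - y ^ m) < 1 := by
  have h1 : ((⟨x, hx⟩ : V) - ⟨y, hy⟩) ∣ (⟨x, hx⟩ : V) ^ m - (⟨y, hy⟩ : V) ^ m := sub_dvd_pow_sub_pow _ _ m
  obtain ⟨s, hs⟩ := h1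
  have h2 : x ^ m - y ^ m = (x - y) * (s : Ω) := by
    have := congrArg (fun z : V => (z : Ω)) hs
    simpa using this
  rw [h2, map_mul]
  have h3 : V.valuation (s : Ω) ≤ 1 := (V.valuation_le_one_iff _).2 s.2
  calc V.valuation (x - y) * V.valuation (s : Ω) ≤ V.valuation (x - y) * 1 := mul_le_mul_right h3 _
    _ < 1 := by rwa [mul_one]

theorem cls_unit_of {Ω : Type} [Field Ω] (V : ValuationSubring Ω) (x y : Ω) (hx : V.valuation x = 1) (h : V.valuation (x - y) < 1) : V.valuation y = 1 := by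
  have : y = x - (x - y) := by ring
  rw [this, Valuation.map_sub_eq_of_lt_left]
  · exact hx
  · rwa [hx]

theorem cls_inv_sub {Ω : Type} [Field Ω] (V : ValuationSubring Ω) (x y : Ω) (hx : V.valuation x = 1) (hy : V.valuation y = 1) (h : V.valuation (x - y) < 1) :
    V.valuation (x⁻¹ - y⁻¹) < 1 := by
  have hx0 : x ≠ 0 := by
    rintro rfl
    simp at hx
  have hy0 : y ≠ 0 := by
    rintro rfl
    simp at hy
  have : x⁻¹ - y⁻¹ = -((x - y) * (x⁻¹ * y⁻¹)) := by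
    field_simp
    ring
  rw [this, Valuation.map_neg, map_mul, map_mul, map_inv₀, map_inv₀, hx, hy]
  simpa using h

/-- `b = c₀ + β π⁻ᵐ` is congruent to a constant at all places `α'` other than `a`. -/
theorem cls_bval (Y : Sys k Ω) (k' k'' : IntermediateField k Ω) (hkk : k' ≤ k'') (hk : Y.k0 ≤ k'') (hfin : FiniteDimensional k k'')
    (α' : k'') (c₀ : Ω) (hc₀ : c₀ ∈ k') (a : Option k') (β : Ω) (hβ : β ∈ k') (m : ℕ)
    (ha : ∀ α : k', a = some α → (α : Ω) ≠ (α' : Ω)) :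
    c₀ + β * (unif k' a)⁻¹ ^ m ∈ Y.V k'' (some α') ∧
      ∃ c ∈ k'', (Y.V k'' (some α')).valuation (c₀ + β * (unif k' a)⁻¹ ^ m - c) < 1 := by
  have L := Y.loc k'' hk hfin (some α')
  set V := Y.V k'' (some α') with hV
  have hu : V.valuation (tt k Ω - (α' : Ω)) < 1 := L.unif
  have hα'V : (α' : Ω) ∈ V := L.const _ α'.2
  have hc₀V : c₀ ∈ V := L.const _ (hkk hc₀)
  have hβV : β ∈ V := L.const _ (hkk hβ)
  have key : ∃ X' ∈ k'', (unif k' a)⁻¹ ∈ V ∧ X' ∈ V ∧ V.valuation ((unif k' a)⁻¹ - X') < 1 := by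
    cases a with
    | none =>
      refine ⟨α', α'.2, ?_, hα'V, ?_⟩
      · simp only [unif, inv_inv]
        have h1 : tt k Ω = (tt k Ω - α') + α' := by ring
        rw [h1]
        exact add_mem ((V.valuation_le_one_iff _).1 hu.le) hα'V
      · simpa only [unif, inv_inv] using hu
    | some α =>
      have hne := ha α rfl
      have hv0 : (α' : Ω) - α ≠ 0 := by
        rw [sub_ne_zero]
        exact hne.symm
      have hvk : (α' : Ω) - α ∈ k'' := sub_mem α'.2 (hkk α.2)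
      have hv1 : V.valuation ((α' : Ω) - α) = 1 := L.val_const _ hvk hv0
      have hsub : V.valuation (((α' : Ω) - α) - (tt k Ω - α)) < 1 := by
        have : ((α' : Ω) - α) - (tt k Ω - α) = -(tt k Ω - α') := by ring
        rw [this, Valuation.map_neg]
        exact hu
      have hu1 : V.valuation (tt k Ω - α) = 1 := cls_unit_of V _ _ hv1 hsub
      refine ⟨((α' : Ω) - α)⁻¹, inv_mem hvk, ?_, ?_, ?_⟩
      · simp only [unif]
        rw [← V.valuation_le_one_iff, map_inv₀, hu1, inv_one]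
      · rw [← V.valuation_le_one_iff, map_inv₀, hv1, inv_one]
      · simp only [unif]
        refine cls_inv_sub V _ _ hu1 hv1 ?_
        rw [Valuation.map_sub_swap]
        exact hsub
  obtain ⟨X', hX'k, hXV, hX'V, hX⟩ := key
  refine ⟨add_mem hc₀V (mul_mem hβV (pow_mem hXV m)), c₀ + β * X' ^ m, add_mem (hkk hc₀) (mul_mem (hkk hβ) (pow_mem hX'k m)), ?_⟩
  have h1 : c₀ + β * (unif k' a)⁻¹ ^ m - (c₀ + β * X' ^ m) = β * ((unif k' a)⁻¹ ^ m - X' ^ m) := by ring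
  rw [h1, map_mul]
  have h2 := cls_pow_sub V _ _ hXV hX'V hX m
  have h3 : V.valuation β ≤ 1 := (V.valuation_le_one_iff _).2 hβV
  calc V.valuation β * V.valuation ((unif k' a)⁻¹ ^ m - X' ^ m) ≤ 1 * V.valuation ((unif k' a)⁻¹ ^ m - X' ^ m) :=
        mul_le_mul_left h3 _
    _ < 1 := by rwa [one_mul]

/-- at a place where `|x₀| > 1`, `b` integral. -/
theorem cls_one {Ω : Type} [Field Ω] (V : ValuationSubring Ω) (t x b e r : Ω) (hx : x ∉ V) (hb : b ∈ V) (he : e ∈ V)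
    (hr : t * (x - e) = r ^ 2) (ht : t ≠ 0) : V.valuation (t * (x - b) * (r⁻¹) ^ 2 - 1) < 1 := by
  have hx1 : 1 < V.valuation x := by
    rw [← not_le, V.valuation_le_one_iff]
    exact hx
  have he1 : V.valuation e ≤ 1 := (V.valuation_le_one_iff _).2 he
  have hxe : V.valuation (x - e) = V.valuation x := Valuation.map_sub_eq_of_lt_left _ (lt_of_le_of_lt he1 hx1)
  have hxe0 : x - e ≠ 0 := by
    intro h0
    rw [h0, map_zero] at hxe
    rw [← hxe] at hx1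
    exact absurd hx1 (by simp)
  have hr0 : r ≠ 0 := by
    rintro rfl
    apply mul_ne_zero ht hxe0
    rw [hr]
    ring
  have h1 : t * (x - b) * (r⁻¹) ^ 2 - 1 = (e - b) * (x - e)⁻¹ := by
    have : (r⁻¹) ^ 2 = (t * (x - e))⁻¹ := by rw [hr, inv_pow]
    rw [this]
    field_simp
    ring
  rw [h1, map_mul, map_inv₀, hxe]
  have h2 : V.valuation (e - b) ≤ 1 := (V.valuation_le_one_iff _).2 (sub_mem he hb)
  calc V.valuation (e - b) * (V.valuation x)⁻¹ ≤ 1 * (V.valuation x)⁻¹ := mul_le_mul_left h2 _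
    _ < 1 := by
      rw [one_mul]
      exact inv_lt_one_of_one_lt₀ hx1

theorem Pt.cls (P : Pt Y x₀ e₁ e₂ e₃) (k' : IntermediateField k Ω) (hk : Y.k0 ≤ k') (hfin : FiniteDimensional k k')
    (c₀ : Ω) (hc₀ : c₀ ∈ k') (a : Option k') (β : Ω) (hβ : β ∈ k') (m : ℕ) :
    ∃ r ∈ Y.S.F k', tt k Ω * (x₀ - (c₀ + β * (unif k' a)⁻¹ ^ m)) = r ^ 2 := by
  classical
  obtain ⟨r₁, hr₁, hr⟩ := P.sq1
  have hr₁' : r₁ ∈ Y.S.F k' := Y.S.F_mono hk hr₁
  have hx0F : x₀ ∈ Y.S.F k' := Y.S.F_mono hk P.mem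
  have ht0 : tt k Ω ≠ 0 := by
    have := unif_ne_zero k' hfin none
    simpa [unif] using this
  have hkkt : ∀ c ∈ k', c ∈ kt k' := fun c hc => IntermediateField.subset_adjoin _ _ hc
  set b := c₀ + β * (unif k' a)⁻¹ ^ m with hb
  have hbkt : b ∈ kt k' := add_mem (hkkt _ hc₀) (mul_mem (hkkt _ hβ) (pow_mem (inv_mem (unif_mem_kt k' a)) m))
  have hbF : b ∈ Y.S.F k' := kt_le_F Y.S k' hfin b hbkt
  have hkF : ∀ c ∈ k', c ∈ Y.S.F k' := fun c hc => kt_le_F Y.S k' hfin c (hkkt c hc)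
  have htkt : tt k Ω ∈ kt k' := by
    have := inv_mem (unif_mem_kt k' (none : Option k'))
    simpa [unif] using this
  have htF : tt k Ω ∈ Y.S.F k' := kt_le_F Y.S k' hfin _ htkt
  have hz0 : x₀ - b ≠ 0 := by
    intro h0
    apply P.tr
    rw [sub_eq_zero.1 h0]
    exact kt_alg k' hfin b hbkt
  -- the class
  have hev : ∀ k'' : IntermediateField k Ω, k' ≤ k'' → FiniteDimensional k k'' → ∀ α : k'',
      (∀ β ∈ insert (0 : k') a.toFinset, (β : Ω) ≠ (α : Ω)) →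
      ∃ w ∈ Y.S.F k'', (Y.V k'' (some α)).valuation ((x₀ - b) * w ^ 2) = 1 := by
    intro k'' hkk hfin'' α' hα'
    have hα0 : α' ≠ 0 := by
      intro h0
      have := hα' 0 (Finset.mem_insert_self _ _)
      rw [h0] at this
      simp at this
    have ha : ∀ α : k', a = some α → (α : Ω) ≠ (α' : Ω) := by
      intro α hα
      apply hα' α
      rw [Finset.mem_insert]
      right
      rw [Option.mem_toFinset, hα]
      rfl
    obtain ⟨hbV, c, hc, hbc⟩ := cls_bval Y k' k'' hkk (hk.trans hkk) hfin'' α' c₀ hc₀ a β hβ m ha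
    rw [← hb] at hbV hbc
    by_cases hx : x₀ ∈ Y.V k'' (some α')
    · have h1 := P.stepII k'' (hk.trans hkk) hfin'' α' hα0 c hc
      rw [not_lt] at h1
      refine ⟨1, one_mem _, ?_⟩
      rw [one_pow, mul_one]
      have h2 : x₀ - b = (x₀ - c) - (b - c) := by ring
      have h3 : (Y.V k'' (some α')).valuation (x₀ - b) = (Y.V k'' (some α')).valuation (x₀ - c) := by
        rw [h2]
        exact Valuation.map_sub_eq_of_lt_left _ (lt_of_lt_of_le hbc h1)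
      apply le_antisymm
      · rw [ValuationSubring.valuation_le_one_iff]
        exact sub_mem hx hbV
      · rw [h3]
        exact h1
    · exact P.even_neg k'' (hk.trans hkk) hfin'' α' hα0 hx b hbV
  obtain ⟨ε, hε, B, hBA, w, hw, hw0, hz⟩ := Y.desc k' hk hfin (x₀ - b) (sub_mem hx0F hbF) hz0 _ hev
  obtain ⟨hneg0, hnegi⟩ := P.neg k' hk hfin
  have hε0 : (ε : Ω) ≠ 0 := by
    intro h0
    apply hε
    exact Subtype.ext h0
  have hone : ∀ a₀ : Option k', x₀ ∉ Y.V k' a₀ → b ∈ Y.V k' a₀ →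
      (Y.V k' a₀).valuation (tt k Ω * (x₀ - b) * (r₁⁻¹) ^ 2 - 1) < 1 := fun a₀ h1 h2 =>
    cls_one _ _ _ _ e₁ r₁ h1 h2 ((Y.loc k' hk hfin a₀).const _ (hk P.h1)) hr ht0
  have hone' : ∀ a₀ : Option k', x₀ ∉ Y.V k' a₀ → b ∈ Y.V k' a₀ →
      (Y.V k' a₀).valuation ((∏ α ∈ B, (tt k Ω - (α : Ω))) * (tt k Ω * (w * r₁⁻¹) ^ 2)) = 1 := by
    intro a₀ h1 h2
    have h3 : (Y.V k' a₀).valuation (tt k Ω * (x₀ - b) * (r₁⁻¹) ^ 2) = 1 := by
      apply cls_unit_of _ 1 _ (map_one _)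
      rw [Valuation.map_sub_swap]
      exact hone a₀ h1 h2
    have h4 : tt k Ω * (x₀ - b) * (r₁⁻¹) ^ 2 = ε * ((∏ α ∈ B, (tt k Ω - (α : Ω))) * (tt k Ω * (w * r₁⁻¹) ^ 2)) := by
      rw [hz]
      ring
    rw [h4, map_mul, (Y.loc k' hk hfin a₀).val_const _ ε.2 hε0, one_mul] at h3
    exact h3
  have hWF : w * r₁⁻¹ ∈ Y.S.F k' := mul_mem hw (inv_mem hr₁')
  -- ramification at `0` and infinity
  have ram0 : ∀ W ∈ Y.S.F k', (Y.V k' (some 0)).valuation (tt k Ω * W ^ 2) ≠ 1 := by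
    intro W hW
    have := (Y.loc k' hk hfin (some 0)).ram W hW
    simpa [unif] using this
  have rami : ∀ W ∈ Y.S.F k', (Y.V k' none).valuation (tt k Ω * W ^ 2) ≠ 1 := by
    intro W hW
    have := (Y.loc k' hk hfin none).ram (tt k Ω * W) (mul_mem htF hW)
    have h2 : unif k' none * (tt k Ω * W) ^ 2 = tt k Ω * W ^ 2 := by
      simp only [unif]
      field_simp
    rwa [h2] at this
  -- the final step
  have fin : ∀ a₀ : Option k', x₀ ∉ Y.V k' a₀ → b ∈ Y.V k' a₀ → B = {0} →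
      ∃ r ∈ Y.S.F k', tt k Ω * (x₀ - b) = r ^ 2 := by
    intro a₀ h1 h2 hB
    have h3 := hone a₀ h1 h2
    have h4 : tt k Ω * (x₀ - b) * (r₁⁻¹) ^ 2 = ε * (tt k Ω * w * r₁⁻¹) ^ 2 := by
      rw [hz, hB, Finset.prod_singleton]
      simp only [ZeroMemClass.coe_zero, sub_zero]
      ring
    rw [h4] at h3
    obtain ⟨d, hd, hd2⟩ := (Y.loc k' hk hfin a₀).pin _ ε.2 _ (mul_mem (mul_mem htF hw) (inv_mem hr₁')) h3
    refine ⟨d * (tt k Ω * w), mul_mem (hkF d hd) (mul_mem htF hw), ?_⟩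
    rw [hz, hB, Finset.prod_singleton, hd2]
    simp only [ZeroMemClass.coe_zero, sub_zero]
    ring
  cases a with
  | none =>
    have hbV : b ∈ Y.V k' (some 0) :=
      (cls_bval Y k' k' le_rfl hk hfin 0 c₀ hc₀ none β hβ m (by simp)).1
    refine fin (some 0) hneg0 hbV ?_
    have hB : B ⊆ {0} := by simpa using hBA
    rcases Finset.subset_singleton_iff.1 hB with h | h
    · exfalso
      have := hone' (some 0) hneg0 hbV
      rw [h, Finset.prod_empty, one_mul] at this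
      exact ram0 _ hWF this
    · exact h
  | some α =>
    have hti : 1 < (Y.V k' none).valuation (tt k Ω) := by
      have := (Y.loc k' hk hfin none).unif
      simp only [unif, map_inv₀] at this
      exact (inv_lt_one₀ (by
        rw [pos_iff_ne_zero]
        exact (Valuation.ne_zero_iff _).2 ht0)).1 this
    have hti' : ∀ γ : k', (Y.V k' none).valuation (tt k Ω - γ) = (Y.V k' none).valuation (tt k Ω) := by
      intro γ
      apply Valuation.map_sub_eq_of_lt_left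
      refine lt_of_le_of_lt ?_ hti
      rw [ValuationSubring.valuation_le_one_iff]
      exact (Y.loc k' hk hfin none).const _ γ.2
    have hbVi : b ∈ Y.V k' none := by
      refine add_mem ((Y.loc k' hk hfin none).const _ hc₀) (mul_mem ((Y.loc k' hk hfin none).const _ hβ) (pow_mem ?_ m))
      rw [← ValuationSubring.valuation_le_one_iff, map_inv₀]
      simp only [unif]
      rw [hti']
      exact (inv_lt_one_of_one_lt₀ hti).le
    by_cases hα : α = 0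
    · refine fin none hnegi hbVi ?_
      have hB : B ⊆ {0} := by
        rw [hα] at hBA
        simpa using hBA
      rcases Finset.subset_singleton_iff.1 hB with h | h
      · exfalso
        have := hone' none hnegi hbVi
        rw [h, Finset.prod_empty, one_mul] at this
        exact rami _ hWF this
      · exact h
    · have hbV : b ∈ Y.V k' (some 0) := by
        refine (cls_bval Y k' k' le_rfl hk hfin 0 c₀ hc₀ (some α) β hβ m ?_).1
        intro γ hγ h0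
        rw [Option.some.injEq] at hγ
        apply hα
        rw [hγ]
        exact Subtype.ext h0
      refine fin (some 0) hneg0 hbV ?_
      have hB : B ⊆ {0, α} := by simpa using hBA
      have h0B : (0 : k') ∈ B := by
        by_contra h0
        have h1 : ∀ γ ∈ B, γ = α := by
          intro γ hγ
          have := hB hγ
          rw [Finset.mem_insert, Finset.mem_singleton] at this
          rcases this with h2 | h2
          · exact absurd (h2 ▸ hγ) h0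
          · exact h2
        have h2 := hone' (some 0) hneg0 hbV
        have h3 : (Y.V k' (some 0)).valuation (∏ γ ∈ B, (tt k Ω - (γ : Ω))) = 1 := by
          rw [map_prod]
          apply Finset.prod_eq_one
          intro γ hγ
          rw [h1 γ hγ]
          have h4 := (Y.loc k' hk hfin (some 0)).poly_unit (X - C α) (by simpa using hα)
          simpa using h4
        rw [map_mul, h3, one_mul] at h2
        exact ram0 _ hWF h2
      have hαB : α ∉ B := by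
        intro h1
        have hB2 : B = {0, α} := by
          apply Finset.Subset.antisymm hB
          intro γ hγ
          rw [Finset.mem_insert, Finset.mem_singleton] at hγ
          rcases hγ with h2 | h2
          · rw [h2]; exact h0B
          · rw [h2]; exact h1
        have h2 := hone' none hnegi hbVi
        rw [hB2, Finset.prod_insert (by simpa using Ne.symm hα), Finset.prod_singleton, map_mul, map_mul, hti', hti',
          ← map_mul, ← map_mul] at h2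
        apply rami (tt k Ω * (w * r₁⁻¹)) (mul_mem htF hWF)
        rw [← h2]
        congr 1
        ring
      apply Finset.eq_singleton_iff_unique_mem.2 ⟨h0B, ?_⟩
      intro γ hγ
      have := hB hγ
      rw [Finset.mem_insert, Finset.mem_singleton] at this
      rcases this with h2 | h2
      · exact h2
      · exact absurd (h2 ▸ hγ) hαB

theorem Pt.stepIII (P : Pt Y x₀ e₁ e₂ e₃) (c₀ : Ω) (hc₀ : c₀ ∈ Y.k0) (k' : IntermediateField k Ω) (hk : Y.k0 ≤ k')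
    (hfin : FiniteDimensional k k') (a : Option k') : (Y.U k' a).valuation (x₀ - c₀)⁻¹ < 1 := by
  have L : Loc Y.S k' a (Y.V k' a) := Y.loc k' hk hfin a
  have hπ0 : unif k' a ≠ 0 := unif_ne_zero k' hfin a
  have hx : x₀ - c₀ ≠ 0 := by
    intro h
    have h1 : x₀ = c₀ := sub_eq_zero.1 h
    exact P.tr (h1 ▸ (level_alg Y.k0 Y.fin0 c₀ hc₀).2)
  unfold Sys.U
  rw [coarse_lt_one _ _ hπ0 L.unif]
  intro m
  by_contra hm
  push Not at hm
  set V := Y.V k' a with hV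
  set z : Ω := (unif k' a)⁻¹ ^ m * (x₀ - c₀)⁻¹ with hz
  have hπv : V.valuation (unif k' a) ≠ 0 := (Valuation.ne_zero_iff _).2 hπ0
  have hzv : 1 < V.valuation z := by
    rw [hz, map_mul, map_pow, map_inv₀, inv_pow, ← div_eq_inv_mul,
      one_lt_div₀ (pow_pos (zero_lt_iff.2 hπv) m)]
    exact hm
  have hs : ∀ β ∈ k', ∃ r ∈ Y.S.F k', tt k Ω * (x₀ - c₀) * (1 - β * z) = r ^ 2 := by
    intro β hβ
    obtain ⟨r, hr, hrr⟩ := P.cls k' hk hfin c₀ (hk hc₀) a β hβ m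
    refine ⟨r, hr, ?_⟩
    rw [← hrr, hz]
    field_simp
    ring
  obtain ⟨n, hn, hns⟩ := P.nsq k' hk hfin
  have hn0 : n ≠ 0 := by
    rintro rfl
    exact hns ⟨0, zero_mem _, by ring⟩
  have hnv : V.valuation n = 1 := L.val_const n hn hn0
  obtain ⟨r₁, hr₁, q₁⟩ := hs 1 (one_mem _)
  obtain ⟨r₂, hr₂, q₂⟩ := hs n hn
  have hz1 : V.valuation (1 - z) = V.valuation z := by
    rw [V.valuation.map_sub_eq_of_lt_right (by rw [map_one]; exact hzv)]
  have hz10 : 1 - z ≠ 0 := by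
    intro h
    rw [h, map_zero] at hz1
    rw [← hz1] at hzv
    exact absurd hzv (not_lt.2 zero_le_one)
  have ht0 : tt k Ω ≠ 0 := by
    have h1 := aeval_tt_ne k' hfin X X_ne_zero
    rwa [aeval_X] at h1
  have hr10 : r₁ ≠ 0 := by
    rintro rfl
    rw [one_mul] at q₁
    have h1 := mul_ne_zero (mul_ne_zero ht0 hx) hz10
    exact h1 (by rw [q₁]; ring)
  have e : n⁻¹ * (r₂ / r₁) ^ 2 - 1 = (1 - n) / (n * (1 - z)) := by
    rw [div_pow, ← q₁, ← q₂, one_mul]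
    field_simp
    ring
  have hpin : V.valuation (n⁻¹ * (r₂ / r₁) ^ 2 - 1) < 1 := by
    rw [e, map_div₀, map_mul, hnv, one_mul, hz1]
    have h1 : V.valuation (1 - n) ≤ 1 :=
      (V.valuation_le_one_iff _).2 (L.const _ (sub_mem (one_mem _) hn))
    rw [div_lt_one₀ (lt_trans zero_lt_one hzv)]
    exact lt_of_le_of_lt h1 hzv
  obtain ⟨d, hd, hnd⟩ := L.pin n⁻¹ (inv_mem hn) (r₂ / r₁) (div_mem hr₂ hr₁) hpin
  exact hns ⟨d⁻¹, inv_mem hd, by rw [inv_pow, ← hnd, inv_inv]⟩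

end BSC
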