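import Pool.Agent.Lib_MP_49ddc8.Desc

/-!
# [BS-T1] .. [BS-T4]  Steps I, II, III for a constant curve

`|z|_{k',a}` is the valuation of `Y.V k' a`, `F k' = Y.S.F k'`, `a₀` is the base place of the level `k0`.

[BS-T1] `Pt1.base`: `|x₀⁻¹| < 1` at `(k0, a₀)`, then `Y.comp` (`lift h a` is `a.map (IntermediateField.inclusion h)` by definition).  `Pt1.even_neg`: if `x₀ ∉ V` then `|x₀ - b| = |x₀ - e₁| = |r₁|²` for every `b ∈ V`, `w = r₁⁻¹`.
`Pt1.stepI`: `c ∈ k'` good, `z = x₀ - c ≠ 0`.  At every `(k'', a)` `z` is even: `x₀ ∉ V`: `even_neg`; `x₀ ∈ V`: `|x₀ - c| < 1` would make `c` periodic (`spec`), so `w = 1`.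
By `Sys.desc` (`A = ∅`) `z = ε w²`.  At `(k', lift a₀)`: `x₀ ∉ V` (`base`), `(x₀ - c)/(x₀ - e₁) ∈ 1 + 𝔪`, so `ε (w/r₁)² ∈ 1 + 𝔪`, and `ε` is a square in `k'` (`pin`).

[BS-T2] `Pt1.good`: in every level `k' ⊇ k0` all but finitely many `c` are good (`c ≠ e_i`, not periodic), `k'` is infinite.  `Pt1.stepII`: suppose `|x₀ - c| < 1` at `(k', a)`, `c ∈ k'`.
Then `c` is not good (`spec`).  Take `c₀ ∈ k'` good, so `c ≠ c₀`.  For a nonsquare `n ∈ k'` and `q ∈ ℚ^×` the element `n q²` is a nonsquare, so there is a nonsquare `n'` with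
`c' = c₀ + (1 - n')(c - c₀)` good (`c - c' = n' (c - c₀)`).  By `stepI` `(x₀ - c')/(x₀ - c₀) = (r/r₀)²`, `r/r₀ ∈ F k'`, and it is `≡ (c - c')/(c - c₀) = n'` mod `𝔪`; `pin` (`n'⁻¹ (r/r₀)² ∈ 1 + 𝔪`) makes `n'` a square, contradiction.

[BS-T3] `Pt1.cls`: `π = unif k' a`, `b' = c₀ + β π⁻ᵐ` with `c₀, β ∈ k'`; `a ≠ b`, `x₀ ∉ V k' b`.  Claim: `x₀ - b'` is a square in `F k'`.  `x₀ ≠ b'` as `x₀` is transcendental over `RatFunc k`, `b'` algebraic.
Places `(k'', p)`, `p ≠ lift a` (infinity included): `b' ∈ V` and `|b' - c| < 1` for some `c ∈ k''` (`b'` is a polynomial in `t` divided by a polynomial which does not vanish at `p`; at infinity `(t - α)⁻ᵐ`); if `x₀ ∉ V`: `even_neg`; if `x₀ ∈ V`: `|x₀ - c| = 1` by `stepII`, so `|x₀ - b'| = 1`.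
`Sys.desc` with `A = {α}` if `a = some α`, `A = ∅` if `a = none`: `x₀ - b' = ε w²` or `x₀ - b' = ε (t - α) w²`; in the last case `a = some α` and at `(k', none)` `x₀ - b'` is even: `|(x₀ - b') w'²| = 1`, `|t - α| = |t|`, so `|t (w w')²| = 1`, `|t⁻¹ (t w w')²| = 1` contradicts `ram`.
So `x₀ - b' = ε w²`; at `(k', b)`: `x₀ ∉ V`, `b' ∈ V`, `(x₀ - b')/(x₀ - e₁) ∈ 1 + 𝔪`: `ε (w/r₁)² ∈ 1 + 𝔪`, `ε` is a square in `k'` (`pin`).

[BS-T4] `Pt1.stepIII0`: `ξ = (x₀ - c₀)⁻¹`, `π = unif k' a`, `b ≠ a`, `x₀ ∉ V k' b`.  For `β ∈ k'` and all `m`: `1 - β π⁻ᵐ ξ = (x₀ - (c₀ + β π⁻ᵐ))/(x₀ - c₀)` is a square in `F k'` (`cls` for `β` and for `β = 0`).  If `|π⁻ᵐ ξ| > 1` for some `m`: for `β ≠ 0` `1 - β π⁻ᵐ ξ ∈ -β π⁻ᵐ ξ (1 + 𝔪)`;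
take `β = 1` and `β = n` a nonsquare of `k'` (`nsq`): the quotient is a square in `n (1 + 𝔪)`, so `n` is a square in `k'` by `pin`.  Contradiction; so `|ξ| ≤ |π^m|` for all `m`, i.e. `(Y.U k' a).valuation ξ < 1` (`coarse_lt_one`).
`Pt1.stepIII`: if `a ≠ lift a₀` take `b = lift a₀` (`base`).  If `a = lift a₀` take any `b ≠ a` (`none` or `some 0`): by `stepIII0` at `b` with the base `a`, `|ξ| < 1` in `Y.U k' b`, so `|ξ| < 1` in `V k' b` (`coarse_of_lt` with `m = 0` ), so `x₀ - c₀ ∉ V k' b`, `x₀ ∉ V k' b`; then `stepIII0` at `a` with the base `b`.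
-/

set_option autoImplicit false

open Polynomial

namespace BSC

variable {k Ω : Type} [Field k] [CharZero k] [Field Ω] [IsAlgClosed Ω] [Algebra k Ω] [Algebra (RatFunc k) Ω]
  [IsScalarTower k (RatFunc k) Ω]

/-- the point `x₀` of the constant curve `y² = (x - e₁)(x - e₂)(x - e₃)` with its properties -/
structure Pt1 (Y : Sys k Ω) (x₀ e₁ e₂ e₃ : Ω) (a₀ : Option Y.k0) : Prop where
  mem : x₀ ∈ Y.S.F Y.k0
  h1 : e₁ ∈ Y.k0
  h2 : e₂ ∈ Y.k0
  h3 : e₃ ∈ Y.k0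
  h12 : e₁ ≠ e₂
  h13 : e₁ ≠ e₃
  h23 : e₂ ≠ e₃
  sq1 : ∃ r ∈ Y.S.F Y.k0, x₀ - e₁ = r ^ 2
  neg : x₀ ∉ Y.V Y.k0 a₀
  spec : ∀ k' : IntermediateField k Ω, Y.k0 ≤ k' → FiniteDimensional k k' → ∀ a : Option k', ∀ c ∈ k',
    c ≠ e₁ → c ≠ e₂ → c ≠ e₃ → (Y.V k' a).valuation (x₀ - c) < 1 → ∃ n : ℕ, 1 ≤ n ∧ (DD e₁ e₂ e₃)^[n] c = c
  fin : ∀ k' : IntermediateField k Ω, Y.k0 ≤ k' → FiniteDimensional k k' →
    {c : Ω | c ∈ k' ∧ ∃ n : ℕ, 1 ≤ n ∧ (DD e₁ e₂ e₃)^[n] c = c}.Finite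
  tr : Transcendental (RatFunc k) x₀
  nsq : ∀ k' : IntermediateField k Ω, Y.k0 ≤ k' → FiniteDimensional k k' → ∃ n ∈ k', ¬ ∃ d ∈ k', n = d ^ 2

/-- good constants -/
def Good1 {Ω : Type} [Field Ω] (e₁ e₂ e₃ c : Ω) : Prop :=
  c ≠ e₁ ∧ c ≠ e₂ ∧ c ≠ e₃ ∧ ¬ ∃ n : ℕ, 1 ≤ n ∧ (DD e₁ e₂ e₃)^[n] c = c

variable {Y : Sys k Ω} {x₀ e₁ e₂ e₃ : Ω} {a₀ : Option Y.k0}

private theorem t1_one_lt {V : ValuationSubring Ω} {x : Ω} (hx : x ∉ V) : 1 < V.valuation x := by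
  rw [← not_le, V.valuation_le_one_iff]
  exact hx

private theorem t1_sub {V : ValuationSubring Ω} {x b : Ω} (hx : x ∉ V) (hb : b ∈ V) :
    V.valuation (x - b) = V.valuation x :=
  Valuation.map_sub_eq_of_lt_left _ (lt_of_le_of_lt ((V.valuation_le_one_iff _).2 hb) (t1_one_lt hx))

theorem Pt1.base (P : Pt1 Y x₀ e₁ e₂ e₃ a₀) (k' : IntermediateField k Ω) (hk : Y.k0 ≤ k') (hfin : FiniteDimensional k k') :
    x₀ ∉ Y.V k' (lift hk a₀) := by
  intro hmem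
  have hx0 : x₀ ≠ 0 := by
    intro h0
    apply P.neg
    rw [h0]
    exact zero_mem _
  have h1 : (Y.V Y.k0 a₀).valuation x₀⁻¹ < 1 := by
    rw [map_inv₀]
    exact inv_lt_one_of_one_lt₀ (t1_one_lt P.neg)
  have h2 : (Y.V k' (lift hk a₀)).valuation x₀⁻¹ < 1 :=
    Y.comp Y.k0 k' le_rfl hk Y.fin0 hfin a₀ x₀⁻¹ (inv_mem P.mem) h1
  have h3 : (Y.V k' (lift hk a₀)).valuation x₀ ≤ 1 := (ValuationSubring.valuation_le_one_iff _ _).2 hmem
  have h4 : (Y.V k' (lift hk a₀)).valuation x₀ * (Y.V k' (lift hk a₀)).valuation x₀⁻¹ = 1 := by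
    rw [← map_mul, mul_inv_cancel₀ hx0, map_one]
  have h5 : (Y.V k' (lift hk a₀)).valuation x₀ * (Y.V k' (lift hk a₀)).valuation x₀⁻¹ < 1 :=
    mul_lt_one_of_nonneg_of_lt_one_right h3 zero_le h2
  rw [h4] at h5
  exact lt_irrefl _ h5

theorem Pt1.even_neg (P : Pt1 Y x₀ e₁ e₂ e₃ a₀) (k' : IntermediateField k Ω) (hk : Y.k0 ≤ k') (hfin : FiniteDimensional k k')
    (a : Option k') (hneg : x₀ ∉ Y.V k' a) (b : Ω) (hb : b ∈ Y.V k' a) :
    ∃ w ∈ Y.S.F k', (Y.V k' a).valuation ((x₀ - b) * w ^ 2) = 1 := by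
  obtain ⟨r₁, hr₁, hr⟩ := P.sq1
  have he : e₁ ∈ Y.V k' a := (Y.loc k' hk hfin a).const _ (hk P.h1)
  refine ⟨r₁⁻¹, inv_mem (Y.S.F_mono hk hr₁), ?_⟩
  have h1 : (Y.V k' a).valuation (r₁ ^ 2) = (Y.V k' a).valuation x₀ := by
    rw [← hr]
    exact t1_sub hneg he
  have h2 : (Y.V k' a).valuation x₀ ≠ 0 := by
    intro h0
    have h3 := t1_one_lt hneg
    rw [h0] at h3
    exact absurd h3 (not_lt.2 zero_le_one)
  rw [map_mul, t1_sub hneg hb, inv_pow, map_inv₀, h1]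
  exact mul_inv_cancel₀ h2

theorem Pt1.stepI (P : Pt1 Y x₀ e₁ e₂ e₃ a₀) (k' : IntermediateField k Ω) (hk : Y.k0 ≤ k') (hfin : FiniteDimensional k k')
    (c : Ω) (hc : c ∈ k') (hg : Good1 e₁ e₂ e₃ c) : ∃ r ∈ Y.S.F k', x₀ - c = r ^ 2 := by
  classical
  obtain ⟨r₁, hr₁, hr⟩ := P.sq1
  have hkF : ∀ d ∈ k', d ∈ Y.S.F k' := fun d hd =>
    kt_le_F Y.S k' hfin d (IntermediateField.subset_adjoin _ _ hd)
  have hz0 : x₀ - c ≠ 0 := by
    intro h0
    apply P.tr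
    rw [sub_eq_zero.1 h0]
    exact (level_alg k' hfin c hc).2
  obtain ⟨ε, hε, B, hBA, w, hw, hw0, hz⟩ := Y.desc k' hk hfin (x₀ - c)
    (sub_mem (Y.S.F_mono hk P.mem) (hkF c hc)) hz0 ∅ (by
      intro k'' hkk hfin'' α _
      have L := Y.loc k'' (hk.trans hkk) hfin'' (some α)
      have hcV : c ∈ Y.V k'' (some α) := L.const _ (hkk hc)
      by_cases hx : x₀ ∈ Y.V k'' (some α)
      · refine ⟨1, one_mem _, ?_⟩
        rw [one_pow, mul_one]
        apply le_antisymm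
        · rw [ValuationSubring.valuation_le_one_iff]
          exact sub_mem hx hcV
        · by_contra h1
          rw [not_le] at h1
          exact hg.2.2.2 (P.spec k'' (hk.trans hkk) hfin'' (some α) c (hkk hc) hg.1 hg.2.1 hg.2.2.1 h1)
      · exact P.even_neg k'' (hk.trans hkk) hfin'' (some α) hx c hcV)
  have hB : B = ∅ := by simpa using hBA
  rw [hB, Finset.prod_empty, mul_one] at hz
  set a := lift hk a₀ with ha
  have hneg : x₀ ∉ Y.V k' a := P.base k' hk hfin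
  have L := Y.loc k' hk hfin a
  have heV : e₁ ∈ Y.V k' a := L.const _ (hk P.h1)
  have hcV : c ∈ Y.V k' a := L.const _ hc
  have hlt := t1_one_lt hneg
  have hxe : (Y.V k' a).valuation (x₀ - e₁) = (Y.V k' a).valuation x₀ := t1_sub hneg heV
  have hxe0 : x₀ - e₁ ≠ 0 := by
    intro h0
    rw [h0, map_zero] at hxe
    rw [← hxe] at hlt
    exact absurd hlt (not_lt.2 zero_le_one)
  have key : (ε : Ω) * (w * r₁⁻¹) ^ 2 - 1 = (e₁ - c) * (x₀ - e₁)⁻¹ := by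
    have h1 : (ε : Ω) * (w * r₁⁻¹) ^ 2 = (x₀ - c) * (x₀ - e₁)⁻¹ := by
      rw [hz, hr, mul_pow, inv_pow]
      ring
    rw [h1]
    field_simp
    ring
  have hlt1 : (Y.V k' a).valuation ((ε : Ω) * (w * r₁⁻¹) ^ 2 - 1) < 1 := by
    rw [key, map_mul, map_inv₀, hxe]
    have h2 : (Y.V k' a).valuation (e₁ - c) ≤ 1 :=
      (ValuationSubring.valuation_le_one_iff _ _).2 (sub_mem heV hcV)
    exact mul_lt_one_of_nonneg_of_lt_one_right h2 zero_le (inv_lt_one_of_one_lt₀ hlt)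
  obtain ⟨d, hd, hd2⟩ := L.pin _ ε.2 _ (mul_mem hw (inv_mem (Y.S.F_mono hk hr₁))) hlt1
  refine ⟨d * w, mul_mem (hkF d hd) hw, ?_⟩
  rw [hz, hd2]
  ring

theorem Pt1.good (P : Pt1 Y x₀ e₁ e₂ e₃ a₀) (k' : IntermediateField k Ω) (hk : Y.k0 ≤ k') (hfin : FiniteDimensional k k') :
    {c : Ω | c ∈ k' ∧ ¬ Good1 e₁ e₂ e₃ c}.Finite ∧ ∃ c ∈ k', Good1 e₁ e₂ e₃ c := by
  have hf3 : ({e₁, e₂, e₃} : Set Ω).Finite := Set.toFinite _
  have hf : {c : Ω | c ∈ k' ∧ ¬ Good1 e₁ e₂ e₃ c}.Finite := by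
    refine (hf3.union (P.fin k' hk hfin)).subset ?_
    rintro c ⟨hc, hg⟩
    by_cases h1 : c = e₁
    · left; simp [h1]
    by_cases h2 : c = e₂
    · left; simp [h2]
    by_cases h3 : c = e₃
    · left; simp [h3]
    right
    refine ⟨hc, ?_⟩
    by_contra h4
    exact hg ⟨h1, h2, h3, h4⟩
  refine ⟨hf, ?_⟩
  by_contra hcon
  have : CharZero Ω := charZero_of_injective_algebraMap (algebraMap k Ω).injective
  have hinj : Function.Injective (fun n : ℕ => (n : Ω)) := Nat.cast_injective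
  refine (Set.infinite_range_of_injective hinj) (hf.subset ?_)
  rintro _ ⟨n, rfl⟩
  exact ⟨natCast_mem k' n, fun hg => hcon ⟨_, natCast_mem k' n, hg⟩⟩

theorem Pt1.stepII (P : Pt1 Y x₀ e₁ e₂ e₃ a₀) (k' : IntermediateField k Ω) (hk : Y.k0 ≤ k') (hfin : FiniteDimensional k k')
    (a : Option k') (c : Ω) (hc : c ∈ k') : ¬ (Y.V k' a).valuation (x₀ - c) < 1 := by
  intro hv
  have : CharZero Ω := charZero_of_injective_algebraMap (algebraMap k Ω).injective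
  have hL := Y.loc k' hk hfin a
  obtain ⟨c₀, hc₀0, hg₀⟩ := (P.good Y.k0 le_rfl Y.fin0).2
  have hc₀ : c₀ ∈ k' := hk hc₀0
  have hne : c ≠ c₀ := by
    rintro rfl
    exact hg₀.2.2.2 (P.spec k' hk hfin a c hc hg₀.1 hg₀.2.1 hg₀.2.2.1 hv)
  have hd0 : c - c₀ ≠ 0 := sub_ne_zero.2 hne
  obtain ⟨n, hn, hnsq⟩ := P.nsq k' hk hfin
  have hn0 : n ≠ 0 := by
    rintro rfl
    exact hnsq ⟨0, k'.zero_mem, by ring⟩
  have hsk : ∀ q : ℕ, ((q : Ω) + 1) ∈ k' := fun q => add_mem (natCast_mem k' q) k'.one_mem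
  have hck : ∀ q : ℕ, c₀ + (1 - n * ((q : Ω) + 1) ^ 2) * (c - c₀) ∈ k' := fun q =>
    add_mem hc₀ (mul_mem (sub_mem k'.one_mem (mul_mem hn (pow_mem (hsk q) 2))) (sub_mem hc hc₀))
  have hq : ∃ q : ℕ, Good1 e₁ e₂ e₃ (c₀ + (1 - n * ((q : Ω) + 1) ^ 2) * (c - c₀)) := by
    by_contra hcon
    refine (Set.infinite_range_of_injective
      (f := fun q : ℕ => c₀ + (1 - n * ((q : Ω) + 1) ^ 2) * (c - c₀)) ?_) ((P.good k' hk hfin).1.subset ?_)
    · intro i j hij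
      have h1 : (1 - n * ((i : Ω) + 1) ^ 2) * (c - c₀) = (1 - n * ((j : Ω) + 1) ^ 2) * (c - c₀) :=
        add_left_cancel hij
      have h2 : 1 - n * ((i : Ω) + 1) ^ 2 = 1 - n * ((j : Ω) + 1) ^ 2 := mul_right_cancel₀ hd0 h1
      have h3 : n * ((i : Ω) + 1) ^ 2 = n * ((j : Ω) + 1) ^ 2 := by linear_combination -h2
      have h4 : ((i : Ω) + 1) ^ 2 = ((j : Ω) + 1) ^ 2 := mul_left_cancel₀ hn0 h3
      have h5 : (i + 1) ^ 2 = (j + 1) ^ 2 := by exact_mod_cast h4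
      have h6 : i + 1 = j + 1 := Nat.pow_left_injective (n := 2) (by norm_num) h5
      omega
    · rintro _ ⟨q, rfl⟩
      exact ⟨hck q, fun hg => hcon ⟨q, hg⟩⟩
  obtain ⟨q, hgq⟩ := hq
  have hs0 : (q : Ω) + 1 ≠ 0 := by exact_mod_cast Nat.succ_ne_zero q
  obtain ⟨r, hr, hrr⟩ := P.stepI k' hk hfin _ (hck q) hgq
  obtain ⟨r₀, hr₀, hrr₀⟩ := P.stepI k' hk hfin c₀ hc₀ hg₀
  generalize hs : (q : Ω) + 1 = s at *
  have hsk' : s ∈ k' := hs ▸ hsk q
  have hn'0 : n * s ^ 2 ≠ 0 := mul_ne_zero hn0 (pow_ne_zero 2 hs0)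
  have hn'k : (n * s ^ 2)⁻¹ ∈ k' := inv_mem (mul_mem hn (pow_mem hsk' 2))
  have hcc : (Y.V k' a).valuation (c - c₀) = 1 := hL.val_const (c - c₀) (sub_mem hc hc₀) hd0
  have hxc : (Y.V k' a).valuation (x₀ - c₀) = 1 := by
    have e : x₀ - c₀ = (x₀ - c) + (c - c₀) := by ring
    rw [e, Valuation.map_add_eq_of_lt_right _ (by rw [hcc]; exact hv), hcc]
  have hx0 : x₀ - c₀ ≠ 0 := by
    intro h
    rw [h, map_zero] at hxc
    exact zero_ne_one hxc
  have hr₀0 : r₀ ≠ 0 := by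
    rintro rfl
    exact hx0 (by rw [hrr₀]; ring)
  have key : (n * s ^ 2)⁻¹ * (r / r₀) ^ 2 - 1 = ((n * s ^ 2)⁻¹ - 1) * (x₀ - c) / (x₀ - c₀) := by
    rw [div_pow, ← hrr, ← hrr₀]
    field_simp
    ring
  have hlt : (Y.V k' a).valuation ((n * s ^ 2)⁻¹ * (r / r₀) ^ 2 - 1) < 1 := by
    rw [key, map_div₀, hxc, div_one, map_mul]
    refine mul_lt_one_of_nonneg_of_lt_one_right ?_ zero_le' hv
    exact (ValuationSubring.valuation_le_one_iff _ _).2 (sub_mem (hL.const _ hn'k) (one_mem _))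
  obtain ⟨d, hd, hdd⟩ := hL.pin _ hn'k _ (div_mem hr hr₀) hlt
  have hd0' : d ≠ 0 := by
    rintro rfl
    exact inv_ne_zero hn'0 (by rw [hdd]; ring)
  refine hnsq ⟨d⁻¹ / s, div_mem (inv_mem hd) hsk', ?_⟩
  have h7 : n * s ^ 2 = (d⁻¹) ^ 2 := by rw [inv_pow, ← hdd, inv_inv]
  rw [div_pow, ← h7]
  field_simp

theorem cls1_pow_sub {Ω : Type} [Field Ω] (V : ValuationSubring Ω) (x y : Ω) (hx : x ∈ V) (hy : y ∈ V)
    (h : V.valuation (x - y) < 1) (m : ℕ) : V.valuation (x ^ m - y ^ m) < 1 := by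
  have h1 : ((⟨x, hx⟩ : V) - ⟨y, hy⟩) ∣ (⟨x, hx⟩ : V) ^ m - (⟨y, hy⟩ : V) ^ m := sub_dvd_pow_sub_pow _ _ m
  obtain ⟨s, hs⟩ := h1
  have h2 : x ^ m - y ^ m = (x - y) * (s : Ω) := by
    have := congrArg (fun z : V => (z : Ω)) hs
    simpa using this
  rw [h2, map_mul]
  have h3 : V.valuation (s : Ω) ≤ 1 := (V.valuation_le_one_iff _).2 s.2
  calc V.valuation (x - y) * V.valuation (s : Ω) ≤ V.valuation (x - y) * 1 := mul_le_mul_right h3 _
    _ < 1 := by rwa [mul_one]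

theorem cls1_unit_of {Ω : Type} [Field Ω] (V : ValuationSubring Ω) (x y : Ω) (hx : V.valuation x = 1)
    (h : V.valuation (x - y) < 1) : V.valuation y = 1 := by
  have : y = x - (x - y) := by ring
  rw [this, Valuation.map_sub_eq_of_lt_left]
  · exact hx
  · rwa [hx]

theorem cls1_inv_sub {Ω : Type} [Field Ω] (V : ValuationSubring Ω) (x y : Ω) (hx : V.valuation x = 1)
    (hy : V.valuation y = 1) (h : V.valuation (x - y) < 1) : V.valuation (x⁻¹ - y⁻¹) < 1 := by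
  have hx0 : x ≠ 0 := by
    rintro rfl
    simp at hx
  have hy0 : y ≠ 0 := by
    rintro rfl
    simp at hy
  have : x⁻¹ - y⁻¹ = -((x - y) * (x⁻¹ * y⁻¹)) := by
    field_simp
    ring
  rw [this, Valuation.map_neg, map_mul, map_mul, map_inv₀, map_inv₀, hx, hy]
  simpa using h

theorem lift_refl {k Ω : Type} [Field k] [Field Ω] [Algebra k Ω] {k' : IntermediateField k Ω} (a : Option k') :
    lift (le_refl k') a = a := by
  cases a with
  | none => rfl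
  | some α => rfl

/-- at infinity `|t| > 1` and `|t - γ| = |t|` -/
theorem Loc.tt_inf {k Ω : Type} [Field k] [Field Ω] [Algebra k Ω] [Algebra (RatFunc k) Ω] {S : Sec (RatFunc k) Ω}
    {k' : IntermediateField k Ω} {V : ValuationSubring Ω} (h : Loc S k' none V) (ht0 : tt k Ω ≠ 0) (γ : Ω) (hγ : γ ∈ k') :
    1 < V.valuation (tt k Ω) ∧ V.valuation (tt k Ω - γ) = V.valuation (tt k Ω) := by
  have hti : 1 < V.valuation (tt k Ω) := by
    have := h.unif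
    simp only [BSC.unif, map_inv₀] at this
    exact (inv_lt_one₀ (by
      rw [pos_iff_ne_zero]
      exact (Valuation.ne_zero_iff _).2 ht0)).1 this
  refine ⟨hti, ?_⟩
  apply Valuation.map_sub_eq_of_lt_left
  refine lt_of_le_of_lt ?_ hti
  rw [ValuationSubring.valuation_le_one_iff]
  exact h.const _ hγ

/-- `b' = c₀ + β π⁻ᵐ` is congruent to a constant at all places `p` other than `a`. -/
theorem cls1_bval (Y : Sys k Ω) (k' k'' : IntermediateField k Ω) (hkk : k' ≤ k'') (hk : Y.k0 ≤ k'') (hfin : FiniteDimensional k k'')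
    (p : Option k'') (c₀ : Ω) (hc₀ : c₀ ∈ k') (a : Option k') (β : Ω) (hβ : β ∈ k') (m : ℕ) (hpa : p ≠ lift hkk a) :
    c₀ + β * (unif k' a)⁻¹ ^ m ∈ Y.V k'' p ∧
      ∃ c ∈ k'', (Y.V k'' p).valuation (c₀ + β * (unif k' a)⁻¹ ^ m - c) < 1 := by
  have L := Y.loc k'' hk hfin p
  have ht0 : tt k Ω ≠ 0 := by
    have := unif_ne_zero k'' hfin none
    simpa [unif] using this
  set V := Y.V k'' p with hV
  have hc₀V : c₀ ∈ V := L.const _ (hkk hc₀)
  have hβV : β ∈ V := L.const _ (hkk hβ)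
  have key : ∃ X' ∈ k'', (unif k' a)⁻¹ ∈ V ∧ X' ∈ V ∧ V.valuation ((unif k' a)⁻¹ - X') < 1 := by
    cases p with
    | none =>
      cases a with
      | none => exact absurd rfl hpa
      | some α =>
        obtain ⟨h1, h2⟩ := L.tt_inf ht0 α (hkk α.2)
        have h3 : V.valuation ((unif k' (some α))⁻¹) < 1 := by
          simp only [unif]
          rw [map_inv₀, h2]
          exact inv_lt_one_of_one_lt₀ h1
        refine ⟨0, zero_mem _, (V.valuation_le_one_iff _).1 h3.le, zero_mem _, ?_⟩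
        rw [sub_zero]
        exact h3
    | some α' =>
      have hu : V.valuation (tt k Ω - (α' : Ω)) < 1 := L.unif
      have hα'V : (α' : Ω) ∈ V := L.const _ α'.2
      cases a with
      | none =>
        refine ⟨α', α'.2, ?_, hα'V, ?_⟩
        · simp only [unif, inv_inv]
          have h1 : tt k Ω = (tt k Ω - α') + α' := by ring
          rw [h1]
          exact add_mem ((V.valuation_le_one_iff _).1 hu.le) hα'V
        · simpa only [unif, inv_inv] using hu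
      | some α =>
        have hv0 : (α' : Ω) - α ≠ 0 := by
          intro h0
          apply hpa
          rw [lift, Option.map_some]
          congr 1
          exact Subtype.ext (sub_eq_zero.1 h0)
        have hvk : (α' : Ω) - α ∈ k'' := sub_mem α'.2 (hkk α.2)
        have hv1 : V.valuation ((α' : Ω) - α) = 1 := L.val_const _ hvk hv0
        have hsub : V.valuation (((α' : Ω) - α) - (tt k Ω - α)) < 1 := by
          have : ((α' : Ω) - α) - (tt k Ω - α) = -(tt k Ω - α') := by ring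
          rw [this, Valuation.map_neg]
          exact hu
        have hu1 : V.valuation (tt k Ω - α) = 1 := cls1_unit_of V _ _ hv1 hsub
        refine ⟨((α' : Ω) - α)⁻¹, inv_mem hvk, ?_, ?_, ?_⟩
        · simp only [unif]
          rw [← V.valuation_le_one_iff, map_inv₀, hu1, inv_one]
        · rw [← V.valuation_le_one_iff, map_inv₀, hv1, inv_one]
        · simp only [unif]
          refine cls1_inv_sub V _ _ hu1 hv1 ?_
          rw [Valuation.map_sub_swap]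
          exact hsub
  obtain ⟨X', hX'k, hXV, hX'V, hX⟩ := key
  refine ⟨add_mem hc₀V (mul_mem hβV (pow_mem hXV m)), c₀ + β * X' ^ m, add_mem (hkk hc₀) (mul_mem (hkk hβ) (pow_mem hX'k m)), ?_⟩
  have h1 : c₀ + β * (unif k' a)⁻¹ ^ m - (c₀ + β * X' ^ m) = β * ((unif k' a)⁻¹ ^ m - X' ^ m) := by ring
  rw [h1, map_mul]
  have h2 := cls1_pow_sub V _ _ hXV hX'V hX m
  have h3 : V.valuation β ≤ 1 := (V.valuation_le_one_iff _).2 hβV
  calc V.valuation β * V.valuation ((unif k' a)⁻¹ ^ m - X' ^ m) ≤ 1 * V.valuation ((unif k' a)⁻¹ ^ m - X' ^ m) :=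
        mul_le_mul_left h3 _
    _ < 1 := by rwa [one_mul]

/-- at a place where `|x₀| > 1`, `b` integral. -/
theorem cls1_one {Ω : Type} [Field Ω] (V : ValuationSubring Ω) (x b e r : Ω) (hx : x ∉ V) (hb : b ∈ V) (he : e ∈ V)
    (hr : x - e = r ^ 2) : V.valuation ((x - b) * (r⁻¹) ^ 2 - 1) < 1 := by
  have hx1 : 1 < V.valuation x := by
    rw [← not_le, V.valuation_le_one_iff]
    exact hx
  have he1 : V.valuation e ≤ 1 := (V.valuation_le_one_iff _).2 he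
  have hxe : V.valuation (x - e) = V.valuation x := Valuation.map_sub_eq_of_lt_left _ (lt_of_le_of_lt he1 hx1)
  have hxe0 : x - e ≠ 0 := by
    intro h0
    rw [h0, map_zero] at hxe
    rw [← hxe] at hx1
    exact absurd hx1 (by simp)
  have h1 : (x - b) * (r⁻¹) ^ 2 - 1 = (e - b) * (x - e)⁻¹ := by
    have : (r⁻¹) ^ 2 = (x - e)⁻¹ := by rw [hr, inv_pow]
    rw [this]
    field_simp
    ring
  rw [h1, map_mul, map_inv₀, hxe]
  have h2 : V.valuation (e - b) ≤ 1 := (V.valuation_le_one_iff _).2 (sub_mem he hb)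
  calc V.valuation (e - b) * (V.valuation x)⁻¹ ≤ 1 * (V.valuation x)⁻¹ := mul_le_mul_left h2 _
    _ < 1 := by
      rw [one_mul]
      exact inv_lt_one_of_one_lt₀ hx1

theorem Pt1.cls (P : Pt1 Y x₀ e₁ e₂ e₃ a₀) (k' : IntermediateField k Ω) (hk : Y.k0 ≤ k') (hfin : FiniteDimensional k k')
    (a b : Option k') (hab : a ≠ b) (hb : x₀ ∉ Y.V k' b) (c₀ : Ω) (hc₀ : c₀ ∈ k') (β : Ω) (hβ : β ∈ k') (m : ℕ) :
    ∃ r ∈ Y.S.F k', x₀ - (c₀ + β * (unif k' a)⁻¹ ^ m) = r ^ 2 := by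
  classical
  obtain ⟨r₁, hr₁, hr⟩ := P.sq1
  have hr₁' : r₁ ∈ Y.S.F k' := Y.S.F_mono hk hr₁
  have hx0F : x₀ ∈ Y.S.F k' := Y.S.F_mono hk P.mem
  have ht0 : tt k Ω ≠ 0 := by
    have := unif_ne_zero k' hfin none
    simpa [unif] using this
  have hkkt : ∀ c ∈ k', c ∈ kt k' := fun c hc => IntermediateField.subset_adjoin _ _ hc
  set b' := c₀ + β * (unif k' a)⁻¹ ^ m with hb'
  have hbkt : b' ∈ kt k' := add_mem (hkkt _ hc₀) (mul_mem (hkkt _ hβ) (pow_mem (inv_mem (unif_mem_kt k' a)) m))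
  have hbF : b' ∈ Y.S.F k' := kt_le_F Y.S k' hfin b' hbkt
  have hkF : ∀ c ∈ k', c ∈ Y.S.F k' := fun c hc => kt_le_F Y.S k' hfin c (hkkt c hc)
  have htkt : tt k Ω ∈ kt k' := by
    have := inv_mem (unif_mem_kt k' (none : Option k'))
    simpa [unif] using this
  have htF : tt k Ω ∈ Y.S.F k' := kt_le_F Y.S k' hfin _ htkt
  have hz0 : x₀ - b' ≠ 0 := by
    intro h0
    apply P.tr
    rw [sub_eq_zero.1 h0]
    exact kt_alg k' hfin b' hbkt
  -- evenness at all places other than `a`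
  have hev : ∀ (k'' : IntermediateField k Ω) (hkk : k' ≤ k''), FiniteDimensional k k'' → ∀ p : Option k'', p ≠ lift hkk a →
      ∃ w ∈ Y.S.F k'', (Y.V k'' p).valuation ((x₀ - b') * w ^ 2) = 1 := by
    intro k'' hkk hfin'' p hpa
    obtain ⟨hbV, c, hc, hbc⟩ := cls1_bval Y k' k'' hkk (hk.trans hkk) hfin'' p c₀ hc₀ a β hβ m hpa
    rw [← hb'] at hbV hbc
    by_cases hx : x₀ ∈ Y.V k'' p
    · have h1 := P.stepII k'' (hk.trans hkk) hfin'' p c hc
      rw [not_lt] at h1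
      refine ⟨1, one_mem _, ?_⟩
      rw [one_pow, mul_one]
      have h2 : x₀ - b' = (x₀ - c) - (b' - c) := by ring
      have h3 : (Y.V k'' p).valuation (x₀ - b') = (Y.V k'' p).valuation (x₀ - c) := by
        rw [h2]
        exact Valuation.map_sub_eq_of_lt_left _ (lt_of_lt_of_le hbc h1)
      apply le_antisymm
      · rw [ValuationSubring.valuation_le_one_iff]
        exact sub_mem hx hbV
      · rw [h3]
        exact h1
    · exact P.even_neg k'' (hk.trans hkk) hfin'' p hx b' hbV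
  -- the class is a constant
  have hconst : ∃ ε : k', ∃ w ∈ Y.S.F k', x₀ - b' = (ε : Ω) * w ^ 2 := by
    obtain ⟨ε, hε, B, hBA, w, hw, hw0, hz⟩ := Y.desc k' hk hfin (x₀ - b') (sub_mem hx0F hbF) hz0 a.toFinset (by
      intro k'' hkk hfin'' α' hα'
      refine hev k'' hkk hfin'' (some α') ?_
      intro h0
      cases a with
      | none => simp [lift] at h0
      | some α =>
        rw [lift, Option.map_some, Option.some.injEq] at h0
        refine hα' α (by simp) ?_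
        rw [h0]
        rfl)
    cases a with
    | none =>
      have hB : B = ∅ := by simpa using hBA
      refine ⟨ε, w, hw, ?_⟩
      rw [hz, hB, Finset.prod_empty, mul_one]
    | some α =>
      have hB : B ⊆ {α} := by simpa using hBA
      rcases Finset.subset_singleton_iff.1 hB with h | h
      · refine ⟨ε, w, hw, ?_⟩
        rw [hz, h, Finset.prod_empty, mul_one]
      · exfalso
        obtain ⟨w', hw', hw1⟩ := hev k' le_rfl hfin none (by simp [lift])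
        have L := Y.loc k' hk hfin none
        have hε0 : (ε : Ω) ≠ 0 := by
          intro h0
          apply hε
          exact Subtype.ext h0
        obtain ⟨h1, h2⟩ := L.tt_inf ht0 α α.2
        rw [hz, h, Finset.prod_singleton] at hw1
        have h3 : (ε : Ω) * (tt k Ω - α) * w ^ 2 * w' ^ 2 = ε * ((tt k Ω - α) * (w * w') ^ 2) := by ring
        rw [h3, map_mul, map_mul, L.val_const _ ε.2 hε0, one_mul, h2, ← map_mul] at hw1
        apply L.ram (tt k Ω * (w * w')) (mul_mem htF (mul_mem hw hw'))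
        have h4 : BSC.unif k' none * (tt k Ω * (w * w')) ^ 2 = tt k Ω * (w * w') ^ 2 := by
          simp only [unif]
          field_simp
        rw [h4]
        exact hw1
  obtain ⟨ε, w, hw, hz⟩ := hconst
  have hbV : b' ∈ Y.V k' b := (cls1_bval Y k' k' le_rfl hk hfin b c₀ hc₀ a β hβ m (by
    rw [lift_refl]
    exact hab.symm)).1
  have h3 := cls1_one (Y.V k' b) x₀ b' e₁ r₁ hb hbV ((Y.loc k' hk hfin b).const _ (hk P.h1)) hr
  have h4 : (x₀ - b') * (r₁⁻¹) ^ 2 = ε * (w * r₁⁻¹) ^ 2 := by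
    rw [hz]
    ring
  rw [h4] at h3
  obtain ⟨d, hd, hd2⟩ := (Y.loc k' hk hfin b).pin _ ε.2 _ (mul_mem hw (inv_mem hr₁')) h3
  refine ⟨d * w, mul_mem (hkF d hd) hw, ?_⟩
  rw [hz, hd2]
  ring

theorem Pt1.stepIII0 (P : Pt1 Y x₀ e₁ e₂ e₃ a₀) (k' : IntermediateField k Ω) (hk : Y.k0 ≤ k') (hfin : FiniteDimensional k k')
    (a b : Option k') (hab : a ≠ b) (hb : x₀ ∉ Y.V k' b) (c₀ : Ω) (hc₀ : c₀ ∈ k') :
    (Y.U k' a).valuation (x₀ - c₀)⁻¹ < 1 := by
  have L : Loc Y.S k' a (Y.V k' a) := Y.loc k' hk hfin a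
  have hπ0 : unif k' a ≠ 0 := unif_ne_zero k' hfin a
  have hx : x₀ - c₀ ≠ 0 := by
    intro h
    have h1 : x₀ = c₀ := sub_eq_zero.1 h
    exact P.tr (h1 ▸ (level_alg k' hfin c₀ hc₀).2)
  unfold Sys.U
  rw [coarse_lt_one _ _ hπ0 L.unif]
  intro m
  by_contra hm
  push Not at hm
  set V := Y.V k' a with hV
  set z : Ω := (unif k' a)⁻¹ ^ m * (x₀ - c₀)⁻¹ with hz
  have hπv : V.valuation (unif k' a) ≠ 0 := (Valuation.ne_zero_iff _).2 hπ0
  have hzv : 1 < V.valuation z := by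
    rw [hz, map_mul, map_pow, map_inv₀, inv_pow, ← div_eq_inv_mul,
      one_lt_div₀ (pow_pos (zero_lt_iff.2 hπv) m)]
    exact hm
  have hs : ∀ β ∈ k', ∃ r ∈ Y.S.F k', (x₀ - c₀) * (1 - β * z) = r ^ 2 := by
    intro β hβ
    obtain ⟨r, hr, hrr⟩ := P.cls k' hk hfin a b hab hb c₀ hc₀ β hβ m
    refine ⟨r, hr, ?_⟩
    rw [← hrr, hz]
    field_simp
    ring
  obtain ⟨n, hn, hns⟩ := P.nsq k' hk hfin
  have hn0 : n ≠ 0 := by
    rintro rfl
    exact hns ⟨0, zero_mem _, by ring⟩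
  have hnv : V.valuation n = 1 := L.val_const n hn hn0
  obtain ⟨r₁, hr₁, q₁⟩ := hs 1 (one_mem _)
  obtain ⟨r₂, hr₂, q₂⟩ := hs n hn
  have hz1 : V.valuation (1 - z) = V.valuation z := by
    rw [V.valuation.map_sub_eq_of_lt_right (by rw [map_one]; exact hzv)]
  have hz10 : 1 - z ≠ 0 := by
    intro h
    rw [h, map_zero] at hz1
    rw [← hz1] at hzv
    exact absurd hzv (not_lt.2 zero_le_one)
  have hr10 : r₁ ≠ 0 := by
    rintro rfl
    rw [one_mul] at q₁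
    have h1 := mul_ne_zero hx hz10
    exact h1 (by rw [q₁]; ring)
  have e : n⁻¹ * (r₂ / r₁) ^ 2 - 1 = (1 - n) / (n * (1 - z)) := by
    rw [div_pow, ← q₁, ← q₂, one_mul]
    field_simp
    ring
  have hpin : V.valuation (n⁻¹ * (r₂ / r₁) ^ 2 - 1) < 1 := by
    rw [e, map_div₀, map_mul, hnv, one_mul, hz1]
    have h1 : V.valuation (1 - n) ≤ 1 :=
      (V.valuation_le_one_iff _).2 (L.const _ (sub_mem (one_mem _) hn))
    rw [div_lt_one₀ (lt_trans zero_lt_one hzv)]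
    exact lt_of_le_of_lt h1 hzv
  obtain ⟨d, hd, hnd⟩ := L.pin n⁻¹ (inv_mem hn) (r₂ / r₁) (div_mem hr₂ hr₁) hpin
  exact hns ⟨d⁻¹, inv_mem hd, by rw [inv_pow, ← hnd, inv_inv]⟩

theorem Pt1.stepIII (P : Pt1 Y x₀ e₁ e₂ e₃ a₀) (c₀ : Ω) (hc₀ : c₀ ∈ Y.k0) (k' : IntermediateField k Ω) (hk : Y.k0 ≤ k')
    (hfin : FiniteDimensional k k') (a : Option k') : (Y.U k' a).valuation (x₀ - c₀)⁻¹ < 1 := by
  by_cases ha : a = lift hk a₀
  · have hne : ∃ b : Option k', b ≠ a := by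
      rcases a with _ | α
      · exact ⟨some 0, by simp⟩
      · exact ⟨none, by simp⟩
    obtain ⟨b, hba⟩ := hne
    have h1 := P.stepIII0 k' hk hfin b a hba (by rw [ha]; exact P.base k' hk hfin) c₀ (hk hc₀)
    have L : Loc Y.S k' b (Y.V k' b) := Y.loc k' hk hfin b
    have h2 : (Y.V k' b).valuation (x₀ - c₀)⁻¹ < 1 := by
      have h3 := coarse_of_lt (Y.V k' b) (unif k' b) (unif_ne_zero k' hfin b) L.unif _ h1 0
      rwa [pow_zero] at h3
    have hb : x₀ ∉ Y.V k' b := by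
      intro h3
      have h4 : x₀ - c₀ ∈ Y.V k' b := sub_mem h3 (L.const c₀ (hk hc₀))
      rw [← ValuationSubring.valuation_le_one_iff] at h4
      have hx : x₀ - c₀ ≠ 0 := by
        intro h
        have h1 : x₀ = c₀ := sub_eq_zero.1 h
        exact P.tr (h1 ▸ (level_alg Y.k0 Y.fin0 c₀ hc₀).2)
      have h5 : (Y.V k' b).valuation (x₀ - c₀) * (Y.V k' b).valuation (x₀ - c₀)⁻¹ = 1 := by
        rw [← map_mul, mul_inv_cancel₀ hx, map_one]
      have h6 : (Y.V k' b).valuation (x₀ - c₀) * (Y.V k' b).valuation (x₀ - c₀)⁻¹ < 1 :=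
        mul_lt_one_of_nonneg_of_lt_one_right h4 zero_le h2
      rw [h5] at h6
      exact lt_irrefl _ h6
    exact P.stepIII0 k' hk hfin a b hba.symm hb c₀ (hk hc₀)
  · exact P.stepIII0 k' hk hfin a (lift hk a₀) ha (P.base k' hk hfin) c₀ (hk hc₀)

end BSC
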