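import Pool.Agent.Lib_MP_49ddc8.Tw9

/-!
# The section conjecture for curves with three fixed branch points
-/

set_option autoImplicit false

open Polynomial

namespace BSC

private theorem t10_range {k Ω : Type} [Field k] [Field Ω] [Algebra k Ω] (ι : AlgebraicClosure k →ₐ[k] Ω) (z : Ω)
    (hz : IsAlgebraic k z) : ∃ z', ι z' = z := by
  obtain ⟨p, hp, hpz⟩ := hz
  have hsplit : (p.map (algebraMap k (AlgebraicClosure k))).Splits := IsAlgClosed.splits _
  have h1 : z ∈ (p.map (algebraMap k Ω)).roots := by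
    rw [mem_roots ((Polynomial.map_ne_zero_iff (algebraMap k Ω).injective).2 hp), IsRoot.def,
      eval_map_algebraMap]
    exact hpz
  have h2 : p.map (algebraMap k Ω) = (p.map (algebraMap k (AlgebraicClosure k))).map ι.toRingHom := by
    rw [Polynomial.map_map]
    congr 1
    exact ι.comp_algebraMap.symm
  rw [h2, hsplit.roots_map_of_injective ι.toRingHom.injective, Multiset.mem_map] at h1
  obtain ⟨z', -, hz'⟩ := h1
  exact ⟨z', hz'⟩

/-- the section conjecture for curves `y² = f(x) G(u, x)` with three fixed branch points -/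
theorem bsc_cub (κ : Type) [Field κ] [CharZero κ] (K : Type) [Field K] [Algebra κ K]
    (htd : ∃ t : K, Transcendental κ t ∧ Algebra.IsAlgebraic (IntermediateField.adjoin κ {t}) K)
    (k : Type) [Field k] [CharZero k] (hk : (⊤ : IntermediateField ℚ k).FG) [Algebra κ (RatFunc k)]
    [FiniteDimensional κ (RatFunc k)] (φ : RatFunc k →ₐ[κ] AlgebraicClosure K) (f : k[X]) (hf : f.Separable)
    (hdeg : f.natDegree = 3) (G : k[X][X]) (hG : Even G.natDegree)
    (hcol : ∀ a e : AlgebraicClosure k, aeval e f = 0 →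
      G.eval₂ (aeval a : k[X] →ₐ[k] AlgebraicClosure k).toRingHom e = 0 → e ∉ IntermediateField.adjoin k {a})
    (hl : ∀ a e : AlgebraicClosure k, aeval a G.leadingCoeff = 0 → aeval e f = 0 →
      e ∉ IntermediateField.adjoin k (G.leadingCoeff.rootSet (AlgebraicClosure k)))
    (x y : AlgebraicClosure K)
    (hx : x ∈ IntermediateField.adjoin K (Set.range φ)) (hy : y ∈ IntermediateField.adjoin K (Set.range φ))
    (htr : Transcendental κ x)
    (hxy : y ^ 2 = f.eval₂ (φ.toRingHom.comp (algebraMap k (RatFunc k))) x *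
      G.eval₂ (φ.toRingHom.comp (algebraMap k[X] (RatFunc k))) x)
    (s : ((algebraicClosure κ (AlgebraicClosure K)) ≃ₐ[κ] (algebraicClosure κ (AlgebraicClosure K))) →*
      (AlgebraicClosure K ≃ₐ[K] AlgebraicClosure K)) (hs : Continuous s)
    (hres : ∀ (τ : (algebraicClosure κ (AlgebraicClosure K)) ≃ₐ[κ] (algebraicClosure κ (AlgebraicClosure K)))
      (x : algebraicClosure κ (AlgebraicClosure K)),
        s τ (x : AlgebraicClosure K) = ((τ x : algebraicClosure κ (AlgebraicClosure K)) : AlgebraicClosure K)) :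
    ∃! O : ValuationSubring K,
      ((∀ c : κ, algebraMap κ K c ∈ O) ∧ O ≠ ⊤ ∧
        ∀ x ∈ O, ∃ c : κ, x - algebraMap κ K c = 0 ∨ (x - algebraMap κ K c)⁻¹ ∉ O) ∧
      ∃ W : ValuationSubring (AlgebraicClosure K),
        W.comap (algebraMap K (AlgebraicClosure K)) = O ∧
        ∀ τ, ∀ y : AlgebraicClosure K, (s τ y ∈ W ↔ y ∈ W) := by
  refine bsc_of_U' κ K htd k φ s hs hres ?_
  intro _ _ _ hφ hφk S hdep hiff hfix
  have hk1 : φ.toRingHom.comp (algebraMap k (RatFunc k)) = algebraMap k (AlgebraicClosure K) :=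
    RingHom.ext fun r => (hφk r).symm
  have hk2 : φ.toRingHom.comp (algebraMap k[X] (RatFunc k)) =
      (algebraMap (RatFunc k) (AlgebraicClosure K)).comp (algebraMap k[X] (RatFunc k)) :=
    RingHom.ext fun r => (hφ _).symm
  let ι : AlgebraicClosure k →ₐ[k] AlgebraicClosure K := IsAlgClosed.lift
  have hadj : ∀ (T : Set (AlgebraicClosure k)) (e : AlgebraicClosure k), ι e ∈ IntermediateField.adjoin k (ι '' T) →
      e ∈ IntermediateField.adjoin k T := by
    intro T e hmem
    have h1 : IntermediateField.adjoin k (ι '' T) = (IntermediateField.adjoin k T).map ι :=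
      (IntermediateField.adjoin_map k T ι).symm
    rw [h1] at hmem
    obtain ⟨b, hb, hbe⟩ := hmem
    have h2 : b = e := ι.toRingHom.injective hbe
    rw [← h2]
    exact hb
  have haev : ∀ (p : k[X]) (z : AlgebraicClosure k), aeval (ι z) p = 0 → aeval z p = 0 := by
    intro p z h0
    apply ι.toRingHom.injective
    rw [map_zero]
    show ι (aeval z p) = 0
    rw [← aeval_algHom_apply]
    exact h0
  refine exists_U_cub (consts_of_fg hk) S hdep f hf hdeg G hG ?_ ?_ x y (hfix x hx) (hfix y hy)
    (fun h => htr ((hiff x).1 h)) ?_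
  · intro a e ha he h0 hmem
    obtain ⟨a', rfl⟩ := t10_range ι a ha
    obtain ⟨e', rfl⟩ := t10_range ι e ⟨f, hf.ne_zero, he⟩
    refine hcol a' e' (haev f e' he) ?_ (hadj {a'} e' (by rw [Set.image_singleton]; exact hmem))
    apply ι.toRingHom.injective
    rw [map_zero, Polynomial.hom_eval₂]
    have h1 : ι.toRingHom.comp (aeval a' : k[X] →ₐ[k] AlgebraicClosure k).toRingHom =
        (aeval (ι a') : k[X] →ₐ[k] AlgebraicClosure K).toRingHom := by
      apply RingHom.ext
      intro p
      show ι (aeval a' p) = aeval (ι a') p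
      rw [aeval_algHom_apply]
    rw [h1]
    exact h0
  · intro a e ha he hmem
    by_cases hl0 : G.leadingCoeff = 0
    · rw [hl0, rootSet_zero, IntermediateField.adjoin_empty, IntermediateField.mem_bot] at hmem
      obtain ⟨b, rfl⟩ := hmem
      refine hl 0 (algebraMap k _ b) (by rw [hl0, map_zero]) ?_ (IntermediateField.algebraMap_mem _ b)
      apply haev
      rw [AlgHom.commutes]
      exact he
    obtain ⟨a', rfl⟩ := t10_range ι a ⟨G.leadingCoeff, hl0, ha⟩
    obtain ⟨e', rfl⟩ := t10_range ι e ⟨f, hf.ne_zero, he⟩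
    refine hl a' e' (haev _ a' ha) (haev f e' he) (hadj _ e' ?_)
    have h1 : ι '' (G.leadingCoeff.rootSet (AlgebraicClosure k)) = G.leadingCoeff.rootSet (AlgebraicClosure K) := by
      ext z
      constructor
      · rintro ⟨b, hb, rfl⟩
        rw [mem_rootSet] at hb ⊢
        refine ⟨hb.1, ?_⟩
        rw [aeval_algHom_apply, hb.2, map_zero]
      · intro hz
        rw [mem_rootSet] at hz
        obtain ⟨b, rfl⟩ := t10_range ι z ⟨_, hz.1, hz.2⟩
        exact ⟨b, mem_rootSet.2 ⟨hz.1, haev _ b hz.2⟩, rfl⟩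
    rw [h1]
    exact hmem
  · rw [hxy, hk1, hk2, ev2_tt]
    rfl

end BSC
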