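import Pool.Agent.Lib_MP_49ddc8.Desc

/-!
# Specialisation of a chain of halvings, without reference to the twist

The step is `HalfStep F (x - e₁) e₁ e₂ e₃ x x'`: every `HalfStep F D e₁ e₂ e₃ x x'` is one (`HalfStep.self`).
-/

set_option autoImplicit false

open Polynomial

namespace BSC

/-- a halving step for the twist by `D` is a halving step for the twist by `x - e₁` -/
theorem HalfStep.self {Ω : Type} [Field Ω] (F : Subfield Ω) (D e₁ e₂ e₃ x x' : Ω) (hD : D ≠ 0) (hDF : D ∈ F)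
    (h1 : x ≠ e₁) (hst : HalfStep F D e₁ e₂ e₃ x x') : HalfStep F (x - e₁) e₁ e₂ e₃ x x' := by
  obtain ⟨r₁, hr₁, r₂, hr₂, r₃, hr₃, q₁, q₂, q₃, h, hh, hx'⟩ := hst
  have k1 : x - e₁ ≠ 0 := sub_ne_zero.2 h1
  have hr0 : r₁ ≠ 0 := by
    rintro rfl
    exact mul_ne_zero hD k1 (by rw [q₁]; ring)
  have hx1 : x - e₁ = r₁ ^ 2 / D := by
    rw [eq_div_iff hD]
    linear_combination q₁
  have hxF : x - e₁ ∈ F := by
    rw [hx1]
    exact div_mem (pow_mem hr₁ 2) hDF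
  refine ⟨x - e₁, hxF, r₁ * r₂ / D, div_mem (mul_mem hr₁ hr₂) hDF, r₁ * r₃ / D, div_mem (mul_mem hr₁ hr₃) hDF, by ring,
    ?_, ?_, h, ?_, hx'⟩
  · have h2 : x - e₂ = r₂ ^ 2 / D := by
      rw [eq_div_iff hD]
      linear_combination q₂
    rw [h2, hx1]
    field_simp
  · have h3 : x - e₃ = r₃ ^ 2 / D := by
      rw [eq_div_iff hD]
      linear_combination q₃
    rw [h3, hx1]
    field_simp
  · rw [hh, hx1]
    field_simp

section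

variable {k Ω : Type} [Field k] [CharZero k] [Field Ω] [IsAlgClosed Ω] [Algebra k Ω] [Algebra (RatFunc k) Ω]
  [IsScalarTower k (RatFunc k) Ω]

private theorem v_eq_one_of_sq2 {Ω : Type} [Field Ω] {V : ValuationSubring Ω} {x : Ω} (h : V.valuation (x ^ 2) = 1) :
    V.valuation x = 1 := by
  rw [map_pow] at h
  exact (pow_eq_one_iff_of_nonneg zero_le two_ne_zero).1 h

private theorem close_mul2 {Ω : Type} [Field Ω] {V : ValuationSubring Ω} {a a' b b' : Ω} (ha : V.valuation (a - a') < 1)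
    (hb : V.valuation (b - b') < 1) (ha1 : V.valuation a ≤ 1) (hb1 : V.valuation b' ≤ 1) :
    V.valuation (a * b - a' * b') < 1 := by
  have e : a * b - a' * b' = a * (b - b') + (a - a') * b' := by ring
  rw [e]
  refine V.valuation.map_add_lt ?_ ?_
  · rw [map_mul]
    exact mul_lt_one_of_nonneg_of_lt_one_right ha1 zero_le hb
  · rw [map_mul]
    exact mul_lt_one_of_nonneg_of_lt_one_left zero_le ha hb1

/-- `a/s ≡ b/σ` when `a ≡ b`, `s ≡ σ`, `|σ| = 1` -/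
private theorem close_div2 {Ω : Type} [Field Ω] {V : ValuationSubring Ω} {a b s σ : Ω} (hab : V.valuation (a - b) < 1)
    (hs : V.valuation (s - σ) < 1) (hσ : V.valuation σ = 1) (hb : V.valuation b ≤ 1) : V.valuation (a / s - b / σ) < 1 := by
  have hs1 : V.valuation s = 1 := by
    have e : s = σ + (s - σ) := by ring
    rw [e, V.valuation.map_add_eq_of_lt_left (by rw [hσ]; exact hs), hσ]
  have hs0 : s ≠ 0 := by
    rintro rfl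
    rw [map_zero] at hs1
    exact zero_ne_one hs1
  have hσ0 : σ ≠ 0 := by
    rintro rfl
    rw [map_zero] at hσ
    exact zero_ne_one hσ
  have e : a / s - b / σ = ((a - b) * σ - b * (s - σ)) / (s * σ) := by
    field_simp
    ring
  rw [e, map_div₀, map_mul V.valuation s, hs1, hσ, one_mul, div_one]
  refine V.valuation.map_sub_lt ?_ ?_
  · rw [map_mul, hσ, mul_one]
    exact hab
  · rw [map_mul]
    exact mul_lt_one_of_nonneg_of_lt_one_right hb zero_le hs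

private theorem Loc.sqrt_lift2 {S : Sec (RatFunc k) Ω} {k' : IntermediateField k Ω} {a : Option k'} {V : ValuationSubring Ω}
    (L : Loc S k' a V) (r u : Ω) (hr : r ∈ S.F k') (hu : u ∈ k') (hu0 : u ≠ 0)
    (h : V.valuation (r ^ 2 - u) < 1) : ∃ ρ ∈ k', u = ρ ^ 2 ∧ V.valuation (r - ρ) < 1 := by
  have hu1 : V.valuation u = 1 := L.val_const u hu hu0
  have hr2 : V.valuation (r ^ 2) = 1 := by
    have e : r ^ 2 = u + (r ^ 2 - u) := by ring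
    rw [e, V.valuation.map_add_eq_of_lt_left (by rw [hu1]; exact h), hu1]
  have hr1 : V.valuation r = 1 := v_eq_one_of_sq2 hr2
  have hr0 : r ≠ 0 := by
    rintro rfl
    rw [map_zero] at hr1
    exact zero_ne_one hr1
  have hp : V.valuation (u * r⁻¹ ^ 2 - 1) < 1 := by
    have e : u * r⁻¹ ^ 2 - 1 = (u - r ^ 2) * r⁻¹ ^ 2 := by
      field_simp
    rw [e, map_mul, map_pow, map_inv₀, hr1, inv_one, one_pow, mul_one, V.valuation.map_sub_swap]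
    exact h
  obtain ⟨d, hd, hud⟩ := L.pin u hu r⁻¹ (inv_mem hr) hp
  have e : r ^ 2 - u = (r - d) * (r + d) := by
    rw [hud]
    ring
  rw [e, map_mul] at h
  by_cases h1 : V.valuation (r - d) < 1
  · exact ⟨d, hd, hud, h1⟩
  · refine ⟨-d, neg_mem hd, by rw [hud]; ring, ?_⟩
    rw [sub_neg_eq_add]
    by_contra h2
    push Not at h1 h2
    exact absurd h (not_lt.2 (one_le_mul h1 h2))

private theorem Loc.TT_close2 {S : Sec (RatFunc k) Ω} {k' : IntermediateField k Ω} {p : Option k'} {V : ValuationSubring Ω}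
    (L : Loc S k' p V) (a b c g h : Ω) (ha : a ∈ k') (hb : b ∈ k') (hc : c ∈ k') (hg : g ∈ k') (hga : g ≠ a)
    (hh : V.valuation (h - g) < 1) : V.valuation (TT a b c h - TT a b c g) < 1 := by
  have h1 : V.valuation (g - a) = 1 := L.val_const _ (sub_mem hg ha) (sub_ne_zero.2 hga)
  have h2 : V.valuation (h - a) = 1 := by
    have e : h - a = (g - a) + (h - g) := by ring
    rw [e, V.valuation.map_add_eq_of_lt_left (by rw [h1]; exact hh), h1]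
  have h3 : V.valuation ((a - b) * (a - c)) ≤ 1 :=
    (V.valuation_le_one_iff _).2 (L.const _ (mul_mem (sub_mem ha hb) (sub_mem ha hc)))
  have hg0 : g - a ≠ 0 := sub_ne_zero.2 hga
  have hh0 : h - a ≠ 0 := by
    intro h0
    rw [h0, map_zero] at h2
    exact zero_ne_one h2
  have e : TT a b c h - TT a b c g = ((a - b) * (a - c)) * (h - g) * (-1) / ((h - a) * (g - a)) := by
    unfold TT
    field_simp
    ring
  rw [e, map_div₀, map_mul V.valuation (h - a), h1, h2, one_mul, div_one, map_mul, map_mul, Valuation.map_neg,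
    map_one, mul_one]
  exact mul_lt_one_of_nonneg_of_lt_one_right h3 zero_le hh

theorem Sys.spec_stepX (Y : Sys k Ω) (e₁ e₂ e₃ : Ω) (h1 : e₁ ∈ Y.k0) (h2 : e₂ ∈ Y.k0) (h3 : e₃ ∈ Y.k0)
    (h12 : e₁ ≠ e₂) (h13 : e₁ ≠ e₃) (h23 : e₂ ≠ e₃) (x x' : Ω) (hst : HalfStep (Y.S.F Y.k0) (x - e₁) e₁ e₂ e₃ x x')
    (k' : IntermediateField k Ω) (hk : Y.k0 ≤ k') (hfin : FiniteDimensional k k') (a : Option k')
    (c : Ω) (hc : c ∈ k') (hc1 : c ≠ e₁) (hc2 : c ≠ e₂) (hc3 : c ≠ e₃)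
    (hxc : (Y.V k' a).valuation (x - c) < 1) :
    ∃ c' ∈ k', c' ≠ e₁ ∧ c' ≠ e₂ ∧ c' ≠ e₃ ∧ DD e₁ e₂ e₃ c' = c ∧ (Y.V k' a).valuation (x' - c') < 1 := by
  have : CharZero Ω := charZero_of_injective_algebraMap (algebraMap k Ω).injective
  obtain ⟨r₁, hr₁, r₂, hr₂, r₃, hr₃, q₁, q₂, q₃, h, hh, hx'⟩ := hst
  have L : Loc Y.S k' a (Y.V k' a) := Y.loc k' hk hfin a
  set V := Y.V k' a with hV
  have hk0 : (Y.k0 : Set Ω) ⊆ (k' : Set Ω) := fun z hz => hk hz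
  have hF := Y.S.F_mono hk0
  have he1 : e₁ ∈ k' := hk h1
  have he2 : e₂ ∈ k' := hk h2
  have he3 : e₃ ∈ k' := hk h3
  have hcle : ∀ z ∈ k', V.valuation z ≤ 1 := fun z hz => (V.valuation_le_one_iff _).2 (L.const z hz)
  have hc10 : c - e₁ ≠ 0 := sub_ne_zero.2 hc1
  have hc1k : c - e₁ ∈ k' := sub_mem hc he1
  have hc1v : V.valuation (c - e₁) = 1 := L.val_const _ hc1k hc10
  have hx1 : V.valuation ((x - e₁) - (c - e₁)) < 1 := by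
    rw [show x - e₁ - (c - e₁) = x - c by ring]
    exact hxc
  have hx1le : V.valuation (x - e₁) ≤ 1 := by
    have e : x - e₁ = (x - c) + (c - e₁) := by ring
    rw [e]
    exact V.valuation.map_add_le hxc.le hc1v.le
  have hxe : ∀ e ∈ k', c ≠ e → ∀ r ∈ Y.S.F Y.k0, (x - e₁) * (x - e) = r ^ 2 →
      ∃ ρ ∈ k', (c - e₁) * (c - e) = ρ ^ 2 ∧ V.valuation (r - ρ) < 1 := by
    intro e he hce r hr hre
    refine L.sqrt_lift2 r ((c - e₁) * (c - e)) (hF hr) (mul_mem hc1k (sub_mem hc he))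
      (mul_ne_zero hc10 (sub_ne_zero.2 hce)) ?_
    rw [← hre]
    refine close_mul2 hx1 ?_ hx1le (hcle _ (sub_mem hc he))
    rw [show x - e - (c - e) = x - c by ring]
    exact hxc
  obtain ⟨ρ₁, hρ₁, s₁, v₁⟩ := hxe e₁ he1 hc1 r₁ hr₁ q₁
  obtain ⟨ρ₂, hρ₂, s₂, v₂⟩ := hxe e₂ he2 hc2 r₂ hr₂ q₂
  obtain ⟨ρ₃, hρ₃, s₃, v₃⟩ := hxe e₃ he3 hc3 r₃ hr₃ q₃
  have hrle : ∀ r ρ : Ω, ρ ∈ k' → V.valuation (r - ρ) < 1 → V.valuation r ≤ 1 := by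
    intro r ρ hρ hv
    have e : r = (r - ρ) + ρ := by ring
    rw [e]
    exact V.valuation.map_add_le hv.le (hcle ρ hρ)
  set g : Ω := c + (ρ₁ * ρ₂ + ρ₁ * ρ₃ + ρ₂ * ρ₃) / (c - e₁) with hg
  have hσ : ρ₁ * ρ₂ + ρ₁ * ρ₃ + ρ₂ * ρ₃ ∈ k' :=
    add_mem (add_mem (mul_mem hρ₁ hρ₂) (mul_mem hρ₁ hρ₃)) (mul_mem hρ₂ hρ₃)
  have hgk : g ∈ k' := add_mem hc (div_mem hσ hc1k)
  have hhg : V.valuation (h - g) < 1 := by
    have e : h - g = (x - c) + ((r₁ * r₂ + r₁ * r₃ + r₂ * r₃) / (x - e₁) - (ρ₁ * ρ₂ + ρ₁ * ρ₃ + ρ₂ * ρ₃) / (c - e₁)) := by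
      rw [hh, hg]
      ring
    rw [e]
    refine V.valuation.map_add_lt hxc (close_div2 ?_ hx1 hc1v (hcle _ hσ))
    have e2 : r₁ * r₂ + r₁ * r₃ + r₂ * r₃ - (ρ₁ * ρ₂ + ρ₁ * ρ₃ + ρ₂ * ρ₃) =
        (r₁ * r₂ - ρ₁ * ρ₂) + (r₁ * r₃ - ρ₁ * ρ₃) + (r₂ * r₃ - ρ₂ * ρ₃) := by ring
    rw [e2]
    exact V.valuation.map_add_lt (V.valuation.map_add_lt
      (close_mul2 v₁ v₂ (hrle _ _ hρ₁ v₁) (hcle _ hρ₂)) (close_mul2 v₁ v₃ (hrle _ _ hρ₁ v₁) (hcle _ hρ₃)))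
      (close_mul2 v₂ v₃ (hrle _ _ hρ₂ v₂) (hcle _ hρ₃))
  obtain ⟨-, -, -, -, -, -, g1, g2, g3⟩ := half_sub (c - e₁) e₁ e₂ e₃ c ρ₁ ρ₂ ρ₃ g hc10 h12 h13 h23 s₁ s₂ s₃ hg
  have hDD : DD e₁ e₂ e₃ g = c := DD_half (c - e₁) e₁ e₂ e₃ c ρ₁ ρ₂ ρ₃ g hc10 h12 h13 h23 s₁ s₂ s₃ hg
  obtain ⟨d1, d2, d3⟩ := DD_TT e₁ e₂ e₃ g h12 h13 h23 g1 g2 g3
  have hTk : ∀ a ∈ k', ∀ b ∈ k', ∀ c ∈ k', TT a b c g ∈ k' := by
    intro a ha b hb c hc
    exact add_mem ha (div_mem (mul_mem (sub_mem ha hb) (sub_mem ha hc)) (sub_mem hgk ha))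
  rcases hx' with rfl | rfl | rfl | rfl
  · exact ⟨g, hgk, g1, g2, g3, hDD, hhg⟩
  · obtain ⟨n1, n2, n3, -⟩ := TT_ne e₁ e₂ e₃ g h12 h13 g1 g2 g3
    exact ⟨TT e₁ e₂ e₃ g, hTk _ he1 _ he2 _ he3, n1, n2, n3, by rw [d1, hDD],
      L.TT_close2 e₁ e₂ e₃ g h he1 he2 he3 hgk g1 hhg⟩
  · obtain ⟨n1, n2, n3, -⟩ := TT_ne e₂ e₁ e₃ g h12.symm h23 g2 g1 g3
    exact ⟨TT e₂ e₁ e₃ g, hTk _ he2 _ he1 _ he3, n2, n1, n3, by rw [d2, hDD],
      L.TT_close2 e₂ e₁ e₃ g h he2 he1 he3 hgk g2 hhg⟩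
  · obtain ⟨n1, n2, n3, -⟩ := TT_ne e₃ e₁ e₂ g h13.symm h23.symm g3 g1 g2
    exact ⟨TT e₃ e₁ e₂ g, hTk _ he3 _ he1 _ he2, n2, n3, n1, by rw [d3, hDD],
      L.TT_close2 e₃ e₁ e₂ g h he3 he1 he2 hgk g3 hhg⟩

theorem Sys.specX (Y : Sys k Ω) (e₁ e₂ e₃ : Ω) (h1 : e₁ ∈ Y.k0) (h2 : e₂ ∈ Y.k0) (h3 : e₃ ∈ Y.k0)
    (h12 : e₁ ≠ e₂) (h13 : e₁ ≠ e₃) (h23 : e₂ ≠ e₃) (X : ℕ → Ω)
    (hst : ∀ m, HalfStep (Y.S.F Y.k0) (X m - e₁) e₁ e₂ e₃ (X m) (X (m + 1)))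
    (k' : IntermediateField k Ω) (hk : Y.k0 ≤ k') (hfin : FiniteDimensional k k') (a : Option k')
    (c : Ω) (hc : c ∈ k') (hc1 : c ≠ e₁) (hc2 : c ≠ e₂) (hc3 : c ≠ e₃)
    (hxc : (Y.V k' a).valuation (X 0 - c) < 1) :
    ∃ C : ℕ → Ω, C 0 = c ∧ (∀ m, C m ∈ k') ∧ (∀ m, C m ≠ e₁ ∧ C m ≠ e₂ ∧ C m ≠ e₃) ∧
      ∀ m, DD e₁ e₂ e₃ (C (m + 1)) = C m := by
  have step : ∀ m c, (c ∈ k' ∧ c ≠ e₁ ∧ c ≠ e₂ ∧ c ≠ e₃ ∧ (Y.V k' a).valuation (X m - c) < 1) →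
      ∃ c', (c' ∈ k' ∧ c' ≠ e₁ ∧ c' ≠ e₂ ∧ c' ≠ e₃ ∧ (Y.V k' a).valuation (X (m + 1) - c') < 1) ∧
        DD e₁ e₂ e₃ c' = c := by
    rintro m c ⟨hc, hc1, hc2, hc3, hxc⟩
    obtain ⟨c', a1, a2, a3, a4, a5, a6⟩ :=
      Y.spec_stepX e₁ e₂ e₃ h1 h2 h3 h12 h13 h23 (X m) (X (m + 1)) (hst m) k' hk hfin a c hc hc1 hc2 hc3 hxc
    exact ⟨c', ⟨a1, a2, a3, a4, a6⟩, a5⟩
  choose! f hf using step
  let C : ℕ → Ω := fun m => Nat.rec c (fun m c => f m c) m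
  have hC0 : C 0 = c := rfl
  have hCs : ∀ m, C (m + 1) = f m (C m) := fun m => rfl
  have hP : ∀ m, (C m ∈ k' ∧ C m ≠ e₁ ∧ C m ≠ e₂ ∧ C m ≠ e₃ ∧ (Y.V k' a).valuation (X m - C m) < 1) := by
    intro m
    induction m with
    | zero => exact ⟨hc, hc1, hc2, hc3, hxc⟩
    | succ m ih =>
      rw [hCs]
      exact (hf m (C m) ih).1
  refine ⟨C, hC0, fun m => (hP m).1, fun m => ⟨(hP m).2.1, (hP m).2.2.1, (hP m).2.2.2.1⟩, fun m => ?_⟩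
  rw [hCs]
  exact (hf m (C m) (hP m)).2

end

end BSC
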