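import Pool.Agent.Lib_MP_49ddc8.Desc

/-!
# Descent for a quadratic twist

`D = c ∏_{α ∈ A} (t - α)` with `α ∈ A` in `k0`, `D y² = ∏_{e ∈ I} (x - e)`, `|I|` odd.  If every `e ∈ I` is moved by some
`S.s τ` which fixes `x`, `c` and the elements of `A`, then `x` has a pole at all `α ∈ A` and all `D (x - e)` are squares.
-/

set_option autoImplicit false

open Polynomial

namespace BSC

section

variable {k Ω : Type} [Field k] [CharZero k] [Field Ω] [IsAlgClosed Ω] [Algebra k Ω] [Algebra (RatFunc k) Ω]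
  [IsScalarTower k (RatFunc k) Ω]

/-- `S.s τ` maps `F k'` to itself if `k'` is normal -/
theorem Sec.F_stable (S : Sec (RatFunc k) Ω) (k' : IntermediateField k Ω)
    (hnorm : ∀ τ, ∀ c ∈ k', S.s τ c ∈ k') (τ : algebraicClosure (RatFunc k) Ω ≃ₐ[RatFunc k] algebraicClosure (RatFunc k) Ω)
    (z : Ω) (hz : z ∈ S.F k') : S.s τ z ∈ S.F k' := by
  intro ρ hρ
  have h1 : S.s (τ⁻¹ * ρ * τ) z = z := by
    refine hz _ fun x hx => ?_
    have h2 : ((τ x : algebraicClosure (RatFunc k) Ω) : Ω) ∈ k' := by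
      rw [← S.res τ x]
      exact hnorm τ _ hx
    have h3 : ρ (τ x) = τ x := hρ _ h2
    show τ⁻¹ (ρ (τ x)) = x
    rw [h3]
    show (τ⁻¹ * τ) x = x
    rw [inv_mul_cancel]
    rfl
  have h2 : S.s ρ (S.s τ z) = S.s τ (S.s (τ⁻¹ * ρ * τ) z) := by
    have h3 : S.s (τ * (τ⁻¹ * ρ * τ)) z = S.s τ (S.s (τ⁻¹ * ρ * τ) z) := by
      rw [map_mul]; rfl
    rw [← h3]
    have h4 : τ * (τ⁻¹ * ρ * τ) = ρ * τ := by group
    rw [h4, map_mul]
    rfl
  rw [h2, h1]

theorem Sec.s_tt (S : Sec (RatFunc k) Ω) (τ : algebraicClosure (RatFunc k) Ω ≃ₐ[RatFunc k] algebraicClosure (RatFunc k) Ω) :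
    S.s τ (tt k Ω) = tt k Ω := by
  have h := S.res τ (algebraMap (RatFunc k) (algebraicClosure (RatFunc k) Ω) RatFunc.X)
  rw [AlgEquiv.commutes] at h
  exact h

/-- the twist -/
noncomputable def twD {k' : IntermediateField k Ω} (c : Ω) (A : Finset k') : Ω := c * ∏ α ∈ A, (tt k Ω - (α : Ω))

theorem tw_tt_mem (S : Sec (RatFunc k) Ω) (k' : IntermediateField k Ω) (hfin : FiniteDimensional k k') :
    tt k Ω ∈ S.F k' := by
  have h := unif_mem_kt k' (none : Option k')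
  have h2 := inv_mem h
  simp only [unif, inv_inv] at h2
  exact kt_le_F S k' hfin _ h2

theorem tw_const_mem (S : Sec (RatFunc k) Ω) (k' : IntermediateField k Ω) (hfin : FiniteDimensional k k') (c : Ω)
    (hc : c ∈ k') : c ∈ S.F k' :=
  kt_le_F S k' hfin c (IntermediateField.subset_adjoin _ _ hc)

variable (Y : Sys k Ω)

theorem tw_sub_val {k' : IntermediateField k Ω} {V : ValuationSubring Ω} {S : Sec (RatFunc k) Ω} (β : k')
    (L : Loc S k' (some β) V) (α : Ω) (hα : α ∈ k') (hne : (β : Ω) ≠ α) : V.valuation (tt k Ω - α) = 1 := by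
  have h1 : V.valuation (tt k Ω - β) < 1 := L.unif
  have h2 : V.valuation ((β : Ω) - α) = 1 := L.val_const _ (sub_mem β.2 hα) (sub_ne_zero.2 hne)
  have e : tt k Ω - α = ((β : Ω) - α) + (tt k Ω - β) := by ring
  rw [e, V.valuation.map_add_eq_of_lt_left (by rw [h2]; exact h1), h2]

theorem tw_prod_val {k' k'' : IntermediateField k Ω} {V : ValuationSubring Ω} {S : Sec (RatFunc k) Ω} (hkk : k' ≤ k'') (β : k'')
    (L : Loc S k'' (some β) V) (A : Finset k') (hne : ∀ α ∈ A, (α : Ω) ≠ (β : Ω)) :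
    V.valuation (∏ α ∈ A, (tt k Ω - (α : Ω))) = 1 := by
  rw [map_prod]
  exact Finset.prod_eq_one fun α hα => tw_sub_val β L α (hkk α.2) (hne α hα).symm

/-- `D` is a unit at `β ∉ A` -/
theorem twD_unit {k' k'' : IntermediateField k Ω} {V : ValuationSubring Ω} {S : Sec (RatFunc k) Ω} (hkk : k' ≤ k'') (β : k'')
    (L : Loc S k'' (some β) V) (A : Finset k') (c : Ω) (hc : c ∈ k') (hc0 : c ≠ 0) (hne : ∀ α ∈ A, (α : Ω) ≠ (β : Ω)) :
    V.valuation (twD c A) = 1 := by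
  unfold twD
  rw [map_mul, tw_prod_val hkk β L A hne, L.val_const c (hkk hc) hc0, one_mul]

/-- `|D| = |t - α|` at `α ∈ A` -/
theorem twD_val {k' : IntermediateField k Ω} {V : ValuationSubring Ω} {S : Sec (RatFunc k) Ω} (α : k')
    (L : Loc S k' (some α) V) (A : Finset k') (c : Ω) (hc : c ∈ k') (hc0 : c ≠ 0) (hα : α ∈ A) :
    V.valuation (twD c A) = V.valuation (tt k Ω - α) := by
  classical
  unfold twD
  rw [map_mul, L.val_const c hc hc0, one_mul, ← Finset.mul_prod_erase A _ hα, map_mul,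
    tw_prod_val le_rfl α L (A.erase α) (fun β hβ h => (Finset.ne_of_mem_erase hβ) (Subtype.ext h)), mul_one]

theorem twD_mem (S : Sec (RatFunc k) Ω) {k' : IntermediateField k Ω} (k'' : IntermediateField k Ω) (hkk : k' ≤ k'')
    (hfin : FiniteDimensional k k'') (A : Finset k') (c : Ω) (hc : c ∈ k') : twD c A ∈ S.F k'' := by
  unfold twD
  refine mul_mem (tw_const_mem S k'' hfin c (hkk hc)) (prod_mem fun α _ => ?_)
  exact sub_mem (tw_tt_mem S k'' hfin) (tw_const_mem S k'' hfin _ (hkk α.2))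

theorem twD_ne {k' : IntermediateField k Ω} (hfin : FiniteDimensional k k') (A : Finset k') (c : Ω) (hc0 : c ≠ 0) :
    twD c A ≠ 0 := by
  unfold twD
  exact mul_ne_zero hc0 (Finset.prod_ne_zero_iff.2 fun α _ => unif_ne_zero k' hfin (some α))

private theorem t3_big_ne {V : ValuationSubring Ω} {x : Ω} (hx : x ∉ V) : V.valuation x ≠ 0 := by
  intro h
  apply hx
  rw [← V.valuation_le_one_iff, h]
  exact zero_le_one

private theorem t3_sub_big {V : ValuationSubring Ω} {x e : Ω} (he : e ∈ V) (hx : x ∉ V) :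
    V.valuation (x - e) = V.valuation x := by
  apply Valuation.map_sub_eq_of_lt_left
  refine lt_of_le_of_lt ((V.valuation_le_one_iff _).2 he) ?_
  rw [← not_le, V.valuation_le_one_iff]
  exact hx

/-- evenness where `x` has a pole -/
theorem tw_even_big {V : ValuationSubring Ω} (F : Subfield Ω) (D x y : Ω) (I : Finset Ω) (hIV : ∀ e ∈ I, e ∈ V) (m : ℕ)
    (hI : I.card = 2 * m + 1) (hD : D ∈ F) (hx : x ∈ F) (hy : y ∈ F) (hD0 : D ≠ 0) (hy0 : y ≠ 0)
    (hxy : ∏ e ∈ I, (x - e) = D * y ^ 2) (hxV : x ∉ V) (e : Ω) (he : e ∈ I) :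
    ∃ w ∈ F, V.valuation (D * (x - e) * w ^ 2) = 1 := by
  have h1 : V.valuation (D * y ^ 2) = V.valuation x ^ (2 * m + 1) := by
    rw [← hxy, map_prod, Finset.prod_congr rfl (fun e' he' => t3_sub_big (hIV e' he') hxV), Finset.prod_const, hI]
  have hx0 := t3_big_ne hxV
  refine ⟨x ^ m / (D * y), div_mem (pow_mem hx m) (mul_mem hD hy), ?_⟩
  have hv0 : V.valuation (D * y ^ 2) ≠ 0 := (Valuation.ne_zero_iff _).2 (mul_ne_zero hD0 (pow_ne_zero 2 hy0))
  have e1 : D * (x - e) * (x ^ m / (D * y)) ^ 2 = (x - e) * (x ^ m) ^ 2 * (D * y ^ 2)⁻¹ := by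
    field_simp
  rw [e1, map_mul, map_mul, map_inv₀, t3_sub_big (hIV e he) hxV, map_pow, map_pow, ← pow_mul, mul_comm m 2, ← pow_succ',
    ← h1]
  exact mul_inv_cancel₀ hv0

/-- `D`, `D (x - e)` where `x` is integral -/
theorem tw_small {V : ValuationSubring Ω} (D x y : Ω) (I : Finset Ω) (e : Ω) (he : e ∈ I)
    (hxy : ∏ e ∈ I, (x - e) = D * y ^ 2) (hother : ∀ e' ∈ I, e' ≠ e → V.valuation (x - e') = 1) :
    V.valuation (x - e) = V.valuation (D * y ^ 2) := by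
  classical
  rw [← hxy, ← Finset.mul_prod_erase I _ he, map_mul, map_prod,
    Finset.prod_eq_one (fun e' he' => hother e' (Finset.mem_of_mem_erase he') (Finset.ne_of_mem_erase he')), mul_one]

/-- integral case, `|D| = 1` -/
theorem tw_even_int {k' : IntermediateField k Ω} {V : ValuationSubring Ω} {S : Sec (RatFunc k) Ω} {a : Option k'}
    (L : Loc S k' a V) (hfin : FiniteDimensional k k') (D x y : Ω) (I : Finset Ω) (hI : ∀ e ∈ I, e ∈ k')
    (hy : y ∈ S.F k') (hy0 : y ≠ 0)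
    (hxy : ∏ e ∈ I, (x - e) = D * y ^ 2) (hxV : x ∈ V) (hD1 : V.valuation D = 1) (e : Ω) (he : e ∈ I) :
    ∃ w ∈ S.F k', V.valuation (D * (x - e) * w ^ 2) = 1 := by
  have hle : V.valuation (x - e) ≤ 1 := (V.valuation_le_one_iff _).2 (sub_mem hxV (L.const e (hI e he)))
  rcases hle.lt_or_eq with h | h
  · have hother : ∀ e' ∈ I, e' ≠ e → V.valuation (x - e') = 1 := by
      intro e' he' hne
      have h2 : V.valuation (e - e') = 1 := L.val_const _ (sub_mem (hI e he) (hI e' he')) (sub_ne_zero.2 hne.symm)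
      have e1 : x - e' = (e - e') + (x - e) := by ring
      rw [e1, V.valuation.map_add_eq_of_lt_left (by rw [h2]; exact h), h2]
    have h3 := tw_small D x y I e he hxy hother
    refine ⟨y⁻¹, inv_mem hy, ?_⟩
    have hv0 : V.valuation y ≠ 0 := (Valuation.ne_zero_iff _).2 hy0
    rw [map_mul, map_mul, h3, map_mul, hD1, one_mul, one_mul, ← map_mul, ← mul_pow, mul_inv_cancel₀ hy0, one_pow, map_one]
  · refine ⟨1, one_mem _, ?_⟩
    rw [one_pow, mul_one, map_mul, hD1, h, one_mul]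

private theorem t3_prod_one {V : ValuationSubring Ω} {ι : Type} (s : Finset ι) (f : ι → Ω)
    (h : ∀ i ∈ s, V.valuation (f i - 1) < 1) : V.valuation (∏ i ∈ s, f i - 1) < 1 := by
  classical
  induction s using Finset.induction_on with
  | empty => rw [Finset.prod_empty, sub_self, map_zero]; exact zero_lt_one
  | insert a s ha ih =>
    rw [Finset.prod_insert ha]
    have h1 := h a (Finset.mem_insert_self a s)
    have h2 := ih fun i hi => h i (Finset.mem_insert_of_mem hi)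
    have h3 : V.valuation (f a) ≤ 1 := by
      have e : f a = (f a - 1) + 1 := by ring
      rw [e]
      exact V.valuation.map_add_le h1.le (by rw [map_one])
    have e : f a * ∏ i ∈ s, f i - 1 = f a * (∏ i ∈ s, f i - 1) + (f a - 1) := by ring
    rw [e]
    refine V.valuation.map_add_lt ?_ h1
    rw [map_mul]
    exact mul_lt_one_of_nonneg_of_lt_one_right h3 zero_le h2

private theorem t3_alg {Ω : Type} [Field Ω] (D u y : Ω) (m : ℕ) (hD : D ≠ 0) (hy : y ≠ 0) :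
    D * u * ((D * u) ^ m / (D ^ (m + 1) * y)) ^ 2 = u ^ (2 * m + 1) / (D * y ^ 2) := by
  have hP : D ^ m ≠ 0 := pow_ne_zero m hD
  have h1 : u ^ (2 * m + 1) = (u ^ m) ^ 2 * u := by
    rw [pow_succ, mul_comm 2 m, pow_mul]
  rw [mul_pow D u m, pow_succ D m, h1]
  generalize D ^ m = P at *
  generalize u ^ m = U at *
  field_simp

/-- the pole at the places of `A` -/
theorem Sys.tw_pole (Y : Sys k Ω) (hnorm : ∀ τ, ∀ c ∈ Y.k0, Y.S.s τ c ∈ Y.k0) (c : Ω) (hc : c ∈ Y.k0) (hc0 : c ≠ 0)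
    (A : Finset Y.k0) (I : Finset Ω) (hI : ∀ e ∈ I, e ∈ Y.k0) (m : ℕ) (hcard : I.card = 2 * m + 1)
    (x y : Ω) (hx : x ∈ Y.S.F Y.k0) (hy : y ∈ Y.S.F Y.k0) (hy0 : y ≠ 0) (hxy : ∏ e ∈ I, (x - e) = twD c A * y ^ 2)
    (hmove : ∀ e ∈ I, ∃ τ, Y.S.s τ x = x ∧ Y.S.s τ c = c ∧ (∀ α ∈ A, Y.S.s τ (α : Ω) = α) ∧ Y.S.s τ e ∈ I ∧ Y.S.s τ e ≠ e)
    (α : Y.k0) (hα : α ∈ A) : x ∉ Y.V Y.k0 (some α) := by
  classical
  intro hxV
  have hfin0 : FiniteDimensional k Y.k0 := Y.fin0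
  have L := Y.loc Y.k0 le_rfl Y.fin0 (some α)
  set V := Y.V Y.k0 (some α) with hV
  have hDF : twD c A ∈ Y.S.F Y.k0 := twD_mem Y.S Y.k0 le_rfl Y.fin0 A c hc
  have hD0 : twD c A ≠ 0 := twD_ne Y.fin0 A c hc0
  have hDv : V.valuation (twD c A) = V.valuation (tt k Ω - α) := twD_val α L A c hc hc0 hα
  have hIV : ∀ e ∈ I, e ∈ V := fun e he => L.const e (hI e he)
  have hle : ∀ e ∈ I, V.valuation (x - e) ≤ 1 := fun e he => (V.valuation_le_one_iff _).2 (sub_mem hxV (hIV e he))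
  -- some `e₀` is close to `x`
  obtain ⟨e₀, he₀, hlt⟩ : ∃ e₀ ∈ I, V.valuation (x - e₀) < 1 := by
    by_contra hcon
    push Not at hcon
    have h1 : V.valuation (twD c A * y ^ 2) = 1 := by
      rw [← hxy, map_prod]
      exact Finset.prod_eq_one fun e he => le_antisymm (hle e he) (hcon e he)
    apply L.ram y hy
    show V.valuation ((tt k Ω - α) * y ^ 2) = 1
    rw [map_mul, ← hDv, ← map_mul]
    exact h1
  have hother : ∀ e' ∈ I, e' ≠ e₀ → V.valuation (x - e') = 1 := by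
    intro e' he' hne
    have h2 : V.valuation (e₀ - e') = 1 := L.val_const _ (sub_mem (hI e₀ he₀) (hI e' he')) (sub_ne_zero.2 hne.symm)
    have e1 : x - e' = (e₀ - e') + (x - e₀) := by ring
    rw [e1, V.valuation.map_add_eq_of_lt_left (by rw [h2]; exact hlt), h2]
  have hxe0 : x - e₀ ≠ 0 := by
    intro h0
    have h1 : ∏ e ∈ I, (x - e) = 0 := Finset.prod_eq_zero he₀ h0
    rw [hxy] at h1
    exact mul_ne_zero hD0 (pow_ne_zero 2 hy0) h1
  have heF : ∀ e ∈ I, e ∈ Y.S.F Y.k0 := fun e he => tw_const_mem Y.S Y.k0 Y.fin0 e (hI e he)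
  -- the class of `D (x - e₀)`
  obtain ⟨ε, hε, B, hBA, w, hw, hw0, hz⟩ := Y.desc Y.k0 le_rfl Y.fin0 (twD c A * (x - e₀))
    (mul_mem hDF (sub_mem hx (heF e₀ he₀))) (mul_ne_zero hD0 hxe0) A (by
      intro k'' hkk hfin'' β hβ
      have L' := Y.loc k'' hkk hfin'' (some β)
      have hD1 : (Y.V k'' (some β)).valuation (twD c A) = 1 := twD_unit hkk β L' A c hc hc0 hβ
      have hmono := Y.S.F_mono (show (Y.k0 : Set Ω) ⊆ (k'' : Set Ω) from fun z hz => hkk hz)
      by_cases hxV' : x ∈ Y.V k'' (some β)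
      · exact tw_even_int L' hfin'' (twD c A) x y I (fun e he => hkk (hI e he)) (hmono hy) hy0 hxy hxV' hD1 e₀ he₀
      · exact tw_even_big (Y.S.F k'') (twD c A) x y I (fun e he => L'.const e (hkk (hI e he))) m hcard
          (hmono hDF) (hmono hx) (hmono hy) hD0 hy0 hxy hxV' e₀ he₀)
  have hε0 : (ε : Ω) ≠ 0 := fun h => hε (Subtype.ext h)
  have hsmall := tw_small (twD c A) x y I e₀ he₀ hxy hother
  -- `α ∉ B`
  have hαB : α ∉ B := by
    intro hαB
    have h1 : V.valuation (twD c A * (x - e₀)) = V.valuation ((tt k Ω - α) * w ^ 2) := by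
      rw [hz, ← Finset.mul_prod_erase B _ hαB, map_mul, map_mul, map_mul, L.val_const ε ε.2 hε0, one_mul,
        tw_prod_val le_rfl α L (B.erase α) (fun β hβ h => (Finset.ne_of_mem_erase hβ) (Subtype.ext h)), mul_one, map_mul]
    have h2 : V.valuation (twD c A * (x - e₀)) = V.valuation ((twD c A * y) ^ 2) := by
      rw [map_mul, hsmall, ← map_mul]
      congr 1
      ring
    apply L.ram (w * (twD c A * y)⁻¹) (mul_mem hw (inv_mem (mul_mem hDF hy)))
    show V.valuation ((tt k Ω - α) * (w * (twD c A * y)⁻¹) ^ 2) = 1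
    have h3 : (tt k Ω - α) * (w * (twD c A * y)⁻¹) ^ 2 = (tt k Ω - α) * w ^ 2 * ((twD c A * y) ^ 2)⁻¹ := by
      rw [mul_pow, inv_pow]
      ring
    rw [h3, map_mul, ← h1, h2, ← map_mul, mul_inv_cancel₀ (pow_ne_zero 2 (mul_ne_zero hD0 hy0)), map_one]
  -- apply `τ`
  obtain ⟨τ, hτx, hτc, hτA, hτe, hτne⟩ := hmove e₀ he₀
  have hBτ : ∀ β ∈ B, Y.S.s τ (β : Ω) = β := fun β hβ => hτA β (hBA hβ)
  have hprodτ : ∀ C : Finset Y.k0, (∀ β ∈ C, Y.S.s τ (β : Ω) = β) →
      Y.S.s τ (∏ β ∈ C, (tt k Ω - (β : Ω))) = ∏ β ∈ C, (tt k Ω - (β : Ω)) := by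
    intro C hC
    rw [map_prod]
    refine Finset.prod_congr rfl fun β hβ => ?_
    rw [map_sub, Y.S.s_tt, hC β hβ]
  have hDτ : Y.S.s τ (twD c A) = twD c A := by
    unfold twD
    rw [map_mul, hτc, hprodτ A hτA]
  have hz' : twD c A * (x - Y.S.s τ e₀) = Y.S.s τ ε * (∏ β ∈ B, (tt k Ω - (β : Ω))) * (Y.S.s τ w) ^ 2 := by
    have h1 := congrArg (Y.S.s τ) hz
    rw [map_mul, map_sub, hτx, hDτ, map_mul, map_mul, hprodτ B hBτ, map_pow] at h1
    exact h1
  have hε' : Y.S.s τ ε ∈ Y.k0 := hnorm τ ε ε.2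
  have hε'0 : Y.S.s τ ε ≠ 0 := (map_ne_zero_iff _ (Y.S.s τ).injective).2 hε0
  have hwF : Y.S.s τ w ∈ Y.S.F Y.k0 := Y.S.F_stable Y.k0 hnorm τ w hw
  have hw'0 : Y.S.s τ w ≠ 0 := (map_ne_zero_iff _ (Y.S.s τ).injective).2 hw0
  have h1 : V.valuation (tt k Ω - α) = V.valuation ((Y.S.s τ w) ^ 2) := by
    have h2 := congrArg V.valuation hz'
    rw [map_mul, hDv, hother _ hτe hτne, mul_one, map_mul, map_mul, L.val_const _ hε' hε'0, one_mul,
      tw_prod_val le_rfl α L B (fun β hβ h => hαB (by rw [← Subtype.ext h]; exact hβ)), one_mul] at h2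
    exact h2
  apply L.ram (Y.S.s τ w)⁻¹ (inv_mem hwF)
  show V.valuation ((tt k Ω - α) * ((Y.S.s τ w)⁻¹) ^ 2) = 1
  rw [map_mul, h1, ← map_mul, ← mul_pow, mul_inv_cancel₀ hw'0, one_pow, map_one]

/-- the pole persists at higher levels -/
theorem Sys.tw_pole_lift (Y : Sys k Ω) (x : Ω) (hx : x ∈ Y.S.F Y.k0) (a : Option Y.k0) (ha : x ∉ Y.V Y.k0 a)
    (k' : IntermediateField k Ω) (hk : Y.k0 ≤ k') (hfin : FiniteDimensional k k') : x ∉ Y.V k' (lift hk a) := by
  intro hmem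
  have hx0 : x ≠ 0 := by
    intro h0
    apply ha
    rw [h0]
    exact zero_mem _
  have hgt : 1 < (Y.V Y.k0 a).valuation x := by
    rw [← not_le, ValuationSubring.valuation_le_one_iff]
    exact ha
  have h1 : (Y.V Y.k0 a).valuation x⁻¹ < 1 := by
    rw [map_inv₀]
    exact inv_lt_one_of_one_lt₀ hgt
  have h2 : (Y.V k' (lift hk a)).valuation x⁻¹ < 1 :=
    Y.comp Y.k0 k' le_rfl hk Y.fin0 hfin a x⁻¹ (inv_mem hx) h1
  have h3 : (Y.V k' (lift hk a)).valuation x ≤ 1 := (ValuationSubring.valuation_le_one_iff _ _).2 hmem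
  have h4 : (Y.V k' (lift hk a)).valuation x * (Y.V k' (lift hk a)).valuation x⁻¹ = 1 := by
    rw [← map_mul, mul_inv_cancel₀ hx0, map_one]
  have h5 : (Y.V k' (lift hk a)).valuation x * (Y.V k' (lift hk a)).valuation x⁻¹ < 1 :=
    mul_lt_one_of_nonneg_of_lt_one_right h3 zero_le h2
  rw [h4] at h5
  exact lt_irrefl _ h5

/-- all `D (x - e)` are squares -/
theorem Sys.tw_squares (Y : Sys k Ω) (c : Ω) (hc : c ∈ Y.k0) (hc0 : c ≠ 0)
    (A : Finset Y.k0) (I : Finset Ω) (hI : ∀ e ∈ I, e ∈ Y.k0) (m : ℕ) (hcard : I.card = 2 * m + 1)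
    (x y : Ω) (hx : x ∈ Y.S.F Y.k0) (hy : y ∈ Y.S.F Y.k0) (hy0 : y ≠ 0) (hxy : ∏ e ∈ I, (x - e) = twD c A * y ^ 2)
    (hpole : ∀ α ∈ A, x ∉ Y.V Y.k0 (some α)) (hA : A.Nonempty) (e : Ω) (he : e ∈ I) :
    ∃ r ∈ Y.S.F Y.k0, twD c A * (x - e) = r ^ 2 := by
  classical
  have hDF : twD c A ∈ Y.S.F Y.k0 := twD_mem Y.S Y.k0 le_rfl Y.fin0 A c hc
  have hD0 : twD c A ≠ 0 := twD_ne Y.fin0 A c hc0
  have heF : ∀ e ∈ I, e ∈ Y.S.F Y.k0 := fun e he => tw_const_mem Y.S Y.k0 Y.fin0 e (hI e he)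
  have hne : ∀ e ∈ I, x - e ≠ 0 := by
    intro e he h0
    have h1 : ∏ e ∈ I, (x - e) = 0 := Finset.prod_eq_zero he h0
    rw [hxy] at h1
    exact mul_ne_zero hD0 (pow_ne_zero 2 hy0) h1
  obtain ⟨ε, hε, B, hBA, w, hw, hw0, hz⟩ := Y.desc Y.k0 le_rfl Y.fin0 (twD c A * (x - e))
    (mul_mem hDF (sub_mem hx (heF e he))) (mul_ne_zero hD0 (hne e he)) ∅ (by
      intro k'' hkk hfin'' β _
      have L' := Y.loc k'' hkk hfin'' (some β)
      have hmono := Y.S.F_mono (show (Y.k0 : Set Ω) ⊆ (k'' : Set Ω) from fun z hz => hkk hz)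
      have hbig : x ∉ Y.V k'' (some β) → ∃ w ∈ Y.S.F k'', (Y.V k'' (some β)).valuation (twD c A * (x - e) * w ^ 2) = 1 :=
        fun hxV' => tw_even_big (Y.S.F k'') (twD c A) x y I (fun e he => L'.const e (hkk (hI e he))) m hcard
          (hmono hDF) (hmono hx) (hmono hy) hD0 hy0 hxy hxV' e he
      by_cases hβ : ∀ α ∈ A, (α : Ω) ≠ (β : Ω)
      · have hD1 : (Y.V k'' (some β)).valuation (twD c A) = 1 := twD_unit hkk β L' A c hc hc0 hβ
        by_cases hxV' : x ∈ Y.V k'' (some β)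
        · exact tw_even_int L' hfin'' (twD c A) x y I (fun e he => hkk (hI e he)) (hmono hy) hy0 hxy hxV' hD1 e he
        · exact hbig hxV'
      · push Not at hβ
        obtain ⟨α, hα, hαβ⟩ := hβ
        apply hbig
        have h1 := Y.tw_pole_lift x hx (some α) (hpole α hα) k'' hkk hfin''
        have h2 : lift hkk (some α) = some β := by
          simp only [lift, Option.map_some]
          congr 1
          exact Subtype.ext hαβ
        rwa [h2] at h1)
  have hB : B = ∅ := by simpa using hBA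
  rw [hB, Finset.prod_empty, mul_one] at hz
  obtain ⟨α, hα⟩ := hA
  have L := Y.loc Y.k0 le_rfl Y.fin0 (some α)
  set V := Y.V Y.k0 (some α) with hV
  have hxV : x ∉ V := hpole α hα
  have hgt : 1 < V.valuation x := by
    rw [← not_le, ValuationSubring.valuation_le_one_iff]
    exact hxV
  set q : Ω := (twD c A * (x - e)) ^ m / (twD c A ^ (m + 1) * y) with hq
  have hqF : q ∈ Y.S.F Y.k0 :=
    div_mem (pow_mem (mul_mem hDF (sub_mem hx (heF e he))) m) (mul_mem (pow_mem hDF _) hy)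
  have hkey : twD c A * (x - e) * q ^ 2 = ∏ e' ∈ I, ((x - e) / (x - e')) := by
    rw [Finset.prod_div_distrib, Finset.prod_const, hcard, hxy, hq]
    exact t3_alg _ _ _ m hD0 hy0
  have hlt : V.valuation (ε * (w * q) ^ 2 - 1) < 1 := by
    have e1 : (ε : Ω) * (w * q) ^ 2 = twD c A * (x - e) * q ^ 2 := by
      rw [hz]
      ring
    rw [e1, hkey]
    refine t3_prod_one I _ fun e' he' => ?_
    have h1 := hne e' he'
    have e2 : (x - e) / (x - e') - 1 = (e' - e) / (x - e') := by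
      field_simp
      ring
    rw [e2, map_div₀, t3_sub_big (L.const e' (hI e' he')) hxV]
    have h2 : V.valuation (e' - e) ≤ 1 :=
      (V.valuation_le_one_iff _).2 (sub_mem (L.const e' (hI e' he')) (L.const e (hI e he)))
    rw [div_lt_one₀ (lt_trans zero_lt_one hgt)]
    exact lt_of_le_of_lt h2 hgt
  obtain ⟨d, hd, hd2⟩ := L.pin ε ε.2 (w * q) (mul_mem hw hqF) hlt
  refine ⟨d * w, mul_mem (tw_const_mem Y.S Y.k0 Y.fin0 d hd) hw, ?_⟩
  rw [hz, hd2]
  ring

end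

end BSC
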