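import Pool.Agent.Lib_MP_49ddc8.Step

/-!
# Galois action on the roots of a polynomial over the constants

`tw_level`: a normal level with the roots of `f`; `tw_cycle`: if `3` divides the order of the Galois group of `f` over `k`, then some
automorphism of `κbar` over `κ = k(t)` permutes three roots cyclically; `tw_moved`: a root outside `k` is moved.
-/

set_option autoImplicit false

open Polynomial

namespace BSC

section

variable {k Ω : Type} [Field k] [CharZero k] [Field Ω] [IsAlgClosed Ω] [Algebra k Ω] [Algebra (RatFunc k) Ω]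
  [IsScalarTower k (RatFunc k) Ω]

theorem Sec.s_k (S : Sec (RatFunc k) Ω) (τ : algebraicClosure (RatFunc k) Ω ≃ₐ[RatFunc k] algebraicClosure (RatFunc k) Ω)
    (a : k) : S.s τ (algebraMap k Ω a) = algebraMap k Ω a := by
  have h := S.res τ (algebraMap (RatFunc k) (algebraicClosure (RatFunc k) Ω) (algebraMap k (RatFunc k) a))
  rw [AlgEquiv.commutes] at h
  have e : ((algebraMap (RatFunc k) (algebraicClosure (RatFunc k) Ω) (algebraMap k (RatFunc k) a) :
      algebraicClosure (RatFunc k) Ω) : Ω) = algebraMap k Ω a := by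
    rw [IsScalarTower.algebraMap_apply k (RatFunc k) Ω]
    rfl
  rw [e] at h
  exact h

theorem Sec.s_aeval (S : Sec (RatFunc k) Ω) (τ : algebraicClosure (RatFunc k) Ω ≃ₐ[RatFunc k] algebraicClosure (RatFunc k) Ω)
    (f : k[X]) (e : Ω) : S.s τ (aeval e f) = aeval (S.s τ e) f := by
  have h := Polynomial.hom_eval₂ f (algebraMap k Ω) ((S.s τ : Ω ≃+* Ω) : Ω →+* Ω) e
  have h2 : (((S.s τ : Ω ≃+* Ω) : Ω →+* Ω).comp (algebraMap k Ω)) = algebraMap k Ω := by
    ext a
    exact S.s_k τ a
  rw [h2] at h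
  exact h

theorem tw_level (f : k[X]) (hf : f ≠ 0) : ∃ k1 : IntermediateField k Ω, FiniteDimensional k k1 ∧
    (∃ i ∈ k1, i ^ 2 = (-1 : Ω)) ∧ (∀ e : Ω, aeval e f = 0 → e ∈ k1) ∧
    ∀ (S : Sec (RatFunc k) Ω) (τ : algebraicClosure (RatFunc k) Ω ≃ₐ[RatFunc k] algebraicClosure (RatFunc k) Ω),
      ∀ c ∈ k1, S.s τ c ∈ k1 := by
  classical
  set p : k[X] := f * (X ^ 2 + C 1) with hp
  have hq : (X ^ 2 + C 1 : k[X]) ≠ 0 := (monic_X_pow_add_C (1 : k) two_ne_zero).ne_zero
  have hp0 : p ≠ 0 := mul_ne_zero hf hq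
  have hroot : ∀ e : Ω, e ∈ p.rootSet Ω ↔ aeval e p = 0 := fun e => by
    rw [mem_rootSet]
    exact ⟨fun h => h.2, fun h => ⟨hp0, h⟩⟩
  have hfinset : (p.rootSet Ω).Finite := Polynomial.rootSet_finite p Ω
  refine ⟨IntermediateField.adjoin k (p.rootSet Ω), ?_, ?_, ?_, ?_⟩
  · haveI : Finite (p.rootSet Ω) := hfinset
    refine IntermediateField.finiteDimensional_adjoin fun x hx => ?_
    exact (show IsAlgebraic k x from ⟨p, hp0, (hroot x).1 hx⟩).isIntegral
  · obtain ⟨i, hi⟩ := IsAlgClosed.exists_pow_nat_eq (-1 : Ω) (n := 2) (by norm_num)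
    refine ⟨i, IntermediateField.subset_adjoin _ _ ((hroot i).2 ?_), hi⟩
    rw [hp, map_mul]
    have : aeval i (X ^ 2 + C 1 : k[X]) = 0 := by
      simp [hi]
    rw [this, mul_zero]
  · intro e he
    refine IntermediateField.subset_adjoin _ _ ((hroot e).2 ?_)
    rw [hp, map_mul, he, zero_mul]
  · intro S τ c hc
    induction hc using IntermediateField.adjoin_induction with
    | mem z hz =>
      refine IntermediateField.subset_adjoin _ _ ((hroot _).2 ?_)
      rw [← S.s_aeval, (hroot z).1 hz, map_zero]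
    | algebraMap a =>
      rw [S.s_k]
      exact IntermediateField.algebraMap_mem _ a
    | add a b _ _ ha hb => rw [map_add]; exact add_mem ha hb
    | inv a _ ha => rw [map_inv₀]; exact inv_mem ha
    | mul a b _ _ ha hb => rw [map_mul]; exact mul_mem ha hb

/-- an element of `Ω` algebraic over `k` and fixed by all `S.s τ` lies in `k` -/
theorem tw_fixed (S : Sec (RatFunc k) Ω) (e : Ω) (he : IsAlgebraic k e)
    (hfix : ∀ τ : algebraicClosure (RatFunc k) Ω ≃ₐ[RatFunc k] algebraicClosure (RatFunc k) Ω, S.s τ e = e) :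
    ∃ a : k, algebraMap k Ω a = e := by
  have h1 : e ∈ S.F ∅ := fun τ _ => hfix τ
  have h2 : IsAlgebraic (RatFunc k) e := he.tower_top (RatFunc k)
  have h3 := mem_adjoin S ∅ (fun x hx => absurd hx (Set.notMem_empty x)) e h1 h2
  rw [IntermediateField.adjoin_empty, IntermediateField.mem_bot] at h3
  obtain ⟨r, rfl⟩ := h3
  rw [isAlgebraic_algebraMap_iff (algebraMap (RatFunc k) Ω).injective] at he
  by_contra hcon
  refine RatFunc.transcendental_of_ne_C (f := r) ?_ he
  rintro ⟨a, rfl⟩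
  apply hcon
  refine ⟨a, ?_⟩
  rw [IsScalarTower.algebraMap_apply k (RatFunc k) Ω, RatFunc.algebraMap_eq_C]

theorem tw_moved (S : Sec (RatFunc k) Ω) (f : k[X]) (hf : f ≠ 0) (hroot : ∀ a : k, f.eval a ≠ 0) (e : Ω)
    (he : aeval e f = 0) :
    ∃ τ : algebraicClosure (RatFunc k) Ω ≃ₐ[RatFunc k] algebraicClosure (RatFunc k) Ω, S.s τ e ≠ e := by
  by_contra hcon
  push Not at hcon
  obtain ⟨a, rfl⟩ := tw_fixed S e ⟨f, hf, he⟩ hcon
  rw [aeval_algebraMap_apply] at he
  have h1 : aeval a f = 0 := (algebraMap k Ω).injective (by rw [he, map_zero])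
  exact hroot a (by rw [← h1, ← coe_aeval_eq_eval])

theorem tw_cycle (S : Sec (RatFunc k) Ω) (f : k[X]) (hf : f.Separable) (h3 : 3 ∣ Nat.card f.Gal) :
    ∃ (τ : algebraicClosure (RatFunc k) Ω ≃ₐ[RatFunc k] algebraicClosure (RatFunc k) Ω) (e₁ e₂ e₃ : Ω),
      aeval e₁ f = 0 ∧ aeval e₂ f = 0 ∧ aeval e₃ f = 0 ∧ e₁ ≠ e₂ ∧ e₁ ≠ e₃ ∧ e₂ ≠ e₃ ∧
        S.s τ e₁ = e₂ ∧ S.s τ e₂ = e₃ ∧ S.s τ e₃ = e₁ := by
  classical
  have hf0 : f ≠ 0 := hf.ne_zero
  let κb := algebraicClosure (RatFunc k) Ω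
  have hcl : IsAlgClosed κb := by
    have := algebraicClosure.isAlgClosure (RatFunc k) Ω
    exact this.isAlgClosed
  have htw : ∀ a : k, algebraMap κb Ω (algebraMap k κb a) = algebraMap k Ω a := by
    intro a
    have h1 : algebraMap k κb a = algebraMap (RatFunc k) κb (algebraMap k (RatFunc k) a) :=
      IsScalarTower.algebraMap_apply k (RatFunc k) κb a
    rw [h1, IsScalarTower.algebraMap_apply k (RatFunc k) Ω, ← IsScalarTower.algebraMap_apply (RatFunc k) κb Ω]
  have : IsScalarTower k κb Ω := IsScalarTower.of_algebraMap_eq fun a => (htw a).symm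
  let L : IntermediateField k κb := IntermediateField.adjoin k (f.rootSet κb)
  have hsplit : f.IsSplittingField k L :=
    IntermediateField.adjoin_rootSet_isSplittingField (IsAlgClosed.splits _)
  have : FiniteDimensional k L := IsSplittingField.finiteDimensional L f
  have : IsGalois k L := IsGalois.of_separable_splitting_field hf
  have hcard : Nat.card (L ≃ₐ[k] L) = Nat.card f.Gal :=
    Nat.card_congr (AlgEquiv.autCongr (IsSplittingField.algEquiv L f)).toEquiv
  let ψ : (κb ≃ₐ[RatFunc k] κb) →* (L ≃ₐ[k] L) := (AlgEquiv.restrictNormalHom L).comp (AlgEquiv.restrictScalarsHom k)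
  have hψ : ∀ (τ : κb ≃ₐ[RatFunc k] κb) (c : L), ((ψ τ c : L) : κb) = τ (c : κb) := by
    intro τ c
    exact AlgEquiv.restrictNormal_commutes (τ.restrictScalars k) L c
  have hrange : ψ.range = ⊤ := by
    have h1 : IntermediateField.fixedField ψ.range = ⊥ := by
      rw [eq_bot_iff]
      intro c hc
      have h2 : ∀ τ : κb ≃ₐ[RatFunc k] κb, S.s τ ((c : κb) : Ω) = ((c : κb) : Ω) := by
        intro τ
        rw [S.res]
        have h3 : ψ τ c = c := hc ⟨ψ τ, ⟨τ, rfl⟩⟩
        rw [← hψ, h3]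
      have h4 : IsAlgebraic k ((c : κb) : Ω) := by
        have h5 : IsAlgebraic k c := Algebra.IsAlgebraic.isAlgebraic c
        have h6 : IsAlgebraic k (c : κb) := h5.algHom L.val
        obtain ⟨q, hq0, hq⟩ := h6
        refine ⟨q, hq0, ?_⟩
        have h7 := congrArg (algebraMap κb Ω) hq
        rw [map_zero, ← aeval_algebraMap_apply] at h7
        exact h7
      obtain ⟨a, ha⟩ := tw_fixed S _ h4 h2
      rw [IntermediateField.mem_bot]
      refine ⟨a, ?_⟩
      apply Subtype.ext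
      apply Subtype.ext
      rw [← ha]
      exact htw a
    have h2 := IntermediateField.fixingSubgroup_fixedField ψ.range
    rw [h1, IntermediateField.fixingSubgroup_bot] at h2
    exact h2.symm
  rw [← hcard] at h3
  have : Fact (Nat.Prime 3) := ⟨Nat.prime_three⟩
  obtain ⟨g, hg⟩ := exists_prime_orderOf_dvd_card' 3 h3
  have hg3 : g ^ 3 = 1 := by rw [← hg]; exact pow_orderOf_eq_one g
  have hg1 : g ≠ 1 := by
    rintro rfl
    rw [orderOf_one] at hg
    norm_num at hg
  obtain ⟨τ, hτ⟩ : ∃ τ, ψ τ = g := by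
    have : g ∈ ψ.range := by rw [hrange]; exact Subgroup.mem_top g
    exact this
  -- a moved root
  obtain ⟨e, he, hge⟩ : ∃ e ∈ f.rootSet κb, τ e ≠ e := by
    by_contra hcon
    push Not at hcon
    apply hg1
    apply AlgEquiv.ext
    intro c
    apply Subtype.ext
    rw [← hτ, hψ]
    show τ (c : κb) = (c : κb)
    obtain ⟨c, hc⟩ := c
    show τ c = c
    induction hc using IntermediateField.adjoin_induction with
    | mem z hz => exact hcon z hz
    | algebraMap a =>
      have h1 : algebraMap k κb a = algebraMap (RatFunc k) κb (algebraMap k (RatFunc k) a) :=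
        IsScalarTower.algebraMap_apply k (RatFunc k) κb a
      rw [h1, AlgEquiv.commutes]
    | add a b _ _ ha hb => rw [map_add, ha, hb]
    | inv a _ ha => rw [map_inv₀, ha]
    | mul a b _ _ ha hb => rw [map_mul, ha, hb]
  have heL : e ∈ L := IntermediateField.subset_adjoin _ _ he
  have hτ3 : τ (τ (τ e)) = e := by
    have h1 : ((((g ^ 3) ⟨e, heL⟩ : L)) : κb) = e := by rw [hg3]; rfl
    have h2 : (g ^ 3) ⟨e, heL⟩ = g (g (g ⟨e, heL⟩)) := rfl
    rw [h2, ← hτ, hψ, hψ, hψ] at h1
    exact h1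
  have hroot : aeval e f = 0 := (mem_rootSet.1 he).2
  have hrootΩ : aeval ((e : κb) : Ω) f = 0 := by
    have h7 := congrArg (algebraMap κb Ω) hroot
    rw [map_zero, ← aeval_algebraMap_apply] at h7
    exact h7
  have r2 : aeval (((τ e : κb)) : Ω) f = 0 := by
    have := S.s_aeval τ f ((e : κb) : Ω)
    rw [hrootΩ, map_zero, S.res] at this
    exact this.symm
  have r3 : aeval (((τ (τ e) : κb)) : Ω) f = 0 := by
    have := S.s_aeval τ f ((τ e : κb) : Ω)
    rw [r2, map_zero, S.res] at this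
    exact this.symm
  have h12 : e ≠ τ e := fun h => hge h.symm
  have h23 : τ e ≠ τ (τ e) := fun h => h12 (τ.injective h)
  have h13 : e ≠ τ (τ e) := by
    intro h
    have h1 := congrArg τ h
    rw [hτ3] at h1
    exact hge h1
  refine ⟨τ, e, τ e, τ (τ e), hrootΩ, r2, r3, fun h => h12 (Subtype.ext h), fun h => h13 (Subtype.ext h),
    fun h => h23 (Subtype.ext h), S.res τ e, S.res τ _, ?_⟩
  rw [S.res, hτ3]

end

end BSC
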