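import Pool.Agent.Lib_MP_49ddc8.Tw1
import Pool.Agent.Lib_MP_49ddc8.Tw2
import Pool.Agent.Lib_MP_49ddc8.Tw3
import Pool.Agent.Lib_MP_49ddc8.Tw4
import Pool.Agent.Lib_MP_49ddc8.Gen

/-!
# The chain of halvings on a quadratic twist, and the valuation ring

`tw_half`: `P = (x, y)` on `D y² = (x - e₁)(x - e₂)(x - e₃)` fixed by `S.s τ`, `τ` a 3-cycle on the `e_i`: `D (x - e_i) = r_i²`, with `r₂ = S.s τ r₁`,
`r₃ = S.s τ r₂`; then `S.s τ r₃ = r₁`, and the half point `x' = x + (r₁r₂ + r₁r₃ + r₂r₃)/D` is fixed by `S.s τ` again.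
-/

set_option autoImplicit false

open Polynomial

namespace BSC

section

variable {k Ω : Type} [Field k] [CharZero k] [Field Ω] [IsAlgClosed Ω] [Algebra k Ω] [Algebra (RatFunc k) Ω]
  [IsScalarTower k (RatFunc k) Ω]

/-- the state of the chain -/
structure TwSt (Y : Sys k Ω) (D e₁ e₂ e₃ : Ω) (τ : algebraicClosure (RatFunc k) Ω ≃ₐ[RatFunc k] algebraicClosure (RatFunc k) Ω)
    (x : Ω) : Prop where
  mem : x ∈ Y.S.F Y.k0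
  fix : Y.S.s τ x = x
  pt : ∃ y ∈ Y.S.F Y.k0, y ≠ 0 ∧ Y.S.s τ y = y ∧ (x - e₁) * (x - e₂) * (x - e₃) = D * y ^ 2

theorem twD_fix (S : Sec (RatFunc k) Ω) {k' : IntermediateField k Ω} (c : Ω) (A : Finset k')
    (τ : algebraicClosure (RatFunc k) Ω ≃ₐ[RatFunc k] algebraicClosure (RatFunc k) Ω) (hc : S.s τ c = c)
    (hA : ∀ α ∈ A, S.s τ (α : Ω) = α) : S.s τ (twD c A) = twD c A := by
  unfold twD
  rw [map_mul, hc, map_prod]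
  congr 1
  refine Finset.prod_congr rfl fun β hβ => ?_
  rw [map_sub, S.s_tt, hA β hβ]

theorem Sys.tw_half (Y : Sys k Ω) (hnorm : ∀ τ, ∀ c ∈ Y.k0, Y.S.s τ c ∈ Y.k0) (c : Ω) (hc : c ∈ Y.k0) (hc0 : c ≠ 0)
    (A : Finset Y.k0) (hA : A.Nonempty) (e₁ e₂ e₃ : Ω) (h1 : e₁ ∈ Y.k0) (h2 : e₂ ∈ Y.k0) (h3 : e₃ ∈ Y.k0)
    (h12 : e₁ ≠ e₂) (h13 : e₁ ≠ e₃) (h23 : e₂ ≠ e₃)
    (τ : algebraicClosure (RatFunc k) Ω ≃ₐ[RatFunc k] algebraicClosure (RatFunc k) Ω)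
    (hτc : Y.S.s τ c = c) (hτA : ∀ α ∈ A, Y.S.s τ (α : Ω) = α)
    (t1 : Y.S.s τ e₁ = e₂) (t2 : Y.S.s τ e₂ = e₃) (t3 : Y.S.s τ e₃ = e₁) (x : Ω) (P : TwSt Y (twD c A) e₁ e₂ e₃ τ x) :
    (∀ α ∈ A, x ∉ Y.V Y.k0 (some α)) ∧ (∃ r ∈ Y.S.F Y.k0, twD c A * (x - e₁) = r ^ 2) ∧
      (∃ r ∈ Y.S.F Y.k0, twD c A * (x - e₂) = r ^ 2) ∧
      ∃ x', TwSt Y (twD c A) e₁ e₂ e₃ τ x' ∧ HalfStep (Y.S.F Y.k0) (twD c A) e₁ e₂ e₃ x x' := by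
  classical
  have : CharZero Ω := charZero_of_injective_algebraMap (algebraMap k Ω).injective
  obtain ⟨hx, hτx, y, hy, hy0, hτy, hxy⟩ := P
  set D := twD c A with hD
  have hDF : D ∈ Y.S.F Y.k0 := twD_mem Y.S Y.k0 le_rfl Y.fin0 A c hc
  have hD0 : D ≠ 0 := twD_ne Y.fin0 A c hc0
  have hτD : Y.S.s τ D = D := twD_fix Y.S c A τ hτc hτA
  set I : Finset Ω := {e₁, e₂, e₃} with hIdef
  have hI : ∀ e ∈ I, e ∈ Y.k0 := by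
    intro e he
    simp only [hIdef, Finset.mem_insert, Finset.mem_singleton] at he
    rcases he with rfl | rfl | rfl
    · exact h1
    · exact h2
    · exact h3
  have hcard : I.card = 2 * 1 + 1 := by
    rw [hIdef, Finset.card_eq_three.2 ⟨e₁, e₂, e₃, h12, h13, h23, rfl⟩]
  have hprod : ∏ e ∈ I, (x - e) = D * y ^ 2 := by
    rw [hIdef, Finset.prod_insert (by simp [h12, h13]), Finset.prod_insert (by simp [h23]), Finset.prod_singleton, ← hxy]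
    ring
  have m1 : e₁ ∈ I := by simp [hIdef]
  have m2 : e₂ ∈ I := by simp [hIdef]
  have m3 : e₃ ∈ I := by simp [hIdef]
  have hmove : ∀ e ∈ I, ∃ τ, Y.S.s τ x = x ∧ Y.S.s τ c = c ∧ (∀ α ∈ A, Y.S.s τ (α : Ω) = α) ∧ Y.S.s τ e ∈ I ∧
      Y.S.s τ e ≠ e := by
    intro e he
    refine ⟨τ, hτx, hτc, hτA, ?_⟩
    simp only [hIdef, Finset.mem_insert, Finset.mem_singleton] at he
    rcases he with rfl | rfl | rfl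
    · rw [t1]; exact ⟨m2, h12.symm⟩
    · rw [t2]; exact ⟨m3, h23.symm⟩
    · rw [t3]; exact ⟨m1, h13⟩
  have hpole := Y.tw_pole hnorm c hc hc0 A I hI 1 hcard x y hx hy hy0 hprod hmove
  have hsq := Y.tw_squares c hc hc0 A I hI 1 hcard x y hx hy hy0 hprod hpole hA
  obtain ⟨r₁, hr₁, q₁⟩ := hsq e₁ m1
  rw [← hD] at q₁
  -- the conjugates
  have hr₂ : Y.S.s τ r₁ ∈ Y.S.F Y.k0 := Y.S.F_stable Y.k0 hnorm τ r₁ hr₁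
  have q₂ : D * (x - e₂) = (Y.S.s τ r₁) ^ 2 := by
    have := congrArg (Y.S.s τ) q₁
    rw [map_mul, map_sub, map_pow, hτD, hτx, t1] at this
    exact this
  have hr₃ : Y.S.s τ (Y.S.s τ r₁) ∈ Y.S.F Y.k0 := Y.S.F_stable Y.k0 hnorm τ _ hr₂
  have q₃ : D * (x - e₃) = (Y.S.s τ (Y.S.s τ r₁)) ^ 2 := by
    have := congrArg (Y.S.s τ) q₂
    rw [map_mul, map_sub, map_pow, hτD, hτx, t2] at this
    exact this
  obtain ⟨r₂, hr₂d⟩ : ∃ r₂, r₂ = Y.S.s τ r₁ := ⟨_, rfl⟩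
  obtain ⟨r₃, hr₃d⟩ : ∃ r₃, r₃ = Y.S.s τ r₂ := ⟨_, rfl⟩
  rw [← hr₂d] at hr₂ q₂
  rw [← hr₂d, ← hr₃d] at hr₃ q₃
  have hDy0 : D ^ 2 * y ≠ 0 := mul_ne_zero (pow_ne_zero 2 hD0) hy0
  have hsq2 : (r₁ * r₂ * r₃) ^ 2 = (D ^ 2 * y) ^ 2 := by
    have e : (r₁ * r₂ * r₃) ^ 2 = r₁ ^ 2 * r₂ ^ 2 * r₃ ^ 2 := by ring
    rw [e, ← q₁, ← q₂, ← q₃]
    have e2 : D * (x - e₁) * (D * (x - e₂)) * (D * (x - e₃)) = D ^ 3 * ((x - e₁) * (x - e₂) * (x - e₃)) := by ring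
    rw [e2, hxy]
    ring
  have hr0 : r₁ * r₂ * r₃ ≠ 0 := by
    intro h0
    rw [h0] at hsq2
    exact pow_ne_zero 2 hDy0 (by rw [← hsq2]; ring)
  have hτ3 : Y.S.s τ r₃ = r₁ := by
    have hfix : Y.S.s τ (r₁ * r₂ * r₃) = r₁ * r₂ * r₃ := by
      have hfix0 : Y.S.s τ (D ^ 2 * y) = D ^ 2 * y := by rw [map_mul, map_pow, hτD, hτy]
      rcases sq_eq_sq_iff_eq_or_eq_neg.1 hsq2 with h | h
      · rw [h, hfix0]
      · rw [h, map_neg, hfix0]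
    rw [map_mul, map_mul, ← hr₂d, ← hr₃d] at hfix
    have hr23 : r₂ * r₃ ≠ 0 := by
      intro h0
      apply hr0
      rw [mul_assoc, h0, mul_zero]
    apply mul_left_cancel₀ hr23
    rw [hfix]
    ring
  obtain ⟨h, hdef⟩ : ∃ h, h = x + (r₁ * r₂ + r₁ * r₃ + r₂ * r₃) / D := ⟨_, rfl⟩
  obtain ⟨s1, s2, s3, n12, n13, n23, g1, g2, g3⟩ := half_sub D e₁ e₂ e₃ x r₁ r₂ r₃ h hD0 h12 h13 h23 q₁ q₂ q₃ hdef
  refine ⟨hpole, ⟨r₁, hr₁, q₁⟩, ⟨r₂, hr₂, q₂⟩, h, ⟨?_, ?_, (r₁ + r₂) * (r₁ + r₃) * (r₂ + r₃) / D ^ 2, ?_, ?_, ?_, ?_⟩,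
    r₁, hr₁, r₂, hr₂, r₃, hr₃, q₁, q₂, q₃, h, hdef, Or.inl rfl⟩
  · rw [hdef]
    exact add_mem hx (div_mem (add_mem (add_mem (mul_mem hr₁ hr₂) (mul_mem hr₁ hr₃)) (mul_mem hr₂ hr₃)) hDF)
  · rw [hdef, map_add, map_div₀, map_add, map_add, map_mul, map_mul, map_mul, hτx, hτD, hτ3, ← hr₂d, ← hr₃d]
    congr 2
    ring
  · exact div_mem (mul_mem (mul_mem (add_mem hr₁ hr₂) (add_mem hr₁ hr₃)) (add_mem hr₂ hr₃)) (pow_mem hDF 2)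
  · exact div_ne_zero (mul_ne_zero (mul_ne_zero n12 n13) n23) (pow_ne_zero 2 hD0)
  · rw [map_div₀, map_mul, map_mul, map_add, map_add, map_add, map_pow, hτD, hτ3, ← hr₂d, ← hr₃d]
    congr 1
    ring
  · rw [s1, s2, s3]
    field_simp
    ring

theorem Sys.tw_chain (Y : Sys k Ω) (hnorm : ∀ τ, ∀ c ∈ Y.k0, Y.S.s τ c ∈ Y.k0) (c : Ω) (hc : c ∈ Y.k0) (hc0 : c ≠ 0)
    (A : Finset Y.k0) (hA : A.Nonempty) (e₁ e₂ e₃ : Ω) (h1 : e₁ ∈ Y.k0) (h2 : e₂ ∈ Y.k0) (h3 : e₃ ∈ Y.k0)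
    (h12 : e₁ ≠ e₂) (h13 : e₁ ≠ e₃) (h23 : e₂ ≠ e₃)
    (τ : algebraicClosure (RatFunc k) Ω ≃ₐ[RatFunc k] algebraicClosure (RatFunc k) Ω)
    (hτc : Y.S.s τ c = c) (hτA : ∀ α ∈ A, Y.S.s τ (α : Ω) = α)
    (t1 : Y.S.s τ e₁ = e₂) (t2 : Y.S.s τ e₂ = e₃) (t3 : Y.S.s τ e₃ = e₁) (x : Ω) (P : TwSt Y (twD c A) e₁ e₂ e₃ τ x) :
    ∃ X : ℕ → Ω, X 0 = x ∧ ∀ m, HalfStep (Y.S.F Y.k0) (X m - e₁) e₁ e₂ e₃ (X m) (X (m + 1)) := by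
  have hDF : twD c A ∈ Y.S.F Y.k0 := twD_mem Y.S Y.k0 le_rfl Y.fin0 A c hc
  have hD0 : twD c A ≠ 0 := twD_ne Y.fin0 A c hc0
  have step : ∀ x, TwSt Y (twD c A) e₁ e₂ e₃ τ x →
      ∃ x', TwSt Y (twD c A) e₁ e₂ e₃ τ x' ∧ HalfStep (Y.S.F Y.k0) (twD c A) e₁ e₂ e₃ x x' := fun x P =>
    (Y.tw_half hnorm c hc hc0 A hA e₁ e₂ e₃ h1 h2 h3 h12 h13 h23 τ hτc hτA t1 t2 t3 x P).2.2.2
  choose! f hf using step
  have hP : ∀ m : ℕ, TwSt Y (twD c A) e₁ e₂ e₃ τ (f^[m] x) := by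
    intro m
    induction m with
    | zero => exact P
    | succ m ih =>
      rw [Function.iterate_succ_apply']
      exact (hf _ ih).1
  refine ⟨fun m => f^[m] x, rfl, fun m => ?_⟩
  simp only [Function.iterate_succ_apply']
  refine HalfStep.self _ (twD c A) e₁ e₂ e₃ _ _ hD0 hDF ?_ (hf _ (hP m)).2
  obtain ⟨-, -, y, hy, hy0, -, hxy⟩ := hP m
  intro h0
  rw [h0, sub_self, zero_mul, zero_mul] at hxy
  exact mul_ne_zero hD0 (pow_ne_zero 2 hy0) hxy.symm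

/-- `x - e₁` is even where `x` is integral -/
theorem Sys.tw_ev1 (Y : Sys k Ω) (D e₁ e₂ x : Ω) (hD0 : D ≠ 0) (hDF : D ∈ Y.S.F Y.k0) (h1 : e₁ ∈ Y.k0) (h2 : e₂ ∈ Y.k0) (h12 : e₁ ≠ e₂)
    (hx1 : x ≠ e₁) (hr1 : ∃ r ∈ Y.S.F Y.k0, D * (x - e₁) = r ^ 2) (hr2 : ∃ r ∈ Y.S.F Y.k0, D * (x - e₂) = r ^ 2)
    (k' : IntermediateField k Ω) (hk : Y.k0 ≤ k') (hfin : FiniteDimensional k k') (a : Option k') (hx : x ∈ Y.V k' a) :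
    ∃ w ∈ Y.S.F k', (Y.V k' a).valuation ((x - e₁) * w ^ 2) = 1 := by
  obtain ⟨r₁, hr₁, q₁⟩ := hr1
  obtain ⟨r₂, hr₂, q₂⟩ := hr2
  have L := Y.loc k' hk hfin a
  set V := Y.V k' a with hV
  have hmono := Y.S.F_mono (show (Y.k0 : Set Ω) ⊆ (k' : Set Ω) from fun z hz => hk hz)
  have hx10 : x - e₁ ≠ 0 := sub_ne_zero.2 hx1
  have hr10 : r₁ ≠ 0 := by
    rintro rfl
    exact mul_ne_zero hD0 hx10 (by rw [q₁]; ring)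
  have hDF' := hmono hDF
  by_cases hev : ∃ w₀ ∈ Y.S.F k', V.valuation (D * w₀ ^ 2) = 1
  · obtain ⟨w₀, hw₀, hw1⟩ := hev
    have hw00 : w₀ ≠ 0 := by
      rintro rfl
      rw [zero_pow two_ne_zero, mul_zero, map_zero] at hw1
      exact zero_ne_one hw1
    refine ⟨(r₁ * w₀)⁻¹, inv_mem (mul_mem (hmono hr₁) hw₀), ?_⟩
    have e : (x - e₁) * ((r₁ * w₀)⁻¹) ^ 2 = (D * w₀ ^ 2)⁻¹ := by
      have hx1' : x - e₁ = r₁ ^ 2 / D := by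
        rw [eq_div_iff hD0]
        linear_combination q₁
      rw [hx1']
      field_simp
    rw [e, map_inv₀, hw1, inv_one]
  · exfalso
    have hsmall : ∀ e ∈ Y.k0, ∀ r ∈ Y.S.F Y.k0, D * (x - e) = r ^ 2 → V.valuation (x - e) < 1 := by
      intro e he r hr hq
      have hle : V.valuation (x - e) ≤ 1 := (V.valuation_le_one_iff _).2 (sub_mem hx (L.const e (hk he)))
      rcases hle.lt_or_eq with h | h
      · exact h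
      · exfalso
        apply hev
        have hr0 : r ≠ 0 := by
          rintro rfl
          rw [zero_pow two_ne_zero] at hq
          rcases mul_eq_zero.1 hq with h0 | h0
          · exact hD0 h0
          · rw [h0, map_zero] at h
            exact zero_ne_one h
        refine ⟨r⁻¹, inv_mem (hmono hr), ?_⟩
        have h2 : V.valuation D = V.valuation (r ^ 2) := by
          rw [← hq, map_mul, h, mul_one]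
        rw [map_mul, h2, ← map_mul, ← mul_pow, mul_inv_cancel₀ hr0, one_pow, map_one]
    have s1 := hsmall e₁ h1 r₁ hr₁ q₁
    have s2 := hsmall e₂ h2 r₂ hr₂ q₂
    have s3 : V.valuation (e₁ - e₂) = 1 := L.val_const _ (sub_mem (hk h1) (hk h2)) (sub_ne_zero.2 h12)
    have e : e₁ - e₂ = (x - e₂) - (x - e₁) := by ring
    rw [e] at s3
    exact absurd s3 (ne_of_lt (V.valuation.map_sub_lt s2 s1))

/-- the point with its properties -/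
theorem Sys.tw_pt3 (hC : Consts k Ω) (Y : Sys k Ω) (hnorm : ∀ τ, ∀ c ∈ Y.k0, Y.S.s τ c ∈ Y.k0) (c : Ω) (hc : c ∈ Y.k0)
    (hc0 : c ≠ 0) (A : Finset Y.k0) (α₀ : Y.k0) (hα₀ : α₀ ∈ A) (e₁ e₂ e₃ : Ω) (h1 : e₁ ∈ Y.k0) (h2 : e₂ ∈ Y.k0) (h3 : e₃ ∈ Y.k0)
    (h12 : e₁ ≠ e₂) (h13 : e₁ ≠ e₃) (h23 : e₂ ≠ e₃)
    (τ : algebraicClosure (RatFunc k) Ω ≃ₐ[RatFunc k] algebraicClosure (RatFunc k) Ω)
    (hτc : Y.S.s τ c = c) (hτA : ∀ α ∈ A, Y.S.s τ (α : Ω) = α)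
    (t1 : Y.S.s τ e₁ = e₂) (t2 : Y.S.s τ e₂ = e₃) (t3 : Y.S.s τ e₃ = e₁) (x : Ω) (P : TwSt Y (twD c A) e₁ e₂ e₃ τ x)
    (htr : Transcendental (RatFunc k) x) : Pt3 Y x e₁ e₂ e₃ (some α₀) := by
  have hDF : twD c A ∈ Y.S.F Y.k0 := twD_mem Y.S Y.k0 le_rfl Y.fin0 A c hc
  have hD0 : twD c A ≠ 0 := twD_ne Y.fin0 A c hc0
  obtain ⟨hpole, hs1, hs2, -⟩ :=
    Y.tw_half hnorm c hc hc0 A ⟨α₀, hα₀⟩ e₁ e₂ e₃ h1 h2 h3 h12 h13 h23 τ hτc hτA t1 t2 t3 x P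
  obtain ⟨X, hX0, hst⟩ := Y.tw_chain hnorm c hc hc0 A ⟨α₀, hα₀⟩ e₁ e₂ e₃ h1 h2 h3 h12 h13 h23 τ hτc hτA t1 t2 t3 x P
  have hx1 : x ≠ e₁ := by
    rintro rfl
    exact htr (level_alg Y.k0 Y.fin0 _ h1).2
  refine { mem := P.mem, h1 := h1, h2 := h2, h3 := h3, h12 := h12, h13 := h13, h23 := h23,
           ev1 := ?_, neg := hpole α₀ hα₀, spec := ?_, fin := ?_, tr := htr, nsq := ?_ }
  · exact Y.tw_ev1 (twD c A) e₁ e₂ x hD0 hDF h1 h2 h12 hx1 hs1 hs2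
  · intro k' hk hfin b d hd hd1 hd2 hd3 hv
    obtain ⟨C, hC0, hCk, hCne, hCD⟩ := Y.specX e₁ e₂ e₃ h1 h2 h3 h12 h13 h23 X hst k' hk hfin b d hd hd1 hd2 hd3
      (by rw [hX0]; exact hv)
    obtain ⟨n, hn, hper⟩ := hC.chain k' hfin e₁ e₂ e₃ (hk h1) (hk h2) (hk h3) h12 h13 h23 C hCk hCne hCD
    exact ⟨n, hn, by rw [← hC0]; exact hper⟩
  · intro k' hk hfin
    exact hC.per k' hfin e₁ e₂ e₃ (hk h1) (hk h2) (hk h3) h12 h13 h23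
  · intro k' hk hfin
    obtain ⟨d, hd, -, -⟩ := (hC.arith k' hfin).2
    refine ⟨(d : Ω), d.2, ?_⟩
    rintro ⟨d', hd', hdd⟩
    exact hd ⟨⟨d', hd'⟩, Subtype.ext (by rw [hdd]; rfl)⟩

end

end BSC
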