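import Pool.Agent.Lib_MP_49ddc8.Fb4

/-!
# Three fixed branch points: Galois action

If no root of the cubic `f` lies in the field generated by the finite set `Λ`, then some automorphism fixes `Λ` and permutes the
roots of `f` cyclically.
-/

set_option autoImplicit false

open Polynomial

namespace BSC

private def T7P (w : Equiv.Perm (Fin 3)) : Prop :=
  w 0 ≠ 0 ∧ w (w 0) ≠ 0 ∧ w (w 0) ≠ w 0 ∧ w (w (w 0)) = 0

private instance (w : Equiv.Perm (Fin 3)) : Decidable (T7P w) := by unfold T7P; infer_instance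

private theorem t7_perm : ∀ a : Equiv.Perm (Fin 3), a 0 ≠ 0 → ∀ b : Equiv.Perm (Fin 3), b 1 ≠ 1 → ∀ c : Equiv.Perm (Fin 3), c 2 ≠ 2 →
    (T7P (a * a) ∨ T7P (b * b) ∨ T7P (c * c) ∨ T7P (a * b) ∨ T7P (a * c) ∨ T7P (b * c)) := by
  decide

section

variable {k Ω : Type} [Field k] [CharZero k] [Field Ω] [IsAlgClosed Ω] [Algebra k Ω] [Algebra (RatFunc k) Ω]
  [IsScalarTower k (RatFunc k) Ω]

/-- a constant outside `k(Λ)` is moved by an automorphism which fixes `Λ` -/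
theorem fb_moved' (S : Sec (RatFunc k) Ω) (Λ : Set Ω) (hΛf : Λ.Finite) (hΛ : ∀ α ∈ Λ, IsAlgebraic k α) (e : Ω)
    (he : IsAlgebraic k e) (h : e ∉ IntermediateField.adjoin k Λ) : ∃ τ, (∀ α ∈ Λ, S.s τ α = α) ∧ S.s τ e ≠ e := by
  have : Finite Λ := hΛf
  have hfin : FiniteDimensional k (IntermediateField.adjoin k Λ) :=
    IntermediateField.finiteDimensional_adjoin fun x hx => (hΛ x hx).isIntegral
  have hΛ' : ∀ α ∈ Λ, IsAlgebraic (RatFunc k) α := fun α hα => (hΛ α hα).tower_top (RatFunc k)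
  have he' : IsAlgebraic (RatFunc k) e := he.tower_top (RatFunc k)
  have hle : IntermediateField.adjoin (RatFunc k) Λ ≤ kt (IntermediateField.adjoin k Λ) := by
    apply IntermediateField.adjoin.mono
    intro z hz
    exact IntermediateField.subset_adjoin k Λ hz
  obtain ⟨τ, h1, h2⟩ := exists_move (κ := RatFunc k) (Ω := Ω) Λ hΛ' ⟨e, mem_algebraicClosure_iff.2 he'⟩
    (fun hmem => h (mem_of_kt _ hfin e he (hle hmem)))
  refine ⟨τ, fun α hα => ?_, ?_⟩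
  · have h3 := S.res τ ⟨α, mem_algebraicClosure_iff.2 (hΛ' α hα)⟩
    rw [h1 ⟨α, mem_algebraicClosure_iff.2 (hΛ' α hα)⟩ hα] at h3
    exact h3
  · intro h3
    apply h2
    apply Subtype.ext
    rw [← S.res τ]
    exact h3

/-- an automorphism which fixes `Λ` and permutes the three roots of `f` cyclically -/
theorem fb_cycle (S : Sec (RatFunc k) Ω) (f : k[X]) (hf0 : f ≠ 0) (R : Finset Ω) (hR : ∀ e, e ∈ R ↔ aeval e f = 0)
    (hRc : R.card = 3) (Λ : Set Ω) (hΛf : Λ.Finite) (hΛ : ∀ α ∈ Λ, IsAlgebraic k α)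
    (h : ∀ e ∈ R, e ∉ IntermediateField.adjoin k Λ) :
    ∃ (τ : algebraicClosure (RatFunc k) Ω ≃ₐ[RatFunc k] algebraicClosure (RatFunc k) Ω) (e₁ e₂ e₃ : Ω),
      (∀ α ∈ Λ, S.s τ α = α) ∧ e₁ ∈ R ∧ e₂ ∈ R ∧ e₃ ∈ R ∧ e₁ ≠ e₂ ∧ e₁ ≠ e₃ ∧ e₂ ≠ e₃ ∧
        S.s τ e₁ = e₂ ∧ S.s τ e₂ = e₃ ∧ S.s τ e₃ = e₁ := by
  classical
  have hstab : ∀ τ, ∀ e, S.s τ e ∈ R ↔ e ∈ R := by
    intro τ e
    rw [hR, hR, ← S.s_aeval]
    exact map_eq_zero_iff (S.s τ) (S.s τ).injective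
  let p : R ≃ Fin 3 := R.equivFinOfCardEq hRc
  let σ : (algebraicClosure (RatFunc k) Ω ≃ₐ[RatFunc k] algebraicClosure (RatFunc k) Ω) → Equiv.Perm (Fin 3) := fun τ =>
    p.permCongr (Equiv.Perm.subtypePerm (S.s τ).toEquiv (hstab τ))
  have hσ : ∀ τ i, ((p.symm (σ τ i) : R) : Ω) = S.s τ ((p.symm i : R) : Ω) := by
    intro τ i
    show ((p.symm (p _) : R) : Ω) = _
    rw [Equiv.symm_apply_apply]
    rfl
  have hmul : ∀ a b i, ((p.symm ((σ a * σ b) i) : R) : Ω) = S.s (a * b) ((p.symm i : R) : Ω) := by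
    intro a b i
    rw [Equiv.Perm.mul_apply, hσ, hσ, map_mul]
    rfl
  have key : ∀ (τ : algebraicClosure (RatFunc k) Ω ≃ₐ[RatFunc k] algebraicClosure (RatFunc k) Ω) (w : Equiv.Perm (Fin 3)),
      (∀ i, ((p.symm (w i) : R) : Ω) = S.s τ ((p.symm i : R) : Ω)) → T7P w → (∀ α ∈ Λ, S.s τ α = α) →
      ∃ (τ : algebraicClosure (RatFunc k) Ω ≃ₐ[RatFunc k] algebraicClosure (RatFunc k) Ω) (e₁ e₂ e₃ : Ω),
      (∀ α ∈ Λ, S.s τ α = α) ∧ e₁ ∈ R ∧ e₂ ∈ R ∧ e₃ ∈ R ∧ e₁ ≠ e₂ ∧ e₁ ≠ e₃ ∧ e₂ ≠ e₃ ∧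
        S.s τ e₁ = e₂ ∧ S.s τ e₂ = e₃ ∧ S.s τ e₃ = e₁ := by
    rintro τ w hw ⟨w1, w2, w3, w4⟩ hτ
    have hinj : ∀ i j : Fin 3, ((p.symm i : R) : Ω) = ((p.symm j : R) : Ω) → i = j := fun i j hij =>
      p.symm.injective (Subtype.ext hij)
    refine ⟨τ, p.symm 0, p.symm (w 0), p.symm (w (w 0)), hτ, (p.symm 0).2, (p.symm _).2, (p.symm _).2,
      fun h0 => w1 (hinj _ _ h0).symm, fun h0 => w2 (hinj _ _ h0).symm, fun h0 => w3 (hinj _ _ h0).symm,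
      (hw 0).symm, (hw _).symm, ?_⟩
    rw [← hw, w4]
  have hmov : ∀ i : Fin 3, ∃ τ, (∀ α ∈ Λ, S.s τ α = α) ∧ σ τ i ≠ i := by
    intro i
    obtain ⟨τ, h1, h2⟩ := fb_moved' S Λ hΛf hΛ ((p.symm i : R) : Ω) ⟨f, hf0, (hR _).1 (p.symm i).2⟩ (h _ (p.symm i).2)
    refine ⟨τ, h1, fun h3 => h2 ?_⟩
    rw [← hσ, h3]
  obtain ⟨a, ha, ha'⟩ := hmov 0
  obtain ⟨b, hb, hb'⟩ := hmov 1
  obtain ⟨c, hc, hc'⟩ := hmov 2
  have hfix : ∀ a b : algebraicClosure (RatFunc k) Ω ≃ₐ[RatFunc k] algebraicClosure (RatFunc k) Ω, (∀ α ∈ Λ, S.s a α = α) →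
      (∀ α ∈ Λ, S.s b α = α) → ∀ α ∈ Λ, S.s (a * b) α = α := by
    intro a b ha hb α hα
    rw [map_mul]
    show S.s a (S.s b α) = α
    rw [hb α hα, ha α hα]
  rcases t7_perm _ ha' _ hb' _ hc' with hw | hw | hw | hw | hw | hw
  · exact key (a * a) _ (hmul a a) hw (hfix a a ha ha)
  · exact key (b * b) _ (hmul b b) hw (hfix b b hb hb)
  · exact key (c * c) _ (hmul c c) hw (hfix c c hc hc)
  · exact key (a * b) _ (hmul a b) hw (hfix a b ha hb)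
  · exact key (a * c) _ (hmul a c) hw (hfix a c ha hc)
  · exact key (b * c) _ (hmul b c) hw (hfix b c hb hc)

end

end BSC
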