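import Pool.Agent.Lib_MP_49ddc8.Tw7

/-!
# Three fixed branch points

`y² = c (x - e₁)(x - e₂)(x - e₃) G(t, x)`, the degree of `G` in `X` even with leading coefficient `l`.  If `l` has a root then no
`e_i` lies in the field generated by the roots of `l`.
-/

set_option autoImplicit false

open Polynomial

namespace BSC

section

variable {k Ω : Type} [Field k] [CharZero k] [Field Ω] [IsAlgClosed Ω] [Algebra k Ω] [Algebra (RatFunc k) Ω]
  [IsScalarTower k (RatFunc k) Ω]

/-- the value of `G(a, x)` where `x` has a pole and the leading coefficient is a unit -/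
theorem ev2_pole' {k Ω : Type} [Field k] [Field Ω] [Algebra k Ω] (V : ValuationSubring Ω) (hV : ∀ c : k, algebraMap k Ω c ∈ V)
    (a x : Ω) (ha : a ∈ V) (hx : x ∉ V) (G : k[X][X]) (hl : V.valuation (aeval a G.leadingCoeff) = 1) :
    V.valuation (ev2 G a x) = V.valuation x ^ G.natDegree := by
  have hx1 : 1 < V.valuation x := by
    rw [← not_le, V.valuation_le_one_iff]
    exact hx
  have hcoef : ∀ p : k[X], aeval a p ∈ V := by
    intro p
    rw [aeval_eq_sum_range]
    refine sum_mem fun i _ => ?_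
    rw [Algebra.smul_def]
    exact mul_mem (hV _) (pow_mem ha i)
  have htop : V.valuation (aeval a (G.coeff G.natDegree) * x ^ G.natDegree) = V.valuation x ^ G.natDegree := by
    have h1 : V.valuation (aeval a (G.coeff G.natDegree)) = 1 := hl
    rw [map_mul, h1, one_mul, map_pow]
  rw [ev2_eq, Finset.sum_range_succ]
  rcases Nat.eq_zero_or_pos G.natDegree with h0 | hpos
  · rw [h0] at htop ⊢
    rw [Finset.sum_range_zero, zero_add]
    exact htop
  · have hlt : V.valuation (∑ i ∈ Finset.range G.natDegree, aeval a (G.coeff i) * x ^ i) <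
        V.valuation (aeval a (G.coeff G.natDegree) * x ^ G.natDegree) := by
      rw [htop]
      have hxpos : 0 < V.valuation x := lt_trans zero_lt_one hx1
      refine V.valuation.map_sum_lt (pow_pos hxpos _).ne' fun i hi => ?_
      rw [Finset.mem_range] at hi
      rw [map_mul, map_pow]
      calc V.valuation (aeval a (G.coeff i)) * V.valuation x ^ i ≤ V.valuation x ^ i :=
            mul_le_of_le_one_left' ((V.valuation_le_one_iff _).2 (hcoef _))
        _ < V.valuation x ^ G.natDegree := pow_lt_pow_right₀ hx1 hi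
    rw [V.valuation.map_add_eq_of_lt_right hlt, htop]

variable {Y : Sys k Ω} {R : Finset Ω} {G : k[X][X]} {A : Finset Y.k0} {c x y : Ω}

/-- the poles of `x` at the places where the leading coefficient is a unit are even -/
theorem FbD.pole_loc (D : FbD Y R G A c x y) (hodd : Odd (R.card + G.natDegree)) (k'' : IntermediateField k Ω) (hk : Y.k0 ≤ k'')
    (hfin : FiniteDimensional k k'') (β : k'') (hl : aeval (β : Ω) G.leadingCoeff ≠ 0) (hxV : x ∉ Y.V k'' (some β)) :
    ∃ w ∈ Y.S.F k'', (Y.V k'' (some β)).valuation (x * w ^ 2) = 1 := by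
  have L := Y.loc k'' hk hfin (some β)
  set V := Y.V k'' (some β) with hV
  have hkV : ∀ b : k, algebraMap k Ω b ∈ V := fun b => L.const _ (k''.algebraMap_mem b)
  have hβV : (β : Ω) ∈ V := L.const β β.2
  have htβ : V.valuation (tt k Ω - β) < 1 := L.unif
  have htV : tt k Ω ∈ V := by
    have h1 : tt k Ω - β ∈ V := (V.valuation_le_one_iff _).1 htβ.le
    have e1 : tt k Ω = (tt k Ω - β) + β := by ring
    rw [e1]
    exact add_mem h1 hβV
  have hx0 : x ≠ 0 := by
    rintro rfl
    exact hxV (zero_mem _)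
  have hlev : ∀ a : Ω, ev2 (C G.leadingCoeff) a 0 = aeval a G.leadingCoeff := by
    intro a
    unfold ev2
    rw [eval₂_C]
    rfl
  have hl1 : V.valuation (aeval (tt k Ω) G.leadingCoeff) = 1 := by
    have h1 := ev2_congr V hkV (tt k Ω) β 0 0 htV hβV htβ (zero_mem _) (zero_mem _) (by
      rw [sub_self, map_zero]
      exact zero_lt_one) (C G.leadingCoeff)
    rw [hlev, hlev] at h1
    have h2 : V.valuation (aeval (β : Ω) G.leadingCoeff) = 1 := by
      refine L.val_const _ ?_ hl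
      rw [← hlev]
      exact ev2_mem_level k'' _ _ _ β.2 (zero_mem _)
    have e1 : aeval (tt k Ω) G.leadingCoeff =
        aeval (β : Ω) G.leadingCoeff + (aeval (tt k Ω) G.leadingCoeff - aeval (β : Ω) G.leadingCoeff) := by ring
    rw [e1, V.valuation.map_add_eq_of_lt_left (by rw [h2]; exact h1), h2]
  obtain ⟨m, hm⟩ := hodd
  have hy : V.valuation (y ^ 2) = V.valuation x ^ (2 * m + 1) := by
    rw [D.eq, map_mul, map_mul, L.val_const c (hk D.memc) D.c0, one_mul, map_prod,
      Finset.prod_congr rfl (fun e he => fb_big (L.const e (hk (D.memR e he))) hxV), Finset.prod_const,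
      ev2_pole' V hkV (tt k Ω) x htV hxV G hl1, ← pow_add, hm]
  refine ⟨x ^ m / y, div_mem (pow_mem (D.memx _) m)
    (Y.S.F_mono (show (Y.k0 : Set Ω) ⊆ (k'' : Set Ω) from fun z hz => hk hz) D.memy), ?_⟩
  have hv0 : V.valuation (y ^ 2) ≠ 0 := (Valuation.ne_zero_iff _).2 (pow_ne_zero 2 D.y0)
  have e1 : x * (x ^ m / y) ^ 2 = x ^ (2 * m + 1) * (y ^ 2)⁻¹ := by
    rw [div_pow, ← pow_mul, mul_comm m 2, pow_succ, div_eq_mul_inv]
    ring
  rw [e1, map_mul, map_pow, ← hy, map_inv₀]
  exact mul_inv_cancel₀ hv0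

/-- all `x - e` are even at the places where the leading coefficient is a unit -/
theorem FbD.even_loc (D : FbD Y R G A c x y) (hodd : Odd (R.card + G.natDegree)) (k'' : IntermediateField k Ω) (hk : Y.k0 ≤ k'')
    (hfin : FiniteDimensional k k'') (β : k'') (hl : aeval (β : Ω) G.leadingCoeff ≠ 0) (e : Ω) (he : e ∈ R) :
    ∃ w ∈ Y.S.F k'', (Y.V k'' (some β)).valuation ((x - e) * w ^ 2) = 1 := by
  by_cases hxV : x ∈ Y.V k'' (some β)
  · exact D.even_int k'' hk hfin (some β) hxV e he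
  · obtain ⟨w, hw, hw1⟩ := D.pole_loc hodd k'' hk hfin β hl hxV
    refine ⟨w, hw, ?_⟩
    have L := Y.loc k'' hk hfin (some β)
    rw [map_mul, fb_big (L.const e (hk (D.memR e he))) hxV, ← map_mul]
    exact hw1

theorem prod_even {V : ValuationSubring Ω} (F : Subfield Ω) (J : Finset Ω) (x : Ω)
    (h : ∀ e ∈ J, ∃ w ∈ F, V.valuation ((x - e) * w ^ 2) = 1) : ∃ w ∈ F, V.valuation ((∏ e ∈ J, (x - e)) * w ^ 2) = 1 := by
  classical
  induction J using Finset.induction_on with
  | empty => exact ⟨1, one_mem _, by simp⟩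
  | insert a J ha ih =>
    obtain ⟨w, hw, hw1⟩ := ih fun e he => h e (Finset.mem_insert_of_mem he)
    obtain ⟨v, hv, hv1⟩ := h a (Finset.mem_insert_self a J)
    refine ⟨v * w, mul_mem hv hw, ?_⟩
    rw [Finset.prod_insert ha]
    have e1 : (x - a) * (∏ e ∈ J, (x - e)) * (v * w) ^ 2 = ((x - a) * v ^ 2) * ((∏ e ∈ J, (x - e)) * w ^ 2) := by ring
    rw [e1, map_mul, hv1, hw1, one_mul]

/-- the product of all `x - e` is a constant times a product of `t - α` times a square, `α` roots of the leading coefficient -/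
theorem FbD.form (D : FbD Y R G A c x y) (hodd : Odd (R.card + G.natDegree)) (Λ : Finset Y.k0)
    (hΛ : ∀ a : Ω, aeval a G.leadingCoeff = 0 → ∃ α ∈ Λ, (α : Ω) = a) :
    ∃ ε : Y.k0, ε ≠ 0 ∧ ∃ B ⊆ Λ, ∃ w ∈ Y.S.F Y.k0, w ≠ 0 ∧
      ∏ e ∈ R, (x - e) = (ε : Ω) * (∏ α ∈ B, (tt k Ω - (α : Ω))) * w ^ 2 := by
  refine Y.desc Y.k0 le_rfl Y.fin0 (∏ e ∈ R, (x - e)) (D.prod_mem R (Finset.Subset.refl R) Y.k0 le_rfl Y.fin0)
    (D.prod_ne R (Finset.Subset.refl R)) Λ ?_
  intro k'' hk hfin β hβ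
  refine prod_even _ R x fun e he => D.even_loc hodd k'' hk hfin β ?_ e he
  intro h0
  obtain ⟨α, hα, hαβ⟩ := hΛ _ h0
  exact hβ α hα hαβ

/-- a normal level above a given level, with a given element -/
theorem fb_level2 (f : k[X]) (hf : f ≠ 0) (k0 : IntermediateField k Ω) (hfin0 : FiniteDimensional k k0) (r : Ω)
    (hr : IsAlgebraic k r) :
    ∃ k1 : IntermediateField k Ω, k0 ≤ k1 ∧ FiniteDimensional k k1 ∧ (∃ i ∈ k1, i ^ 2 = (-1 : Ω)) ∧ r ∈ k1 ∧
    ∀ (S : Sec (RatFunc k) Ω) (τ : algebraicClosure (RatFunc k) Ω ≃ₐ[RatFunc k] algebraicClosure (RatFunc k) Ω),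
      ∀ c ∈ k1, S.s τ c ∈ k1 := by
  classical
  let b := Module.finBasis k k0
  obtain ⟨k1, h1, h2, -, h4, h5⟩ := fb_level (Ω := Ω) f hf (insert r (Finset.univ.image fun i => ((b i : k0) : Ω))) (by
    intro a ha
    rw [Finset.mem_insert, Finset.mem_image] at ha
    rcases ha with rfl | ⟨i, -, rfl⟩
    · exact hr
    · exact (level_alg k0 hfin0 _ (b i).2).1)
  refine ⟨k1, ?_, h1, h2, h4 r (Finset.mem_insert_self _ _), h5⟩
  intro z hz
  have h6 : (∑ i, b.repr ⟨z, hz⟩ i • b i : k0) = ⟨z, hz⟩ := b.sum_repr _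
  have h7 := congrArg (fun u : k0 => (u : Ω)) h6
  rw [← show ((∑ i, b.repr ⟨z, hz⟩ i • b i : k0) : Ω) = z from h7]
  rw [IntermediateField.coe_sum]
  refine sum_mem fun i _ => ?_
  rw [IntermediateField.coe_smul, Algebra.smul_def]
  exact mul_mem (k1.algebraMap_mem _) (h4 _ (Finset.mem_insert_of_mem (Finset.mem_image.2 ⟨i, Finset.mem_univ _, rfl⟩)))

end

end BSC
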