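import Pool.Agent.Lib_MP_49ddc8.Tw8

/-!
# Three fixed branch points: the valuation ring
-/

set_option autoImplicit false

open Polynomial

namespace BSC

section

variable {k Ω : Type} [Field k] [CharZero k] [Field Ω] [IsAlgClosed Ω] [Algebra k Ω] [Algebra (RatFunc k) Ω]
  [IsScalarTower k (RatFunc k) Ω]

/-- the data `FbD` at a level which contains the elements of `E` -/
theorem exists_FbD' (hC : Consts k Ω) (S : Sec (RatFunc k) Ω) (f : k[X]) (hf : f.Separable) (h3 : 3 ≤ f.natDegree)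
    (G : k[X][X]) (hcol : ∀ a e : Ω, IsAlgebraic k a → aeval e f = 0 → ev2 G a e = 0 → e ∉ IntermediateField.adjoin k {a})
    (E : Finset Ω) (hE : ∀ a ∈ E, IsAlgebraic k a)
    (x y : Ω) (hx : x ∈ S.F ∅) (hy : y ∈ S.F ∅) (htr : Transcendental (RatFunc k) x)
    (hxy : y ^ 2 = aeval x f * ev2 G (tt k Ω) x) :
    ∃ (Y : Sys k Ω) (R : Finset Ω) (A : Finset Y.k0) (c : Ω), Y.S = S ∧ FbD Y R G A c x y ∧ R.card = f.natDegree ∧
      (∀ e : Ω, e ∈ R ↔ aeval e f = 0) ∧ (∃ i ∈ Y.k0, i ^ 2 = (-1 : Ω)) ∧ ∀ a ∈ E, a ∈ Y.k0 := by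
  classical
  have hf0 : f ≠ 0 := hf.ne_zero
  obtain ⟨R, hR, hRc, hRp⟩ := tw_roots (Ω := Ω) f hf
  have hRalg : ∀ e ∈ R, IsAlgebraic k e := fun e he => ⟨f, hf0, (hR e).1 he⟩
  obtain ⟨A, hAalg, hA⟩ := fb_collisions G R hRalg (fun a e ha he h0 => hcol a e ha ((hR e).1 he) h0)
  obtain ⟨k1, hfin1, hi1, hroots1, hAE1, hnorm1⟩ := fb_level (Ω := Ω) f hf0 (A ∪ E) (fun a ha => by
    rcases Finset.mem_union.1 ha with h | h
    · exact hAalg a h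
    · exact hE a h)
  have hA1 : ∀ a ∈ A, a ∈ k1 := fun a ha => hAE1 a (Finset.mem_union_left _ ha)
  obtain ⟨Y, hYS, hYk⟩ := exists_sys S k1 hfin1 (fun k' _ hfin' => hC.arith k' hfin') hi1
  subst hYS
  subst hYk
  have hG : G ≠ 0 := by
    rintro rfl
    obtain ⟨e, he⟩ : R.Nonempty := Finset.card_pos.1 (by omega)
    refine hcol e e (hRalg e he) ((hR e).1 he) ?_ (IntermediateField.mem_adjoin_simple_self k e)
    unfold ev2
    rw [eval₂_zero]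
  have hfx : aeval x f ≠ 0 := by
    intro h0
    have h1 : IsAlgebraic k x := ⟨f, hf0, h0⟩
    exact htr (h1.tower_top (RatFunc k))
  refine ⟨Y, R, (A.attach.image fun a => (⟨a.1, hA1 a.1 a.2⟩ : Y.k0)), algebraMap k Ω f.leadingCoeff, rfl, ?_, hRc, hR, hi1,
    fun a ha => hAE1 a (Finset.mem_union_right _ ha)⟩
  refine
    { norm := hnorm1 Y.S
      memR := fun e he => hroots1 e ((hR e).1 he)
      stab := fun τ e he => ?_
      card := by rw [hRc]; exact h3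
      fix := fun τ => hx τ (fun z hz => absurd hz (Set.notMem_empty _))
      memy := Y.S.F_mono (Set.empty_subset _) hy
      y0 := ?_
      memc := Y.k0.algebraMap_mem _
      c0 := (_root_.map_ne_zero (algebraMap k Ω)).2 (leadingCoeff_ne_zero.2 hf0)
      eq := by rw [hxy, hRp]
      col := fun a ha e he h0 => ?_
      mov := fun α hα e he h0 => ?_ }
  · rw [hR, ← Y.S.s_aeval, (hR e).1 he, map_zero]
  · rintro rfl
    have h1 := mul_ne_zero hfx (ev2_tt_ne G hG x htr)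
    rw [← hxy] at h1
    exact h1 (by ring)
  · have h1 := hA a ha e he h0
    exact ⟨⟨a, hA1 a h1⟩, Finset.mem_image.2 ⟨⟨a, h1⟩, Finset.mem_attach _ _, rfl⟩, rfl⟩
  · have hαalg : IsAlgebraic k (α : Ω) := (level_alg Y.k0 Y.fin0 α α.2).1
    exact fb_moved Y.S (α : Ω) e hαalg (hRalg e he) (hcol _ e hαalg ((hR e).1 he) h0)

/-- three fixed branch points, a point of the twist `∏ (x - e) = ∏_{α ∈ B} (t - α) w²` -/
theorem exists_U_tw3 (hC : Consts k Ω) (S : Sec (RatFunc k) Ω) (hdep : Dep (RatFunc k) Ω) (k0 : IntermediateField k Ω)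
    (hfin0 : FiniteDimensional k k0) (f : k[X]) (hf : f ≠ 0) (e₁ e₂ e₃ : Ω) (h1 : e₁ ∈ k0) (h2 : e₂ ∈ k0) (h3 : e₃ ∈ k0)
    (h12 : e₁ ≠ e₂) (h13 : e₁ ≠ e₃) (h23 : e₂ ≠ e₃)
    (τ : algebraicClosure (RatFunc k) Ω ≃ₐ[RatFunc k] algebraicClosure (RatFunc k) Ω)
    (t1 : S.s τ e₁ = e₂) (t2 : S.s τ e₂ = e₃) (t3 : S.s τ e₃ = e₁) (B : Finset k0) (hB : B.Nonempty)
    (hτB : ∀ α ∈ B, S.s τ (α : Ω) = α) (x w ε : Ω) (hx : x ∈ S.F k0) (hτx : S.s τ x = x) (hw : w ∈ S.F k0) (hw0 : w ≠ 0)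
    (hε : ε ∈ k0) (hε0 : ε ≠ 0) (htr : Transcendental (RatFunc k) x)
    (hxy : (x - e₁) * (x - e₂) * (x - e₃) = ε * (∏ α ∈ B, (tt k Ω - (α : Ω))) * w ^ 2) :
    ∃ U : ValuationSubring Ω, (∀ z : Ω, IsAlgebraic (RatFunc k) z → z ∈ U) ∧ (∃ ξ : Ω, ξ ≠ 0 ∧ U.valuation ξ < 1) ∧
      ∀ (τ : algebraicClosure (RatFunc k) Ω ≃ₐ[RatFunc k] algebraicClosure (RatFunc k) Ω) (z : Ω), S.s τ z ∈ U ↔ z ∈ U := by
  classical
  obtain ⟨r, hr⟩ := IsAlgClosed.exists_pow_nat_eq ε (n := 2) (by norm_num)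
  have hralg : IsAlgebraic k r := IsAlgebraic.of_pow (n := 2) (by norm_num) (by
    rw [hr]
    exact (level_alg k0 hfin0 ε hε).1)
  obtain ⟨k1, hk1, hfin1, hi1, hrk1, hnorm1⟩ := fb_level2 f hf k0 hfin0 r hralg
  obtain ⟨Y, hYS, hYk⟩ := exists_sys S k1 hfin1 (fun k' _ hfin' => hC.arith k' hfin') hi1
  subst hYS
  subst hYk
  have hnorm : ∀ τ, ∀ c ∈ Y.k0, Y.S.s τ c ∈ Y.k0 := hnorm1 Y.S
  have hmono := Y.S.F_mono (show (k0 : Set Ω) ⊆ (Y.k0 : Set Ω) from fun z hz => hk1 hz)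
  let ι : k0 ↪ Y.k0 := ⟨fun a => ⟨(a : Ω), hk1 a.2⟩, fun a b hab => by
    have h0 := congrArg (fun u : Y.k0 => (u : Ω)) hab
    exact Subtype.ext h0⟩
  set B' : Finset Y.k0 := B.map ι with hB'
  have hprodB : ∏ α ∈ B', (tt k Ω - (α : Ω)) = ∏ α ∈ B, (tt k Ω - (α : Ω)) := by
    rw [hB', Finset.prod_map]
    rfl
  have hτB' : ∀ α ∈ B', Y.S.s τ (α : Ω) = α := by
    intro α hα
    obtain ⟨a, ha, rfl⟩ := Finset.mem_map.1 hα
    exact hτB a ha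
  set D : Ω := twD 1 B' with hD
  have hD0 : D ≠ 0 := twD_ne Y.fin0 B' 1 one_ne_zero
  have hDτ : Y.S.s τ D = D := twD_fix Y.S 1 B' τ (map_one _) hτB'
  have hr0 : r ≠ 0 := by
    rintro rfl
    apply hε0
    rw [← hr]
    ring
  set w' : Ω := r * w with hw'
  have hw'F : w' ∈ Y.S.F Y.k0 := mul_mem (tw_const_mem Y.S Y.k0 Y.fin0 r hrk1) (hmono hw)
  have hw'0 : w' ≠ 0 := mul_ne_zero hr0 hw0
  have heq : (x - e₁) * (x - e₂) * (x - e₃) = D * w' ^ 2 := by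
    rw [hxy, hD, hw', mul_pow, hr]
    unfold twD
    rw [hprodB]
    ring
  have hw'τ : Y.S.s τ w' = w' ∨ Y.S.s τ w' = -w' := by
    apply sq_eq_sq_iff_eq_or_eq_neg.1
    apply mul_left_cancel₀ hD0
    have h1 := congrArg (Y.S.s τ) heq
    rw [map_mul, map_mul, map_sub, map_sub, map_sub, hτx, t1, t2, t3, map_mul, map_pow, hDτ] at h1
    rw [← h1, ← heq]
    ring
  have hpow : ∀ z : Ω, Y.S.s (τ * τ * τ * τ) z = Y.S.s τ (Y.S.s τ (Y.S.s τ (Y.S.s τ z))) := by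
    intro z
    rw [map_mul, map_mul, map_mul]
    rfl
  have P : TwSt Y D e₁ e₂ e₃ (τ * τ * τ * τ) x := by
    refine ⟨hmono hx, ?_, w', hw'F, hw'0, ?_, heq⟩
    · rw [hpow, hτx, hτx, hτx, hτx]
    · rw [hpow]
      rcases hw'τ with h | h
      · rw [h, h, h, h]
      · rw [h, map_neg, h, neg_neg, h, map_neg, h, neg_neg]
  obtain ⟨a₀, ha₀⟩ := hB
  have hα₀ : ι a₀ ∈ B' := Finset.mem_map.2 ⟨a₀, ha₀, rfl⟩
  have P3 : Pt3 Y x e₁ e₂ e₃ (some (ι a₀)) :=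
    Y.tw_pt3 hC hnorm 1 (one_mem _) one_ne_zero B' (ι a₀) hα₀ e₁ e₂ e₃ (hk1 h1) (hk1 h2) (hk1 h3) h12 h13 h23 (τ * τ * τ * τ)
      (map_one _) (fun α hα => by rw [hpow, hτB' α hα, hτB' α hα, hτB' α hα, hτB' α hα])
      (by rw [hpow, t1, t2, t3, t1]) (by rw [hpow, t2, t3, t1, t2]) (by rw [hpow, t3, t1, t2, t3]) x P htr
  have htr0 : Transcendental (RatFunc k) (x - 0)⁻¹ := by
    rw [sub_zero]
    intro h
    exact htr (by simpa using h.inv)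
  have hX : Xi Y (x - 0)⁻¹ :=
    ⟨htr0, fun k'' hk'' hfin'' a => P3.stepIII 0 (zero_mem _) k'' hk'' hfin'' a, fun z => hdep _ htr0 z⟩
  obtain ⟨U, u1, u2, u3⟩ := hX.V3
  refine ⟨U, u1, ⟨_, fun h0 => htr0 ?_, u2⟩, fun τ z => invariant _ U u1 u3 τ z⟩
  rw [h0]
  exact isAlgebraic_zero

/-- three fixed branch points -/
theorem exists_U_cub (hC : Consts k Ω) (S : Sec (RatFunc k) Ω) (hdep : Dep (RatFunc k) Ω) (f : k[X]) (hf : f.Separable)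
    (hdeg : f.natDegree = 3) (G : k[X][X]) (hG : Even G.natDegree)
    (hcol : ∀ a e : Ω, IsAlgebraic k a → aeval e f = 0 → ev2 G a e = 0 → e ∉ IntermediateField.adjoin k {a})
    (hl : ∀ α e : Ω, aeval α G.leadingCoeff = 0 → aeval e f = 0 →
      e ∉ IntermediateField.adjoin k (G.leadingCoeff.rootSet Ω))
    (x y : Ω) (hx : x ∈ S.F ∅) (hy : y ∈ S.F ∅) (htr : Transcendental (RatFunc k) x)
    (hxy : y ^ 2 = aeval x f * ev2 G (tt k Ω) x) :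
    ∃ U : ValuationSubring Ω, (∀ z : Ω, IsAlgebraic (RatFunc k) z → z ∈ U) ∧ (∃ ξ : Ω, ξ ≠ 0 ∧ U.valuation ξ < 1) ∧
      ∀ (τ : algebraicClosure (RatFunc k) Ω ≃ₐ[RatFunc k] algebraicClosure (RatFunc k) Ω) (z : Ω), S.s τ z ∈ U ↔ z ∈ U := by
  classical
  have hf0 : f ≠ 0 := hf.ne_zero
  have hΛfin : (G.leadingCoeff.rootSet Ω).Finite := Polynomial.rootSet_finite _ _
  have hG0 : G ≠ 0 := by
    rintro rfl
    obtain ⟨R, hR, hRc, -⟩ := tw_roots (Ω := Ω) f hf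
    obtain ⟨e, he⟩ : R.Nonempty := Finset.card_pos.1 (by omega)
    refine hcol e e ⟨f, hf0, (hR e).1 he⟩ ((hR e).1 he) ?_ (IntermediateField.mem_adjoin_simple_self k e)
    unfold ev2
    rw [eval₂_zero]
  have hlc : G.leadingCoeff ≠ 0 := leadingCoeff_ne_zero.2 hG0
  have hroot : ∀ a : Ω, a ∈ G.leadingCoeff.rootSet Ω ↔ aeval a G.leadingCoeff = 0 := fun a => by
    rw [mem_rootSet]
    exact ⟨fun h => h.2, fun h => ⟨hlc, h⟩⟩
  have hΛalg : ∀ a ∈ G.leadingCoeff.rootSet Ω, IsAlgebraic k a := fun a ha => ⟨_, hlc, (hroot a).1 ha⟩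
  obtain ⟨Y, R, A, c, rfl, D, hRc, hR, hi, hE⟩ := exists_FbD' hC S f hf (by omega) G hcol hΛfin.toFinset
    (fun a ha => hΛalg a (hΛfin.mem_toFinset.1 ha)) x y hx hy htr hxy
  have hodd : Odd (R.card + G.natDegree) := by
    rw [hRc, hdeg]
    exact Nat.odd_add.2 (by simp only [hG, iff_true]; decide)
  obtain ⟨Λ, hΛ1, hΛ2⟩ : ∃ Λ : Finset Y.k0, (∀ a : Ω, aeval a G.leadingCoeff = 0 → ∃ α ∈ Λ, (α : Ω) = a) ∧
      ∀ α ∈ Λ, (α : Ω) ∈ G.leadingCoeff.rootSet Ω := by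
    refine ⟨hΛfin.toFinset.attach.image fun a => (⟨a.1, hE a.1 a.2⟩ : Y.k0), fun a ha => ?_, fun α hα => ?_⟩
    · have h1 : a ∈ hΛfin.toFinset := hΛfin.mem_toFinset.2 ((hroot a).2 ha)
      exact ⟨⟨a, hE a h1⟩, Finset.mem_image.2 ⟨⟨a, h1⟩, Finset.mem_attach _ _, rfl⟩, rfl⟩
    · obtain ⟨a, -, rfl⟩ := Finset.mem_image.1 hα
      exact hΛfin.mem_toFinset.1 a.2
  obtain ⟨ε, hε, B, hBΛ, w, hw, hw0, hz⟩ := D.form hodd Λ hΛ1
  have hε0 : (ε : Ω) ≠ 0 := fun h => hε (Subtype.ext h)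
  rcases Finset.eq_empty_or_nonempty B with hB | hB
  · rw [hB, Finset.prod_empty, mul_one] at hz
    exact exists_U_pts hC Y.S hdep Y.k0 Y.fin0 hi R D.memR D.card x w ε (D.memx _) hw hw0 ε.2 hε0 htr hz
  · have hBroot : ∀ α ∈ B, (α : Ω) ∈ G.leadingCoeff.rootSet Ω := fun α hα => hΛ2 α (hBΛ hα)
    obtain ⟨α₀, hα₀⟩ := hB
    obtain ⟨τ, e₁, e₂, e₃, hτ, i1, i2, i3, h12, h13, h23, t1, t2, t3⟩ := fb_cycle Y.S f hf0 R hR (by rw [hRc, hdeg])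
      (G.leadingCoeff.rootSet Ω) hΛfin hΛalg (fun e he => hl α₀ e ((hroot _).1 (hBroot α₀ hα₀)) ((hR e).1 he))
    have hReq : R = {e₁, e₂, e₃} := by
      symm
      apply Finset.eq_of_subset_of_card_le
      · intro z hz
        simp only [Finset.mem_insert, Finset.mem_singleton] at hz
        rcases hz with rfl | rfl | rfl
        · exact i1
        · exact i2
        · exact i3
      · rw [hRc, hdeg, Finset.card_eq_three.2 ⟨e₁, e₂, e₃, h12, h13, h23, rfl⟩]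
    have hprod : ∏ e ∈ R, (x - e) = (x - e₁) * (x - e₂) * (x - e₃) := by
      rw [hReq, Finset.prod_insert (by simp [h12, h13]), Finset.prod_insert (by simp [h23]), Finset.prod_singleton]
      ring
    rw [hprod] at hz
    exact exists_U_tw3 hC Y.S hdep Y.k0 Y.fin0 f hf0 e₁ e₂ e₃ (D.memR _ i1) (D.memR _ i2) (D.memR _ i3) h12 h13 h23 τ t1 t2 t3
      B ⟨α₀, hα₀⟩ (fun α hα => hτ _ (hBroot α hα)) x w ε (D.memx _) (D.fix τ) hw hw0 ε.2 hε0 htr hz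

end

end BSC
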