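import Mathlib

/-!
# Fields of characteristic `p` generated by `p`-th powers, a subfield and one element

`R` a field of characteristic `p`, `F` a subfield, `u ∈ F` not a `p`-th power in `R`, every element of `F` a sum of `u ^ i * c ^ p`, and
every nonzero element of `R` of the form `ε ^ j * f * y ^ p` with `f ∈ F`. Then `F = R`.
-/

set_option autoImplicit false

namespace BSC

open Polynomial

variable {R : Type} [Field R] (p : ℕ) [Fact p.Prime] [CharP R p]

/-- `1, u, .., u ^ (p - 1)` are independent over the field of `p`-th powers -/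
theorem va_indep (u : R) (hu : ¬ ∃ w : R, u = w ^ p) (a : ℕ → R) (h : ∑ i ∈ Finset.range p, u ^ i * a i ^ p = 0) :
    ∀ i < p, a i = 0 := by
  have hp : p.Prime := Fact.out
  let K : Subfield R := (frobenius R p).fieldRange
  have hK : ∀ w : R, w ^ p ∈ K := fun w => ⟨w, rfl⟩
  have hirr : Irreducible (X ^ p - C (⟨u ^ p, hK u⟩ : K)) := by
    refine X_pow_sub_C_irreducible_of_prime hp ?_
    rintro ⟨b, w, hb⟩ hb'
    apply hu
    have h1 : b ^ p = u ^ p := by simpa using congrArg Subtype.val hb'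
    have h2 : b = u := frobenius_inj R p (by simpa [frobenius_def] using h1)
    exact ⟨w, by rw [← h2, ← hb]; rfl⟩
  set q : K[X] := ∑ i ∈ Finset.range p, C (⟨a i ^ p, hK (a i)⟩ : K) * X ^ i with hq
  have hq0 : aeval u q = 0 := by
    rw [hq, map_sum, ← h]
    refine Finset.sum_congr rfl fun i _ => ?_
    rw [map_mul, aeval_C, map_pow, aeval_X]
    show a i ^ p * u ^ i = _
    ring
  have hmin : minpoly K u = X ^ p - C (⟨u ^ p, hK u⟩ : K) := by
    symm
    refine minpoly.eq_of_irreducible_of_monic hirr ?_ (monic_X_pow_sub_C _ hp.ne_zero)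
    rw [map_sub, map_pow, aeval_X, aeval_C]
    exact sub_self _
  have hdvd : X ^ p - C (⟨u ^ p, hK u⟩ : K) ∣ q := hmin ▸ minpoly.dvd K u hq0
  have hdeg : q.degree < (X ^ p - C (⟨u ^ p, hK u⟩ : K)).degree := by
    rw [degree_X_pow_sub_C hp.pos]
    refine lt_of_le_of_lt (degree_sum_le _ _) ?_
    rw [Finset.sup_lt_iff (by exact_mod_cast WithBot.bot_lt_coe p)]
    intro i hi
    exact lt_of_le_of_lt (degree_C_mul_X_pow_le i _) (by exact_mod_cast Finset.mem_range.1 hi)
  have hz : q = 0 := eq_zero_of_dvd_of_degree_lt hdvd hdeg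
  intro i hi
  have h1 : q.coeff i = ⟨a i ^ p, hK (a i)⟩ := by
    rw [hq, finsetSum_coeff]
    simp only [coeff_C_mul, coeff_X_pow, mul_ite, mul_one, mul_zero]
    rw [Finset.sum_ite_eq, if_pos (Finset.mem_range.2 hi)]
  rw [hz, coeff_zero] at h1
  have h2 : a i ^ p = 0 := (congrArg Subtype.val h1).symm
  exact pow_eq_zero_iff hp.ne_zero |>.1 h2

/-- the algebra lemma -/
theorem va_alg (F : Subfield R) (u : R) (huF : u ∈ F)
    (hF : ∀ x ∈ F, ∃ c : ℕ → R, (∀ i, c i ∈ F) ∧ x = ∑ i ∈ Finset.range p, u ^ i * c i ^ p)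
    (hu : ¬ ∃ w : R, u = w ^ p) (ε : R)
    (h : ∀ x : R, x ≠ 0 → ∃ (j : ℕ), ∃ f ∈ F, ∃ y : R, x = ε ^ j * f * y ^ p) : ∀ x : R, x ∈ F := by
  have hp : p.Prime := Fact.out
  have hsub : ∀ s t : R, (s - t) ^ p = s ^ p - t ^ p := fun s t => sub_pow_char s t
  have hadd0 : ∀ s t : R, (s + t) ^ p = s ^ p + t ^ p := fun s t => add_pow_char s t p
  -- F is infinite
  have hinf : Infinite F := by
    by_contra hcon
    rw [not_infinite_iff_finite] at hcon
    have hb : Function.Bijective (frobenius F p) :=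
      Finite.injective_iff_bijective.1 (frobenius_inj F p)
    obtain ⟨w, hw⟩ := hb.2 ⟨u, huF⟩
    exact hu ⟨w, by simpa [frobenius_def] using (congrArg Subtype.val hw).symm⟩
  have key : ∀ x : R, (¬ ∃ w : R, x = w ^ p) → x ∈ F := by
    intro x hx
    have hne : ∀ c : R, x + c ^ p ≠ 0 := by
      intro c hc
      apply hx
      refine ⟨-c, ?_⟩
      have h1 : (-c) ^ p = - c ^ p := by
        have := hsub 0 c
        rwa [zero_sub, zero_pow hp.ne_zero, zero_sub] at this
      rw [h1]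
      exact eq_neg_of_add_eq_zero_left hc
    have hrep : ∀ c : F, ∃ (j : Fin p), ∃ l : R, l ∈ F ∧ ∃ y : R, x + (c : R) ^ p = ε ^ (j : ℕ) * l * y ^ p := by
      intro c
      obtain ⟨j, f, hf, y, hy⟩ := h _ (hne c)
      refine ⟨⟨j % p, Nat.mod_lt _ hp.pos⟩, f, hf, ε ^ (j / p) * y, ?_⟩
      rw [hy]
      conv_lhs => rw [← Nat.mod_add_div j p]
      rw [pow_add, pow_mul, mul_pow, ← pow_mul, ← pow_mul, mul_comm p (j / p)]
      ring
    choose J l hl y hy using hrep
    obtain ⟨j, hj⟩ := Finite.exists_infinite_fiber J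
    obtain ⟨c, hc⟩ := Infinite.natEmbedding (J ⁻¹' {j}) |>.injective |> fun hi => (⟨Infinite.natEmbedding (J ⁻¹' {j}), hi⟩ : ∃ c : ℕ → (J ⁻¹' {j}), Function.Injective c)
    have hJ : ∀ n, J (c n) = j := fun n => (c n).2
    -- three elements
    set f₁ : R := ((c 0 : F) : R) with hf₁
    set f₂ : R := ((c 1 : F) : R) with hf₂
    set f₃ : R := ((c 2 : F) : R) with hf₃
    have hcne : ∀ m n : ℕ, m ≠ n → ((c m : F) : R) ≠ ((c n : F) : R) := fun m n hmn he =>
      hmn (hc (Subtype.ext (Subtype.ext he)))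
    have h12 : f₁ ≠ f₂ := hcne 0 1 (by norm_num)
    have h13 : f₁ ≠ f₃ := hcne 0 2 (by norm_num)
    have h23 : f₂ ≠ f₃ := hcne 1 2 (by norm_num)
    have m1 : f₁ ∈ F := (c 0 : F).2
    have m2 : f₂ ∈ F := (c 1 : F).2
    have m3 : f₃ ∈ F := (c 2 : F).2
    set l₁ := l (c 0) with hl₁
    set l₂ := l (c 1) with hl₂
    set l₃ := l (c 2) with hl₃
    set y₁ := y (c 0) with hy₁
    set y₂ := y (c 1) with hy₂
    set y₃ := y (c 2) with hy₃
    set e := ε ^ (j : ℕ) with he
    have e1 : x + f₁ ^ p = e * l₁ * y₁ ^ p := by have := hy (c 0); rw [hJ 0] at this; exact this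
    have e2 : x + f₂ ^ p = e * l₂ * y₂ ^ p := by have := hy (c 1); rw [hJ 1] at this; exact this
    have e3 : x + f₃ ^ p = e * l₃ * y₃ ^ p := by have := hy (c 2); rw [hJ 2] at this; exact this
    have n1 := hne f₁
    have n2 := hne f₂
    have n3 := hne f₃
    rw [e1] at n1
    rw [e2] at n2
    rw [e3] at n3
    have he0 : e ≠ 0 := fun h0 => n1 (by rw [h0]; ring)
    have hl10 : l₁ ≠ 0 := fun h0 => n1 (by rw [h0]; ring)
    have hl20 : l₂ ≠ 0 := fun h0 => n2 (by rw [h0]; ring)
    have hl30 : l₃ ≠ 0 := fun h0 => n3 (by rw [h0]; ring)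
    have hy10 : y₁ ≠ 0 := fun h0 => n1 (by rw [h0, zero_pow hp.ne_zero]; ring)
    have hy20 : y₂ ≠ 0 := fun h0 => n2 (by rw [h0, zero_pow hp.ne_zero]; ring)
    have hy30 : y₃ ≠ 0 := fun h0 => n3 (by rw [h0, zero_pow hp.ne_zero]; ring)
    obtain ⟨a, ha, hla⟩ := hF l₁ (hl _)
    obtain ⟨b, hb, hlb⟩ := hF l₂ (hl _)
    obtain ⟨d, hd, hld⟩ := hF l₃ (hl _)
    set z₁ := (f₂ - f₃) * y₁ with hz₁
    set z₂ := (f₃ - f₁) * y₂ with hz₂
    set z₃ := (f₁ - f₂) * y₃ with hz₃
    have hz10 : z₁ ≠ 0 := mul_ne_zero (sub_ne_zero.2 h23) hy10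
    have hz20 : z₂ ≠ 0 := mul_ne_zero (sub_ne_zero.2 h13.symm) hy20
    have hsum : l₁ * z₁ ^ p + l₂ * z₂ ^ p + l₃ * z₃ ^ p = 0 := by
      have q1 : (f₂ - f₃) ^ p = f₂ ^ p - f₃ ^ p := hsub f₂ f₃
      have q2 : (f₃ - f₁) ^ p = f₃ ^ p - f₁ ^ p := hsub f₃ f₁
      have q3 : (f₁ - f₂) ^ p = f₁ ^ p - f₂ ^ p := hsub f₁ f₂
      have : e * (l₁ * z₁ ^ p + l₂ * z₂ ^ p + l₃ * z₃ ^ p) = 0 := by
        rw [hz₁, hz₂, hz₃, mul_pow, mul_pow, mul_pow, q1, q2, q3]
        linear_combination (-(f₂ ^ p - f₃ ^ p)) * e1 - (f₃ ^ p - f₁ ^ p) * e2 - (f₁ ^ p - f₂ ^ p) * e3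
      exact (mul_eq_zero.1 this).resolve_left he0
    have hlin : ∀ i < p, a i * z₁ + b i * z₂ + d i * z₃ = 0 := by
      refine va_indep p u hu (fun i => a i * z₁ + b i * z₂ + d i * z₃) ?_
      have hadd : ∀ s t r : R, (s + t + r) ^ p = s ^ p + t ^ p + r ^ p := by
        intro s t r
        rw [hadd0, hadd0]
      simp only [hadd, mul_pow]
      rw [← hsum, hla, hlb, hld, Finset.sum_mul, Finset.sum_mul, Finset.sum_mul, ← Finset.sum_add_distrib,
        ← Finset.sum_add_distrib]
      refine Finset.sum_congr rfl fun i _ => ?_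
      ring
    by_cases hcase : ∃ i < p, ∃ i' < p, a i * d i' - a i' * d i ≠ 0
    · obtain ⟨i, hi, i', hi', hm⟩ := hcase
      have r1 := hlin i hi
      have r2 := hlin i' hi'
      -- z₁ / z₂ in F
      have hrel : (a i * d i' - a i' * d i) * z₁ = -(b i * d i' - b i' * d i) * z₂ := by
        linear_combination d i' * r1 - d i * r2
      set ρ : R := -(b i * d i' - b i' * d i) / (a i * d i' - a i' * d i) with hρ
      have hρF : ρ ∈ F := div_mem (neg_mem (sub_mem (mul_mem (hb _) (hd _)) (mul_mem (hb _) (hd _))))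
        (sub_mem (mul_mem (ha _) (hd _)) (mul_mem (ha _) (hd _)))
      have hzρ : z₁ = ρ * z₂ := by
        rw [hρ, div_mul_eq_mul_div, eq_div_iff hm, mul_comm]
        exact hrel
      -- y₁ = σ y₂
      set σ : R := ρ * (f₃ - f₁) / (f₂ - f₃) with hσ
      have hσF : σ ∈ F := div_mem (mul_mem hρF (sub_mem m3 m1)) (sub_mem m2 m3)
      have hyσ : y₁ = σ * y₂ := by
        rw [hσ, div_mul_eq_mul_div, eq_div_iff (sub_ne_zero.2 h23)]
        rw [hz₁, hz₂] at hzρ
        linear_combination hzρ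
      set r : R := l₁ / l₂ * σ ^ p with hr
      have hrF : r ∈ F := mul_mem (div_mem (hl _) (hl _)) (pow_mem hσF p)
      have hx1 : x + f₁ ^ p = r * (x + f₂ ^ p) := by
        rw [e1, e2, hyσ, hr, mul_pow]
        field_simp
      have hr1 : (1 : R) - r ≠ 0 := by
        intro h0
        have h1 : r = 1 := by linear_combination -h0
        rw [h1, one_mul] at hx1
        have h2 : f₁ ^ p = f₂ ^ p := by linear_combination hx1
        exact h12 (frobenius_inj R p (by simpa [frobenius_def] using h2))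
      have hxe : x = (r * f₂ ^ p - f₁ ^ p) / (1 - r) := by
        rw [eq_div_iff hr1]
        linear_combination hx1
      rw [hxe]
      exact div_mem (sub_mem (mul_mem hrF (pow_mem m2 p)) (pow_mem m1 p)) (sub_mem F.one_mem hrF)
    · exfalso
      push Not at hcase
      obtain ⟨i', hi', hdi⟩ : ∃ i' < p, d i' ≠ 0 := by
        by_contra hcon
        push Not at hcon
        apply hl30
        rw [hld]
        refine Finset.sum_eq_zero fun i hi => ?_
        rw [hcon i (Finset.mem_range.1 hi), zero_pow hp.ne_zero, mul_zero]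
      have hprop : l₁ = (a i' / d i') ^ p * l₃ := by
        rw [hla, hld, Finset.mul_sum]
        refine Finset.sum_congr rfl fun i hi => ?_
        have h1 := hcase i (Finset.mem_range.1 hi) i' hi'
        have h2 : a i = a i' / d i' * d i := by
          rw [div_mul_eq_mul_div, eq_div_iff hdi]
          linear_combination h1
        rw [h2, mul_pow]
        ring
      set s : R := a i' / d i' * y₁ / y₃ with hs
      have hx1 : x + f₁ ^ p = s ^ p * (x + f₃ ^ p) := by
        rw [e1, e3, hprop, hs, div_pow (a i' / d i' * y₁) y₃ p, mul_pow (a i' / d i') y₁ p]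
        have : y₃ ^ p ≠ 0 := pow_ne_zero _ hy30
        field_simp
      have hs1 : (1 : R) - s ≠ 0 := by
        intro h0
        have h1 : s = 1 := by linear_combination -h0
        rw [h1, one_pow, one_mul] at hx1
        have h2 : f₁ ^ p = f₃ ^ p := by linear_combination hx1
        exact h13 (frobenius_inj R p (by simpa [frobenius_def] using h2))
      apply hx
      refine ⟨(s * f₃ - f₁) / (1 - s), ?_⟩
      rw [div_pow, hsub, hsub, one_pow, mul_pow]
      have hsp : (1 : R) - s ^ p ≠ 0 := by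
        have := pow_ne_zero p hs1
        rwa [hsub, one_pow] at this
      rw [eq_div_iff hsp]
      linear_combination hx1
  intro x
  by_cases hx : ∃ w : R, x = w ^ p
  · obtain ⟨v, rfl⟩ := hx
    have h1 : u + v ^ p ∈ F := by
      refine key _ ?_
      rintro ⟨w, hw⟩
      apply hu
      refine ⟨w - v, ?_⟩
      rw [hsub]
      linear_combination hw
    have h2 := sub_mem h1 huF
    rwa [add_sub_cancel_left] at h2
  · exact key x hx

end BSC
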