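import Pool.Agent.Lib_MP_49ddc8.Defs

/-!
# (A1), (A2) for finite extensions of `F(u)`, `F` a finite field of odd characteristic

`arith_rf`: a finite extension `M` of `RatFunc F`, `F` finite, `2 ≠ 0`, satisfies `Arith`.
(A1): let `V ≠ ⊤`. Some `z ∈ RatFunc F`, `z ≠ 0`, lies in the maximal ideal, `1 + z` is infinitely `2`-divisible in `M`, so by norms `(1 + z) ^ n` is
infinitely `2`-divisible in `RatFunc F`, hence `1 + z` is a constant, `z` is a root of unity: contradiction.
(A2): only finitely many monic irreducible `P` have `P m = w²`, `P ∤ m`, `w ∈ M` (finitely many subfields of the separable closure); `a = P/(Q - P)`.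
-/

set_option autoImplicit false

namespace BSC

open Polynomial

section

variable {F : Type} [Field F]

/-- an element of `F(u)` with a power infinitely `2`-divisible is a constant -/
theorem rf_const (q : RatFunc F) (hq : q ≠ 0) (n : ℕ) (hn : n ≠ 0)
    (h : ∀ j : ℕ, ∃ r : RatFunc F, q ^ n = r ^ (2 ^ j)) : ∃ c : F, q = RatFunc.C c := by
  set a := q.num with ha
  set b := q.denom with hb
  have hab : IsCoprime a b := RatFunc.isCoprime_num_denom q
  have ha0 : a ≠ 0 := RatFunc.num_ne_zero hq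
  have hb0 : b ≠ 0 := RatFunc.denom_ne_zero q
  obtain ⟨r, hr⟩ := h (n * (a.natDegree + b.natDegree))
  set N := 2 ^ (n * (a.natDegree + b.natDegree)) with hN
  have hNlt : n * (a.natDegree + b.natDegree) < N := Nat.lt_two_pow_self
  have hN0 : N ≠ 0 := by positivity
  have hr0 : r ≠ 0 := by
    rintro rfl
    rw [zero_pow hN0] at hr
    exact hq (pow_eq_zero_iff hn |>.1 hr)
  set c := r.num with hc
  set d := r.denom with hd
  have hcd : IsCoprime c d := RatFunc.isCoprime_num_denom r
  have hc0 : c ≠ 0 := RatFunc.num_ne_zero hr0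
  have hd0 : d ≠ 0 := RatFunc.denom_ne_zero r
  have hinj := RatFunc.algebraMap_injective F
  have e1 : algebraMap F[X] (RatFunc F) a / algebraMap F[X] (RatFunc F) b = q := RatFunc.num_div_denom q
  have e2 : algebraMap F[X] (RatFunc F) c / algebraMap F[X] (RatFunc F) d = r := RatFunc.num_div_denom r
  have hb' : algebraMap F[X] (RatFunc F) b ≠ 0 := fun h0 => hb0 (hinj (by rw [h0, map_zero]))
  have hd' : algebraMap F[X] (RatFunc F) d ≠ 0 := fun h0 => hd0 (hinj (by rw [h0, map_zero]))
  have heq : a ^ n * d ^ N = c ^ N * b ^ n := by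
    apply hinj
    rw [map_mul, map_mul, map_pow, map_pow, map_pow, map_pow]
    rw [← e1, ← e2, div_pow, div_pow, div_eq_div_iff (pow_ne_zero _ hb') (pow_ne_zero _ hd')] at hr
    exact hr
  have g1 : a ^ n ∣ c ^ N := (hab.pow (m := n) (n := n)).dvd_of_dvd_mul_right ⟨d ^ N, heq.symm⟩
  have g2 : c ^ N ∣ a ^ n := (hcd.pow (m := N) (n := N)).dvd_of_dvd_mul_right ⟨b ^ n, heq⟩
  have g3 : b ^ n ∣ d ^ N := (hab.symm.pow (m := n) (n := n)).dvd_of_dvd_mul_left ⟨c ^ N, by rw [heq, mul_comm]⟩
  have g4 : d ^ N ∣ b ^ n := (hcd.symm.pow (m := N) (n := N)).dvd_of_dvd_mul_left ⟨a ^ n, by rw [← heq, mul_comm]⟩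
  have key : ∀ s t : F[X], s ≠ 0 → t ≠ 0 → s ^ n ∣ t ^ N → t ^ N ∣ s ^ n → n * s.natDegree < N → s.natDegree = 0 := by
    intro s t hs ht h1 h2 h3
    have h4 : (s ^ n).natDegree = (t ^ N).natDegree :=
      le_antisymm (natDegree_le_of_dvd h1 (pow_ne_zero _ ht)) (natDegree_le_of_dvd h2 (pow_ne_zero _ hs))
    rw [natDegree_pow, natDegree_pow] at h4
    have h5 : t.natDegree = 0 := by
      by_contra h6
      have h7 : N * 1 ≤ N * t.natDegree := Nat.mul_le_mul_left _ (Nat.one_le_iff_ne_zero.2 h6)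
      omega
    rw [h5, mul_zero] at h4
    exact (mul_eq_zero.1 h4).resolve_left hn
  have hmul : n * a.natDegree ≤ n * (a.natDegree + b.natDegree) := Nat.mul_le_mul_left _ (Nat.le_add_right _ _)
  have hmul' : n * b.natDegree ≤ n * (a.natDegree + b.natDegree) := Nat.mul_le_mul_left _ (Nat.le_add_left _ _)
  have da := key a c ha0 hc0 g1 g2 (by omega)
  have db := key b d hb0 hd0 g3 g4 (by omega)
  obtain ⟨a₀, ha₀⟩ := natDegree_eq_zero.1 da
  obtain ⟨b₀, hb₀⟩ := natDegree_eq_zero.1 db
  refine ⟨a₀ / b₀, ?_⟩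
  rw [← e1, ← ha₀, ← hb₀, map_div₀]
  rfl

/-- parity of the multiplicity of an irreducible polynomial -/
theorem rf_val (P m d : F[X]) (hP : Irreducible P) (hm : ¬ P ∣ m) (hd : ¬ P ∣ d) (r : RatFunc F) :
    algebraMap F[X] (RatFunc F) (P * m) ≠ r ^ 2 * algebraMap F[X] (RatFunc F) d := by
  intro h
  have hpr : Prime P := hP.prime
  set a := r.num with ha
  set b := r.denom with hb
  have hab : IsCoprime a b := RatFunc.isCoprime_num_denom r
  have hb0 : b ≠ 0 := RatFunc.denom_ne_zero r
  have hinj := RatFunc.algebraMap_injective F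
  have e1 : algebraMap F[X] (RatFunc F) a / algebraMap F[X] (RatFunc F) b = r := RatFunc.num_div_denom r
  have hb' : algebraMap F[X] (RatFunc F) b ≠ 0 := fun h0 => hb0 (hinj (by rw [h0, map_zero]))
  have heq : P * m * b ^ 2 = a ^ 2 * d := by
    apply hinj
    rw [← e1, div_pow, div_mul_eq_mul_div, eq_div_iff (pow_ne_zero 2 hb')] at h
    rw [map_mul, map_pow, map_mul (algebraMap F[X] (RatFunc F)) (a ^ 2), map_pow]
    exact h
  have h1 : P ∣ a ^ 2 * d := ⟨m * b ^ 2, by rw [← heq]; ring⟩
  have h2 : P ∣ a := hpr.dvd_of_dvd_pow ((hpr.dvd_or_dvd h1).resolve_right hd)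
  obtain ⟨a', ha'⟩ := h2
  have h3 : P * (m * b ^ 2) = P * (P * a' ^ 2 * d) := by
    have : P * (m * b ^ 2) = P * m * b ^ 2 := by ring
    rw [this, heq, ha']
    ring
  have h4 : m * b ^ 2 = P * a' ^ 2 * d := mul_left_cancel₀ hpr.ne_zero h3
  have h5 : P ∣ m * b ^ 2 := ⟨a' ^ 2 * d, by rw [h4]; ring⟩
  have h6 : P ∣ b := hpr.dvd_of_dvd_pow ((hpr.dvd_or_dvd h5).resolve_left hm)
  exact hP.not_isUnit (hab.isUnit_of_dvd' ⟨a', ha'⟩ h6)

theorem inf_irr (F : Type) [Field F] : {P : F[X] | P.Monic ∧ Irreducible P}.Infinite := by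
  intro hfin
  set q : F[X] := X * ∏ P ∈ hfin.toFinset, P + 1 with hq
  have hprod : (∏ P ∈ hfin.toFinset, P) ≠ 0 := by
    rw [Finset.prod_ne_zero_iff]
    intro P hP
    exact ((hfin.mem_toFinset).1 hP).1.ne_zero
  have hdeg : 0 < (X * ∏ P ∈ hfin.toFinset, P).natDegree := by
    rw [natDegree_mul X_ne_zero hprod, natDegree_X]
    omega
  have hnu : ¬ IsUnit q := by
    intro hu
    have h1 := natDegree_eq_zero_of_isUnit hu
    rw [hq, natDegree_add_eq_left_of_natDegree_lt (by rw [natDegree_one]; exact hdeg)] at h1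
    omega
  obtain ⟨g, hg1, hg2, hg3⟩ := exists_monic_irreducible_factor q hnu
  have hmem : g ∈ hfin.toFinset := (hfin.mem_toFinset).2 ⟨hg1, hg2⟩
  have h2 : g ∣ X * ∏ P ∈ hfin.toFinset, P := Dvd.dvd.mul_left (Finset.dvd_prod_of_mem _ hmem) _
  have h3 : g ∣ 1 := (dvd_add_right h2).1 hg3
  exact hg2.not_isUnit (isUnit_of_dvd_one h3)

end

private theorem va_quad {K M : Type} [Field K] [Field M] [Algebra K M] (w w' : M) (d : K)
    (hw : w ^ 2 = algebraMap K M d) (hw' : w' ∈ IntermediateField.adjoin K {w}) :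
    ∃ s r : K, w' = algebraMap K M s + algebraMap K M r * w := by
  have hint : IsIntegral K w := by
    refine ⟨X ^ 2 - C d, monic_X_pow_sub_C d two_ne_zero, ?_⟩
    rw [← aeval_def]
    simp [hw]
  have h1 : w' ∈ (IntermediateField.adjoin K {w}).toSubalgebra := hw'
  rw [IntermediateField.adjoin_simple_toSubalgebra_of_isAlgebraic hint.isAlgebraic,
    Algebra.adjoin_singleton_eq_range_aeval] at h1
  obtain ⟨q, hq⟩ := h1
  have hmon : (X ^ 2 - C d).Monic := monic_X_pow_sub_C d two_ne_zero
  have hdeg : (q %ₘ (X ^ 2 - C d)).natDegree < 2 := by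
    have h3 : (X ^ 2 - C d).natDegree = 2 := natDegree_X_pow_sub_C
    have h5 := natDegree_modByMonic_lt q hmon (by
      intro h4
      rw [h4] at h3
      simp at h3)
    rwa [h3] at h5
  obtain ⟨a, b, hab⟩ := exists_eq_X_add_C_of_natDegree_le_one (Nat.lt_succ_iff.1 hdeg)
  refine ⟨b, a, ?_⟩
  have h5 := modByMonic_add_div q (X ^ 2 - C d)
  have h6 := congrArg (aeval w) h5
  rw [map_add, map_mul, hab] at h6
  simp only [map_add, map_mul, map_sub, map_pow, aeval_C, aeval_X, hw,
    sub_self, zero_mul, add_zero] at h6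
  change (aeval w) q = w' at hq
  rw [← hq, ← h6]
  ring

section

variable {F : Type} [Field F] (M : Type) [Field M] [Algebra (RatFunc F) M] [FiniteDimensional (RatFunc F) M]

theorem fin_polys (h2 : (2 : F) ≠ 0) :
    {P : F[X] | (P.Monic ∧ Irreducible P) ∧ ∃ m : F[X], ¬ (P ∣ m) ∧
      ∃ w : M, algebraMap (RatFunc F) M (algebraMap F[X] (RatFunc F) (P * m)) = w ^ 2}.Finite := by
  classical
  have h2K : (2 : RatFunc F) ≠ 0 := by
    have h3 : (RatFunc.C (2 : F) : RatFunc F) ≠ 0 := by
      intro h4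
      exact h2 (RatFunc.C_injective (by rw [h4, map_zero]))
    rwa [map_ofNat] at h3
  by_contra hinf
  set S := {P : F[X] | (P.Monic ∧ Irreducible P) ∧ ∃ m : F[X], ¬ (P ∣ m) ∧
      ∃ w : M, algebraMap (RatFunc F) M (algebraMap F[X] (RatFunc F) (P * m)) = w ^ 2} with hS
  have hSinf : S.Infinite := hinf
  have : Infinite S := hSinf.to_subtype
  let E := separableClosure (RatFunc F) M
  have hex : ∀ P : S, ∃ (m : F[X]), ¬ ((P : F[X]) ∣ m) ∧ ∃ w : E,
      algebraMap (RatFunc F) E (algebraMap F[X] (RatFunc F) (P * m)) = w ^ 2 := by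
    intro P
    obtain ⟨hP, m, hm, w, hw⟩ := P.2
    have hne : algebraMap F[X] (RatFunc F) ((P : F[X]) * m) ≠ 0 := by
      intro h0
      have h3 := RatFunc.algebraMap_injective F (by rw [h0, map_zero] : _ = algebraMap F[X] (RatFunc F) 0)
      rcases mul_eq_zero.1 h3 with h4 | h4
      · exact hP.1.ne_zero h4
      · exact hm (by rw [h4]; exact dvd_zero _)
    have hsep : w ∈ E := by
      rw [mem_separableClosure_iff]
      have h3 : (X ^ 2 - C (algebraMap F[X] (RatFunc F) ((P : F[X]) * m))).Separable :=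
        separable_X_pow_sub_C _ (by exact_mod_cast h2K) hne
      refine h3.of_dvd (minpoly.dvd _ _ ?_)
      rw [map_sub, map_pow, aeval_X, aeval_C, hw, sub_self]
    exact ⟨m, hm, ⟨w, hsep⟩, Subtype.ext hw⟩
  have hpr : ∀ P : S, (P : F[X]).Monic ∧ Irreducible (P : F[X]) := fun P => P.2.1
  choose mm hmm ww hww using hex
  have : Finite (IntermediateField (RatFunc F) E) :=
    Field.finite_intermediateField_of_exists_primitive_element (RatFunc F) E
      (Field.exists_primitive_element (RatFunc F) E)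
  obtain ⟨K, hK⟩ := Finite.exists_infinite_fiber
    (fun p : S => IntermediateField.adjoin (RatFunc F) {ww p})
  have hKinf : ((fun p : S => IntermediateField.adjoin (RatFunc F) {ww p}) ⁻¹' {K}).Infinite :=
    Set.infinite_coe_iff.1 hK
  obtain ⟨p₀, hp₀⟩ := hKinf.nonempty
  have hm0 : mm p₀ ≠ 0 := by
    intro h
    exact hmm p₀ (by rw [h]; exact dvd_zero _)
  have hd0 : (p₀ : F[X]) * mm p₀ ≠ 0 := mul_ne_zero (hpr p₀).1.ne_zero hm0
  set d : F[X] := (p₀ : F[X]) * mm p₀ with hd
  have hfinb : {p : S | (p : F[X]) ∣ d}.Finite := by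
    have h1 : {P : F[X] | P.Monic ∧ Irreducible P ∧ P ∣ d}.Finite := by
      refine (UniqueFactorizationMonoid.normalizedFactors d).toFinset.finite_toSet.subset ?_
      rintro P ⟨h3, h4, h5⟩
      rw [Finset.mem_coe, Multiset.mem_toFinset]
      obtain ⟨Q, hQ, hPQ⟩ := UniqueFactorizationMonoid.exists_mem_normalizedFactors_of_dvd hd0 h4 h5
      have h6 := UniqueFactorizationMonoid.normalize_normalized_factor Q hQ
      have h7 : normalize P = normalize Q := normalize_eq_normalize hPQ.dvd hPQ.symm.dvd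
      rw [h6, h3.normalize_eq_self] at h7
      rw [h7]
      exact hQ
    refine (h1.preimage (Subtype.val_injective.injOn)).subset ?_
    intro P hP
    exact ⟨(hpr P).1, (hpr P).2, hP⟩
  obtain ⟨p, hp, hpb⟩ := (hKinf.sdiff hfinb).nonempty
  have hnd : ¬ ((p : F[X]) ∣ d) := hpb
  have hw0 : (ww p₀) ^ 2 = algebraMap (RatFunc F) E (algebraMap F[X] (RatFunc F) d) := (hww p₀).symm
  have hwp : (ww p) ^ 2 = algebraMap (RatFunc F) E (algebraMap F[X] (RatFunc F) ((p : F[X]) * mm p)) := (hww p).symm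
  have hmem : ww p ∈ IntermediateField.adjoin (RatFunc F) {ww p₀} := by
    have h1 : IntermediateField.adjoin (RatFunc F) {ww p₀} = IntermediateField.adjoin (RatFunc F) {ww p} := by
      rw [show IntermediateField.adjoin (RatFunc F) {ww p₀} = K from hp₀,
        show IntermediateField.adjoin (RatFunc F) {ww p} = K from hp]
    rw [h1]
    exact IntermediateField.mem_adjoin_simple_self (RatFunc F) (ww p)
  obtain ⟨s, r, hsr⟩ := va_quad (ww p₀) (ww p) _ hw0 hmem
  have hinj := (algebraMap (RatFunc F) E).injective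
  set A := algebraMap F[X] (RatFunc F) with hA
  have hexp : algebraMap (RatFunc F) E (A ((p : F[X]) * mm p)) =
      algebraMap (RatFunc F) E (s ^ 2 + r ^ 2 * A d) + algebraMap (RatFunc F) E (2 * s * r) * ww p₀ := by
    rw [← hwp, hsr]
    simp only [map_add, map_mul, map_pow]
    have h3 : algebraMap (RatFunc F) E (2 : RatFunc F) = 2 := map_ofNat _ 2
    rw [h3]
    linear_combination (algebraMap (RatFunc F) E r) ^ 2 * hw0
  have hnot1 : ∀ Q : S, ¬ ((Q : F[X]) ∣ 1) := fun Q h => (hpr Q).2.not_isUnit (isUnit_of_dvd_one h)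
  by_cases hsr0 : 2 * s * r = 0
  · rw [hsr0, map_zero, zero_mul, add_zero] at hexp
    have h3 := hinj hexp
    rcases mul_eq_zero.1 hsr0 with h4 | h4
    · have h5 : s = 0 := (mul_eq_zero.1 h4).resolve_left h2K
      rw [h5] at h3
      refine rf_val (p : F[X]) (mm p) d (hpr p).2 (hmm p) hnd r ?_
      rw [h3]
      ring
    · rw [h4] at h3
      refine rf_val (p : F[X]) (mm p) 1 (hpr p).2 (hmm p) (hnot1 p) s ?_
      rw [h3, map_one]
      ring
  · have h3 : ww p₀ = algebraMap (RatFunc F) E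
        ((A ((p : F[X]) * mm p) - (s ^ 2 + r ^ 2 * A d)) / (2 * s * r)) := by
      rw [map_div₀, map_sub, hexp]
      have h8 : algebraMap (RatFunc F) E (2 * s * r) ≠ 0 := fun h => hsr0 (hinj (by rw [h, map_zero]))
      rw [add_sub_cancel_left, mul_div_cancel_left₀ _ h8]
    set t : RatFunc F := ((A ((p : F[X]) * mm p) - (s ^ 2 + r ^ 2 * A d)) / (2 * s * r)) with ht
    rw [h3, ← map_pow] at hw0
    have h4 := hinj hw0
    refine rf_val (p₀ : F[X]) (mm p₀) 1 (hpr p₀).2 (hmm p₀) (hnot1 p₀) t ?_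
    rw [h4, hd, map_one, mul_one]

/-- (A1) and (A2) for a finite extension `M` of `F(u)`, `F` a finite field with `2 ≠ 0` -/
theorem arith_rf [Finite F] (h2 : (2 : F) ≠ 0) : Arith M := by
  have hinjM := (algebraMap (RatFunc F) M).injective
  constructor
  · intro V hV
    by_contra hne
    obtain ⟨x, hx⟩ : ∃ x : RatFunc F, algebraMap (RatFunc F) M x ∉ V := by
      by_contra hcon
      push Not at hcon
      apply hne
      rw [eq_top_iff]
      intro z _
      obtain ⟨P, hP, hPz⟩ := (Algebra.IsIntegral.isIntegral (R := RatFunc F) z)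
      have h1 : IsIntegral V z := by
        refine ⟨P.map ((algebraMap (RatFunc F) M).codRestrict V.toSubring hcon), hP.map _, ?_⟩
        rw [eval₂_map]
        exact hPz
      obtain ⟨y, hy⟩ := IsIntegrallyClosed.isIntegral_iff.1 h1
      rw [← hy]
      exact y.2
    have hx0 : x ≠ 0 := by
      rintro rfl
      exact hx (by rw [map_zero]; exact V.zero_mem)
    have hvx : V.valuation (algebraMap (RatFunc F) M x⁻¹) < 1 := by
      rw [map_inv₀, map_inv₀]
      have h1 : 1 < V.valuation (algebraMap (RatFunc F) M x) := by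
        rw [← not_le, V.valuation_le_one_iff]
        exact hx
      exact inv_lt_one_of_one_lt₀ h1
    have hpow : ∀ j : ℕ, ∀ z : M, V.valuation z < 1 → ∃ w : M, 1 + z = w ^ (2 ^ j) := by
      intro j
      induction j with
      | zero => intro z _; exact ⟨1 + z, by simp⟩
      | succ j ih =>
        intro z hz
        obtain ⟨w, hw⟩ := hV z hz
        -- `w` or `-w` is in `1 + m`
        have hprod : V.valuation (w - 1) * V.valuation (w + 1) < 1 := by
          rw [← map_mul]
          have : (w - 1) * (w + 1) = z := by linear_combination -hw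
          rwa [this]
        have hw1 : V.valuation w ≤ 1 := by
          have h3 : V.valuation (w ^ 2) ≤ 1 := by
            rw [← hw]
            exact (V.valuation.map_add _ _).trans (max_le (by rw [map_one]) hz.le)
          rw [map_pow] at h3
          exact (pow_le_one_iff_of_nonneg zero_le two_ne_zero).1 h3
        have hone : V.valuation (1 : M) = 1 := map_one _
        have hm : V.valuation (w - 1) ≤ 1 := (V.valuation.map_sub _ _).trans (max_le hw1 hone.le)
        have hp : V.valuation (w + 1) ≤ 1 := (V.valuation.map_add _ _).trans (max_le hw1 hone.le)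
        obtain ⟨w', hw', hw'2⟩ : ∃ w' : M, V.valuation (w' - 1) < 1 ∧ 1 + z = w' ^ 2 := by
          by_cases h3 : V.valuation (w - 1) < 1
          · exact ⟨w, h3, hw⟩
          · have h4 : V.valuation (w - 1) = 1 := le_antisymm hm (not_lt.1 h3)
            rw [h4, one_mul] at hprod
            refine ⟨-w, ?_, by rw [neg_sq]; exact hw⟩
            rw [show -w - 1 = -(w + 1) by ring, Valuation.map_neg]
            exact hprod
        obtain ⟨v, hv⟩ := ih (w' - 1) hw'
        refine ⟨v, ?_⟩
        have h5 : w' = v ^ (2 ^ j) := by rw [← hv]; ring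
        rw [hw'2, h5, ← pow_mul, ← pow_succ]
    set n := Module.finrank (RatFunc F) M with hn
    have hn0 : n ≠ 0 := Module.finrank_pos.ne'
    have h1x : (1 : RatFunc F) + x⁻¹ ≠ 0 := by
      intro h0
      have h3 : x⁻¹ = -1 := by linear_combination h0
      rw [h3, map_neg, Valuation.map_neg, map_one, map_one] at hvx
      exact lt_irrefl _ hvx
    obtain ⟨c, hc⟩ := rf_const (1 + x⁻¹) h1x n hn0 (by
      intro j
      obtain ⟨w, hw⟩ := hpow j _ hvx
      refine ⟨Algebra.norm (RatFunc F) w, ?_⟩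
      rw [← map_pow, ← hw, show (1 : M) + algebraMap (RatFunc F) M x⁻¹ = algebraMap (RatFunc F) M (1 + x⁻¹) by
        rw [map_add, map_one], Algebra.norm_algebraMap])
    have hxc : x⁻¹ = RatFunc.C (c - 1) := by
      rw [map_sub, map_one, ← hc]
      ring
    have hc1 : c - 1 ≠ 0 := by
      intro h0
      rw [h0, map_zero] at hxc
      exact hx0 (inv_eq_zero.1 hxc)
    -- a root of unity
    have _ := Fintype.ofFinite F
    obtain ⟨m, hm0, hm⟩ : ∃ m : ℕ, m ≠ 0 ∧ (c - 1) ^ m = 1 := by
      have : IsOfFinOrder (Units.mk0 (c - 1) hc1) := isOfFinOrder_of_finite _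
      obtain ⟨m, hm0, hm⟩ := isOfFinOrder_iff_pow_eq_one.1 this
      exact ⟨m, hm0.ne', by simpa using congrArg Units.val hm⟩
    have h3 : V.valuation (algebraMap (RatFunc F) M x⁻¹) ^ m = 1 := by
      rw [← map_pow, ← map_pow, hxc, ← map_pow, hm, map_one, map_one, map_one]
    exact absurd h3 (pow_lt_one₀ zero_le hvx hm0).ne
  · have hfin := fin_polys M h2 (F := F)
    have hinf := (inf_irr F).sdiff hfin
    obtain ⟨P, hP, hPn⟩ := hinf.nonempty
    obtain ⟨Q, ⟨hQ, hQn⟩, hQP⟩ := (hinf.sdiff (Set.finite_singleton P)).nonempty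
    have hPQ : P ≠ Q := fun h => hQP h.symm
    have hdvd : ∀ P Q : F[X], P.Monic → Irreducible P → Q.Monic → Irreducible Q → P ∣ Q → P = Q := by
      intro P Q h1 h3 h4 h5 h6
      exact eq_of_monic_of_associated h1 h4 ((h3.dvd_irreducible_iff_associated h5).1 h6)
    have hPdQ : ¬ (P ∣ Q) := fun h => hPQ (hdvd P Q hP.1 hP.2 hQ.1 hQ.2 h)
    have hQdP : ¬ (Q ∣ P) := fun h => hPQ (hdvd Q P hQ.1 hQ.2 hP.1 hP.2 h).symm
    set A : F[X] → M := fun f => algebraMap (RatFunc F) M (algebraMap F[X] (RatFunc F) f) with hA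
    have hAmul : ∀ f g, A (f * g) = A f * A g := fun f g => by simp only [hA, map_mul]
    have hAsub : ∀ f g, A (f - g) = A f - A g := fun f g => by simp only [hA, map_sub]
    have key : ∀ m : F[X], ¬ (P ∣ m) → ¬ ∃ w : M, A (P * m) = w ^ 2 := by
      intro m hm hw
      exact hPn ⟨hP, m, hm, hw⟩
    have key' : ∀ m : F[X], ¬ (Q ∣ m) → ¬ ∃ w : M, A (Q * m) = w ^ 2 := by
      intro m hm hw
      exact hQn ⟨hQ, m, hm, hw⟩
    have hne : A Q - A P ≠ 0 := by
      rw [← hAsub]
      intro h0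
      have h3 : Q - P = 0 := RatFunc.algebraMap_injective F (hinjM (by rw [map_zero, map_zero]; exact h0))
      exact hPQ (sub_eq_zero.1 h3).symm
    refine ⟨A P / (A Q - A P), ?_, ?_, ?_⟩
    · rintro ⟨w, hw⟩
      refine key (Q - P) ?_ ⟨w * (A Q - A P), ?_⟩
      · intro h
        exact hPdQ ((dvd_sub_self_right).1 h)
      · rw [div_eq_iff hne] at hw
        rw [hAmul, hAsub, mul_pow]
        linear_combination (A Q - A P) * hw
    · rintro ⟨w, hw⟩
      refine key' (Q - P) ?_ ⟨w * (A Q - A P), ?_⟩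
      · intro h
        exact hQdP ((dvd_sub_right (dvd_refl _)).1 h)
      · have h1 : 1 + A P / (A Q - A P) = A Q / (A Q - A P) := by
          field_simp
          ring
        rw [h1, div_eq_iff hne] at hw
        rw [hAmul, hAsub, mul_pow]
        linear_combination (A Q - A P) * hw
    · rintro ⟨w, hw⟩
      refine key Q hPdQ ⟨w * (A Q - A P), ?_⟩
      have h1 : A P / (A Q - A P) * (1 + A P / (A Q - A P)) = A P * A Q / (A Q - A P) ^ 2 := by
        field_simp
        ring
      rw [h1, div_eq_iff (pow_ne_zero 2 hne)] at hw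
      rw [hAmul, hw]
      ring

end

end BSC
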