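import Pool.Agent.Lib_MP_49ddc8.Pl

/-!
# [BSC-V1] .. [BSC-V8]  The product formula argument

`t = tt k Ω`, `F k' = Y.S.F k'`, `V = Y.V k' a`, `U = Y.U k' a = V[1/π]`, `π = unif k' a`.  Levels are fields `k'` finite over `k`, above `Y.k0`.  `evt q z` is `q(t, z)` for `q ∈ k'[t][Z]`.

[BSC-V1] `Xi.red`: `P(ξ, z) = 0`; divide `P = ∑ P_i(Z) Y^i` by the largest power of `Z` dividing all `P_i` (`ξ ≠ 0`); `p = ∑ P_i(0) Y^i ≠ 0`.  `RatFunc k ⊆ U` (`Loc.coarse_kt`), `ξ ∈ 𝔪_U`; for `z ∈ U`: `0 = P(ξ, z) ≡ p(z)` mod `ξ U`.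
`Xi.roots`: `R` = roots of `p` in `Ω` (algebraic over `RatFunc k`, so in `U` by `Loc.coarse_alg`), `p(z) = c ∏ (z - ρ)`, `c ∈ RatFunc k` a unit of `U`; if the product has value `< 1` then some factor has.

[BSC-V2] `bad_min`: among all levels `k2 ≥ k1` and monic `p ∈ Ω[X]` with coefficients in `k2(t)` with `p(y) ∈ 𝔪_U` for all places of all levels `≥ k2` (one exists by `Xi.red`, made monic) take one of minimal degree.  No root in any `k3(t)`, `k3 ≥ k2`: `p = (X - r) g`, `g` has coefficients in `k3(t)`, `y - r ∉ 𝔪_U` (hypothesis) so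
`g(y) ∈ 𝔪_U` (for the places of levels `≥ k3`), smaller degree (`g ≠ 1` as `1 ∉ 𝔪_U`).  Separable: `p` comes from `q ∈ k2(t)[X]`; if `q = g² h` with `g` not a unit then `(g h)(y)² = p(y) h(y) ∈ 𝔪_U` (`y ∈ U`), smaller degree.  So `q` is squarefree, so separable (char 0), `IsCoprime p p.derivative`.

[BSC-V3] `bad_int`: with a common denominator `D ∈ k2[t]` of the coefficients of `p`: `q(Z) = D^d p(Z/D)` is monic with coefficients in `k2[t]`, `q(D y) = D^d p(y)`.  No roots in `k3(t)`, coprime to its derivative over `k2(t)`; multiply a Bezout relation by a common denominator `Δ`.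
(Gauss lemma not needed.)  `evt_subst`: `Q(Z) = B^d q((Z + A)/B)`, i.e. `Q = ∑ q_i B^(d-i) (Z + A)^i`.

[BSC-V4] `evt_bound`: `q` monic of degree `d` with coefficients `q_i(t)`, `h = max deg q_i`.  Finite place: all `q_i(t) ∈ V`; if `|z| > 1` then `|evt q z| = |z|^d ≥ 1`, contradiction to `evt q z ∈ 𝔪_U`.  Infinity: `|q_i(t)| ≤ |π|^(-h)`; if `|z π^h| > 1` then `|q_i(t) z^i| < |z|^d` for `i < d`
(as `|q_i(t)| ≤ |π|^(-h) < |z|`, `|z| > 1`), so `|evt q z| = |z|^d > 1`, contradiction (elements of `𝔪_U` have `V`-value `< 1`, `coarse_of_lt`).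
`unit_of_const`: `evt q z = q_0(t) + z (...)`, `(...) ∈ V`, `|q_0(t)| = 1`, `|evt q z| < 1`; so `|z| = 1`.

[BSC-V5] `unram`: `|z| ≤ 1` (`evt_bound`).  `evt q z ≡ q(α, z)` mod `π V`, so `|q(α, z)| < 1`, and it is `∏ (z - c)` over the roots `c ∈ k3` of `q(α, X)`; so `|z - c| < 1` for a root `c`.  `u q + v q' = Δ` at `(α, c)` gives `q'(α, c) ≠ 0` (`q' = derivative`).
`evt q z = evt q c + (z - c) g`, `g ≡ q'(α, c)` mod `𝔪_V` (`g = ∑ q_i(t) (z^(i-1) + ... + c^(i-1))`), so `|g| = 1`; `|evt q c| ≤ |π|` (`evt q c` is a polynomial in `t` vanishing at `α`: `poly_le`), `|evt q z| ≤ |π|` (`coarse_of_lt`); so `|z - c| ≤ |π|`.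

[BSC-V6] `linalg`: the linear map `(A, B) ↦ (A(a_i) - B(a_i) c_i)_i` from pairs of polynomials of degree `≤ N` (dimension `2 N + 2`) to `M^(2N+1)` has a nonzero kernel; if `B = 0` then `A` has `2N+1 > N` zeros, so `A = 0`.
`rat_val`: `z ∈ U`, `z ∉ 𝔪_U`, `evt q z ∈ 𝔪_U`, `q` monic of degree `d`: among the terms `q_i(t) z^i` (`i ≤ d`, `q_i ≠ 0`) take one, `i`, of maximal value; it cannot be the only one of this value, otherwise `|z^d| ≤ |evt q z|` and `z^d ∈ 𝔪_U`, so `z ∈ 𝔪_U`.  So `|q_i(t) z^i| = |q_j(t) z^j|`, `i < j`, and `|z|^(j-i) = |π|^r`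
(`kt_val`).  Then descend to an odd exponent: `|z|^(2s) = |π|^r`: `r` odd contradicts `ram` (`z, π ∈ F k'`), `r = 2 r'` gives `|z|^s = |π|^r'`.

[BSC-V7] `prod_formula`: let `j ∈ ℕ`, `n = 2^j`.  `k2_pow`: `φ = g(t) w^n`, `g ∈ k3[X]`, `w ∈ F k3`.  For `α ∈ Z`, level `K = K_α`: `|g(t)| = |π|^mult_α(g)` (`poly_val` over `K`, `rootMultiplicity` of the mapped polynomial), so `|w^s|^n = |φ|^s |g(t)|^(-s) = |π|^(r_α - s mult_α(g))`, so `n ∣ r_α - s mult_α(g)` (`Loc.ram_pow` with `w^(-s)`).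
For `α ∉ Z`: `n ∣ mult_α(g)`.  Infinity: `n ∣ r_inf + s deg g` (`poly_inf`).  `∑_α mult_α(g) = deg g` over the roots `α ∈ Ω` of `g` (algebraic over `k`).  So `n ∣ ∑ r_α + r_inf` for all `n = 2^j`: it is `0`.

[BSC-V8] `Xi.V1`: suppose not; then `y ∈ U` and `¬ |y - r|_U < 1` for all places of levels `≥ k1`, `r ∈ kt k'`.  `bad_int`: `k2, D, q, u, v, Δ`; put `y' = D(t) y`.  `h` from `evt_bound`, `N = h`, points `a_i ∈ ℚ` (`2N+1` of them) with `Δ(a_i) ≠ 0`; `k3 ≥ k2` containing all roots of the `q(a_i, X)`; `unram`: `|y' - c_i| ≤ |π|` at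
`(k3, a_i)`, `c_i ∈ k3`.  `linalg`: `A, B`; `φ = B(t) y' - A(t) ∈ F k3`; `φ ∉ 𝔪_U` for all places of levels `≥ k3` (divide by `B(t) D(t)`), `|φ| ≤ |π|` at `(k3, a_i)` (`φ = B(t)(y' - c_i) + (B(t) c_i - A(t))`, `poly_le`); `|φ| ≤ 1` at finite places, `|φ| ≤ |π|^(-(N+h))` at infinity.
`Q` from `evt_subst`, `evt Q φ = B^d evt q y' ∈ 𝔪_U`, `n₀ = Q.coeff 0 ≠ 0` since `evt Q 0 = B^d evt q (A/B) ≠ 0`.  `Z` = roots of `n₀` in `Ω`; it contains the `a_i` (`unit_of_const`).  For `α ∈ Z ∩ k3` take `K_α = k3`, for the other `α ∈ Z` a level `≥ k3` containing `α`; `rat_val` gives odd exponents, `s` their product;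
`unit_of_const` for `α ∉ Z`.  `r_α ≥ 0`, `r_{a_i} ≥ s`, `r_inf ≥ -(N+h) s`, so `0 = ∑ r_α + r_inf ≥ (2N+1) s - 2 N s > 0`, contradiction.
-/

set_option autoImplicit false

open Polynomial

namespace BSC

variable {k Ω : Type} [Field k] [CharZero k] [Field Ω] [IsAlgClosed Ω] [Algebra k Ω] [Algebra (RatFunc k) Ω]
  [IsScalarTower k (RatFunc k) Ω]

/-- `ξ` is infinitely small at all places, and `Ω` has transcendence degree one -/
structure Xi (Y : Sys k Ω) (ξ : Ω) : Prop where
  tr : Transcendental (RatFunc k) ξ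
  small : ∀ k' : IntermediateField k Ω, Y.k0 ≤ k' → FiniteDimensional k k' → ∀ a : Option k', (Y.U k' a).valuation ξ < 1
  dep : ∀ z : Ω, ∃ P : Polynomial (Polynomial (RatFunc k)), P ≠ 0 ∧
    (P.map (aeval ξ : (RatFunc k)[X] →ₐ[RatFunc k] Ω).toRingHom).eval z = 0

/-- `q(t, z)` -/
noncomputable def evt (k' : IntermediateField k Ω) (q : Polynomial (Polynomial k')) (z : Ω) : Ω :=
  q.eval₂ (aeval (tt k Ω) : k'[X] →ₐ[k'] Ω).toRingHom z

variable {Y : Sys k Ω} {ξ : Ω}

/-- the image of `RatFunc k` lies in `U` -/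
private theorem v1_mem (Y : Sys k Ω) (k' : IntermediateField k Ω) (hk : Y.k0 ≤ k') (hfin : FiniteDimensional k k')
    (a : Option k') (c : RatFunc k) : algebraMap (RatFunc k) Ω c ∈ Y.U k' a := by
  by_cases hc : c = 0
  · rw [hc, map_zero]
    exact zero_mem _
  · rw [← ValuationSubring.valuation_le_one_iff]
    exact ((Y.loc k' hk hfin a).coarse_alg hfin _ (isAlgebraic_algebraMap c)
      (fun h => hc ((algebraMap (RatFunc k) Ω).injective (h.trans (map_zero _).symm)))).le

omit [CharZero k] [IsAlgClosed Ω] [Algebra k Ω] [IsScalarTower k (RatFunc k) Ω] in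
private theorem v1_aeval_mem (U : ValuationSubring Ω) (hU : ∀ c : RatFunc k, algebraMap (RatFunc k) Ω c ∈ U)
    (x : Ω) (hx : x ∈ U) (g : (RatFunc k)[X]) : aeval x g ∈ U := by
  rw [aeval_eq_sum_range]
  refine sum_mem fun i _ => ?_
  rw [Algebra.smul_def]
  exact mul_mem (hU _) (pow_mem hx i)

theorem Xi.red (X : Xi Y ξ) (z : Ω) : ∃ p : (RatFunc k)[X], p ≠ 0 ∧ ∀ k' : IntermediateField k Ω, Y.k0 ≤ k' →
    FiniteDimensional k k' → ∀ a : Option k', z ∈ Y.U k' a → (Y.U k' a).valuation (aeval z p) < 1 := by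
  obtain ⟨P, hP0, hP⟩ := X.dep z
  have hξ0 : ξ ≠ 0 := by
    rintro rfl
    exact X.tr isAlgebraic_zero
  have hCX : ¬ IsUnit (C (Polynomial.X : (RatFunc k)[X]) : Polynomial (Polynomial (RatFunc k))) := by
    rw [isUnit_C]
    exact not_isUnit_X
  obtain ⟨Q, hQ, hnd⟩ := (FiniteMultiplicity.of_not_isUnit hCX hP0).exists_eq_pow_mul_and_not_dvd
  set φ : (RatFunc k)[X] →+* Ω := (aeval ξ : (RatFunc k)[X] →ₐ[RatFunc k] Ω).toRingHom with hφ
  have hQz : (Q.map φ).eval z = 0 := by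
    rw [hQ, Polynomial.map_mul, Polynomial.map_pow, map_C, eval_mul, eval_pow, eval_C] at hP
    refine (mul_eq_zero.1 hP).resolve_left (pow_ne_zero _ ?_)
    rw [hφ]
    simpa using hξ0
  refine ⟨Q.map (evalRingHom 0), ?_, ?_⟩
  · intro h0
    apply hnd
    rw [C_dvd_iff_dvd_coeff]
    intro i
    rw [X_dvd_iff, coeff_zero_eq_eval_zero]
    have h1 := congrArg (fun q => coeff q i) h0
    simpa using h1
  · intro k' hk hfin a hz
    have hU := v1_mem Y k' hk hfin a
    have hξU : ξ ∈ Y.U k' a := (ValuationSubring.valuation_le_one_iff _ _).1 (X.small k' hk hfin a).le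
    have hd : aeval z (Q.map (evalRingHom (0 : RatFunc k))) =
        ((Q.map (evalRingHom 0)).map (algebraMap (RatFunc k) Ω) - Q.map φ).eval z := by
      rw [eval_sub, hQz, sub_zero, eval_map_algebraMap]
    rw [hd, eval_eq_sum_range]
    refine Valuation.map_sum_lt _ one_ne_zero fun i _ => ?_
    have hc : ((Q.map (evalRingHom 0)).map (algebraMap (RatFunc k) Ω) - Q.map φ).coeff i =
        -(aeval ξ (divX (Q.coeff i)) * ξ) := by
      rw [coeff_sub, coeff_map, coeff_map, coeff_map, coe_evalRingHom, ← coeff_zero_eq_eval_zero]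
      have h2 : φ (Q.coeff i) = aeval ξ (divX (Q.coeff i)) * ξ + algebraMap (RatFunc k) Ω ((Q.coeff i).coeff 0) := by
        conv_lhs => rw [← divX_mul_X_add (Q.coeff i)]
        rw [hφ]
        simp
      rw [h2]
      ring
    rw [hc, map_mul, Valuation.map_neg, map_mul]
    have h3 : (Y.U k' a).valuation (aeval ξ (divX (Q.coeff i))) ≤ 1 :=
      (ValuationSubring.valuation_le_one_iff _ _).2 (v1_aeval_mem _ hU ξ hξU _)
    have h4 : (Y.U k' a).valuation (z ^ i) ≤ 1 :=
      (ValuationSubring.valuation_le_one_iff _ _).2 (pow_mem hz i)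
    have h5 := X.small k' hk hfin a
    calc _ ≤ (Y.U k' a).valuation (aeval ξ (divX (Q.coeff i))) * (Y.U k' a).valuation ξ * 1 :=
          mul_le_mul_right h4 _
      _ ≤ 1 * (Y.U k' a).valuation ξ * 1 := by
          rw [mul_one, mul_one]
          exact mul_le_mul_left h3 _
      _ < 1 := by
          rw [one_mul, mul_one]
          exact h5

theorem Xi.roots (X : Xi Y ξ) (z : Ω) : ∃ R : Finset Ω, (∀ ρ ∈ R, IsAlgebraic (RatFunc k) ρ) ∧
    ∀ k' : IntermediateField k Ω, Y.k0 ≤ k' → FiniteDimensional k k' → ∀ a : Option k', z ∈ Y.U k' a →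
      ∃ ρ ∈ R, (Y.U k' a).valuation (z - ρ) < 1 := by
  classical
  obtain ⟨p, hp0, hp⟩ := X.red z
  have hpm : p.map (algebraMap (RatFunc k) Ω) ≠ 0 := by
    rw [Ne, Polynomial.map_eq_zero]
    exact hp0
  refine ⟨(p.map (algebraMap (RatFunc k) Ω)).roots.toFinset, ?_, ?_⟩
  · intro ρ hρ
    refine ⟨p, hp0, ?_⟩
    have h2 := (mem_roots hpm).1 (Multiset.mem_toFinset.1 hρ)
    rw [IsRoot, eval_map_algebraMap] at h2
    exact h2
  · intro k' hk hfin a hz
    by_contra hcon
    have h1 : ∀ ρ ∈ (p.map (algebraMap (RatFunc k) Ω)).roots, 1 ≤ (Y.U k' a).valuation (z - ρ) := by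
      intro ρ hρ
      by_contra h
      exact hcon ⟨ρ, Multiset.mem_toFinset.2 hρ, not_le.1 h⟩
    have h2 := hp k' hk hfin a hz
    rw [← eval_map_algebraMap, (IsAlgClosed.splits (p.map (algebraMap (RatFunc k) Ω))).eq_prod_roots,
      eval_mul, eval_C, eval_multiset_prod, map_mul, map_multiset_prod] at h2
    have h3 : (Y.U k' a).valuation (p.map (algebraMap (RatFunc k) Ω)).leadingCoeff = 1 := by
      rw [leadingCoeff_map]
      exact (Y.loc k' hk hfin a).coarse_alg hfin _ (isAlgebraic_algebraMap _)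
        (fun h => hp0 (leadingCoeff_eq_zero.1 ((algebraMap (RatFunc k) Ω).injective (h.trans (map_zero _).symm))))
    rw [h3, one_mul, Multiset.map_map, Multiset.map_map] at h2
    refine absurd h2 (not_lt.2 ?_)
    refine Multiset.prod_induction (fun x => 1 ≤ x) _ (fun a b ha hb => one_le_mul ha hb) le_rfl ?_
    intro x hx
    obtain ⟨ρ, hρ, rfl⟩ := Multiset.mem_map.1 hx
    simpa using h1 ρ hρ

private theorem v2_kt_U (k' : IntermediateField k Ω) (hk : Y.k0 ≤ k') (hfin : FiniteDimensional k k') (a : Option k') (r : Ω)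
    (hr : r ∈ kt k') : r ∈ Y.U k' a := by
  by_cases h0 : r = 0
  · rw [h0]; exact zero_mem _
  · exact (ValuationSubring.valuation_le_one_iff _ _).1 ((Y.loc k' hk hfin a).coarse_kt hfin r hr h0).le

private theorem v2_kt_val (k' : IntermediateField k Ω) (hk : Y.k0 ≤ k') (hfin : FiniteDimensional k k') (a : Option k') (r : Ω)
    (hr : r ∈ kt k') (h0 : r ≠ 0) : (Y.U k' a).valuation r = 1 :=
  (Y.loc k' hk hfin a).coarse_kt hfin r hr h0

private theorem v2_eval_mem (U : ValuationSubring Ω) (p : Polynomial Ω) (hp : ∀ i, p.coeff i ∈ U) (y : Ω) (hy : y ∈ U) :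
    p.eval y ∈ U := by
  rw [eval_eq_sum_range]
  exact sum_mem fun i _ => mul_mem (hp i) (pow_mem hy i)

private theorem v2_lift (K : IntermediateField (RatFunc k) Ω) (p : Polynomial Ω) (hp : ∀ i, p.coeff i ∈ K) :
    ∃ q : Polynomial K, q.map (algebraMap K Ω) = p := by
  have h : p ∈ lifts (algebraMap K Ω) := (lifts_iff_coeff_lifts p).2 fun n => ⟨⟨p.coeff n, hp n⟩, rfl⟩
  exact (mem_lifts p).1 h

private theorem v2_coeff (K : IntermediateField (RatFunc k) Ω) (q : Polynomial K) (i : ℕ) :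
    (q.map (algebraMap K Ω)).coeff i ∈ K := by
  rw [coeff_map]
  exact (q.coeff i).2

private theorem v2_monic (K : IntermediateField (RatFunc k) Ω) (q : Polynomial K) (hq : q ≠ 0) :
    ((C q.leadingCoeff⁻¹ * q).map (algebraMap K Ω)).Monic ∧
      (C q.leadingCoeff⁻¹ * q).natDegree = q.natDegree := by
  have h1 : (C q.leadingCoeff⁻¹ * q).Monic := by
    rw [mul_comm]
    exact monic_mul_leadingCoeff_inv hq
  refine ⟨h1.map _, ?_⟩
  exact natDegree_C_mul (inv_ne_zero (leadingCoeff_ne_zero.2 hq))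

private theorem v2_div (K : IntermediateField (RatFunc k) Ω) (p : Polynomial Ω) (hpm : p.Monic) (hpc : ∀ i, p.coeff i ∈ K)
    (r : Ω) (hr : r ∈ K) (hroot : p.eval r = 0) : ∃ g : Polynomial K, g ≠ 0 ∧ p.natDegree = g.natDegree + 1 ∧
      ∀ y : Ω, p.eval y = (y - r) * (g.map (algebraMap K Ω)).eval y := by
  obtain ⟨q, hq⟩ := v2_lift K p hpc
  have hfac : (X - C r) * (p /ₘ (X - C r)) = p := mul_divByMonic_eq_iff_isRoot.2 hroot
  have e : algebraMap K Ω (⟨r, hr⟩ : K) = r := rfl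
  have hg : (q /ₘ (X - C (⟨r, hr⟩ : K))).map (algebraMap K Ω) = p /ₘ (X - C r) := by
    rw [map_divByMonic _ (monic_X_sub_C _), hq, Polynomial.map_sub, map_X, map_C, e]
  have hg0 : q /ₘ (X - C (⟨r, hr⟩ : K)) ≠ 0 := by
    intro h0
    rw [h0, Polynomial.map_zero] at hg
    rw [← hg, mul_zero] at hfac
    exact hpm.ne_zero hfac.symm
  refine ⟨_, hg0, ?_, ?_⟩
  · conv_lhs => rw [← hfac]
    have h1 : p /ₘ (X - C r) ≠ 0 := by
      rw [← hg]
      exact (Polynomial.map_ne_zero_iff (algebraMap K Ω).injective).2 hg0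
    rw [natDegree_mul (X_sub_C_ne_zero r) h1, natDegree_X_sub_C, ← hg, natDegree_map]
    ring
  · intro y
    conv_lhs => rw [← hfac]
    rw [eval_mul, hg, eval_sub, eval_X, eval_C]

private theorem v2_sf (K : IntermediateField (RatFunc k) Ω) (p : Polynomial Ω) (hpm : p.Monic) (hpc : ∀ i, p.coeff i ∈ K)
    (H : ∀ g h : Polynomial K, g ≠ 0 → g.natDegree < p.natDegree → (∀ y : Ω,
      ((g.map (algebraMap K Ω)).eval y) ^ 2 = p.eval y * (h.map (algebraMap K Ω)).eval y) → False) :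
    ∃ u v : Polynomial Ω, (∀ i, u.coeff i ∈ K) ∧ (∀ i, v.coeff i ∈ K) ∧ u * p + v * derivative p = 1 := by
  obtain ⟨q, hq⟩ := v2_lift K p hpc
  have hqm : q.Monic := by
    rw [← hq] at hpm
    exact monic_map_iff.1 hpm
  have hsf : Squarefree q := by
    intro x hx
    by_contra hu
    obtain ⟨h, hh⟩ := hx
    have hq0 : q ≠ 0 := hqm.ne_zero
    have hx0 : x ≠ 0 := by
      rintro rfl
      rw [zero_mul, zero_mul] at hh
      exact hq0 hh
    have hh0 : h ≠ 0 := by
      rintro rfl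
      rw [mul_zero] at hh
      exact hq0 hh
    have hxd : 0 < x.natDegree := by
      rw [pos_iff_ne_zero]
      intro h0
      apply hu
      rw [natDegree_eq_zero] at h0
      obtain ⟨c, rfl⟩ := h0
      rw [isUnit_C, isUnit_iff_ne_zero]
      rintro rfl
      exact hx0 C_0
    refine H (x * h) h (mul_ne_zero hx0 hh0) ?_ ?_
    · rw [← hq, natDegree_map, hh, natDegree_mul (mul_ne_zero hx0 hx0) hh0, natDegree_mul hx0 hx0, natDegree_mul hx0 hh0]
      omega
    · intro y
      rw [← hq, hh]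
      simp only [Polynomial.map_mul, eval_mul]
      ring
  have hc : CharZero K := by
    have : CharZero Ω := charZero_of_injective_algebraMap (algebraMap k Ω).injective
    exact (algebraMap K Ω).charZero_iff (algebraMap K Ω).injective |>.2 this
  have hsep : q.Separable := PerfectField.separable_iff_squarefree.2 hsf
  obtain ⟨u, v, huv⟩ := hsep
  refine ⟨u.map (algebraMap K Ω), v.map (algebraMap K Ω), v2_coeff _ u, v2_coeff _ v, ?_⟩
  rw [← hq, derivative_map, ← Polynomial.map_mul, ← Polynomial.map_mul, ← Polynomial.map_add, huv, Polynomial.map_one]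

/-- the degrees which occur -/
private def v2P (Y : Sys k Ω) (k1 : IntermediateField k Ω) (y : Ω) (d : ℕ) : Prop :=
  ∃ k2 : IntermediateField k Ω, k1 ≤ k2 ∧ FiniteDimensional k k2 ∧ ∃ p : Polynomial Ω, p.Monic ∧
    p.natDegree = d ∧ (∀ i, p.coeff i ∈ kt k2) ∧
      (∀ k' : IntermediateField k Ω, k2 ≤ k' → FiniteDimensional k k' → ∀ a : Option k',
        (Y.U k' a).valuation (p.eval y) < 1)

theorem Xi.bad_min (X : Xi Y ξ) (k1 : IntermediateField k Ω) (hk1 : Y.k0 ≤ k1) (hfin1 : FiniteDimensional k k1) (y : Ω)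
    (hbad : ∀ k' : IntermediateField k Ω, k1 ≤ k' → FiniteDimensional k k' → ∀ a : Option k',
      y ∈ Y.U k' a ∧ ∀ r ∈ kt k', ¬ (Y.U k' a).valuation (y - r) < 1) :
    ∃ k2 : IntermediateField k Ω, k1 ≤ k2 ∧ FiniteDimensional k k2 ∧ ∃ p : Polynomial Ω, p.Monic ∧ (∀ i, p.coeff i ∈ kt k2) ∧
      (∀ k' : IntermediateField k Ω, k2 ≤ k' → FiniteDimensional k k' → ∀ a : Option k',
        (Y.U k' a).valuation (p.eval y) < 1) ∧
      (∀ k3 : IntermediateField k Ω, k2 ≤ k3 → FiniteDimensional k k3 → ∀ r ∈ kt k3, p.eval r ≠ 0) ∧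
      ∃ u v : Polynomial Ω, (∀ i, u.coeff i ∈ kt k2) ∧ (∀ i, v.coeff i ∈ kt k2) ∧ u * p + v * derivative p = 1 := by
  classical
  -- a general way to get an element of `P`
  have hmk : ∀ (k2 : IntermediateField k Ω), k1 ≤ k2 → FiniteDimensional k k2 → ∀ q : Polynomial (kt k2), q ≠ 0 →
      (∀ k' : IntermediateField k Ω, k2 ≤ k' → FiniteDimensional k k' → ∀ a : Option k',
        (Y.U k' a).valuation ((q.map (algebraMap (kt k2) Ω)).eval y) < 1) → v2P Y k1 y q.natDegree := by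
    intro k2 h12 hfin2 q hq hv
    obtain ⟨h1, h2⟩ := v2_monic (kt k2) q hq
    refine ⟨k2, h12, hfin2, _, h1, ?_, v2_coeff (kt k2) _, ?_⟩
    · rw [natDegree_map, h2]
    · intro k' hk' hfin' a
      have h3 : ((C q.leadingCoeff⁻¹ * q).map (algebraMap (kt k2) Ω)).eval y =
          algebraMap (kt k2) Ω q.leadingCoeff⁻¹ * (q.map (algebraMap (kt k2) Ω)).eval y := by
        rw [Polynomial.map_mul, eval_mul, map_C, eval_C]
      have h4 : algebraMap (kt k2) Ω q.leadingCoeff⁻¹ ≠ 0 :=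
        (_root_.map_ne_zero _).2 (inv_ne_zero (leadingCoeff_ne_zero.2 hq))
      have h5 : (Y.U k' a).valuation (algebraMap (kt k2) Ω q.leadingCoeff⁻¹) = 1 :=
        v2_kt_val k' (hk1.trans (h12.trans hk')) hfin' a _ (kt_mono k2 k' hk' (q.leadingCoeff⁻¹).2) h4
      rw [h3, map_mul, h5, one_mul]
      exact hv k' hk' hfin' a
  have hex : ∃ d, v2P Y k1 y d := by
    obtain ⟨p, hp0, hp⟩ := X.red y
    obtain ⟨q, hq⟩ := v2_lift (kt k1) (p.map (algebraMap (RatFunc k) Ω)) (by
      intro i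
      rw [coeff_map]
      exact (kt k1).algebraMap_mem _)
    have hq0 : q ≠ 0 := by
      rintro rfl
      rw [Polynomial.map_zero] at hq
      exact hp0 ((Polynomial.map_eq_zero _).1 hq.symm)
    refine ⟨_, hmk k1 le_rfl hfin1 q hq0 ?_⟩
    intro k' hk' hfin' a
    rw [hq, eval_map_algebraMap]
    exact hp k' (hk1.trans hk') hfin' a (hbad k' hk' hfin' a).1
  obtain ⟨d0, hd0, hdmin⟩ : ∃ d, v2P Y k1 y d ∧ ∀ e, v2P Y k1 y e → d ≤ e :=
    ⟨Nat.find hex, Nat.find_spec hex, fun e he => Nat.find_min' hex he⟩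
  obtain ⟨k2, h12, hfin2, p, hpm, hpd, hpc, hpv⟩ := hd0
  have hmin : ∀ d, v2P Y k1 y d → p.natDegree ≤ d := by
    intro d hd
    rw [hpd]
    exact hdmin d hd
  have hUy : ∀ k' : IntermediateField k Ω, k2 ≤ k' → FiniteDimensional k k' → ∀ a : Option k', y ∈ Y.U k' a :=
    fun k' hk' hfin' a => (hbad k' (h12.trans hk') hfin' a).1
  refine ⟨k2, h12, hfin2, p, hpm, hpc, hpv, ?_, ?_⟩
  · intro k3 h23 hfin3 r hr hroot
    obtain ⟨g, hg0, hdeg, hg⟩ := v2_div (kt k3) p hpm (fun i => kt_mono k2 k3 h23 (hpc i)) r hr hroot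
    have := hmin _ (hmk k3 (h12.trans h23) hfin3 g hg0 (by
      intro k' hk' hfin' a
      have h1 := hpv k' (h23.trans hk') hfin' a
      rw [hg, map_mul] at h1
      have h2 : (Y.U k' a).valuation (y - r) = 1 := by
        refine le_antisymm ?_ (not_lt.1 ((hbad k' (h12.trans (h23.trans hk')) hfin' a).2 r (kt_mono k3 k' hk' hr)))
        exact (ValuationSubring.valuation_le_one_iff _ _).2 (sub_mem (hUy k' (h23.trans hk') hfin' a)
          (v2_kt_U k' (hk1.trans (h12.trans (h23.trans hk'))) hfin' a r (kt_mono k3 k' hk' hr)))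
      rwa [h2, one_mul] at h1))
    omega
  · refine v2_sf (kt k2) p hpm hpc ?_
    intro g h hg0 hd hgh
    have := hmin _ (hmk k2 h12 hfin2 g hg0 (by
      intro k' hk' hfin' a
      have h1 := hpv k' hk' hfin' a
      have hcoef : ((h.map (algebraMap (kt k2) Ω)).eval y) ∈ Y.U k' a := by
        refine v2_eval_mem _ _ (fun i => ?_) y (hUy k' hk' hfin' a)
        exact v2_kt_U k' (hk1.trans (h12.trans hk')) hfin' a _ (kt_mono k2 k' hk' (v2_coeff (kt k2) h i))
      have h3 : (Y.U k' a).valuation ((g.map (algebraMap (kt k2) Ω)).eval y) ^ 2 < 1 := by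
        rw [← map_pow, hgh y, map_mul]
        exact mul_lt_one_of_lt_of_le h1 ((ValuationSubring.valuation_le_one_iff _ _).2 hcoef)
      by_contra h4
      rw [not_lt] at h4
      exact absurd h3 (not_lt.2 (one_le_pow₀ h4))))
    omega

/-- the evaluation `k'[X] → Ω` at `t` -/
private noncomputable def v3f (k' : IntermediateField k Ω) : k'[X] →+* Ω := (aeval (tt k Ω) : k'[X] →ₐ[k'] Ω).toRingHom

private theorem v3f_apply (k' : IntermediateField k Ω) (p : k'[X]) : v3f k' p = aeval (tt k Ω) p := rfl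

private theorem v3f_inj (k' : IntermediateField k Ω) (hfin : FiniteDimensional k k') : Function.Injective (v3f k') := by
  rw [injective_iff_map_eq_zero]
  intro p hp
  by_contra h0
  exact aeval_tt_ne k' hfin p h0 hp

private theorem v3_clear (k' : IntermediateField k Ω) (hfin : FiniteDimensional k k') (p : Polynomial Ω)
    (hp : ∀ i, p.coeff i ∈ kt k') : ∃ D : k'[X], D ≠ 0 ∧ ∃ P : Polynomial (Polynomial k'),
      P.map (v3f k') = C (v3f k' D) * p := by
  classical
  choose a b hb hab using fun i => kt_frac k' hfin (p.coeff i) (hp i)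
  refine ⟨∏ i ∈ Finset.range (p.natDegree + 1), b i, Finset.prod_ne_zero_iff.2 fun i _ => hb i,
    ∑ i ∈ Finset.range (p.natDegree + 1), C (a i * ∏ j ∈ (Finset.range (p.natDegree + 1)).erase i, b j) * X ^ i, ?_⟩
  rw [Polynomial.map_sum]
  have hsum : ∀ c : Ω, C c * p = ∑ i ∈ Finset.range (p.natDegree + 1), C c * (C (p.coeff i) * X ^ i) := by
    intro c
    have h0 := congrArg (fun z => C c * z) p.as_sum_range_C_mul_X_pow
    simp only [Finset.mul_sum] at h0
    exact h0
  rw [hsum]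
  refine Finset.sum_congr rfl fun i hi => ?_
  rw [Polynomial.map_mul, map_C, Polynomial.map_pow, map_X, ← mul_assoc, ← C_mul]
  have h1 : aeval (tt k Ω) (b i) ≠ 0 := aeval_tt_ne k' hfin (b i) (hb i)
  have h2 : v3f k' (a i * ∏ j ∈ (Finset.range (p.natDegree + 1)).erase i, b j) =
      v3f k' (∏ i ∈ Finset.range (p.natDegree + 1), b i) * p.coeff i := by
    rw [map_mul, ← Finset.mul_prod_erase _ _ hi, map_mul, hab i]
    simp only [v3f_apply]
    field_simp
  rw [h2]

private theorem v3_scale (D : Ω) (hD : D ≠ 0) (d : ℕ) (p q u v : Polynomial Ω) (hpq : ∀ x : Ω, q.eval (D * x) = D ^ d * p.eval x)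
    (huv : u * p + v * derivative p = 1) :
    (C (D ^ d)⁻¹ * u.comp (C D⁻¹ * X)) * q + (C (D * (D ^ d)⁻¹) * v.comp (C D⁻¹ * X)) * derivative q = 1 := by
  have hq : q = C (D ^ d) * p.comp (C D⁻¹ * X) := by
    apply Polynomial.funext
    intro x
    rw [eval_mul, eval_C, eval_comp, eval_mul, eval_C, eval_X, ← hpq, mul_inv_cancel_left₀ hD]
  have hq' : derivative q = C (D ^ d) * (C D⁻¹ * (derivative p).comp (C D⁻¹ * X)) := by
    rw [hq, derivative_C_mul, derivative_comp, derivative_C_mul, derivative_X, mul_one]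
  have h1 : (u * p + v * derivative p).comp (C D⁻¹ * X) = 1 := by rw [huv, one_comp]
  rw [add_comp, mul_comp, mul_comp] at h1
  have hd : D ^ d ≠ 0 := pow_ne_zero d hD
  have e1 : (C (D ^ d)⁻¹ : Polynomial Ω) * C (D ^ d) = 1 := by rw [← C_mul, inv_mul_cancel₀ hd, C_1]
  have e2 : (C (D * (D ^ d)⁻¹) : Polynomial Ω) * (C (D ^ d) * C D⁻¹) = 1 := by
    rw [← C_mul, ← C_mul]
    have : D * (D ^ d)⁻¹ * (D ^ d * D⁻¹) = 1 := by field_simp
    rw [this, C_1]
  rw [hq', hq]
  linear_combination h1 + (u.comp (C D⁻¹ * X) * p.comp (C D⁻¹ * X)) * e1 +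
    (v.comp (C D⁻¹ * X) * (derivative p).comp (C D⁻¹ * X)) * e2

private theorem v3_comp_coeff (K : IntermediateField (RatFunc k) Ω) (D : Ω) (hD : D ∈ K) (c : Ω) (hc : c ∈ K) (u : Polynomial Ω)
    (hu : ∀ i, u.coeff i ∈ K) (i : ℕ) : (C c * u.comp (C D⁻¹ * X)).coeff i ∈ K := by
  obtain ⟨q, hq⟩ := v2_lift K u hu
  have e1 : algebraMap K Ω (⟨c, hc⟩ : K) = c := rfl
  have e2 : algebraMap K Ω (⟨D, hD⟩ : K) = D := rfl
  have h1 : C c * u.comp (C D⁻¹ * X) =
      (C (⟨c, hc⟩ : K) * q.comp (C ((⟨D, hD⟩ : K)⁻¹) * X)).map (algebraMap K Ω) := by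
    rw [Polynomial.map_mul, map_C, Polynomial.map_comp, Polynomial.map_mul, map_C, map_X, hq,
      map_inv₀ (algebraMap K Ω), e1, e2]
  rw [h1]
  exact v2_coeff K _ i

theorem Xi.bad_int (X : Xi Y ξ) (k1 : IntermediateField k Ω) (hk1 : Y.k0 ≤ k1) (hfin1 : FiniteDimensional k k1) (y : Ω)
    (hbad : ∀ k' : IntermediateField k Ω, k1 ≤ k' → FiniteDimensional k k' → ∀ a : Option k',
      y ∈ Y.U k' a ∧ ∀ r ∈ kt k', ¬ (Y.U k' a).valuation (y - r) < 1) :
    ∃ k2 : IntermediateField k Ω, k1 ≤ k2 ∧ FiniteDimensional k k2 ∧ ∃ D : k2[X], D ≠ 0 ∧ ∃ q : Polynomial (Polynomial k2), q.Monic ∧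
      (∀ k' : IntermediateField k Ω, k2 ≤ k' → FiniteDimensional k k' → ∀ a : Option k',
        (Y.U k' a).valuation (evt k2 q (aeval (tt k Ω) D * y)) < 1) ∧
      (∀ k3 : IntermediateField k Ω, k2 ≤ k3 → FiniteDimensional k k3 → ∀ r ∈ kt k3, evt k2 q r ≠ 0) ∧
      ∃ u v : Polynomial (Polynomial k2), ∃ Δ : k2[X], Δ ≠ 0 ∧ u * q + v * derivative q = C Δ := by
  obtain ⟨k2, h12, hfin2, p, hpm, hpc, hpv, hpr, u, v, hu, hv, huv⟩ := X.bad_min k1 hk1 hfin1 y hbad
  obtain ⟨D, hD0, P, hP⟩ := v3_clear k2 hfin2 p hpc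
  have hinj := v3f_inj k2 hfin2
  have hDt : v3f k2 D ≠ 0 := by
    intro h0
    exact hD0 (hinj (by rw [h0, map_zero]))
  have hDkt : v3f k2 D ∈ kt k2 := aeval_mem_kt k2 D
  -- degree at least one
  have hdeg : 1 ≤ p.natDegree := by
    rw [Nat.one_le_iff_ne_zero]
    intro h0
    have h1 : p = 1 := hpm.natDegree_eq_zero.1 h0
    have h2 := hpv k2 le_rfl hfin2 none
    rw [h1, eval_one, map_one] at h2
    exact lt_irrefl _ h2
  have hPd : P.natDegree = p.natDegree := by
    rw [← natDegree_map_eq_of_injective hinj P, hP, natDegree_C_mul hDt]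
  have hPl : P.leadingCoeff = D := by
    apply hinj
    rw [leadingCoeff, ← coeff_map, hP, hPd, coeff_C_mul, hpm.coeff_natDegree, mul_one]
  have hP0 : P ≠ 0 := by
    rintro rfl
    rw [natDegree_zero] at hPd
    omega
  set q := integralNormalization P with hq
  have hqm : q.Monic := monic_integralNormalization hP0
  have hev : ∀ x : Ω, evt k2 q (v3f k2 D * x) = v3f k2 D ^ p.natDegree * p.eval x := by
    intro x
    have h1 := integralNormalization_eval₂_leadingCoeff_mul (p := P) (by omega) (v3f k2) x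
    rw [hPl, hPd] at h1
    have h2 : P.eval₂ (v3f k2) x = v3f k2 D * p.eval x := by
      rw [eval₂_eq_eval_map, hP, eval_mul, eval_C]
    have h3 : evt k2 q (v3f k2 D * x) = q.eval₂ (v3f k2) (v3f k2 D * x) := rfl
    rw [h3, hq, h1, h2, ← mul_assoc, ← pow_succ, Nat.sub_add_cancel hdeg]
  refine ⟨k2, h12, hfin2, D, hD0, q, hqm, ?_, ?_, ?_⟩
  · intro k' hk' hfin' a
    have h1 := hev y
    rw [v3f_apply] at h1
    rw [h1, map_mul, ← v3f_apply]
    have h2 : (Y.U k' a).valuation (v3f k2 D ^ p.natDegree) = 1 :=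
      v2_kt_val k' (hk1.trans (h12.trans hk')) hfin' a _ (pow_mem (kt_mono k2 k' hk' hDkt) _) (pow_ne_zero _ hDt)
    rw [h2, one_mul]
    exact hpv k' hk' hfin' a
  · intro k3 h23 hfin3 r hr
    have h1 : r = v3f k2 D * ((v3f k2 D)⁻¹ * r) := by rw [mul_inv_cancel_left₀ hDt]
    rw [h1, hev]
    refine mul_ne_zero (pow_ne_zero _ hDt) (hpr k3 h23 hfin3 _ ?_)
    exact mul_mem (inv_mem (kt_mono k2 k3 h23 hDkt)) hr
  · have hsc := v3_scale (v3f k2 D) hDt p.natDegree p (q.map (v3f k2)) u v (by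
      intro x
      rw [eval_map]
      exact hev x) huv
    obtain ⟨D1, hD1, U1, hU1⟩ := v3_clear k2 hfin2 _ (v3_comp_coeff (kt k2) _ hDkt ((v3f k2 D ^ p.natDegree)⁻¹)
      (inv_mem (pow_mem hDkt _)) u hu)
    obtain ⟨D2, hD2, V1, hV1⟩ := v3_clear k2 hfin2 _ (v3_comp_coeff (kt k2) _ hDkt (v3f k2 D * (v3f k2 D ^ p.natDegree)⁻¹)
      (mul_mem hDkt (inv_mem (pow_mem hDkt _))) v hv)
    refine ⟨C D2 * U1, C D1 * V1, D1 * D2, mul_ne_zero hD1 hD2, ?_⟩
    apply Polynomial.map_injective (v3f k2) hinj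
    have e : (C (v3f k2 (D1 * D2)) : Polynomial Ω) = C (v3f k2 D1) * C (v3f k2 D2) := by rw [map_mul, C_mul]
    rw [Polynomial.map_add, Polynomial.map_mul, Polynomial.map_mul, Polynomial.map_mul, Polynomial.map_mul, map_C, map_C, hU1, hV1,
      ← derivative_map, map_C, e]
    linear_combination (C (v3f k2 D1) * C (v3f k2 D2)) * hsc

theorem evt_subst (k' : IntermediateField k Ω) (q : Polynomial (Polynomial k')) (hq : q.Monic) (A B : k'[X]) :
    ∃ Q : Polynomial (Polynomial k'), Q.Monic ∧ ∀ z : Ω,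
      evt k' Q (aeval (tt k Ω) B * z - aeval (tt k Ω) A) = aeval (tt k Ω) B ^ q.natDegree * evt k' q z := by
  classical
  -- `Q₀ = ∑ q_i B^(d-i) Z^i`
  let Q₀ : Polynomial (Polynomial k') := ∑ i ∈ Finset.range (q.natDegree + 1), C (q.coeff i * B ^ (q.natDegree - i)) * X ^ i
  have hcoef : ∀ n, Q₀.coeff n = if n ≤ q.natDegree then q.coeff n * B ^ (q.natDegree - n) else 0 := by
    intro n
    simp only [Q₀, finsetSum_coeff, coeff_C_mul, coeff_X_pow]
    simp only [mul_ite, mul_one, mul_zero, Finset.sum_ite_eq, Finset.mem_range, Nat.lt_succ_iff]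
  have hQ₀ : Q₀.Monic := by
    apply monic_of_natDegree_le_of_coeff_eq_one q.natDegree
    · rw [natDegree_le_iff_coeff_eq_zero]
      intro n hn
      rw [hcoef, if_neg (not_le.2 hn)]
    · rw [hcoef, if_pos le_rfl, hq.coeff_natDegree, Nat.sub_self, pow_zero, mul_one]
  refine ⟨Q₀.comp (X + C A), ?_, ?_⟩
  · exact hQ₀.comp_X_add_C A
  · intro z
    have h1 : evt k' (Q₀.comp (X + C A)) (aeval (tt k Ω) B * z - aeval (tt k Ω) A) =
        Q₀.eval₂ (v3f k') (v3f k' B * z) := by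
      show (Q₀.comp (X + C A)).eval₂ (v3f k') (v3f k' B * z - v3f k' A) = _
      rw [eval₂_comp, eval₂_add, eval₂_X, eval₂_C, sub_add_cancel]
    rw [h1]
    have h2 : evt k' q z = q.eval₂ (v3f k') z := rfl
    rw [h2, eval₂_eq_sum_range (v3f k') z, Finset.mul_sum]
    simp only [Q₀, eval₂_finsetSum, eval₂_mul, eval₂_C, eval₂_X_pow]
    refine Finset.sum_congr rfl fun i hi => ?_
    have hi' : i ≤ q.natDegree := Nat.lt_succ_iff.1 (Finset.mem_range.1 hi)
    rw [map_mul, map_pow, ← v3f_apply, mul_pow]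
    have h3 : (v3f k' B) ^ q.natDegree = v3f k' B ^ (q.natDegree - i) * v3f k' B ^ i := by
      rw [← pow_add, Nat.sub_add_cancel hi']
    rw [h3]
    ring

private theorem v4_aeval (k2 k' : IntermediateField k Ω) (hk : k2 ≤ k') (g : k2[X]) (x : Ω) :
    aeval x (g.map (IntermediateField.inclusion hk).toRingHom) = aeval x g := by
  rw [aeval_def, eval₂_map, aeval_def]
  rfl

private theorem v4_map_ne (k2 k' : IntermediateField k Ω) (hk : k2 ≤ k') (g : k2[X]) (hg : g ≠ 0) :
    g.map (IntermediateField.inclusion hk).toRingHom ≠ 0 := by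
  rw [Ne, Polynomial.map_eq_zero]
  exact hg

private theorem v4_coarse {K : IntermediateField k Ω} (hfin : FiniteDimensional k K) {S : Sec (RatFunc k) Ω} {a : Option K}
    {V : ValuationSubring Ω} (h : Loc S K a V) (z : Ω) (hz : (coarse V (unif K a)).valuation z < 1) : V.valuation z < 1 := by
  have := coarse_of_lt V (unif K a) (unif_ne_zero K hfin a) h.unif z hz 0
  simpa using this

private theorem v4_evt (k2 : IntermediateField k Ω) (q : Polynomial (Polynomial k2)) (z : Ω) :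
    evt k2 q z = ∑ i ∈ Finset.range (q.natDegree + 1), aeval (tt k Ω) (q.coeff i) * z ^ i := by
  unfold evt
  rw [eval₂_eq_sum_range]
  rfl

/-- the leading term dominates -/
private theorem v4_lead (V : ValuationSubring Ω) (k2 : IntermediateField k Ω) (q : Polynomial (Polynomial k2)) (hq : q.Monic)
    (z : Ω) (hz : z ≠ 0) (hc : ∀ i < q.natDegree, V.valuation (aeval (tt k Ω) (q.coeff i) * z ^ i) < V.valuation z ^ q.natDegree) :
    V.valuation (evt k2 q z) = V.valuation z ^ q.natDegree := by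
  rw [v4_evt, Finset.sum_range_succ, hq.coeff_natDegree, map_one, one_mul]
  have h1 : V.valuation (∑ i ∈ Finset.range q.natDegree, aeval (tt k Ω) (q.coeff i) * z ^ i) <
      V.valuation z ^ q.natDegree := by
    refine Valuation.map_sum_lt _ (pow_ne_zero _ ((Valuation.ne_zero_iff _).2 hz)) fun i hi => ?_
    exact hc i (Finset.mem_range.1 hi)
  rw [Valuation.map_add_eq_of_lt_right _ (by rw [map_pow]; exact h1), map_pow]

private theorem v4_mem {S : Sec (RatFunc k) Ω} {k2 k' : IntermediateField k Ω} (hk : k2 ≤ k') {α : k'} {V : ValuationSubring Ω}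
    (h : Loc S k' (some α) V) (g : k2[X]) : V.valuation (aeval (tt k Ω) g) ≤ 1 := by
  by_cases hg : g = 0
  · rw [hg, map_zero, map_zero]
    exact zero_le'
  · rw [← v4_aeval k2 k' hk, h.poly_val _ (v4_map_ne k2 k' hk g hg)]
    exact pow_le_one₀ zero_le' h.unif.le

theorem evt_bound (Y : Sys k Ω) (k2 : IntermediateField k Ω) (hk2 : Y.k0 ≤ k2) (q : Polynomial (Polynomial k2)) (hq : q.Monic) :
    ∃ h : ℕ, ∀ k' : IntermediateField k Ω, k2 ≤ k' → FiniteDimensional k k' → ∀ z : Ω,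
      (∀ α : k', (Y.U k' (some α)).valuation (evt k2 q z) < 1 → z ∈ Y.V k' (some α)) ∧
      ((Y.U k' none).valuation (evt k2 q z) < 1 → (Y.V k' none).valuation z * (Y.V k' none).valuation (unif k' none) ^ h ≤ 1) := by
  refine ⟨(Finset.range (q.natDegree + 1)).sup fun i => (q.coeff i).natDegree, ?_⟩
  intro k' hk hfin z
  constructor
  · intro α hlt
    have hloc := Y.loc k' (hk2.trans hk) hfin (some α)
    have h1 := v4_coarse hfin hloc _ hlt
    by_contra hzV
    have hz1 : 1 < (Y.V k' (some α)).valuation z := by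
      rw [← not_le, ValuationSubring.valuation_le_one_iff]
      exact hzV
    have hz0 : z ≠ 0 := by
      rintro rfl
      exact hzV (zero_mem _)
    have h2 := v4_lead (Y.V k' (some α)) k2 q hq z hz0 (by
      intro i hi
      rw [map_mul, map_pow]
      calc (Y.V k' (some α)).valuation (aeval (tt k Ω) (q.coeff i)) * (Y.V k' (some α)).valuation z ^ i
          ≤ 1 * (Y.V k' (some α)).valuation z ^ i := mul_le_mul_left (v4_mem hk hloc _) _
        _ = (Y.V k' (some α)).valuation z ^ i := one_mul _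
        _ < (Y.V k' (some α)).valuation z ^ q.natDegree := pow_lt_pow_right₀ hz1 hi)
    rw [h2] at h1
    exact absurd h1 (not_lt.2 (one_le_pow₀ hz1.le))
  · intro hlt
    have hloc := Y.loc k' (hk2.trans hk) hfin none
    have h1 := v4_coarse hfin hloc _ hlt
    set v := (Y.V k' none).valuation with hv
    set h := (Finset.range (q.natDegree + 1)).sup fun i => (q.coeff i).natDegree with hh
    have hu : v (unif k' none) < 1 := hloc.unif
    have hu0 : v (unif k' none) ≠ 0 := (Valuation.ne_zero_iff _).2 (unif_ne_zero k' hfin none)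
    by_contra hcon
    rw [not_le] at hcon
    have hupos : 0 < v (unif k' none) ^ h := zero_lt_iff.2 (pow_ne_zero _ hu0)
    have hz1 : 1 < v z := by
      refine hcon.trans_le ?_
      calc v z * v (unif k' none) ^ h ≤ v z * 1 := mul_le_mul_right (pow_le_one₀ zero_le' hu.le) _
        _ = v z := mul_one _
    have hz0 : z ≠ 0 := by
      rintro rfl
      rw [map_zero] at hz1
      exact absurd hz1 (not_lt.2 zero_le')
    have hcoef : ∀ i < q.natDegree, v (aeval (tt k Ω) (q.coeff i)) < v z := by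
      intro i hi
      by_cases hg : q.coeff i = 0
      · rw [hg, map_zero, map_zero]
        exact zero_lt_one.trans hz1
      · have h3 := hloc.poly_inf _ (v4_map_ne k2 k' hk _ hg)
        rw [v4_aeval, natDegree_map] at h3
        have h4 : (q.coeff i).natDegree ≤ h :=
          Finset.le_sup (f := fun i => (q.coeff i).natDegree) (Finset.mem_range.2 (hi.trans (Nat.lt_succ_self _)))
        have h5 : v (aeval (tt k Ω) (q.coeff i)) * v (unif k' none) ^ h ≤ 1 := by
          obtain ⟨e, he⟩ := Nat.exists_eq_add_of_le h4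
          rw [he, pow_add, ← mul_assoc, h3, one_mul]
          exact pow_le_one₀ zero_le' hu.le
        exact lt_of_mul_lt_mul_right' (h5.trans_lt hcon)
    have h2 := v4_lead (Y.V k' none) k2 q hq z hz0 (by
      intro i hi
      rw [map_mul, map_pow]
      calc v (aeval (tt k Ω) (q.coeff i)) * v z ^ i
          < v z * v z ^ i := mul_lt_mul_of_pos_right (hcoef i hi) (pow_pos (zero_lt_one.trans hz1) i)
        _ = v z ^ (i + 1) := (pow_succ' _ _).symm
        _ ≤ v z ^ q.natDegree := pow_le_pow_right₀ hz1.le hi)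
    rw [h2] at h1
    exact absurd h1 (not_lt.2 (one_le_pow₀ hz1.le))

theorem unit_of_const (Y : Sys k Ω) (k2 k' : IntermediateField k Ω) (hk2 : Y.k0 ≤ k2) (hk : k2 ≤ k') (hfin : FiniteDimensional k k')
    (q : Polynomial (Polynomial k2)) (α : k') (z : Ω) (hz : z ∈ Y.V k' (some α)) (hq : (Y.V k' (some α)).valuation (evt k2 q z) < 1)
    (h0 : aeval (α : Ω) (q.coeff 0) ≠ 0) : (Y.V k' (some α)).valuation z = 1 := by
  have hloc := Y.loc k' (hk2.trans hk) hfin (some α)
  have hz1 : (Y.V k' (some α)).valuation z ≤ 1 := (ValuationSubring.valuation_le_one_iff _ _).2 hz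
  by_contra hne
  have hzlt : (Y.V k' (some α)).valuation z < 1 := lt_of_le_of_ne hz1 hne
  have hmem : evt k2 (divX q) z ∈ Y.V k' (some α) := by
    rw [v4_evt]
    refine sum_mem fun i _ => mul_mem ?_ (pow_mem hz i)
    exact (ValuationSubring.valuation_le_one_iff _ _).1 (v4_mem hk hloc _)
  have hsplit : evt k2 q z = evt k2 (divX q) z * z + aeval (tt k Ω) (q.coeff 0) := by
    conv_lhs => rw [← divX_mul_X_add q]
    unfold evt
    rw [eval₂_add, eval₂_mul, eval₂_X, eval₂_C]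
    rfl
  have hunit : (Y.V k' (some α)).valuation (aeval (tt k Ω) (q.coeff 0)) = 1 := by
    have h1 : ((q.coeff 0).map (IntermediateField.inclusion hk).toRingHom).eval α ≠ 0 := by
      intro h2
      apply h0
      rw [← v4_aeval k2 k' hk]
      have h3 : aeval (α : Ω) ((q.coeff 0).map (IntermediateField.inclusion hk).toRingHom) =
          ((((q.coeff 0).map (IntermediateField.inclusion hk).toRingHom).eval α : k') : Ω) := by
        exact aeval_algebraMap_apply_eq_algebraMap_eval α _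
      rw [h3, h2]
      rfl
    have h2 := hloc.poly_unit _ h1
    rwa [v4_aeval] at h2
  have h3 : (Y.V k' (some α)).valuation (evt k2 (divX q) z * z) < 1 := by
    rw [map_mul]
    calc (Y.V k' (some α)).valuation (evt k2 (divX q) z) * (Y.V k' (some α)).valuation z
        ≤ 1 * (Y.V k' (some α)).valuation z :=
          mul_le_mul_left ((ValuationSubring.valuation_le_one_iff _ _).2 hmem) _
      _ = (Y.V k' (some α)).valuation z := one_mul _
      _ < 1 := hzlt
  rw [hsplit, Valuation.map_add_eq_of_lt_right _ (by rw [hunit]; exact h3), hunit] at hq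
  exact lt_irrefl _ hq

private theorem v5_aeval (k2 k3 : IntermediateField k Ω) (hk : k2 ≤ k3) (g : k2[X]) (x : Ω) :
    aeval x (g.map (IntermediateField.inclusion hk).toRingHom) = aeval x g := by
  rw [aeval_def, eval₂_map, aeval_def]
  rfl

/-- `p(t) ≡ p(α)` mod `π` -/
private theorem v5_poly {S : Sec (RatFunc k) Ω} {k2 k3 : IntermediateField k Ω} (hk : k2 ≤ k3) {V : ValuationSubring Ω}
    {α : k2} (h : Loc S k3 (some ⟨(α : Ω), hk α.2⟩) V) (p : k2[X]) :
    V.valuation (aeval (tt k Ω) p - ((p.eval α : k2) : Ω)) ≤ V.valuation (unif k3 (some ⟨(α : Ω), hk α.2⟩)) := by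
  have h1 := h.poly_le (p.map (IntermediateField.inclusion hk).toRingHom)
  rw [v5_aeval] at h1
  have h2 : (((p.map (IntermediateField.inclusion hk).toRingHom).eval ⟨(α : Ω), hk α.2⟩ : k3) : Ω) =
      ((p.eval α : k2) : Ω) := by
    have h3 : (⟨(α : Ω), hk α.2⟩ : k3) = (IntermediateField.inclusion hk).toRingHom α := rfl
    rw [h3, eval_map, eval₂_at_apply]
    rfl
  rwa [h2] at h1

/-- `q(t, z) ≡ q(α, z)` mod `π` -/
private theorem v5_evt {S : Sec (RatFunc k) Ω} {k2 k3 : IntermediateField k Ω} (hk : k2 ≤ k3) {V : ValuationSubring Ω}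
    {α : k2} (h : Loc S k3 (some ⟨(α : Ω), hk α.2⟩) V) (q : Polynomial (Polynomial k2)) (z : Ω) (hz : z ∈ V) :
    V.valuation (evt k2 q z - aeval z (q.map (evalRingHom α))) ≤ V.valuation (unif k3 (some ⟨(α : Ω), hk α.2⟩)) := by
  unfold evt
  rw [aeval_def, eval₂_map, eval₂_eq_sum, eval₂_eq_sum, Polynomial.sum_def, Polynomial.sum_def,
    ← Finset.sum_sub_distrib]
  refine Valuation.map_sum_le _ fun i _ => ?_
  rw [← sub_mul, map_mul, map_pow]
  have h1 : V.valuation z ^ i ≤ 1 := pow_le_one' ((ValuationSubring.valuation_le_one_iff _ _).2 hz) i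
  calc _ ≤ V.valuation (unif k3 (some ⟨(α : Ω), hk α.2⟩)) * 1 := mul_le_mul' (v5_poly hk h (q.coeff i)) h1
    _ = _ := mul_one _

/-- an element with `|∏ (z - c)| < 1` is near some `c` -/
private theorem v5_near (V : ValuationSubring Ω) (z : Ω) (M : Multiset Ω)
    (hM : V.valuation (M.map fun c => z - c).prod < 1) (h1 : ∀ c ∈ M, V.valuation (z - c) ≤ 1) :
    ∃ c ∈ M, V.valuation (z - c) < 1 := by
  by_contra hcon
  push Not at hcon
  have h2 : ∀ c ∈ M, V.valuation (z - c) = 1 := fun c hc => le_antisymm (h1 c hc) (hcon c hc)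
  have h3 : V.valuation (M.map fun c => z - c).prod = 1 := by
    rw [map_multiset_prod, Multiset.map_map]
    refine Multiset.prod_eq_one fun x hx => ?_
    obtain ⟨c, hc, rfl⟩ := Multiset.mem_map.1 hx
    exact h2 c hc
  exact absurd hM (by rw [h3]; exact lt_irrefl _)

theorem unram (Y : Sys k Ω) (k2 k3 : IntermediateField k Ω) (hk2 : Y.k0 ≤ k2) (hk : k2 ≤ k3) (hfin : FiniteDimensional k k3)
    (q : Polynomial (Polynomial k2)) (hq : q.Monic) (u v : Polynomial (Polynomial k2)) (Δ : k2[X]) (huv : u * q + v * derivative q = C Δ) (α : k2)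
    (hΔ : Δ.eval α ≠ 0) (hsplit : ∀ c : Ω, aeval c (q.map (evalRingHom α)) = 0 → c ∈ k3) (z : Ω)
    (hz : (Y.U k3 (some ⟨(α : Ω), hk α.2⟩)).valuation (evt k2 q z) < 1) :
    ∃ c ∈ k3, (Y.V k3 (some ⟨(α : Ω), hk α.2⟩)).valuation (z - c) ≤
      (Y.V k3 (some ⟨(α : Ω), hk α.2⟩)).valuation (unif k3 (some ⟨(α : Ω), hk α.2⟩)) := by
  classical
  have hloc := Y.loc k3 (hk2.trans hk) hfin (some ⟨(α : Ω), hk α.2⟩)
  have hπ0 := unif_ne_zero k3 hfin (some ⟨(α : Ω), hk α.2⟩)
  obtain ⟨h, hb⟩ := evt_bound Y k2 hk2 q hq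
  have hzV := (hb k3 hk hfin z).1 ⟨(α : Ω), hk α.2⟩ hz
  have hz2 : (Y.V k3 (some ⟨(α : Ω), hk α.2⟩)).valuation (evt k2 q z) ≤
      (Y.V k3 (some ⟨(α : Ω), hk α.2⟩)).valuation (unif k3 (some ⟨(α : Ω), hk α.2⟩)) := by
    have := (coarse_of_lt _ _ hπ0 hloc.unif _ hz 1).le
    rwa [pow_one] at this
  set V := Y.V k3 (some ⟨(α : Ω), hk α.2⟩) with hV
  set π := unif k3 (some (⟨(α : Ω), hk α.2⟩ : k3)) with hπ
  have hπ1 : V.valuation π < 1 := hloc.unif
  have hle : ∀ x : Ω, V.valuation x ≤ 1 ↔ x ∈ V := fun x => ValuationSubring.valuation_le_one_iff _ _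
  have hk3V : ∀ c ∈ k3, c ∈ V := hloc.const
  -- a root near `z`
  have hqm : (q.map (evalRingHom α)).Monic := hq.map _
  have hqm' : ((q.map (evalRingHom α)).map (algebraMap k2 Ω)).Monic := hqm.map _
  have hprod : aeval z (q.map (evalRingHom α)) =
      (((q.map (evalRingHom α)).map (algebraMap k2 Ω)).roots.map fun c => z - c).prod := by
    rw [← eval_map_algebraMap]
    exact (IsAlgClosed.splits _).eval_eq_prod_roots_of_monic hqm' z
  have hroot : ∀ c ∈ ((q.map (evalRingHom α)).map (algebraMap k2 Ω)).roots, aeval c (q.map (evalRingHom α)) = 0 := by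
    intro c hc
    have h2 := (mem_roots hqm'.ne_zero).1 hc
    rw [IsRoot, eval_map_algebraMap] at h2
    exact h2
  have hsmall : V.valuation (aeval z (q.map (evalRingHom α))) < 1 := by
    have h1 : aeval z (q.map (evalRingHom α)) =
        evt k2 q z - (evt k2 q z - aeval z (q.map (evalRingHom α))) := by ring
    rw [h1]
    exact (Valuation.map_sub _ _ _).trans_lt (max_lt (hz2.trans_lt hπ1) ((v5_evt hk hloc q z hzV).trans_lt hπ1))
  rw [hprod] at hsmall
  obtain ⟨c, hc, hzc⟩ := v5_near V z _ hsmall (by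
    intro c hc
    rw [hle]
    exact sub_mem hzV (hk3V c (hsplit c (hroot c hc))))
  have hc3 : c ∈ k3 := hsplit c (hroot c hc)
  have hcV : c ∈ V := hk3V c hc3
  have hc0 := hroot c hc
  refine ⟨c, hc3, ?_⟩
  -- the derivative at `(α, c)`
  have hder : aeval c ((derivative q).map (evalRingHom α)) ≠ 0 := by
    intro h0
    have h1 := congrArg (fun p : Polynomial (Polynomial k2) => aeval c (p.map (evalRingHom α))) huv
    simp only [Polynomial.map_add, Polynomial.map_mul, map_add, map_mul, hc0, h0, mul_zero, add_zero, map_C,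
      aeval_C, coe_evalRingHom] at h1
    exact hΔ ((map_eq_zero (algebraMap k2 Ω)).1 h1.symm)
  have hder3 : aeval c ((derivative q).map (evalRingHom α)) ∈ k3 := by
    rw [aeval_eq_sum_range]
    refine sum_mem fun i _ => ?_
    rw [Algebra.smul_def]
    exact mul_mem (hk (Subtype.property _)) (pow_mem hc3 i)
  have hder1 : V.valuation (aeval c ((derivative q).map (evalRingHom α))) = 1 := hloc.val_const _ hder3 hder
  have hder2 : V.valuation (evt k2 (derivative q) c) = 1 := by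
    have h1 := (v5_evt hk hloc (derivative q) c hcV).trans_lt hπ1
    have h2 : evt k2 (derivative q) c = aeval c ((derivative q).map (evalRingHom α)) +
        (evt k2 (derivative q) c - aeval c ((derivative q).map (evalRingHom α))) := by ring
    rw [h2, Valuation.map_add_eq_of_lt_left _ (by rw [hder1]; exact h1), hder1]
  -- Taylor expansion in `V`
  have hpV : ∀ p : k2[X], (aeval (tt k Ω) : k2[X] →ₐ[k2] Ω).toRingHom p ∈ V := by
    intro p
    have h1 := (v5_poly hk hloc p).trans hπ1.le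
    rw [hle] at h1
    have h2 := add_mem h1 (hk3V _ (hk (p.eval α).2))
    rwa [sub_add_cancel] at h2
  set ψ : k2[X] →+* V := (aeval (tt k Ω) : k2[X] →ₐ[k2] Ω).toRingHom.codRestrict V hpV with hψ
  have hev : ∀ (p : Polynomial (Polynomial k2)) (x : V), (((p.map ψ).eval x : V) : Ω) = evt k2 p (x : Ω) := by
    intro p x
    rw [eval_map]
    unfold evt
    have := hom_eval₂ p ψ V.subtype x
    rw [show (((eval₂ ψ x p : V)) : Ω) = V.subtype (eval₂ ψ x p) from rfl, this]
    rfl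
  obtain ⟨w, hw⟩ := Polynomial.binomExpansion (q.map ψ) (⟨c, hcV⟩ : V) (⟨z, hzV⟩ - ⟨c, hcV⟩)
  rw [add_sub_cancel, derivative_map] at hw
  have hw2 := congrArg V.subtype hw
  have hsubt : ∀ x : V, V.subtype x = (x : Ω) := fun _ => rfl
  rw [map_add, map_add, map_mul, map_mul, map_pow, map_sub] at hw2
  simp only [hsubt, hev] at hw2
  have hmain : (z - c) * (evt k2 (derivative q) c + (w : Ω) * (z - c)) = evt k2 q z - evt k2 q c := by
    rw [hw2]
    ring
  have hg : V.valuation (evt k2 (derivative q) c + (w : Ω) * (z - c)) = 1 := by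
    rw [Valuation.map_add_eq_of_lt_left _ ?_, hder2]
    rw [hder2, map_mul]
    exact (mul_le_mul' ((hle _).2 w.2) le_rfl).trans_lt (by rwa [one_mul])
  have h5 := congrArg V.valuation hmain
  rw [map_mul, hg, mul_one] at h5
  rw [h5]
  refine (Valuation.map_sub _ _ _).trans (max_le hz2 ?_)
  have h6 := v5_evt hk hloc q c hcV
  rwa [hc0, sub_zero] at h6

theorem linalg (M : Type) [Field M] (N : ℕ) (a c : Fin (2 * N + 1) → M) (ha : Function.Injective a) :
    ∃ A B : M[X], A.natDegree ≤ N ∧ B.natDegree ≤ N ∧ B ≠ 0 ∧ ∀ i, A.eval (a i) = B.eval (a i) * c i := by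
  classical
  let e := degreeLTEquiv M (N + 1)
  have hfin : Module.Finite M (degreeLT M (N + 1)) := Module.Finite.equiv e.symm
  have hrk : Module.finrank M (degreeLT M (N + 1)) = N + 1 := by
    rw [e.finrank_eq, Module.finrank_fin_fun]
  let f : (degreeLT M (N + 1) × degreeLT M (N + 1)) →ₗ[M] (Fin (2 * N + 1) → M) :=
    LinearMap.pi fun i => (leval (a i) ∘ₗ (degreeLT M (N + 1)).subtype ∘ₗ LinearMap.fst M _ _) -
      c i • (leval (a i) ∘ₗ (degreeLT M (N + 1)).subtype ∘ₗ LinearMap.snd M _ _)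
  have hker : LinearMap.ker f ≠ ⊥ := by
    apply LinearMap.ker_ne_bot_of_finrank_lt
    rw [Module.finrank_prod, hrk, Module.finrank_fin_fun]
    omega
  obtain ⟨⟨A, B⟩, hAB, hne⟩ := Submodule.exists_mem_ne_zero_of_ne_bot hker
  have hdeg : ∀ P : degreeLT M (N + 1), (P : M[X]).natDegree ≤ N := by
    intro P
    by_cases hP : (P : M[X]) = 0
    · rw [hP]
      simp
    · have := mem_degreeLT.1 P.2
      rw [degree_eq_natDegree hP] at this
      have h2 : (P : M[X]).natDegree < N + 1 := by exact_mod_cast this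
      omega
  have hev : ∀ i, (A : M[X]).eval (a i) = (B : M[X]).eval (a i) * c i := by
    intro i
    have h1 := congrFun (LinearMap.mem_ker.1 hAB) i
    have h2 : (A : M[X]).eval (a i) - c i * (B : M[X]).eval (a i) = 0 := h1
    rw [sub_eq_zero.1 h2, mul_comm]
  refine ⟨A, B, hdeg A, hdeg B, ?_, hev⟩
  intro hB
  apply hne
  have hA : (A : M[X]) = 0 := by
    refine eq_zero_of_natDegree_lt_card_of_eval_eq_zero (A : M[X]) ha ?_ ?_
    · intro i
      rw [hev i, hB, eval_zero, zero_mul]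
    · rw [Fintype.card_fin]
      have := hdeg A
      omega
  rw [Prod.mk_eq_zero]
  exact ⟨Subtype.ext hA, Subtype.ext hB⟩

private theorem v6_odd {K : IntermediateField k Ω} (hfin : FiniteDimensional k K) {S : Sec (RatFunc k) Ω} {a : Option K}
    {V : ValuationSubring Ω} (h : Loc S K a V) (z : Ω) (hz : z ∈ S.F K) :
    ∀ n : ℕ, 0 < n → ∀ r : ℤ, V.valuation z ^ n = V.valuation (unif K a) ^ r →
      ∃ s : ℕ, Odd s ∧ ∃ r' : ℤ, V.valuation z ^ s = V.valuation (unif K a) ^ r' := by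
  have hπ : V.valuation (unif K a) ≠ 0 := (Valuation.ne_zero_iff _).2 (unif_ne_zero K hfin a)
  intro n
  induction n using Nat.strong_induction_on with
  | _ n ih =>
    intro hn r hr
    rcases Nat.even_or_odd' n with ⟨m, hm | hm⟩
    · have h1 : (2 ^ 1 : ℤ) ∣ -r := by
        refine h.ram_pow hfin 1 (-r) (z ^ m) (pow_mem hz m) ?_
        rw [zpow_neg, ← hr, map_pow, ← pow_mul, pow_one, mul_comm m 2, ← hm]
        refine inv_mul_cancel₀ ?_
        rw [hr]
        exact zpow_ne_zero r hπ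
      obtain ⟨b, hb⟩ := h1
      have h2 : r = 2 * (-b) := by
        rw [pow_one] at hb
        omega
      have h3 : (V.valuation z ^ m) ^ 2 = (V.valuation (unif K a) ^ (-b)) ^ 2 := by
        rw [← pow_mul, mul_comm m 2, ← hm, hr, h2, mul_comm 2 (-b), zpow_mul]
        rfl
      have h4 : V.valuation z ^ m = V.valuation (unif K a) ^ (-b) :=
        (pow_left_inj₀ zero_le zero_le two_ne_zero).1 h3
      exact ih m (by omega) (by omega) (-b) h4
    · exact ⟨n, ⟨m, hm⟩, r, hr⟩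

theorem rat_val (Y : Sys k Ω) (k2 k' : IntermediateField k Ω) (hk2 : Y.k0 ≤ k2) (hk : k2 ≤ k') (hfin : FiniteDimensional k k')
    (a : Option k') (z : Ω) (hz : z ∈ Y.S.F k') (q : Polynomial (Polynomial k2)) (hq : q.Monic) (hqz : (Y.U k' a).valuation (evt k2 q z) < 1)
    (hzU : z ∈ Y.U k' a) (hzm : ¬ (Y.U k' a).valuation z < 1) :
    ∃ s : ℕ, Odd s ∧ ∃ r : ℤ, (Y.V k' a).valuation z ^ s = (Y.V k' a).valuation (unif k' a) ^ r := by
  classical
  have hloc := Y.loc k' (hk2.trans hk) hfin a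
  have hπ0 := unif_ne_zero k' hfin a
  have hz0 : z ≠ 0 := by
    rintro rfl
    rw [map_zero] at hzm
    exact hzm zero_lt_one
  have hzv : (Y.V k' a).valuation z ≠ 0 := (Valuation.ne_zero_iff _).2 hz0
  have hmem : ∀ g : k2[X], aeval (tt k Ω) g ∈ kt k' := fun g => kt_mono k2 k' hk (aeval_mem_kt k2 g)
  have hfin2 : FiniteDimensional k k2 := by
    have h1 : FiniteDimensional k (IntermediateField.restrict hk) := inferInstance
    exact LinearEquiv.finiteDimensional (IntermediateField.restrictAlgEquiv hk).symm.toLinearEquiv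
  have hg0 : ∀ g : k2[X], g ≠ 0 → aeval (tt k Ω) g ≠ 0 := fun g hg => aeval_tt_ne k2 hfin2 g hg
  set T : ℕ → Ω := fun i => aeval (tt k Ω) (q.coeff i) * z ^ i with hT
  set I : Finset ℕ := (Finset.range (q.natDegree + 1)).filter fun i => q.coeff i ≠ 0 with hI
  have hsum : evt k2 q z = ∑ i ∈ I, T i := by
    unfold evt
    rw [eval₂_eq_sum_range, hI, Finset.sum_filter_of_ne]
    · rfl
    · intro i _ hne h0
      apply hne
      rw [hT]
      simp only [h0, map_zero, zero_mul]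
  have hdI : q.natDegree ∈ I := by
    rw [hI, Finset.mem_filter, Finset.mem_range]
    refine ⟨by omega, ?_⟩
    rw [hq.coeff_natDegree]
    exact one_ne_zero
  obtain ⟨i0, hi0, hmax⟩ := Finset.exists_max_image I (fun i => (Y.V k' a).valuation (T i)) ⟨_, hdI⟩
  have hTne : ∀ i ∈ I, T i ≠ 0 := by
    intro i hi
    exact mul_ne_zero (hg0 _ (Finset.mem_filter.1 hi).2) (pow_ne_zero i hz0)
  -- a second index
  have h2nd : ∃ j ∈ I, j ≠ i0 ∧ (Y.V k' a).valuation (T j) = (Y.V k' a).valuation (T i0) := by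
    by_contra hcon
    have hlt : ∀ j ∈ I.erase i0, (Y.V k' a).valuation (T j) < (Y.V k' a).valuation (T i0) := by
      intro j hj
      obtain ⟨hj1, hj2⟩ := Finset.mem_erase.1 hj
      exact lt_of_le_of_ne (hmax j hj2) fun h => hcon ⟨j, hj2, hj1, h⟩
    have h1 : (Y.V k' a).valuation (∑ j ∈ I.erase i0, T j) < (Y.V k' a).valuation (T i0) :=
      Valuation.map_sum_lt _ ((Valuation.ne_zero_iff _).2 (hTne i0 hi0)) hlt
    have h2 : (Y.V k' a).valuation (evt k2 q z) = (Y.V k' a).valuation (T i0) := by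
      rw [hsum, ← Finset.add_sum_erase I T hi0]
      exact Valuation.map_add_eq_of_lt_left _ h1
    have h3 : (Y.V k' a).valuation z ^ q.natDegree ≤ (Y.V k' a).valuation (evt k2 q z) := by
      rw [h2]
      have h4 := hmax _ hdI
      have h5 : T q.natDegree = z ^ q.natDegree := by
        rw [hT]
        simp only [hq.coeff_natDegree, map_one, one_mul]
      rw [h5, map_pow] at h4
      exact h4
    have h6 : ∃ m : ℕ, (Y.V k' a).valuation (unif k' a) ^ m < (Y.V k' a).valuation z := by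
      by_contra hno
      apply hzm
      refine (coarse_lt_one (Y.V k' a) (unif k' a) hπ0 hloc.unif z).2 fun m => ?_
      by_contra hlt'
      exact hno ⟨m, not_le.1 hlt'⟩
    obtain ⟨m, hm⟩ := h6
    have h7 := pow_le_pow_left' hm.le q.natDegree
    have h8 := coarse_of_lt (Y.V k' a) (unif k' a) hπ0 hloc.unif _ hqz (m * q.natDegree)
    rw [← pow_mul] at h7
    exact absurd (h7.trans h3) (not_le.2 h8)
  obtain ⟨j, hj, hji, heq⟩ := h2nd
  -- an equation `|z|^n = |π|^r`
  have hkey : ∀ i j : ℕ, i < j → i ∈ I → j ∈ I → (Y.V k' a).valuation (T i) = (Y.V k' a).valuation (T j) →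
      ∃ n : ℕ, 0 < n ∧ ∃ r : ℤ, (Y.V k' a).valuation z ^ n = (Y.V k' a).valuation (unif k' a) ^ r := by
    intro i j hij hi hj he
    have hqi := hg0 _ (Finset.mem_filter.1 hi).2
    have hqj := hg0 _ (Finset.mem_filter.1 hj).2
    obtain ⟨m, hm⟩ := hloc.kt_val hfin (aeval (tt k Ω) (q.coeff i) / aeval (tt k Ω) (q.coeff j))
      (div_mem (hmem _) (hmem _)) (div_ne_zero hqi hqj)
    refine ⟨j - i, by omega, m, ?_⟩
    rw [← hm, map_div₀]
    have hqjv : (Y.V k' a).valuation (aeval (tt k Ω) (q.coeff j)) ≠ 0 := (Valuation.ne_zero_iff _).2 hqj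
    rw [eq_div_iff hqjv]
    have h1 : (Y.V k' a).valuation z ^ i ≠ 0 := pow_ne_zero i hzv
    apply mul_right_cancel₀ h1
    rw [hT] at he
    simp only [map_mul, map_pow] at he
    rw [he, mul_right_comm, ← pow_add, Nat.sub_add_cancel hij.le, mul_comm]
  obtain ⟨n, hn, r, hr⟩ : ∃ n : ℕ, 0 < n ∧ ∃ r : ℤ, (Y.V k' a).valuation z ^ n = (Y.V k' a).valuation (unif k' a) ^ r := by
    rcases lt_or_gt_of_ne hji with h | h
    · exact hkey j i0 h hj hi0 heq
    · exact hkey i0 j h hi0 hj heq.symm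
  exact v6_odd hfin hloc z hz n hn r hr

private theorem v7_step {K : IntermediateField k Ω} (hfin : FiniteDimensional k K) {a : Option K} {S : Sec (RatFunc k) Ω}
    {V : ValuationSubring Ω} (h : Loc S K a V) (j s : ℕ) (m r : ℤ) (φ g w : Ω) (hw : w ∈ S.F K) (hw0 : w ≠ 0)
    (hφ : φ = g * w ^ (2 ^ j)) (hg : V.valuation g = V.valuation (unif K a) ^ m)
    (hr : V.valuation φ ^ s = V.valuation (unif K a) ^ r) : (2 ^ j : ℤ) ∣ m * s - r := by
  have hπ : V.valuation (unif K a) ≠ 0 := (Valuation.ne_zero_iff _).2 (unif_ne_zero K hfin a)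
  have hwv : V.valuation w ≠ 0 := (Valuation.ne_zero_iff _).2 hw0
  refine h.ram_pow hfin j (m * s - r) (w ^ s) (pow_mem hw s) ?_
  have h0 : (V.valuation (unif K a) ^ m) ^ s ≠ 0 := pow_ne_zero s (zpow_ne_zero m hπ)
  have h1 : V.valuation w ^ (2 ^ j * s) ≠ 0 := pow_ne_zero _ hwv
  rw [zpow_sub₀ hπ, ← hr, hφ, map_mul, map_pow, map_pow, hg, mul_pow, zpow_mul, zpow_natCast,
    ← pow_mul, ← pow_mul, mul_comm s (2 ^ j)]
  rw [div_mul_eq_mul_div, div_eq_one_iff_eq (mul_ne_zero h0 h1)]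

private theorem v7_root (k3 K : IntermediateField k Ω) (hK : k3 ≤ K) (g : k3[X]) (α : Ω) (hα : α ∈ K) :
    (g.map (IntermediateField.inclusion hK).toRingHom).rootMultiplicity ⟨α, hα⟩ =
      (g.map (algebraMap k3 Ω)).rootMultiplicity α := by
  have h1 := eq_rootMultiplicity_map (p := g.map (IntermediateField.inclusion hK).toRingHom)
    (f := algebraMap K Ω) (algebraMap K Ω).injective ⟨α, hα⟩
  rw [h1, map_map]
  rfl

private theorem v7_aeval (k3 K : IntermediateField k Ω) (hK : k3 ≤ K) (g : k3[X]) (x : Ω) :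
    aeval x (g.map (IntermediateField.inclusion hK).toRingHom) = aeval x g := by
  rw [aeval_def, eval₂_map, aeval_def]
  rfl

theorem prod_formula (Y : Sys k Ω) (k3 : IntermediateField k Ω) (hk3 : Y.k0 ≤ k3) (hfin : FiniteDimensional k k3) (φ : Ω)
    (hφ : φ ∈ Y.S.F k3) (h0 : φ ≠ 0) (s : ℕ) (hs : Odd s) (Z : Finset Ω) (r : Ω → ℤ)
    (hZ : ∀ α ∈ Z, ∃ K : IntermediateField k Ω, k3 ≤ K ∧ FiniteDimensional k K ∧ ∃ hα : α ∈ K,
      (Y.V K (some ⟨α, hα⟩)).valuation φ ^ s = (Y.V K (some ⟨α, hα⟩)).valuation (unif K (some ⟨α, hα⟩)) ^ (r α))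
    (hZ' : ∀ α : Ω, IsAlgebraic k α → α ∉ Z → ∃ K : IntermediateField k Ω, k3 ≤ K ∧ FiniteDimensional k K ∧ ∃ hα : α ∈ K,
      (Y.V K (some ⟨α, hα⟩)).valuation φ = 1)
    (rinf : ℤ) (hinf : (Y.V k3 none).valuation φ ^ s = (Y.V k3 none).valuation (unif k3 none) ^ rinf) :
    ∑ α ∈ Z, r α + rinf = 0 := by
  classical
  have key : ∀ j : ℕ, (2 ^ j : ℤ) ∣ ∑ α ∈ Z, r α + rinf := by
    intro j
    obtain ⟨g, hg0, w, hw, hw0, e⟩ := k2_pow Y.S hfin j φ hφ h0
    set G : Polynomial Ω := g.map (algebraMap k3 Ω) with hG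
    have hG0 : G ≠ 0 := by
      rw [hG, Ne, Polynomial.map_eq_zero]
      exact hg0
    -- one place
    have hone : ∀ (K : IntermediateField k Ω) (hK : k3 ≤ K) (hfinK : FiniteDimensional k K) (α : Ω) (hα : α ∈ K) (s' : ℕ) (r' : ℤ),
        (Y.V K (some ⟨α, hα⟩)).valuation φ ^ s' = (Y.V K (some ⟨α, hα⟩)).valuation (unif K (some ⟨α, hα⟩)) ^ r' →
        (2 ^ j : ℤ) ∣ (G.rootMultiplicity α : ℤ) * s' - r' := by
      intro K hK hfinK α hα s' r' hr'
      have hloc := Y.loc K (hk3.trans hK) hfinK (some ⟨α, hα⟩)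
      have hgK0 : g.map (IntermediateField.inclusion hK).toRingHom ≠ 0 := by
        rw [Ne, Polynomial.map_eq_zero]
        exact hg0
      have hv := hloc.poly_val _ hgK0
      rw [v7_root, v7_aeval] at hv
      refine v7_step hfinK hloc j s' _ r' φ _ w (Y.S.F_mono hK hw) hw0 e ?_ hr'
      rw [zpow_natCast]
      exact hv
    -- roots of `g`
    have halg : ∀ α ∈ G.roots, IsAlgebraic k α := by
      intro α hα
      have h1 : IsAlgebraic k3 α := by
        refine ⟨g, hg0, ?_⟩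
        have h2 := (mem_roots hG0).1 hα
        rw [IsRoot, hG, eval_map_algebraMap] at h2
        exact h2
      have h3 : Algebra.IsAlgebraic k k3 := Algebra.IsAlgebraic.of_finite k k3
      exact h1.restrictScalars k
    set r' : Ω → ℤ := fun α => if α ∈ Z then r α else 0 with hr'
    have hall : ∀ α ∈ Z ∪ G.roots.toFinset, (2 ^ j : ℤ) ∣ (G.rootMultiplicity α : ℤ) * s - r' α := by
      intro α hα
      by_cases hαZ : α ∈ Z
      · obtain ⟨K, hK, hfinK, hαK, hv⟩ := hZ α hαZ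
        have h4 := hone K hK hfinK α hαK s (r α) hv
        rw [hr']
        simp only [if_pos hαZ]
        exact h4
      · have h5 : α ∈ G.roots := by
          rcases Finset.mem_union.1 hα with h6 | h6
          · exact absurd h6 hαZ
          · exact Multiset.mem_toFinset.1 h6
        obtain ⟨K, hK, hfinK, hαK, hv⟩ := hZ' α (halg α h5) hαZ
        have h4 := hone K hK hfinK α hαK 1 0 (by rw [hv, one_pow, zpow_zero])
        rw [hr']
        simp only [if_neg hαZ, sub_zero]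
        rw [Nat.cast_one, mul_one, sub_zero] at h4
        exact Dvd.dvd.mul_right h4 _
    have hsum := Finset.dvd_sum hall
    rw [Finset.sum_sub_distrib, ← Finset.sum_mul] at hsum
    have hS1 : ∑ α ∈ Z ∪ G.roots.toFinset, r' α = ∑ α ∈ Z, r α := by
      rw [← Finset.sum_subset (Finset.subset_union_left (s₁ := Z) (s₂ := G.roots.toFinset))
        (f := r')]
      · refine Finset.sum_congr rfl fun α hα => ?_
        rw [hr']
        simp only [if_pos hα]
      · intro α _ hα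
        rw [hr']
        simp only [if_neg hα]
    have hS2 : ∑ α ∈ Z ∪ G.roots.toFinset, (G.rootMultiplicity α : ℤ) = g.natDegree := by
      rw [← Finset.sum_subset (Finset.subset_union_right (s₁ := Z) (s₂ := G.roots.toFinset))
        (f := fun α => (G.rootMultiplicity α : ℤ))]
      · have h7 : ∑ α ∈ G.roots.toFinset, G.rootMultiplicity α = g.natDegree := by
          have h8 := Multiset.toFinset_sum_count_eq G.roots
          have h9 : G.roots.card = G.natDegree := splits_iff_card_roots.1 (IsAlgClosed.splits G)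
          rw [h9] at h8
          rw [show g.natDegree = G.natDegree from (natDegree_map _).symm, ← h8]
          refine Finset.sum_congr rfl fun α _ => ?_
          rw [count_roots]
        exact_mod_cast h7
      · intro α _ hα
        have h7 : α ∉ G.roots := fun h => hα (Multiset.mem_toFinset.2 h)
        have h8 : G.rootMultiplicity α = 0 := by
          rw [← count_roots]
          exact Multiset.count_eq_zero.2 h7
        simp [h8]
    rw [hS1, hS2] at hsum
    -- infinity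
    have hloc := Y.loc k3 hk3 hfin none
    have hv := hloc.poly_inf g hg0
    have hπ : (Y.V k3 none).valuation (unif k3 none) ≠ 0 := (Valuation.ne_zero_iff _).2 (unif_ne_zero k3 hfin none)
    have hv' : (Y.V k3 none).valuation (aeval (tt k Ω) g) =
        (Y.V k3 none).valuation (unif k3 none) ^ (-(g.natDegree : ℤ)) := by
      rw [zpow_neg, zpow_natCast]
      exact eq_inv_of_mul_eq_one_left hv
    have hi := v7_step hfin hloc j s _ rinf φ _ w hw hw0 e hv' hinf
    have h10 := dvd_neg.2 (dvd_add hsum hi)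
    have h11 : -((g.natDegree : ℤ) * s - ∑ α ∈ Z, r α + (-(g.natDegree : ℤ) * s - rinf)) = ∑ α ∈ Z, r α + rinf := by
      ring
    rwa [h11] at h10
  by_contra hne
  have h12 := Int.natAbs_dvd_natAbs.2 (key (∑ α ∈ Z, r α + rinf).natAbs)
  have h13 : 0 < (∑ α ∈ Z, r α + rinf).natAbs := Int.natAbs_pos.2 hne
  have h14 := Nat.le_of_dvd h13 h12
  rw [Int.natAbs_pow] at h14
  have h15 : (∑ α ∈ Z, r α + rinf).natAbs < 2 ^ (∑ α ∈ Z, r α + rinf).natAbs := Nat.lt_two_pow_self
  have h16 : (2 : ℤ).natAbs = 2 := rfl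
  rw [h16] at h14
  omega

private theorem v8_evt (k2 k3 : IntermediateField k Ω) (hk : k2 ≤ k3) (q : Polynomial (Polynomial k2)) (z : Ω) :
    evt k3 (q.map (mapRingHom (IntermediateField.inclusion hk).toRingHom)) z = evt k2 q z := by
  unfold evt
  rw [eval₂_map]
  congr 1
  ext x
  · simp
  · simp

private theorem v8_aeval (k2 k3 : IntermediateField k Ω) (hk : k2 ≤ k3) (g : k2[X]) (x : Ω) :
    aeval x (g.map (IntermediateField.inclusion hk).toRingHom) = aeval x g := by
  rw [aeval_def, eval₂_map, aeval_def]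
  rfl

private theorem v8_coarse_lt {K : IntermediateField k Ω} (hfin : FiniteDimensional k K) {S : Sec (RatFunc k) Ω} {a : Option K}
    {V : ValuationSubring Ω} (h : Loc S K a V) (z : Ω) (hz : (coarse V (unif K a)).valuation z < 1) : V.valuation z < 1 := by
  have := coarse_of_lt V (unif K a) (unif_ne_zero K hfin a) h.unif z hz 0
  simpa using this

/-- an element of `k'(t)` has value 1 for `U` -/
private theorem v8_unit (Y : Sys k Ω) (K : IntermediateField k Ω) (hK : Y.k0 ≤ K) (hfin : FiniteDimensional k K) (a : Option K)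
    (g : K[X]) (hg : g ≠ 0) : (Y.U K a).valuation (aeval (tt k Ω) g) = 1 :=
  (Y.loc K hK hfin a).coarse_kt hfin _ (aeval_mem_kt K g) (aeval_tt_ne K hfin g hg)

theorem Xi.V1 (X : Xi Y ξ) (k1 : IntermediateField k Ω) (hk1 : Y.k0 ≤ k1) (hfin1 : FiniteDimensional k k1) (y : Ω)
    (hy : y ∈ Y.S.F k1) : ∃ k' : IntermediateField k Ω, k1 ≤ k' ∧ FiniteDimensional k k' ∧ ∃ a : Option k',
      y ∉ Y.U k' a ∨ ∃ r ∈ kt k', (Y.U k' a).valuation (y - r) < 1 := by
  classical
  by_contra hcon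
  have hbad : ∀ k' : IntermediateField k Ω, k1 ≤ k' → FiniteDimensional k k' → ∀ a : Option k',
      y ∈ Y.U k' a ∧ ∀ r ∈ kt k', ¬ (Y.U k' a).valuation (y - r) < 1 := by
    intro k' hk' hfin' a
    constructor
    · by_contra h
      exact hcon ⟨k', hk', hfin', a, Or.inl h⟩
    · intro r hr h
      exact hcon ⟨k', hk', hfin', a, Or.inr ⟨r, hr, h⟩⟩
  obtain ⟨k2, hk12, hfin2, D, hD, q, hq, hqy, hqr, u, v, Δ, hΔ, huv⟩ := X.bad_int k1 hk1 hfin1 y hbad
  have hk2 : Y.k0 ≤ k2 := hk1.trans hk12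
  set y' : Ω := aeval (tt k Ω) D * y with hy'
  obtain ⟨h, hb⟩ := evt_bound Y k2 hk2 q hq
  -- the points
  have hinf : Set.Infinite {x : k2 | Δ.eval x ≠ 0} := by
    have h1 : {x : k2 | Δ.eval x ≠ 0} = ({x : k2 | Δ.IsRoot x})ᶜ := rfl
    rw [h1]
    exact Set.Finite.infinite_compl (Polynomial.finite_setOfPred_isRoot hΔ)
  set emb := hinf.natEmbedding with hemb
  set a : Fin (2 * h + 1) → k2 := fun i => (emb i.1 : k2) with ha
  have hainj : Function.Injective a := by
    intro i j hij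
    exact Fin.ext (emb.injective (Subtype.ext hij))
  have haΔ : ∀ i, Δ.eval (a i) ≠ 0 := fun i => (emb i.1).2
  obtain ⟨k3, hk23, hfin3, hroots⟩ := exists_level k2 hfin2
    (⋃ i : Fin (2 * h + 1), {c : Ω | aeval c (q.map (evalRingHom (a i))) = 0})
    (Set.finite_iUnion fun i => by
      have hm : q.map (evalRingHom (a i)) ≠ 0 := (hq.map _).ne_zero
      have hm' : (q.map (evalRingHom (a i))).map (algebraMap k2 Ω) ≠ 0 := by
        rw [Ne, Polynomial.map_eq_zero]
        exact hm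
      refine (Polynomial.finite_setOfPred_isRoot hm').subset ?_
      intro c hc
      show ((q.map (evalRingHom (a i))).map (algebraMap k2 Ω)).IsRoot c
      rw [IsRoot, eval_map_algebraMap]
      exact hc)
    (by
      intro c hc
      obtain ⟨i, hi⟩ := Set.mem_iUnion.1 hc
      have h1 : IsAlgebraic k2 c := ⟨_, (hq.map (evalRingHom (a i))).ne_zero, hi⟩
      have h3 : Algebra.IsAlgebraic k k2 := Algebra.IsAlgebraic.of_finite k k2
      exact h1.restrictScalars k)
  have hk3 : Y.k0 ≤ k3 := hk2.trans hk23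
  have hk13 : k1 ≤ k3 := hk12.trans hk23
  have hex : ∀ i : Fin (2 * h + 1), ∃ c ∈ k3, (Y.V k3 (some ⟨(a i : Ω), hk23 (a i).2⟩)).valuation (y' - c) ≤
      (Y.V k3 (some ⟨(a i : Ω), hk23 (a i).2⟩)).valuation (unif k3 (some ⟨(a i : Ω), hk23 (a i).2⟩)) := by
    intro i
    exact unram Y k2 k3 hk2 hk23 hfin3 q hq u v Δ huv (a i) (haΔ i)
      (fun c hc => hroots (Set.mem_iUnion.2 ⟨i, hc⟩)) y' (hqy k3 hk23 hfin3 _)
  choose c hc hcv using hex
  set a3 : Fin (2 * h + 1) → k3 := fun i => ⟨(a i : Ω), hk23 (a i).2⟩ with ha3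
  have ha3inj : Function.Injective a3 := by
    intro i j hij
    exact hainj (Subtype.ext (congrArg (fun x : k3 => (x : Ω)) hij))
  obtain ⟨A, B, hAd, hBd, hB0, hAB⟩ := linalg k3 h a3 (fun i => ⟨c i, hc i⟩) ha3inj
  set tA : Ω := aeval (tt k Ω) A with htA
  set tB : Ω := aeval (tt k Ω) B with htB
  have htB0 : tB ≠ 0 := aeval_tt_ne k3 hfin3 B hB0
  set φ : Ω := tB * y' - tA with hφdef
  have hyF : y' ∈ Y.S.F k3 := by
    rw [hy']
    refine mul_mem ?_ (Y.S.F_mono hk13 hy)
    exact Y.S.F_mono hk23 (kt_le_F Y.S k2 hfin2 _ (aeval_mem_kt k2 D))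
  have hφF : φ ∈ Y.S.F k3 :=
    sub_mem (mul_mem (kt_le_F Y.S k3 hfin3 _ (aeval_mem_kt k3 B)) hyF)
      (kt_le_F Y.S k3 hfin3 _ (aeval_mem_kt k3 A))
  -- `φ` is not infinitely small
  have hφm : ∀ (K : IntermediateField k Ω) (_ : k3 ≤ K) (_ : FiniteDimensional k K) (b : Option K),
      ¬ (Y.U K b).valuation φ < 1 := by
    intro K hK hfinK b hlt
    have hDB0 : (B * D.map (IntermediateField.inclusion hk23).toRingHom).map
        (IntermediateField.inclusion hK).toRingHom ≠ 0 := by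
      rw [Ne, Polynomial.map_eq_zero]
      refine mul_ne_zero hB0 ?_
      rw [Ne, Polynomial.map_eq_zero]
      exact hD
    have h1 := v8_unit Y K (hk3.trans hK) hfinK b _ hDB0
    rw [v8_aeval, map_mul, v8_aeval] at h1
    have hE0 : tB * aeval (tt k Ω) D ≠ 0 :=
      mul_ne_zero htB0 (aeval_tt_ne k2 hfin2 D hD)
    have h2 : φ = (tB * aeval (tt k Ω) D) * (y - tA / (tB * aeval (tt k Ω) D)) := by
      rw [mul_sub, mul_div_cancel₀ _ hE0, hφdef, hy']
      ring
    rw [h2, map_mul, h1, one_mul] at hlt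
    refine (hbad K (hk13.trans hK) hfinK b).2 _ ?_ hlt
    refine div_mem (kt_mono k3 K hK (aeval_mem_kt k3 A)) (mul_mem (kt_mono k3 K hK (aeval_mem_kt k3 B)) ?_)
    exact kt_mono k2 K (hk23.trans hK) (aeval_mem_kt k2 D)
  have hφ0 : φ ≠ 0 := by
    intro h0
    apply hφm k3 le_rfl hfin3 none
    rw [h0, map_zero]
    exact zero_lt_one
  have hφU : ∀ (K : IntermediateField k Ω) (_ : k3 ≤ K) (_ : FiniteDimensional k K) (b : Option K), φ ∈ Y.U K b := by
    intro K hK hfinK b
    have hpoly : ∀ g : k3[X], aeval (tt k Ω) g ∈ Y.U K b := by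
      intro g
      by_cases hg : g = 0
      · rw [hg, map_zero]
        exact zero_mem _
      have hg' : g.map (IntermediateField.inclusion hK).toRingHom ≠ 0 := by
        rw [Ne, Polynomial.map_eq_zero]
        exact hg
      have h1 := v8_unit Y K (hk3.trans hK) hfinK b _ hg'
      rw [v8_aeval] at h1
      exact (ValuationSubring.valuation_le_one_iff _ _).1 h1.le
    have hDU : aeval (tt k Ω) D ∈ Y.U K b := by
      have := hpoly (D.map (IntermediateField.inclusion hk23).toRingHom)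
      rwa [v8_aeval] at this
    exact sub_mem (mul_mem (hpoly B) (mul_mem hDU (hbad K (hk13.trans hK) hfinK b).1)) (hpoly A)
  -- the polynomial `Q`
  obtain ⟨Q, hQ, hQz⟩ := evt_subst k3 (q.map (mapRingHom (IntermediateField.inclusion hk23).toRingHom))
    (hq.map _) A B
  have hQφ : ∀ (K : IntermediateField k Ω) (_ : k3 ≤ K) (_ : FiniteDimensional k K) (b : Option K),
      (Y.U K b).valuation (evt k3 Q φ) < 1 := by
    intro K hK hfinK b
    rw [hφdef, hQz, v8_evt, map_mul, map_pow]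
    have hB' : B.map (IntermediateField.inclusion hK).toRingHom ≠ 0 := by
      rw [Ne, Polynomial.map_eq_zero]
      exact hB0
    have h1 := v8_unit Y K (hk3.trans hK) hfinK b _ hB'
    rw [v8_aeval] at h1
    rw [h1, one_pow, one_mul]
    exact hqy K (hk23.trans hK) hfinK b
  have hn0 : Q.coeff 0 ≠ 0 := by
    intro h0
    have h1 := hQz (tA / tB)
    rw [mul_div_cancel₀ _ htB0, sub_self, v8_evt] at h1
    have h2 : evt k3 Q 0 = 0 := by
      unfold evt
      rw [eval₂_at_zero, h0, map_zero]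
    rw [h2] at h1
    rcases mul_eq_zero.1 h1.symm with h3 | h3
    · exact pow_ne_zero _ htB0 h3
    · exact hqr k3 hk23 hfin3 _ (div_mem (aeval_mem_kt k3 A) (aeval_mem_kt k3 B)) h3
  have hn0' : (Q.coeff 0).map (algebraMap k3 Ω) ≠ 0 := by
    rw [Ne, Polynomial.map_eq_zero]
    exact hn0
  set Z : Finset Ω := ((Q.coeff 0).map (algebraMap k3 Ω)).roots.toFinset with hZdef
  have hZmem : ∀ α : Ω, α ∈ Z ↔ aeval α (Q.coeff 0) = 0 := by
    intro α
    rw [hZdef, Multiset.mem_toFinset, mem_roots hn0', IsRoot, eval_map_algebraMap]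
  -- integrality
  obtain ⟨h', hb'⟩ := evt_bound Y k3 hk3 Q hQ
  have hφV : ∀ (K : IntermediateField k Ω) (_ : k3 ≤ K) (_ : FiniteDimensional k K) (α : K), φ ∈ Y.V K (some α) := by
    intro K hK hfinK α
    exact (hb' K hK hfinK φ).1 α (hQφ K hK hfinK _)
  have hφone : ∀ (K : IntermediateField k Ω) (_ : k3 ≤ K) (_ : FiniteDimensional k K) (α : K), (α : Ω) ∉ Z →
      (Y.V K (some α)).valuation φ = 1 := by
    intro K hK hfinK α hα
    refine unit_of_const Y k3 K hk3 hK hfinK Q α φ (hφV K hK hfinK α) ?_ ?_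
    · exact v8_coarse_lt hfinK (Y.loc K (hk3.trans hK) hfinK (some α)) _ (hQφ K hK hfinK _)
    · intro h0
      exact hα ((hZmem _).2 h0)
  -- the values at the points `a i`
  have hφa : ∀ i, (Y.V k3 (some (a3 i))).valuation φ ≤ (Y.V k3 (some (a3 i))).valuation (unif k3 (some (a3 i))) := by
    intro i
    have hloc := Y.loc k3 hk3 hfin3 (some (a3 i))
    set P : k3[X] := B * C ⟨c i, hc i⟩ - A with hP
    have hPe : P.eval (a3 i) = 0 := by
      rw [hP, eval_sub, eval_mul, eval_C, hAB i, sub_self]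
    have h1 := hloc.poly_le P
    rw [hPe] at h1
    have h2 : φ = tB * (y' - c i) + (aeval (tt k Ω) P - ((0 : k3) : Ω)) := by
      rw [hP, map_sub, map_mul, aeval_C]
      have : algebraMap k3 Ω ⟨c i, hc i⟩ = c i := rfl
      rw [this, hφdef]
      push_cast
      ring
    rw [h2]
    refine (Valuation.map_add _ _ _).trans (max_le ?_ h1)
    rw [map_mul]
    have h3 : (Y.V k3 (some (a3 i))).valuation tB ≤ 1 := by
      rw [htB, hloc.poly_val B hB0]
      exact pow_le_one₀ zero_le hloc.unif.le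
    calc (Y.V k3 (some (a3 i))).valuation tB * (Y.V k3 (some (a3 i))).valuation (y' - c i)
        ≤ 1 * (Y.V k3 (some (a3 i))).valuation (unif k3 (some (a3 i))) := mul_le_mul' h3 (hcv i)
      _ = _ := one_mul _
  have haZ : ∀ i, ((a3 i : k3) : Ω) ∈ Z := by
    intro i
    by_contra hnot
    have h1 := hφone k3 le_rfl hfin3 (a3 i) hnot
    have h2 := hφa i
    rw [h1] at h2
    exact absurd (Y.loc k3 hk3 hfin3 (some (a3 i))).unif (not_lt.2 h2)
  -- the values at the points of `Z`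
  have hplace : ∀ α ∈ Z, ∃ s : ℕ, Odd s ∧ ∃ r : ℤ, 0 ≤ r ∧ ((∃ i, ((a3 i : k3) : Ω) = α) → (s : ℤ) ≤ r) ∧
      ∃ K : IntermediateField k Ω, k3 ≤ K ∧ FiniteDimensional k K ∧ ∃ hα : α ∈ K,
        (Y.V K (some ⟨α, hα⟩)).valuation φ ^ s = (Y.V K (some ⟨α, hα⟩)).valuation (unif K (some ⟨α, hα⟩)) ^ r := by
    intro α hα
    have hpos : ∀ (K : IntermediateField k Ω) (hK : k3 ≤ K) (hfinK : FiniteDimensional k K) (b : Option K),
        0 < (Y.V K b).valuation (unif K b) := by
      intro K hK hfinK b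
      exact zero_lt_iff.2 ((Valuation.ne_zero_iff _).2 (unif_ne_zero K hfinK b))
    by_cases hi : ∃ i, ((a3 i : k3) : Ω) = α
    · obtain ⟨i, hi⟩ := hi
      obtain ⟨s, hs, r, hr⟩ := rat_val Y k3 k3 hk3 le_rfl hfin3 (some (a3 i)) φ hφF Q hQ (hQφ k3 le_rfl hfin3 _)
        (hφU k3 le_rfl hfin3 _) (hφm k3 le_rfl hfin3 _)
      have h1 := (Y.loc k3 hk3 hfin3 (some (a3 i))).unif
      have h2 := hpos k3 le_rfl hfin3 (some (a3 i))
      have h3 : (s : ℤ) ≤ r := by
        have h4 := pow_le_pow_left' (hφa i) s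
        rw [hr, ← zpow_natCast ((Y.V k3 (some (a3 i))).valuation (unif k3 (some (a3 i)))) s] at h4
        exact (zpow_le_zpow_iff_right_of_lt_one₀ h2 h1).1 h4
      subst hi
      exact ⟨s, hs, r, by omega, fun _ => h3, k3, le_rfl, hfin3, (a3 i).2, hr⟩
    · have halg : IsAlgebraic k α := by
        have h1 : IsAlgebraic k3 α := ⟨_, hn0, (hZmem α).1 hα⟩
        have h3 : Algebra.IsAlgebraic k k3 := Algebra.IsAlgebraic.of_finite k k3
        exact h1.restrictScalars k
      obtain ⟨K, hK, hfinK, hαK⟩ := exists_level k3 hfin3 {α} (Set.finite_singleton α)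
        (fun x hx => by rw [Set.mem_singleton_iff.1 hx]; exact halg)
      have hαK' : α ∈ K := hαK rfl
      obtain ⟨s, hs, r, hr⟩ := rat_val Y k3 K hk3 hK hfinK (some ⟨α, hαK'⟩) φ (Y.S.F_mono hK hφF) Q hQ
        (hQφ K hK hfinK _) (hφU K hK hfinK _) (hφm K hK hfinK _)
      have h1 := (Y.loc K (hk3.trans hK) hfinK (some ⟨α, hαK'⟩)).unif
      have h2 := hpos K hK hfinK (some ⟨α, hαK'⟩)
      have h3 : 0 ≤ r := by
        have h4 := pow_le_one' ((ValuationSubring.valuation_le_one_iff _ _).2 (hφV K hK hfinK ⟨α, hαK'⟩)) s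
        rw [hr] at h4
        exact (zpow_le_one_iff_right_of_lt_one₀ h2 h1).1 h4
      exact ⟨s, hs, r, h3, fun h5 => absurd h5 hi, K, hK, hfinK, hαK', hr⟩
  choose! s hs r hr0 hra hsr using hplace
  -- infinity
  obtain ⟨si, hsi, ri, hri⟩ := rat_val Y k3 k3 hk3 le_rfl hfin3 none φ hφF Q hQ (hQφ k3 le_rfl hfin3 _)
    (hφU k3 le_rfl hfin3 _) (hφm k3 le_rfl hfin3 _)
  have hpi : 0 < (Y.V k3 none).valuation (unif k3 none) :=
    zero_lt_iff.2 ((Valuation.ne_zero_iff _).2 (unif_ne_zero k3 hfin3 none))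
  have hpi1 := (Y.loc k3 hk3 hfin3 none).unif
  have hφi : (Y.V k3 none).valuation φ * (Y.V k3 none).valuation (unif k3 none) ^ (2 * h) ≤ 1 := by
    have hy1 := (hb k3 hk23 hfin3 y').2 (hqy k3 hk23 hfin3 none)
    have hpol : ∀ g : k3[X], g.natDegree ≤ h →
        (Y.V k3 none).valuation (aeval (tt k Ω) g) * (Y.V k3 none).valuation (unif k3 none) ^ h ≤ 1 := by
      intro g hg
      by_cases hg0 : g = 0
      · rw [hg0, map_zero, map_zero, zero_mul]
        exact zero_le
      have h1 := (Y.loc k3 hk3 hfin3 none).poly_inf g hg0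
      have h2 : h = g.natDegree + (h - g.natDegree) := by omega
      rw [h2, pow_add, ← mul_assoc, h1, one_mul]
      exact pow_le_one₀ zero_le hpi1.le
    set x := (Y.V k3 none).valuation (unif k3 none) with hx
    have h1 := Valuation.map_sub (Y.V k3 none).valuation (tB * y') tA
    have h2 : (Y.V k3 none).valuation (tB * y') * x ^ (2 * h) ≤ 1 := by
      rw [map_mul, two_mul, pow_add]
      calc (Y.V k3 none).valuation tB * (Y.V k3 none).valuation y' * (x ^ h * x ^ h)
          = ((Y.V k3 none).valuation tB * x ^ h) * ((Y.V k3 none).valuation y' * x ^ h) := by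
            rw [mul_mul_mul_comm]
        _ ≤ 1 * 1 := mul_le_mul' (hpol B hBd) hy1
        _ = 1 := one_mul 1
    have h3 : (Y.V k3 none).valuation tA * x ^ (2 * h) ≤ 1 := by
      rw [two_mul, pow_add, ← mul_assoc]
      calc (Y.V k3 none).valuation tA * x ^ h * x ^ h ≤ 1 * 1 :=
            mul_le_mul' (hpol A hAd) (pow_le_one₀ zero_le hpi1.le)
        _ = 1 := one_mul 1
    rcases le_max_iff.1 h1 with h4 | h4
    · exact (mul_le_mul' h4 le_rfl).trans h2
    · exact (mul_le_mul' h4 le_rfl).trans h3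
  have hri' : -((2 * h : ℕ) : ℤ) * si ≤ ri := by
    have h1 := pow_le_one' hφi si
    rw [mul_pow, hri, ← pow_mul, ← zpow_natCast _ (2 * h * si), ← zpow_add₀ hpi.ne'] at h1
    have h2 := (zpow_le_one_iff_right_of_lt_one₀ hpi hpi1).1 h1
    push_cast at h2 ⊢
    linarith
  -- a common exponent
  set s0 : ℕ := ∏ α ∈ Z, s α with hs0
  have hs0odd : Odd s0 := Finset.prod_induction s Odd (fun _ _ h1 h2 => h1.mul h2) odd_one hs
  have hdvd : ∀ α ∈ Z, s α ∣ si * s0 := fun α hα => Dvd.dvd.mul_left (Finset.dvd_prod_of_mem s hα) si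
  have hpf := prod_formula Y k3 hk3 hfin3 φ hφF hφ0 (si * s0) (hsi.mul hs0odd) Z
    (fun α => r α * ((si * s0 / s α : ℕ) : ℤ))
    (by
      intro α hα
      obtain ⟨K, hK, hfinK, hαK, hv⟩ := hsr α hα
      refine ⟨K, hK, hfinK, hαK, ?_⟩
      have h1 : si * s0 = s α * (si * s0 / s α) := (Nat.mul_div_cancel' (hdvd α hα)).symm
      conv_lhs => rw [h1]
      rw [pow_mul, hv, zpow_mul, zpow_natCast])
    (by
      intro α halg hα
      obtain ⟨K, hK, hfinK, hαK⟩ := exists_level k3 hfin3 {α} (Set.finite_singleton α)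
        (fun x hx => by rw [Set.mem_singleton_iff.1 hx]; exact halg)
      have hαK' : α ∈ K := hαK rfl
      exact ⟨K, hK, hfinK, hαK', hφone K hK hfinK ⟨α, hαK'⟩ hα⟩)
    (ri * (s0 : ℤ)) (by rw [pow_mul, hri, zpow_mul, zpow_natCast])
  have hspos : 0 < si * s0 := Nat.mul_pos hsi.pos hs0odd.pos
  have hterm : ∀ α ∈ Z, 0 ≤ r α * ((si * s0 / s α : ℕ) : ℤ) := fun α hα =>
    mul_nonneg (hr0 α hα) (Int.natCast_nonneg _)
  have hsub : (Finset.univ.image fun i => ((a3 i : k3) : Ω)) ⊆ Z := by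
    intro α hα
    obtain ⟨i, -, hi⟩ := Finset.mem_image.1 hα
    rw [← hi]
    exact haZ i
  have hsum1 := Finset.sum_le_sum_of_subset_of_nonneg hsub (f := fun α => r α * ((si * s0 / s α : ℕ) : ℤ))
    (fun α hα _ => hterm α hα)
  have hinj : Function.Injective fun i => ((a3 i : k3) : Ω) := fun i j hij => ha3inj (Subtype.ext hij)
  rw [Finset.sum_image (fun i _ j _ hij => hinj hij)] at hsum1
  have hsum2 : ∑ _i : Fin (2 * h + 1), ((si * s0 : ℕ) : ℤ) ≤
      ∑ i : Fin (2 * h + 1), r ((a3 i : k3) : Ω) * ((si * s0 / s ((a3 i : k3) : Ω) : ℕ) : ℤ) := by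
    refine Finset.sum_le_sum fun i _ => ?_
    have h1 : si * s0 = s ((a3 i : k3) : Ω) * (si * s0 / s ((a3 i : k3) : Ω)) :=
      (Nat.mul_div_cancel' (hdvd _ (haZ i))).symm
    have h2 := hra _ (haZ i) ⟨i, rfl⟩
    calc ((si * s0 : ℕ) : ℤ) = (s ((a3 i : k3) : Ω) : ℤ) * ((si * s0 / s ((a3 i : k3) : Ω) : ℕ) : ℤ) := by
          exact_mod_cast h1
      _ ≤ _ := mul_le_mul_of_nonneg_right h2 (Int.natCast_nonneg _)
  rw [Finset.sum_const, Finset.card_univ, Fintype.card_fin, nsmul_eq_mul] at hsum2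
  have hri2 : -((2 * h : ℕ) : ℤ) * ((si * s0 : ℕ) : ℤ) ≤ ri * (s0 : ℤ) := by
    have := mul_le_mul_of_nonneg_right hri' (Int.natCast_nonneg s0)
    push_cast at this ⊢
    linarith
  have hfinal : (1 : ℤ) ≤ ((si * s0 : ℕ) : ℤ) := by exact_mod_cast hspos
  have h20 := hsum2.trans hsum1
  push_cast at h20 hri2 hfinal hpf
  nlinarith

end BSC
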